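import Pool.Agent.H483C6.Stmts

/-!
# Further definitions for the blueprint (MP_1bffa4_co, helper483)
-/

set_option autoImplicit false

namespace Pool.Agent.H483C6

open Finset

section D2

variable {V : Type} [Fintype V] [DecidableEq V]

/-- path `a w w' d` with inner vertices in `W` and distinct ends in `Y` -/
def PieceA {V : Type} [DecidableEq V] (W Y : Finset V) (S : Finset (Sym2 V)) : Prop :=
  ∃ a w w' d, w ∈ W ∧ w' ∈ W ∧ w ≠ w' ∧ a ∈ Y ∧ d ∈ Y ∧ a ≠ d ∧
    S = {s(a, w), s(w, w'), s(w', d)}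

/-- path `u w u'` with inner vertex in `W` and distinct ends in `U1` -/
def PieceB {V : Type} [DecidableEq V] (W U1 : Finset V) (S : Finset (Sym2 V)) : Prop :=
  ∃ u w u', w ∈ W ∧ u ∈ U1 ∧ u' ∈ U1 ∧ u ≠ u' ∧ S = {s(u, w), s(w, u')}

/-- edges of a closed walk of length eight -/
def octg {V : Type} [DecidableEq V] (a b c d e f g h : V) : Finset (Sym2 V) :=
  {s(a, b), s(b, c), s(c, d), s(d, e), s(e, f), s(f, g), s(g, h), s(h, a)}

/-- edge set of an eight-cycle -/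
def IsOct {V : Type} [DecidableEq V] (S : Finset (Sym2 V)) : Prop :=
  ∃ a b c d e f g h : V, [a, b, c, d, e, f, g, h].Nodup ∧ S = octg a b c d e f g h

/-- transformations between the members of two classes `P`, `Q` of cycles -/
def SevenE (E : Finset (Sym2 V)) (r c : ℕ) (P Q : Finset (Sym2 V) → Prop) : Prop :=
  ∀ R : Finset V, R.card ≤ r → ∀ D D' : Finset (Sym2 V), P D → Q D' → D ⊆ E →
    D' ⊆ E → D ⊆ R.sym2 → D' ⊆ R.sym2 → Disjoint D D' →
    ∃ T ⊆ E, (∀ e ∈ T, e ∉ R.sym2) ∧ T.card ≤ c ∧ Dec (T ∪ D) ∧ Dec (T ∪ D')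

/-- any two disjoint eight-cycles inside `R` are transformable into each other -/
def EightC (E : Finset (Sym2 V)) (r c : ℕ) : Prop := SevenE E r c IsOct IsOct

/-- seven-cycles in which `z` and `y` are at distance three -/
def Wd {V : Type} [DecidableEq V] (z y : V) (D : Finset (Sym2 V)) : Prop :=
  ∃ a b c d e : V, [z, a, b, y, c, d, e].Nodup ∧ D = hept z a b y c d e

/-- bipartite graphs (parts `A`, `Aᶜ`) with robust short paths and hubs -/
structure BipP (E : Finset (Sym2 V)) (A : Finset V) (r : ℕ) : Prop where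
  bip : ∀ u v, s(u, v) ∈ E → (u ∈ A ↔ v ∉ A)
  hub : ∀ R : Finset V, R.card ≤ r → ∃ z ∈ A, z ∉ R ∧ ∀ R' : Finset V, R'.card ≤ r →
    ∀ x ∈ A, ∃ b, b ∉ R' ∧ s(z, b) ∈ E ∧ s(b, x) ∈ E
  three : ∀ R : Finset V, R.card ≤ r → ∀ u ∈ A, ∀ v, v ∉ A → ∃ a b, a ∉ R ∧ b ∉ R ∧
    s(u, a) ∈ E ∧ s(a, b) ∈ E ∧ s(b, v) ∈ E

/-- vertices different from `z` with at least `κ n` common neighbours with `z` -/
noncomputable def Bn (E : Finset (Sym2 V)) (κ : ℝ) (z : V) : Finset V :=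
  univ.filter fun y => y ≠ z ∧ κ * (Fintype.card V : ℝ) ≤ (cod E y z : ℝ)

/-- vertices different from `z` with fewer than `κ n` common neighbours with `z` -/
noncomputable def On (E : Finset (Sym2 V)) (κ : ℝ) (z : V) : Finset V :=
  univ.filter fun y => y ≠ z ∧ (cod E y z : ℝ) < κ * (Fintype.card V : ℝ)

/-- `y`, `y'` are joined by a path inside the vertex set `X` (only the vertices after `y` are
required to be in `X`) -/
def Conn (E : Finset (Sym2 V)) (X : Finset V) (y y' : V) : Prop :=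
  Relation.ReflTransGen (fun a b => s(a, b) ∈ E ∧ b ∈ X) y y'

/-- `z` is good: `E[Bn z \ R']` is connected for all small `R'` -/
def GoodV (E : Finset (Sym2 V)) (κ ρ1 : ℝ) (z : V) : Prop :=
  ∀ R' : Finset V, (R'.card : ℝ) ≤ ρ1 * (Fintype.card V : ℝ) →
    ∀ y ∈ Bn E κ z \ R', ∀ y' ∈ Bn E κ z \ R', Conn E (Bn E κ z \ R') y y'

/-- two adjacent edges -/
def VPair {V : Type} [DecidableEq V] (X : Finset V) (S : Finset (Sym2 V)) : Prop :=
  ∃ v a a', v ∈ X ∧ a ∈ X ∧ a' ∈ X ∧ a ≠ a' ∧ a ≠ v ∧ a' ≠ v ∧ S = {s(v, a), s(v, a')}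

end D2

end Pool.Agent.H483C6
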