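import Pool.Agent.H483C6.Paths
import Pool.Agent.H483C6.Stmts2

/-!
# Tools: pairing and fresh paths (MP_1bffa4_co)
-/

set_option autoImplicit false

namespace Pool.Agent.H483C6

open Finset

namespace Tools

theorem pairing_aux {V : Type} [DecidableEq V] {ι : Type} [DecidableEq ι]
    (T : ι → Finset (Sym2 V)) (n : ℕ) : ∀ (J : Finset ι) (_ : J.card = n + n)
    (_ : ∀ i ∈ J, ∀ j ∈ J, i ≠ j → Disjoint (T i) (T j))
    (_ : ∀ i ∈ J, ∀ j ∈ J, i ≠ j → Dec (T i ∪ T j)), Dec (J.biUnion T) := by
  induction n with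
  | zero =>
    intro J hn _ _
    have : J = ∅ := card_eq_zero.1 hn
    subst this
    rw [biUnion_empty]
    exact Dec.empty
  | succ n ih =>
    intro J hn hd h
    obtain ⟨i, hi⟩ : J.Nonempty := card_pos.1 (by omega)
    have h1 : (J.erase i).card = n + n + 1 := by
      rw [card_erase_of_mem hi]; omega
    obtain ⟨j, hj⟩ : (J.erase i).Nonempty := card_pos.1 (by omega)
    have h2 : ((J.erase i).erase j).card = n + n := by
      rw [card_erase_of_mem hj]; omega
    have hji : j ≠ i := (mem_erase.1 hj).1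
    have hjJ : j ∈ J := (mem_erase.1 hj).2
    have hsub : ∀ x ∈ (J.erase i).erase j, x ≠ j ∧ x ≠ i ∧ x ∈ J := by
      intro x hx
      rw [mem_erase, mem_erase] at hx
      exact hx
    have hJ' : J = insert i (insert j ((J.erase i).erase j)) := by
      rw [insert_erase hj, insert_erase hi]
    have ih' := ih ((J.erase i).erase j) h2
      (fun a ha b hb => hd a (hsub a ha).2.2 b (hsub b hb).2.2)
      (fun a ha b hb => h a (hsub a ha).2.2 b (hsub b hb).2.2)
    rw [hJ', biUnion_insert, biUnion_insert, ← union_assoc]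
    refine Dec.union (h i hi j hjJ hji.symm) ih' ?_
    rw [disjoint_union_left]
    constructor
    · rw [disjoint_biUnion_right]
      exact fun k hk => hd i hi k (hsub k hk).2.2 (hsub k hk).2.1.symm
    · rw [disjoint_biUnion_right]
      exact fun k hk => hd j hjJ k (hsub k hk).2.2 (hsub k hk).1.symm

end Tools

theorem Dec.pairing {V : Type} [DecidableEq V] {ι : Type} [DecidableEq ι] (J : Finset ι)
    (T : ι → Finset (Sym2 V)) (hJ : Even J.card)
    (hd : ∀ i ∈ J, ∀ j ∈ J, i ≠ j → Disjoint (T i) (T j))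
    (h : ∀ i ∈ J, ∀ j ∈ J, i ≠ j → Dec (T i ∪ T j)) : Dec (J.biUnion T) := by
  obtain ⟨n, hn⟩ := hJ
  exact Tools.pairing_aux T n J hn hd h

theorem fresh3 {V : Type} [Fintype V] [DecidableEq V] (E : Finset (Sym2 V)) (r k : ℕ)
    (h : ThreeP E (r + 2 * k)) (R : Finset V) (hR : R.card ≤ r) {ι : Type} [DecidableEq ι]
    (J : Finset ι) (hJ : J.card ≤ k) (u v : ι → V) :
    ∃ a b : ι → V, (∀ j ∈ J, a j ∉ R ∧ b j ∉ R ∧ s(u j, a j) ∈ E ∧ s(a j, b j) ∈ E ∧
        s(b j, v j) ∈ E) ∧
      ∀ i ∈ J, ∀ j ∈ J, i ≠ j → a i ≠ a j ∧ b i ≠ b j ∧ a i ≠ b j := by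
  induction J using Finset.induction_on with
  | empty =>
    refine ⟨u, v, ?_, ?_⟩
    · intro j hj
      exact absurd hj (notMem_empty j)
    · intro j hj
      exact absurd hj (notMem_empty j)
  | insert j0 J hj0 ih =>
    have hc : J.card + 1 ≤ k := by
      rw [card_insert_of_notMem hj0] at hJ
      exact hJ
    obtain ⟨a, b, h1, h2⟩ := ih (by omega)
    obtain ⟨a0, b0, h3, h4, h5, h6, h7⟩ := h (R ∪ (J.image a ∪ J.image b))
      (by
        refine (card_union_le _ _).trans ?_
        have := card_union_le (J.image a) (J.image b)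
        have e1 := card_image_le (s := J) (f := a)
        have e2 := card_image_le (s := J) (f := b)
        omega) (u j0) (v j0)
    rw [mem_union, mem_union, not_or, not_or] at h3 h4
    have ha1 : ∀ i ∈ J, a i ≠ a0 := fun i hi he => h3.2.1 (mem_image.2 ⟨i, hi, he⟩)
    have ha2 : ∀ i ∈ J, b i ≠ a0 := fun i hi he => h3.2.2 (mem_image.2 ⟨i, hi, he⟩)
    have hb1 : ∀ i ∈ J, a i ≠ b0 := fun i hi he => h4.2.1 (mem_image.2 ⟨i, hi, he⟩)
    have hb2 : ∀ i ∈ J, b i ≠ b0 := fun i hi he => h4.2.2 (mem_image.2 ⟨i, hi, he⟩)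
    have hne : ∀ i ∈ J, i ≠ j0 := fun i hi he => hj0 (he ▸ hi)
    refine ⟨Function.update a j0 a0, Function.update b j0 b0, ?_, ?_⟩
    · intro j hj
      rcases mem_insert.1 hj with rfl | hj
      · rw [Function.update_self, Function.update_self]
        exact ⟨h3.1, h4.1, h5, h6, h7⟩
      · rw [Function.update_of_ne (hne j hj), Function.update_of_ne (hne j hj)]
        exact h1 j hj
    · intro i hi0 j hj1 hij
      rcases mem_insert.1 hi0 with hi | hi
      · rcases mem_insert.1 hj1 with hj | hj
        · exact absurd (hi.trans hj.symm) hij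
        · rw [hi, Function.update_self, Function.update_self, Function.update_of_ne (hne j hj),
            Function.update_of_ne (hne j hj)]
          exact ⟨(ha1 j hj).symm, (hb2 j hj).symm, (ha2 j hj).symm⟩
      · rcases mem_insert.1 hj1 with hj | hj
        · rw [hj, Function.update_self, Function.update_self, Function.update_of_ne (hne i hi),
            Function.update_of_ne (hne i hi)]
          exact ⟨ha1 i hi, hb2 i hi, hb1 i hi⟩
        · rw [Function.update_of_ne (hne j hj), Function.update_of_ne (hne j hj),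
            Function.update_of_ne (hne i hi), Function.update_of_ne (hne i hi)]
          exact h2 i hi j hj hij

/-- the ends of the edges in `A` -/
def verts {V : Type} [DecidableEq V] (A : Finset (Sym2 V)) : Finset V :=
  A.biUnion fun e => e.toFinset

theorem subset_verts {V : Type} [DecidableEq V] (A : Finset (Sym2 V)) : A ⊆ (verts A).sym2 := by
  intro e he
  rw [mem_sym2_iff]
  intro x hx
  exact mem_biUnion.2 ⟨e, he, Sym2.mem_toFinset.2 hx⟩

theorem card_verts_le {V : Type} [DecidableEq V] (A : Finset (Sym2 V)) :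
    (verts A).card ≤ 2 * A.card := by
  have h := card_biUnion_le_card_mul A (fun e => e.toFinset) 2 (by
    intro e _
    rw [Sym2.card_toFinset]
    split_ifs <;> omega)
  rw [mul_comm]
  exact h

end Pool.Agent.H483C6
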