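import Pool.Agent.H483C6.Paths
import Pool.Agent.H483C6.Stmts2
import Pool.Agent.H483C6.Tools

/-!
# AbsHub (MP_1bffa4_co)
-/

set_option autoImplicit false
set_option linter.unusedSectionVars false

namespace Pool.Agent.H483C6

open Finset

namespace AbsHub

section S

variable {V : Type} [Fintype V] [DecidableEq V]

/-- incident pairs -/
def JJ (H : Finset (Sym2 V)) : Finset (Sym2 V × V) := (H ×ˢ univ).filter fun p => p.2 ∈ p.1

theorem mem_JJ {H : Finset (Sym2 V)} {p : Sym2 V × V} : p ∈ JJ H ↔ p.1 ∈ H ∧ p.2 ∈ p.1 := by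
  simp [JJ]

/-- the path -/
def Pt (z : V) (a b : Sym2 V × V → V) (p : Sym2 V × V) : Finset (Sym2 V) :=
  {s(z, a p), s(a p, b p), s(b p, p.2)}

theorem mem_Pt {z : V} {a b : Sym2 V × V → V} {p : Sym2 V × V} {e : Sym2 V} :
    e ∈ Pt z a b p ↔ e = s(z, a p) ∨ e = s(a p, b p) ∨ e = s(b p, p.2) := by
  simp [Pt]

theorem card_Pt (z : V) (a b : Sym2 V × V → V) (p : Sym2 V × V) : (Pt z a b p).card ≤ 3 := by
  unfold Pt
  exact card_le_three

theorem fst_eq {H : Finset (Sym2 V)} {x y : V} (hxy : s(x, y) ∈ H) :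
    (JJ H).filter (fun p => p.1 = s(x, y)) = {(s(x, y), x), (s(x, y), y)} := by
  ext ⟨e, v⟩
  simp only [mem_filter, mem_JJ, mem_insert, mem_singleton, Prod.mk.injEq]
  constructor
  · rintro ⟨⟨_, h2⟩, rfl⟩
    rw [Sym2.mem_iff] at h2
    rcases h2 with h2 | h2
    · exact Or.inl ⟨rfl, h2⟩
    · exact Or.inr ⟨rfl, h2⟩
  · rintro (⟨rfl, rfl⟩ | ⟨rfl, rfl⟩)
    · exact ⟨⟨hxy, Sym2.mem_mk_left _ _⟩, rfl⟩
    · exact ⟨⟨hxy, Sym2.mem_mk_right _ _⟩, rfl⟩

theorem card_JJ (H : Finset (Sym2 V)) : (JJ H).card ≤ 2 * H.card := by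
  have h1 : (JJ H).card = ∑ e ∈ H, ((JJ H).filter (fun p => p.1 = e)).card :=
    card_eq_sum_card_fiberwise fun p hp => (mem_JJ.1 hp).1
  rw [h1, mul_comm, ← smul_eq_mul, ← sum_const]
  refine sum_le_sum fun e he => ?_
  induction e using Sym2.ind with
  | _ x y => rw [fst_eq he]; exact card_le_two

theorem snd_card (H : Finset (Sym2 V)) (x : V) :
    ((JJ H).filter (fun p => p.2 = x)).card = dg H x := by
  unfold dg
  symm
  refine card_bij (fun u _ => (s(x, u), x)) ?_ ?_ ?_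
  · intro u hu
    rw [mem_nb] at hu
    rw [mem_filter, mem_JJ]
    exact ⟨⟨hu, Sym2.mem_mk_left _ _⟩, rfl⟩
  · intro u _ u' _ h
    rw [Prod.mk.injEq] at h
    have := h.1
    rw [Sym2.eq_iff] at this
    rcases this with ⟨_, h⟩ | ⟨h1, h2⟩
    · exact h
    · rw [h2, h1]
  · rintro ⟨e, v⟩ hp
    rw [mem_filter, mem_JJ] at hp
    obtain ⟨⟨h1, h2⟩, rfl⟩ := hp
    obtain ⟨u, hu⟩ := Sym2.mem_iff_exists.1 h2
    dsimp only at hu h1
    subst hu
    exact ⟨u, by rw [mem_nb]; exact h1, rfl⟩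

/-- the situation -/
structure Sit (E : Finset (Sym2 V)) (R : Finset V) (H : Finset (Sym2 V)) (z : V)
    (a b : Sym2 V × V → V) : Prop where
  hE : Loopless E
  HE : H ⊆ E
  HR : H ⊆ R.sym2
  zR : z ∉ R
  aR : ∀ p ∈ JJ H, a p ∉ R
  bR : ∀ p ∈ JJ H, b p ∉ R
  az : ∀ p ∈ JJ H, a p ≠ z
  bz : ∀ p ∈ JJ H, b p ≠ z
  e1 : ∀ p ∈ JJ H, s(z, a p) ∈ E
  e2 : ∀ p ∈ JJ H, s(a p, b p) ∈ E
  e3 : ∀ p ∈ JJ H, s(b p, p.2) ∈ E
  aa : ∀ p ∈ JJ H, ∀ q ∈ JJ H, p ≠ q → a p ≠ a q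
  bb : ∀ p ∈ JJ H, ∀ q ∈ JJ H, p ≠ q → b p ≠ b q
  ab : ∀ p ∈ JJ H, ∀ q ∈ JJ H, a p ≠ b q

variable {E : Finset (Sym2 V)} {R : Finset V} {H : Finset (Sym2 V)} {z : V}
  {a b : Sym2 V × V → V}

theorem Sit.xR (h : Sit E R H z a b) {p : Sym2 V × V} (hp : p ∈ JJ H) : p.2 ∈ R := by
  obtain ⟨e, x⟩ := p
  rw [mem_JJ] at hp
  exact mem_sym2_iff.1 (h.HR hp.1) _ hp.2

theorem Sit.sub (h : Sit E R H z a b) {p : Sym2 V × V} (hp : p ∈ JJ H) : Pt z a b p ⊆ E := by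
  intro e he
  rw [mem_Pt] at he
  rcases he with rfl | rfl | rfl
  · exact h.e1 p hp
  · exact h.e2 p hp
  · exact h.e3 p hp

theorem Sit.notR (h : Sit E R H z a b) {p : Sym2 V × V} (hp : p ∈ JJ H) {e : Sym2 V}
    (he : e ∈ Pt z a b p) : e ∉ R.sym2 := by
  rw [mem_Pt] at he
  rcases he with rfl | rfl | rfl
  · rw [mk_mem_sym2_iff]; exact fun hh => h.zR hh.1
  · rw [mk_mem_sym2_iff]; exact fun hh => h.aR p hp hh.1
  · rw [mk_mem_sym2_iff]; exact fun hh => h.bR p hp hh.1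

theorem Sit.disj (h : Sit E R H z a b) {p q : Sym2 V × V} (hp : p ∈ JJ H) (hq : q ∈ JJ H)
    (hpq : p ≠ q) : Disjoint (Pt z a b p) (Pt z a b q) := by
  rw [disjoint_left]
  intro e h1 h2
  rw [mem_Pt] at h1 h2
  have c1 := h.aa p hp q hq hpq
  have c2 := h.bb p hp q hq hpq
  have c3 := h.ab p hp q hq
  have c4 := h.ab q hq p hp
  have d1 := h.az p hp
  have d2 := h.az q hq
  have d3 := h.bz p hp
  have d4 := h.bz q hq
  have f1 : z ≠ p.2 := fun e => h.zR (e ▸ h.xR hp)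
  have f2 : z ≠ q.2 := fun e => h.zR (e ▸ h.xR hq)
  have g1 : a p ≠ q.2 := fun e => h.aR p hp (e ▸ h.xR hq)
  have g2 : b p ≠ q.2 := fun e => h.bR p hp (e ▸ h.xR hq)
  have g3 : a q ≠ p.2 := fun e => h.aR q hq (e ▸ h.xR hp)
  have g4 : b q ≠ p.2 := fun e => h.bR q hq (e ▸ h.xR hp)
  rcases h1 with rfl | rfl | rfl <;> rcases h2 with h2 | h2 | h2 <;> rw [Sym2.eq_iff] at h2 <;>
    rcases h2 with ⟨k1, k2⟩ | ⟨k1, k2⟩
  · exact c1 k2
  · exact d2 k1.symm
  · exact d2 k1.symm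
  · exact d4 k1.symm
  · exact d4 k1.symm
  · exact f2 k1
  · exact d1 k1
  · exact d3 k2
  · exact c1 k1
  · exact c3 k1
  · exact c3 k1
  · exact g1 k1
  · exact d3 k1
  · exact f1 k2.symm
  · exact c4 k1.symm
  · exact c2 k1
  · exact c2 k1
  · exact g2 k1

theorem Sit.pair (h : Sit E R H z a b) {p q : Sym2 V × V} (hp : p ∈ JJ H) (hq : q ∈ JJ H)
    (hpq : p ≠ q) (h2 : p.2 = q.2) : Dec (Pt z a b p ∪ Pt z a b q) := by
  have e : Pt z a b p ∪ Pt z a b q = hex z (a p) (b p) p.2 (b q) (a q) := by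
    ext x
    rw [mem_union, mem_Pt, mem_Pt, mem_hex, Sym2.eq_swap (a := p.2) (b := b q),
      Sym2.eq_swap (a := b q) (b := a q), Sym2.eq_swap (a := a q) (b := z), h2]
    tauto
  rw [e]
  apply dec_hex
  have c1 := h.aa p hp q hq hpq
  have c2 := h.bb p hp q hq hpq
  have c3 := h.ab p hp q hq
  have c4 := h.ab q hq p hp
  have c5 := h.ab p hp p hp
  have c6 := h.ab q hq q hq
  have d1 := h.az p hp
  have d2 := h.az q hq
  have d3 := h.bz p hp
  have d4 := h.bz q hq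
  have f1 : z ≠ p.2 := fun e => h.zR (e ▸ h.xR hp)
  have g1 : a p ≠ p.2 := fun e => h.aR p hp (e ▸ h.xR hp)
  have g2 : b p ≠ p.2 := fun e => h.bR p hp (e ▸ h.xR hp)
  have g3 : a q ≠ p.2 := fun e => h.aR q hq (e ▸ h.xR hp)
  have g4 : b q ≠ p.2 := fun e => h.bR q hq (e ▸ h.xR hp)
  simp only [List.nodup_cons, List.mem_cons, List.not_mem_nil, or_false, not_or, not_false_iff,
    List.nodup_nil, and_true]
  exact ⟨⟨d1.symm, d3.symm, f1, d4.symm, d2.symm⟩, ⟨c5, g1, c3, c1⟩, ⟨g2, c2, c4.symm⟩,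
    ⟨g4.symm, g3.symm⟩, c6.symm⟩

/-- all new edges -/
def PP (H : Finset (Sym2 V)) (z : V) (a b : Sym2 V × V → V) : Finset (Sym2 V) :=
  (JJ H).biUnion (Pt z a b)

/-- the seven-cycles -/
def ff (H : Finset (Sym2 V)) (z : V) (a b : Sym2 V × V → V) (e : Sym2 V) : Finset (Sym2 V) :=
  insert e (((JJ H).filter fun p => p.1 = e).biUnion (Pt z a b))

theorem Sit.decPP (h : Sit E R H z a b) (hev : ∀ v, Even (dg H v)) : Dec (PP H z a b) := by
  have e : PP H z a b =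
      univ.biUnion (fun x => ((JJ H).filter fun p => p.2 = x).biUnion (Pt z a b)) := by
    ext y
    simp only [PP, mem_biUnion, mem_filter, mem_univ, true_and]
    constructor
    · rintro ⟨p, hp, hy⟩
      exact ⟨p.2, p, ⟨hp, rfl⟩, hy⟩
    · rintro ⟨x, p, ⟨hp, _⟩, hy⟩
      exact ⟨p, hp, hy⟩
  rw [e]
  refine Dec.biUnion _ _ ?_ ?_
  · intro x _
    refine Dec.pairing _ _ ?_ ?_ ?_
    · rw [snd_card]; exact hev x
    · intro p hp q hq hpq
      rw [mem_filter] at hp hq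
      exact h.disj hp.1 hq.1 hpq
    · intro p hp q hq hpq
      rw [mem_filter] at hp hq
      exact h.pair hp.1 hq.1 hpq (hp.2.trans hq.2.symm)
  · intro x _ y _ hxy
    rw [disjoint_biUnion_left]
    intro p hp
    rw [disjoint_biUnion_right]
    intro q hq
    rw [mem_filter] at hp hq
    refine h.disj hp.1 hq.1 fun e => hxy ?_
    rw [← hp.2, ← hq.2, e]

theorem Sit.hept (h : Sit E R H z a b) {e : Sym2 V} (he : e ∈ H) : IsHept (ff H z a b e) := by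
  induction e using Sym2.ind with
  | _ x y =>
    have hp : (s(x, y), x) ∈ JJ H := mem_JJ.2 ⟨he, Sym2.mem_mk_left _ _⟩
    have hq : (s(x, y), y) ∈ JJ H := mem_JJ.2 ⟨he, Sym2.mem_mk_right _ _⟩
    have hxy : x ≠ y := h.hE.ne (h.HE he)
    have hpq : (s(x, y), x) ≠ (s(x, y), y) := fun e => hxy (Prod.mk.inj e).2
    set p : Sym2 V × V := (s(x, y), x) with hpd
    set q : Sym2 V × V := (s(x, y), y) with hqd
    have c1 := h.aa p hp q hq hpq
    have c2 := h.bb p hp q hq hpq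
    have c3 := h.ab p hp q hq
    have c4 := h.ab q hq p hp
    have c5 := h.ab p hp p hp
    have c6 := h.ab q hq q hq
    have d1 := h.az p hp
    have d2 := h.az q hq
    have d3 := h.bz p hp
    have d4 := h.bz q hq
    have xr : x ∈ R := h.xR hp
    have yr : y ∈ R := h.xR hq
    have f1 : z ≠ x := fun e => h.zR (e ▸ xr)
    have f2 : z ≠ y := fun e => h.zR (e ▸ yr)
    have g1 : a p ≠ x := fun e => h.aR p hp (e ▸ xr)
    have g2 : b p ≠ x := fun e => h.bR p hp (e ▸ xr)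
    have g3 : a q ≠ x := fun e => h.aR q hq (e ▸ xr)
    have g4 : b q ≠ x := fun e => h.bR q hq (e ▸ xr)
    have g5 : a p ≠ y := fun e => h.aR p hp (e ▸ yr)
    have g6 : b p ≠ y := fun e => h.bR p hp (e ▸ yr)
    have g7 : a q ≠ y := fun e => h.aR q hq (e ▸ yr)
    have g8 : b q ≠ y := fun e => h.bR q hq (e ▸ yr)
    refine ⟨z, a p, b p, x, y, b q, a q, ?_, ?_⟩
    · simp only [List.nodup_cons, List.mem_cons, List.not_mem_nil, or_false, not_or, not_false_iff,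
        List.nodup_nil, and_true]
      exact ⟨⟨d1.symm, d3.symm, f1, f2, d4.symm, d2.symm⟩, ⟨c5, g1, g5, c3, c1⟩,
        ⟨g2, g6, c2, c4.symm⟩, ⟨hxy, g4.symm, g3.symm⟩, ⟨g8.symm, g7.symm⟩, c6.symm⟩
    · unfold ff
      rw [fst_eq he]
      ext w
      simp only [mem_insert, mem_biUnion, mem_singleton, exists_eq_or_imp, exists_eq_left,
        Pool.Agent.H483C6.hept]
      rw [← hpd, ← hqd, mem_Pt, mem_Pt, Sym2.eq_swap (a := y) (b := b q),
        Sym2.eq_swap (a := b q) (b := a q), Sym2.eq_swap (a := a q) (b := z)]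
      show _ ∨ (_ ∨ _ ∨ w = s(b p, x)) ∨ (_ ∨ _ ∨ w = s(b q, y)) ↔ _
      tauto

theorem Sit.ffdisj (h : Sit E R H z a b) {e e' : Sym2 V} (he : e ∈ H) (he' : e' ∈ H)
    (hne : e ≠ e') : Disjoint (ff H z a b e) (ff H z a b e') := by
  rw [disjoint_left]
  intro w h1 h2
  unfold ff at h1 h2
  rw [mem_insert, mem_biUnion] at h1 h2
  rcases h1 with rfl | ⟨p, hp, hw⟩
  · rcases h2 with h2 | ⟨q, hq, hw'⟩
    · exact hne h2
    · rw [mem_filter] at hq
      exact h.notR hq.1 hw' (h.HR he)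
  · rw [mem_filter] at hp
    rcases h2 with rfl | ⟨q, hq, hw'⟩
    · exact h.notR hp.1 hw (h.HR he')
    · rw [mem_filter] at hq
      refine disjoint_left.1 (h.disj hp.1 hq.1 fun e => hne ?_) hw hw'
      rw [← hp.2, ← hq.2, e]

theorem Sit.union (_ : Sit E R H z a b) : H.biUnion (ff H z a b) = H ∪ PP H z a b := by
  ext w
  simp only [mem_biUnion, mem_union, ff, PP, mem_insert, mem_filter]
  constructor
  · rintro ⟨e, he, rfl | ⟨p, ⟨hp, _⟩, hw⟩⟩
    · exact Or.inl he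
    · exact Or.inr ⟨p, hp, hw⟩
  · rintro (hw | ⟨p, hp, hw⟩)
    · exact ⟨w, hw, Or.inl rfl⟩
    · exact ⟨p.1, (mem_JJ.1 hp).1, Or.inr ⟨p, ⟨hp, rfl⟩, hw⟩⟩

end S

end AbsHub

open AbsHub in
/-- TARGET -/
theorem absHub : ∀ h : ℕ, ∃ c0 : ℕ, ∀ r : ℕ, ∀ (V : Type) [Fintype V] [DecidableEq V]
    (E : Finset (Sym2 V)), Loopless E → ThreeP E (r + c0) → ∀ R : Finset V, R.card ≤ r →
      ∀ H ⊆ E, H ⊆ R.sym2 → H.card ≤ h → (∀ v, Even (dg H v)) →
      ∃ (PP : Finset (Sym2 V)) (f : Sym2 V → Finset (Sym2 V)), PP ⊆ E ∧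
        (∀ e ∈ PP, e ∉ R.sym2) ∧ PP.card ≤ c0 ∧ Dec PP ∧ (∀ e ∈ H, IsHept (f e)) ∧
        (∀ e ∈ H, ∀ e' ∈ H, e ≠ e' → Disjoint (f e) (f e')) ∧ H.biUnion f = H ∪ PP := by
  intro h
  refine ⟨6 * h + 1, ?_⟩
  intro r V _ _ E hE hT R hR H HE HR Hc Hev
  rcases H.eq_empty_or_nonempty with rfl | ⟨e0, he0⟩
  · exact ⟨∅, fun _ => ∅, by simp, by simp, by simp, Dec.empty, by simp, by simp, by simp⟩
  · obtain ⟨v0, _⟩ : ∃ v, v ∈ e0 := by
      induction e0 using Sym2.ind with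
      | _ x y => exact ⟨x, Sym2.mem_mk_left _ _⟩
    obtain ⟨z, _, hz, _⟩ := hT R (by omega) v0 v0
    have hT' : ThreeP E ((r + 1) + 2 * (2 * h)) := fun R' hR' => hT R' (by omega)
    obtain ⟨a, b, h1, h2⟩ := fresh3 E (r + 1) (2 * h) hT' (insert z R)
      ((card_insert_le _ _).trans (by omega)) (JJ H) ((card_JJ H).trans (by omega))
      (fun _ => z) (fun p => p.2)
    have key : Sit E R H z a b := by
      refine ⟨hE, HE, HR, hz, ?_, ?_, ?_, ?_, ?_, ?_, ?_, ?_, ?_, ?_⟩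
      · exact fun p hp hh => (h1 p hp).1 (mem_insert_of_mem hh)
      · exact fun p hp hh => (h1 p hp).2.1 (mem_insert_of_mem hh)
      · exact fun p hp hh => (h1 p hp).1 (by rw [hh]; exact mem_insert_self _ _)
      · exact fun p hp hh => (h1 p hp).2.1 (by rw [hh]; exact mem_insert_self _ _)
      · exact fun p hp => (h1 p hp).2.2.1
      · exact fun p hp => (h1 p hp).2.2.2.1
      · exact fun p hp => (h1 p hp).2.2.2.2
      · exact fun p hp q hq hpq => (h2 p hp q hq hpq).1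
      · exact fun p hp q hq hpq => (h2 p hp q hq hpq).2.1
      · intro p hp q hq
        by_cases hpq : p = q
        · subst hpq
          exact hE.ne (h1 p hp).2.2.2.1
        · exact (h2 p hp q hq hpq).2.2
    refine ⟨AbsHub.PP H z a b, ff H z a b, ?_, ?_, ?_, key.decPP Hev, fun e he => key.hept he,
      fun e he e' he' hne => key.ffdisj he he' hne, key.union⟩
    · intro w hw
      obtain ⟨p, hp, hw⟩ := mem_biUnion.1 hw
      exact key.sub hp hw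
    · intro w hw
      obtain ⟨p, hp, hw⟩ := mem_biUnion.1 hw
      exact key.notR hp hw
    · have c1 : (AbsHub.PP H z a b).card ≤ (JJ H).card * 3 :=
        card_biUnion_le_card_mul _ _ _ fun p _ => card_Pt z a b p
      have c2 := card_JJ H
      omega

end Pool.Agent.H483C6
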