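import Pool.Agent.H483C6.Paths
import Pool.Agent.H483C6.Stmts2
import Pool.Agent.H483C6.Tools

/-!
# AbsStar (MP_1bffa4_co)
-/

set_option autoImplicit false

namespace Pool.Agent.H483C6

open Finset

namespace AbsStar

/-- labels of the vertices of the star: `z`, `v i`, `a (i, β)`, `b (i, β)` -/
abbrev L : Type := Unit ⊕ Fin 6 ⊕ (Fin 6 × Bool) ⊕ (Fin 6 × Bool)

abbrev lz : L := Sum.inl ()
abbrev lv (i : Fin 6) : L := Sum.inr (Sum.inl i)
abbrev la (p : Fin 6 × Bool) : L := Sum.inr (Sum.inr (Sum.inl p))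
abbrev lb (p : Fin 6 × Bool) : L := Sum.inr (Sum.inr (Sum.inr p))

/-- the seven-cycles -/
def gL (i : Fin 6) : Finset (Sym2 L) :=
  hept lz (la (i, true)) (lb (i, true)) (lv i) (lv (i + 1)) (lb (i + 1, false)) (la (i + 1, false))

/-- the spokes -/
def hL (i : Fin 6) : Finset (Sym2 L) :=
  hex lz (la (i, true)) (lb (i, true)) (lv i) (lb (i, false)) (la (i, false))

/-- the rim -/
def rL : Finset (Sym2 L) := hex (lv 0) (lv 1) (lv 2) (lv 3) (lv 4) (lv 5)

def QL : Finset (Sym2 L) := univ.biUnion gL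

theorem gL_nodup : ∀ i : Fin 6, [lz, la (i, true), lb (i, true), lv i, lv (i + 1),
    lb (i + 1, false), la (i + 1, false)].Nodup := by decide +kernel

theorem hL_nodup : ∀ i : Fin 6, [lz, la (i, true), lb (i, true), lv i, lb (i, false),
    la (i, false)].Nodup := by decide +kernel

theorem rL_nodup : [lv 0, lv 1, lv 2, lv 3, lv 4, lv 5].Nodup := by decide +kernel

instance decFin : DecidableEq (Finset (Sym2 L)) :=
  @Finset.decidableEq (Sym2 L) (inferInstance : DecidableEq (Sym2 L))

theorem gL_inter : ∀ i j : Fin 6, i ≠ j → gL i ∩ gL j = ∅ := by decide +kernel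

theorem hL_inter : ∀ i j : Fin 6, i ≠ j → hL i ∩ hL j = ∅ := by decide +kernel

theorem rL_inter : ∀ i : Fin 6, rL ∩ hL i = ∅ := by decide +kernel

theorem gL_disj : ∀ i j : Fin 6, i ≠ j → Disjoint (gL i) (gL j) :=
  fun i j h => disjoint_iff_inter_eq_empty.2 (gL_inter i j h)

theorem hL_disj : ∀ i j : Fin 6, i ≠ j → Disjoint (hL i) (hL j) :=
  fun i j h => disjoint_iff_inter_eq_empty.2 (hL_inter i j h)

theorem rL_disj : ∀ i : Fin 6, Disjoint rL (hL i) :=
  fun i => disjoint_iff_inter_eq_empty.2 (rL_inter i)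

theorem QL_eq : QL = rL ∪ univ.biUnion hL := by decide +kernel

theorem QL_card : QL.card ≤ 42 := by decide +kernel

theorem QL_dec : Dec QL := by
  rw [QL_eq]
  refine (dec_hex rL_nodup).union (Dec.biUnion _ _ (fun i _ => dec_hex (hL_nodup i))
    (fun i _ j _ h => hL_disj i j h)) ?_
  rw [disjoint_biUnion_right]
  exact fun i _ => rL_disj i

variable {V : Type} [DecidableEq V]

theorem hex_image {W : Type} [DecidableEq W] (f : W → V) (a b c d e g : W) :
    (hex a b c d e g).image (Sym2.map f) = hex (f a) (f b) (f c) (f d) (f e) (f g) := by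
  simp [hex, image_insert]

theorem hept_image {W : Type} [DecidableEq W] (f : W → V) (a b c d e g h : W) :
    (hept a b c d e g h).image (Sym2.map f) = hept (f a) (f b) (f c) (f d) (f e) (f g) (f h) := by
  simp [hept, image_insert]

theorem dec_image {W : Type} [DecidableEq W] (f : W → V) (hf : Function.Injective f)
    {S : Finset (Sym2 W)} (h : Dec S) : Dec (S.image (Sym2.map f)) := by
  induction h with
  | empty => simpa using Dec.empty
  | @cons S E hS hE hd ih =>
    rw [image_union]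
    refine Dec.cons ?_ ih ?_
    · obtain ⟨a, b, c, d, e, g, hn, rfl⟩ := hS
      refine ⟨f a, f b, f c, f d, f e, f g, ?_, hex_image f a b c d e g⟩
      have := hn.map hf
      simpa using this
    · rw [disjoint_image (Sym2.map.injective hf)]
      exact hd

end AbsStar

open AbsStar in
/-- TARGET -/
theorem absStar : ∃ c1 : ℕ, ∀ r : ℕ, ∀ (V : Type) [Fintype V] [DecidableEq V] [Nonempty V]
    (E : Finset (Sym2 V)), Loopless E → ThreeP E (r + c1) → ∀ R : Finset V, R.card ≤ r →
      ∃ (Q : Finset (Sym2 V)) (g : Fin 6 → Finset (Sym2 V)), Q ⊆ E ∧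
        (∀ e ∈ Q, e ∉ R.sym2) ∧ Q.card ≤ c1 ∧ Dec Q ∧ (∀ i, IsHept (g i)) ∧
        (∀ i j, i ≠ j → Disjoint (g i) (g j)) ∧ univ.biUnion g = Q := by
  refine ⟨60, ?_⟩
  intro r V _ _ _ E hE hT R hR
  have mono : ∀ m, m ≤ r + 60 → ThreeP E m := fun m hm R' hR' u v => hT R' (hR'.trans hm) u v
  obtain ⟨w⟩ := (inferInstance : Nonempty V)
  -- two vertices outside `R`
  obtain ⟨p, -, hpR, -, -, -, -⟩ := mono r (by omega) R hR w w
  have hR1 : (insert p R).card ≤ r + 1 := (card_insert_le _ _).trans (by omega)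
  obtain ⟨q, -, hqR, -, -, -, -⟩ := mono (r + 1) (by omega) (insert p R) hR1 w w
  rw [mem_insert, not_or] at hqR
  obtain ⟨hqp, hqR⟩ := hqR
  -- the rim
  have hR2 : (insert q (insert p R)).card ≤ r + 2 := (card_insert_le _ _).trans (by omega)
  obtain ⟨a, b, hab, hab'⟩ := fresh3 E (r + 2) 2 (mono _ (by omega)) (insert q (insert p R)) hR2
    (univ : Finset (Fin 2)) (by simp) (fun _ => p) (fun _ => q)
  obtain ⟨ha0, hb0, e1, e2, e3⟩ := hab 0 (mem_univ _)
  obtain ⟨ha1, hb1, e4, e5, e6⟩ := hab 1 (mem_univ _)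
  obtain ⟨d1, d2, d3⟩ := hab' 0 (mem_univ _) 1 (mem_univ _) (by decide)
  obtain ⟨-, -, d4⟩ := hab' 1 (mem_univ _) 0 (mem_univ _) (by decide)
  simp only [mem_insert, not_or] at ha0 hb0 ha1 hb1
  have d5 := hE.ne e2
  have d6 := hE.ne e5
  set v : Fin 6 → V := ![p, a 0, b 0, q, b 1, a 1] with hv
  have hvE : ∀ i : Fin 6, s(v i, v (i + 1)) ∈ E := by
    intro i
    fin_cases i
    · exact e1
    · exact e2
    · exact e3
    · show s(q, b 1) ∈ E
      rw [Sym2.eq_swap]; exact e6
    · show s(b 1, a 1) ∈ E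
      rw [Sym2.eq_swap]; exact e5
    · show s(a 1, p) ∈ E
      rw [Sym2.eq_swap]; exact e4
  have hvR : ∀ i : Fin 6, v i ∉ R := by
    intro i
    fin_cases i
    · exact hpR
    · exact ha0.2.2
    · exact hb0.2.2
    · exact hqR
    · exact hb1.2.2
    · exact ha1.2.2
  have hvinj : Function.Injective v := by
    have hnd : [p, a 0, b 0, q, b 1, a 1].Nodup := by
      simp only [List.nodup_cons, List.mem_cons, List.not_mem_nil, or_false, not_or, not_false_iff,
        List.nodup_nil, and_true]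
      refine ⟨⟨Ne.symm ha0.2.1, Ne.symm hb0.2.1, Ne.symm hqp, Ne.symm hb1.2.1, Ne.symm ha1.2.1⟩,
        ⟨d5, ha0.1, d3, d1⟩, ⟨hb0.1, d2, Ne.symm d4⟩, ⟨Ne.symm hb1.1, Ne.symm ha1.1⟩, Ne.symm d6⟩
    have h1 : List.ofFn v = [p, a 0, b 0, q, b 1, a 1] := by
      simp [hv, List.ofFn_succ]
    rw [← h1, List.nodup_ofFn] at hnd
    exact hnd
  -- the centre
  set R3 : Finset V := univ.image v ∪ R with hR3
  have hR3c : R3.card ≤ r + 6 := by
    refine (card_union_le _ _).trans ?_
    have : (univ.image v).card ≤ 6 := card_image_le.trans (by simp)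
    omega
  obtain ⟨z, -, hzR, -, -, -, -⟩ := mono (r + 6) (by omega) R3 hR3c w w
  rw [hR3, mem_union, not_or] at hzR
  obtain ⟨hzv, hzR⟩ := hzR
  have hzv' : ∀ i, z ≠ v i := fun i h => hzv (by rw [h]; exact mem_image_of_mem _ (mem_univ _))
  have hR4c : (insert z R3).card ≤ r + 7 := (card_insert_le _ _).trans (by omega)
  obtain ⟨A, B, hAB, hAB'⟩ := fresh3 E (r + 7) 12 (mono _ (by omega)) (insert z R3) hR4c
    (univ : Finset (Fin 6 × Bool)) (by simp) (fun _ => z) (fun j => v j.1)
  have hA : ∀ j, A j ∉ R ∧ A j ≠ z ∧ ∀ i, A j ≠ v i := by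
    intro j
    have h := (hAB j (mem_univ _)).1
    rw [mem_insert, not_or, hR3, mem_union, not_or] at h
    exact ⟨h.2.2, h.1, fun i hi => h.2.1 (by rw [hi]; exact mem_image_of_mem _ (mem_univ _))⟩
  have hB : ∀ j, B j ∉ R ∧ B j ≠ z ∧ ∀ i, B j ≠ v i := by
    intro j
    have h := (hAB j (mem_univ _)).2.1
    rw [mem_insert, not_or, hR3, mem_union, not_or] at h
    exact ⟨h.2.2, h.1, fun i hi => h.2.1 (by rw [hi]; exact mem_image_of_mem _ (mem_univ _))⟩
  have hABne : ∀ i j, A i ≠ B j := by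
    intro i j
    by_cases hij : i = j
    · subst hij
      exact hE.ne (hAB i (mem_univ _)).2.2.2.1
    · exact (hAB' i (mem_univ _) j (mem_univ _) hij).2.2
  -- the embedding
  set f : L → V := Sum.elim (fun _ => z) (Sum.elim v (Sum.elim A B)) with hf
  have hfR : ∀ x, f x ∉ R := by
    rintro (x | x | x | x)
    · exact hzR
    · exact hvR x
    · exact (hA x).1
    · exact (hB x).1
  have hfinj : Function.Injective f := by
    rintro (x | x | x | x) (y | y | y | y) hxy
    · rfl
    · exact absurd hxy (hzv' y)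
    · exact absurd hxy.symm (hA y).2.1
    · exact absurd hxy.symm (hB y).2.1
    · exact absurd hxy.symm (hzv' x)
    · have : x = y := hvinj hxy
      rw [this]
    · exact absurd hxy.symm ((hA y).2.2 x)
    · exact absurd hxy.symm ((hB y).2.2 x)
    · exact absurd hxy (hA x).2.1
    · exact absurd hxy ((hA x).2.2 y)
    · by_contra h
      have h1 : x ≠ y := fun e => h (by rw [e])
      exact (hAB' x (mem_univ _) y (mem_univ _) h1).1 hxy
    · exact absurd hxy (hABne x y)
    · exact absurd hxy (hB x).2.1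
    · exact absurd hxy ((hB x).2.2 y)
    · exact absurd hxy.symm (hABne y x)
    · by_contra h
      have h1 : x ≠ y := fun e => h (by rw [e])
      exact (hAB' x (mem_univ _) y (mem_univ _) h1).2.1 hxy
  have hsinj : Function.Injective (Sym2.map f) := Sym2.map.injective hfinj
  refine ⟨QL.image (Sym2.map f), fun i => (gL i).image (Sym2.map f), ?_, ?_, ?_, ?_, ?_, ?_, ?_⟩
  · intro e he
    rw [mem_image] at he
    obtain ⟨e', he', rfl⟩ := he
    rw [QL, mem_biUnion] at he'
    obtain ⟨i, -, hi⟩ := he'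
    simp only [gL, hept, mem_insert, mem_singleton] at hi
    rcases hi with rfl | rfl | rfl | rfl | rfl | rfl | rfl
    · exact (hAB (i, true) (mem_univ _)).2.2.1
    · exact (hAB (i, true) (mem_univ _)).2.2.2.1
    · exact (hAB (i, true) (mem_univ _)).2.2.2.2
    · exact hvE i
    · show s(v (i + 1), B (i + 1, false)) ∈ E
      rw [Sym2.eq_swap]; exact (hAB (i + 1, false) (mem_univ _)).2.2.2.2
    · show s(B (i + 1, false), A (i + 1, false)) ∈ E
      rw [Sym2.eq_swap]; exact (hAB (i + 1, false) (mem_univ _)).2.2.2.1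
    · show s(A (i + 1, false), z) ∈ E
      rw [Sym2.eq_swap]; exact (hAB (i + 1, false) (mem_univ _)).2.2.1
  · intro e he heR
    rw [mem_image] at he
    obtain ⟨e', -, rfl⟩ := he
    induction e' using Sym2.ind with
    | _ x y =>
      rw [Sym2.map_mk, mk_mem_sym2_iff] at heR
      exact hfR x heR.1
  · exact (card_image_le.trans QL_card).trans (by norm_num)
  · exact dec_image f hfinj QL_dec
  · intro i
    refine ⟨_, _, _, _, _, _, _, ?_, hept_image f _ _ _ _ _ _ _⟩
    have := (gL_nodup i).map hfinj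
    simpa using this
  · intro i j hij
    rw [disjoint_image hsinj]
    exact gL_disj i j hij
  · rw [QL, biUnion_image]

end Pool.Agent.H483C6
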