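import Pool.Agent.H483C6.Paths
import Pool.Agent.H483C6.Stmts2
import Pool.Agent.H483C6.AbsHub
import Pool.Agent.H483C6.AbsStar

/-!
# Absorbers from transformations of seven-cycles (MP_1bffa4_co)
-/

set_option autoImplicit false

namespace Pool.Agent.H483C6

open Finset

namespace Abs7

theorem threeP_mono {V : Type} [Fintype V] [DecidableEq V] {E : Finset (Sym2 V)} {r r' : ℕ}
    (h : ThreeP E r') (hr : r ≤ r') : ThreeP E r := fun R hR => h R (hR.trans hr)

theorem sevenC_mono {V : Type} [Fintype V] [DecidableEq V] {E : Finset (Sym2 V)} {r r' c : ℕ}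
    (h : SevenC E r' c) (hr : r ≤ r') : SevenC E r c := fun R hR => h R (hR.trans hr)

theorem sym2_disj {V : Type} [DecidableEq V] {A B : Finset (Sym2 V)} {R : Finset V}
    (hA : A ⊆ R.sym2) (hB : ∀ e ∈ B, e ∉ R.sym2) : Disjoint A B := by
  rw [disjoint_left]
  intro e he he'
  exact hB e he' (hA he)

theorem fam {V : Type} [DecidableEq V] {ι α : Type} [DecidableEq ι] [Nonempty α]
    (ed : α → Finset (Sym2 V)) (P : ι → α → Prop) (m K : ℕ) (R0 : Finset V) (J : Finset ι)
    (hJ : J.card ≤ K)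
    (rule : ∀ j ∈ J, ∀ R' : Finset V, R0 ⊆ R' → R'.card ≤ R0.card + 2 * (K * m) →
      ∃ x : α, P j x ∧ (ed x).card ≤ m ∧ ∀ e ∈ ed x, e ∉ R'.sym2) :
    ∃ x : ι → α, (∀ j ∈ J, P j (x j) ∧ (ed (x j)).card ≤ m ∧ ∀ e ∈ ed (x j), e ∉ R0.sym2) ∧
      ∀ i ∈ J, ∀ j ∈ J, i ≠ j → Disjoint (ed (x i)) (ed (x j)) := by
  classical
  induction J using Finset.induction_on with
  | empty =>
    exact ⟨fun _ => Classical.arbitrary α, by simp, by simp⟩
  | insert a J ha ih =>
    have hJ' : J.card + 1 ≤ K := by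
      rw [card_insert_of_notMem ha] at hJ
      exact hJ
    obtain ⟨x, hx1, hx2⟩ := ih (by omega) fun j hj => rule j (mem_insert_of_mem hj)
    set B : Finset (Sym2 V) := J.biUnion fun j => ed (x j) with hB
    have hBc : B.card ≤ K * m := by
      refine (card_biUnion_le_card_mul _ _ m fun j hj => (hx1 j hj).2.1).trans ?_
      exact Nat.mul_le_mul_right _ (by omega)
    obtain ⟨y, hy1, hy2, hy3⟩ := rule a (mem_insert_self _ _) (R0 ∪ verts B) subset_union_left (by
      refine (card_union_le _ _).trans ?_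
      have := card_verts_le B
      omega)
    have hy4 : ∀ e ∈ ed y, e ∉ R0.sym2 := fun e he h => hy3 e he (sym2_mono subset_union_left h)
    have hy5 : ∀ j ∈ J, Disjoint (ed (x j)) (ed y) := by
      intro j hj
      refine sym2_disj (R := R0 ∪ verts B) ?_ hy3
      intro e he
      exact sym2_mono subset_union_right (subset_verts B (mem_biUnion.2 ⟨j, hj, he⟩))
    have hne : ∀ j ∈ J, Function.update x a y j = x j := by
      intro j hj
      have hja : j ≠ a := by
        rintro rfl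
        exact ha hj
      exact Function.update_of_ne hja _ _
    refine ⟨Function.update x a y, ?_, ?_⟩
    · intro j hj
      rcases mem_insert.1 hj with rfl | hj
      · rw [Function.update_self]
        exact ⟨hy1, hy2, hy4⟩
      · rw [hne j hj]
        exact hx1 j hj
    · intro i hi j hj hij
      rcases mem_insert.1 hi with hi | hi <;> rcases mem_insert.1 hj with hj | hj
      · exact absurd (hi.trans hj.symm) hij
      · rw [hi, Function.update_self, hne j hj]
        exact (hy5 j hj).symm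
      · rw [hj, Function.update_self, hne i hi]
        exact hy5 i hi
      · rw [hne i hi, hne j hj]
        exact hx2 i hi j hj hij

end Abs7

open Abs7 in
/-- TARGET -/
theorem abs7 : S_abs7 := by
  intro h c
  obtain ⟨c0, hc0⟩ := absHub h
  obtain ⟨c1, hc1⟩ := absStar
  refine ⟨3 * (c0 + h * c1 + h * c) + c0 + c1 + 1, ?_⟩
  intro r V _ _ E hL h3 h7 R hR H hHE hHR hHh hdiv
  classical
  rcases H.eq_empty_or_nonempty with rfl | hne
  · exact ⟨∅, by simp, by simp, by simp, Dec.empty, by simpa using Dec.empty⟩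
  have : Nonempty V := by
    obtain ⟨e, _⟩ := hne
    induction e using Sym2.ind with
    | _ x y => exact ⟨x⟩
  obtain ⟨PP, f, hPE, hPR, hPc, hPd, hf1, hf2, hf3⟩ := hc0 r V E hL
    (threeP_mono h3 (by omega)) R hR H hHE hHR hHh hdiv.even
  obtain ⟨k, hk⟩ := hdiv.six
  have hkh : k ≤ h := by omega
  set R1 : Finset V := R ∪ verts PP with hR1
  have hR1c : R1.card ≤ r + 2 * c0 := by
    refine (card_union_le _ _).trans ?_
    have := card_verts_le PP
    omega
  -- the stars
  obtain ⟨st, hst1, hst2⟩ := fam (V := V) (ι := Fin k)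
    (α := Finset (Sym2 V) × (Fin 6 → Finset (Sym2 V))) (fun x => x.1)
    (fun _ x => x.1 ⊆ E ∧ Dec x.1 ∧ (∀ i, IsHept (x.2 i)) ∧
      (∀ i j, i ≠ j → Disjoint (x.2 i) (x.2 j)) ∧ univ.biUnion x.2 = x.1) c1 h R1 univ
    (by simpa using hkh) (by
      intro j _ R' _ hR'
      obtain ⟨Q, g, q1, q2, q3, q4, q5, q6, q7⟩ := hc1 R'.card V E hL
        (threeP_mono h3 (by omega)) R' le_rfl
      exact ⟨(Q, g), ⟨q1, q4, q5, q6, q7⟩, q3, q2⟩)
  -- all stars together
  set QQ : Finset (Sym2 V) := univ.biUnion fun j => (st j).1 with hQQ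
  have hQc : QQ.card ≤ h * c1 := by
    refine (card_biUnion_le_card_mul _ _ c1 fun j hj => (hst1 j hj).2.1).trans ?_
    refine Nat.mul_le_mul_right _ ?_
    simpa using hkh
  have hQE : QQ ⊆ E := by
    rw [hQQ, biUnion_subset]
    intro j hj
    exact (hst1 j hj).1.1
  have hQR : ∀ e ∈ QQ, e ∉ R1.sym2 := by
    intro e he
    obtain ⟨j, hj, hej⟩ := mem_biUnion.1 he
    exact (hst1 j hj).2.2 e hej
  have hQd : Dec QQ := Dec.biUnion _ _ (fun j hj => (hst1 j hj).1.2.1) hst2
  set R2 : Finset V := R1 ∪ verts QQ with hR2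
  have hR2c : R2.card ≤ r + 2 * c0 + 2 * (h * c1) := by
    refine (card_union_le _ _).trans ?_
    have := card_verts_le QQ
    omega
  have hR12 : R1 ⊆ R2 := subset_union_left
  have hQR2 : QQ ⊆ R2.sym2 := (subset_verts QQ).trans (sym2_mono subset_union_right)
  -- the bijection
  have hcard : Fintype.card {x // x ∈ H} = Fintype.card (Fin k × Fin 6) := by
    rw [Fintype.card_coe, Fintype.card_prod, Fintype.card_fin, Fintype.card_fin, hk, mul_comm]
  set φ : {x // x ∈ H} ≃ Fin k × Fin 6 := Fintype.equivOfCardEq hcard with hφ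
  set g : Sym2 V → Finset (Sym2 V) := fun e =>
    if he : e ∈ H then (st (φ ⟨e, he⟩).1).2 (φ ⟨e, he⟩).2 else ∅ with hg
  have hge : ∀ (e : Sym2 V) (he : e ∈ H), g e = (st (φ ⟨e, he⟩).1).2 (φ ⟨e, he⟩).2 := by
    intro e he
    simp only [hg, dif_pos he]
  have hsub : ∀ j i, (st j).2 i ⊆ (st j).1 := by
    intro j i
    rw [← (hst1 j (mem_univ _)).1.2.2.2.2]
    exact subset_biUnion_of_mem (st j).2 (mem_univ i)
  have hg1 : ∀ e ∈ H, IsHept (g e) := by
    intro e he
    rw [hge e he]
    exact (hst1 _ (mem_univ _)).1.2.2.1 _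
  have hg2 : ∀ e ∈ H, g e ⊆ QQ := by
    intro e he
    rw [hge e he]
    exact (hsub _ _).trans (subset_biUnion_of_mem (fun j => (st j).1) (mem_univ _))
  have hg3 : ∀ e ∈ H, ∀ e' ∈ H, e ≠ e' → Disjoint (g e) (g e') := by
    intro e he e' he' hne
    rw [hge e he, hge e' he']
    by_cases hj : (φ ⟨e, he⟩).1 = (φ ⟨e', he'⟩).1
    · have hi : (φ ⟨e, he⟩).2 ≠ (φ ⟨e', he'⟩).2 := by
        intro hi
        have := φ.injective (Prod.ext hj hi)
        exact hne (congrArg Subtype.val this)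
      rw [hj]
      exact (hst1 _ (mem_univ _)).1.2.2.2.1 _ _ hi
    · exact (hst2 _ (mem_univ _) _ (mem_univ _) hj).mono (hsub _ _) (hsub _ _)
  have hg4 : H.biUnion g = QQ := by
    apply Subset.antisymm
    · rw [biUnion_subset]
      exact hg2
    · intro x hx
      obtain ⟨j, hj, hxj⟩ := mem_biUnion.1 hx
      rw [← (hst1 j hj).1.2.2.2.2] at hxj
      obtain ⟨i, _, hxi⟩ := mem_biUnion.1 hxj
      obtain ⟨⟨e, he⟩, hee⟩ : ∃ p, p = φ.symm (j, i) := ⟨_, rfl⟩
      refine mem_biUnion.2 ⟨e, he, ?_⟩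
      rw [hge e he, hee, Equiv.apply_symm_apply]
      exact hxi
  have hf4 : ∀ e ∈ H, f e ⊆ H ∪ PP := by
    intro e he
    rw [← hf3]
    exact subset_biUnion_of_mem f he
  have hHR1 : H ⊆ R1.sym2 := hHR.trans (sym2_mono subset_union_left)
  have hPR1 : PP ⊆ R1.sym2 := (subset_verts PP).trans (sym2_mono subset_union_right)
  have hf5 : ∀ e ∈ H, f e ⊆ R1.sym2 := fun e he =>
    (hf4 e he).trans (union_subset hHR1 hPR1)
  have hfE : ∀ e ∈ H, f e ⊆ E := fun e he => (hf4 e he).trans (union_subset hHE hPE)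
  -- the transformations
  obtain ⟨T, hT1, hT2⟩ := fam (V := V) (ι := Sym2 V) (α := Finset (Sym2 V)) (fun x => x)
    (fun e x => x ⊆ E ∧ Dec (x ∪ f e) ∧ Dec (x ∪ g e)) c h R2 H hHh (by
      intro e he R' hRR hR'
      obtain ⟨T, t1, t2, t3, t4, t5⟩ := h7 R' (by omega) (f e) (g e) (hf1 e he) (hg1 e he)
        (hfE e he) ((hg2 e he).trans hQE)
        ((hf5 e he).trans (sym2_mono (hR12.trans hRR)))
        ((hg2 e he).trans (hQR2.trans (sym2_mono hRR)))
        ((sym2_disj (hf5 e he) hQR).mono_right (hg2 e he))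
      exact ⟨T, ⟨t1, t4, t5⟩, t3, t2⟩)
  set TT : Finset (Sym2 V) := H.biUnion T with hTT
  have hTc : TT.card ≤ h * c := by
    refine (card_biUnion_le_card_mul _ _ c fun j hj => (hT1 j hj).2.1).trans ?_
    exact Nat.mul_le_mul_right _ hHh
  have hTE : TT ⊆ E := by
    rw [hTT, biUnion_subset]
    intro j hj
    exact (hT1 j hj).1.1
  have hTR : ∀ e ∈ TT, e ∉ R2.sym2 := by
    intro e he
    obtain ⟨j, hj, hej⟩ := mem_biUnion.1 he
    exact (hT1 j hj).2.2 e hej
  have hTR' : ∀ e ∈ TT, e ∉ R1.sym2 := fun e he h => hTR e he (sym2_mono hR12 h)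
  have hTsub : ∀ e ∈ H, T e ⊆ TT := fun e he => subset_biUnion_of_mem T he
  refine ⟨PP ∪ (QQ ∪ TT), union_subset hPE (union_subset hQE hTE), ?_, ?_, ?_, ?_⟩
  · intro e he
    rcases mem_union.1 he with h1 | h1
    · exact hPR e h1
    · intro hR0
      have hR0' : e ∈ R1.sym2 := sym2_mono subset_union_left hR0
      rcases mem_union.1 h1 with h2 | h2
      · exact hQR e h2 hR0'
      · exact hTR' e h2 hR0'
  · refine (card_union_le _ _).trans ?_
    have := card_union_le QQ TT
    omega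
  · have e1 : QQ ∪ TT = H.biUnion fun e => T e ∪ g e := by
      ext x
      rw [mem_union, ← hg4, hTT, mem_biUnion, mem_biUnion, mem_biUnion]
      constructor
      · rintro (⟨e, he, hx⟩ | ⟨e, he, hx⟩)
        · exact ⟨e, he, mem_union_right _ hx⟩
        · exact ⟨e, he, mem_union_left _ hx⟩
      · rintro ⟨e, he, hx⟩
        rcases mem_union.1 hx with hx | hx
        · exact Or.inr ⟨e, he, hx⟩
        · exact Or.inl ⟨e, he, hx⟩
    rw [e1]
    refine hPd.union (Dec.biUnion _ _ (fun e he => (hT1 e he).1.2.2) ?_) ?_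
    · intro e he e' he' hne
      rw [disjoint_union_left, disjoint_union_right, disjoint_union_right]
      have hQT : Disjoint QQ TT := sym2_disj hQR2 hTR
      exact ⟨⟨hT2 e he e' he' hne, (hQT.mono (hg2 e' he') (hTsub e he)).symm⟩,
        hQT.mono (hg2 e he) (hTsub e' he'), hg3 e he e' he' hne⟩
    · rw [← e1]
      rw [disjoint_union_right]
      exact ⟨sym2_disj hPR1 hQR, sym2_disj hPR1 hTR'⟩
  · have e1 : PP ∪ (QQ ∪ TT) ∪ H = (H.biUnion fun e => T e ∪ f e) ∪ QQ := by
      have e2 : (H.biUnion fun e => T e ∪ f e) = TT ∪ (H ∪ PP) := by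
        rw [← hf3]
        ext x
        rw [mem_union, hTT, mem_biUnion, mem_biUnion, mem_biUnion]
        constructor
        · rintro ⟨e, he, hx⟩
          rcases mem_union.1 hx with hx | hx
          · exact Or.inl ⟨e, he, hx⟩
          · exact Or.inr ⟨e, he, hx⟩
        · rintro (⟨e, he, hx⟩ | ⟨e, he, hx⟩)
          · exact ⟨e, he, mem_union_left _ hx⟩
          · exact ⟨e, he, mem_union_right _ hx⟩
      rw [e2]
      ext x
      simp only [mem_union]
      tauto
    rw [e1]
    have hd : ∀ e ∈ H, Disjoint (T e ∪ f e) QQ := by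
      intro e he
      rw [disjoint_union_left]
      exact ⟨((sym2_disj hQR2 hTR).mono_right (hTsub e he)).symm, sym2_disj (hf5 e he) hQR⟩
    refine (Dec.biUnion _ _ (fun e he => (hT1 e he).1.2.1) ?_).union hQd ?_
    · intro e he e' he' hne
      rw [disjoint_union_left, disjoint_union_right, disjoint_union_right]
      exact ⟨⟨hT2 e he e' he' hne,
        ((sym2_disj (hf5 e' he') hTR').mono_right (hTsub e he)).symm⟩,
        (sym2_disj (hf5 e he) hTR').mono_right (hTsub e' he'), hf2 e he e' he' hne⟩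
    · rw [disjoint_biUnion_left]
      exact hd

end Pool.Agent.H483C6
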