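import Pool.Agent.H483C6.AbsBAsm

/-!
# Absorbers in nearly complete bipartite graphs (MP_1bffa4_co, seat 1, helper760)
-/

set_option autoImplicit false
set_option linter.unusedSectionVars false

namespace Pool.Agent.H483C6

open Finset

namespace TenC

section N

variable {V : Type} [Fintype V] [DecidableEq V]

theorem NearKK.symm {E : Finset (Sym2 V)} {A : Finset V} {ε : ℝ} (h : NearKK E A ε) :
    NearKK E Aᶜ ε := by
  obtain ⟨h1, h2, h3, h4, h5, h6⟩ := h
  refine ⟨?_, h3, ?_, h4, ?_, ?_⟩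
  · intro e he
    rw [compl_compl]
    exact ⟨(h1 e he).2, (h1 e he).1⟩
  · rw [compl_compl]; exact h2
  · rw [compl_compl]; exact h6
  · rw [compl_compl]; exact h5

theorem NearKK.bip {E : Finset (Sym2 V)} {A : Finset V} {ε : ℝ} (h : NearKK E A ε) {u x : V}
    (hux : s(u, x) ∈ E) (hu : u ∈ A) : x ∉ A := by
  intro hx
  exact (h.1 _ hux).1 (mk_mem_sym2_iff.2 ⟨hu, hx⟩)

theorem NearKK.bip' {E : Finset (Sym2 V)} {A : Finset V} {ε : ℝ} (h : NearKK E A ε) {u x : V}
    (hux : s(u, x) ∈ E) (hu : u ∉ A) : x ∈ A := by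
  by_contra hx
  exact (h.1 _ hux).2 (mk_mem_sym2_iff.2 ⟨mem_compl.2 hu, mem_compl.2 hx⟩)

/-- few non-neighbours of a vertex outside `A` of large degree -/
theorem NearKK.miss {E : Finset (Sym2 V)} {A : Finset V} {ε : ℝ} (h : NearKK E A ε) {g : V}
    (hg : g ∉ A) (hd : (A.card : ℝ) - ε * (Fintype.card V : ℝ) ≤ (dg E g : ℝ)) :
    ((A \ nb E g).card : ℝ) ≤ ε * (Fintype.card V : ℝ) := by
  have hsub : nb E g ⊆ A := by
    intro x hx
    rw [mem_nb] at hx
    exact NearKK.bip' h hx hg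
  have h1 : (A \ nb E g).card + (nb E g).card = A.card := by
    rw [card_sdiff_of_subset hsub]
    have := card_le_card hsub
    omega
  have h2 : ((A \ nb E g).card : ℝ) + (dg E g : ℝ) = (A.card : ℝ) := by
    unfold dg
    exact_mod_cast h1
  linarith

/-- generic vertices -/
noncomputable def Gen (E : Finset (Sym2 V)) (A : Finset V) (ε : ℝ) : Finset V :=
  univ.filter fun v => (v ∈ A → (Aᶜ.card : ℝ) - ε * (Fintype.card V : ℝ) ≤ (dg E v : ℝ)) ∧
    (v ∉ A → (A.card : ℝ) - ε * (Fintype.card V : ℝ) ≤ (dg E v : ℝ))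

theorem NearKK.bb {E : Finset (Sym2 V)} {A : Finset V} (h : NearKK E A (1 / 1000))
    (hn : 10000 ≤ Fintype.card V) :
    BB E (fun b => cond b A Aᶜ) (Gen E A (1 / 1000)) (Fintype.card V / 1000 + 1) := by
  classical
  obtain ⟨h1, h2, h3, h4, h5, h6⟩ := id h
  set n := Fintype.card V with hndef
  have hq1 : ((n / 1000 + 1 : ℕ) : ℝ) ≤ (n : ℝ) / 1000 + 1 := by
    push_cast
    have := @Nat.cast_div_le ℝ _ _ _ n 1000
    push_cast at this
    linarith
  have hn' : (10000 : ℝ) ≤ (n : ℝ) := by exact_mod_cast hn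
  have hfl : ∀ m : ℕ, (m : ℝ) ≤ 1 / 1000 * (n : ℝ) → m ≤ n / 1000 + 1 := by
    intro m hm
    have h7 : (m : ℝ) * 1000 ≤ n := by linarith
    have h8 : m * 1000 ≤ n := by exact_mod_cast h7
    have h9 : m ≤ n / 1000 := (Nat.le_div_iff_mul_le (by norm_num)).2 h8
    omega
  refine ⟨?_, ?_, ?_, ?_, ?_, ?_, ?_⟩
  · intro b x
    cases b <;> simp
  · intro u x b hux hu
    cases b
    · have : u ∉ A := by simpa using hu
      simpa using NearKK.bip' h hux this
    · have : u ∈ A := by simpa using hu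
      simpa using NearKK.bip h hux this
  · intro u
    have h7 := h4 u
    have h8 : ((50 * (n / 1000 + 1) : ℕ) : ℝ) ≤ (dg E u : ℝ) := by
      have : ((50 * (n / 1000 + 1) : ℕ) : ℝ) = 50 * ((n / 1000 + 1 : ℕ) : ℝ) := by push_cast; ring
      rw [this]
      linarith
    exact_mod_cast h8
  · intro b
    have key : ∀ X : Finset V, 2 / 5 * (n : ℝ) ≤ (X.card : ℝ) → 50 * (n / 1000 + 1) ≤ X.card := by
      intro X hX
      have h8 : ((50 * (n / 1000 + 1) : ℕ) : ℝ) ≤ (X.card : ℝ) := by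
        have : ((50 * (n / 1000 + 1) : ℕ) : ℝ) = 50 * ((n / 1000 + 1 : ℕ) : ℝ) := by
          push_cast; ring
        rw [this]
        linarith
      exact_mod_cast h8
    cases b
    · exact key _ h3
    · exact key _ h2
  · intro b
    cases b
    · refine hfl _ (le_trans ?_ h6)
      exact_mod_cast card_le_card (by
        intro x hx
        simp only [cond_false, mem_sdiff, mem_compl, Gen, mem_filter, mem_univ, true_and,
          not_and, Classical.not_imp, not_le] at hx
        rw [mem_filter, mem_compl]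
        exact ⟨hx.1, (hx.2 (fun h => absurd h hx.1)).2⟩)
    · refine hfl _ (le_trans ?_ h5)
      exact_mod_cast card_le_card (by
        intro x hx
        simp only [cond_true, mem_sdiff, Gen, mem_filter, mem_univ, true_and] at hx
        rw [mem_filter]
        refine ⟨hx.1, ?_⟩
        by_contra hc
        push Not at hc
        exact hx.2 ⟨fun _ => hc, fun h => absurd hx.1 h⟩)
  · intro b g hg hgG
    cases b
    · have hgA : g ∈ A := by simpa using hg
      have h7 : g ∉ Aᶜ := by simpa using hgA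
      refine hfl _ (NearKK.miss (NearKK.symm h) h7 ?_)
      simp only [Gen, mem_filter] at hgG
      exact hgG.2.1 hgA
    · have hgA : g ∉ A := by simpa using hg
      refine hfl _ (NearKK.miss h hgA ?_)
      simp only [Gen, mem_filter] at hgG
      exact hgG.2.2 hgA
  · have : 10 ≤ n / 1000 := (Nat.le_div_iff_mul_le (by norm_num)).2 (by omega)
    omega

end N

end TenC

open TenC in
theorem absB : S_absB := by
  refine ⟨1 / 100, by norm_num, ?_⟩
  intro h
  obtain ⟨K, hK⟩ : ∃ K : ℕ, K = 2 * (9 * h + 6 * h + 9 * h + h * 50) := ⟨_, rfl⟩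
  refine ⟨2 * (9 * h) + h + h * 50, 10000 + 1000 * (K + 6 * h + 2), ?_⟩
  intro V _ _ E A hE hn hNK
  have hn1 : 10000 ≤ Fintype.card V := le_trans (Nat.le_add_right _ _) hn
  have hn2 : 1000 * (K + 6 * h + 2) ≤ Fintype.card V := le_trans (Nat.le_add_left _ _) hn
  clear hn
  have hbb := NearKK.bb hNK hn1
  generalize Fintype.card V = n at *
  have hr : ⌊(1 / 100 : ℝ) * (n : ℝ)⌋₊ ≤ 10 * (n / 1000 + 1) := by
    have h1 : ((⌊(1 / 100 : ℝ) * (n : ℝ)⌋₊ : ℕ) : ℝ) ≤ 1 / 100 * (n : ℝ) :=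
      Nat.floor_le (by positivity)
    have h2 : (⌊(1 / 100 : ℝ) * (n : ℝ)⌋₊ * 100 : ℕ) ≤ n := by
      have : ((⌊(1 / 100 : ℝ) * (n : ℝ)⌋₊ * 100 : ℕ) : ℝ) ≤ (n : ℝ) := by
        push_cast
        linarith
      exact_mod_cast this
    have h3 : n < 1000 * (n / 1000 + 1) := by omega
    omega
  have hq : K + 6 * h + 2 ≤ n / 1000 := (Nat.le_div_iff_mul_le (by norm_num)).2 (by
    rw [mul_comm]; exact hn2)
  exact absG IsDeca (K := K) (hbb.hub hE (by omega)) (hbb.hexP (by omega)) (hbb.tenC (by omega))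
    (by omega)

end Pool.Agent.H483C6
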