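import Pool.Agent.H483C6.AbsBHub

/-!
# Absorbers from hubs and transformations (MP_1bffa4_co, seat 1, helper760)
-/

set_option autoImplicit false
set_option linter.unusedSectionVars false

namespace Pool.Agent.H483C6

open Finset

namespace TenC

theorem sym2_disj {V : Type} [DecidableEq V] {A B : Finset (Sym2 V)} {R : Finset V}
    (hA : A ⊆ R.sym2) (hB : ∀ e ∈ B, e ∉ R.sym2) : Disjoint A B := by
  rw [disjoint_left]
  intro e he he'
  exact hB e he' (hA he)

theorem fam {V : Type} [DecidableEq V] {ι α : Type} [DecidableEq ι] [Nonempty α]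
    (ed : α → Finset (Sym2 V)) (P : ι → α → Prop) (m K : ℕ) (R0 : Finset V) (J : Finset ι)
    (hJ : J.card ≤ K)
    (rule : ∀ j ∈ J, ∀ R' : Finset V, R0 ⊆ R' → R'.card ≤ R0.card + 2 * (K * m) →
      ∃ x : α, P j x ∧ (ed x).card ≤ m ∧ ∀ e ∈ ed x, e ∉ R'.sym2) :
    ∃ x : ι → α, (∀ j ∈ J, P j (x j) ∧ (ed (x j)).card ≤ m ∧ ∀ e ∈ ed (x j), e ∉ R0.sym2) ∧
      ∀ i ∈ J, ∀ j ∈ J, i ≠ j → Disjoint (ed (x i)) (ed (x j)) := by
  classical
  induction J using Finset.induction_on with
  | empty =>
    exact ⟨fun _ => Classical.arbitrary α, by simp, by simp⟩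
  | insert a J ha ih =>
    have hJ' : J.card + 1 ≤ K := by
      rw [card_insert_of_notMem ha] at hJ
      exact hJ
    obtain ⟨x, hx1, hx2⟩ := ih (by omega) fun j hj => rule j (mem_insert_of_mem hj)
    set B : Finset (Sym2 V) := J.biUnion fun j => ed (x j) with hB
    have hBc : B.card ≤ K * m := by
      refine (card_biUnion_le_card_mul _ _ m fun j hj => (hx1 j hj).2.1).trans ?_
      exact Nat.mul_le_mul_right _ (by omega)
    obtain ⟨y, hy1, hy2, hy3⟩ := rule a (mem_insert_self _ _) (R0 ∪ vs B) subset_union_left (by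
      refine (card_union_le _ _).trans ?_
      have := card_vs_le B
      omega)
    have hy4 : ∀ e ∈ ed y, e ∉ R0.sym2 := fun e he h => hy3 e he (sym2_mono subset_union_left h)
    have hy5 : ∀ j ∈ J, Disjoint (ed (x j)) (ed y) := by
      intro j hj
      refine sym2_disj (R := R0 ∪ vs B) ?_ hy3
      intro e he
      exact sym2_mono subset_union_right (subset_vs B (mem_biUnion.2 ⟨j, hj, he⟩))
    have hne : ∀ j ∈ J, Function.update x a y j = x j := by
      intro j hj
      have hja : j ≠ a := by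
        rintro rfl
        exact ha hj
      exact Function.update_of_ne hja _ _
    refine ⟨Function.update x a y, ?_, ?_⟩
    · intro j hj
      rcases mem_insert.1 hj with rfl | hj
      · rw [Function.update_self]
        exact ⟨hy1, hy2, hy4⟩
      · rw [hne j hj]
        exact hx1 j hj
    · intro i hi j hj hij
      rcases mem_insert.1 hi with hi | hi <;> rcases mem_insert.1 hj with hj | hj
      · exact absurd (hi.trans hj.symm) hij
      · rw [hi, Function.update_self, hne j hj]
        exact (hy5 j hj).symm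
      · rw [hj, Function.update_self, hne i hi]
        exact hy5 i hi
      · rw [hne i hi, hne j hj]
        exact hx2 i hi j hj hij

theorem absG {V : Type} [Fintype V] [DecidableEq V] (P : Finset (Sym2 V) → Prop)
    {E : Finset (Sym2 V)} {r h c0 c K : ℕ} (hub : HubP E P (r + K) h c0)
    (hx : HexP E (r + K)) (h7 : SevenE E (r + K) c P P)
    (hK : 2 * (c0 + 6 * h + c0 + h * c) ≤ K) : Abs E r h (2 * c0 + h + h * c) := by
  intro R hR H hHE hHR hHh hdiv
  classical
  obtain ⟨k, hk⟩ := hdiv.six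
  have hkh : 6 * k ≤ h := by omega
  obtain ⟨PP, f, hPE, hPR, hPc, hPd, hf1, hf2, hf3⟩ := hub R (by omega) H hHE hHR hHh hdiv.even
    (by rw [hk]; exact ⟨3 * k, by ring⟩)
  set R1 : Finset V := R ∪ vs PP with hR1
  have hR1c : R1.card ≤ r + 2 * c0 := by
    refine (card_union_le _ _).trans ?_
    have := card_vs_le PP
    omega
  -- fresh hexagons
  obtain ⟨st, hst1, hst2⟩ := fam (V := V) (ι := Fin k) (α := Finset (Sym2 V)) (fun x => x)
    (fun _ x => x ⊆ E ∧ IsHex x) 6 h R1 univ
    (by rw [card_univ, Fintype.card_fin]; omega) (by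
      intro j _ R' _ hR'
      obtain ⟨T, t1, t2, t3⟩ := hx R' (by omega)
      exact ⟨T, ⟨t1, t2⟩, t2.card.le, t3⟩)
  set HH : Finset (Sym2 V) := univ.biUnion st with hHH
  have hHHE : HH ⊆ E := by
    rw [hHH, biUnion_subset]
    intro j hj
    exact (hst1 j hj).1.1
  have hHHR : ∀ e ∈ HH, e ∉ R1.sym2 := by
    intro e he
    obtain ⟨j, hj, hej⟩ := mem_biUnion.1 he
    exact (hst1 j hj).2.2 e hej
  have hHHd : Dec HH := Dec.biUnion _ _ (fun j hj => (hst1 j hj).1.2.dec) hst2
  have hHHc : HH.card = 6 * k := by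
    rw [hHH, card_biUnion fun i hi j hj hij => hst2 i hi j hj hij]
    rw [sum_congr rfl fun j hj => (hst1 j hj).1.2.card, sum_const, card_univ, Fintype.card_fin,
      smul_eq_mul, mul_comm]
  obtain ⟨PQ, f', qE, qR, qc, qd, q1, q2, q3⟩ := hub (R1 ∪ vs HH) (by
      refine (card_union_le _ _).trans ?_
      have := card_vs_le HH
      omega) HH hHHE ((subset_vs HH).trans (sym2_mono subset_union_right)) (by omega) hHHd.even
    (by rw [hHHc]; exact ⟨3 * k, by ring⟩)
  -- all together
  set QQ : Finset (Sym2 V) := HH ∪ PQ with hQQ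
  have hQc : QQ.card ≤ h + c0 := by
    refine (card_union_le _ _).trans ?_
    omega
  have hQE : QQ ⊆ E := union_subset hHHE qE
  have hQR : ∀ e ∈ QQ, e ∉ R1.sym2 := by
    intro e he
    rcases mem_union.1 he with he | he
    · exact hHHR e he
    · exact fun hh => qR e he (sym2_mono subset_union_left hh)
  have hQd : Dec QQ := hHHd.union qd
    (sym2_disj ((subset_vs HH).trans (sym2_mono subset_union_right)) qR)
  set R2 : Finset V := R1 ∪ vs QQ with hR2
  have hR2c : R2.card ≤ r + 2 * c0 + 2 * (h + c0) := by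
    refine (card_union_le _ _).trans ?_
    have := card_vs_le QQ
    omega
  have hR12 : R1 ⊆ R2 := subset_union_left
  have hQR2 : QQ ⊆ R2.sym2 := (subset_vs QQ).trans (sym2_mono subset_union_right)
  -- the bijection
  have hcard : Fintype.card {x // x ∈ H} = Fintype.card {x // x ∈ HH} := by
    rw [Fintype.card_coe, Fintype.card_coe, hk, hHHc]
  set φ : {x // x ∈ H} ≃ {x // x ∈ HH} := Fintype.equivOfCardEq hcard with hφ
  set g : Sym2 V → Finset (Sym2 V) := fun e =>
    if he : e ∈ H then f' (φ ⟨e, he⟩).1 else ∅ with hg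
  have hge : ∀ (e : Sym2 V) (he : e ∈ H), g e = f' (φ ⟨e, he⟩).1 := by
    intro e he
    simp only [hg, dif_pos he]
  have hg1 : ∀ e ∈ H, P (g e) := by
    intro e he
    rw [hge e he]
    exact q1 _ (φ ⟨e, he⟩).2
  have hg2 : ∀ e ∈ H, g e ⊆ QQ := by
    intro e he
    rw [hge e he, ← q3]
    exact subset_biUnion_of_mem f' (φ ⟨e, he⟩).2
  have hg3 : ∀ e ∈ H, ∀ e' ∈ H, e ≠ e' → Disjoint (g e) (g e') := by
    intro e he e' he' hne
    rw [hge e he, hge e' he']
    refine q2 _ (φ ⟨e, he⟩).2 _ (φ ⟨e', he'⟩).2 fun hh => hne ?_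
    have := φ.injective (Subtype.ext hh)
    exact congrArg Subtype.val this
  have hg4 : H.biUnion g = QQ := by
    apply Subset.antisymm
    · rw [biUnion_subset]
      exact hg2
    · intro x hx
      rw [← q3] at hx
      obtain ⟨e', he', hxe⟩ := mem_biUnion.1 hx
      obtain ⟨⟨e, he⟩, hee⟩ : ∃ p, p = φ.symm ⟨e', he'⟩ := ⟨_, rfl⟩
      refine mem_biUnion.2 ⟨e, he, ?_⟩
      rw [hge e he, hee, Equiv.apply_symm_apply]
      exact hxe
  have hf4 : ∀ e ∈ H, f e ⊆ H ∪ PP := by
    intro e he
    rw [← hf3]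
    exact subset_biUnion_of_mem f he
  have hHR1 : H ⊆ R1.sym2 := hHR.trans (sym2_mono subset_union_left)
  have hPR1 : PP ⊆ R1.sym2 := (subset_vs PP).trans (sym2_mono subset_union_right)
  have hf5 : ∀ e ∈ H, f e ⊆ R1.sym2 := fun e he =>
    (hf4 e he).trans (union_subset hHR1 hPR1)
  have hfE : ∀ e ∈ H, f e ⊆ E := fun e he => (hf4 e he).trans (union_subset hHE hPE)
  -- the transformations
  obtain ⟨T, hT1, hT2⟩ := fam (V := V) (ι := Sym2 V) (α := Finset (Sym2 V)) (fun x => x)
    (fun e x => x ⊆ E ∧ Dec (x ∪ f e) ∧ Dec (x ∪ g e)) c h R2 H hHh (by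
      intro e he R' hRR hR'
      obtain ⟨T, t1, t2, t3, t4, t5⟩ := h7 R' (by omega) (f e) (g e) (hf1 e he) (hg1 e he)
        (hfE e he) ((hg2 e he).trans hQE)
        ((hf5 e he).trans (sym2_mono (hR12.trans hRR)))
        ((hg2 e he).trans (hQR2.trans (sym2_mono hRR)))
        ((sym2_disj (hf5 e he) hQR).mono_right (hg2 e he))
      exact ⟨T, ⟨t1, t4, t5⟩, t3, t2⟩)
  set TT : Finset (Sym2 V) := H.biUnion T with hTT
  have hTc : TT.card ≤ h * c := by
    refine (card_biUnion_le_card_mul _ _ c fun j hj => (hT1 j hj).2.1).trans ?_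
    exact Nat.mul_le_mul_right _ hHh
  have hTE : TT ⊆ E := by
    rw [hTT, biUnion_subset]
    intro j hj
    exact (hT1 j hj).1.1
  have hTR : ∀ e ∈ TT, e ∉ R2.sym2 := by
    intro e he
    obtain ⟨j, hj, hej⟩ := mem_biUnion.1 he
    exact (hT1 j hj).2.2 e hej
  have hTR' : ∀ e ∈ TT, e ∉ R1.sym2 := fun e he h => hTR e he (sym2_mono hR12 h)
  have hTsub : ∀ e ∈ H, T e ⊆ TT := fun e he => subset_biUnion_of_mem T he
  refine ⟨PP ∪ (QQ ∪ TT), union_subset hPE (union_subset hQE hTE), ?_, ?_, ?_, ?_⟩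
  · intro e he
    rcases mem_union.1 he with h1 | h1
    · exact hPR e h1
    · intro hR0
      have hR0' : e ∈ R1.sym2 := sym2_mono subset_union_left hR0
      rcases mem_union.1 h1 with h2 | h2
      · exact hQR e h2 hR0'
      · exact hTR' e h2 hR0'
  · refine (card_union_le _ _).trans ?_
    have := card_union_le QQ TT
    omega
  · have e1 : QQ ∪ TT = H.biUnion fun e => T e ∪ g e := by
      ext x
      rw [mem_union, ← hg4, hTT, mem_biUnion, mem_biUnion, mem_biUnion]
      constructor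
      · rintro (⟨e, he, hx⟩ | ⟨e, he, hx⟩)
        · exact ⟨e, he, mem_union_right _ hx⟩
        · exact ⟨e, he, mem_union_left _ hx⟩
      · rintro ⟨e, he, hx⟩
        rcases mem_union.1 hx with hx | hx
        · exact Or.inr ⟨e, he, hx⟩
        · exact Or.inl ⟨e, he, hx⟩
    rw [e1]
    refine hPd.union (Dec.biUnion _ _ (fun e he => (hT1 e he).1.2.2) ?_) ?_
    · intro e he e' he' hne
      rw [disjoint_union_left, disjoint_union_right, disjoint_union_right]
      have hQT : Disjoint QQ TT := sym2_disj hQR2 hTR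
      exact ⟨⟨hT2 e he e' he' hne, (hQT.mono (hg2 e' he') (hTsub e he)).symm⟩,
        hQT.mono (hg2 e he) (hTsub e' he'), hg3 e he e' he' hne⟩
    · rw [← e1]
      rw [disjoint_union_right]
      exact ⟨sym2_disj hPR1 hQR, sym2_disj hPR1 hTR'⟩
  · have e1 : PP ∪ (QQ ∪ TT) ∪ H = (H.biUnion fun e => T e ∪ f e) ∪ QQ := by
      have e2 : (H.biUnion fun e => T e ∪ f e) = TT ∪ (H ∪ PP) := by
        rw [← hf3]
        ext x
        rw [mem_union, hTT, mem_biUnion, mem_biUnion, mem_biUnion]
        constructor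
        · rintro ⟨e, he, hx⟩
          rcases mem_union.1 hx with hx | hx
          · exact Or.inl ⟨e, he, hx⟩
          · exact Or.inr ⟨e, he, hx⟩
        · rintro (⟨e, he, hx⟩ | ⟨e, he, hx⟩)
          · exact ⟨e, he, mem_union_left _ hx⟩
          · exact ⟨e, he, mem_union_right _ hx⟩
      rw [e2]
      ext x
      simp only [mem_union]
      clear * -
      tauto
    rw [e1]
    have hd : ∀ e ∈ H, Disjoint (T e ∪ f e) QQ := by
      intro e he
      rw [disjoint_union_left]
      exact ⟨((sym2_disj hQR2 hTR).mono_right (hTsub e he)).symm, sym2_disj (hf5 e he) hQR⟩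
    refine (Dec.biUnion _ _ (fun e he => (hT1 e he).1.2.1) ?_).union hQd ?_
    · intro e he e' he' hne
      rw [disjoint_union_left, disjoint_union_right, disjoint_union_right]
      exact ⟨⟨hT2 e he e' he' hne,
        ((sym2_disj (hf5 e' he') hTR').mono_right (hTsub e he)).symm⟩,
        (sym2_disj (hf5 e he) hTR').mono_right (hTsub e' he'), hf2 e he e' he' hne⟩
    · rw [disjoint_biUnion_left]
      exact hd

end TenC

end Pool.Agent.H483C6
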