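import Pool.Agent.H483C6.AbsBGadget

/-!
# Transformations of ten-cycles in nearly complete bipartite graphs
(MP_1bffa4_co, seat 1, helper760)
-/

set_option autoImplicit false
set_option linter.unusedSectionVars false

namespace Pool.Agent.H483C6

open Finset

namespace TenC

/-- nearly complete bipartite graphs with parts `S true`, `S false` and generic vertices `G` -/
structure BB {V : Type} [Fintype V] [DecidableEq V] (E : Finset (Sym2 V)) (S : Bool → Finset V)
    (G : Finset V) (q : ℕ) : Prop where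
  part : ∀ b x, x ∈ S b ↔ x ∉ S (!b)
  bip : ∀ u x b, s(u, x) ∈ E → u ∈ S b → x ∈ S (!b)
  deg : ∀ u, 50 * q ≤ dg E u
  big : ∀ b, 50 * q ≤ (S b).card
  gen : ∀ b, (S b \ G).card ≤ q
  adj : ∀ b, ∀ g ∈ S (!b), g ∈ G → (S b \ nb E g).card ≤ q
  pos : 10 ≤ q

section

variable {V : Type} [Fintype V] [DecidableEq V] {E : Finset (Sym2 V)} {S : Bool → Finset V}
  {G : Finset V} {q : ℕ}

theorem BB.pick (h : BB E S G q) (b : Bool) (L : List V) (hL : ∀ u ∈ L, u ∈ S (!b))
    (hLt : ∀ u ∈ L.tail, u ∈ G) (hlen : L.length ≤ 4) (R : Finset V) (hR : R.card ≤ 40 * q) :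
    ∃ x, x ∈ S b ∧ x ∈ G ∧ x ∉ R ∧ ∀ u ∈ L, s(u, x) ∈ E := by
  have hq := h.pos
  obtain ⟨X, hX1, hX2, hX3⟩ : ∃ X : Finset V, X ⊆ S b ∧ 50 * q ≤ X.card ∧
      ∀ x ∈ X, ∀ u ∈ L, u ∈ L.tail ∨ s(u, x) ∈ E := by
    cases L with
    | nil => exact ⟨S b, Subset.rfl, h.big b, by simp⟩
    | cons u L =>
      refine ⟨nb E u, ?_, h.deg u, ?_⟩
      · intro x hx
        rw [mem_nb] at hx
        have := h.bip u x (!b) hx (hL u List.mem_cons_self)
        simpa using this
      · intro x hx w hw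
        rw [mem_nb] at hx
        rcases List.mem_cons.1 hw with rfl | hw
        · exact Or.inr hx
        · exact Or.inl hw
  set B : Finset V := (S b \ G) ∪ R ∪ L.tail.toFinset.biUnion (fun g => S b \ nb E g) with hB
  have hBc : B.card ≤ q + 40 * q + 3 * q := by
    rw [hB]
    have h1 := card_union_le (S b \ G ∪ R) (L.tail.toFinset.biUnion (fun g => S b \ nb E g))
    have h2 := card_union_le (S b \ G) R
    have h3 : (L.tail.toFinset.biUnion (fun g => S b \ nb E g)).card ≤ 3 * q := by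
      refine (card_biUnion_le_card_mul _ _ q ?_).trans ?_
      · intro g hg
        rw [List.mem_toFinset] at hg
        exact h.adj b g (hL g (List.mem_of_mem_tail hg)) (hLt g hg)
      · refine Nat.mul_le_mul_right _ ?_
        refine (List.toFinset_card_le _).trans ?_
        rw [List.length_tail]
        omega
    have h4 := h.gen b
    omega
  obtain ⟨x, hx, hxB⟩ : ∃ x ∈ X, x ∉ B := by
    by_contra hcon
    push Not at hcon
    have := card_le_card (fun x hx => hcon x hx : X ⊆ B)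
    omega
  rw [hB] at hxB
  simp only [mem_union, mem_sdiff, mem_biUnion, List.mem_toFinset, not_or, not_and, not_not,
    not_exists, mem_nb] at hxB
  obtain ⟨⟨h1, h2⟩, h3⟩ := hxB
  refine ⟨x, hX1 hx, h1 (hX1 hx), h2, ?_⟩
  intro u hu
  rcases hX3 x hx u hu with h4 | h4
  · exact h3 u h4 (hX1 hx)
  · exact h4

theorem BB.embed (h : BB E S G q) (R : Finset V) (hR : R.card ≤ 30 * q) (N0 : ℕ)
    (col : ℕ → Bool) (bk : ℕ → List ℕ) (v : ℕ → V) (hv : ∀ i < N0, v i ∈ S (col i)) (N : ℕ)
    (hN : N ≤ 10 * q)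
    (hbk : ∀ i, N0 ≤ i → i < N → (bk i).length ≤ 4 ∧ (∀ j ∈ bk i, j < i ∧ col j = !(col i)) ∧
      ∀ j ∈ (bk i).tail, N0 ≤ j) :
    ∃ f : ℕ → V, (∀ i < N0, f i = v i) ∧ ∀ i, N0 ≤ i → i < N → f i ∉ R ∧ f i ∈ G ∧
      f i ∈ S (col i) ∧ (∀ j, N0 ≤ j → j < i → f j ≠ f i) ∧ ∀ j ∈ bk i, s(f j, f i) ∈ E := by
  induction N with
  | zero => exact ⟨v, fun _ _ => rfl, fun i _ hi => absurd hi (by omega)⟩
  | succ N ih =>
    by_cases hNN : N < N0
    · exact ⟨v, fun _ _ => rfl, fun i hi hi' => absurd hi (by omega)⟩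
    push Not at hNN
    obtain ⟨f, hf1, hf2⟩ := ih (by omega) fun i h1 h2 => hbk i h1 (by omega)
    obtain ⟨b1, b2, b3⟩ := hbk N hNN (by omega)
    have hcol : ∀ i < N, f i ∈ S (col i) := by
      intro i hi
      by_cases hi0 : i < N0
      · rw [hf1 i hi0]; exact hv i hi0
      · exact (hf2 i (by omega) hi).2.2.1
    obtain ⟨x, hx1, hx2, hx3, hx4⟩ := h.pick (col N) ((bk N).map f) (by
        intro u hu
        obtain ⟨j, hj, rfl⟩ := List.mem_map.1 hu
        rw [← (b2 j hj).2]
        exact hcol j (b2 j hj).1) (by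
        intro u hu
        rw [← List.map_tail] at hu
        obtain ⟨j, hj, rfl⟩ := List.mem_map.1 hu
        exact (hf2 j (b3 j hj) (b2 j (List.mem_of_mem_tail hj)).1).2.1) (by
        rw [List.length_map]; exact b1) (R ∪ (range N).image f) (by
        have h1 := card_union_le R ((range N).image f)
        have h2 : ((range N).image f).card ≤ N := by
          refine card_image_le.trans ?_
          simp
        omega)
    rw [mem_union, not_or] at hx3
    have hx5 : ∀ i < N, f i ≠ x := fun i hi he =>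
      hx3.2 (mem_image.2 ⟨i, mem_range.2 hi, he⟩)
    have hup : ∀ i < N, Function.update f N x i = f i := fun i hi =>
      Function.update_of_ne (by omega) _ _
    refine ⟨Function.update f N x, ?_, ?_⟩
    · intro i hi
      rw [hup i (by omega)]
      exact hf1 i hi
    · intro i hi hi'
      by_cases hiN : i = N
      · subst hiN
        rw [Function.update_self]
        refine ⟨hx3.1, hx2, hx1, ?_, ?_⟩
        · intro j _ hj
          rw [hup j hj]
          exact hx5 j hj
        · intro j hj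
          rw [hup j (b2 j hj).1]
          exact hx4 _ (List.mem_map_of_mem hj)
      · have hiN' : i < N := by omega
        obtain ⟨c1, c2, c3, c4, c5⟩ := hf2 i hi hiN'
        rw [hup i hiN']
        refine ⟨c1, c2, c3, ?_, ?_⟩
        · intro j hj hj'
          rw [hup j (by omega)]
          exact c4 j hj hj'
        · intro j hj
          rw [hup j (by have := ((hbk i hi (by omega)).2.1 j hj).1; omega)]
          exact c5 j hj

end

/-- sides of the vertices of the large gadget -/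
def col (i : ℕ) : Bool :=
  if (10 ≤ i ∧ i < 20) ∨ (40 ≤ i ∧ i < 50) then i % 2 == 1 else i % 2 == 0

/-- neighbours in the large gadget with smaller index -/
def bk (i : ℕ) : List ℕ :=
  ([[9], [2, 20], [18, 21], [4, 22], [16, 23], [6, 24], [14, 25], [8, 26], [12, 27], [19, 28, 20],
    [9], [2, 30], [21], [4, 32], [23], [6, 34], [25], [8, 36], [27], [20, 38],
    [19], [12, 40], [28], [14, 42], [26], [16, 44], [24], [18, 46], [22], [29, 48]] :
      List (List ℕ)).getD (i - 20) []

/-- first copy of the gadget -/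
def ρ1 (i : Fin 30) : ℕ := if i.1 < 10 then i.1 else i.1 + 10

/-- second copy of the gadget -/
def ρ2 (i : Fin 30) : ℕ :=
  if i.1 < 10 then i.1 + 10 else if i.1 < 20 then 39 - i.1 else i.1 + 20

theorem bk_ok : ∀ i < 50, 20 ≤ i → (bk i).length ≤ 4 ∧ (∀ j ∈ bk i, j < i ∧ col j = !(col i)) ∧
      ∀ j ∈ (bk i).tail, 20 ≤ j := by
  decide +kernel

theorem edges_ok : ∀ e ∈ TT.image (Sym2.map ρ1) ∪ (C1.image (Sym2.map ρ1) ∪
    TT.image (Sym2.map ρ2)), ∃ i ∈ range 50, 20 ≤ i ∧ ∃ j ∈ bk i, e = s(j, i) := by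
  decide +kernel

theorem c1_eq : C1.image (Sym2.map ρ1) = C1.image (Sym2.map ρ2) := by
  decide +kernel

/-- labels -/
def lab (i : ℕ) : ℕ := if 20 ≤ i then i else 0

theorem lab_disj : Disjoint ((TT.image (Sym2.map ρ1)).image (Sym2.map lab))
    ((TT.image (Sym2.map ρ2)).image (Sym2.map lab)) := by
  decide +kernel

theorem card_TT : TT.card ≤ 20 := by
  decide +kernel

theorem lt50_1 : ∀ e ∈ TT.image (Sym2.map ρ1), e ∈ (range 50).sym2 := by
  decide +kernel

theorem lt50_2 : ∀ e ∈ TT.image (Sym2.map ρ2), e ∈ (range 50).sym2 := by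
  decide +kernel

section Main

variable {V : Type} [Fintype V] [DecidableEq V] {E : Finset (Sym2 V)} {S : Bool → Finset V}
  {G : Finset V} {q : ℕ}

theorem un1 {α : Type} [DecidableEq α] (A B C D : Finset α) :
    A ∪ (B ∪ C) ∪ D = (A ∪ D) ∪ (C ∪ B) := by
  ext x; simp only [mem_union]; tauto

theorem un2 {α : Type} [DecidableEq α] (A B C D : Finset α) :
    A ∪ (B ∪ C) ∪ D = (A ∪ B) ∪ (C ∪ D) := by
  ext x; simp only [mem_union]; tauto

theorem deca_edge {v : Fin 10 → V} (i : Fin 10) : s(v i, v (i + 1)) ∈ deca v :=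
  mem_image.2 ⟨i, mem_univ _, rfl⟩

theorem side_aux (h : BB E S G q) {v : Fin 10 → V} (hE : deca v ⊆ E) {b : Bool}
    (h0 : v 0 ∈ S b) : ∀ (n : ℕ) (hn : n < 10), v ⟨n, hn⟩ ∈ S (if n % 2 = 0 then b else !b) := by
  intro n
  induction n with
  | zero => intro _; simpa using h0
  | succ n ih =>
    intro hn
    have h1 := ih (by omega)
    have h2 : ((⟨n, by omega⟩ : Fin 10) + 1) = ⟨n + 1, hn⟩ := by
      apply Fin.ext
      rw [Fin.val_add]
      show (n + 1 % 10) % 10 = n + 1
      omega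
    have h3 := h.bip _ _ _ (hE (deca_edge (v := v) ⟨n, by omega⟩)) h1
    rw [h2] at h3
    have h4 : (!(if n % 2 = 0 then b else !b)) = (if (n + 1) % 2 = 0 then b else !b) := by
      rcases Nat.mod_two_eq_zero_or_one n with h5 | h5
      · have h6 : (n + 1) % 2 = 1 := by omega
        simp [h5, h6]
      · have h6 : (n + 1) % 2 = 0 := by omega
        simp [h5, h6]
    rw [h4] at h3
    exact h3

theorem deca_side (h : BB E S G q) {D : Finset (Sym2 V)} (hD : IsDeca D) (hDE : D ⊆ E)
    (b : Bool) : ∃ v : Fin 10 → V, Function.Injective v ∧ D = deca v ∧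
      ∀ (n : ℕ) (hn : n < 10), v ⟨n, hn⟩ ∈ S (if n % 2 = 0 then b else !b) := by
  obtain ⟨v, hv, rfl⟩ := hD
  by_cases h0 : v 0 ∈ S b
  · exact ⟨v, hv, rfl, side_aux h hDE h0⟩
  · have h1 : v 0 ∈ S (!b) := by
      by_contra hc
      exact h0 ((h.part b (v 0)).2 hc)
    have h2 : v (0 + 1) ∈ S b := by
      have := h.bip _ _ _ (hDE (deca_edge (v := v) 0)) h1
      simpa using this
    refine ⟨fun i => v (i + 1), hv.comp (add_left_injective 1), (deca_rot v).symm, ?_⟩
    refine side_aux h (v := fun i => v (i + 1)) ?_ h2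
    rw [deca_rot]
    exact hDE

theorem BB.tenC (h : BB E S G q) {r : ℕ} (hr : r ≤ 30 * q) : SevenE E r 50 IsDeca IsDeca := by
  intro R hR D D' hD hD' hDE hDE' hDR hDR' hdis
  have hq := h.pos
  obtain ⟨v, hv, rfl, hvS⟩ := deca_side h hD hDE true
  obtain ⟨v', hv', rfl, hvS'⟩ := deca_side h hD' hDE' false
  have vR : ∀ i, v i ∈ R := fun i => (mk_mem_sym2_iff.1 (hDR (deca_edge i))).1
  have vR' : ∀ i, v' i ∈ R := fun i => (mk_mem_sym2_iff.1 (hDR' (deca_edge i))).1
  set w : ℕ → V := fun i => if hi : i < 10 then v ⟨i, hi⟩ else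
    if hi' : i - 10 < 10 then v' ⟨i - 10, hi'⟩ else v 0 with hw
  have hw1 : ∀ (i : ℕ) (hi : i < 10), w i = v ⟨i, hi⟩ := by
    intro i hi
    simp only [hw, dif_pos hi]
  have hw2 : ∀ (i : ℕ) (hi : i < 10), w (i + 10) = v' ⟨i, hi⟩ := by
    intro i hi
    have h1 : ¬ (i + 10 < 10) := by omega
    have h2 : i + 10 - 10 < 10 := by omega
    simp only [hw, dif_neg h1, dif_pos h2]
    congr 1
  obtain ⟨f, hf1, hf2⟩ := h.embed R (by omega) 20 col bk w (by
    intro i hi
    by_cases hi1 : i < 10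
    · rw [hw1 i hi1]
      have h1 := hvS i hi1
      have h2 : (if i % 2 = 0 then true else !true) = col i := by
        have h3 : ¬ ((10 ≤ i ∧ i < 20) ∨ (40 ≤ i ∧ i < 50)) := by omega
        rw [col, if_neg h3]
        rcases Nat.mod_two_eq_zero_or_one i with h5 | h5 <;> simp [h5]
      rw [h2] at h1
      exact h1
    · obtain ⟨j, rfl⟩ : ∃ j, i = j + 10 := ⟨i - 10, by omega⟩
      rw [hw2 j (by omega)]
      have h1 := hvS' j (by omega)
      have h2 : (if j % 2 = 0 then false else !false) = col (j + 10) := by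
        have h3 : ((10 ≤ j + 10 ∧ j + 10 < 20) ∨ (40 ≤ j + 10 ∧ j + 10 < 50)) := by omega
        rw [col, if_pos h3]
        rcases Nat.mod_two_eq_zero_or_one j with h5 | h5
        · have h6 : (j + 10) % 2 = 0 := by omega
          simp [h5, h6]
        · have h6 : (j + 10) % 2 = 1 := by omega
          simp [h5, h6]
      rw [h2] at h1
      exact h1) 50 (by omega) (fun i h1 h2 => bk_ok i h2 h1)
  have hfR : ∀ i < 20, f i ∈ R := by
    intro i hi
    rw [hf1 i hi]
    by_cases hi1 : i < 10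
    · rw [hw1 i hi1]; exact vR _
    · obtain ⟨j, rfl⟩ : ∃ j, i = j + 10 := ⟨i - 10, by omega⟩
      rw [hw2 j (by omega)]; exact vR' _
  have hfinj : ∀ i j, 20 ≤ i → i < 50 → 20 ≤ j → j < 50 → f i = f j → i = j := by
    intro i j h1 h2 h3 h4 he
    rcases lt_trichotomy i j with hij | hij | hij
    · exact absurd he ((hf2 j h3 h4).2.2.2.1 i h1 hij)
    · exact hij
    · exact absurd he.symm ((hf2 i h1 h2).2.2.2.1 j h3 hij)
  -- the two copies
  set F1 : Fin 30 → V := fun i => f (ρ1 i) with hF1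
  set F2 : Fin 30 → V := fun i => f (ρ2 i) with hF2
  have r1a : ∀ i : Fin 30, 10 ≤ i.1 → 20 ≤ ρ1 i ∧ ρ1 i < 50 := by decide
  have r2a : ∀ i : Fin 30, 10 ≤ i.1 → 20 ≤ ρ2 i ∧ ρ2 i < 50 := by decide
  have r1b : ∀ i : Fin 30, i.1 < 10 → ρ1 i = i.1 := by decide
  have r2b : ∀ i : Fin 30, i.1 < 10 → ρ2 i = i.1 + 10 := by decide
  have r1c : Function.Injective ρ1 := by decide
  have r2c : Function.Injective ρ2 := by decide
  have hF1v : ∀ (i : Fin 30) (hi : i.1 < 10), F1 i = v ⟨i.1, hi⟩ := by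
    intro i hi
    simp only [hF1]
    rw [r1b i hi, hf1 _ (by omega), hw1 _ hi]
  have hF2v : ∀ (i : Fin 30) (hi : i.1 < 10), F2 i = v' ⟨i.1, hi⟩ := by
    intro i hi
    simp only [hF2]
    rw [r2b i hi, hf1 _ (by omega), hw2 _ hi]
  have hF1i : Function.Injective F1 := by
    intro i j hij
    by_cases hi : i.1 < 10 <;> by_cases hj : j.1 < 10
    · rw [hF1v i hi, hF1v j hj] at hij
      have := hv hij
      rw [Fin.mk.injEq] at this
      exact Fin.ext this
    · exfalso
      have h1 := r1a j (by omega)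
      have h2 := (hf2 _ h1.1 h1.2).1
      have h3 : f (ρ1 j) = F1 i := hij.symm
      rw [h3, hF1v i hi] at h2
      exact h2 (vR _)
    · exfalso
      have h1 := r1a i (by omega)
      have h2 := (hf2 _ h1.1 h1.2).1
      have h3 : f (ρ1 i) = F1 j := hij
      rw [h3, hF1v j hj] at h2
      exact h2 (vR _)
    · have h1 := r1a i (by omega)
      have h2 := r1a j (by omega)
      exact r1c (hfinj _ _ h1.1 h1.2 h2.1 h2.2 hij)
  have hF2i : Function.Injective F2 := by
    intro i j hij
    by_cases hi : i.1 < 10 <;> by_cases hj : j.1 < 10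
    · rw [hF2v i hi, hF2v j hj] at hij
      have := hv' hij
      rw [Fin.mk.injEq] at this
      exact Fin.ext this
    · exfalso
      have h1 := r2a j (by omega)
      have h2 := (hf2 _ h1.1 h1.2).1
      have h3 : f (ρ2 j) = F2 i := hij.symm
      rw [h3, hF2v i hi] at h2
      exact h2 (vR' _)
    · exfalso
      have h1 := r2a i (by omega)
      have h2 := (hf2 _ h1.1 h1.2).1
      have h3 : f (ρ2 i) = F2 j := hij
      rw [h3, hF2v j hj] at h2
      exact h2 (vR' _)
    · have h1 := r2a i (by omega)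
      have h2 := r2a j (by omega)
      exact r2c (hfinj _ _ h1.1 h1.2 h2.1 h2.2 hij)
  have hD1 : C0.image (Sym2.map F1) = deca v := by
    unfold C0
    rw [deca_image]
    congr 1
    funext i
    fin_cases i <;> exact hF1v _ (by decide)
  have hD2 : C0.image (Sym2.map F2) = deca v' := by
    unfold C0
    rw [deca_image]
    congr 1
    funext i
    fin_cases i <;> exact hF2v _ (by decide)
  have comp1 : ∀ X : Finset (Sym2 (Fin 30)), X.image (Sym2.map F1) =
      (X.image (Sym2.map ρ1)).image (Sym2.map f) := by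
    intro X
    rw [image_image, ← Sym2.map_comp]
    rfl
  have comp2 : ∀ X : Finset (Sym2 (Fin 30)), X.image (Sym2.map F2) =
      (X.image (Sym2.map ρ2)).image (Sym2.map f) := by
    intro X
    rw [image_image, ← Sym2.map_comp]
    rfl
  have hFF : C1.image (Sym2.map F1) = C1.image (Sym2.map F2) := by
    rw [comp1, comp2, c1_eq]
  obtain ⟨g1, g2, g3, g4⟩ := swap10 F1 hF1i
  obtain ⟨k1, k2, k3, k4⟩ := swap10 F2 hF2i
  rw [hD1] at g1 g3
  rw [hD2] at k1 k3
  rw [← hFF] at k2 k4
  set T1 := TT.image (Sym2.map F1) with hT1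
  set T2 := TT.image (Sym2.map F2) with hT2
  set F := C1.image (Sym2.map F1) with hF
  have hall : T1 ∪ (F ∪ T2) = (TT.image (Sym2.map ρ1) ∪ (C1.image (Sym2.map ρ1) ∪
      TT.image (Sym2.map ρ2))).image (Sym2.map f) := by
    rw [image_union, image_union, hT1, hT2, hF, comp1, comp1, comp2]
  have hmem : ∀ e ∈ T1 ∪ (F ∪ T2), e ∈ E ∧ e ∉ R.sym2 := by
    intro e he
    rw [hall, mem_image] at he
    obtain ⟨e', he', rfl⟩ := he
    obtain ⟨i, hi, hi2, j, hj, rfl⟩ := edges_ok e' he'
    rw [mem_range] at hi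
    obtain ⟨c1, _, _, _, c5⟩ := hf2 i hi2 hi
    refine ⟨c5 j hj, ?_⟩
    show s(f j, f i) ∉ R.sym2
    rw [mk_mem_sym2_iff]
    exact fun hh => c1 hh.2
  have hT12 : Disjoint T1 T2 := by
    classical
    set lam : V → ℕ := fun x => if hx : ∃ i, 20 ≤ i ∧ i < 50 ∧ f i = x then hx.choose else 0
      with hlam
    have hl : ∀ i < 50, lam (f i) = lab i := by
      intro i hi
      unfold lab
      by_cases hi2 : 20 ≤ i
      · rw [if_pos hi2]
        have hx : ∃ i', 20 ≤ i' ∧ i' < 50 ∧ f i' = f i := ⟨i, hi2, hi, rfl⟩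
        simp only [hlam, dif_pos hx]
        exact hfinj _ _ hx.choose_spec.1 hx.choose_spec.2.1 hi2 hi hx.choose_spec.2.2
      · rw [if_neg hi2]
        have hx : ¬ ∃ i', 20 ≤ i' ∧ i' < 50 ∧ f i' = f i := by
          rintro ⟨i', h1, h2, h3⟩
          have h4 := (hf2 i' h1 h2).1
          rw [h3] at h4
          exact h4 (hfR i (by omega))
        simp only [hlam, dif_neg hx]
    have key : ∀ e ∈ (range 50).sym2, Sym2.map lam (Sym2.map f e) = Sym2.map lab e := by
      intro e he
      rw [Sym2.map_map]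
      refine Sym2.map_congr fun x hx => ?_
      rw [mem_sym2_iff] at he
      exact hl x (mem_range.1 (he x hx))
    rw [disjoint_left]
    intro e he1 he2
    rw [hT1, comp1, mem_image] at he1
    rw [hT2, comp2, mem_image] at he2
    obtain ⟨e1, h1, rfl⟩ := he1
    obtain ⟨e2, h2, h3⟩ := he2
    have h4 : Sym2.map lab e1 = Sym2.map lab e2 := by
      rw [← key e1 (lt50_1 e1 h1), ← key e2 (lt50_2 e2 h2), h3]
    exact disjoint_left.1 lab_disj (mem_image_of_mem _ h1) (by
      rw [h4]; exact mem_image_of_mem _ h2)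
  have disR : ∀ {X Y : Finset (Sym2 V)}, X ⊆ R.sym2 → Y ⊆ T1 ∪ (F ∪ T2) → Disjoint X Y := by
    intro X Y hX hY
    rw [disjoint_left]
    intro e h1 h2
    exact (hmem e (hY h2)).2 (hX h1)
  refine ⟨T1 ∪ (F ∪ T2), fun e he => (hmem e he).1, fun e he => (hmem e he).2, ?_, ?_, ?_⟩
  · have c1 := card_union_le T1 (F ∪ T2)
    have c2 := card_union_le F T2
    have c3 : T1.card ≤ 20 := card_image_le.trans card_TT
    have c4 : T2.card ≤ 20 := card_image_le.trans card_TT
    have c5 : F.card ≤ 10 := card_image_le.trans (card_deca_le _)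
    omega
  · rw [un1]
    refine g3.union k4 ?_
    rw [disjoint_union_left, disjoint_union_right, disjoint_union_right]
    refine ⟨⟨hT12, g2⟩, disR hDR ?_, disR hDR ?_⟩
    · exact fun x hx => mem_union_right _ (mem_union_right _ hx)
    · exact fun x hx => mem_union_right _ (mem_union_left _ hx)
  · rw [un2]
    refine g4.union k3 ?_
    rw [disjoint_union_left, disjoint_union_right, disjoint_union_right]
    refine ⟨⟨hT12, (disR hDR' ?_).symm⟩, k2.symm, (disR hDR' ?_).symm⟩
    · exact fun x hx => mem_union_left _ hx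
    · exact fun x hx => mem_union_right _ (mem_union_left _ hx)

end Main

end TenC

end Pool.Agent.H483C6
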