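import Pool.Agent.H483C6.Paths
import Pool.Agent.H483C6.Stmts2

/-!
# The swap gadget for ten-cycles (MP_1bffa4_co, seat 1, helper760)

A ten-cycle `D` can be transformed into another ten-cycle `F` by five swaps.
-/

set_option autoImplicit false
set_option linter.unusedSectionVars false

namespace Pool.Agent.H483C6

open Finset

namespace TenC

section Img

variable {U V : Type} [DecidableEq U] [DecidableEq V]

theorem hex_image (f : U → V) (a b c d e g : U) :
    (hex a b c d e g).image (Sym2.map f) = hex (f a) (f b) (f c) (f d) (f e) (f g) := by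
  simp [hex, image_insert]

theorem isHex_image {f : U → V} (hf : Function.Injective f) {S : Finset (Sym2 U)} (h : IsHex S) :
    IsHex (S.image (Sym2.map f)) := by
  obtain ⟨a, b, c, d, e, g, hn, rfl⟩ := h
  refine ⟨f a, f b, f c, f d, f e, f g, ?_, hex_image f a b c d e g⟩
  have := hn.map hf
  simpa using this

theorem dec_image {f : U → V} (hf : Function.Injective f) {S : Finset (Sym2 U)} (h : Dec S) :
    Dec (S.image (Sym2.map f)) := by
  induction h with
  | empty => simpa using Dec.empty
  | cons hS _ hd ih =>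
    rw [image_union]
    exact Dec.cons (isHex_image hf hS) ih ((disjoint_image (Sym2.map.injective hf)).2 hd)

end Img

/-- edges of the closed walk `v 0, ..., v 9` -/
def deca {V : Type} [DecidableEq V] (v : Fin 10 → V) : Finset (Sym2 V) :=
  univ.image fun i => s(v i, v (i + 1))

/-- edge set of a ten-cycle -/
def IsDeca {V : Type} [DecidableEq V] (S : Finset (Sym2 V)) : Prop :=
  ∃ v : Fin 10 → V, Function.Injective v ∧ S = deca v

theorem deca_image {U V : Type} [DecidableEq U] [DecidableEq V] (f : U → V) (v : Fin 10 → U) :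
    (deca v).image (Sym2.map f) = deca (f ∘ v) := by
  unfold deca
  rw [image_image]
  rfl

theorem deca_rot {V : Type} [DecidableEq V] (v : Fin 10 → V) :
    deca (fun i => v (i + 1)) = deca v := by
  ext e
  simp only [deca, mem_image, mem_univ, true_and]
  constructor
  · rintro ⟨i, rfl⟩
    exact ⟨i + 1, rfl⟩
  · rintro ⟨i, rfl⟩
    exact ⟨i - 1, by simp⟩

theorem card_deca_le {V : Type} [DecidableEq V] (v : Fin 10 → V) : (deca v).card ≤ 10 := by
  unfold deca
  refine card_image_le.trans ?_
  simp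

/-- the gadget -/
def TT : Finset (Sym2 (Fin 30)) := {s(9, 10), s(11, 2), s(13, 4), s(15, 6), s(17, 8),
  s(9, 20), s(20, 21), s(21, 2), s(11, 22), s(22, 23), s(23, 4), s(13, 24), s(24, 25), s(25, 6),
  s(15, 26), s(26, 27), s(27, 8), s(17, 28), s(28, 29), s(29, 10)}

/-- the old cycle -/
def C0 : Finset (Sym2 (Fin 30)) := deca ![0, 1, 2, 3, 4, 5, 6, 7, 8, 9]

/-- the new cycle -/
def C1 : Finset (Sym2 (Fin 30)) := deca ![10, 11, 12, 13, 14, 15, 16, 17, 18, 19]

theorem dis0 : Disjoint TT C0 := by
  decide +kernel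

theorem dis1 : Disjoint TT C1 := by
  decide +kernel

theorem dec5 {W : Type} [DecidableEq W] {S : Finset (Sym2 W)} (a b c d e : Finset (Sym2 W))
    (ha : IsHex a) (hb : IsHex b) (hc : IsHex c) (hd : IsHex d) (he : IsHex e)
    (h1 : Disjoint a (b ∪ (c ∪ (d ∪ e)))) (h2 : Disjoint b (c ∪ (d ∪ e)))
    (h3 : Disjoint c (d ∪ e)) (h4 : Disjoint d e)
    (hS : S = a ∪ (b ∪ (c ∪ (d ∪ e)))) : Dec S := by
  rw [hS]
  exact ha.dec.union (hb.dec.union (hc.dec.union (hd.dec.union he.dec h4) h3) h2) h1

theorem dd0 : Dec (TT ∪ C0) := by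
  refine dec5 (hex 9 0 1 2 21 20) (hex 11 2 3 4 23 22) (hex 13 4 5 6 25 24) (hex 15 6 7 8 27 26)
    (hex 17 8 9 10 29 28) (isHex_hex (by decide)) (isHex_hex (by decide)) (isHex_hex (by decide))
    (isHex_hex (by decide)) (isHex_hex (by decide)) ?_ ?_ ?_ ?_ ?_
  · decide +kernel
  · decide +kernel
  · decide +kernel
  · decide +kernel
  · decide +kernel

theorem dd1 : Dec (TT ∪ C1) := by
  refine dec5 (hex 9 10 11 2 21 20) (hex 11 12 13 4 23 22) (hex 13 14 15 6 25 24)
    (hex 15 16 17 8 27 26) (hex 17 18 19 10 29 28) (isHex_hex (by decide)) (isHex_hex (by decide))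
    (isHex_hex (by decide)) (isHex_hex (by decide)) (isHex_hex (by decide)) ?_ ?_ ?_ ?_ ?_
  · decide +kernel
  · decide +kernel
  · decide +kernel
  · decide +kernel
  · decide +kernel

theorem swap10 {V : Type} [DecidableEq V] (f : Fin 30 → V) (hf : Function.Injective f) :
    Disjoint (TT.image (Sym2.map f)) (C0.image (Sym2.map f)) ∧
      Disjoint (TT.image (Sym2.map f)) (C1.image (Sym2.map f)) ∧
      Dec (TT.image (Sym2.map f) ∪ C0.image (Sym2.map f)) ∧
      Dec (TT.image (Sym2.map f) ∪ C1.image (Sym2.map f)) := by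
  have hinj := Sym2.map.injective hf
  refine ⟨(disjoint_image hinj).2 dis0, (disjoint_image hinj).2 dis1, ?_, ?_⟩
  · rw [← image_union]; exact dec_image hf dd0
  · rw [← image_union]; exact dec_image hf dd1

end TenC

end Pool.Agent.H483C6
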