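import Pool.Agent.H483C6.AbsBEmb

/-!
# The hub in nearly complete bipartite graphs (MP_1bffa4_co, seat 1, helper760)
-/

set_option autoImplicit false
set_option linter.unusedSectionVars false

namespace Pool.Agent.H483C6

open Finset

namespace TenC

theorem pairing_aux {V : Type} [DecidableEq V] {ι : Type} [DecidableEq ι]
    (T : ι → Finset (Sym2 V)) (n : ℕ) : ∀ (J : Finset ι) (_ : J.card = n + n)
    (_ : ∀ i ∈ J, ∀ j ∈ J, i ≠ j → Disjoint (T i) (T j))
    (_ : ∀ i ∈ J, ∀ j ∈ J, i ≠ j → Dec (T i ∪ T j)), Dec (J.biUnion T) := by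
  induction n with
  | zero =>
    intro J hn _ _
    have : J = ∅ := card_eq_zero.1 hn
    subst this
    rw [biUnion_empty]
    exact Dec.empty
  | succ n ih =>
    intro J hn hd h
    obtain ⟨i, hi⟩ : J.Nonempty := card_pos.1 (by omega)
    have h1 : (J.erase i).card = n + n + 1 := by
      rw [card_erase_of_mem hi]; omega
    obtain ⟨j, hj⟩ : (J.erase i).Nonempty := card_pos.1 (by omega)
    have h2 : ((J.erase i).erase j).card = n + n := by
      rw [card_erase_of_mem hj]; omega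
    have hji : j ≠ i := (mem_erase.1 hj).1
    have hjJ : j ∈ J := (mem_erase.1 hj).2
    have hsub : ∀ x ∈ (J.erase i).erase j, x ≠ j ∧ x ≠ i ∧ x ∈ J := by
      intro x hx
      rw [mem_erase, mem_erase] at hx
      exact hx
    have hJ' : J = insert i (insert j ((J.erase i).erase j)) := by
      rw [insert_erase hj, insert_erase hi]
    have ih' := ih ((J.erase i).erase j) h2
      (fun a ha b hb => hd a (hsub a ha).2.2 b (hsub b hb).2.2)
      (fun a ha b hb => h a (hsub a ha).2.2 b (hsub b hb).2.2)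
    rw [hJ', biUnion_insert, biUnion_insert, ← union_assoc]
    refine Dec.union (h i hi j hjJ hji.symm) ih' ?_
    rw [disjoint_union_left]
    constructor
    · rw [disjoint_biUnion_right]
      exact fun k hk => hd i hi k (hsub k hk).2.2 (hsub k hk).2.1.symm
    · rw [disjoint_biUnion_right]
      exact fun k hk => hd j hjJ k (hsub k hk).2.2 (hsub k hk).1.symm

theorem pairing {V : Type} [DecidableEq V] {ι : Type} [DecidableEq ι] (J : Finset ι)
    (T : ι → Finset (Sym2 V)) (hJ : Even J.card)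
    (hd : ∀ i ∈ J, ∀ j ∈ J, i ≠ j → Disjoint (T i) (T j))
    (h : ∀ i ∈ J, ∀ j ∈ J, i ≠ j → Dec (T i ∪ T j)) : Dec (J.biUnion T) := by
  obtain ⟨n, hn⟩ := hJ
  exact pairing_aux T n J hn hd h

theorem fresh3b {V : Type} [DecidableEq V] (E : Finset (Sym2 V)) (r k : ℕ)
    (R : Finset V) (hR : R.card ≤ r) {ι : Type} [DecidableEq ι]
    (J : Finset ι) (hJ : J.card ≤ k) (u v : ι → V)
    (h : ∀ j ∈ J, ∀ R' : Finset V, R'.card ≤ r + 2 * k → ∃ a b, a ∉ R' ∧ b ∉ R' ∧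
      s(u j, a) ∈ E ∧ s(a, b) ∈ E ∧ s(b, v j) ∈ E) :
    ∃ a b : ι → V, (∀ j ∈ J, a j ∉ R ∧ b j ∉ R ∧ s(u j, a j) ∈ E ∧ s(a j, b j) ∈ E ∧
        s(b j, v j) ∈ E) ∧
      ∀ i ∈ J, ∀ j ∈ J, i ≠ j → a i ≠ a j ∧ b i ≠ b j ∧ a i ≠ b j := by
  induction J using Finset.induction_on with
  | empty =>
    refine ⟨u, v, ?_, ?_⟩
    · intro j hj
      exact absurd hj (notMem_empty j)
    · intro j hj
      exact absurd hj (notMem_empty j)
  | insert j0 J hj0 ih =>
    have hc : J.card + 1 ≤ k := by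
      rw [card_insert_of_notMem hj0] at hJ
      exact hJ
    obtain ⟨a, b, h1, h2⟩ := ih (by omega) fun j hj => h j (mem_insert_of_mem hj)
    obtain ⟨a0, b0, h3, h4, h5, h6, h7⟩ := h j0 (mem_insert_self _ _)
      (R ∪ (J.image a ∪ J.image b))
      (by
        refine (card_union_le _ _).trans ?_
        have := card_union_le (J.image a) (J.image b)
        have e1 := card_image_le (s := J) (f := a)
        have e2 := card_image_le (s := J) (f := b)
        omega)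
    rw [mem_union, mem_union, not_or, not_or] at h3 h4
    have ha1 : ∀ i ∈ J, a i ≠ a0 := fun i hi he => h3.2.1 (mem_image.2 ⟨i, hi, he⟩)
    have ha2 : ∀ i ∈ J, b i ≠ a0 := fun i hi he => h3.2.2 (mem_image.2 ⟨i, hi, he⟩)
    have hb1 : ∀ i ∈ J, a i ≠ b0 := fun i hi he => h4.2.1 (mem_image.2 ⟨i, hi, he⟩)
    have hb2 : ∀ i ∈ J, b i ≠ b0 := fun i hi he => h4.2.2 (mem_image.2 ⟨i, hi, he⟩)
    have hne : ∀ i ∈ J, i ≠ j0 := fun i hi he => hj0 (he ▸ hi)
    refine ⟨Function.update a j0 a0, Function.update b j0 b0, ?_, ?_⟩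
    · intro j hj
      rcases mem_insert.1 hj with rfl | hj
      · rw [Function.update_self, Function.update_self]
        exact ⟨h3.1, h4.1, h5, h6, h7⟩
      · rw [Function.update_of_ne (hne j hj), Function.update_of_ne (hne j hj)]
        exact h1 j hj
    · intro i hi0 j hj1 hij
      rcases mem_insert.1 hi0 with hi | hi
      · rcases mem_insert.1 hj1 with hj | hj
        · exact absurd (hi.trans hj.symm) hij
        · rw [hi, Function.update_self, Function.update_self, Function.update_of_ne (hne j hj),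
            Function.update_of_ne (hne j hj)]
          exact ⟨(ha1 j hj).symm, (hb2 j hj).symm, (ha2 j hj).symm⟩
      · rcases mem_insert.1 hj1 with hj | hj
        · rw [hj, Function.update_self, Function.update_self, Function.update_of_ne (hne i hi),
            Function.update_of_ne (hne i hi)]
          exact ⟨ha1 i hi, hb2 i hi, hb1 i hi⟩
        · rw [Function.update_of_ne (hne j hj), Function.update_of_ne (hne j hj),
            Function.update_of_ne (hne i hi), Function.update_of_ne (hne i hi)]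
          exact h2 i hi j hj hij

/-- the ends of the edges in `A` -/
def vs {V : Type} [DecidableEq V] (A : Finset (Sym2 V)) : Finset V :=
  A.biUnion fun e => e.toFinset

theorem subset_vs {V : Type} [DecidableEq V] (A : Finset (Sym2 V)) : A ⊆ (vs A).sym2 := by
  intro e he
  rw [mem_sym2_iff]
  intro x hx
  exact mem_biUnion.2 ⟨e, he, Sym2.mem_toFinset.2 hx⟩

theorem card_vs_le {V : Type} [DecidableEq V] (A : Finset (Sym2 V)) :
    (vs A).card ≤ 2 * A.card := by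
  have h := card_biUnion_le_card_mul A (fun e => e.toFinset) 2 (by
    intro e _
    rw [Sym2.card_toFinset]
    split_ifs <;> omega)
  rw [mul_comm]
  exact h

theorem deca_eq {V : Type} [DecidableEq V] (x0 x1 x2 x3 x4 x5 x6 x7 x8 x9 : V) :
    deca ![x0, x1, x2, x3, x4, x5, x6, x7, x8, x9] =
      {s(x0, x1), s(x1, x2), s(x2, x3), s(x3, x4), s(x4, x5), s(x5, x6), s(x6, x7), s(x7, x8),
        s(x8, x9), s(x9, x0)} := by
  unfold deca
  have h : (univ : Finset (Fin 10)) = {0, 1, 2, 3, 4, 5, 6, 7, 8, 9} := by decide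
  rw [h]
  simp only [image_insert, image_singleton]
  rfl

theorem prop10 {e a1 a2 a3 b1 b2 b3 c1 c2 c3 : Prop} :
    e ∨ (a1 ∨ a2 ∨ a3) ∨ (b1 ∨ b2 ∨ b3) ∨ (c1 ∨ c2 ∨ c3) ↔
      a1 ∨ a2 ∨ a3 ∨ e ∨ b3 ∨ b2 ∨ b1 ∨ c1 ∨ c2 ∨ c3 := by
  tauto

section S

variable {V : Type} [Fintype V] [DecidableEq V]

theorem BB.three {E : Finset (Sym2 V)} {S : Bool → Finset V} {G : Finset V} {q : ℕ}
    (h : BB E S G q) (b : Bool) (u v : V) (hu : u ∈ S b) (hv : v ∈ S (!b)) (R : Finset V)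
    (hR : R.card ≤ 40 * q) :
    ∃ a c, a ∉ R ∧ c ∉ R ∧ s(u, a) ∈ E ∧ s(a, c) ∈ E ∧ s(c, v) ∈ E := by
  obtain ⟨c, c1, c2, c3, c4⟩ := h.pick b [v] (by simpa using hv) (by simp) (by simp) R hR
  obtain ⟨a, a1, a2, a3, a4⟩ := h.pick (!b) [u, c] (by
    intro w hw
    simp only [List.mem_cons, List.not_mem_nil, or_false] at hw
    rw [Bool.not_not]
    rcases hw with rfl | rfl
    · exact hu
    · exact c1) (by simpa using c2) (by simp) R hR
  refine ⟨a, c, a3, c3, a4 u (by simp), ?_, ?_⟩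
  · rw [Sym2.eq_swap]; exact a4 c (by simp)
  · rw [Sym2.eq_swap]; exact c4 v (by simp)

/-- incident pairs, and all pairs with the second hub -/
def JJ (H : Finset (Sym2 V)) (zf : V) : Finset (Sym2 V × V) :=
  (H ×ˢ univ).filter fun p => p.2 ∈ p.1 ∨ p.2 = zf

theorem mem_JJ {H : Finset (Sym2 V)} {zf : V} {p : Sym2 V × V} :
    p ∈ JJ H zf ↔ p.1 ∈ H ∧ (p.2 ∈ p.1 ∨ p.2 = zf) := by
  simp [JJ]

/-- the hub of `x` -/
def hb (S : Bool → Finset V) (zt zf x : V) : V := if x ∈ S true then zf else zt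

/-- the path -/
def Pt (S : Bool → Finset V) (zt zf : V) (a b : Sym2 V × V → V) (p : Sym2 V × V) :
    Finset (Sym2 V) :=
  {s(hb S zt zf p.2, a p), s(a p, b p), s(b p, p.2)}

theorem mem_Pt {S : Bool → Finset V} {zt zf : V} {a b : Sym2 V × V → V} {p : Sym2 V × V}
    {e : Sym2 V} : e ∈ Pt S zt zf a b p ↔
      e = s(hb S zt zf p.2, a p) ∨ e = s(a p, b p) ∨ e = s(b p, p.2) := by
  simp [Pt]

theorem card_Pt (S : Bool → Finset V) (zt zf : V) (a b : Sym2 V × V → V) (p : Sym2 V × V) :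
    (Pt S zt zf a b p).card ≤ 3 := by
  unfold Pt
  exact card_le_three

theorem fst_eq {H : Finset (Sym2 V)} {zf x y : V} (hxy : s(x, y) ∈ H) :
    (JJ H zf).filter (fun p => p.1 = s(x, y)) =
      {(s(x, y), x), (s(x, y), y), (s(x, y), zf)} := by
  ext ⟨e, v⟩
  simp only [mem_filter, mem_JJ, mem_insert, mem_singleton, Prod.mk.injEq]
  constructor
  · rintro ⟨⟨_, h2⟩, rfl⟩
    rcases h2 with h2 | h2
    · rw [Sym2.mem_iff] at h2
      rcases h2 with h2 | h2
      · exact Or.inl ⟨rfl, h2⟩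
      · exact Or.inr (Or.inl ⟨rfl, h2⟩)
    · exact Or.inr (Or.inr ⟨rfl, h2⟩)
  · rintro (⟨rfl, rfl⟩ | ⟨rfl, rfl⟩ | ⟨rfl, rfl⟩)
    · exact ⟨⟨hxy, Or.inl (Sym2.mem_mk_left _ _)⟩, rfl⟩
    · exact ⟨⟨hxy, Or.inl (Sym2.mem_mk_right _ _)⟩, rfl⟩
    · exact ⟨⟨hxy, Or.inr rfl⟩, rfl⟩

theorem card_JJ (H : Finset (Sym2 V)) (zf : V) : (JJ H zf).card ≤ 3 * H.card := by
  have h1 : (JJ H zf).card = ∑ e ∈ H, ((JJ H zf).filter (fun p => p.1 = e)).card :=
    card_eq_sum_card_fiberwise fun p hp => (mem_JJ.1 hp).1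
  rw [h1, mul_comm, ← smul_eq_mul, ← sum_const]
  refine sum_le_sum fun e he => ?_
  induction e using Sym2.ind with
  | _ x y => rw [fst_eq he]; exact card_le_three

theorem snd_card (H : Finset (Sym2 V)) {zf x : V} (hx : x ≠ zf) :
    ((JJ H zf).filter (fun p => p.2 = x)).card = dg H x := by
  unfold dg
  symm
  refine card_bij (fun u _ => (s(x, u), x)) ?_ ?_ ?_
  · intro u hu
    rw [mem_nb] at hu
    rw [mem_filter, mem_JJ]
    exact ⟨⟨hu, Or.inl (Sym2.mem_mk_left _ _)⟩, rfl⟩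
  · intro u _ u' _ h
    rw [Prod.mk.injEq] at h
    have := h.1
    rw [Sym2.eq_iff] at this
    rcases this with ⟨_, h⟩ | ⟨h1, h2⟩
    · exact h
    · rw [h2, h1]
  · rintro ⟨e, v⟩ hp
    rw [mem_filter, mem_JJ] at hp
    obtain ⟨⟨h1, h2⟩, rfl⟩ := hp
    have h2 := h2.resolve_right hx
    obtain ⟨u, hu⟩ := Sym2.mem_iff_exists.1 h2
    dsimp only at hu h1
    subst hu
    exact ⟨u, by rw [mem_nb]; exact h1, rfl⟩

theorem snd_card' (H : Finset (Sym2 V)) {zf : V} :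
    ((JJ H zf).filter (fun p => p.2 = zf)).card = H.card := by
  symm
  refine card_bij (fun e _ => (e, zf)) ?_ ?_ ?_
  · intro e he
    rw [mem_filter, mem_JJ]
    exact ⟨⟨he, Or.inr rfl⟩, rfl⟩
  · intro u _ u' _ h
    rw [Prod.mk.injEq] at h
    exact h.1
  · rintro ⟨e, v⟩ hp
    rw [mem_filter, mem_JJ] at hp
    obtain ⟨⟨h1, _⟩, rfl⟩ := hp
    exact ⟨e, h1, rfl⟩

/-- the situation -/
structure Sit (E : Finset (Sym2 V)) (S : Bool → Finset V) (R : Finset V) (H : Finset (Sym2 V))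
    (zt zf : V) (a b : Sym2 V × V → V) : Prop where
  hE : Loopless E
  part : ∀ b x, x ∈ S b ↔ x ∉ S (!b)
  bip : ∀ u x b, s(u, x) ∈ E → u ∈ S b → x ∈ S (!b)
  HE : H ⊆ E
  HR : H ⊆ R.sym2
  ztR : zt ∉ R
  zfR : zf ∉ R
  zz : zt ≠ zf
  zfS : zf ∈ S false
  aR : ∀ p ∈ JJ H zf, a p ∉ insert zt (insert zf R)
  bR : ∀ p ∈ JJ H zf, b p ∉ insert zt (insert zf R)
  e1 : ∀ p ∈ JJ H zf, s(hb S zt zf p.2, a p) ∈ E
  e2 : ∀ p ∈ JJ H zf, s(a p, b p) ∈ E
  e3 : ∀ p ∈ JJ H zf, s(b p, p.2) ∈ E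
  aa : ∀ p ∈ JJ H zf, ∀ q ∈ JJ H zf, p ≠ q → a p ≠ a q
  bb : ∀ p ∈ JJ H zf, ∀ q ∈ JJ H zf, p ≠ q → b p ≠ b q
  ab : ∀ p ∈ JJ H zf, ∀ q ∈ JJ H zf, a p ≠ b q

variable {E : Finset (Sym2 V)} {S : Bool → Finset V} {R : Finset V} {H : Finset (Sym2 V)}
  {zt zf : V} {a b : Sym2 V × V → V}

theorem Sit.xR (h : Sit E S R H zt zf a b) {p : Sym2 V × V} (hp : p ∈ JJ H zf) :
    p.2 ∈ insert zt (insert zf R) := by
  obtain ⟨e, x⟩ := p
  rw [mem_JJ] at hp
  rcases hp.2 with h2 | h2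
  · exact mem_insert_of_mem (mem_insert_of_mem (mem_sym2_iff.1 (h.HR hp.1) _ h2))
  · rw [h2]; exact mem_insert_of_mem (mem_insert_self _ _)

theorem hb_mem (S : Bool → Finset V) (R : Finset V) (zt zf x : V) :
    hb S zt zf x ∈ insert zt (insert zf R) := by
  unfold hb
  split_ifs <;> simp

theorem Sit.hb_notR (h : Sit E S R H zt zf a b) (x : V) : hb S zt zf x ∉ R := by
  unfold hb
  split_ifs
  · exact h.zfR
  · exact h.ztR

theorem Sit.hb_zf (h : Sit E S R H zt zf a b) : hb S zt zf zf = zt := by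
  unfold hb
  rw [if_neg]
  exact (h.part false zf).1 h.zfS

theorem Sit.hb_ne (h : Sit E S R H zt zf a b) {p : Sym2 V × V} (hp : p ∈ JJ H zf) :
    hb S zt zf p.2 ≠ p.2 := by
  obtain ⟨e, x⟩ := p
  rw [mem_JJ] at hp
  rcases hp.2 with h2 | h2
  · intro he
    exact h.hb_notR x (by rw [he]; exact mem_sym2_iff.1 (h.HR hp.1) _ h2)
  · dsimp only at h2 ⊢
    rw [h2, h.hb_zf]
    exact h.zz

theorem Sit.sub (h : Sit E S R H zt zf a b) {p : Sym2 V × V} (hp : p ∈ JJ H zf) :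
    Pt S zt zf a b p ⊆ E := by
  intro e he
  rw [mem_Pt] at he
  rcases he with rfl | rfl | rfl
  · exact h.e1 p hp
  · exact h.e2 p hp
  · exact h.e3 p hp

theorem Sit.notR (h : Sit E S R H zt zf a b) {p : Sym2 V × V} (hp : p ∈ JJ H zf) {e : Sym2 V}
    (he : e ∈ Pt S zt zf a b p) : e ∉ R.sym2 := by
  have haR : a p ∉ R := fun hh => h.aR p hp (mem_insert_of_mem (mem_insert_of_mem hh))
  have hbR : b p ∉ R := fun hh => h.bR p hp (mem_insert_of_mem (mem_insert_of_mem hh))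
  rw [mem_Pt] at he
  rcases he with rfl | rfl | rfl
  · rw [mk_mem_sym2_iff]; exact fun hh => haR hh.2
  · rw [mk_mem_sym2_iff]; exact fun hh => haR hh.1
  · rw [mk_mem_sym2_iff]; exact fun hh => hbR hh.1

theorem Sit.ends (h : Sit E S R H zt zf a b) {p : Sym2 V × V} (hp : p ∈ JJ H zf) {e : Sym2 V}
    (he : e ∈ Pt S zt zf a b p) : (∃ x ∈ e, x = a p ∨ x = b p) ∧
      ∀ x ∈ e, x = a p ∨ x = b p ∨ x ∈ insert zt (insert zf R) := by
  rw [mem_Pt] at he
  rcases he with rfl | rfl | rfl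
  · refine ⟨⟨a p, Sym2.mem_mk_right _ _, Or.inl rfl⟩, ?_⟩
    intro x hx
    rcases Sym2.mem_iff.1 hx with rfl | rfl
    · exact Or.inr (Or.inr (hb_mem S R zt zf _))
    · exact Or.inl rfl
  · refine ⟨⟨a p, Sym2.mem_mk_left _ _, Or.inl rfl⟩, ?_⟩
    intro x hx
    rcases Sym2.mem_iff.1 hx with rfl | rfl
    · exact Or.inl rfl
    · exact Or.inr (Or.inl rfl)
  · refine ⟨⟨b p, Sym2.mem_mk_left _ _, Or.inr rfl⟩, ?_⟩
    intro x hx
    rcases Sym2.mem_iff.1 hx with rfl | rfl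
    · exact Or.inr (Or.inl rfl)
    · exact Or.inr (Or.inr (h.xR hp))

theorem Sit.disj (h : Sit E S R H zt zf a b) {p q : Sym2 V × V} (hp : p ∈ JJ H zf)
    (hq : q ∈ JJ H zf) (hpq : p ≠ q) : Disjoint (Pt S zt zf a b p) (Pt S zt zf a b q) := by
  rw [disjoint_left]
  intro e h1 h2
  obtain ⟨⟨x, hx, hx'⟩, _⟩ := h.ends hp h1
  have h3 := (h.ends hq h2).2 x hx
  rcases hx' with rfl | rfl
  · rcases h3 with h3 | h3 | h3
    · exact h.aa p hp q hq hpq h3
    · exact h.ab p hp q hq h3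
    · exact h.aR p hp h3
  · rcases h3 with h3 | h3 | h3
    · exact h.ab q hq p hp h3.symm
    · exact h.bb p hp q hq hpq h3
    · exact h.bR p hp h3

theorem Sit.pair (h : Sit E S R H zt zf a b) {p q : Sym2 V × V} (hp : p ∈ JJ H zf)
    (hq : q ∈ JJ H zf) (hpq : p ≠ q) (h2 : p.2 = q.2) :
    Dec (Pt S zt zf a b p ∪ Pt S zt zf a b q) := by
  have e : Pt S zt zf a b p ∪ Pt S zt zf a b q =
      hex (hb S zt zf p.2) (a p) (b p) p.2 (b q) (a q) := by
    ext x
    rw [mem_union, mem_Pt, mem_Pt, mem_hex, Sym2.eq_swap (a := p.2) (b := b q),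
      Sym2.eq_swap (a := b q) (b := a q), Sym2.eq_swap (a := a q) (b := hb S zt zf p.2), h2]
    tauto
  rw [e]
  apply dec_hex
  have c1 := h.aa p hp q hq hpq
  have c2 := h.bb p hp q hq hpq
  have c3 := h.ab p hp q hq
  have c4 := h.ab q hq p hp
  have c5 := h.ab p hp p hp
  have c6 := h.ab q hq q hq
  have ha : ∀ x ∈ insert zt (insert zf R), x ≠ a p ∧ x ≠ b p ∧ x ≠ a q ∧ x ≠ b q := by
    intro x hx
    exact ⟨fun e => h.aR p hp (e ▸ hx), fun e => h.bR p hp (e ▸ hx),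
      fun e => h.aR q hq (e ▸ hx), fun e => h.bR q hq (e ▸ hx)⟩
  obtain ⟨d1, d2, d3, d4⟩ := ha _ (hb_mem S R zt zf p.2)
  obtain ⟨g1, g2, g3, g4⟩ := ha _ (h.xR hp)
  have f1 := h.hb_ne hp
  simp only [List.nodup_cons, List.mem_cons, List.not_mem_nil, or_false, not_or, not_false_iff,
    List.nodup_nil, and_true]
  exact ⟨⟨d1, d2, f1, d4, d3⟩, ⟨c5, g1.symm, c3, c1⟩, ⟨g2.symm, c2, c4.symm⟩,
    ⟨g4, g3⟩, c6.symm⟩

/-- all new edges -/
def PP (S : Bool → Finset V) (H : Finset (Sym2 V)) (zt zf : V) (a b : Sym2 V × V → V) :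
    Finset (Sym2 V) :=
  (JJ H zf).biUnion (Pt S zt zf a b)

/-- the ten-cycles -/
def ff (S : Bool → Finset V) (H : Finset (Sym2 V)) (zt zf : V) (a b : Sym2 V × V → V)
    (e : Sym2 V) : Finset (Sym2 V) :=
  insert e (((JJ H zf).filter fun p => p.1 = e).biUnion (Pt S zt zf a b))

theorem Sit.decPP (h : Sit E S R H zt zf a b) (hev : ∀ v, Even (dg H v)) (hc : Even H.card) :
    Dec (PP S H zt zf a b) := by
  have e : PP S H zt zf a b =
      univ.biUnion (fun x => ((JJ H zf).filter fun p => p.2 = x).biUnion (Pt S zt zf a b)) := by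
    ext y
    simp only [PP, mem_biUnion, mem_filter, mem_univ, true_and]
    constructor
    · rintro ⟨p, hp, hy⟩
      exact ⟨p.2, p, ⟨hp, rfl⟩, hy⟩
    · rintro ⟨x, p, ⟨hp, _⟩, hy⟩
      exact ⟨p, hp, hy⟩
  rw [e]
  refine Dec.biUnion _ _ ?_ ?_
  · intro x _
    refine pairing _ _ ?_ ?_ ?_
    · by_cases hx : x = zf
      · rw [hx, snd_card']; exact hc
      · rw [snd_card H hx]; exact hev x
    · intro p hp q hq hpq
      rw [mem_filter] at hp hq
      exact h.disj hp.1 hq.1 hpq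
    · intro p hp q hq hpq
      rw [mem_filter] at hp hq
      exact h.pair hp.1 hq.1 hpq (hp.2.trans hq.2.symm)
  · intro x _ y _ hxy
    rw [disjoint_biUnion_left]
    intro p hp
    rw [disjoint_biUnion_right]
    intro q hq
    rw [mem_filter] at hp hq
    refine h.disj hp.1 hq.1 fun e => hxy ?_
    rw [← hp.2, ← hq.2, e]

theorem Sit.deca' (h : Sit E S R H zt zf a b) {x y : V} (he : s(x, y) ∈ H) (hx : x ∈ S true) :
    IsDeca (ff S H zt zf a b s(x, y)) := by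
  have hp : (s(x, y), x) ∈ JJ H zf := mem_JJ.2 ⟨he, Or.inl (Sym2.mem_mk_left _ _)⟩
  have hq : (s(x, y), y) ∈ JJ H zf := mem_JJ.2 ⟨he, Or.inl (Sym2.mem_mk_right _ _)⟩
  have hw : (s(x, y), zf) ∈ JJ H zf := mem_JJ.2 ⟨he, Or.inr rfl⟩
  have hxy : x ≠ y := h.hE.ne (h.HE he)
  have xr : x ∈ R := (mk_mem_sym2_iff.1 (h.HR he)).1
  have yr : y ∈ R := (mk_mem_sym2_iff.1 (h.HR he)).2
  have hy : y ∈ S false := h.bip x y true (h.HE he) hx
  have hbx : hb S zt zf x = zf := by unfold hb; rw [if_pos hx]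
  have hby : hb S zt zf y = zt := by
    unfold hb; rw [if_neg]; exact (h.part false y).1 hy
  have hbz := h.hb_zf
  have xz : x ≠ zf := fun e => h.zfR (e ▸ xr)
  have yz : y ≠ zf := fun e => h.zfR (e ▸ yr)
  have xz' : x ≠ zt := fun e => h.ztR (e ▸ xr)
  have yz' : y ≠ zt := fun e => h.ztR (e ▸ yr)
  have hpq : (s(x, y), x) ≠ (s(x, y), y) := fun e => hxy (Prod.mk.inj e).2
  have hpw : (s(x, y), x) ≠ (s(x, y), zf) := fun e => xz (Prod.mk.inj e).2
  have hqw : (s(x, y), y) ≠ (s(x, y), zf) := fun e => yz (Prod.mk.inj e).2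
  set p : Sym2 V × V := (s(x, y), x) with hpd
  set q : Sym2 V × V := (s(x, y), y) with hqd
  set w : Sym2 V × V := (s(x, y), zf) with hwd
  have hin : ∀ v ∈ insert zt (insert zf R), v ≠ a p ∧ v ≠ b p ∧ v ≠ a q ∧ v ≠ b q ∧ v ≠ a w ∧
      v ≠ b w := by
    intro v hv
    exact ⟨fun e => h.aR p hp (e ▸ hv), fun e => h.bR p hp (e ▸ hv),
      fun e => h.aR q hq (e ▸ hv), fun e => h.bR q hq (e ▸ hv),
      fun e => h.aR w hw (e ▸ hv), fun e => h.bR w hw (e ▸ hv)⟩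
  obtain ⟨i1, i2, i3, i4, i5, i6⟩ := hin zf (by simp)
  obtain ⟨j1, j2, j3, j4, j5, j6⟩ := hin zt (by simp)
  obtain ⟨k1, k2, k3, k4, k5, k6⟩ := hin x (by simp [xr])
  obtain ⟨l1, l2, l3, l4, l5, l6⟩ := hin y (by simp [yr])
  have m1 := h.aa p hp q hq hpq
  have m2 := h.aa p hp w hw hpw
  have m3 := h.aa q hq w hw hqw
  have m4 := h.bb p hp q hq hpq
  have m5 := h.bb p hp w hw hpw
  have m6 := h.bb q hq w hw hqw
  have n1 := h.ab p hp p hp
  have n2 := h.ab p hp q hq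
  have n3 := h.ab p hp w hw
  have n4 := h.ab q hq p hp
  have n5 := h.ab q hq q hq
  have n6 := h.ab q hq w hw
  have n7 := h.ab w hw p hp
  have n8 := h.ab w hw q hq
  have n9 := h.ab w hw w hw
  refine ⟨![zf, a p, b p, x, y, b q, a q, zt, a w, b w], ?_, ?_⟩
  · rw [← List.nodup_ofFn]
    have hlist : List.ofFn ![zf, a p, b p, x, y, b q, a q, zt, a w, b w] =
        [zf, a p, b p, x, y, b q, a q, zt, a w, b w] := by
      simp [List.ofFn_succ]
    rw [hlist]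
    simp only [List.nodup_cons, List.mem_cons, List.not_mem_nil, or_false, not_or, not_false_iff,
      List.nodup_nil, and_true]
    refine ⟨⟨i1, i2, xz.symm, yz.symm, i4, i3, h.zz.symm, i5, i6⟩,
      ⟨n1, k1.symm, l1.symm, n2, m1, j1.symm, m2, n3⟩,
      ⟨k2.symm, l2.symm, m4, n4.symm, j2.symm, n7.symm, m5⟩,
      ⟨hxy, k4, k3, xz', k5, k6⟩,
      ⟨l4, l3, yz', l5, l6⟩,
      ⟨n5.symm, j4.symm, n8.symm, m6⟩,
      ⟨j3.symm, m3, n6⟩, ⟨j5, j6⟩, n9⟩
  · have hd : deca ![zf, a p, b p, x, y, b q, a q, zt, a w, b w] =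
        {s(zf, a p), s(a p, b p), s(b p, x), s(x, y), s(y, b q), s(b q, a q), s(a q, zt),
          s(zt, a w), s(a w, b w), s(b w, zf)} := by
      exact deca_eq _ _ _ _ _ _ _ _ _ _
    rw [hd]
    unfold ff
    rw [fst_eq he, ← hpd, ← hqd, ← hwd]
    ext u
    simp only [mem_insert, mem_biUnion, mem_singleton, exists_eq_or_imp, exists_eq_left, mem_Pt]
    show _ ∨ (u = s(hb S zt zf x, a p) ∨ _ ∨ u = s(b p, x)) ∨
      (u = s(hb S zt zf y, a q) ∨ _ ∨ u = s(b q, y)) ∨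
      (u = s(hb S zt zf zf, a w) ∨ _ ∨ u = s(b w, zf)) ↔ _
    rw [hbx, hby, hbz, Sym2.eq_swap (a := y) (b := b q),
        Sym2.eq_swap (a := b q) (b := a q), Sym2.eq_swap (a := a q) (b := zt)]
    exact prop10

theorem Sit.deca (h : Sit E S R H zt zf a b) {e : Sym2 V} (he : e ∈ H) :
    IsDeca (ff S H zt zf a b e) := by
  induction e using Sym2.ind with
  | _ x y =>
    by_cases hx : x ∈ S true
    · exact h.deca' he hx
    · have hx' : x ∈ S false := (h.part false x).2 hx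
      have hy : y ∈ S true := h.bip x y false (h.HE he) hx'
      rw [Sym2.eq_swap] at he ⊢
      exact h.deca' he hy

theorem Sit.ffdisj (h : Sit E S R H zt zf a b) {e e' : Sym2 V} (he : e ∈ H) (he' : e' ∈ H)
    (hne : e ≠ e') : Disjoint (ff S H zt zf a b e) (ff S H zt zf a b e') := by
  rw [disjoint_left]
  intro w h1 h2
  unfold ff at h1 h2
  rw [mem_insert, mem_biUnion] at h1 h2
  rcases h1 with rfl | ⟨p, hp, hw⟩
  · rcases h2 with h2 | ⟨q, hq, hw'⟩
    · exact hne h2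
    · rw [mem_filter] at hq
      exact h.notR hq.1 hw' (h.HR he)
  · rw [mem_filter] at hp
    rcases h2 with rfl | ⟨q, hq, hw'⟩
    · exact h.notR hp.1 hw (h.HR he')
    · rw [mem_filter] at hq
      refine disjoint_left.1 (h.disj hp.1 hq.1 fun e => hne ?_) hw hw'
      rw [← hp.2, ← hq.2, e]

theorem Sit.union (_ : Sit E S R H zt zf a b) :
    H.biUnion (ff S H zt zf a b) = H ∪ PP S H zt zf a b := by
  ext w
  simp only [mem_biUnion, mem_union, ff, PP, mem_insert, mem_filter]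
  constructor
  · rintro ⟨e, he, rfl | ⟨p, ⟨hp, _⟩, hw⟩⟩
    · exact Or.inl he
    · exact Or.inr ⟨p, hp, hw⟩
  · rintro (hw | ⟨p, hp, hw⟩)
    · exact ⟨w, hw, Or.inl rfl⟩
    · exact ⟨p.1, (mem_JJ.1 hp).1, Or.inr ⟨p, ⟨hp, rfl⟩, hw⟩⟩

/-- hub property for a class `P` of cycles -/
def HubP (E : Finset (Sym2 V)) (P : Finset (Sym2 V) → Prop) (r k c : ℕ) : Prop :=
  ∀ R : Finset V, R.card ≤ r → ∀ H ⊆ E, H ⊆ R.sym2 → H.card ≤ k → (∀ v, Even (dg H v)) →
    Even H.card →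
      ∃ (PP : Finset (Sym2 V)) (f : Sym2 V → Finset (Sym2 V)), PP ⊆ E ∧
        (∀ e ∈ PP, e ∉ R.sym2) ∧ PP.card ≤ c ∧ Dec PP ∧ (∀ e ∈ H, P (f e)) ∧
        (∀ e ∈ H, ∀ e' ∈ H, e ≠ e' → Disjoint (f e) (f e')) ∧ H.biUnion f = H ∪ PP

/-- hexagons outside small sets -/
def HexP (E : Finset (Sym2 V)) (r : ℕ) : Prop :=
  ∀ R : Finset V, R.card ≤ r → ∃ T ⊆ E, IsHex T ∧ ∀ e ∈ T, e ∉ R.sym2

theorem BB.hub {G : Finset V} {q : ℕ} (h : BB E S G q) (hE : Loopless E) {r k : ℕ}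
    (hr : r + 2 + 6 * k ≤ 40 * q) : HubP E IsDeca r k (9 * k) := by
  intro R hR H HE HR Hc Hev Hcev
  obtain ⟨zt, t1, _, t3, _⟩ := h.pick true [] (by simp) (by simp) (by simp) R (by omega)
  obtain ⟨zf, f1, _, f3, _⟩ := h.pick false [] (by simp) (by simp) (by simp) R (by omega)
  have hzz : zt ≠ zf := by
    rintro rfl
    exact (h.part false zt).1 f1 t1
  have hJc : (JJ H zf).card ≤ 3 * k := (card_JJ H zf).trans (by omega)
  have hRc : (insert zt (insert zf R)).card ≤ r + 2 := by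
    have c1 := card_insert_le zt (insert zf R)
    have c2 := card_insert_le zf R
    omega
  obtain ⟨a, b, h1, h2⟩ := fresh3b E (r + 2) (3 * k) (insert zt (insert zf R)) hRc (JJ H zf) hJc
    (fun p => hb S zt zf p.2) (fun p => p.2) (by
      intro p _ R' hR'
      by_cases hp : p.2 ∈ S true
      · have hh : hb S zt zf p.2 = zf := by unfold hb; rw [if_pos hp]
        rw [hh]
        exact h.three false zf p.2 f1 hp R' (by omega)
      · have hp' : p.2 ∈ S false := (h.part false p.2).2 hp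
        have hh : hb S zt zf p.2 = zt := by unfold hb; rw [if_neg hp]
        rw [hh]
        exact h.three true zt p.2 t1 hp' R' (by omega))
  have key : Sit E S R H zt zf a b := by
    refine ⟨hE, h.part, h.bip, HE, HR, t3, f3, hzz, f1, ?_, ?_, ?_, ?_, ?_, ?_, ?_, ?_⟩
    · exact fun p hp => (h1 p hp).1
    · exact fun p hp => (h1 p hp).2.1
    · exact fun p hp => (h1 p hp).2.2.1
    · exact fun p hp => (h1 p hp).2.2.2.1
    · exact fun p hp => (h1 p hp).2.2.2.2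
    · exact fun p hp q hq hpq => (h2 p hp q hq hpq).1
    · exact fun p hp q hq hpq => (h2 p hp q hq hpq).2.1
    · intro p hp q hq
      by_cases hpq : p = q
      · subst hpq
        exact hE.ne (h1 p hp).2.2.2.1
      · exact (h2 p hp q hq hpq).2.2
  refine ⟨PP S H zt zf a b, ff S H zt zf a b, ?_, ?_, ?_, key.decPP Hev Hcev,
    fun e he => key.deca he, fun e he e' he' hne => key.ffdisj he he' hne, key.union⟩
  · intro w hw
    obtain ⟨p, hp, hw⟩ := mem_biUnion.1 hw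
    exact key.sub hp hw
  · intro w hw
    obtain ⟨p, hp, hw⟩ := mem_biUnion.1 hw
    exact key.notR hp hw
  · have c1 : (PP S H zt zf a b).card ≤ (JJ H zf).card * 3 :=
      card_biUnion_le_card_mul _ _ _ fun p _ => card_Pt S zt zf a b p
    omega

/-- the hexagon as a gadget -/
def bk6 (i : ℕ) : List ℕ :=
  ([[], [0], [1], [2], [3], [4, 0]] : List (List ℕ)).getD i []

theorem bk6_ok : ∀ i < 6, (bk6 i).length ≤ 4 ∧
    (∀ j ∈ bk6 i, j < i ∧ (j % 2 == 0) = !(i % 2 == 0)) ∧ ∀ j ∈ (bk6 i).tail, 0 ≤ j := by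
  decide

theorem BB.hexP {G : Finset V} {q : ℕ} (h : BB E S G q) {r : ℕ}
    (hr : r ≤ 30 * q) : HexP E r := by
  intro R hR
  have hq := h.pos
  obtain ⟨x0, _, _, _, _⟩ := h.pick true [] (by simp) (by simp) (by simp) R (by omega)
  obtain ⟨f, _, hf⟩ := h.embed R (by omega) 0 (fun i => i % 2 == 0) bk6 (fun _ => x0)
    (fun i hi => absurd hi (by omega)) 6 (by omega) (fun i _ h1 => bk6_ok i h1)
  have hf' : ∀ i < 6, ∀ j ∈ bk6 i, s(f j, f i) ∈ E := fun i hi =>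
    (hf i (Nat.zero_le _) hi).2.2.2.2
  have hfn : ∀ i < 6, ∀ j < i, f j ≠ f i := fun i hi j hj =>
    (hf i (Nat.zero_le _) hi).2.2.2.1 j (Nat.zero_le _) hj
  have hfR : ∀ i < 6, f i ∉ R := fun i hi => (hf i (Nat.zero_le _) hi).1
  refine ⟨hex (f 0) (f 1) (f 2) (f 3) (f 4) (f 5), ?_, ?_, ?_⟩
  · intro e he
    rw [mem_hex] at he
    rcases he with rfl | rfl | rfl | rfl | rfl | rfl
    · exact hf' 1 (by norm_num) 0 (by simp [bk6])
    · exact hf' 2 (by norm_num) 1 (by simp [bk6])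
    · exact hf' 3 (by norm_num) 2 (by simp [bk6])
    · exact hf' 4 (by norm_num) 3 (by simp [bk6])
    · exact hf' 5 (by norm_num) 4 (by simp [bk6])
    · rw [Sym2.eq_swap]; exact hf' 5 (by norm_num) 0 (by simp [bk6])
  · refine isHex_hex ?_
    simp only [List.nodup_cons, List.mem_cons, List.not_mem_nil, or_false, not_or, not_false_iff,
      List.nodup_nil, and_true]
    refine ⟨⟨?_, ?_, ?_, ?_, ?_⟩, ⟨?_, ?_, ?_, ?_⟩, ⟨?_, ?_, ?_⟩, ⟨?_, ?_⟩, ?_⟩ <;>
      exact hfn _ (by norm_num) _ (by norm_num)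
  · intro e he
    rw [mem_hex] at he
    rcases he with rfl | rfl | rfl | rfl | rfl | rfl <;> rw [mk_mem_sym2_iff] <;>
      exact fun hh => hfR _ (by norm_num) hh.1

end S

end TenC

end Pool.Agent.H483C6
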