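import Pool.Agent.H483C6.Paths

/-!
# ApproxStep (MP_1bffa4_co)
-/

set_option autoImplicit false

namespace Pool.Agent.H483C6

open Finset

namespace ApSt

variable {V : Type} [Fintype V] [DecidableEq V]

theorem dg_pos {T : Finset (Sym2 V)} (h : IsHex T) {u : V} (hu : 0 < dg T u) : dg T u = 2 := by
  obtain ⟨a, b, c, d, e, f, hn, rfl⟩ := h
  by_cases hv : u ∈ ({a, b, c, d, e, f} : Finset V)
  · exact dg_hex_of_mem hn hv
  · rw [dg_hex_of_notMem hv] at hu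
    omega

theorem card_verts {T : Finset (Sym2 V)} (h : IsHex T) :
    (univ.filter fun u => 0 < dg T u).card ≤ 6 := by
  obtain ⟨a, b, c, d, e, f, hn, rfl⟩ := h
  refine (card_le_card (t := ({a, b, c, d, e, f} : Finset V)) fun u hu => ?_).trans card_le_six
  rw [mem_filter] at hu
  by_contra hcon
  rw [dg_hex_of_notMem hcon] at hu
  omega

/-- the edges of the hexagons touching `B` -/
theorem card_touch {S : Finset V} {D L : Finset (Sym2 V)} (hDS : D ⊆ S.sym2)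
    {P : Finset (Finset (Sym2 V))} (hP1 : ∀ T ∈ P, IsHex T)
    (hP2 : ∀ T ∈ P, ∀ T' ∈ P, T ≠ T' → Disjoint T T') (hP3 : P.biUnion id = D \ L)
    (B : Finset V) :
    ((P.filter fun T => ∃ u ∈ B, 0 < dg T u).biUnion id).card ≤ 3 * (B.card * S.card) := by
  have h1 : ∀ u, 2 * (P.filter fun T => 0 < dg T u).card ≤ S.card := by
    intro u
    have h2 : ∑ T ∈ P.filter (fun T => 0 < dg T u), dg T u =
        2 * (P.filter fun T => 0 < dg T u).card := by
      rw [mul_comm, ← smul_eq_mul, ← sum_const]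
      refine sum_congr rfl fun T hT => ?_
      rw [mem_filter] at hT
      exact dg_pos (hP1 T hT.1) hT.2
    rw [← h2]
    have h3 : ∑ T ∈ P.filter (fun T => 0 < dg T u), dg T u ≤ ∑ T ∈ P, dg T u :=
      sum_le_sum_of_subset (filter_subset _ _)
    have h4 := dg_biUnion P id hP2 u
    rw [hP3] at h4
    have h5 : dg (D \ L) u ≤ S.card := card_le_card
      (nb_subset_of_subset (sdiff_subset.trans hDS) u)
    simp only [id] at h4
    omega
  have h2 : (P.filter fun T => ∃ u ∈ B, 0 < dg T u) ⊆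
      B.biUnion fun u => P.filter fun T => 0 < dg T u := by
    intro T hT
    rw [mem_filter] at hT
    obtain ⟨hT, u, hu, hpos⟩ := hT
    exact mem_biUnion.2 ⟨u, hu, mem_filter.2 ⟨hT, hpos⟩⟩
  have h3 : 2 * (P.filter fun T => ∃ u ∈ B, 0 < dg T u).card ≤ B.card * S.card := by
    have h4 := (card_le_card h2).trans card_biUnion_le
    have h5 : ∑ u ∈ B, 2 * (P.filter fun T => 0 < dg T u).card ≤ ∑ u ∈ B, S.card :=
      sum_le_sum fun u _ => h1 u
    rw [← mul_sum, sum_const, smul_eq_mul] at h5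
    omega
  have h4 : ((P.filter fun T => ∃ u ∈ B, 0 < dg T u).biUnion id).card ≤
      ∑ T ∈ P.filter (fun T => ∃ u ∈ B, 0 < dg T u), 6 := by
    refine card_biUnion_le.trans (sum_le_sum fun T hT => ?_)
    rw [mem_filter] at hT
    exact (hP1 T hT.1).card.le
  rw [sum_const, smul_eq_mul] at h4
  omega

theorem card_pairs {E : Finset (Sym2 V)} (hE : Loopless E) (S : Finset V) :
    ((S ×ˢ S).filter fun t => s(t.1, t.2) ∈ E).card ≤ 2 * E.card := by
  refine le_trans ?_ (sum_dg_le hE S)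
  rw [card_filter, sum_product]
  refine sum_le_sum fun a _ => ?_
  rw [← card_filter]
  refine card_le_card fun b hb => ?_
  simp only [mem_filter] at hb
  rw [mem_nb]
  exact hb.2

/-- a 4-path which avoids `E` and the vertices `v`, `x`, `y` -/
theorem path (D E : Finset (Sym2 V)) (S : Finset V) (hE : Loopless E) (v x y : V) (γ s : ℝ)
    (hγ : 0 < γ) (hγ1 : γ ≤ 1) (hs0 : 0 < s) (hs : s ≤ γ / 8) (hN : 16 / γ ≤ (S.card : ℝ))
    (hx : (dg E x : ℝ) ≤ s * S.card) (hy : (dg E y : ℝ) ≤ s * S.card)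
    (hEc : (E.card : ℝ) ≤ s ^ 2 * (S.card : ℝ) ^ 2)
    (h : γ * (S.card : ℝ) ^ 3 ≤ (cnt4 D S x y : ℝ)) :
    ∃ a b c, a ∉ ({v, x, y} : Finset V) ∧ b ∉ ({v, x, y} : Finset V) ∧
      c ∉ ({v, x, y} : Finset V) ∧ a ≠ c ∧ s(x, a) ∈ D ∧ s(x, a) ∉ E ∧
      s(a, b) ∈ D ∧ s(a, b) ∉ E ∧ s(b, c) ∈ D ∧ s(b, c) ∉ E ∧ s(c, y) ∈ D ∧ s(c, y) ∉ E := by
  by_contra hcon
  push Not at hcon
  set P := (S ×ˢ S).filter fun t => s(t.1, t.2) ∈ E with hP
  set O : Finset V := {v, x, y} with hO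
  have hsub : ((S ×ˢ S ×ˢ S).filter fun t => s(x, t.1) ∈ D ∧ s(t.1, t.2.1) ∈ D ∧
      s(t.2.1, t.2.2) ∈ D ∧ s(t.2.2, y) ∈ D) ⊆
      (O ×ˢ S ×ˢ S) ∪ (S ×ˢ O ×ˢ S) ∪ (S ×ˢ S ×ˢ O) ∪ (nb E x ×ˢ S ×ˢ S) ∪
        ((P ×ˢ S).image fun t => (t.1.1, t.1.2, t.2)) ∪ (S ×ˢ P) ∪ (S ×ˢ S ×ˢ nb E y) ∪
        ((S ×ˢ S).image fun t => (t.1, t.2, t.1)) := by
    rintro ⟨a, b, c⟩ ht
    simp only [mem_filter, mem_product] at ht
    obtain ⟨⟨ha, hb, hc⟩, h1, h2, h3, h4⟩ := ht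
    simp only [mem_union, mem_product, mem_nb, mem_image, hP, mem_filter]
    by_contra hcc
    push Not at hcc
    obtain ⟨⟨⟨⟨⟨⟨⟨c1, c2⟩, c3⟩, c4⟩, c5⟩, c6⟩, c7⟩, c8⟩ := hcc
    have d1 : a ∉ O := fun h => (c1 h hb) hc
    have d2 : b ∉ O := fun h => (c2 ha h) hc
    have d3 : c ∉ O := c3 ha hb
    have d4 : s(x, a) ∉ E := fun h => (c4 h hb) hc
    have d5 : s(a, b) ∉ E := fun h => c5 ((a, b), c) ⟨⟨⟨ha, hb⟩, h⟩, hc⟩ rfl
    have d6 : s(b, c) ∉ E := c6 ha ⟨hb, hc⟩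
    have d7 : s(c, y) ∉ E := by rw [Sym2.eq_swap]; exact c7 ha hb
    have d8 : a ≠ c := by
      rintro rfl
      exact c8 (a, b) ⟨ha, hb⟩ rfl
    exact d7 (hcon a b c d1 d2 d3 d8 h1 d4 h2 d5 h3 d6 h4)
  have hle := card_le_card hsub
  have hPc : P.card ≤ 2 * E.card := card_pairs hE S
  have hOc : O.card ≤ 3 := card_le_three
  have e0 := card_union_le ((O ×ˢ S ×ˢ S) ∪ (S ×ˢ O ×ˢ S) ∪ (S ×ˢ S ×ˢ O) ∪ (nb E x ×ˢ S ×ˢ S) ∪
        ((P ×ˢ S).image fun t => (t.1.1, t.1.2, t.2)) ∪ (S ×ˢ P) ∪ (S ×ˢ S ×ˢ nb E y))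
        ((S ×ˢ S).image fun t => (t.1, t.2, t.1))
  have e1 := card_union_le ((O ×ˢ S ×ˢ S) ∪ (S ×ˢ O ×ˢ S) ∪ (S ×ˢ S ×ˢ O) ∪ (nb E x ×ˢ S ×ˢ S) ∪
        ((P ×ˢ S).image fun t => (t.1.1, t.1.2, t.2)) ∪ (S ×ˢ P)) (S ×ˢ S ×ˢ nb E y)
  have e2 := card_union_le ((O ×ˢ S ×ˢ S) ∪ (S ×ˢ O ×ˢ S) ∪ (S ×ˢ S ×ˢ O) ∪ (nb E x ×ˢ S ×ˢ S) ∪
        ((P ×ˢ S).image fun t => (t.1.1, t.1.2, t.2))) (S ×ˢ P)
  have e3 := card_union_le ((O ×ˢ S ×ˢ S) ∪ (S ×ˢ O ×ˢ S) ∪ (S ×ˢ S ×ˢ O) ∪ (nb E x ×ˢ S ×ˢ S))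
        ((P ×ˢ S).image fun t => (t.1.1, t.1.2, t.2))
  have e4 := card_union_le ((O ×ˢ S ×ˢ S) ∪ (S ×ˢ O ×ˢ S) ∪ (S ×ˢ S ×ˢ O)) (nb E x ×ˢ S ×ˢ S)
  have e5 := card_union_le ((O ×ˢ S ×ˢ S) ∪ (S ×ˢ O ×ˢ S)) (S ×ˢ S ×ˢ O)
  have e6 := card_union_le (O ×ˢ S ×ˢ S) (S ×ˢ O ×ˢ S)
  have e7 : ((P ×ˢ S).image fun t => (t.1.1, t.1.2, t.2)).card ≤ P.card * S.card := by
    rw [← card_product]; exact card_image_le
  have e8 : ((S ×ˢ S).image fun t => (t.1, t.2, t.1)).card ≤ S.card * S.card := by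
    rw [← card_product]; exact card_image_le
  simp only [card_product] at e1 e2 e3 e4 e5 e6
  have f1 : O.card * (S.card * S.card) ≤ 3 * (S.card * S.card) := Nat.mul_le_mul_right _ hOc
  have f2 : S.card * (O.card * S.card) ≤ S.card * (3 * S.card) :=
    Nat.mul_le_mul_left _ (Nat.mul_le_mul_right _ hOc)
  have f3 : S.card * (S.card * O.card) ≤ S.card * (S.card * 3) :=
    Nat.mul_le_mul_left _ (Nat.mul_le_mul_left _ hOc)
  have f5 : P.card * S.card ≤ 2 * E.card * S.card := Nat.mul_le_mul_right _ hPc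
  have f6 : S.card * P.card ≤ S.card * (2 * E.card) := Nat.mul_le_mul_left _ hPc
  have g1 : cnt4 D S x y ≤ 10 * (S.card * S.card) + dg E x * (S.card * S.card) +
      S.card * (S.card * dg E y) + 4 * (E.card * S.card) := by
    unfold cnt4
    have k1 : (nb E x).card = dg E x := rfl
    have k2 : (nb E y).card = dg E y := rfl
    rw [k1] at e4
    rw [k2] at e1
    nlinarith
  have g2 : (cnt4 D S x y : ℝ) ≤ 10 * ((S.card : ℝ) * S.card) + dg E x * ((S.card : ℝ) * S.card) +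
      S.card * ((S.card : ℝ) * dg E y) + 4 * ((E.card : ℝ) * S.card) := by exact_mod_cast g1
  set N : ℝ := (S.card : ℝ) with hNdef
  have hN0 : 0 < N := lt_of_lt_of_le (by positivity) hN
  have hγN : 16 ≤ γ * N := by
    rw [div_le_iff₀ hγ] at hN
    linarith
  have g3 : (dg E x : ℝ) * (N * N) ≤ s * N * (N * N) :=
    mul_le_mul_of_nonneg_right hx (by positivity)
  have g4 : N * (N * (dg E y : ℝ)) ≤ N * (N * (s * N)) :=
    mul_le_mul_of_nonneg_left (mul_le_mul_of_nonneg_left hy hN0.le) hN0.le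
  have g5 : (E.card : ℝ) * N ≤ s ^ 2 * N ^ 2 * N := mul_le_mul_of_nonneg_right hEc hN0.le
  have g6 : s ^ 2 ≤ γ / 64 := by nlinarith
  have g7 : γ * N ^ 3 ≤ 10 * N ^ 2 + (2 * s + 4 * s ^ 2) * N ^ 3 := by nlinarith
  have g8 : (2 * s + 4 * s ^ 2) * N ^ 3 ≤ (5 / 16 * γ) * N ^ 3 :=
    mul_le_mul_of_nonneg_right (by linarith) (by positivity)
  have g9 : 16 * N ^ 2 ≤ γ * N ^ 3 := by
    have : γ * N ^ 3 = (γ * N) * N ^ 2 := by ring
    rw [this]
    exact mul_le_mul_of_nonneg_right hγN (by positivity)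
  have g10 : 0 < N ^ 2 := by positivity
  nlinarith

theorem dg_pair {v x y : V} (hxy : x ≠ y) (hvx : v ≠ x) (hvy : v ≠ y) :
    dg ({s(v, x), s(v, y)} : Finset (Sym2 V)) v = 2 := by
  have : nb ({s(v, x), s(v, y)} : Finset (Sym2 V)) v = {x, y} := by
    ext u
    simp only [mem_nb, mem_insert, mem_singleton, Sym2.eq_iff, true_and]
    constructor
    · rintro ((h | ⟨h, -⟩) | (h | ⟨h, -⟩))
      · exact Or.inl h
      · exact absurd h hvx
      · exact Or.inr h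
      · exact absurd h hvy
    · rintro (h | h)
      · exact Or.inl (Or.inl h)
      · exact Or.inr (Or.inl h)
  unfold dg
  rw [this, card_pair hxy]

end ApSt

/-- TARGET -/
theorem approx_step : ∀ γ η : ℝ, 0 < γ → γ ≤ 1 → 0 < η → η ≤ 1 → ∃ κ : ℝ, 0 < κ ∧ ∃ N0 : ℕ,
    ∀ (V : Type) [Fintype V] [DecidableEq V] (S : Finset V) (D : Finset (Sym2 V)),
      Loopless D → D ⊆ S.sym2 → N0 ≤ S.card →
      (∀ v x y, s(v, x) ∈ D → s(v, y) ∈ D → x ≠ y →
        γ * (S.card : ℝ) ^ 3 ≤ (cnt4 D S x y : ℝ)) →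
      ∀ L ⊆ D, Dec (D \ L) → (L.card : ℝ) ≤ κ * (S.card : ℝ) ^ 2 →
      ∀ v, η * (S.card : ℝ) < (dg L v : ℝ) →
      ∃ L' ⊆ D, Dec (D \ L') ∧ dg L' v + 2 ≤ dg L v ∧ ∃ W : Finset V, W.card ≤ 24 ∧ v ∉ W ∧
        (∀ u, u ∉ W → dg L' u ≤ dg L u) ∧
        ∀ u ∈ W, dg L' u ≤ dg L u + 8 ∧ (dg L u : ℝ) ≤ η / 300 * (S.card : ℝ) := by
  intro γ η hγ hγ1 hη hη1
  set s : ℝ := min (γ / 8) (η / 4) with hs
  have hs0 : 0 < s := lt_min (by positivity) (by positivity)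
  have hsγ : s ≤ γ / 8 := min_le_left _ _
  have hsη : s ≤ η / 4 := min_le_right _ _
  refine ⟨s ^ 2 * (η / 300) / 7, by positivity, ⌈16 / γ⌉₊ + ⌈4 / η⌉₊ + 1, ?_⟩
  intro V _ _ S D hD hDS hN hwalk L hLD hdec hLc v hv
  set N : ℝ := (S.card : ℝ) with hNdef
  have hN1 : 16 / γ ≤ N := by
    refine (Nat.le_ceil _).trans ?_
    rw [hNdef]
    exact_mod_cast (by omega : ⌈16 / γ⌉₊ ≤ S.card)
  have hN2 : 4 / η ≤ N := by
    refine (Nat.le_ceil _).trans ?_
    rw [hNdef]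
    exact_mod_cast (by omega : ⌈4 / η⌉₊ ≤ S.card)
  have hN0 : 0 < N := lt_of_lt_of_le (by positivity) hN1
  have hηN : 4 ≤ η * N := by
    rw [div_le_iff₀ hη] at hN2
    linarith
  obtain ⟨P, hP1, hP2, hP3⟩ := dec_iff.1 hdec
  have hLl : Loopless L := hD.mono hLD
  -- the vertices of large degree in `L`
  set B : Finset V := univ.filter fun u => η / 300 * N < (dg L u : ℝ) with hB
  have hBc : (B.card : ℝ) * (η / 300 * N) ≤ 2 * L.card := by
    have h1 : ∑ u ∈ B, (η / 300 * N) ≤ ∑ u ∈ B, (dg L u : ℝ) :=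
      sum_le_sum fun u hu => by
        rw [hB, mem_filter] at hu
        exact hu.2.le
    rw [sum_const, nsmul_eq_mul] at h1
    have h2 : ∑ u ∈ B, (dg L u : ℝ) ≤ 2 * L.card := by exact_mod_cast sum_dg_le hLl B
    linarith
  set PB : Finset (Finset (Sym2 V)) := P.filter fun T => ∃ u ∈ B, 0 < dg T u with hPB
  set Eb : Finset (Sym2 V) := L ∪ PB.biUnion id with hEb
  have hPD : P.biUnion id ⊆ D := by
    rw [hP3]
    exact sdiff_subset
  have hEbD : Eb ⊆ D := by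
    refine union_subset hLD (Subset.trans ?_ hPD)
    exact biUnion_subset_biUnion_of_subset_left _ (filter_subset _ _)
  have hEbl : Loopless Eb := hD.mono hEbD
  have hEbc : (Eb.card : ℝ) ≤ s ^ 2 * N ^ 2 := by
    have h1 : Eb.card ≤ L.card + 3 * (B.card * S.card) :=
      (card_union_le _ _).trans (Nat.add_le_add_left (ApSt.card_touch hDS hP1 hP2 hP3 B) _)
    have h2 : (Eb.card : ℝ) ≤ L.card + 3 * ((B.card : ℝ) * N) := by
      rw [hNdef]
      exact_mod_cast h1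
    have h3 : (B.card : ℝ) * N ≤ 2 / 7 * s ^ 2 * N ^ 2 := by
      have h4 : (η / 300) * ((B.card : ℝ) * N) ≤ (η / 300) * (2 / 7 * s ^ 2 * N ^ 2) := by
        nlinarith
      exact le_of_mul_le_mul_left h4 (by positivity)
    have h5 : (L.card : ℝ) ≤ 1 / 7 * s ^ 2 * N ^ 2 := by
      refine hLc.trans ?_
      have h6 : s ^ 2 * (η / 300) / 7 ≤ 1 / 7 * s ^ 2 := by
        have : 0 < s ^ 2 := by positivity
        nlinarith
      exact mul_le_mul_of_nonneg_right h6 (by positivity)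
    linarith
  -- two neighbours of `v` of small degree in `Eb`
  set H : Finset V := univ.filter fun u => s * N < (dg Eb u : ℝ) with hH
  have hHc : (H.card : ℝ) ≤ 2 * s * N := by
    have h1 : ∑ u ∈ H, (s * N) ≤ ∑ u ∈ H, (dg Eb u : ℝ) :=
      sum_le_sum fun u hu => by
        rw [hH, mem_filter] at hu
        exact hu.2.le
    rw [sum_const, nsmul_eq_mul] at h1
    have h2 : ∑ u ∈ H, (dg Eb u : ℝ) ≤ 2 * Eb.card := by exact_mod_cast sum_dg_le hEbl H
    have h3 : (s * N) * (H.card : ℝ) ≤ (s * N) * (2 * s * N) := by nlinarith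
    exact le_of_mul_le_mul_left h3 (by positivity)
  have hcard : 1 < (nb L v \ H).card := by
    have h1 : (nb L v).card ≤ (nb L v \ H).card + H.card := by
      have := card_le_card_sdiff_add_card (s := nb L v) (t := H)
      omega
    have h2 : (dg L v : ℝ) ≤ ((nb L v \ H).card : ℝ) + H.card := by exact_mod_cast h1
    have h3 : (1 : ℝ) < ((nb L v \ H).card : ℝ) := by nlinarith
    exact_mod_cast h3
  obtain ⟨x, hx, y, hy, hxy⟩ := one_lt_card.1 hcard
  rw [mem_sdiff, mem_nb] at hx hy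
  obtain ⟨hx1, hx2⟩ := hx
  obtain ⟨hy1, hy2⟩ := hy
  have hx3 : (dg Eb x : ℝ) ≤ s * N := by
    by_contra hcon
    exact hx2 (mem_filter.2 ⟨mem_univ _, not_le.1 hcon⟩)
  have hy3 : (dg Eb y : ℝ) ≤ s * N := by
    by_contra hcon
    exact hy2 (mem_filter.2 ⟨mem_univ _, not_le.1 hcon⟩)
  have hvx : v ≠ x := hLl.ne hx1
  have hvy : v ≠ y := hLl.ne hy1
  obtain ⟨a, b, c, ha, hb, hc, hac, m1, n1, m2, n2, m3, n3, m4, n4⟩ :=
    ApSt.path D Eb S hEbl v x y γ s hγ hγ1 hs0 hsγ hN1 hx3 hy3 hEbc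
      (hwalk v x y (hLD hx1) (hLD hy1) hxy)
  simp only [mem_insert, mem_singleton, not_or] at ha hb hc
  have hxa : x ≠ a := hD.ne m1
  have hab : a ≠ b := hD.ne m2
  have hbc : b ≠ c := hD.ne m3
  have hcy : c ≠ y := hD.ne m4
  have hnd : [v, x, a, b, c, y].Nodup := by
    simp only [List.nodup_cons, List.mem_cons, List.not_mem_nil, or_false, not_or, not_false_iff,
      List.nodup_nil, and_true]
    refine ⟨⟨hvx, Ne.symm ha.1, Ne.symm hb.1, Ne.symm hc.1, hvy⟩, ⟨hxa, Ne.symm hb.2.1,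
      Ne.symm hc.2.1, hxy⟩, ⟨hab, hac, ha.2.2⟩, ⟨hbc, hb.2.2⟩, hcy⟩
  set T : Finset (Sym2 V) := hex v x a b c y with hT
  -- the hexagons of the four edges
  have hpick : ∀ e ∈ D, e ∉ Eb → ∃ T' ∈ P, e ∈ T' ∧ ∀ u ∈ B, dg T' u = 0 := by
    intro e he hne
    have h1 : e ∈ P.biUnion id := by
      rw [hP3, mem_sdiff]
      exact ⟨he, fun h => hne (mem_union_left _ h)⟩
    obtain ⟨T', hT', heT'⟩ := mem_biUnion.1 h1
    refine ⟨T', hT', heT', fun u hu => ?_⟩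
    by_contra hpos
    exact hne (mem_union_right _ (mem_biUnion.2 ⟨T', mem_filter.2 ⟨hT', u, hu,
      Nat.pos_of_ne_zero hpos⟩, heT'⟩))
  obtain ⟨T1, p1, q1, z1⟩ := hpick _ m1 n1
  obtain ⟨T2, p2, q2, z2⟩ := hpick _ m2 n2
  obtain ⟨T3, p3, q3, z3⟩ := hpick _ m3 n3
  obtain ⟨T4, p4, q4, z4⟩ := hpick _ m4 n4
  set Q : Finset (Finset (Sym2 V)) := {T1, T2, T3, T4} with hQ
  have hQc : Q.card ≤ 4 := card_le_four
  have hQP : Q ⊆ P := by
    intro T' hT'
    simp only [hQ, mem_insert, mem_singleton] at hT'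
    rcases hT' with rfl | rfl | rfl | rfl <;> assumption
  have hQz : ∀ T' ∈ Q, ∀ u ∈ B, dg T' u = 0 := by
    intro T' hT'
    simp only [hQ, mem_insert, mem_singleton] at hT'
    rcases hT' with rfl | rfl | rfl | rfl <;> assumption
  have hvB : v ∈ B := by
    rw [hB, mem_filter]
    refine ⟨mem_univ _, lt_of_le_of_lt ?_ hv⟩
    have : 0 < η * N := by positivity
    linarith
  set UQ : Finset (Sym2 V) := Q.biUnion id with hUQ
  set UR : Finset (Sym2 V) := (P \ Q).biUnion id with hUR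
  have hdQ : ∀ u, dg UQ u = ∑ T' ∈ Q, dg T' u := fun u =>
    dg_biUnion Q id (fun i hi j hj => hP2 i (hQP hi) j (hQP hj)) u
  have hdisjL : Disjoint (P.biUnion id) L := by
    rw [hP3]
    exact sdiff_disjoint
  have hUQP : UQ ⊆ P.biUnion id := biUnion_subset_biUnion_of_subset_left _ hQP
  have hURP : UR ⊆ P.biUnion id := biUnion_subset_biUnion_of_subset_left _ sdiff_subset
  have hQR : Disjoint UQ UR := by
    rw [hUQ, hUR, disjoint_biUnion_left]
    intro i hi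
    rw [disjoint_biUnion_right]
    intro j hj
    rw [mem_sdiff] at hj
    exact hP2 i (hQP hi) j hj.1 fun e => hj.2 (e ▸ hi)
  have hTmem : ∀ e ∈ T, (e = s(v, x) ∨ e = s(v, y)) ∨ e ∈ UQ := by
    intro e he
    rw [hT, mem_hex] at he
    rcases he with rfl | rfl | rfl | rfl | rfl | rfl
    · exact Or.inl (Or.inl rfl)
    · exact Or.inr (mem_biUnion.2 ⟨T1, by simp [hQ], q1⟩)
    · exact Or.inr (mem_biUnion.2 ⟨T2, by simp [hQ], q2⟩)
    · exact Or.inr (mem_biUnion.2 ⟨T3, by simp [hQ], q3⟩)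
    · exact Or.inr (mem_biUnion.2 ⟨T4, by simp [hQ], q4⟩)
    · exact Or.inl (Or.inr Sym2.eq_swap)
  have hTx : s(v, x) ∈ T := by
    rw [hT, mem_hex]
    exact Or.inl rfl
  have hTy : s(v, y) ∈ T := by
    rw [hT, mem_hex]
    exact Or.inr (Or.inr (Or.inr (Or.inr (Or.inr Sym2.eq_swap))))
  refine ⟨(L \ {s(v, x), s(v, y)}) ∪ (UQ \ T), ?_, ?_, ?_, Q.biUnion fun T' =>
    univ.filter fun u => 0 < dg T' u, ?_, ?_, ?_, ?_⟩
  · exact union_subset (sdiff_subset.trans hLD) (sdiff_subset.trans (hUQP.trans hPD))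
  · have h1 : D \ ((L \ {s(v, x), s(v, y)}) ∪ (UQ \ T)) = T ∪ UR := by
      ext e
      simp only [mem_sdiff, mem_union, mem_insert, mem_singleton]
      constructor
      · rintro ⟨he, hne⟩
        by_cases heT : e ∈ T
        · exact Or.inl heT
        · right
          have heL : e ∉ L := by
            intro heL
            apply hne
            left
            refine ⟨heL, ?_⟩
            rintro (rfl | rfl)
            · exact heT hTx
            · exact heT hTy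
          have heP : e ∈ P.biUnion id := by
            rw [hP3, mem_sdiff]
            exact ⟨he, heL⟩
          obtain ⟨T', hT', heT'⟩ := mem_biUnion.1 heP
          refine mem_biUnion.2 ⟨T', mem_sdiff.2 ⟨hT', fun hQ' => ?_⟩, heT'⟩
          exact hne (Or.inr ⟨mem_biUnion.2 ⟨T', hQ', heT'⟩, heT⟩)
      · rintro (he | he)
        · rcases hTmem e he with (rfl | rfl) | h2
          · refine ⟨hLD hx1, ?_⟩
            rintro (⟨-, h3⟩ | ⟨-, h3⟩)
            · exact h3 (Or.inl rfl)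
            · exact h3 hTx
          · refine ⟨hLD hy1, ?_⟩
            rintro (⟨-, h3⟩ | ⟨-, h3⟩)
            · exact h3 (Or.inr rfl)
            · exact h3 hTy
          · refine ⟨hPD (hUQP h2), ?_⟩
            rintro (⟨h3, -⟩ | ⟨-, h3⟩)
            · exact disjoint_left.1 hdisjL (hUQP h2) h3
            · exact h3 he
        · refine ⟨hPD (hURP he), ?_⟩
          rintro (⟨h3, -⟩ | ⟨h3, -⟩)
          · exact disjoint_left.1 hdisjL (hURP he) h3
          · exact disjoint_left.1 hQR h3 he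
    rw [h1]
    refine Dec.cons (isHex_hex hnd) (dec_iff.2 ⟨P \ Q, ?_, ?_, rfl⟩) ?_
    · intro T' hT'
      exact hP1 T' (mem_sdiff.1 hT').1
    · intro T' hT' T'' hT''
      exact hP2 T' (mem_sdiff.1 hT').1 T'' (mem_sdiff.1 hT'').1
    · rw [disjoint_left]
      intro e he heR
      rcases hTmem e he with (rfl | rfl) | h2
      · exact disjoint_left.1 hdisjL (hURP heR) hx1
      · exact disjoint_left.1 hdisjL (hURP heR) hy1
      · exact disjoint_left.1 hQR h2 heR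
  · have h1 := dg_union_le (L \ {s(v, x), s(v, y)}) (UQ \ T) v
    have h2 : ({s(v, x), s(v, y)} : Finset (Sym2 V)) ⊆ L := by
      intro e he
      simp only [mem_insert, mem_singleton] at he
      rcases he with rfl | rfl <;> assumption
    have h3 := dg_sdiff_add h2 v
    rw [ApSt.dg_pair hxy hvx hvy] at h3
    have h4 : dg (UQ \ T) v = 0 := by
      have h5 : dg (UQ \ T) v ≤ dg UQ v := dg_mono sdiff_subset v
      rw [hdQ, sum_eq_zero fun T' hT' => hQz T' hT' v hvB] at h5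
      omega
    omega
  · have h1 : (Q.biUnion fun T' => univ.filter fun u => 0 < dg T' u).card ≤ ∑ T' ∈ Q, 6 :=
      card_biUnion_le.trans (sum_le_sum fun T' hT' => ApSt.card_verts (hP1 T' (hQP hT')))
    rw [sum_const, smul_eq_mul] at h1
    omega
  · intro hv'
    obtain ⟨T', hT', h1⟩ := mem_biUnion.1 hv'
    rw [mem_filter, hQz T' hT' v hvB] at h1
    omega
  · intro u hu
    have h1 := dg_union_le (L \ {s(v, x), s(v, y)}) (UQ \ T) u
    have h2 : dg (L \ {s(v, x), s(v, y)}) u ≤ dg L u := dg_mono sdiff_subset u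
    have h3 : dg (UQ \ T) u ≤ dg UQ u := dg_mono sdiff_subset u
    rw [hdQ, sum_eq_zero fun T' hT' => by
      by_contra hpos
      exact hu (mem_biUnion.2 ⟨T', hT', mem_filter.2 ⟨mem_univ _, Nat.pos_of_ne_zero hpos⟩⟩)] at h3
    omega
  · intro u hu
    constructor
    · have h1 := dg_union_le (L \ {s(v, x), s(v, y)}) (UQ \ T) u
      have h2 : dg (L \ {s(v, x), s(v, y)}) u ≤ dg L u := dg_mono sdiff_subset u
      have h3 : dg (UQ \ T) u ≤ dg UQ u := dg_mono sdiff_subset u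
      have h4 : ∑ T' ∈ Q, dg T' u ≤ ∑ T' ∈ Q, 2 :=
        sum_le_sum fun T' hT' => (hP1 T' (hQP hT')).dg_le u
      rw [sum_const, smul_eq_mul] at h4
      rw [hdQ] at h3
      omega
    · by_contra hcon
      have huB : u ∈ B := mem_filter.2 ⟨mem_univ _, not_le.1 hcon⟩
      obtain ⟨T', hT', h1⟩ := mem_biUnion.1 hu
      rw [mem_filter, hQz T' hT' u huB] at h1
      omega

end Pool.Agent.H483C6

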