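import Pool.Agent.H483C6.Stmts

set_option autoImplicit false

namespace Pool.Agent.H483C6

open Finset

namespace Hexagon

variable {V : Type} [Fintype V] [DecidableEq V]

lemma mem_nb {D : Finset (Sym2 V)} {u v : V} : u ∈ nb D v ↔ s(v, u) ∈ D := by
  simp [nb]

lemma nb_subset {D : Finset (Sym2 V)} {S : Finset V} (hS : D ⊆ S.sym2) (v : V) :
    nb D v ⊆ S := by
  intro u hu
  have h := hS (mem_nb.1 hu)
  rw [Finset.mk_mem_sym2_iff] at h
  exact h.2

/-- the number of edges is at most the sum of the degrees -/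
lemma card_le_sum {D : Finset (Sym2 V)} {S : Finset V} (hS : D ⊆ S.sym2) :
    D.card ≤ ∑ v ∈ S, (nb D v).card := by
  rw [← Finset.card_sigma]
  apply Finset.card_le_card_of_surjOn (fun x : (_ : V) × V => s(x.1, x.2))
  intro e he
  induction e using Sym2.ind with
  | _ u v =>
    have h := hS he
    rw [Finset.mk_mem_sym2_iff] at h
    refine ⟨⟨u, v⟩, ?_, rfl⟩
    simp only [Finset.coe_sigma, Set.mem_sigma_iff, Finset.mem_coe]
    exact ⟨h.1, mem_nb.2 he⟩

/-- the three vertices are adjacent to `v` -/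
def TRel (D : Finset (Sym2 V)) (v : V) (t : V × V × V) : Prop :=
  t.1 ∈ nb D v ∧ t.2.1 ∈ nb D v ∧ t.2.2 ∈ nb D v

instance (D : Finset (Sym2 V)) (v : V) (t : V × V × V) : Decidable (TRel D v t) := by
  unfold TRel; infer_instance

lemma above_card {D : Finset (Sym2 V)} {S : Finset V} (hS : D ⊆ S.sym2) (v : V) :
    (Finset.bipartiteAbove (TRel D) (S ×ˢ S ×ˢ S) v).card = (nb D v).card ^ 3 := by
  have : Finset.bipartiteAbove (TRel D) (S ×ˢ S ×ˢ S) v = nb D v ×ˢ nb D v ×ˢ nb D v := by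
    ext t
    simp only [Finset.mem_bipartiteAbove, Finset.mem_product, TRel]
    constructor
    · rintro ⟨_, h⟩; exact h
    · rintro ⟨h1, h2, h3⟩
      exact ⟨⟨nb_subset hS v h1, nb_subset hS v h2, nb_subset hS v h3⟩, h1, h2, h3⟩
  rw [this, Finset.card_product, Finset.card_product]
  ring

/-- pairwise distinct triple -/
def Dis (t : V × V × V) : Prop := t.1 ≠ t.2.1 ∧ t.1 ≠ t.2.2 ∧ t.2.1 ≠ t.2.2

instance (t : V × V × V) : Decidable (Dis t) := by
  unfold Dis; infer_instance

omit [Fintype V] in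
lemma nondis_card (S : Finset V) :
    ((S ×ˢ S ×ˢ S).filter fun t => ¬ Dis t).card ≤ 3 * S.card ^ 2 := by
  have hsub : ((S ×ˢ S ×ˢ S).filter fun t => ¬ Dis t) ⊆
      ((S ×ˢ S).image fun p => (p.1, p.1, p.2)) ∪ (((S ×ˢ S).image fun p => (p.1, p.2, p.1)) ∪
        ((S ×ˢ S).image fun p => (p.1, p.2, p.2))) := by
    rintro ⟨x, y, w⟩ ht
    rw [Finset.mem_filter, Finset.mem_product, Finset.mem_product] at ht
    obtain ⟨⟨hx, hy, hw⟩, hn⟩ := ht
    simp only [Finset.mem_union, Finset.mem_image, Finset.mem_product, Prod.exists,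
      Prod.mk.injEq]
    by_cases h1 : x = y
    · left; exact ⟨x, w, ⟨hx, hw⟩, rfl, h1, rfl⟩
    · by_cases h2 : x = w
      · right; left; exact ⟨x, y, ⟨hx, hy⟩, rfl, rfl, h2⟩
      · by_cases h3 : y = w
        · right; right; exact ⟨x, y, ⟨hx, hy⟩, rfl, rfl, h3⟩
        · exact absurd ⟨h1, h2, h3⟩ hn
  have hc : ∀ f : V × V → V × V × V, ((S ×ˢ S).image f).card ≤ S.card ^ 2 := by
    intro f
    refine Finset.card_image_le.trans ?_
    rw [Finset.card_product]
    exact le_of_eq (by ring)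
  refine (Finset.card_le_card hsub).trans ?_
  refine (Finset.card_union_le _ _).trans ?_
  refine (Nat.add_le_add (hc _) ((Finset.card_union_le _ _).trans
    (Nat.add_le_add (hc _) (hc _)))).trans ?_
  exact le_of_eq (by ring)

end Hexagon

open Hexagon in
/-- TARGET: a dense graph contains a six-cycle (S_hex, with the set S and the statement unchanged) -/
theorem hexagon : S_hex := by
  intro κ hκ
  obtain ⟨N0, hN0⟩ := exists_nat_gt (5 / κ ^ 3)
  refine ⟨N0 + 1, ?_⟩
  intro V _ _ S D hL hS hN hD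
  have hNpos : 0 < S.card := by omega
  have hNR : (0 : ℝ) < S.card := by exact_mod_cast hNpos
  by_contra hcon
  -- every distinct triple has at most two common neighbours
  have hfew : ∀ t ∈ S ×ˢ S ×ˢ S, Dis t → (Finset.bipartiteBelow (TRel D) S t).card ≤ 2 := by
    rintro ⟨x, y, w⟩ _ ⟨hxy, hxw, hyw⟩
    by_contra hlt
    push Not at hlt
    rw [Finset.two_lt_card] at hlt
    obtain ⟨p, hp, q, hq, r, hr, hpq, hpr, hqr⟩ := hlt
    simp only [Finset.mem_bipartiteBelow, TRel, mem_nb] at hp hq hr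
    apply hcon
    have hne : ∀ {a b : V}, s(a, b) ∈ D → a ≠ b := by
      intro a b hab h
      exact hL _ hab (by simpa using h)
    refine ⟨hex x p y q w r, ?_, x, p, y, q, w, r, ?_, rfl⟩
    · intro e he
      simp only [hex, Finset.mem_insert, Finset.mem_singleton] at he
      rcases he with rfl | rfl | rfl | rfl | rfl | rfl
      · rw [Sym2.eq_swap]; exact hp.2.1
      · exact hp.2.2.1
      · rw [Sym2.eq_swap]; exact hq.2.2.1
      · exact hq.2.2.2
      · rw [Sym2.eq_swap]; exact hr.2.2.2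
      · exact hr.2.1
    · have a1 := hne hp.2.1
      have a2 := hne hp.2.2.1
      have a3 := hne hp.2.2.2
      have b1 := hne hq.2.1
      have b2 := hne hq.2.2.1
      have b3 := hne hq.2.2.2
      have c1 := hne hr.2.1
      have c2 := hne hr.2.2.1
      have c3 := hne hr.2.2.2
      simp only [List.nodup_cons, List.mem_cons, List.not_mem_nil, or_false, not_or,
        List.nodup_nil, and_true, not_false_eq_true]
      exact ⟨⟨a1.symm, hxy, b1.symm, hxw, c1.symm⟩, ⟨a2, hpq, a3, hpr⟩, ⟨b2.symm, hyw, c2.symm⟩,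
        ⟨b3, hqr⟩, c3.symm⟩
  -- double counting
  have hdc := Finset.sum_card_bipartiteAbove_eq_sum_card_bipartiteBelow (s := S)
    (t := S ×ˢ S ×ˢ S) (TRel D)
  have hup : ∑ t ∈ S ×ˢ S ×ˢ S, (Finset.bipartiteBelow (TRel D) S t).card ≤
      5 * S.card ^ 3 := by
    rw [← Finset.sum_filter_add_sum_filter_not (S ×ˢ S ×ˢ S) (fun t => Dis t)]
    have h1 : ∑ t ∈ (S ×ˢ S ×ˢ S).filter (fun t => Dis t),
        (Finset.bipartiteBelow (TRel D) S t).card ≤ 2 * S.card ^ 3 := by
      refine (Finset.sum_le_card_nsmul _ _ 2 ?_).trans ?_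
      · intro t ht
        rw [Finset.mem_filter] at ht
        exact hfew t ht.1 ht.2
      · have : ((S ×ˢ S ×ˢ S).filter (fun t => Dis t)).card ≤ S.card ^ 3 := by
          refine (Finset.card_filter_le _ _).trans ?_
          rw [Finset.card_product, Finset.card_product]
          exact le_of_eq (by ring)
        rw [smul_eq_mul]
        omega
    have h2 : ∑ t ∈ (S ×ˢ S ×ˢ S).filter (fun t => ¬ Dis t),
        (Finset.bipartiteBelow (TRel D) S t).card ≤ 3 * S.card ^ 3 := by
      refine (Finset.sum_le_card_nsmul _ _ S.card ?_).trans ?_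
      · intro t _
        exact Finset.card_filter_le _ _
      · rw [smul_eq_mul]
        calc _ ≤ (3 * S.card ^ 2) * S.card := Nat.mul_le_mul_right _ (nondis_card S)
          _ = 3 * S.card ^ 3 := by ring
    omega
  have hlow : κ ^ 3 * (S.card : ℝ) ^ 4 ≤ ∑ v ∈ S, ((nb D v).card : ℝ) ^ 3 := by
    have hpm := pow_sum_div_card_le_sum_pow (s := S) (f := fun v => ((nb D v).card : ℝ))
      (fun i _ => Nat.cast_nonneg _) 2
    refine le_trans ?_ hpm
    rw [le_div_iff₀ (by positivity)]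
    have h1 : κ * (S.card : ℝ) ^ 2 ≤ ∑ v ∈ S, ((nb D v).card : ℝ) := by
      refine hD.trans ?_
      exact_mod_cast card_le_sum hS
    calc κ ^ 3 * (S.card : ℝ) ^ 4 * (S.card : ℝ) ^ 2 = (κ * (S.card : ℝ) ^ 2) ^ 3 := by ring
      _ ≤ _ := pow_le_pow_left₀ (by positivity) h1 _
  have hsum : (∑ v ∈ S, ((nb D v).card : ℝ) ^ 3) ≤ 5 * (S.card : ℝ) ^ 3 := by
    have : ∑ v ∈ S, (nb D v).card ^ 3 ≤ 5 * S.card ^ 3 := by
      refine le_trans (le_of_eq ?_) hup
      rw [← hdc]
      exact Finset.sum_congr rfl fun v _ => (above_card hS v).symm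
    exact_mod_cast this
  have h5 : κ ^ 3 * (S.card : ℝ) ^ 4 ≤ 5 * (S.card : ℝ) ^ 3 := hlow.trans hsum
  have h6 : κ ^ 3 * (S.card : ℝ) ≤ 5 := by
    have h7 : (0 : ℝ) < (S.card : ℝ) ^ 3 := by positivity
    nlinarith [h5, h7]
  have h8 : 5 / κ ^ 3 < (S.card : ℝ) := by
    refine hN0.trans ?_
    exact_mod_cast (by omega : N0 < S.card)
  rw [div_lt_iff₀ (by positivity)] at h8
  nlinarith

end Pool.Agent.H483C6
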