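import Pool.Agent.H483C6.Paths
import Pool.Agent.H483C6.Hexagon
import Pool.Agent.H483C6.ApproxStep

/-!
# Approx (MP_1bffa4_co)
-/

set_option autoImplicit false

namespace Pool.Agent.H483C6

open Finset

namespace ApproxB

/-- the potential -/
def Phi {V : Type} [Fintype V] [DecidableEq V] (L : Finset (Sym2 V)) : ℕ := ∑ v, dg L v ^ 2

theorem Phi_sdiff_lt {V : Type} [Fintype V] [DecidableEq V] {L T : Finset (Sym2 V)} (hTL : T ⊆ L)
    (hT : IsHex T) : Phi (L \ T) < Phi L := by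
  obtain ⟨a, b, c, d, e, f, hn, hTe⟩ := hT
  refine sum_lt_sum (fun v _ => Nat.pow_le_pow_left (dg_mono sdiff_subset v) 2)
    ⟨a, mem_univ _, Nat.pow_lt_pow_left ?_ (by norm_num)⟩
  have h1 := dg_sdiff_add hTL a
  have h2 : dg T a = 2 := by
    rw [hTe]
    exact dg_hex_of_mem hn (by simp)
  omega

theorem dec_sdiff_sdiff {V : Type} [Fintype V] [DecidableEq V] {D L T : Finset (Sym2 V)}
    (hL : L ⊆ D) (hTL : T ⊆ L) (hT : IsHex T) (hd : Dec (D \ L)) : Dec (D \ (L \ T)) := by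
  have h1 : D \ (L \ T) = (D \ L) ∪ T := by
    ext x
    simp only [mem_sdiff, mem_union]
    constructor
    · rintro ⟨h1, h2⟩
      by_cases hx : x ∈ T
      · exact Or.inr hx
      · exact Or.inl ⟨h1, fun hl => h2 ⟨hl, hx⟩⟩
    · rintro (⟨h1, h2⟩ | h1)
      · exact ⟨h1, fun h => h2 h.1⟩
      · exact ⟨hL (hTL h1), fun h => h.2 h1⟩
  rw [h1]
  refine hd.union hT.dec ?_
  exact disjoint_sdiff_self_left.mono_right hTL

theorem Phi_step {V : Type} [Fintype V] [DecidableEq V] {L L' : Finset (Sym2 V)} (v : V)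
    (W : Finset V) (hW : W.card ≤ 24) (hvW : v ∉ W) (A B : ℝ) (hA : 0 ≤ A)
    (h1 : dg L' v + 2 ≤ dg L v) (h2 : ∀ u, u ∉ W → dg L' u ≤ dg L u)
    (h3 : ∀ u ∈ W, dg L' u ≤ dg L u + 8 ∧ (dg L u : ℝ) ≤ A) (hB : B < (dg L v : ℝ)) :
    (Phi L' : ℝ) ≤ Phi L - (4 * B - 4) + 24 * (16 * A + 64) := by
  have key : ∀ u, ((dg L' u : ℝ)) ^ 2 ≤ (dg L u : ℝ) ^ 2 +
      ((if u = v then -(4 * B - 4) else 0) + (if u ∈ W then (16 * A + 64) else 0)) := by
    intro u
    by_cases huv : u = v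
    · rw [huv, if_pos rfl, if_neg hvW]
      have e1 : (dg L' v : ℝ) + 2 ≤ dg L v := by exact_mod_cast h1
      have e2 : (0 : ℝ) ≤ dg L' v := Nat.cast_nonneg _
      nlinarith
    · rw [if_neg huv]
      by_cases huW : u ∈ W
      · rw [if_pos huW]
        obtain ⟨e1, e2⟩ := h3 u huW
        have e3 : (dg L' u : ℝ) ≤ dg L u + 8 := by exact_mod_cast e1
        have e4 : (0 : ℝ) ≤ dg L' u := Nat.cast_nonneg _
        have e5 : (0 : ℝ) ≤ dg L u := Nat.cast_nonneg _
        nlinarith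
      · rw [if_neg huW]
        have e1 : (dg L' u : ℝ) ≤ dg L u := by exact_mod_cast h2 u huW
        have e2 : (0 : ℝ) ≤ dg L' u := Nat.cast_nonneg _
        nlinarith
  have hs : (Phi L' : ℝ) ≤ ∑ u, ((dg L u : ℝ) ^ 2 +
      ((if u = v then -(4 * B - 4) else 0) + (if u ∈ W then (16 * A + 64) else 0))) := by
    unfold Phi
    push_cast
    exact sum_le_sum fun u _ => key u
  have ht : ∑ u, ((dg L u : ℝ) ^ 2 +
      ((if u = v then -(4 * B - 4) else 0) + (if u ∈ W then (16 * A + 64) else 0))) =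
      (Phi L : ℝ) + (-(4 * B - 4) + W.card * (16 * A + 64)) := by
    unfold Phi
    rw [sum_add_distrib, sum_add_distrib]
    simp
    ring
  have hc : (W.card : ℝ) ≤ 24 := by exact_mod_cast hW
  have hm : (W.card : ℝ) * (16 * A + 64) ≤ 24 * (16 * A + 64) :=
    mul_le_mul_of_nonneg_right hc (by positivity)
  linarith

end ApproxB

open ApproxB in
/-- TARGET -/
theorem approx : S_approx := by
  intro γ η hγ hη
  obtain ⟨κ, hκ, N1, hstep⟩ := approx_step (min γ 1) (min η 1) (lt_min hγ one_pos)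
    (min_le_right _ _) (lt_min hη one_pos) (min_le_right _ _)
  obtain ⟨N2, hhex⟩ := hexagon κ hκ
  refine ⟨max N1 (max N2 ⌈1000 / min η 1⌉₊), ?_⟩
  intro V _ _ S D hloop hsub hN hcnt
  classical
  have hη' : 0 < min η 1 := lt_min hη one_pos
  have hN1 : N1 ≤ S.card := (le_max_left _ _).trans hN
  have hN2 : N2 ≤ S.card := (le_max_left _ _).trans ((le_max_right _ _).trans hN)
  have hN3 : 1000 ≤ min η 1 * (S.card : ℝ) := by
    have h1 : ⌈1000 / min η 1⌉₊ ≤ S.card :=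
      (le_max_right _ _).trans ((le_max_right _ _).trans hN)
    have h2 : 1000 / min η 1 ≤ (S.card : ℝ) := (Nat.le_ceil _).trans (by exact_mod_cast h1)
    rw [div_le_iff₀ hη'] at h2
    linarith
  have hne : (D.powerset.filter fun L => Dec (D \ L)).Nonempty := by
    refine ⟨D, ?_⟩
    rw [mem_filter, mem_powerset]
    refine ⟨Subset.rfl, ?_⟩
    rw [sdiff_self]
    exact Dec.empty
  obtain ⟨L, hL, hmin⟩ := exists_min_image (D.powerset.filter fun L => Dec (D \ L)) Phi hne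
  rw [mem_filter, mem_powerset] at hL
  obtain ⟨hLD, hLdec⟩ := hL
  have hcard : (L.card : ℝ) ≤ κ * (S.card : ℝ) ^ 2 := by
    by_contra hcon
    push Not at hcon
    obtain ⟨T, hTL, hT⟩ := hhex V S L (hloop.mono hLD) (hLD.trans hsub) hN2 hcon.le
    have h1 := hmin (L \ T) (by
      rw [mem_filter, mem_powerset]
      exact ⟨sdiff_subset.trans hLD, dec_sdiff_sdiff hLD hTL hT hLdec⟩)
    exact absurd (Phi_sdiff_lt hTL hT) (not_lt.2 h1)
  refine ⟨L, hLD, hLdec, fun v => ?_⟩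
  by_contra hcon
  push Not at hcon
  have hS0 : (0 : ℝ) ≤ (S.card : ℝ) := Nat.cast_nonneg _
  have hv : min η 1 * (S.card : ℝ) < (dg L v : ℝ) :=
    (mul_le_mul_of_nonneg_right (min_le_left _ _) hS0).trans_lt hcon
  obtain ⟨L', hL'D, hL'dec, h1, W, hW, hvW, h2, h3⟩ := hstep V S D hloop hsub hN1
    (fun v x y hx hy hxy => (mul_le_mul_of_nonneg_right (min_le_left _ _)
      (pow_nonneg hS0 3)).trans (hcnt v x y hx hy hxy)) L hLD hLdec hcard v hv
  have h4 := Phi_step v W hW hvW (min η 1 / 300 * (S.card : ℝ)) (min η 1 * (S.card : ℝ))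
    (by positivity) h1 h2 h3 hv
  have h5 : (Phi L : ℝ) ≤ Phi L' := by
    exact_mod_cast hmin L' (by
      rw [mem_filter, mem_powerset]
      exact ⟨hL'D, hL'dec⟩)
  nlinarith

end Pool.Agent.H483C6
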