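import Pool.Agent.H483C6.Defs

/-!
# Basic facts about hexagon decompositions (MP_1bffa4_co, helper483)
-/

set_option autoImplicit false
set_option linter.unusedSectionVars false

namespace Pool.Agent.H483C6

open Finset

section A

variable {V : Type} [DecidableEq V]

theorem mem_hex {a b c d e f : V} {x : Sym2 V} : x ∈ hex a b c d e f ↔
    x = s(a, b) ∨ x = s(b, c) ∨ x = s(c, d) ∨ x = s(d, e) ∨ x = s(e, f) ∨ x = s(f, a) := by
  simp [hex]

theorem card_hex {a b c d e f : V} (h : [a, b, c, d, e, f].Nodup) : (hex a b c d e f).card = 6 := by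
  simp only [List.nodup_cons, List.mem_cons, List.not_mem_nil, or_false, not_or, not_false_iff,
    List.nodup_nil, and_true] at h
  obtain ⟨⟨h1, h2, h3, h4, h5⟩, ⟨h6, h7, h8, h9⟩, ⟨h10, h11, h12⟩, ⟨h13, h14⟩, h15⟩ := h
  unfold hex
  rw [card_insert_of_notMem, card_insert_of_notMem, card_insert_of_notMem, card_insert_of_notMem,
    card_insert_of_notMem, card_singleton]
  all_goals simp only [mem_insert, mem_singleton, Sym2.eq_iff]; tauto

theorem loopless_hex {a b c d e f : V} (h : [a, b, c, d, e, f].Nodup) :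
    Loopless (hex a b c d e f) := by
  simp only [List.nodup_cons, List.mem_cons, List.not_mem_nil, or_false, not_or, not_false_iff,
    List.nodup_nil, and_true] at h
  obtain ⟨⟨h1, h2, h3, h4, h5⟩, ⟨h6, h7, h8, h9⟩, ⟨h10, h11, h12⟩, ⟨h13, h14⟩, h15⟩ := h
  intro x hx
  rw [mem_hex] at hx
  rcases hx with rfl | rfl | rfl | rfl | rfl | rfl <;> simp only [Sym2.mk_isDiag_iff] <;> tauto

theorem isHex_hex {a b c d e f : V} (h : [a, b, c, d, e, f].Nodup) : IsHex (hex a b c d e f) :=
  ⟨a, b, c, d, e, f, h, rfl⟩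

theorem IsHex.card {S : Finset (Sym2 V)} (h : IsHex S) : S.card = 6 := by
  obtain ⟨a, b, c, d, e, f, hn, rfl⟩ := h
  exact card_hex hn

theorem IsHex.loopless {S : Finset (Sym2 V)} (h : IsHex S) : Loopless S := by
  obtain ⟨a, b, c, d, e, f, hn, rfl⟩ := h
  exact loopless_hex hn

theorem IsHex.nonempty {S : Finset (Sym2 V)} (h : IsHex S) : S.Nonempty := by
  rw [← Finset.card_pos, h.card]; norm_num

theorem IsHex.dec {S : Finset (Sym2 V)} (h : IsHex S) : Dec S := by
  have := Dec.cons h Dec.empty (disjoint_empty_right S)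
  simpa using this

theorem dec_hex {a b c d e f : V} (h : [a, b, c, d, e, f].Nodup) : Dec (hex a b c d e f) :=
  (isHex_hex h).dec

theorem Loopless.mono {A B : Finset (Sym2 V)} (h : Loopless B) (hAB : A ⊆ B) : Loopless A :=
  fun e he => h e (hAB he)

theorem Loopless.union {A B : Finset (Sym2 V)} (hA : Loopless A) (hB : Loopless B) :
    Loopless (A ∪ B) := by
  intro e he
  rcases mem_union.1 he with h | h
  · exact hA e h
  · exact hB e h

theorem Loopless.ne {A : Finset (Sym2 V)} (h : Loopless A) {u v : V} (huv : s(u, v) ∈ A) :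
    u ≠ v := by
  intro e
  exact h _ huv (by simp [e])

theorem Dec.loopless {E : Finset (Sym2 V)} (h : Dec E) : Loopless E := by
  induction h with
  | empty => intro e he; simp at he
  | cons hS _ _ ih => exact hS.loopless.union ih

theorem Dec.six {E : Finset (Sym2 V)} (h : Dec E) : 6 ∣ E.card := by
  induction h with
  | empty => simp
  | cons hS _ hd ih =>
    rw [card_union_of_disjoint hd, hS.card]
    exact Dvd.dvd.add (dvd_refl 6) ih

theorem Dec.union {A B : Finset (Sym2 V)} (hA : Dec A) (hB : Dec B) (hd : Disjoint A B) :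
    Dec (A ∪ B) := by
  induction hA with
  | empty => simpa using hB
  | cons hS _ hd' ih =>
    rw [union_assoc]
    rw [disjoint_union_left] at hd
    exact Dec.cons hS (ih hd.2) (disjoint_union_right.2 ⟨hd', hd.1⟩)

theorem Dec.biUnion {ι : Type} [DecidableEq ι] (J : Finset ι) (T : ι → Finset (Sym2 V))
    (h : ∀ j ∈ J, Dec (T j)) (hd : ∀ i ∈ J, ∀ j ∈ J, i ≠ j → Disjoint (T i) (T j)) :
    Dec (J.biUnion T) := by
  induction J using Finset.induction_on with
  | empty => simpa using Dec.empty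
  | insert j J hj ih =>
    rw [biUnion_insert]
    refine (h j (mem_insert_self _ _)).union (ih (fun i hi => h i (mem_insert_of_mem hi))
      fun i hi k hk hik => hd i (mem_insert_of_mem hi) k (mem_insert_of_mem hk) hik) ?_
    rw [disjoint_biUnion_right]
    intro i hi
    exact hd j (mem_insert_self _ _) i (mem_insert_of_mem hi) fun e => hj (e ▸ hi)

/-- decompositions as families of hexagons -/
theorem dec_iff {E : Finset (Sym2 V)} : Dec E ↔ ∃ P : Finset (Finset (Sym2 V)),
    (∀ S ∈ P, IsHex S) ∧ (∀ S ∈ P, ∀ T ∈ P, S ≠ T → Disjoint S T) ∧ P.biUnion id = E := by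
  constructor
  · intro h
    induction h with
    | empty => exact ⟨∅, by simp, by simp, by simp⟩
    | @cons S E hS _ hd ih =>
      obtain ⟨P, h1, h2, h3⟩ := ih
      refine ⟨insert S P, ?_, ?_, ?_⟩
      · intro T hT
        rcases mem_insert.1 hT with rfl | hT
        · exact hS
        · exact h1 T hT
      · intro T hT T' hT' hne
        have key : ∀ T ∈ P, Disjoint S T := fun T hT => hd.mono_right (by
          rw [← h3]; exact subset_biUnion_of_mem id hT)
        rcases mem_insert.1 hT with e | hT <;> rcases mem_insert.1 hT' with e' | hT'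
        · exact absurd (e.trans e'.symm) hne
        · rw [e]; exact key T' hT'
        · rw [e']; exact (key T hT).symm
        · exact h2 T hT T' hT' hne
      · rw [biUnion_insert, h3]; rfl
  · rintro ⟨P, h1, h2, rfl⟩
    exact Dec.biUnion P id (fun S hS => (h1 S hS).dec) h2

variable [Fintype V]

@[simp] theorem mem_nb {E : Finset (Sym2 V)} {v u : V} : u ∈ nb E v ↔ s(v, u) ∈ E := by
  simp [nb]

theorem mem_nb' {E : Finset (Sym2 V)} {v u : V} : u ∈ nb E v ↔ v ∈ nb E u := by
  rw [mem_nb, mem_nb, Sym2.eq_swap]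

theorem nb_mono {A B : Finset (Sym2 V)} (h : A ⊆ B) (v : V) : nb A v ⊆ nb B v := by
  intro u hu
  rw [mem_nb] at *
  exact h hu

theorem dg_mono {A B : Finset (Sym2 V)} (h : A ⊆ B) (v : V) : dg A v ≤ dg B v :=
  card_le_card (nb_mono h v)

@[simp] theorem nb_empty (v : V) : nb (∅ : Finset (Sym2 V)) v = ∅ := by
  ext u; simp

@[simp] theorem dg_empty (v : V) : dg (∅ : Finset (Sym2 V)) v = 0 := by
  simp [dg]

theorem nb_union (A B : Finset (Sym2 V)) (v : V) : nb (A ∪ B) v = nb A v ∪ nb B v := by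
  ext u; simp

theorem nb_inter (A B : Finset (Sym2 V)) (v : V) : nb (A ∩ B) v = nb A v ∩ nb B v := by
  ext u; simp

theorem nb_sdiff (A B : Finset (Sym2 V)) (v : V) : nb (A \ B) v = nb A v \ nb B v := by
  ext u; simp

theorem disjoint_nb {A B : Finset (Sym2 V)} (h : Disjoint A B) (v : V) :
    Disjoint (nb A v) (nb B v) := by
  rw [disjoint_left] at *
  intro u hu hu'
  rw [mem_nb] at *
  exact h hu hu'

theorem dg_union {A B : Finset (Sym2 V)} (h : Disjoint A B) (v : V) :
    dg (A ∪ B) v = dg A v + dg B v := by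
  unfold dg
  rw [nb_union, card_union_of_disjoint (disjoint_nb h v)]

theorem dg_union_le (A B : Finset (Sym2 V)) (v : V) : dg (A ∪ B) v ≤ dg A v + dg B v := by
  unfold dg
  rw [nb_union]
  exact card_union_le _ _

theorem dg_sdiff_add {A B : Finset (Sym2 V)} (h : A ⊆ B) (v : V) :
    dg (B \ A) v + dg A v = dg B v := by
  rw [← dg_union sdiff_disjoint, sdiff_union_of_subset h]

theorem dg_sdiff_add_inter (B A : Finset (Sym2 V)) (v : V) :
    dg (B \ A) v + dg (B ∩ A) v = dg B v := by
  rw [← dg_union (disjoint_sdiff_inter B A), sdiff_union_inter]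

theorem dg_le_card (E : Finset (Sym2 V)) (v : V) : dg E v ≤ Fintype.card V := by
  unfold dg
  exact card_le_univ _

theorem dg_lt_card {E : Finset (Sym2 V)} (h : Loopless E) (v : V) : dg E v < Fintype.card V := by
  unfold dg
  apply card_lt_univ_of_notMem (x := v)
  rw [mem_nb]
  intro hv
  exact h.ne hv rfl

theorem dg_biUnion {ι : Type} [DecidableEq ι] (J : Finset ι) (T : ι → Finset (Sym2 V))
    (hd : ∀ i ∈ J, ∀ j ∈ J, i ≠ j → Disjoint (T i) (T j)) (v : V) :
    dg (J.biUnion T) v = ∑ j ∈ J, dg (T j) v := by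
  induction J using Finset.induction_on with
  | empty => simp
  | insert j J hj ih =>
    rw [biUnion_insert, sum_insert hj, ← ih fun i hi k hk hik =>
      hd i (mem_insert_of_mem hi) k (mem_insert_of_mem hk) hik]
    refine dg_union ?_ v
    rw [disjoint_biUnion_right]
    intro i hi
    exact hd j (mem_insert_self _ _) i (mem_insert_of_mem hi) fun e => hj (e ▸ hi)

theorem nb_hex_a {a b c d e f : V} (h : [a, b, c, d, e, f].Nodup) :
    nb (hex a b c d e f) a = {b, f} := by
  simp only [List.nodup_cons, List.mem_cons, List.not_mem_nil, or_false, not_or, not_false_iff,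
    List.nodup_nil, and_true] at h
  obtain ⟨⟨h1, h2, h3, h4, h5⟩, ⟨h6, h7, h8, h9⟩, ⟨h10, h11, h12⟩, ⟨h13, h14⟩, h15⟩ := h
  ext u
  simp only [mem_nb, mem_hex, Sym2.eq_iff, mem_insert, mem_singleton, h1, h2, h3, h4, h5,
    false_and, true_and, or_false, false_or]

theorem hex_rot (a b c d e f : V) : hex a b c d e f = hex b c d e f a := by
  ext x
  simp only [mem_hex]
  tauto

theorem hex_rev (a b c d e f : V) : hex a b c d e f = hex f e d c b a := by
  ext x
  simp only [mem_hex]
  rw [Sym2.eq_swap (a := a) (b := b), Sym2.eq_swap (a := b) (b := c), Sym2.eq_swap (a := c) (b := d),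
    Sym2.eq_swap (a := d) (b := e), Sym2.eq_swap (a := e) (b := f), Sym2.eq_swap (a := f) (b := a)]
  tauto

theorem nodup_rot {a b c d e f : V} (h : [a, b, c, d, e, f].Nodup) :
    [b, c, d, e, f, a].Nodup := by
  simp only [List.nodup_cons, List.mem_cons, List.not_mem_nil, or_false, not_or, not_false_iff,
    List.nodup_nil, and_true] at h ⊢
  obtain ⟨⟨h1, h2, h3, h4, h5⟩, ⟨h6, h7, h8, h9⟩, ⟨h10, h11, h12⟩, ⟨h13, h14⟩, h15⟩ := h
  simp only [h6, h7, h8, h9, h10, h11, h12, h13, h14, h15, Ne.symm h1, Ne.symm h2, Ne.symm h3,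
    Ne.symm h4, Ne.symm h5, not_false_iff, and_true]

theorem dg_hex_of_mem {a b c d e f : V} (h : [a, b, c, d, e, f].Nodup) {v : V}
    (hv : v ∈ ({a, b, c, d, e, f} : Finset V)) : dg (hex a b c d e f) v = 2 := by
  have key : ∀ {a b c d e f : V}, [a, b, c, d, e, f].Nodup → dg (hex a b c d e f) a = 2 := by
    intro a b c d e f h
    unfold dg
    rw [nb_hex_a h]
    simp only [List.nodup_cons, List.mem_cons, List.not_mem_nil, or_false, not_or, not_false_iff,
      List.nodup_nil, and_true] at h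
    exact card_pair h.2.1.2.2.2
  simp only [mem_insert, mem_singleton] at hv
  rcases hv with rfl | rfl | rfl | rfl | rfl | rfl
  · exact key h
  · rw [hex_rot]; exact key (nodup_rot h)
  · rw [hex_rot, hex_rot]; exact key (nodup_rot (nodup_rot h))
  · rw [hex_rot, hex_rot, hex_rot]; exact key (nodup_rot (nodup_rot (nodup_rot h)))
  · rw [hex_rot, hex_rot, hex_rot, hex_rot]
    exact key (nodup_rot (nodup_rot (nodup_rot (nodup_rot h))))
  · rw [hex_rot, hex_rot, hex_rot, hex_rot, hex_rot]
    exact key (nodup_rot (nodup_rot (nodup_rot (nodup_rot (nodup_rot h)))))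

theorem dg_hex_of_notMem {a b c d e f : V} {v : V}
    (hv : v ∉ ({a, b, c, d, e, f} : Finset V)) : dg (hex a b c d e f) v = 0 := by
  simp only [mem_insert, mem_singleton, not_or] at hv
  obtain ⟨h1, h2, h3, h4, h5, h6⟩ := hv
  unfold dg
  rw [card_eq_zero]
  ext u
  simp only [mem_nb, mem_hex, Sym2.eq_iff, notMem_empty, iff_false]
  tauto

theorem IsHex.dg_le {S : Finset (Sym2 V)} (h : IsHex S) (v : V) : dg S v ≤ 2 := by
  obtain ⟨a, b, c, d, e, f, hn, rfl⟩ := h
  by_cases hv : v ∈ ({a, b, c, d, e, f} : Finset V)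
  · rw [dg_hex_of_mem hn hv]
  · rw [dg_hex_of_notMem hv]; norm_num

theorem IsHex.even {S : Finset (Sym2 V)} (h : IsHex S) (v : V) : Even (dg S v) := by
  obtain ⟨a, b, c, d, e, f, hn, rfl⟩ := h
  by_cases hv : v ∈ ({a, b, c, d, e, f} : Finset V)
  · rw [dg_hex_of_mem hn hv]; norm_num
  · rw [dg_hex_of_notMem hv]; norm_num

theorem Dec.even {E : Finset (Sym2 V)} (h : Dec E) (v : V) : Even (dg E v) := by
  induction h with
  | empty => simp
  | cons hS _ hd ih =>
    rw [dg_union hd]
    exact (hS.even v).add ih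

theorem Dec.div6 {E : Finset (Sym2 V)} (h : Dec E) : Div6 E :=
  ⟨h.loopless, h.even, h.six⟩

theorem Div6.sdiff {E D : Finset (Sym2 V)} (h : Div6 E) (hD : Div6 D) (hDE : D ⊆ E) :
    Div6 (E \ D) := by
  refine ⟨h.loopless.mono sdiff_subset, fun v => ?_, ?_⟩
  · have h1 := dg_sdiff_add hDE v
    have h2 := h.even v
    rw [← h1] at h2
    exact (Nat.even_add.1 h2).2 (hD.even v)
  · rw [card_sdiff_of_subset hDE]
    exact (Nat.dvd_sub h.six hD.six)

theorem Div6.union {E D : Finset (Sym2 V)} (h : Div6 E) (hD : Div6 D) (hd : Disjoint E D) :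
    Div6 (E ∪ D) := by
  refine ⟨h.loopless.union hD.loopless, fun v => ?_, ?_⟩
  · rw [dg_union hd]
    exact (h.even v).add (hD.even v)
  · rw [card_union_of_disjoint hd]
    exact Dvd.dvd.add h.six hD.six

/-- handshake lemma -/
theorem sum_dg {E : Finset (Sym2 V)} (h : Loopless E) : ∑ v, dg E v = 2 * E.card := by
  have h1 : ∑ v, dg E v = ((univ ×ˢ univ : Finset (V × V)).filter fun p => s(p.1, p.2) ∈ E).card := by
    rw [card_filter, sum_product]
    refine sum_congr rfl fun v _ => ?_
    unfold dg nb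
    rw [card_filter]
  have h2 : ((univ ×ˢ univ : Finset (V × V)).filter fun p => s(p.1, p.2) ∈ E).card =
      ∑ e ∈ E, (((univ ×ˢ univ : Finset (V × V)).filter fun p => s(p.1, p.2) ∈ E).filter
        fun p => s(p.1, p.2) = e).card :=
    card_eq_sum_card_fiberwise fun p hp => by
      simp only [coe_filter, Set.mem_ofPred_eq] at hp
      exact hp.2
  rw [h1, h2, mul_comm, ← smul_eq_mul, ← sum_const]
  refine sum_congr rfl fun e he => ?_
  induction e using Sym2.ind with
  | _ x y =>
    have hxy : x ≠ y := h.ne he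
    have : ((univ ×ˢ univ : Finset (V × V)).filter fun p => s(p.1, p.2) ∈ E).filter
        (fun p => s(p.1, p.2) = s(x, y)) = {(x, y), (y, x)} := by
      ext ⟨p, q⟩
      simp only [mem_filter, mem_product, mem_univ, true_and, Sym2.eq_iff, mem_insert,
        mem_singleton, Prod.mk.injEq, and_true, and_iff_right_iff_imp]
      rintro (⟨rfl, rfl⟩ | ⟨rfl, rfl⟩)
      · exact he
      · rw [Sym2.eq_swap]; exact he
    rw [this, card_pair]
    simp [hxy]

theorem sum_dg_le {E : Finset (Sym2 V)} (h : Loopless E) (S : Finset V) :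
    ∑ v ∈ S, dg E v ≤ 2 * E.card := by
  rw [← sum_dg h]
  exact sum_le_sum_of_subset (subset_univ _)

theorem sum_dg_of_subset {E : Finset (Sym2 V)} (h : Loopless E) {S : Finset V} (hS : E ⊆ S.sym2) :
    ∑ v ∈ S, dg E v = 2 * E.card := by
  rw [← sum_dg h]
  refine sum_subset (subset_univ _) fun v _ hv => ?_
  unfold dg
  rw [card_eq_zero]
  ext u
  simp only [mem_nb, notMem_empty, iff_false]
  intro hu
  exact hv (mk_mem_sym2_iff.1 (hS hu)).1

theorem nb_subset_of_subset {E : Finset (Sym2 V)} {S : Finset V} (hS : E ⊆ S.sym2) (v : V) :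
    nb E v ⊆ S := by
  intro u hu
  rw [mem_nb] at hu
  exact (mk_mem_sym2_iff.1 (hS hu)).2

theorem dg_eq_zero_of_notMem {E : Finset (Sym2 V)} {S : Finset V} (hS : E ⊆ S.sym2) {v : V}
    (hv : v ∉ S) : dg E v = 0 := by
  unfold dg
  rw [card_eq_zero]
  ext u
  simp only [mem_nb, notMem_empty, iff_false]
  intro hu
  exact hv (mk_mem_sym2_iff.1 (hS hu)).1

end A

end Pool.Agent.H483C6
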