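import Pool.Agent.H483C6.Stmts2

/-!
# Interface statements for the larger cases (MP_1bffa4_co, helper483)
-/

set_option autoImplicit false

namespace Pool.Agent.H483C6

open Finset

/-- `S_nearK` inside a vertex set `X`. -/
def S_nearKsub : Prop :=
  ∃ n0 : ℕ, ∀ (V : Type) [Fintype V] [DecidableEq V] (E : Finset (Sym2 V)) (X : Finset V),
    n0 ≤ X.card → E ⊆ X.sym2 → (∀ v ∈ X, 1 / 10 * (X.card : ℝ) ≤ (dg E v : ℝ)) →
    ((X.filter fun v => (dg E v : ℝ) < (1 - 1 / 1000) * (X.card : ℝ)).card : ℝ) ≤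
      1 / 1000 * (X.card : ℝ) → Div6 E → Dec E

/-- Structure of the neighbourhood of a vertex that is not good (`κ = γ^4/10^4`,
`b = γ^2/100`, `ρ1 = γ^4/10^5`). -/
def S_split : Prop :=
  ∀ γ : ℝ, 0 < γ → ∃ n0 : ℕ, ∀ (V : Type) [Fintype V] [DecidableEq V] (E : Finset (Sym2 V)),
    Loopless E → n0 ≤ Fintype.card V → Q3 E γ → (∀ v, Fintype.card V ≤ 2 * dg E v + 1) →
    ∀ z : V, ¬ GoodV E (γ ^ 4 / 10 ^ 4) (γ ^ 4 / 10 ^ 5) z →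
    ∃ R' C0 C1 T0 : Finset V,
      (R'.card : ℝ) ≤ γ ^ 4 / 10 ^ 5 * (Fintype.card V : ℝ) ∧
      C0 ∪ C1 = Bn E (γ ^ 4 / 10 ^ 4) z \ R' ∧ Disjoint C0 C1 ∧ C1.Nonempty ∧
      (∀ u ∈ C0, ∀ v ∈ C1, s(u, v) ∉ E) ∧
      (∀ w ∈ C0, γ / 2 * (Fintype.card V : ℝ) ≤ ((nb E w ∩ C0).card : ℝ)) ∧
      (∀ w ∈ C1, γ / 2 * (Fintype.card V : ℝ) ≤ ((nb E w ∩ C1).card : ℝ)) ∧
      (∀ u ∈ C1, (((C1 ∪ On E (γ ^ 4 / 10 ^ 4) z) \ nb E u).card : ℝ) ≤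
        3 * (γ ^ 2 / 100) * (Fintype.card V : ℝ)) ∧
      (1 / 2 - γ ^ 2 / 100) * (Fintype.card V : ℝ) ≤
        ((C1 ∪ On E (γ ^ 4 / 10 ^ 4) z).card : ℝ) ∧
      ((C1 ∪ On E (γ ^ 4 / 10 ^ 4) z).card : ℝ) ≤
        (1 / 2 + 2 * (γ ^ 2 / 100)) * (Fintype.card V : ℝ) ∧
      T0 ⊆ nb E z ∩ C0 ∧ γ / 2 * (Fintype.card V : ℝ) ≤ (T0.card : ℝ) ∧
      (∀ a ∈ T0, ((C0 \ nb E a).card : ℝ) ≤ 3 * (γ ^ 2 / 100) * (Fintype.card V : ℝ)) ∧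
      (∀ u ∈ C1, GoodV E (γ ^ 4 / 10 ^ 4) (γ ^ 4 / 10 ^ 5) u) ∧
      ∀ a ∈ T0, GoodV E (γ ^ 4 / 10 ^ 4) (γ ^ 4 / 10 ^ 5) a

/-! ## Case II -/

/-- the situation after repartitioning: `E` is close to two disjoint cliques on `A`, `Aᶜ` -/
structure SetII {V : Type} [Fintype V] [DecidableEq V] (E : Finset (Sym2 V)) (A : Finset V)
    (ε : ℝ) : Prop where
  div : Div6 E
  deg : ∀ v, Fintype.card V ≤ 2 * dg E v + 1
  le : A.card ≤ (Aᶜ).card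
  low : (1 / 2 - ε) * (Fintype.card V : ℝ) ≤ (A.card : ℝ)
  few : ((cross E A).card : ℝ) ≤ ε * (Fintype.card V : ℝ) ^ 2
  own : ∀ v, 1 / 5 * (Fintype.card V : ℝ) ≤ (dg (E \ cross E A) v : ℝ)
  own' : ∀ v, (dg (cross E A) v : ℝ) ≤ (dg (E \ cross E A) v : ℝ) + ε * (Fintype.card V : ℝ)

/-- flexible pair of crossing edges `a b`, `a' b'` -/
structure Flex {V : Type} [Fintype V] [DecidableEq V] (E : Finset (Sym2 V)) (A : Finset V)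
    (a b a' b' : V) : Prop where
  ha : a ∈ A
  ha' : a' ∈ A
  hb : b ∉ A
  hb' : b' ∉ A
  hab : s(a, b) ∈ E
  hab' : s(a', b') ∈ E
  haa : s(a, a') ∈ E
  hbb : b ≠ b'
  coda : 1 / 50 * (Fintype.card V : ℝ) ≤ ((nb E a ∩ nb E a' ∩ A).card : ℝ)
  codb : 1 / 50 * (Fintype.card V : ℝ) ≤ ((nb E b ∩ nb E b' ∩ Aᶜ).card : ℝ)

/-- five flexible pairs with ten different crossing edges -/
def FiveFlex {V : Type} [Fintype V] [DecidableEq V] (E : Finset (Sym2 V)) (A : Finset V) :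
    Prop :=
  ∃ a b a' b' : Fin 5 → V, (∀ j, Flex E A (a j) (b j) (a' j) (b' j)) ∧
    (Function.Injective fun j => s(a j, b j)) ∧ (Function.Injective fun j => s(a' j, b' j)) ∧
    (∀ i j, s(a i, b i) ≠ s(a' j, b' j)) ∧ Function.Injective fun j => s(a j, a' j)

/-- the tight situation -/
def TightP {V : Type} [Fintype V] [DecidableEq V] (E : Finset (Sym2 V)) (A : Finset V) : Prop :=
  ∃ z, z ∉ A ∧ 2 * A.card + 1 = Fintype.card V ∧ ((cross E A).filter fun e => z ∉ e).card ≤ 4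

/-- 15.0 -/
def S_II0 : Prop :=
  ∀ ε1 : ℝ, 0 < ε1 → ∃ ε : ℝ, 0 < ε ∧ ∃ n0 : ℕ,
    ∀ (V : Type) [Fintype V] [DecidableEq V] (E : Finset (Sym2 V)) (A : Finset V),
      n0 ≤ Fintype.card V → (∀ v, Fintype.card V ≤ 2 * dg E v + 1) → Div6 E →
      (1 / 2 - ε) * (Fintype.card V : ℝ) ≤ (A.card : ℝ) →
      (1 / 2 - ε) * (Fintype.card V : ℝ) ≤ (Aᶜ.card : ℝ) →
      ((cross E A).card : ℝ) ≤ ε * (Fintype.card V : ℝ) ^ 2 →
      ∃ A' : Finset V, SetII E A' ε1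

/-- 15.1 and 15.2 -/
def S_II2 : Prop :=
  ∃ ε : ℝ, 0 < ε ∧ ∃ n0 : ℕ, ∀ (V : Type) [Fintype V] [DecidableEq V] (E : Finset (Sym2 V))
    (A : Finset V), n0 ≤ Fintype.card V → SetII E A ε → FiveFlex E A ∨ TightP E A

/-- 15.3 -/
def S_II3 : Prop :=
  ∃ ε : ℝ, 0 < ε ∧ ∃ n0 : ℕ, ∀ (V : Type) [Fintype V] [DecidableEq V] (E : Finset (Sym2 V))
    (A : Finset V), n0 ≤ Fintype.card V → SetII E A ε → FiveFlex E A → Dec E

/-- 15.4 -/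
def S_tight : Prop :=
  ∃ n0 : ℕ, ∀ (V : Type) [Fintype V] [DecidableEq V] (E : Finset (Sym2 V)) (A : Finset V),
    n0 ≤ Fintype.card V → Div6 E → (∀ v, Fintype.card V ≤ 2 * dg E v + 1) → TightP E A →
    Dec E ∨ TwoCliques E

/-! ## Lower bounds and the final statement -/

/-- the least possible threshold -/
def fval (n : ℕ) : ℕ :=
  if n % 4 = 0 then n / 2 - 1
  else if n % 4 = 2 ∨ n % 4 = 3 then 2 * (n / 4) + 1
  else if n % 24 = 5 ∨ n % 24 = 13 then 2 * (n / 4) + 1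
  else 2 * (n / 4) - 1

/-- Lower bound: `C₆`-divisible graphs without a decomposition. -/
def S_lower : Prop :=
  ∃ n0 : ℕ, ∀ n : ℕ, n0 ≤ n → ∃ E : Finset (Sym2 (Fin n)), Div6 E ∧ ¬ Dec E ∧
    ∀ v, fval n ≤ dg E v + 1

end Pool.Agent.H483C6
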