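import Pool.Agent.H483C6.Paths
import Pool.Agent.H483C6.Stmts3

/-!
# Case III, part a: crossing edges, families of disjoint sets (helper930)
-/

set_option autoImplicit false
set_option linter.unusedSectionVars false

namespace Pool.Agent.H483C6

open Finset

namespace CIII

section fam

variable {α : Type} [DecidableEq α]

/-- a maximal family of disjoint subsets of `L` with the property `Q` -/
theorem maxfam (L : Finset α) (Q : Finset α → Prop) (hQ : ∀ S, Q S → S.Nonempty) :
    ∃ P : Finset (Finset α), (∀ S ∈ P, Q S ∧ S ⊆ L) ∧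
      (∀ S ∈ P, ∀ T ∈ P, S ≠ T → Disjoint S T) ∧ ∀ S, Q S → ¬ S ⊆ L \ P.biUnion id := by
  classical
  let Ω : Finset (Finset (Finset α)) := (L.powerset.powerset).filter fun P =>
    (∀ S ∈ P, Q S) ∧ ∀ S ∈ P, ∀ T ∈ P, S ≠ T → Disjoint S T
  have hΩ : ∀ P, P ∈ Ω ↔ (∀ S ∈ P, S ⊆ L) ∧ (∀ S ∈ P, Q S) ∧
      ∀ S ∈ P, ∀ T ∈ P, S ≠ T → Disjoint S T := by
    intro P
    simp only [Ω, mem_filter, mem_powerset]
    constructor
    · rintro ⟨h1, h2⟩
      exact ⟨fun S hS => mem_powerset.1 (h1 hS), h2⟩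
    · rintro ⟨h1, h2⟩
      exact ⟨fun S hS => mem_powerset.2 (h1 S hS), h2⟩
  obtain ⟨P, hP, hmax⟩ := exists_max_image Ω card ⟨∅, (hΩ ∅).2 (by simp)⟩
  obtain ⟨h1, h2, h3⟩ := (hΩ P).1 hP
  refine ⟨P, fun S hS => ⟨h2 S hS, h1 S hS⟩, h3, ?_⟩
  intro S hS hSL
  have hd : ∀ T ∈ P, Disjoint S T := by
    intro T hT
    rw [disjoint_left]
    intro x hx hxT
    exact (mem_sdiff.1 (hSL hx)).2 (mem_biUnion.2 ⟨T, hT, hxT⟩)
  have hnot : S ∉ P := by
    intro h
    have := hd S h
    rw [disjoint_self_iff_empty] at this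
    exact (hQ S hS).ne_empty this
  have hin : insert S P ∈ Ω := by
    rw [hΩ]
    refine ⟨?_, ?_, ?_⟩
    · intro T hT
      rcases mem_insert.1 hT with rfl | hT
      · exact hSL.trans sdiff_subset
      · exact h1 T hT
    · intro T hT
      rcases mem_insert.1 hT with rfl | hT
      · exact hS
      · exact h2 T hT
    · intro T hT T' hT' hne
      rcases mem_insert.1 hT with e | hT <;> rcases mem_insert.1 hT' with e' | hT'
      · exact absurd (e.trans e'.symm) hne
      · rw [e]; exact hd T' hT'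
      · rw [e']; exact (hd T hT).symm
      · exact h3 T hT T' hT' hne
  have := hmax _ hin
  rw [card_insert_of_notMem hnot] at this
  omega

/-- disjoint family of subsets of `L` -/
structure Fam (L : Finset α) (P : Finset (Finset α)) : Prop where
  sub : ∀ S ∈ P, S ⊆ L
  disj : ∀ S ∈ P, ∀ T ∈ P, S ≠ T → Disjoint S T

theorem Fam.bsub {L : Finset α} {P : Finset (Finset α)} (h : Fam L P) : P.biUnion id ⊆ L := by
  rw [biUnion_subset]
  exact h.sub

theorem Fam.union {L : Finset α} {P P' : Finset (Finset α)} (h : Fam L P)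
    (h' : Fam (L \ P.biUnion id) P') : Fam L (P ∪ P') := by
  have key : ∀ S ∈ P, ∀ T ∈ P', Disjoint S T := by
    intro S hS T hT
    rw [disjoint_left]
    intro x hx hxT
    exact (mem_sdiff.1 (h'.sub T hT hxT)).2 (mem_biUnion.2 ⟨S, hS, hx⟩)
  refine ⟨?_, ?_⟩
  · intro S hS
    rcases mem_union.1 hS with hS | hS
    · exact h.sub S hS
    · exact (h'.sub S hS).trans sdiff_subset
  · intro S hS T hT hne
    rcases mem_union.1 hS with hS | hS <;> rcases mem_union.1 hT with hT | hT
    · exact h.disj S hS T hT hne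
    · exact key S hS T hT
    · exact (key T hT S hS).symm
    · exact h'.disj S hS T hT hne

theorem sdiff_union_fam {L : Finset α} {P P' : Finset (Finset α)} :
    (L \ P.biUnion id) \ P'.biUnion id = L \ (P ∪ P').biUnion id := by
  rw [union_biUnion, sdiff_sdiff_left]
  rfl

theorem card_le_of_meets {P : Finset (Finset α)} {X : Finset α}
    (hd : ∀ S ∈ P, ∀ T ∈ P, S ≠ T → Disjoint S T) (h : ∀ S ∈ P, ∃ x ∈ S, x ∈ X) :
    P.card ≤ X.card := by
  classical
  rcases P.eq_empty_or_nonempty with rfl | ⟨S0, hS0⟩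
  · simp
  have : Nonempty α := ⟨(h S0 hS0).choose⟩
  choose! f hf1 hf2 using h
  refine card_le_card_of_injOn f (fun S hS => hf2 S hS) ?_
  intro S hS T hT hST
  by_contra hne
  have := hd S hS T hT hne
  rw [disjoint_left] at this
  exact this (hf1 S hS) (by
    have h3 := hf1 T hT
    rw [← hST] at h3
    exact h3)

end fam

variable {V : Type} [Fintype V] [DecidableEq V]

theorem mem_cross {E : Finset (Sym2 V)} {A : Finset V} {u v : V} :
    s(u, v) ∈ cross E A ↔ s(u, v) ∈ E ∧ (u ∈ A ↔ v ∉ A) := by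
  unfold cross
  rw [mem_filter, mk_mem_sym2_iff, mk_mem_sym2_iff, mem_compl, mem_compl]
  tauto

/-- all edges of `C` are between `A` and its complement -/
def Bip (C : Finset (Sym2 V)) (A : Finset V) : Prop := ∀ u v, s(u, v) ∈ C → (u ∈ A ↔ v ∉ A)

theorem bip_cross (E : Finset (Sym2 V)) (A : Finset V) : Bip (cross E A) A :=
  fun _ _ h => (mem_cross.1 h).2

theorem Bip.mono {C C' : Finset (Sym2 V)} {A : Finset V} (h : Bip C A) (hC : C' ⊆ C) :
    Bip C' A := fun u v huv => h u v (hC huv)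

theorem Bip.symm {C : Finset (Sym2 V)} {A : Finset V} (h : Bip C A) : Bip C Aᶜ := by
  intro u v huv
  have := h u v huv
  rw [mem_compl, mem_compl]
  tauto

theorem Bip.nb_sub {C : Finset (Sym2 V)} {A : Finset V} (h : Bip C A) {v : V} (hv : v ∈ A) :
    nb C v ⊆ Aᶜ := by
  intro u hu
  rw [mem_nb] at hu
  rw [mem_compl]
  exact (h v u hu).1 hv

theorem Bip.nb_sub' {C : Finset (Sym2 V)} {A : Finset V} (h : Bip C A) {v : V} (hv : v ∉ A) :
    nb C v ⊆ A := by
  intro u hu
  rw [mem_nb] at hu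
  by_contra hu'
  exact hv ((h v u hu).2 hu')

theorem Bip.loopless {C : Finset (Sym2 V)} {A : Finset V} (h : Bip C A) : Loopless C := by
  intro e he
  induction e using Sym2.ind with
  | _ x y =>
    rw [Sym2.mk_isDiag_iff]
    rintro rfl
    have := h x x he
    tauto

theorem Bip.sum {C : Finset (Sym2 V)} {A : Finset V} (h : Bip C A) :
    ∑ v ∈ A, dg C v = C.card := by
  have h1 : ∑ v ∈ A, dg C v = ((A ×ˢ univ : Finset (V × V)).filter fun p => s(p.1, p.2) ∈ C).card := by
    rw [card_filter, sum_product]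
    refine sum_congr rfl fun v _ => ?_
    unfold dg nb
    rw [card_filter]
  rw [h1]
  refine card_bij (fun p _ => s(p.1, p.2)) ?_ ?_ ?_
  · intro p hp
    exact (mem_filter.1 hp).2
  · intro p hp q hq hpq
    rw [mem_filter, mem_product] at hp hq
    have h2 := h _ _ hp.2
    have h3 := h _ _ hq.2
    rw [Sym2.eq_iff] at hpq
    rcases hpq with ⟨e1, e2⟩ | ⟨e1, e2⟩
    · exact Prod.ext e1 e2
    · exfalso
      rw [e1] at h2 hp
      tauto
  · intro e he
    induction e using Sym2.ind with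
    | _ x y =>
      by_cases hx : x ∈ A
      · exact ⟨(x, y), by simp [hx, he], rfl⟩
      · have hy : y ∈ A := by
          have := h x y he
          tauto
        exact ⟨(y, x), by rw [mem_filter, mem_product]; exact ⟨⟨hy, mem_univ _⟩, by
          rw [Sym2.eq_swap]; exact he⟩, Sym2.eq_swap⟩

theorem few {C : Finset (Sym2 V)} {A : Finset V} (h : Bip C A) {t : ℝ} :
    ((A.filter fun v => (dg C v : ℝ) < (Aᶜ.card : ℝ) - t).card : ℝ) * t ≤
      (A.card : ℝ) * (Aᶜ.card : ℝ) - (C.card : ℝ) := by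
  have h1 : ∑ v ∈ A, ((Aᶜ.card : ℝ) - (dg C v : ℝ)) =
      (A.card : ℝ) * (Aᶜ.card : ℝ) - (C.card : ℝ) := by
    rw [sum_sub_distrib, sum_const, nsmul_eq_mul, ← h.sum]
    push_cast
    ring
  have h2 : ∀ v ∈ A, 0 ≤ (Aᶜ.card : ℝ) - (dg C v : ℝ) := by
    intro v hv
    have : dg C v ≤ Aᶜ.card := card_le_card (h.nb_sub hv)
    have : (dg C v : ℝ) ≤ (Aᶜ.card : ℝ) := by exact_mod_cast this
    linarith
  rw [← h1, ← nsmul_eq_mul, ← sum_const]
  set B := A.filter fun v => (dg C v : ℝ) < (Aᶜ.card : ℝ) - t with hB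
  calc ∑ _v ∈ B, t ≤ ∑ v ∈ B, ((Aᶜ.card : ℝ) - (dg C v : ℝ)) := by
        refine sum_le_sum fun v hv => ?_
        have := (mem_filter.1 hv).2
        linarith
    _ ≤ _ := sum_le_sum_of_subset_of_nonneg (filter_subset _ _) fun v hv _ => h2 v hv

theorem split (E : Finset (Sym2 V)) (A : Finset V) :
    E = cross E A ∪ (E ∩ A.sym2 ∪ E ∩ Aᶜ.sym2) := by
  ext e
  unfold cross
  simp only [mem_union, mem_filter, mem_inter]
  tauto

theorem disj_sym2 (A : Finset V) : Disjoint A.sym2 Aᶜ.sym2 := by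
  rw [disjoint_left]
  intro e he he'
  induction e using Sym2.ind with
  | _ x y =>
    rw [mk_mem_sym2_iff] at he he'
    exact (mem_compl.1 he'.1) he.1

theorem disj_cross (E E' : Finset (Sym2 V)) (A : Finset V) :
    Disjoint (cross E A) (E' ∩ A.sym2 ∪ E' ∩ Aᶜ.sym2) := by
  rw [disjoint_left]
  intro e he he'
  unfold cross at he
  simp only [mem_union, mem_filter, mem_inter] at he he'
  tauto

theorem cross_compl (E : Finset (Sym2 V)) (A : Finset V) : cross E Aᶜ = cross E A := by
  unfold cross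
  rw [compl_compl]
  refine filter_congr fun e _ => ?_
  tauto

/-- the number of crossing edges is even -/
theorem cross_even {E : Finset (Sym2 V)} (hE : Loopless E) (hev : ∀ v, Even (dg E v))
    (A : Finset V) : Even (cross E A).card := by
  have h1 : ∑ v ∈ A, dg E v = (cross E A).card + 2 * (E ∩ A.sym2).card := by
    rw [← (bip_cross E A).sum, ← sum_dg_of_subset (hE.mono inter_subset_left)
      (inter_subset_right : E ∩ A.sym2 ⊆ A.sym2), ← sum_add_distrib]
    refine sum_congr rfl fun v hv => ?_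
    conv_lhs => rw [split E A]
    rw [dg_union (disj_cross E E A), dg_union ((disj_sym2 A).mono inter_subset_right
      inter_subset_right)]
    have : dg (E ∩ Aᶜ.sym2) v = 0 := dg_eq_zero_of_notMem inter_subset_right (by simpa using hv)
    omega
  have h2 : Even (∑ v ∈ A, dg E v) := even_sum _ fun v _ => hev v
  rw [h1] at h2
  rw [Nat.even_add] at h2
  exact h2.2 (even_two_mul _)

end CIII

end Pool.Agent.H483C6
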