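import Pool.Agent.H483C6.CIIIa

/-!
# Case III, part b: decomposition of the inside edges into pairs (helper930)
-/

set_option autoImplicit false
set_option linter.unusedSectionVars false

namespace Pool.Agent.H483C6

open Finset

namespace CIII

variable {V : Type} [Fintype V] [DecidableEq V]

/-- two disjoint edges with good ends `g`, `g'` -/
def MPair (W X : Finset V) (S : Finset (Sym2 V)) : Prop :=
  ∃ p g p' g', [p, g, p', g'].Nodup ∧ p ∈ X ∧ g ∈ X ∧ p' ∈ X ∧ g' ∈ X ∧ g ∉ W ∧ g' ∉ W ∧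
    S = {s(p, g), s(p', g')}

/-- the pairs -/
def Good (W A : Finset V) (S : Finset (Sym2 V)) : Prop :=
  (VPair A S ∨ MPair W A S) ∨ (VPair Aᶜ S ∨ MPair W Aᶜ S)

theorem vpair_sub {X : Finset V} {S : Finset (Sym2 V)} (h : VPair X S) : S ⊆ X.sym2 := by
  obtain ⟨v, a, a', hv, ha, ha', _, _, _, rfl⟩ := h
  intro e he
  simp only [mem_insert, mem_singleton] at he
  rcases he with rfl | rfl
  · exact mk_mem_sym2_iff.2 ⟨hv, ha⟩
  · exact mk_mem_sym2_iff.2 ⟨hv, ha'⟩

theorem vpair_card {X : Finset V} {S : Finset (Sym2 V)} (h : VPair X S) : S.card = 2 := by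
  obtain ⟨v, a, a', hv, ha, ha', h1, h2, h3, rfl⟩ := h
  rw [card_pair]
  intro e
  rw [Sym2.eq_iff] at e
  rcases e with ⟨_, e⟩ | ⟨e, e'⟩
  · exact h1 e
  · exact h3 e.symm

theorem MPair.sub {W X : Finset V} {S : Finset (Sym2 V)} (h : MPair W X S) : S ⊆ X.sym2 := by
  obtain ⟨p, g, p', g', _, hp, hg, hp', hg', _, _, rfl⟩ := h
  intro e he
  simp only [mem_insert, mem_singleton] at he
  rcases he with rfl | rfl
  · exact mk_mem_sym2_iff.2 ⟨hp, hg⟩
  · exact mk_mem_sym2_iff.2 ⟨hp', hg'⟩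

theorem MPair.card {W X : Finset V} {S : Finset (Sym2 V)} (h : MPair W X S) : S.card = 2 := by
  obtain ⟨p, g, p', g', hn, hp, hg, hp', hg', _, _, rfl⟩ := h
  rw [card_pair]
  intro e
  rw [Sym2.eq_iff] at e
  simp only [List.nodup_cons, List.mem_cons, List.not_mem_nil, or_false, not_or] at hn
  tauto

theorem Good.card {W A : Finset V} {S : Finset (Sym2 V)} (h : Good W A S) : S.card = 2 := by
  rcases h with (h | h) | (h | h)
  · exact vpair_card h
  · exact h.card
  · exact vpair_card h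
  · exact h.card

theorem Good.sub {W A : Finset V} {S : Finset (Sym2 V)} (h : Good W A S) :
    S ⊆ A.sym2 ∨ S ⊆ Aᶜ.sym2 := by
  rcases h with (h | h) | (h | h)
  · exact Or.inl (vpair_sub h)
  · exact Or.inl h.sub
  · exact Or.inr (vpair_sub h)
  · exact Or.inr h.sub

theorem Good.symm {W A : Finset V} {S : Finset (Sym2 V)} (h : Good W A S) : Good W Aᶜ S := by
  unfold Good at *
  rw [compl_compl]
  exact h.symm

theorem Good.even {W A : Finset V} {S : Finset (Sym2 V)} (h : Good W A S) :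
    Even (S ∩ A.sym2).card := by
  rcases h.sub with h1 | h1
  · rw [inter_eq_left.2 h1, h.card]
    norm_num
  · have : S ∩ A.sym2 = ∅ := by
      rw [← disjoint_iff_inter_eq_empty]
      exact (disj_sym2 A).symm.mono_left h1
    rw [this]
    simp

/-- no common edge, at most one edge at each vertex of `H` -/
theorem two_nb {L : Finset (Sym2 V)} {v : V} (h : 2 ≤ dg L v) :
    ∃ a a', a ≠ a' ∧ s(v, a) ∈ L ∧ s(v, a') ∈ L := by
  unfold dg at h
  obtain ⟨a, ha, a', ha', hne⟩ := one_lt_card.1 h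
  exact ⟨a, a', hne, mem_nb.1 ha, mem_nb.1 ha'⟩

theorem pair_sub {α : Type} [DecidableEq α] {L : Finset α} {x y : α} (hx : x ∈ L) (hy : y ∈ L) :
    ({x, y} : Finset α) ⊆ L := by
  intro z hz
  simp only [mem_insert, mem_singleton] at hz
  rcases hz with rfl | rfl
  · exact hx
  · exact hy

/-- the load of a vertex in a disjoint family is at most its degree -/
theorem load_le_dg {L : Finset (Sym2 V)} {P : Finset (Finset (Sym2 V))} (h : Fam L P) (u : V) :
    (P.filter fun S => dg S u = 1).card ≤ dg L u := by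
  refine le_trans ?_ (dg_mono h.bsub u)
  have h1 := dg_biUnion P id (fun S hS T hT hne => h.disj S hS T hT hne) u
  rw [h1, card_filter]
  refine sum_le_sum fun S _ => ?_
  split_ifs with h2
  · exact h2.symm.le
  · exact Nat.zero_le _

/-- phase one: edges inside `W` are covered -/
theorem phase1 {I : Finset (Sym2 V)} {W : Finset V} (hI : Loopless I)
    (hW : ∀ v ∈ W, 2 * W.card ≤ dg I v) :
    ∃ P : Finset (Finset (Sym2 V)), Fam I P ∧
      (∀ S ∈ P, ∃ v w g, v ∈ W ∧ w ≠ g ∧ s(v, w) ∈ I ∧ s(v, g) ∈ I ∧ S = {s(v, w), s(v, g)}) ∧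
      ∀ v ∈ W, ∀ w ∈ W, s(v, w) ∉ I \ P.biUnion id := by
  obtain ⟨P, h1, h2, h3⟩ := maxfam I (fun S => ∃ v w g, v ∈ W ∧ w ∈ W ∧ g ∉ W ∧
    S = {s(v, w), s(v, g)}) (by
      rintro S ⟨v, w, g, _, _, _, rfl⟩
      exact ⟨s(v, w), by simp⟩)
  refine ⟨P, ⟨fun S hS => (h1 S hS).2, h2⟩, ?_, ?_⟩
  · intro S hS
    obtain ⟨⟨v, w, g, hv, hw, hg, rfl⟩, hSI⟩ := h1 S hS
    exact ⟨v, w, g, hv, fun e => hg (e ▸ hw), hSI (by simp), hSI (by simp), rfl⟩
  · intro v hv w hw hvw
    -- good neighbours of `v`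
    set G := nb I v \ W with hG
    have hGc : W.card + 1 ≤ G.card := by
      have e1 : nb I v ∩ W ⊆ W.erase v := by
        intro x hx
        rw [mem_inter, mem_nb] at hx
        rw [mem_erase]
        exact ⟨(hI.ne hx.1).symm, hx.2⟩
      have e2 := card_le_card e1
      rw [card_erase_of_mem hv] at e2
      have e3 : (nb I v \ W).card + (nb I v ∩ W).card = (nb I v).card := card_sdiff_add_card_inter _ _
      have e4 := hW v hv
      unfold dg at e4
      have e5 : 0 < W.card := card_pos.2 ⟨v, hv⟩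
      rw [hG]
      omega
    have key : ∀ g ∈ G, ∃ w' ∈ W, ({s(v, w'), s(v, g)} : Finset (Sym2 V)) ∈ P := by
      intro g hg
      rw [hG, mem_sdiff, mem_nb] at hg
      have h4 : s(v, g) ∉ I \ P.biUnion id := by
        intro h5
        exact h3 {s(v, w), s(v, g)} ⟨v, w, g, hv, hw, hg.2, rfl⟩ (pair_sub hvw h5)
      have h5 : s(v, g) ∈ P.biUnion id := by
        by_contra h6
        exact h4 (mem_sdiff.2 ⟨hg.1, h6⟩)
      obtain ⟨S, hS, hgS⟩ := mem_biUnion.1 h5
      obtain ⟨⟨v', w', g', hv', hw', hg', rfl⟩, _⟩ := h1 S hS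
      simp only [id, mem_insert, mem_singleton, Sym2.eq_iff] at hgS
      rcases hgS with (⟨e1, e2⟩ | ⟨e1, e2⟩) | (⟨e1, e2⟩ | ⟨e1, e2⟩)
      · exact absurd (e2 ▸ hw') hg.2
      · exact absurd (e2 ▸ hv') hg.2
      · rw [← e1, ← e2] at hS
        exact ⟨w', hw', hS⟩
      · exact absurd (e2 ▸ hv') hg.2
    choose! f hf1 hf2 using key
    have : G.card ≤ W.card := by
      refine card_le_card_of_injOn f (fun g hg => hf1 g hg) ?_
      intro g hg g' hg' hgg
      have h6 := hf2 g hg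
      have h7 := hf2 g' hg'
      rw [← hgg] at h7
      by_contra hne
      have h8 : ({s(v, f g), s(v, g)} : Finset (Sym2 V)) ≠ {s(v, f g), s(v, g')} := by
        intro e
        have : s(v, g) ∈ ({s(v, f g), s(v, g')} : Finset (Sym2 V)) := by
          rw [← e]
          simp
        simp only [mem_insert, mem_singleton, Sym2.congr_right] at this
        rcases this with h9 | h9
        · have h10 : g ∈ G := hg
          rw [hG, mem_sdiff] at h10
          exact h10.2 (h9 ▸ hf1 g hg)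
        · exact hne h9
      have h9 := h2 _ h6 _ h7 h8
      rw [disjoint_left] at h9
      exact h9 (a := s(v, f g)) (by simp) (by simp)
    omega

theorem pairs {I : Finset (Sym2 V)} {A W H : Finset V} (hI : Loopless I)
    (hside : ∀ u v, s(u, v) ∈ I → (u ∈ A ↔ v ∈ A))
    (hW : ∀ v ∈ W, 2 * W.card ≤ dg I v) (hWH : W ⊆ H)
    (hev : Even (I ∩ A.sym2).card) (hev' : Even (I ∩ Aᶜ.sym2).card) {t : ℕ}
    (hH : H.card ≤ t) (hlow : ∀ v, v ∉ H → dg I v ≤ t) :
    ∃ J : Finset (Finset (Sym2 V)), Fam I J ∧ J.biUnion id = I ∧ (∀ S ∈ J, Good W A S) ∧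
      ∀ u, (J.filter fun S => dg S u = 1).card ≤ t + 1 := by
  classical
  obtain ⟨P1, hP1, hP1', hP1W⟩ := phase1 hI hW
  -- phase two
  set L1 := I \ P1.biUnion id with hL1
  obtain ⟨P2, h21, h22, h23⟩ := maxfam L1 (fun S => ∃ v a a', v ∈ H ∧ a ≠ a' ∧
    S = {s(v, a), s(v, a')}) (by
      rintro S ⟨v, a, a', _, _, rfl⟩
      exact ⟨s(v, a), by simp⟩)
  have hP2 : Fam L1 P2 := ⟨fun S hS => (h21 S hS).2, h22⟩
  set L2 := L1 \ P2.biUnion id with hL2
  have hL21 : L2 ⊆ L1 := sdiff_subset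
  have hL1I : L1 ⊆ I := sdiff_subset
  have hdH : ∀ u ∈ H, dg L2 u ≤ 1 := by
    intro u hu
    by_contra hcon
    obtain ⟨a, a', hne, ha, ha'⟩ := two_nb (L := L2) (v := u) (by omega)
    exact h23 {s(u, a), s(u, a')} ⟨u, a, a', hu, hne, rfl⟩ (pair_sub ha ha')
  -- phase three
  obtain ⟨P3, h31, h32, h33⟩ := maxfam L2 (fun S => ∃ v a a', a ≠ a' ∧
    S = {s(v, a), s(v, a')}) (by
      rintro S ⟨v, a, a', _, rfl⟩
      exact ⟨s(v, a), by simp⟩)
  have hP3 : Fam L2 P3 := ⟨fun S hS => (h31 S hS).2, h32⟩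
  set L3 := L2 \ P3.biUnion id with hL3
  have hL32 : L3 ⊆ L2 := sdiff_subset
  have hd3 : ∀ u, dg L3 u ≤ 1 := by
    intro u
    by_contra hcon
    obtain ⟨a, a', hne, ha, ha'⟩ := two_nb (L := L3) (v := u) (by omega)
    exact h33 {s(u, a), s(u, a')} ⟨u, a, a', hne, rfl⟩ (pair_sub ha ha')
  -- phase four
  obtain ⟨P4, h41, h42, h43⟩ := maxfam L3 (fun S => ∃ e e', e ≠ e' ∧ S = {e, e'} ∧
    (S ⊆ A.sym2 ∨ S ⊆ Aᶜ.sym2)) (by
      rintro S ⟨e, e', _, rfl, _⟩
      exact ⟨e, by simp⟩)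
  have hP4 : Fam L3 P4 := ⟨fun S hS => (h41 S hS).2, h42⟩
  have hF34 : Fam L2 (P3 ∪ P4) := hP3.union hP4
  have hF12 : Fam I (P1 ∪ P2) := hP1.union hP2
  have hL2' : L2 = I \ (P1 ∪ P2).biUnion id := by
    rw [hL2, hL1, sdiff_union_fam]
  have hFJ : Fam I ((P1 ∪ P2) ∪ (P3 ∪ P4)) := by
    refine hF12.union ?_
    rw [← hL2']
    exact hF34
  set J := (P1 ∪ P2) ∪ (P3 ∪ P4) with hJ
  have hrest : I \ J.biUnion id = L3 \ P4.biUnion id := by
    rw [hJ, ← sdiff_union_fam, ← hL2', ← sdiff_union_fam, hL3]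
  -- V-pairs are good
  have hV : ∀ v a a' : V, a ≠ a' → s(v, a) ∈ I → s(v, a') ∈ I →
      Good W A {s(v, a), s(v, a')} := by
    intro v a a' hne ha ha'
    have hs1 := hside v a ha
    have hs2 := hside v a' ha'
    by_cases hv : v ∈ A
    · exact Or.inl (Or.inl ⟨v, a, a', hv, hs1.1 hv, hs2.1 hv, hne, (hI.ne ha).symm,
        (hI.ne ha').symm, rfl⟩)
    · refine Or.inr (Or.inl ⟨v, a, a', mem_compl.2 hv, mem_compl.2 fun h => hv (hs1.2 h),
        mem_compl.2 fun h => hv (hs2.2 h), hne, (hI.ne ha).symm, (hI.ne ha').symm, rfl⟩)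
  -- every edge of L2 has a good end
  have hgen : ∀ e ∈ L2, ∃ p g, e = s(p, g) ∧ g ∉ W := by
    intro e he
    induction e using Sym2.ind with
    | _ x y =>
      by_cases hx : x ∈ W
      · by_cases hy : y ∈ W
        · exact absurd (hL21 he) (hP1W x hx y hy)
        · exact ⟨x, y, rfl, hy⟩
      · exact ⟨y, x, Sym2.eq_swap, hx⟩
  have hgood : ∀ S ∈ J, Good W A S := by
    intro S hS
    rw [hJ, mem_union, mem_union, mem_union] at hS
    rcases hS with (hS | hS) | (hS | hS)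
    · obtain ⟨v, w, g, _, hne, h1, h2, rfl⟩ := hP1' S hS
      exact hV v w g hne h1 h2
    · obtain ⟨⟨v, a, a', _, hne, rfl⟩, hsub⟩ := h21 S hS
      exact hV v a a' hne (hL1I (hsub (by simp))) (hL1I (hsub (by simp)))
    · obtain ⟨⟨v, a, a', hne, rfl⟩, hsub⟩ := h31 S hS
      exact hV v a a' hne (hL1I (hL21 (hsub (by simp)))) (hL1I (hL21 (hsub (by simp))))
    · obtain ⟨⟨e, e', hne, rfl, hside'⟩, hsub⟩ := h41 S hS
      have he : e ∈ L3 := hsub (by simp)
      have he' : e' ∈ L3 := hsub (by simp)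
      obtain ⟨p, g, rfl, hg⟩ := hgen e (hL32 he)
      obtain ⟨p', g', rfl, hg'⟩ := hgen e' (hL32 he')
      have hpg : p ≠ g := (hI.mono (hL1I)).ne (hL21 (hL32 he))
      have hpg' : p' ≠ g' := (hI.mono (hL1I)).ne (hL21 (hL32 he'))
      -- a common vertex gives degree two
      have hcom : ∀ x y z : V, s(x, y) ∈ L3 → s(x, z) ∈ L3 → y = z := by
        intro x y z hy hz
        by_contra hyz
        have := hd3 x
        unfold dg at this
        have h2 : 1 < (nb L3 x).card := one_lt_card.2 ⟨y, mem_nb.2 hy, z, mem_nb.2 hz, hyz⟩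
        omega
      have n1 : p ≠ p' := by
        rintro rfl
        exact hne (by rw [hcom p g g' he he'])
      have n2 : p ≠ g' := by
        rintro rfl
        rw [Sym2.eq_swap] at he'
        exact hne (by rw [hcom p g p' he he', Sym2.eq_swap])
      have n3 : g ≠ p' := by
        rintro rfl
        rw [Sym2.eq_swap] at he
        exact hne (by rw [hcom g p g' he he', Sym2.eq_swap])
      have n4 : g ≠ g' := by
        rintro rfl
        rw [Sym2.eq_swap] at he he'
        exact hne (by rw [hcom g p p' he he'])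
      have hn : [p, g, p', g'].Nodup := by
        simp only [List.nodup_cons, List.mem_cons, List.not_mem_nil, or_false, not_or,
          not_false_iff, List.nodup_nil, and_true]
        exact ⟨⟨hpg, n1, n2⟩, ⟨n3, n4⟩, hpg'⟩
      rcases hside' with h5 | h5
      · have h6 := mk_mem_sym2_iff.1 (h5 (show s(p, g) ∈ _ by simp))
        have h7 := mk_mem_sym2_iff.1 (h5 (show s(p', g') ∈ _ by simp))
        exact Or.inl (Or.inr ⟨p, g, p', g', hn, h6.1, h6.2, h7.1, h7.2, hg, hg', rfl⟩)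
      · have h6 := mk_mem_sym2_iff.1 (h5 (show s(p, g) ∈ _ by simp))
        have h7 := mk_mem_sym2_iff.1 (h5 (show s(p', g') ∈ _ by simp))
        exact Or.inr (Or.inr ⟨p, g, p', g', hn, h6.1, h6.2, h7.1, h7.2, hg, hg', rfl⟩)
  -- parity of the rest
  have hpar : ∀ B : Finset V, (∀ S ∈ J, Even (S ∩ B.sym2).card) → Even (I ∩ B.sym2).card →
      Even ((I \ J.biUnion id) ∩ B.sym2).card := by
    intro B hB hIB
    have e1 : I ∩ B.sym2 = (J.biUnion fun S => S ∩ B.sym2) ∪ ((I \ J.biUnion id) ∩ B.sym2) := by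
      ext e
      simp only [mem_inter, mem_union, mem_biUnion, mem_sdiff, id]
      constructor
      · rintro ⟨h1, h2⟩
        by_cases h3 : ∃ S ∈ J, e ∈ S
        · obtain ⟨S, hS, heS⟩ := h3
          exact Or.inl ⟨S, hS, heS, h2⟩
        · exact Or.inr ⟨⟨h1, h3⟩, h2⟩
      · rintro (⟨S, hS, heS, h2⟩ | ⟨⟨h1, h3⟩, h2⟩)
        · exact ⟨hFJ.sub S hS heS, h2⟩
        · exact ⟨h1, h2⟩
    have e2 : Disjoint (J.biUnion fun S => S ∩ B.sym2) ((I \ J.biUnion id) ∩ B.sym2) := by
      rw [disjoint_left]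
      intro e he he'
      simp only [mem_inter, mem_biUnion, mem_sdiff, id] at he he'
      obtain ⟨S, hS, heS, _⟩ := he
      exact he'.1.2 ⟨S, hS, heS⟩
    rw [e1, card_union_of_disjoint e2, card_biUnion (fun S hS T hT hne =>
      (hFJ.disj S hS T hT hne).mono inter_subset_left inter_subset_left), Nat.even_add] at hIB
    exact hIB.1 (even_sum _ fun S hS => hB S hS)
  have hle : ∀ B : Finset V, (B = A ∨ B = Aᶜ) → ((I \ J.biUnion id) ∩ B.sym2).card ≤ 1 := by
    intro B hB
    by_contra hcon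
    obtain ⟨e, he, e', he', hne⟩ := one_lt_card.1 (not_le.1 hcon)
    rw [hrest, mem_inter] at he he'
    refine h43 {e, e'} ⟨e, e', hne, rfl, ?_⟩ (pair_sub he.1 he'.1)
    rcases hB with rfl | rfl
    · exact Or.inl (pair_sub he.2 he'.2)
    · exact Or.inr (pair_sub he.2 he'.2)
  have hz : ∀ B : Finset V, (B = A ∨ B = Aᶜ) → Even ((I \ J.biUnion id) ∩ B.sym2).card →
      (I \ J.biUnion id) ∩ B.sym2 = ∅ := by
    intro B hB hB'
    have := hle B hB
    rw [← card_eq_zero]
    rcases hB' with ⟨m, hm⟩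
    omega
  have hz1 := hz A (Or.inl rfl) (hpar A (fun S hS => (hgood S hS).even) hev)
  have hz2 := hz Aᶜ (Or.inr rfl) (hpar Aᶜ (fun S hS => (hgood S hS).symm.even) hev')
  have hall : I \ J.biUnion id = ∅ := by
    rw [eq_empty_iff_forall_notMem]
    intro e he
    have heI : e ∈ I := (mem_sdiff.1 he).1
    induction e using Sym2.ind with
    | _ x y =>
      have hxy := hside x y heI
      by_cases hx : x ∈ A
      · have : s(x, y) ∈ (I \ J.biUnion id) ∩ A.sym2 :=
          mem_inter.2 ⟨he, mk_mem_sym2_iff.2 ⟨hx, hxy.1 hx⟩⟩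
        rw [hz1] at this
        exact notMem_empty _ this
      · have : s(x, y) ∈ (I \ J.biUnion id) ∩ Aᶜ.sym2 :=
          mem_inter.2 ⟨he, mk_mem_sym2_iff.2 ⟨mem_compl.2 hx, mem_compl.2 fun h => hx (hxy.2 h)⟩⟩
        rw [hz2] at this
        exact notMem_empty _ this
  refine ⟨J, hFJ, ?_, hgood, ?_⟩
  · exact Subset.antisymm hFJ.bsub (sdiff_eq_empty_iff_subset.1 hall)
  · intro u
    by_cases hu : u ∈ H
    · -- pairs of the first two phases have a centre in H
      have h1 : ((P1 ∪ P2).filter fun S => dg S u = 1).card ≤ (H.image fun z => s(u, z)).card := by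
        refine card_le_of_meets (fun S hS T hT hne => hF12.disj S (mem_filter.1 hS).1 T
          (mem_filter.1 hT).1 hne) ?_
        intro S hS
        obtain ⟨hS1, hS2⟩ := mem_filter.1 hS
        obtain ⟨v, a, a', hv, hne, rfl⟩ : ∃ v a a', v ∈ H ∧ a ≠ a' ∧ S = {s(v, a), s(v, a')} := by
          rcases mem_union.1 hS1 with hS3 | hS3
          · obtain ⟨v, w, g, hv, hne, _, _, rfl⟩ := hP1' S hS3
            exact ⟨v, w, g, hWH hv, hne, rfl⟩
          · exact (h21 S hS3).1
        have huv : u ≠ v := by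
          rintro rfl
          unfold dg at hS2
          have : 1 < (nb ({s(u, a), s(u, a')} : Finset (Sym2 V)) u).card :=
            one_lt_card.2 ⟨a, by simp, a', by simp, hne⟩
          omega
        unfold dg at hS2
        obtain ⟨x, hx⟩ := card_pos.1 (by omega : 0 < (nb ({s(v, a), s(v, a')} : Finset (Sym2 V)) u).card)
        simp only [mem_nb, mem_insert, mem_singleton, Sym2.eq_iff] at hx
        rcases hx with (⟨e1, e2⟩ | ⟨e1, e2⟩) | (⟨e1, e2⟩ | ⟨e1, e2⟩)
        · exact absurd e1 huv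
        · refine ⟨s(v, a), by simp, mem_image.2 ⟨v, hv, ?_⟩⟩
          rw [e1, Sym2.eq_swap]
        · exact absurd e1 huv
        · refine ⟨s(v, a'), by simp, mem_image.2 ⟨v, hv, ?_⟩⟩
          rw [e1, Sym2.eq_swap]
      have h2 := card_image_le (s := H) (f := fun z => s(u, z))
      have h3 := load_le_dg hF34 u
      have h4 := hdH u hu
      have h5 : (J.filter fun S => dg S u = 1) = ((P1 ∪ P2).filter fun S => dg S u = 1) ∪
          ((P3 ∪ P4).filter fun S => dg S u = 1) := by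
        rw [hJ, filter_union]
      rw [h5]
      refine (card_union_le _ _).trans ?_
      omega
    · have h1 := load_le_dg hFJ u
      have h2 := hlow u hu
      omega

end CIII

end Pool.Agent.H483C6
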