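import Pool.Agent.H483C6.CIIIb

/-!
# Case III, part c: covering the inside edges (helper930)
-/

set_option autoImplicit false
set_option linter.unusedSectionVars false

namespace Pool.Agent.H483C6

open Finset

namespace CIII

variable {V : Type} [Fintype V] [DecidableEq V]

/-- the crossing graph -/
structure Bp (C : Finset (Sym2 V)) (A W : Finset V) (η : ℝ) : Prop where
  bip : Bip C A
  min : ∀ v, 1 / 7 * (Fintype.card V : ℝ) ≤ (dg C v : ℝ)
  gen : ∀ v, v ∉ W → v ∈ A → (Aᶜ.card : ℝ) - 2 * η * (Fintype.card V : ℝ) ≤ (dg C v : ℝ)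
  gen' : ∀ v, v ∉ W → v ∉ A → (A.card : ℝ) - 2 * η * (Fintype.card V : ℝ) ≤ (dg C v : ℝ)
  few : (W.card : ℝ) ≤ η * (Fintype.card V : ℝ)
  low : 1 / 3 * (Fintype.card V : ℝ) ≤ (A.card : ℝ)
  low' : 1 / 3 * (Fintype.card V : ℝ) ≤ (Aᶜ.card : ℝ)

theorem Bp.symm {C : Finset (Sym2 V)} {A W : Finset V} {η : ℝ} (h : Bp C A W η) :
    Bp C Aᶜ W η := by
  refine ⟨h.bip.symm, h.min, ?_, ?_, h.few, h.low', ?_⟩
  · intro v hv hvA
    rw [compl_compl]
    exact h.gen' v hv (mem_compl.1 hvA)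
  · intro v hv hvA
    exact h.gen v hv (by simpa using hvA)
  · rw [compl_compl]
    exact h.low

theorem cnt1 (C F : Finset (Sym2 V)) (O : Finset V) (v : V) :
    (dg C v : ℝ) - (dg F v : ℝ) - (O.card : ℝ) ≤ ((nb (C \ F) v \ O).card : ℝ) := by
  have h1 := card_sdiff_add_card_inter (nb (C \ F) v) O
  have h2 : (nb (C \ F) v ∩ O).card ≤ O.card := card_le_card inter_subset_right
  have h3 : (nb C v).card ≤ (nb (C \ F) v).card + (nb F v).card := by
    rw [nb_sdiff]
    have e := card_sdiff_add_card_inter (nb C v) (nb F v)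
    have e' : (nb C v ∩ nb F v).card ≤ (nb F v).card := card_le_card inter_subset_right
    omega
  have h4 : (dg C v : ℝ) ≤ ((nb (C \ F) v \ O).card : ℝ) + (O.card : ℝ) + (dg F v : ℝ) := by
    unfold dg
    exact_mod_cast (by omega : (nb C v).card ≤ (nb (C \ F) v \ O).card + O.card + (nb F v).card)
  linarith

theorem cnt2 (C F : Finset (Sym2 V)) (O X : Finset V) (v w : V) (hv : nb C v ⊆ X)
    (hw : nb C w ⊆ X) :
    (dg C v : ℝ) + (dg C w : ℝ) - (X.card : ℝ) - (dg F v : ℝ) - (dg F w : ℝ) - (O.card : ℝ) ≤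
      (((nb (C \ F) v ∩ nb (C \ F) w) \ O).card : ℝ) := by
  have h1 := card_sdiff_add_card_inter (nb (C \ F) v ∩ nb (C \ F) w) O
  have h2 : ((nb (C \ F) v ∩ nb (C \ F) w) ∩ O).card ≤ O.card := card_le_card inter_subset_right
  have h3 : ∀ u, (nb C u).card ≤ (nb (C \ F) u).card + (nb F u).card := by
    intro u
    rw [nb_sdiff]
    have e := card_sdiff_add_card_inter (nb C u) (nb F u)
    have e' : (nb C u ∩ nb F u).card ≤ (nb F u).card := card_le_card inter_subset_right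
    omega
  have h4 : (nb (C \ F) v ∪ nb (C \ F) w).card ≤ X.card := card_le_card (union_subset
    ((nb_mono sdiff_subset v).trans hv) ((nb_mono sdiff_subset w).trans hw))
  have h5 := card_union_add_card_inter (nb (C \ F) v) (nb (C \ F) w)
  have h6 := h3 v
  have h7 := h3 w
  have h8 : (dg C v : ℝ) + (dg C w : ℝ) ≤ (((nb (C \ F) v ∩ nb (C \ F) w) \ O).card : ℝ) +
      (O.card : ℝ) + (X.card : ℝ) + (dg F v : ℝ) + (dg F w : ℝ) := by
    unfold dg
    exact_mod_cast (by omega : (nb C v).card + (nb C w).card ≤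
      ((nb (C \ F) v ∩ nb (C \ F) w) \ O).card + O.card + X.card + (nb F v).card + (nb F w).card)
  linarith

theorem cand_of {j T : Finset (Sym2 V)} {I : Finset V} (h1 : IsHex (j ∪ T)) (h2 : Disjoint j T)
    (h3 : ∀ u, u ∉ I → dg (j ∪ T) u ≠ 0 → dg j u ≠ 0) (u : V) :
    dg T u ≤ (if dg j u = 1 then 1 else 0) + (if u ∈ I then 2 else 0) := by
  have e1 := h1.dg_le u
  have e2 := h1.even u
  have e3 := dg_union h2 u
  have e4 := h3 u
  by_cases h5 : u ∈ I
  · rw [if_pos h5]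
    omega
  · rw [if_neg h5]
    have e5 := e4 h5
    obtain ⟨m, hm⟩ := e2
    split_ifs with h6
    · omega
    · by_cases h7 : dg (j ∪ T) u = 0
      · omega
      · have := e5 h7
        omega

theorem dg_ne_zero {j : Finset (Sym2 V)} {u x : V} (h : s(u, x) ∈ j) : dg j u ≠ 0 := by
  unfold dg
  exact (card_pos.2 ⟨x, mem_nb.2 h⟩).ne'

/-- what is needed for one pair -/
def Cov (C F : Finset (Sym2 V)) (O : Finset V) (j : Finset (Sym2 V)) : Prop :=
  ∃ (T : Finset (Sym2 V)) (I : Finset V), T ⊆ C ∧ Disjoint T F ∧ Disjoint I O ∧ I.card ≤ 4 ∧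
    IsHex (j ∪ T) ∧ ∀ u, u ∉ I → dg (j ∪ T) u ≠ 0 → dg j u ≠ 0

theorem covV {C : Finset (Sym2 V)} {A W : Finset V} {η : ℝ} (h : Bp C A W η) (hη : η ≤ 1 / 1000)
    (hn : 1000 ≤ Fintype.card V) (F : Finset (Sym2 V)) (O : Finset V)
    (hF : ∀ v, (dg F v : ℝ) ≤ 1 / 100 * (Fintype.card V : ℝ))
    (hO : (O.card : ℝ) ≤ 1 / 100 * (Fintype.card V : ℝ)) {j : Finset (Sym2 V)}
    (hj : VPair A j) : Cov C F O j := by
  obtain ⟨v, a, a', hv, ha, ha', n1, n2, n3, rfl⟩ := hj
  have hnR : (1000 : ℝ) ≤ (Fintype.card V : ℝ) := by exact_mod_cast hn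
  have hηn : η * (Fintype.card V : ℝ) ≤ 1 / 1000 * (Fintype.card V : ℝ) :=
    mul_le_mul_of_nonneg_right hη (Nat.cast_nonneg _)
  have hfew := h.few
  -- choose b
  have c1 := cnt1 C F (O ∪ W) a
  have c2 : ((O ∪ W).card : ℝ) ≤ (O.card : ℝ) + (W.card : ℝ) := by
    exact_mod_cast card_union_le _ _
  have c3 : (0:ℝ) < ((nb (C \ F) a \ (O ∪ W)).card : ℝ) := by
    have := h.min a
    have := hF a
    linarith
  obtain ⟨b, hb⟩ := card_pos.1 (by exact_mod_cast c3 : 0 < (nb (C \ F) a \ (O ∪ W)).card)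
  rw [mem_sdiff, mem_nb, mem_sdiff, mem_union, not_or] at hb
  obtain ⟨⟨hb1, hb2⟩, hb3, hb4⟩ := hb
  -- choose b'
  have c4 := cnt1 C F (insert b (O ∪ W)) a'
  have c5 : ((insert b (O ∪ W)).card : ℝ) ≤ ((O ∪ W).card : ℝ) + 1 := by
    exact_mod_cast card_insert_le _ _
  have c6 : (0:ℝ) < ((nb (C \ F) a' \ (insert b (O ∪ W))).card : ℝ) := by
    have := h.min a'
    have := hF a'
    linarith
  obtain ⟨b', hb'⟩ := card_pos.1 (by exact_mod_cast c6 :
    0 < (nb (C \ F) a' \ (insert b (O ∪ W))).card)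
  rw [mem_sdiff, mem_nb, mem_sdiff, mem_insert, mem_union, not_or, not_or] at hb'
  obtain ⟨⟨hb1', hb2'⟩, hbb, hb3', hb4'⟩ := hb'
  have hbA : b ∉ A := (h.bip a b hb1).1 ha
  have hbA' : b' ∉ A := (h.bip a' b' hb1').1 ha'
  -- choose s
  have c7 := cnt2 C F (insert v (insert a (insert a' O))) A b b' (h.bip.nb_sub' hbA)
    (h.bip.nb_sub' hbA')
  have c8 : ((insert v (insert a (insert a' O))).card : ℝ) ≤ (O.card : ℝ) + 3 := by
    have e1 := card_insert_le v (insert a (insert a' O))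
    have e2 := card_insert_le a (insert a' O)
    have e3 := card_insert_le a' O
    exact_mod_cast (by omega : (insert v (insert a (insert a' O))).card ≤ O.card + 3)
  have c9 : (0:ℝ) < (((nb (C \ F) b ∩ nb (C \ F) b') \
      (insert v (insert a (insert a' O)))).card : ℝ) := by
    have := h.gen' b hb4 hbA
    have := h.gen' b' hb4' hbA'
    have := hF b
    have := hF b'
    have := h.low
    linarith
  obtain ⟨s, hs⟩ := card_pos.1 (by exact_mod_cast c9 :
    0 < ((nb (C \ F) b ∩ nb (C \ F) b') \ (insert v (insert a (insert a' O)))).card)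
  rw [mem_sdiff, mem_inter, mem_nb, mem_nb, mem_sdiff, mem_sdiff, mem_insert, mem_insert,
    mem_insert, not_or, not_or, not_or] at hs
  obtain ⟨⟨⟨hs1, hs2⟩, hs3, hs4⟩, hs5, hs6, hs7, hs8⟩ := hs
  have hsA : s ∈ A := by
    by_contra hcon
    exact hbA ((h.bip b s hs1).2 hcon)
  have hj : ({s(v, a), s(v, a')} : Finset (Sym2 V)) ∪ {s(a, b), s(b, s), s(b', s), s(a', b')} =
      hex v a b s b' a' := by
    ext e
    simp only [mem_union, mem_insert, mem_singleton, mem_hex, Sym2.eq_swap (a := v) (b := a'),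
      Sym2.eq_swap (a := b') (b := s), Sym2.eq_swap (a := a') (b := b')]
    tauto
  have hnod : [v, a, b, s, b', a'].Nodup := by
    simp only [List.nodup_cons, List.mem_cons, List.not_mem_nil, or_false, not_or,
      not_false_iff, List.nodup_nil, and_true]
    have k1 : ∀ x ∈ A, x ≠ b := fun x hx e => hbA (e ▸ hx)
    have k2 : ∀ x ∈ A, x ≠ b' := fun x hx e => hbA' (e ▸ hx)
    exact ⟨⟨n2.symm, k1 v hv, fun e => hs5 e.symm, k2 v hv, n3.symm⟩,
      ⟨k1 a ha, fun e => hs6 e.symm, k2 a ha, n1⟩,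
      ⟨(k1 s hsA).symm, fun e => hbb e.symm, (k1 a' ha').symm⟩, ⟨k2 s hsA, hs7⟩,
      (k2 a' ha').symm⟩
  refine ⟨{s(a, b), s(b, s), s(b', s), s(a', b')}, {b, s, b'}, ?_, ?_, ?_, ?_, ?_, ?_⟩
  · intro e he
    simp only [mem_insert, mem_singleton] at he
    rcases he with rfl | rfl | rfl | rfl
    · exact hb1
    · exact hs1
    · exact hs3
    · exact hb1'
  · rw [disjoint_left]
    intro e he
    simp only [mem_insert, mem_singleton] at he
    rcases he with rfl | rfl | rfl | rfl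
    · exact hb2
    · exact hs2
    · exact hs4
    · exact hb2'
  · rw [disjoint_left]
    intro e he
    simp only [mem_insert, mem_singleton] at he
    rcases he with rfl | rfl | rfl
    · exact hb3
    · exact hs8
    · exact hb3'
  · exact card_le_three.trans (by norm_num)
  · rw [hj]
    exact isHex_hex hnod
  · intro u hu hdu
    rw [hj] at hdu
    have hmem : u ∈ ({v, a, b, s, b', a'} : Finset V) := by
      by_contra hcon
      exact hdu (dg_hex_of_notMem hcon)
    simp only [mem_insert, mem_singleton, not_or] at hu hmem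
    rcases hmem with rfl | rfl | rfl | rfl | rfl | rfl
    · exact dg_ne_zero (x := a) (by simp)
    · exact dg_ne_zero (x := v) (by simp [Sym2.eq_swap])
    · exact absurd rfl hu.1
    · exact absurd rfl hu.2.1
    · exact absurd rfl hu.2.2
    · exact dg_ne_zero (x := v) (by simp [Sym2.eq_swap])

theorem covM {C : Finset (Sym2 V)} {A W : Finset V} {η : ℝ} (h : Bp C A W η) (hη : η ≤ 1 / 1000)
    (hn : 1000 ≤ Fintype.card V) (F : Finset (Sym2 V)) (O : Finset V)
    (hF : ∀ v, (dg F v : ℝ) ≤ 1 / 100 * (Fintype.card V : ℝ))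
    (hO : (O.card : ℝ) ≤ 1 / 100 * (Fintype.card V : ℝ)) {j : Finset (Sym2 V)}
    (hj : MPair W A j) : Cov C F O j := by
  obtain ⟨p, g, p', g', hnd, hp, hg, hp', hg', hgW, hgW', rfl⟩ := hj
  simp only [List.nodup_cons, List.mem_cons, List.not_mem_nil, or_false, not_or,
    not_false_iff, List.nodup_nil, and_true] at hnd
  obtain ⟨⟨m1, m2, m3⟩, ⟨m4, m5⟩, m6⟩ := hnd
  have hnR : (1000 : ℝ) ≤ (Fintype.card V : ℝ) := by exact_mod_cast hn
  have hηn : η * (Fintype.card V : ℝ) ≤ 1 / 1000 * (Fintype.card V : ℝ) :=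
    mul_le_mul_of_nonneg_right hη (Nat.cast_nonneg _)
  -- choose b
  have c1 := cnt2 C F O Aᶜ g p' (h.bip.nb_sub hg) (h.bip.nb_sub hp')
  have c3 : (0:ℝ) < (((nb (C \ F) g ∩ nb (C \ F) p') \ O).card : ℝ) := by
    have := h.gen g hgW hg
    have := h.min p'
    have := hF g
    have := hF p'
    linarith
  obtain ⟨b, hb⟩ := card_pos.1 (by exact_mod_cast c3 : 0 < ((nb (C \ F) g ∩ nb (C \ F) p') \ O).card)
  rw [mem_sdiff, mem_inter, mem_nb, mem_nb, mem_sdiff, mem_sdiff] at hb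
  obtain ⟨⟨⟨hb1, hb2⟩, hb3, hb4⟩, hb5⟩ := hb
  -- choose b'
  have c4 := cnt2 C F (insert b O) Aᶜ g' p (h.bip.nb_sub hg') (h.bip.nb_sub hp)
  have c5 : ((insert b O).card : ℝ) ≤ (O.card : ℝ) + 1 := by
    exact_mod_cast card_insert_le _ _
  have c6 : (0:ℝ) < (((nb (C \ F) g' ∩ nb (C \ F) p) \ (insert b O)).card : ℝ) := by
    have := h.gen g' hgW' hg'
    have := h.min p
    have := hF g'
    have := hF p
    linarith
  obtain ⟨b', hb'⟩ := card_pos.1 (by exact_mod_cast c6 :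
    0 < ((nb (C \ F) g' ∩ nb (C \ F) p) \ (insert b O)).card)
  rw [mem_sdiff, mem_inter, mem_nb, mem_nb, mem_sdiff, mem_sdiff, mem_insert, not_or] at hb'
  obtain ⟨⟨⟨hb1', hb2'⟩, hb3', hb4'⟩, hbb, hb5'⟩ := hb'
  have hbA : b ∉ A := (h.bip g b hb1).1 hg
  have hbA' : b' ∉ A := (h.bip g' b' hb1').1 hg'
  have hj : ({s(p, g), s(p', g')} : Finset (Sym2 V)) ∪ {s(g, b), s(p', b), s(g', b'), s(p, b')} =
      hex p g b p' g' b' := by
    ext e
    simp only [mem_union, mem_insert, mem_singleton, mem_hex, Sym2.eq_swap (a := p') (b := b),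
      Sym2.eq_swap (a := p) (b := b')]
    tauto
  have hnod : [p, g, b, p', g', b'].Nodup := by
    simp only [List.nodup_cons, List.mem_cons, List.not_mem_nil, or_false, not_or,
      not_false_iff, List.nodup_nil, and_true]
    have k1 : ∀ x ∈ A, x ≠ b := fun x hx e => hbA (e ▸ hx)
    have k2 : ∀ x ∈ A, x ≠ b' := fun x hx e => hbA' (e ▸ hx)
    exact ⟨⟨m1, k1 p hp, m2, m3, k2 p hp⟩, ⟨k1 g hg, m4, m5, k2 g hg⟩,
      ⟨(k1 p' hp').symm, (k1 g' hg').symm, fun e => hbb e.symm⟩, ⟨m6, k2 p' hp'⟩, k2 g' hg'⟩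
  refine ⟨{s(g, b), s(p', b), s(g', b'), s(p, b')}, {b, b'}, ?_, ?_, ?_, ?_, ?_, ?_⟩
  · intro e he
    simp only [mem_insert, mem_singleton] at he
    rcases he with rfl | rfl | rfl | rfl
    · exact hb1
    · exact hb3
    · exact hb1'
    · exact hb3'
  · rw [disjoint_left]
    intro e he
    simp only [mem_insert, mem_singleton] at he
    rcases he with rfl | rfl | rfl | rfl
    · exact hb2
    · exact hb4
    · exact hb2'
    · exact hb4'
  · rw [disjoint_left]
    intro e he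
    simp only [mem_insert, mem_singleton] at he
    rcases he with rfl | rfl
    · exact hb5
    · exact hb5'
  · exact card_le_two.trans (by norm_num)
  · rw [hj]
    exact isHex_hex hnod
  · intro u hu hdu
    rw [hj] at hdu
    have hmem : u ∈ ({p, g, b, p', g', b'} : Finset V) := by
      by_contra hcon
      exact hdu (dg_hex_of_notMem hcon)
    simp only [mem_insert, mem_singleton, not_or] at hu hmem
    rcases hmem with rfl | rfl | rfl | rfl | rfl | rfl
    · exact dg_ne_zero (x := g) (by simp)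
    · exact dg_ne_zero (x := p) (by simp [Sym2.eq_swap])
    · exact absurd rfl hu.1
    · exact dg_ne_zero (x := g') (by simp)
    · exact dg_ne_zero (x := p') (by simp [Sym2.eq_swap])
    · exact absurd rfl hu.2

theorem cov {C : Finset (Sym2 V)} {A W : Finset V} {η : ℝ} (h : Bp C A W η) (hη : η ≤ 1 / 1000)
    (hn : 1000 ≤ Fintype.card V) (F : Finset (Sym2 V)) (O : Finset V)
    (hF : ∀ v, (dg F v : ℝ) ≤ 1 / 100 * (Fintype.card V : ℝ))
    (hO : (O.card : ℝ) ≤ 1 / 100 * (Fintype.card V : ℝ)) {j : Finset (Sym2 V)}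
    (hj : Good W A j) : Cov C F O j := by
  rcases hj with (hj | hj) | (hj | hj)
  · exact covV h hη hn F O hF hO hj
  · exact covM h hη hn F O hF hO hj
  · exact covV h.symm hη hn F O hF hO hj
  · exact covM h.symm hη hn F O hF hO hj

/-- covering of the inside edges -/
theorem cover {C : Finset (Sym2 V)} {A W : Finset V} {η : ℝ} (h : Bp C A W η)
    (hη0 : 0 < η) (hη : η ≤ 1 / 1000) (hn : 1000 ≤ Fintype.card V)
    (hn' : 3 ≤ η * (Fintype.card V : ℝ)) {I : Finset (Sym2 V)}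
    (hI : Loopless I) (hside : ∀ u v, s(u, v) ∈ I → (u ∈ A ↔ v ∈ A))
    (hW : ∀ v ∈ W, 2 * W.card ≤ dg I v) (hev : Even (I ∩ A.sym2).card)
    (hev' : Even (I ∩ Aᶜ.sym2).card)
    (hIc : (I.card : ℝ) ≤ 2 * η ^ 2 * (Fintype.card V : ℝ) ^ 2) :
    ∃ U ⊆ C, Dec (I ∪ U) ∧ ∀ v, (dg U v : ℝ) ≤ 8 * η * (Fintype.card V : ℝ) := by
  classical
  set n : ℝ := (Fintype.card V : ℝ) with hnn
  have hnR : (1000 : ℝ) ≤ n := by rw [hnn]; exact_mod_cast hn
  have hη1 : η * n ≤ 1 / 1000 * n := mul_le_mul_of_nonneg_right hη (Nat.cast_nonneg _)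
  have hηn : 0 < η * n := by linarith
  -- vertices of high degree
  set Hi := univ.filter fun v => η * n < (dg I v : ℝ) with hHi
  have hHic : (Hi.card : ℝ) ≤ 4 * η * n := by
    have e1 : (Hi.card : ℝ) * (η * n) ≤ 2 * (I.card : ℝ) := by
      have e2 : ∑ v ∈ Hi, (dg I v : ℝ) ≤ 2 * (I.card : ℝ) := by
        exact_mod_cast sum_dg_le hI Hi
      refine le_trans ?_ e2
      rw [← nsmul_eq_mul, ← sum_const]
      exact sum_le_sum fun v hv => (mem_filter.1 hv).2.le
    have e3 : (Hi.card : ℝ) * (η * n) ≤ (4 * η * n) * (η * n) := by nlinarith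
    exact le_of_mul_le_mul_right e3 hηn
  set H := W ∪ Hi with hH
  have hHc : (H.card : ℝ) ≤ 5 * η * n := by
    have e1 : (H.card : ℝ) ≤ (W.card : ℝ) + (Hi.card : ℝ) := by exact_mod_cast card_union_le _ _
    have e2 := h.few
    rw [← hnn] at e2
    linarith
  have hHt : H.card ≤ ⌊5 * η * n⌋₊ := Nat.le_floor hHc
  obtain ⟨J, hJ, hJI, hJg, hJl⟩ := pairs (A := A) (W := W) (H := H) hI hside hW
    subset_union_left hev hev' hHt (by
      intro v hv
      have e1 : v ∉ Hi := fun h => hv (mem_union_right _ h)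
      have e2 : (dg I v : ℝ) ≤ η * n := by
        by_contra hcon
        exact e1 (mem_filter.2 ⟨mem_univ _, not_le.1 hcon⟩)
      refine Nat.le_floor ?_
      nlinarith)
  have hfl : (⌊5 * η * n⌋₊ : ℝ) ≤ 5 * η * n := Nat.floor_le (by positivity)
  -- number of pairs
  have hJc : 2 * J.card = I.card := by
    have e1 : (J.biUnion id).card = ∑ S ∈ J, S.card :=
      card_biUnion (fun S hS T hT hne => hJ.disj S hS T hT hne)
    rw [← hJI, e1, sum_congr rfl (fun S hS => (hJg S hS).card), sum_const, smul_eq_mul, mul_comm]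
  have hJcR : 4 * (J.card : ℝ) ≤ 4 * η ^ 2 * n ^ 2 := by
    have e1 : 2 * (J.card : ℝ) = (I.card : ℝ) := by exact_mod_cast hJc
    linarith
  set Λ := ⌈η * n⌉₊ with hΛ
  have hΛ1 : η * n ≤ (Λ : ℝ) := Nat.le_ceil _
  have hΛ2 : (Λ : ℝ) < η * n + 1 := Nat.ceil_lt_add_one (by positivity)
  have hep : ∀ v, ∑ i ∈ J, (if dg i v = 1 then 1 else 0) ≤ ⌊5 * η * n⌋₊ + 1 := by
    intro v
    rw [← card_filter]
    exact hJl v
  have hbound : ∀ m v, m ≤ (∑ i ∈ J, (if dg i v = 1 then 1 else 0)) + 2 * Λ →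
      (m : ℝ) ≤ 8 * η * n := by
    intro m v hm
    have e1 : m ≤ ⌊5 * η * n⌋₊ + 1 + 2 * Λ := hm.trans (Nat.add_le_add_right (hep v) _)
    have e2 : (m : ℝ) ≤ (⌊5 * η * n⌋₊ : ℝ) + 1 + 2 * (Λ : ℝ) := by exact_mod_cast e1
    linarith
  obtain ⟨T, hT1, hT2, hT3⟩ := greedy V (Finset (Sym2 V)) J
    (fun j T I => T ⊆ C ∧ IsHex (j ∪ T) ∧ I.card ≤ 4 ∧
      ∀ v, dg T v ≤ (if dg j v = 1 then 1 else 0) + (if v ∈ I then 2 else 0))
    (fun j v => if dg j v = 1 then 1 else 0) Λ (fun j _ T I hc => ⟨hc.2.2.1, hc.2.2.2⟩) (by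
      intro j hj F O hF hO
      have hF' : ∀ v, (dg F v : ℝ) ≤ 1 / 100 * n := by
        intro v
        have := hbound _ v (hF v)
        linarith
      have hO' : (O.card : ℝ) ≤ 1 / 100 * n := by
        have e1 : (Λ : ℝ) * (O.card : ℝ) ≤ 4 * (J.card : ℝ) := by exact_mod_cast hO
        have e2 : (η * n) * (O.card : ℝ) ≤ (η * n) * (4 * η * n) := by
          have e3 : (η * n) * (O.card : ℝ) ≤ (Λ : ℝ) * (O.card : ℝ) :=
            mul_le_mul_of_nonneg_right hΛ1 (Nat.cast_nonneg _)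
          nlinarith
        have e4 := le_of_mul_le_mul_left e2 hηn
        linarith
      obtain ⟨T, I', t1, t2, t3, t4, t5, t6⟩ := cov h hη hn F O hF' hO' (hJg j hj)
      have hjT : Disjoint j T := by
        rw [disjoint_left]
        intro e he he'
        have he1 := hJ.sub j hj he
        have he2 := t1 he'
        induction e using Sym2.ind with
        | _ x y =>
          have e3 := hside x y he1
          have e4 := h.bip x y he2
          tauto
      exact ⟨T, I', ⟨t1, t5, t4, cand_of t5 hjT t6⟩, t2, t3⟩)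
  refine ⟨J.biUnion T, ?_, ?_, ?_⟩
  · rw [biUnion_subset]
    intro j hj
    obtain ⟨_, hc, _⟩ := hT1 j hj
    exact hc
  · have e1 : I ∪ J.biUnion T = J.biUnion fun j => j ∪ T j := by
      conv_lhs => rw [← hJI]
      ext e
      simp only [mem_union, mem_biUnion, id]
      constructor
      · rintro (⟨j, hj, he⟩ | ⟨j, hj, he⟩)
        · exact ⟨j, hj, Or.inl he⟩
        · exact ⟨j, hj, Or.inr he⟩
      · rintro ⟨j, hj, he | he⟩
        · exact Or.inl ⟨j, hj, he⟩
        · exact Or.inr ⟨j, hj, he⟩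
    rw [e1]
    have hIC : ∀ i ∈ J, ∀ j ∈ J, Disjoint i (T j) := by
      intro i hi j hj
      rw [disjoint_left]
      intro e he he'
      have he1 := hJ.sub i hi he
      obtain ⟨_, hc, _⟩ := hT1 j hj
      have he2 := hc he'
      induction e using Sym2.ind with
      | _ x y =>
        have e3 := hside x y he1
        have e4 := h.bip x y he2
        tauto
    refine Dec.biUnion _ _ ?_ ?_
    · intro j hj
      obtain ⟨_, _, hc, _⟩ := hT1 j hj
      exact hc.dec
    · intro i hi j hj hij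
      rw [disjoint_union_left, disjoint_union_right, disjoint_union_right]
      exact ⟨⟨hJ.disj i hi j hj hij, hIC i hi j hj⟩, (hIC j hj i hi).symm, hT2 i hi j hj hij⟩
  · intro v
    exact hbound _ v (hT3 v)

end CIII

end Pool.Agent.H483C6
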