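import Pool.Agent.H483C6.CIIIc

/-!
# Case III, part d: repartition and parity (helper930)
-/

set_option autoImplicit false
set_option linter.unusedSectionVars false

namespace Pool.Agent.H483C6

open Finset

namespace CIII

variable {V : Type} [Fintype V] [DecidableEq V]

theorem card_split (E : Finset (Sym2 V)) (A : Finset V) :
    E.card = (cross E A).card + ((E ∩ A.sym2).card + (E ∩ Aᶜ.sym2).card) := by
  conv_lhs => rw [split E A]
  rw [card_union_of_disjoint (disj_cross E E A), card_union_of_disjoint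
    ((disj_sym2 A).mono inter_subset_right inter_subset_right)]

/-- after removing at most one hexagon both sides have an even number of edges -/
theorem parity {E : Finset (Sym2 V)} {A W : Finset V} {η : ℝ} (hdiv : Div6 E)
    (hdeg : ∀ v, Fintype.card V ≤ 2 * dg E v + 1) (hB : Bp (cross E A) A W η)
    (hη : η ≤ 1 / 1000) (hn : 1000 ≤ Fintype.card V) :
    ∃ D0 ⊆ E, Dec D0 ∧ (∀ v, dg D0 v ≤ 2) ∧ Even ((E \ D0) ∩ A.sym2).card ∧
      Even ((E \ D0) ∩ Aᶜ.sym2).card := by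
  have h1 := card_split E A
  have h2 := cross_even hdiv.loopless hdiv.even A
  obtain ⟨m, hm⟩ := hdiv.six
  obtain ⟨c, hc⟩ := h2
  rcases Nat.even_or_odd (E ∩ A.sym2).card with heA | hoA
  · refine ⟨∅, empty_subset _, Dec.empty, by simp, by simpa using heA, ?_⟩
    rw [sdiff_empty]
    obtain ⟨a, ha⟩ := heA
    exact ⟨3 * m - c - a, by omega⟩
  have hoB : Odd (E ∩ Aᶜ.sym2).card := by
    obtain ⟨a, ha⟩ := hoA
    exact ⟨3 * m - c - a - 1, by omega⟩
  have hl := hdiv.loopless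
  set EA := E ∩ A.sym2 with hEA
  set EB := E ∩ Aᶜ.sym2 with hEB
  have hEA1 : ∀ u v, s(u, v) ∈ EA ↔ s(u, v) ∈ E ∧ u ∈ A ∧ v ∈ A := by
    intro u v
    rw [hEA, mem_inter, mk_mem_sym2_iff]
  have hEB1 : ∀ u v, s(u, v) ∈ EB ↔ s(u, v) ∈ E ∧ u ∉ A ∧ v ∉ A := by
    intro u v
    rw [hEB, mem_inter, mk_mem_sym2_iff, mem_compl, mem_compl]
  set X := univ.filter fun v => 0 < dg EA v with hX
  set X' := univ.filter fun v => 0 < dg EB v with hX'
  have hXmem : ∀ v, v ∈ X ↔ ∃ u, s(v, u) ∈ EA := by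
    intro v
    rw [hX, mem_filter]
    unfold dg
    rw [card_pos]
    constructor
    · rintro ⟨_, u, hu⟩
      exact ⟨u, mem_nb.1 hu⟩
    · rintro ⟨u, hu⟩
      exact ⟨mem_univ _, u, mem_nb.2 hu⟩
  have hXmem' : ∀ v, v ∈ X' ↔ ∃ u, s(v, u) ∈ EB := by
    intro v
    rw [hX', mem_filter]
    unfold dg
    rw [card_pos]
    constructor
    · rintro ⟨_, u, hu⟩
      exact ⟨u, mem_nb.1 hu⟩
    · rintro ⟨u, hu⟩
      exact ⟨mem_univ _, u, mem_nb.2 hu⟩
  have hXA : X ⊆ A := by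
    intro v hv
    obtain ⟨u, hu⟩ := (hXmem v).1 hv
    exact ((hEA1 v u).1 hu).2.1
  have hXA' : X' ⊆ Aᶜ := by
    intro v hv
    obtain ⟨u, hu⟩ := (hXmem' v).1 hv
    exact mem_compl.2 ((hEB1 v u).1 hu).2.1
  have hne : X.Nonempty := by
    have : EA.Nonempty := by
      rw [← card_pos]
      exact hoA.pos
    obtain ⟨e, he⟩ := this
    induction e using Sym2.ind with
    | _ x y => exact ⟨x, (hXmem x).2 ⟨y, he⟩⟩
  have hne' : X'.Nonempty := by
    have : EB.Nonempty := by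
      rw [← card_pos]
      exact hoB.pos
    obtain ⟨e, he⟩ := this
    induction e using Sym2.ind with
    | _ x y => exact ⟨x, (hXmem' x).2 ⟨y, he⟩⟩
  obtain ⟨x, hx, x', hx', hxx⟩ : ∃ x ∈ X, ∃ x' ∈ X', s(x, x') ∈ E := by
    by_contra hcon
    push Not at hcon
    obtain ⟨x, hx⟩ := hne
    obtain ⟨x', hx'⟩ := hne'
    have s1 : nb E x ⊆ X.erase x ∪ (Aᶜ \ X') := by
      intro u hu
      rw [mem_nb] at hu
      rw [mem_union, mem_erase, mem_sdiff, mem_compl]
      by_cases huA : u ∈ A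
      · left
        refine ⟨(hl.ne hu).symm, (hXmem u).2 ⟨x, (hEA1 u x).2 ⟨?_, huA, hXA hx⟩⟩⟩
        rw [Sym2.eq_swap]
        exact hu
      · exact Or.inr ⟨huA, fun h => hcon x hx u h hu⟩
    have s2 : nb E x' ⊆ X'.erase x' ∪ (A \ X) := by
      intro u hu
      rw [mem_nb] at hu
      rw [mem_union, mem_erase, mem_sdiff]
      by_cases huA : u ∈ A
      · refine Or.inr ⟨huA, fun h => hcon u h x' hx' ?_⟩
        rw [Sym2.eq_swap]
        exact hu
      · left
        refine ⟨(hl.ne hu).symm, (hXmem' u).2 ⟨x', (hEB1 u x').2 ⟨?_, huA,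
          mem_compl.1 (hXA' hx')⟩⟩⟩
        rw [Sym2.eq_swap]
        exact hu
    have t1 := (card_le_card s1).trans (card_union_le _ _)
    have t2 := (card_le_card s2).trans (card_union_le _ _)
    rw [card_erase_of_mem hx, card_sdiff_of_subset hXA'] at t1
    rw [card_erase_of_mem hx', card_sdiff_of_subset hXA] at t2
    have t3 : 0 < X.card := card_pos.2 ⟨x, hx⟩
    have t4 : 0 < X'.card := card_pos.2 ⟨x', hx'⟩
    have t5 := card_le_card hXA
    have t6 := card_le_card hXA'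
    have t7 := card_add_card_compl A
    have t8 := hdeg x
    have t9 := hdeg x'
    unfold dg at t8 t9
    omega
  obtain ⟨x1, hx1⟩ := (hXmem x).1 hx
  obtain ⟨x1', hx1'⟩ := (hXmem' x').1 hx'
  obtain ⟨f1, f2, f3⟩ := (hEA1 x x1).1 hx1
  obtain ⟨f4, f5, f6⟩ := (hEB1 x' x1').1 hx1'
  have hnR : (1000 : ℝ) ≤ (Fintype.card V : ℝ) := by exact_mod_cast hn
  have hηn : η * (Fintype.card V : ℝ) ≤ 1 / 1000 * (Fintype.card V : ℝ) :=
    mul_le_mul_of_nonneg_right hη (Nat.cast_nonneg _)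
  -- choose a
  have c1 := cnt1 (cross E A) ∅ (insert x (insert x1 W)) x1'
  have c2 : ((insert x (insert x1 W)).card : ℝ) ≤ (W.card : ℝ) + 2 := by
    have e1 := card_insert_le x (insert x1 W)
    have e2 := card_insert_le x1 W
    exact_mod_cast (by omega : (insert x (insert x1 W)).card ≤ W.card + 2)
  have c3 : (0:ℝ) < ((nb (cross E A \ ∅) x1' \ (insert x (insert x1 W))).card : ℝ) := by
    have := hB.min x1'
    have := hB.few
    rw [dg_empty, Nat.cast_zero] at c1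
    linarith
  obtain ⟨a, ha⟩ := card_pos.1 (by exact_mod_cast c3 :
    0 < (nb (cross E A \ ∅) x1' \ (insert x (insert x1 W))).card)
  rw [sdiff_empty, mem_sdiff, mem_nb, mem_insert, mem_insert, not_or, not_or] at ha
  obtain ⟨ha1, ha2, ha3, ha4⟩ := ha
  have haA : a ∈ A := by
    have := (hB.bip x1' a ha1)
    by_contra hcon
    exact f6 (this.2 hcon)
  -- choose b
  have c4 := cnt2 (cross E A) ∅ {x', x1'} Aᶜ x1 a (hB.bip.nb_sub f3) (hB.bip.nb_sub haA)
  have c5 : (({x', x1'} : Finset V).card : ℝ) ≤ 2 := by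
    exact_mod_cast card_le_two
  have c6 : (0:ℝ) < (((nb (cross E A \ ∅) x1 ∩ nb (cross E A \ ∅) a) \ {x', x1'}).card : ℝ) := by
    have := hB.min x1
    have := hB.gen a ha4 haA
    rw [dg_empty, dg_empty, Nat.cast_zero] at c4
    linarith
  obtain ⟨b, hb⟩ := card_pos.1 (by exact_mod_cast c6 :
    0 < ((nb (cross E A \ ∅) x1 ∩ nb (cross E A \ ∅) a) \ {x', x1'}).card)
  rw [sdiff_empty, mem_sdiff, mem_inter, mem_nb, mem_nb, mem_insert, mem_singleton, not_or] at hb
  obtain ⟨⟨hb1, hb2⟩, hb3, hb4⟩ := hb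
  have hbA : b ∉ A := (hB.bip x1 b hb1).1 f3
  have hnod : [x1, x, x', x1', a, b].Nodup := by
    simp only [List.nodup_cons, List.mem_cons, List.not_mem_nil, or_false, not_or,
      not_false_iff, List.nodup_nil, and_true]
    have k : ∀ y ∈ A, ∀ z, z ∉ A → y ≠ z := fun y hy z hz e => hz (e ▸ hy)
    exact ⟨⟨(hl.ne f1).symm, k x1 f3 x' f5, k x1 f3 x1' f6, fun e => ha3 e.symm, k x1 f3 b hbA⟩,
      ⟨k x f2 x' f5, k x f2 x1' f6, fun e => ha2 e.symm, k x f2 b hbA⟩,
      ⟨hl.ne f4, (k a haA x' f5).symm, fun e => hb3 e.symm⟩,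
      ⟨(k a haA x1' f6).symm, fun e => hb4 e.symm⟩, k a haA b hbA⟩
  have hin : ∀ e, e ∈ hex x1 x x' x1' a b → e ∈ E := by
    intro e he
    rw [mem_hex] at he
    rcases he with rfl | rfl | rfl | rfl | rfl | rfl
    · rw [Sym2.eq_swap]; exact f1
    · exact hxx
    · exact f4
    · exact (mem_cross.1 ha1).1
    · exact (mem_cross.1 hb2).1
    · rw [Sym2.eq_swap]; exact (mem_cross.1 hb1).1
  refine ⟨hex x1 x x' x1' a b, hin, dec_hex hnod, (isHex_hex hnod).dg_le, ?_, ?_⟩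
  · have e1 : (E \ hex x1 x x' x1' a b) ∩ A.sym2 = EA.erase s(x1, x) := by
      ext e
      rw [hEA, mem_inter, mem_sdiff, mem_erase, mem_inter]
      constructor
      · rintro ⟨⟨g1, g2⟩, g3⟩
        refine ⟨?_, g1, g3⟩
        rintro rfl
        exact g2 (by rw [mem_hex]; simp)
      · rintro ⟨g1, g2, g3⟩
        refine ⟨⟨g2, ?_⟩, g3⟩
        rw [mem_hex]
        rintro (rfl | rfl | rfl | rfl | rfl | rfl)
        · exact g1 rfl
        · exact f5 (mk_mem_sym2_iff.1 g3).2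
        · exact f5 (mk_mem_sym2_iff.1 g3).1
        · exact f6 (mk_mem_sym2_iff.1 g3).1
        · exact hbA (mk_mem_sym2_iff.1 g3).2
        · exact hbA (mk_mem_sym2_iff.1 g3).1
    rw [e1, card_erase_of_mem (by rw [Sym2.eq_swap]; exact hx1)]
    exact hoA.tsub_odd odd_one
  · have e1 : (E \ hex x1 x x' x1' a b) ∩ Aᶜ.sym2 = EB.erase s(x', x1') := by
      ext e
      rw [hEB, mem_inter, mem_sdiff, mem_erase, mem_inter]
      constructor
      · rintro ⟨⟨g1, g2⟩, g3⟩
        refine ⟨?_, g1, g3⟩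
        rintro rfl
        exact g2 (by rw [mem_hex]; simp)
      · rintro ⟨g1, g2, g3⟩
        refine ⟨⟨g2, ?_⟩, g3⟩
        rw [mem_hex]
        rintro (rfl | rfl | rfl | rfl | rfl | rfl)
        · exact mem_compl.1 (mk_mem_sym2_iff.1 g3).1 f3
        · exact mem_compl.1 (mk_mem_sym2_iff.1 g3).1 f2
        · exact g1 rfl
        · exact mem_compl.1 (mk_mem_sym2_iff.1 g3).2 haA
        · exact mem_compl.1 (mk_mem_sym2_iff.1 g3).1 haA
        · exact mem_compl.1 (mk_mem_sym2_iff.1 g3).2 f3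
    rw [e1, card_erase_of_mem hx1']
    exact hoB.tsub_odd odd_one

end CIII

end Pool.Agent.H483C6
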