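import Pool.Agent.H483C6.CIIId

/-!
# Case III, part e: repartition (helper930)
-/

set_option autoImplicit false
set_option linter.unusedSectionVars false

namespace Pool.Agent.H483C6

open Finset

namespace CIII

variable {V : Type} [Fintype V] [DecidableEq V]

/-- the situation after repartitioning -/
structure SetIII (E : Finset (Sym2 V)) (A : Finset V) (ε : ℝ) : Prop where
  div : Div6 E
  deg : ∀ v, Fintype.card V ≤ 2 * dg E v + 1
  low : (1 / 2 - ε) * (Fintype.card V : ℝ) ≤ (A.card : ℝ)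
  low' : (1 / 2 - ε) * (Fintype.card V : ℝ) ≤ (Aᶜ.card : ℝ)
  many : (A.card : ℝ) * (Aᶜ.card : ℝ) - ε * (Fintype.card V : ℝ) ^ 2 ≤ ((cross E A).card : ℝ)
  own : ∀ v, 1 / 6 * (Fintype.card V : ℝ) ≤ (dg (cross E A) v : ℝ)

theorem touch_card {L : Finset (Sym2 V)} {W : Finset V} (h : ∀ e ∈ L, ∃ w ∈ W, w ∈ e) :
    L.card ≤ W.card * Fintype.card V := by
  have h1 : L ⊆ W.biUnion fun w => univ.image fun u => s(w, u) := by
    intro e he
    obtain ⟨w, hw, hwe⟩ := h e he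
    obtain ⟨u, rfl⟩ := Sym2.mem_iff_exists.1 hwe
    exact mem_biUnion.2 ⟨w, hw, mem_image.2 ⟨u, mem_univ _, rfl⟩⟩
  refine (card_le_card h1).trans (card_biUnion_le_card_mul _ _ _ fun w _ => ?_)
  exact card_image_le

theorem step0 {E : Finset (Sym2 V)} {A : Finset V} {ε : ℝ} (hε0 : 0 < ε) (hε : ε ≤ 1 / 10000)
    (hn : 1000 ≤ Fintype.card V) (hdeg : ∀ v, Fintype.card V ≤ 2 * dg E v + 1) (hdiv : Div6 E)
    (hlow : (1 / 2 - ε) * (Fintype.card V : ℝ) ≤ (A.card : ℝ))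
    (hlow' : (1 / 2 - ε) * (Fintype.card V : ℝ) ≤ (Aᶜ.card : ℝ))
    (hmany : (A.card : ℝ) * (Aᶜ.card : ℝ) - ε * (Fintype.card V : ℝ) ^ 2 ≤
      ((cross E A).card : ℝ)) : ∃ A' : Finset V, SetIII E A' (10 * ε) := by
  classical
  set n : ℝ := (Fintype.card V : ℝ) with hnn
  have hnR : (1000 : ℝ) ≤ n := by rw [hnn]; exact_mod_cast hn
  have hεn : ε * n ≤ 1 / 10000 * n := mul_le_mul_of_nonneg_right hε (by linarith)
  have hεn0 : 0 < ε * n := by positivity
  set M := univ.filter fun v => (dg (cross E A) v : ℝ) < 1 / 5 * n with hM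
  -- the size of M
  have key : ∀ B : Finset V, Bip (cross E A) B → (1 / 2 - ε) * n ≤ (Bᶜ.card : ℝ) →
      (B.card : ℝ) * (Bᶜ.card : ℝ) - ((cross E A).card : ℝ) ≤ ε * n ^ 2 →
      ((B.filter fun v => (dg (cross E A) v : ℝ) < 1 / 5 * n).card : ℝ) ≤ 4 * ε * n := by
    intro B hB hBl hBm
    have e1 := few hB (t := 1 / 4 * n)
    have e2 : (B.filter fun v => (dg (cross E A) v : ℝ) < 1 / 5 * n).card ≤
        (B.filter fun v => (dg (cross E A) v : ℝ) < (Bᶜ.card : ℝ) - 1 / 4 * n).card := by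
      refine card_le_card fun v hv => ?_
      rw [mem_filter] at hv ⊢
      refine ⟨hv.1, ?_⟩
      have := hv.2
      linarith
    have e3 : ((B.filter fun v => (dg (cross E A) v : ℝ) < 1 / 5 * n).card : ℝ) ≤
        ((B.filter fun v => (dg (cross E A) v : ℝ) < (Bᶜ.card : ℝ) - 1 / 4 * n).card : ℝ) := by
      exact_mod_cast e2
    have e4 : ((B.filter fun v => (dg (cross E A) v : ℝ) < 1 / 5 * n).card : ℝ) * (1 / 4 * n) ≤
        (4 * ε * n) * (1 / 4 * n) := by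
      have := mul_le_mul_of_nonneg_right e3 (show (0:ℝ) ≤ 1 / 4 * n by linarith)
      nlinarith
    exact le_of_mul_le_mul_right e4 (by linarith)
  have hMc : (M.card : ℝ) ≤ 8 * ε * n := by
    have e1 := key A (bip_cross E A) hlow' (by linarith)
    have e2 := key Aᶜ (bip_cross E A).symm (by rw [compl_compl]; exact hlow) (by
      rw [compl_compl]; linarith)
    have e3 : M = (A.filter fun v => (dg (cross E A) v : ℝ) < 1 / 5 * n) ∪
        (Aᶜ.filter fun v => (dg (cross E A) v : ℝ) < 1 / 5 * n) := by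
      rw [hM, ← filter_union, union_compl]
    have e4 : (M.card : ℝ) ≤ ((A.filter fun v => (dg (cross E A) v : ℝ) < 1 / 5 * n).card : ℝ) +
        ((Aᶜ.filter fun v => (dg (cross E A) v : ℝ) < 1 / 5 * n).card : ℝ) := by
      rw [e3]
      exact_mod_cast card_union_le _ _
    linarith
  set A' := (A \ M) ∪ (M \ A) with hA'
  have hmem : ∀ v, v ∈ A' ↔ (v ∈ A ∧ v ∉ M) ∨ (v ∈ M ∧ v ∉ A) := by
    intro v
    rw [hA', mem_union, mem_sdiff, mem_sdiff]
  refine ⟨A', hdiv, hdeg, ?_, ?_, ?_, ?_⟩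
  · have e1 : A \ M ⊆ A' := subset_union_left
    have e2 := card_le_card e1
    have e3 := le_card_sdiff M A
    have e4 : (A.card : ℝ) ≤ (A'.card : ℝ) + (M.card : ℝ) := by
      exact_mod_cast (by omega : A.card ≤ A'.card + M.card)
    nlinarith
  · have e1 : Aᶜ \ M ⊆ A'ᶜ := by
      intro v hv
      rw [mem_sdiff, mem_compl] at hv
      rw [mem_compl, hmem]
      tauto
    have e2 := card_le_card e1
    have e3 := le_card_sdiff M Aᶜ
    have e4 : (Aᶜ.card : ℝ) ≤ (A'ᶜ.card : ℝ) + (M.card : ℝ) := by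
      exact_mod_cast (by omega : Aᶜ.card ≤ A'ᶜ.card + M.card)
    nlinarith
  · -- number of crossing edges
    have e1 : cross E A ⊆ cross E A' ∪ (cross E A).filter (fun e => ∃ w ∈ M, w ∈ e) := by
      intro e he
      rw [mem_union, mem_filter]
      by_cases hw : ∃ w ∈ M, w ∈ e
      · exact Or.inr ⟨he, hw⟩
      · left
        induction e using Sym2.ind with
        | _ x y =>
          rw [mem_cross] at he ⊢
          refine ⟨he.1, ?_⟩
          have hx : x ∉ M := fun h => hw ⟨x, h, by simp⟩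
          have hy : y ∉ M := fun h => hw ⟨y, h, by simp⟩
          rw [hmem, hmem]
          tauto
    have e2 : ((cross E A).filter (fun e => ∃ w ∈ M, w ∈ e)).card ≤ M.card * Fintype.card V :=
      touch_card fun e he => (mem_filter.1 he).2
    have e3 : ((cross E A).card : ℝ) ≤ ((cross E A').card : ℝ) + (M.card : ℝ) * n := by
      have := (card_le_card e1).trans (card_union_le _ _)
      rw [hnn]
      exact_mod_cast (by omega : (cross E A).card ≤ (cross E A').card + M.card * Fintype.card V)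
    have e4 : (A.card : ℝ) + (Aᶜ.card : ℝ) = n := by
      rw [hnn]
      exact_mod_cast card_add_card_compl A
    have e5 : (A'.card : ℝ) + (A'ᶜ.card : ℝ) = n := by
      rw [hnn]
      exact_mod_cast card_add_card_compl A'
    have e6 : (A'.card : ℝ) * (A'ᶜ.card : ℝ) ≤ 1 / 4 * n ^ 2 := by
      rw [← e5]
      nlinarith [sq_nonneg ((A'.card : ℝ) - (A'ᶜ.card : ℝ))]
    have e7 : (1 / 4 - ε ^ 2) * n ^ 2 ≤ (A.card : ℝ) * (Aᶜ.card : ℝ) := by
      have e8 : 0 ≤ ((A.card : ℝ) - (1 / 2 - ε) * n) * ((Aᶜ.card : ℝ) - (1 / 2 - ε) * n) :=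
        mul_nonneg (by linarith) (by linarith)
      have e9 : (Aᶜ.card : ℝ) = n - (A.card : ℝ) := by linarith
      rw [e9] at e8 ⊢
      nlinarith
    have e10 : (M.card : ℝ) * n ≤ 8 * ε * n ^ 2 := by nlinarith
    have e11 : ε ^ 2 * n ^ 2 ≤ ε * n ^ 2 := by
      have : ε ^ 2 ≤ ε := by nlinarith
      exact mul_le_mul_of_nonneg_right this (by positivity)
    nlinarith
  · intro v
    have hMv : (M.card : ℝ) ≤ 8 / 10000 * n := by nlinarith
    by_cases hv : v ∈ M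
    · have e1 : (nb E v \ nb (cross E A) v) \ M ⊆ nb (cross E A') v := by
        intro u hu
        rw [mem_sdiff, mem_sdiff, mem_nb, mem_nb, mem_cross] at hu
        rw [mem_nb, mem_cross, hmem, hmem]
        tauto
      have e2 := card_le_card e1
      have e3 := le_card_sdiff M (nb E v \ nb (cross E A) v)
      have e4 := le_card_sdiff (nb (cross E A) v) (nb E v)
      have e5 := hdeg v
      have e6 := (mem_filter.1 hv).2
      have e7 : (dg E v : ℝ) ≤ (dg (cross E A') v : ℝ) + (M.card : ℝ) + (dg (cross E A) v : ℝ) := by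
        unfold dg
        exact_mod_cast (by omega : (nb E v).card ≤ (nb (cross E A') v).card + M.card +
          (nb (cross E A) v).card)
      have e8 : n ≤ 2 * (dg E v : ℝ) + 1 := by
        rw [hnn]
        exact_mod_cast e5
      linarith
    · have e1 : nb (cross E A) v \ M ⊆ nb (cross E A') v := by
        intro u hu
        rw [mem_sdiff, mem_nb, mem_cross] at hu
        rw [mem_nb, mem_cross, hmem, hmem]
        tauto
      have e2 := card_le_card e1
      have e3 := le_card_sdiff M (nb (cross E A) v)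
      have e6 : 1 / 5 * n ≤ (dg (cross E A) v : ℝ) := by
        by_contra hcon
        exact hv (mem_filter.2 ⟨mem_univ _, not_le.1 hcon⟩)
      have e7 : (dg (cross E A) v : ℝ) ≤ (dg (cross E A') v : ℝ) + (M.card : ℝ) := by
        unfold dg
        exact_mod_cast (by omega : (nb (cross E A) v).card ≤ (nb (cross E A') v).card + M.card)
      linarith

/-- hexagon packing with small leftover -/
theorem pack {κ : ℝ} (hκ : 0 < κ) {N0 : ℕ} (hH : ∀ (V : Type) [Fintype V] [DecidableEq V]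
    (S : Finset V) (D : Finset (Sym2 V)), Loopless D → D ⊆ S.sym2 → N0 ≤ S.card →
      κ * (S.card : ℝ) ^ 2 ≤ (D.card : ℝ) → ∃ T ⊆ D, IsHex T) (S : Finset V)
    (D : Finset (Sym2 V)) (hD : Loopless D) (hDS : D ⊆ S.sym2) (hS : N0 ≤ S.card) :
    ∃ K ⊆ D, Dec K ∧ ((D \ K).card : ℝ) ≤ κ * (Fintype.card V : ℝ) ^ 2 := by
  obtain ⟨P, h1, h2, h3⟩ := maxfam D IsHex (fun S hS => hS.nonempty)
  refine ⟨P.biUnion id, ?_, Dec.biUnion _ _ (fun S hS => (h1 S hS).1.dec) h2, ?_⟩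
  · rw [biUnion_subset]
    exact fun S hS => (h1 S hS).2
  · by_contra hcon
    have e1 : (S.card : ℝ) ≤ (Fintype.card V : ℝ) := by exact_mod_cast card_le_univ S
    have e2 : κ * (S.card : ℝ) ^ 2 ≤ κ * (Fintype.card V : ℝ) ^ 2 :=
      mul_le_mul_of_nonneg_left (pow_le_pow_left₀ (Nat.cast_nonneg _) e1 2) hκ.le
    obtain ⟨T, hT, hTh⟩ := hH V S (D \ P.biUnion id) (hD.mono sdiff_subset)
      (sdiff_subset.trans hDS) hS (by linarith)
    exact h3 T hTh hT

/-- set algebra for the final assembly -/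
theorem asm {α : Type} [DecidableEq α] {E D0 SA SB KA KB U C I : Finset α}
    (hD0 : ∀ e, e ∈ D0 → e ∈ E) (hAB : ∀ e, e ∈ SA → e ∉ SB)
    (hKA : ∀ e, e ∈ KA → (e ∈ E ∧ e ∉ D0) ∧ e ∈ SA)
    (hKB : ∀ e, e ∈ KB → (e ∈ E ∧ e ∉ D0) ∧ e ∈ SB)
    (hI : ∀ e, e ∈ I ↔ ((e ∈ E ∧ e ∉ D0) ∧ e ∈ SA) ∧ e ∉ KA ∨ ((e ∈ E ∧ e ∉ D0) ∧ e ∈ SB) ∧ e ∉ KB)
    (hC : ∀ e, e ∈ C ↔ (e ∈ E ∧ e ∉ D0) ∧ e ∉ SA ∧ e ∉ SB)
    (hU : ∀ e, e ∈ U → e ∈ C) :
    D0 ∪ (KA ∪ (KB ∪ (I ∪ U))) ⊆ E ∧ Disjoint KB (I ∪ U) ∧ Disjoint KA (KB ∪ (I ∪ U)) ∧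
      Disjoint D0 (KA ∪ (KB ∪ (I ∪ U))) ∧ E \ (D0 ∪ (KA ∪ (KB ∪ (I ∪ U)))) = C \ U := by
  have hIs : ∀ e, e ∈ I → (e ∈ E ∧ e ∉ D0) ∧ ((e ∈ SA ∧ e ∉ KA) ∨ (e ∈ SB ∧ e ∉ KB)) := by
    intro e he
    rcases (hI e).1 he with ⟨⟨h1, h2⟩, h3⟩ | ⟨⟨h1, h2⟩, h3⟩
    · exact ⟨h1, Or.inl ⟨h2, h3⟩⟩
    · exact ⟨h1, Or.inr ⟨h2, h3⟩⟩
  have hUs : ∀ e, e ∈ U → (e ∈ E ∧ e ∉ D0) ∧ e ∉ SA ∧ e ∉ SB := fun e he => (hC e).1 (hU e he)
  refine ⟨?_, ?_, ?_, ?_, ?_⟩
  · intro e he
    simp only [mem_union] at he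
    rcases he with h | h | h | h | h
    · exact hD0 e h
    · exact (hKA e h).1.1
    · exact (hKB e h).1.1
    · exact (hIs e h).1.1
    · exact (hUs e h).1.1
  · rw [disjoint_left]
    intro e he he'
    rcases mem_union.1 he' with h | h
    · rcases (hIs e h).2 with h1 | h1
      · exact hAB e h1.1 (hKB e he).2
      · exact h1.2 he
    · exact (hUs e h).2.2 (hKB e he).2
  · rw [disjoint_left]
    intro e he he'
    simp only [mem_union] at he'
    rcases he' with h | h | h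
    · exact hAB e (hKA e he).2 (hKB e h).2
    · rcases (hIs e h).2 with h1 | h1
      · exact h1.2 he
      · exact hAB e (hKA e he).2 h1.1
    · exact (hUs e h).2.1 (hKA e he).2
  · rw [disjoint_left]
    intro e he he'
    simp only [mem_union] at he'
    rcases he' with h | h | h | h
    · exact (hKA e h).1.2 he
    · exact (hKB e h).1.2 he
    · exact (hIs e h).1.2 he
    · exact (hUs e h).1.2 he
  · ext e
    simp only [mem_sdiff, mem_union, not_or]
    constructor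
    · rintro ⟨h1, h2, h3, h4, h5, h6⟩
      refine ⟨(hC e).2 ⟨⟨h1, h2⟩, fun h => h5 ((hI e).2 (Or.inl ⟨⟨⟨h1, h2⟩, h⟩, h3⟩)),
        fun h => h5 ((hI e).2 (Or.inr ⟨⟨⟨h1, h2⟩, h⟩, h4⟩))⟩, h6⟩
    · rintro ⟨h1, h2⟩
      obtain ⟨⟨g1, g2⟩, g3, g4⟩ := (hC e).1 h1
      refine ⟨g1, g2, fun h => g3 (hKA e h).2, fun h => g4 (hKB e h).2, fun h => ?_, h2⟩
      rcases (hIs e h).2 with h1 | h1
      · exact g3 h1.1
      · exact g4 h1.1

end CIII

end Pool.Agent.H483C6
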