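import Pool.Agent.H483C6.Basic
import Pool.Agent.H483C6.Stmts3

/-!
# Case II, 15.0: repartitioning (MP_1bffa4_co, helper782 for helper483)
-/

set_option autoImplicit false
set_option linter.unusedSectionVars false

namespace Pool.Agent.H483C6

namespace II0

open Finset

section

variable {V : Type} [Fintype V] [DecidableEq V]

theorem mem_cross {E : Finset (Sym2 V)} {A : Finset V} {u v : V} :
    s(u, v) ∈ cross E A ↔ s(u, v) ∈ E ∧ (u ∈ A ↔ v ∉ A) := by
  unfold cross
  simp only [mem_filter, mk_mem_sym2_iff, mem_compl]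
  tauto

theorem cross_subset (E : Finset (Sym2 V)) (A : Finset V) : cross E A ⊆ E := filter_subset _ _

theorem cross_compl (E : Finset (Sym2 V)) (A : Finset V) : cross E Aᶜ = cross E A := by
  ext e
  induction e using Sym2.ind with
  | _ x y =>
    rw [mem_cross, mem_cross, mem_compl, mem_compl]
    tauto

theorem nb_cross_in {E : Finset (Sym2 V)} {A : Finset V} {v : V} (hv : v ∈ A) :
    nb (cross E A) v = nb E v ∩ Aᶜ := by
  ext u
  simp only [mem_nb, mem_cross, mem_inter, mem_compl, hv, true_iff]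

theorem nb_cross_out {E : Finset (Sym2 V)} {A : Finset V} {v : V} (hv : v ∉ A) :
    nb (cross E A) v = nb E v ∩ A := by
  ext u
  simp only [mem_nb, mem_cross, mem_inter, hv, false_iff, not_not]

theorem nb_own_in {E : Finset (Sym2 V)} {A : Finset V} {v : V} (hv : v ∈ A) :
    nb (E \ cross E A) v = nb E v ∩ A := by
  ext u
  simp only [mem_nb, mem_sdiff, mem_cross, mem_inter, hv, true_iff]
  tauto

theorem nb_own_out {E : Finset (Sym2 V)} {A : Finset V} {v : V} (hv : v ∉ A) :
    nb (E \ cross E A) v = nb E v ∩ Aᶜ := by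
  ext u
  simp only [mem_nb, mem_sdiff, mem_cross, mem_inter, mem_compl, hv, false_iff]
  tauto

theorem dg_add (E : Finset (Sym2 V)) (A : Finset V) (v : V) :
    dg (E \ cross E A) v + dg (cross E A) v = dg E v :=
  dg_sdiff_add (cross_subset E A) v

/-- `X ∩ Y` against a changed set `Y'`. -/
theorem card_inter_le (X Y Y' : Finset V) : (X ∩ Y).card ≤ (X ∩ Y').card + (Y \ Y').card := by
  refine (card_le_card ?_).trans (card_union_le _ _)
  intro u
  simp only [mem_inter, mem_union, mem_sdiff]
  tauto

theorem card_le_sdiff (Y Y' : Finset V) : Y.card ≤ Y'.card + (Y \ Y').card := by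
  refine (card_le_card ?_).trans (card_union_le _ _)
  intro u
  simp only [mem_union, mem_sdiff]
  tauto

/-- the new partition -/
def newA (E : Finset (Sym2 V)) (A : Finset V) : Finset V :=
  univ.filter fun v => (nb E v ∩ Aᶜ).card ≤ (nb E v ∩ A).card

/-- a set containing all moved vertices -/
def mov (E : Finset (Sym2 V)) (A : Finset V) : Finset V :=
  univ.filter fun v => dg (E \ cross E A) v ≤ dg (cross E A) v

theorem moved1 (E : Finset (Sym2 V)) (A : Finset V) : A \ newA E A ⊆ mov E A := by
  intro v hv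
  rw [mem_sdiff, newA, mem_filter] at hv
  push Not at hv
  rw [mov, mem_filter]
  unfold dg
  rw [nb_own_in hv.1, nb_cross_in hv.1]
  exact ⟨mem_univ _, (hv.2 (mem_univ _)).le⟩

theorem moved2 (E : Finset (Sym2 V)) (A : Finset V) : newA E A \ A ⊆ mov E A := by
  intro v hv
  rw [mem_sdiff, newA, mem_filter] at hv
  rw [mov, mem_filter]
  unfold dg
  rw [nb_own_out hv.2, nb_cross_out hv.2]
  exact ⟨mem_univ _, hv.1.2⟩

theorem moved3 (E : Finset (Sym2 V)) (A : Finset V) : Aᶜ \ (newA E A)ᶜ ⊆ mov E A := by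
  intro v hv
  apply moved2
  simp only [mem_sdiff, mem_compl, not_not] at hv ⊢
  exact ⟨hv.2, hv.1⟩

theorem moved4 (E : Finset (Sym2 V)) (A : Finset V) : (newA E A)ᶜ \ Aᶜ ⊆ mov E A := by
  intro v hv
  apply moved1
  simp only [mem_sdiff, mem_compl, not_not] at hv ⊢
  exact ⟨hv.2, hv.1⟩

theorem mov_card {E : Finset (Sym2 V)} {A : Finset V} (hE : Loopless E)
    (hd : ∀ v, Fintype.card V ≤ 2 * dg E v + 1) :
    (mov E A).card * (Fintype.card V - 1) ≤ 8 * (cross E A).card := by
  have h1 : ∑ v ∈ mov E A, (Fintype.card V - 1) ≤ ∑ v ∈ mov E A, 4 * dg (cross E A) v := by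
    refine sum_le_sum fun v hv => ?_
    rw [mov, mem_filter] at hv
    have a := dg_add E A v
    have b := hd v
    omega
  rw [sum_const, smul_eq_mul, ← mul_sum] at h1
  have h2 := sum_dg_le (hE.mono (cross_subset E A)) (mov E A)
  omega

theorem newA_cross {E : Finset (Sym2 V)} {A : Finset V} (hE : Loopless E) :
    (cross E (newA E A)).card ≤ (cross E A).card + (mov E A).card * Fintype.card V := by
  have h1 := sum_dg (hE.mono (cross_subset E (newA E A)))
  have h2 := sum_dg (hE.mono (cross_subset E A))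
  have h3 : ∑ v, dg (cross E (newA E A)) v ≤ ∑ v, (dg (cross E A) v + (mov E A).card +
      (if v ∈ mov E A then Fintype.card V else 0)) := by
    refine sum_le_sum fun v _ => ?_
    split_ifs with hv
    · have := dg_le_card (cross E (newA E A)) v
      omega
    · by_cases hA : v ∈ A
      · have hA' : v ∈ newA E A := by
          by_contra hc
          exact hv (moved1 E A (mem_sdiff.2 ⟨hA, hc⟩))
        unfold dg
        rw [nb_cross_in hA, nb_cross_in hA']
        have := card_inter_le (nb E v) (newA E A)ᶜ Aᶜ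
        have := card_le_card (moved4 E A)
        omega
      · have hA' : v ∉ newA E A := by
          intro hc
          exact hv (moved2 E A (mem_sdiff.2 ⟨hc, hA⟩))
        unfold dg
        rw [nb_cross_out hA, nb_cross_out hA']
        have := card_inter_le (nb E v) (newA E A) A
        have := card_le_card (moved2 E A)
        omega
  rw [sum_add_distrib, sum_add_distrib, ← sum_filter, sum_const, sum_const, smul_eq_mul,
    smul_eq_mul, card_univ, filter_mem_eq_inter, univ_inter] at h3
  have e : Fintype.card V * (mov E A).card = (mov E A).card * Fintype.card V := mul_comm _ _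
  omega

theorem own_in {E : Finset (Sym2 V)} {A : Finset V} {v : V} (hv : v ∈ newA E A) :
    (nb E v ∩ (newA E A)ᶜ).card ≤ (nb E v ∩ newA E A).card + 2 * (mov E A).card ∧
    dg E v ≤ 2 * (nb E v ∩ newA E A).card + 2 * (mov E A).card := by
  have h := hv
  rw [newA, mem_filter] at h
  have a1 := card_inter_le (nb E v) A (newA E A)
  have a2 := card_inter_le (nb E v) (newA E A)ᶜ Aᶜ
  have b1 := card_le_card (moved1 E A)
  have b2 := card_le_card (moved4 E A)
  have c : dg E v = (nb E v ∩ A).card + (nb E v ∩ Aᶜ).card := by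
    unfold dg
    rw [← sdiff_eq_inter_compl, card_inter_add_card_sdiff]
  omega

theorem own_out {E : Finset (Sym2 V)} {A : Finset V} {v : V} (hv : v ∉ newA E A) :
    (nb E v ∩ newA E A).card ≤ (nb E v ∩ (newA E A)ᶜ).card + 2 * (mov E A).card ∧
    dg E v ≤ 2 * (nb E v ∩ (newA E A)ᶜ).card + 2 * (mov E A).card := by
  have h := hv
  rw [newA, mem_filter] at h
  push Not at h
  have h' := h (mem_univ _)
  have a1 := card_inter_le (nb E v) (newA E A) A
  have a2 := card_inter_le (nb E v) Aᶜ (newA E A)ᶜ
  have b1 := card_le_card (moved2 E A)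
  have b2 := card_le_card (moved3 E A)
  have c : dg E v = (nb E v ∩ A).card + (nb E v ∩ Aᶜ).card := by
    unfold dg
    rw [← sdiff_eq_inter_compl, card_inter_add_card_sdiff]
  omega

theorem own_all (E : Finset (Sym2 V)) (A : Finset V) (v : V) :
    dg (cross E (newA E A)) v ≤ dg (E \ cross E (newA E A)) v + 2 * (mov E A).card ∧
    dg E v ≤ 2 * dg (E \ cross E (newA E A)) v + 2 * (mov E A).card := by
  by_cases hv : v ∈ newA E A
  · have := own_in hv
    rw [← nb_cross_in hv, ← nb_own_in hv] at this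
    exact this
  · have := own_out hv
    rw [← nb_cross_out hv, ← nb_own_out hv] at this
    exact this

end

end II0

open Finset II0 in
theorem caseII0 : S_II0 := by
  intro ε1 hε1
  set δ : ℝ := min ε1 1 with hδ
  have hδ0 : 0 < δ := lt_min hε1 one_pos
  have hδ1 : δ ≤ 1 := min_le_right _ _
  have hδε : δ ≤ ε1 := min_le_left _ _
  refine ⟨δ / 1000, by positivity, 8, ?_⟩
  intro V _ _ E A hn hd hE hA hB hc
  have hN : (8 : ℝ) ≤ (Fintype.card V : ℝ) := by exact_mod_cast hn
  set N : ℝ := (Fintype.card V : ℝ) with hNdef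
  set m : ℝ := ((mov E A).card : ℝ) with hm
  have hm0 : 0 ≤ m := Nat.cast_nonneg _
  have hmov : m ≤ 16 * (δ / 1000) * N := by
    have h1 := mov_card (A := A) hE.loopless hd
    have h2 : ((mov E A).card : ℝ) * (N - 1) ≤ 8 * ((cross E A).card : ℝ) := by
      have : ((Fintype.card V - 1 : ℕ) : ℝ) = N - 1 := by
        rw [Nat.cast_sub (by omega)]; simp [hNdef]
      rw [← this]
      exact_mod_cast h1
    have h3 : m * (N - 1) ≤ 8 * (δ / 1000 * N ^ 2) := h2.trans (by linarith)
    have h4 : m * (N / 2) ≤ m * (N - 1) := mul_le_mul_of_nonneg_left (by linarith) hm0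
    have h5 : m * (N / 2) ≤ 16 * (δ / 1000) * N * (N / 2) := by nlinarith
    exact le_of_mul_le_mul_right h5 (by linarith)
  have hcr : ((cross E (newA E A)).card : ℝ) ≤ ε1 * N ^ 2 := by
    have h1 := newA_cross (A := A) hE.loopless
    have h2 : ((cross E (newA E A)).card : ℝ) ≤ (cross E A).card + m * N := by
      rw [hm, hNdef]; exact_mod_cast h1
    have h3 : m * N ≤ 16 * (δ / 1000) * N * N := mul_le_mul_of_nonneg_right hmov (by linarith)
    have h4 : δ * N ^ 2 ≤ ε1 * N ^ 2 := mul_le_mul_of_nonneg_right hδε (by positivity)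
    have h5 : 0 ≤ δ * N ^ 2 := by positivity
    nlinarith
  have hδN : δ * N ≤ ε1 * N := mul_le_mul_of_nonneg_right hδε (by linarith)
  have hδN1 : δ * N ≤ 1 * N := mul_le_mul_of_nonneg_right hδ1 (by linarith)
  have hδN0 : 0 ≤ δ * N := by positivity
  have hlow1 : (1 / 2 - ε1) * N ≤ ((newA E A).card : ℝ) := by
    have h1 := card_le_sdiff A (newA E A)
    have h2 := card_le_card (moved1 E A)
    have h3 : (A.card : ℝ) ≤ (newA E A).card + m := by
      rw [hm]; exact_mod_cast h1.trans (by omega)
    nlinarith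
  have hlow2 : (1 / 2 - ε1) * N ≤ (((newA E A)ᶜ).card : ℝ) := by
    have h1 := card_le_sdiff Aᶜ (newA E A)ᶜ
    have h2 := card_le_card (moved3 E A)
    have h3 : ((Aᶜ).card : ℝ) ≤ ((newA E A)ᶜ).card + m := by
      rw [hm]; exact_mod_cast h1.trans (by omega)
    nlinarith
  have hown : ∀ v, 1 / 5 * N ≤ (dg (E \ cross E (newA E A)) v : ℝ) := by
    intro v
    have h1 := (own_all E A v).2
    have h2 := hd v
    have h3 : (dg E v : ℝ) ≤ 2 * (dg (E \ cross E (newA E A)) v : ℝ) + 2 * m := by
      rw [hm]; exact_mod_cast h1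
    have h4 : N ≤ 2 * (dg E v : ℝ) + 1 := by rw [hNdef]; exact_mod_cast h2
    linarith
  have hown' : ∀ v, (dg (cross E (newA E A)) v : ℝ) ≤
      (dg (E \ cross E (newA E A)) v : ℝ) + ε1 * N := by
    intro v
    have h1 := (own_all E A v).1
    have h3 : (dg (cross E (newA E A)) v : ℝ) ≤
      (dg (E \ cross E (newA E A)) v : ℝ) + 2 * m := by rw [hm]; exact_mod_cast h1
    linarith
  rcases le_total (newA E A).card ((newA E A)ᶜ).card with h | h
  · exact ⟨newA E A, hE, hd, h, hlow1, hcr, hown, hown'⟩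
  · refine ⟨(newA E A)ᶜ, hE, hd, by rw [compl_compl]; exact h, hlow2, ?_, ?_, ?_⟩
    · rw [cross_compl]; exact hcr
    · rw [cross_compl]; exact hown
    · rw [cross_compl]; exact hown'

end Pool.Agent.H483C6
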