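import Pool.Agent.H483C6.CaseII0

/-!
# Case II, 15.1 and 15.2: flexible pairs (MP_1bffa4_co, helper782 for helper483)
-/

set_option autoImplicit false
set_option linter.unusedSectionVars false

namespace Pool.Agent.H483C6

namespace II2

open Finset II0

/-! ### General lemmas -/

theorem exists_inj {V : Type} [DecidableEq V] (X : Finset V) (k : ℕ) (h : k ≤ X.card) :
    ∃ f : Fin k → V, Function.Injective f ∧ ∀ j, f j ∈ X := by
  refine ⟨fun j => (X.equivFin.symm (Fin.castLE h j)).1, ?_, fun j => (X.equivFin.symm _).2⟩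
  intro i j hij
  have := Subtype.ext hij
  exact Fin.castLE_injective h (X.equivFin.symm.injective this)

theorem exists_sdr {V : Type} [DecidableEq V] (k : ℕ) (X : Fin k → Finset V)
    (h : ∀ j, k ≤ (X j).card) : ∃ f : Fin k → V, Function.Injective f ∧ ∀ j, f j ∈ X j := by
  have := (Finset.all_card_le_biUnion_card_iff_exists_injective X).1 (by
    intro s
    rcases s.eq_empty_or_nonempty with rfl | ⟨j, hj⟩
    · simp
    · refine le_trans ?_ ((h j).trans (card_le_card (subset_biUnion_of_mem X hj)))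
      simpa using card_le_univ s)
  exact this

theorem pigeon {V : Type} [Fintype V] [DecidableEq V] (E : Finset (Sym2 V)) (Y W : Finset V)
    (hYW : ∀ b ∈ Y, ∃ w ∈ W, s(w, b) ∈ E) (hc : 9 * W.card < Y.card) :
    ∃ w ∈ W, 10 ≤ (Y.filter fun b => s(w, b) ∈ E).card := by
  by_contra hcon
  push Not at hcon
  have h1 : Y ⊆ W.biUnion fun w => Y.filter fun b => s(w, b) ∈ E := by
    intro b hb
    obtain ⟨w, hw, hwb⟩ := hYW b hb
    rw [mem_biUnion]
    exact ⟨w, hw, mem_filter.2 ⟨hb, hwb⟩⟩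
  have h2 := (card_le_card h1).trans card_biUnion_le
  have h3 : ∑ w ∈ W, (Y.filter fun b => s(w, b) ∈ E).card ≤ ∑ w ∈ W, 9 :=
    sum_le_sum fun w hw => by have := hcon w hw; omega
  rw [sum_const, smul_eq_mul] at h3
  omega

section

variable {V : Type} [Fintype V] [DecidableEq V]

/-- generic vertices -/
def Gen (E : Finset (Sym2 V)) (A : Finset V) (v : V) : Prop :=
  (dg (cross E A) v : ℝ) ≤ 1 / 2000 * (Fintype.card V : ℝ)

open Classical in
theorem card_bad {E : Finset (Sym2 V)} {A : Finset V} (h : SetII E A (1 / 10 ^ 8))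
    (hn : (10 : ℝ) ^ 6 ≤ (Fintype.card V : ℝ)) :
    ((univ.filter fun v => ¬ Gen E A v).card : ℝ) ≤ 1 / 20000 * (Fintype.card V : ℝ) := by
  set N : ℝ := (Fintype.card V : ℝ) with hN
  have hN0 : 0 < N := lt_of_lt_of_le (by norm_num) hn
  have h1 := sum_dg_le (h.div.loopless.mono (cross_subset E A)) (univ.filter fun v => ¬ Gen E A v)
  have h2 : ∑ v ∈ univ.filter (fun v => ¬ Gen E A v), (1 / 2000 * N) ≤
      ∑ v ∈ univ.filter (fun v => ¬ Gen E A v), (dg (cross E A) v : ℝ) := by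
    refine sum_le_sum fun v hv => ?_
    rw [mem_filter] at hv
    have := hv.2
    unfold Gen at this
    push Not at this
    exact this.le
  rw [sum_const, nsmul_eq_mul] at h2
  have h3 : ∑ v ∈ univ.filter (fun v => ¬ Gen E A v), (dg (cross E A) v : ℝ) ≤
      2 * ((cross E A).card : ℝ) := by exact_mod_cast h1
  have h4 := h.few
  rw [← hN] at h4
  set m : ℝ := ((univ.filter fun v => ¬ Gen E A v).card : ℝ) with hm
  have h5 : m * (1 / 2000 * N) ≤ 1 / 20000 * N * (1 / 2000 * N) := by nlinarith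
  exact le_of_mul_le_mul_right h5 (by positivity)

theorem sdiff_in {E : Finset (Sym2 V)} {A : Finset V} (h : SetII E A (1 / 10 ^ 8))
    (hn : (10 : ℝ) ^ 6 ≤ (Fintype.card V : ℝ)) {v : V} (hv : v ∈ A) (hg : Gen E A v) :
    ((A \ nb E v).card : ℝ) ≤ 1 / 1000 * (Fintype.card V : ℝ) := by
  have h1 : (A \ nb E v).card + (nb E v ∩ A).card = A.card := by
    rw [inter_comm, add_comm, card_inter_add_card_sdiff]
  have h2 := dg_add E A v
  have h3 := h.deg v
  have h4 : dg (E \ cross E A) v = (nb E v ∩ A).card := by unfold dg; rw [nb_own_in hv]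
  have h5 : 2 * A.card ≤ Fintype.card V := by
    have := h.le
    rw [card_compl] at this
    have := card_le_univ A
    omega
  have h6 : 2 * (A \ nb E v).card ≤ 2 * dg (cross E A) v + 1 := by omega
  have h7 : 2 * ((A \ nb E v).card : ℝ) ≤ 2 * (dg (cross E A) v : ℝ) + 1 := by exact_mod_cast h6
  unfold Gen at hg
  linarith

theorem card_compl_le {E : Finset (Sym2 V)} {A : Finset V} (h : SetII E A (1 / 10 ^ 8)) :
    ((Aᶜ).card : ℝ) ≤ (1 / 2 + 1 / 10 ^ 8) * (Fintype.card V : ℝ) := by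
  have h1 : A.card + (Aᶜ).card = Fintype.card V := card_add_card_compl A
  have h2 : (A.card : ℝ) + ((Aᶜ).card : ℝ) = (Fintype.card V : ℝ) := by exact_mod_cast h1
  have h3 := h.low
  linarith

theorem sdiff_out {E : Finset (Sym2 V)} {A : Finset V} (h : SetII E A (1 / 10 ^ 8))
    (hn : (10 : ℝ) ^ 6 ≤ (Fintype.card V : ℝ)) {v : V} (hv : v ∉ A) (hg : Gen E A v) :
    ((Aᶜ \ nb E v).card : ℝ) ≤ 1 / 1000 * (Fintype.card V : ℝ) := by
  have h1 : (Aᶜ \ nb E v).card + (nb E v ∩ Aᶜ).card = (Aᶜ).card := by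
    rw [inter_comm, add_comm, card_inter_add_card_sdiff]
  have h2 := dg_add E A v
  have h3 := h.deg v
  have h4 : dg (E \ cross E A) v = (nb E v ∩ Aᶜ).card := by unfold dg; rw [nb_own_out hv]
  have h5 := card_compl_le h
  have h6 : 2 * (Aᶜ \ nb E v).card + Fintype.card V ≤ 2 * (Aᶜ).card + 2 * dg (cross E A) v + 1 := by
    omega
  have h7 : 2 * ((Aᶜ \ nb E v).card : ℝ) + (Fintype.card V : ℝ) ≤
      2 * ((Aᶜ).card : ℝ) + 2 * (dg (cross E A) v : ℝ) + 1 := by exact_mod_cast h6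
  unfold Gen at hg
  linarith

theorem own_in' {E : Finset (Sym2 V)} {A : Finset V} (h : SetII E A (1 / 10 ^ 8))
    {v : V} (hv : v ∈ A) : 1 / 5 * (Fintype.card V : ℝ) ≤ ((nb E v ∩ A).card : ℝ) := by
  have := h.own v
  unfold dg at this
  rw [nb_own_in hv] at this
  exact this

theorem own_out' {E : Finset (Sym2 V)} {A : Finset V} (h : SetII E A (1 / 10 ^ 8))
    {v : V} (hv : v ∉ A) : 1 / 5 * (Fintype.card V : ℝ) ≤ ((nb E v ∩ Aᶜ).card : ℝ) := by
  have := h.own v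
  unfold dg at this
  rw [nb_own_out hv] at this
  exact this

/-- `|X ∩ A| ≤ |X ∩ Y ∩ A| + |A \ Y|` -/
theorem card_inter_le' (X Y A : Finset V) :
    ((X ∩ A).card : ℝ) ≤ ((X ∩ Y ∩ A).card : ℝ) + ((A \ Y).card : ℝ) := by
  have : (X ∩ A).card ≤ (X ∩ Y ∩ A).card + (A \ Y).card := by
    refine (card_le_card ?_).trans (card_union_le _ _)
    intro u
    simp only [mem_inter, mem_union, mem_sdiff]
    tauto
  exact_mod_cast this

theorem cod_in {E : Finset (Sym2 V)} {A : Finset V} (h : SetII E A (1 / 10 ^ 8))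
    (hn : (10 : ℝ) ^ 6 ≤ (Fintype.card V : ℝ)) {v a : V} (hv : v ∈ A) (ha : a ∈ A)
    (hg : Gen E A a) : 1 / 50 * (Fintype.card V : ℝ) ≤ ((nb E v ∩ nb E a ∩ A).card : ℝ) := by
  have h1 := own_in' h hv
  have h2 := sdiff_in h hn ha hg
  have h3 := card_inter_le' (nb E v) (nb E a) A
  linarith

theorem cod_out {E : Finset (Sym2 V)} {A : Finset V} (h : SetII E A (1 / 10 ^ 8))
    (hn : (10 : ℝ) ^ 6 ≤ (Fintype.card V : ℝ)) {v a : V} (hv : v ∉ A) (ha : a ∉ A)
    (hg : Gen E A a) : 1 / 50 * (Fintype.card V : ℝ) ≤ ((nb E a ∩ nb E v ∩ Aᶜ).card : ℝ) := by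
  have h1 := own_out' h hv
  have h2 := sdiff_out h hn ha hg
  have h3 := card_inter_le' (nb E v) (nb E a) Aᶜ
  rw [inter_comm (nb E a)]
  linarith

theorem two_card_le {E : Finset (Sym2 V)} {A : Finset V} (h : SetII E A (1 / 10 ^ 8)) :
    2 * A.card ≤ Fintype.card V := by
  have := h.le
  rw [card_compl] at this
  have := card_le_univ A
  omega

theorem card_inter_own {E : Finset (Sym2 V)} (hE : Loopless E) (A : Finset V) {v : V}
    (hv : v ∈ A) : (nb E v ∩ A).card + 1 ≤ A.card := by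
  rw [Nat.succ_le_iff]
  apply card_lt_card
  rw [ssubset_iff_of_subset inter_subset_right]
  refine ⟨v, hv, ?_⟩
  rw [mem_inter, mem_nb]
  intro hc
  exact hE.ne hc.1 rfl

theorem dg_split (E : Finset (Sym2 V)) (A : Finset V) (v : V) :
    dg E v = (nb E v ∩ A).card + (nb E v ∩ Aᶜ).card := by
  unfold dg
  rw [← sdiff_eq_inter_compl, card_inter_add_card_sdiff]

theorem exCross_in {E : Finset (Sym2 V)} {A : Finset V} (h : SetII E A (1 / 10 ^ 8))
    {a : V} (ha : a ∈ A) : ∃ b, b ∉ A ∧ s(a, b) ∈ E := by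
  have h1 := card_inter_own h.div.loopless A ha
  have h2 := dg_split E A a
  have h3 := h.deg a
  have h4 := two_card_le h
  have h5 : 0 < (nb E a ∩ Aᶜ).card := by omega
  obtain ⟨b, hb⟩ := card_pos.1 h5
  rw [mem_inter, mem_compl, mem_nb] at hb
  exact ⟨b, hb.2, hb.1⟩

theorem star {E : Finset (Sym2 V)} {A : Finset V} (h : SetII E A (1 / 10 ^ 8))
    (hn : (10 : ℝ) ^ 6 ≤ (Fintype.card V : ℝ)) {y : V} (hy : y ∈ A) (G : Finset V)
    (hG : ∀ b ∈ G, b ∉ A ∧ s(y, b) ∈ E ∧ Gen E A b) (hc : 10 ≤ G.card) : FiveFlex E A := by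
  classical
  have hE := h.div.loopless
  -- five generic neighbours of `y` in `A`
  have hX : 5 ≤ ((nb E y ∩ A).filter fun a => Gen E A a).card := by
    have h1 := own_in' h hy
    have h2 := card_bad h hn
    have h3 : (nb E y ∩ A).card ≤ ((nb E y ∩ A).filter fun a => Gen E A a).card +
        (univ.filter fun v => ¬ Gen E A v).card := by
      refine (card_le_card ?_).trans (card_union_le _ _)
      intro u
      simp only [mem_inter, mem_union, mem_filter, mem_univ, true_and]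
      tauto
    have h4 : ((nb E y ∩ A).card : ℝ) ≤ (((nb E y ∩ A).filter fun a => Gen E A a).card : ℝ) +
        ((univ.filter fun v => ¬ Gen E A v).card : ℝ) := by exact_mod_cast h3
    have h5 : (5 : ℝ) ≤ (((nb E y ∩ A).filter fun a => Gen E A a).card : ℝ) := by linarith
    exact_mod_cast h5
  obtain ⟨a', ha'i, ha'⟩ := exists_inj _ 5 hX
  have ha1 : ∀ j, s(y, a' j) ∈ E ∧ a' j ∈ A ∧ Gen E A (a' j) := by
    intro j
    have := ha' j
    rw [mem_filter, mem_inter, mem_nb] at this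
    exact ⟨this.1.1, this.1.2, this.2⟩
  choose b' hb'A hb'E using fun j => exCross_in h (ha1 j).2.1
  have hG' : 5 ≤ (G \ univ.image b').card := by
    have h1 := le_card_sdiff (univ.image b') G
    have h2 : (univ.image b').card ≤ 5 := card_image_le.trans (by simp)
    omega
  obtain ⟨b, hbi, hb⟩ := exists_inj _ 5 hG'
  have hb1 : ∀ j, b j ∉ A ∧ s(y, b j) ∈ E ∧ Gen E A (b j) := fun j => hG _ (mem_sdiff.1 (hb j)).1
  have hbb : ∀ i j, b i ≠ b' j := by
    intro i j e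
    apply (mem_sdiff.1 (hb i)).2
    rw [e]
    exact mem_image_of_mem _ (mem_univ _)
  refine ⟨fun _ => y, b, a', b', ?_, ?_, ?_, ?_, ?_⟩
  · intro j
    exact ⟨hy, (ha1 j).2.1, (hb1 j).1, hb'A j, (hb1 j).2.1, hb'E j, (ha1 j).1, hbb j j,
      cod_in h hn hy (ha1 j).2.1 (ha1 j).2.2, cod_out h hn (hb'A j) (hb1 j).1 (hb1 j).2.2⟩
  · intro i j hij
    exact hbi (Sym2.congr_right.1 hij)
  · intro i j hij
    rcases Sym2.eq_iff.1 hij with ⟨e, _⟩ | ⟨e, _⟩
    · exact ha'i e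
    · exact absurd (ha1 i).2.1 (by rw [e]; exact hb'A j)
  · intro i j hij
    rcases Sym2.eq_iff.1 hij with ⟨e, _⟩ | ⟨e, _⟩
    · exact hE.ne (ha1 j).1 e
    · exact hb'A j (e ▸ hy)
  · intro i j hij
    exact ha'i (Sym2.congr_right.1 hij)

theorem noBad {E : Finset (Sym2 V)} {A : Finset V} (h : SetII E A (1 / 10 ^ 8))
    (hn : (10 : ℝ) ^ 6 ≤ (Fintype.card V : ℝ)) (hF : ¬ FiveFlex E A) {a : V} (ha : a ∈ A) :
    Gen E A a := by
  classical
  by_contra hb
  apply hF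
  refine star h hn ha ((nb E a ∩ Aᶜ).filter fun b => Gen E A b) ?_ ?_
  · intro b hb
    rw [mem_filter, mem_inter, mem_compl, mem_nb] at hb
    exact ⟨hb.1.2, hb.1.1, hb.2⟩
  · have h2 := card_bad h hn
    have h3 : (nb E a ∩ Aᶜ).card ≤ ((nb E a ∩ Aᶜ).filter fun a => Gen E A a).card +
        (univ.filter fun v => ¬ Gen E A v).card := by
      refine (card_le_card ?_).trans (card_union_le _ _)
      intro u
      simp only [mem_inter, mem_union, mem_filter, mem_univ, true_and]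
      tauto
    have h4 : ((nb E a ∩ Aᶜ).card : ℝ) ≤ (((nb E a ∩ Aᶜ).filter fun a => Gen E A a).card : ℝ) +
        ((univ.filter fun v => ¬ Gen E A v).card : ℝ) := by exact_mod_cast h3
    unfold Gen at hb
    push Not at hb
    have h5 : dg (cross E A) a = (nb E a ∩ Aᶜ).card := by unfold dg; rw [nb_cross_in ha]
    rw [h5] at hb
    have h6 : (10 : ℝ) ≤ (((nb E a ∩ Aᶜ).filter fun a => Gen E A a).card : ℝ) := by linarith
    exact_mod_cast h6

theorem maxfam {E : Finset (Sym2 V)} (hE : Loopless E) (A : Finset V) (k : ℕ) :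
    (∃ a b a' b' : Fin k → V, (∀ j, Flex E A (a j) (b j) (a' j) (b' j)) ∧
      Function.Injective a ∧ Function.Injective a' ∧ ∀ i j, a i ≠ a' j) ∨
    ∃ W : Finset V, W.card ≤ 2 * (k - 1) ∧ W ⊆ A ∧ ∀ a ∈ A \ W, ∀ a' ∈ A \ W, ∀ b b',
      ¬ Flex E A a b a' b' := by
  induction k with
  | zero =>
    left
    exact ⟨Fin.elim0, Fin.elim0, Fin.elim0, Fin.elim0, fun j => j.elim0, fun j => j.elim0,
      fun j => j.elim0, fun j => j.elim0⟩
  | succ k ih =>
    rcases ih with ⟨a, b, a', b', hf, hi, hi', hd⟩ | ⟨W, hW, hWA, hf⟩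
    · by_cases hex : ∀ x ∈ A \ (univ.image a ∪ univ.image a'),
        ∀ x' ∈ A \ (univ.image a ∪ univ.image a'), ∀ y y', ¬ Flex E A x y x' y'
      · right
        refine ⟨univ.image a ∪ univ.image a', ?_, ?_, hex⟩
        · have h1 : (univ.image a).card ≤ k := card_image_le.trans (by simp)
          have h2 : (univ.image a').card ≤ k := card_image_le.trans (by simp)
          have h3 := card_union_le (univ.image a) (univ.image a')
          omega
        · intro x hx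
          rcases mem_union.1 hx with hx | hx
          · obtain ⟨j, _, rfl⟩ := mem_image.1 hx
            exact (hf j).ha
          · obtain ⟨j, _, rfl⟩ := mem_image.1 hx
            exact (hf j).ha'
      · left
        push Not at hex
        obtain ⟨x, hx, x', hx', y, y', hxy⟩ := hex
        rw [mem_sdiff, mem_union, mem_image, mem_image] at hx hx'
        push Not at hx hx'
        refine ⟨Fin.cons x a, Fin.cons y b, Fin.cons x' a', Fin.cons y' b', ?_, ?_, ?_, ?_⟩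
        · intro j
          refine Fin.cases ?_ (fun j => ?_) j
          · simpa using hxy
          · simpa using hf j
        · intro i j
          refine Fin.cases ?_ (fun i => ?_) i <;> refine Fin.cases ?_ (fun j => ?_) j
          · simp
          · intro e
            simp only [Fin.cons_zero, Fin.cons_succ] at e
            exact absurd e.symm (hx.2.1 j (mem_univ _))
          · intro e
            simp only [Fin.cons_zero, Fin.cons_succ] at e
            exact absurd e (hx.2.1 i (mem_univ _))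
          · intro e
            simp only [Fin.cons_succ] at e
            rw [hi e]
        · intro i j
          refine Fin.cases ?_ (fun i => ?_) i <;> refine Fin.cases ?_ (fun j => ?_) j
          · simp
          · intro e
            simp only [Fin.cons_zero, Fin.cons_succ] at e
            exact absurd e.symm (hx'.2.2 j (mem_univ _))
          · intro e
            simp only [Fin.cons_zero, Fin.cons_succ] at e
            exact absurd e (hx'.2.2 i (mem_univ _))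
          · intro e
            simp only [Fin.cons_succ] at e
            rw [hi' e]
        · intro i j
          refine Fin.cases ?_ (fun i => ?_) i <;> refine Fin.cases ?_ (fun j => ?_) j
          · simp only [Fin.cons_zero]
            exact hE.ne hxy.haa
          · simp only [Fin.cons_zero, Fin.cons_succ]
            exact fun e => hx.2.2 j (mem_univ _) e.symm
          · simp only [Fin.cons_zero, Fin.cons_succ]
            exact fun e => hx'.2.1 i (mem_univ _) e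
          · simp only [Fin.cons_succ]
            exact hd i j
    · right
      exact ⟨W, by omega, hWA, hf⟩

/-- the situation of 15.2: after deleting `W` there is no flexible pair left -/
structure Ctx (E : Finset (Sym2 V)) (A W : Finset V) : Prop where
  set : SetII E A (1 / 10 ^ 8)
  hn : (10 : ℝ) ^ 6 ≤ (Fintype.card V : ℝ)
  gen : ∀ a ∈ A, Gen E A a
  cW : W.card ≤ 8
  WA : W ⊆ A
  no : ∀ a ∈ A \ W, ∀ a' ∈ A \ W, ∀ b b', ¬ Flex E A a b a' b'

theorem exists_ctx {E : Finset (Sym2 V)} {A : Finset V} (h : SetII E A (1 / 10 ^ 8))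
    (hn : (10 : ℝ) ^ 6 ≤ (Fintype.card V : ℝ)) (hF : ¬ FiveFlex E A) : ∃ W, Ctx E A W := by
  rcases maxfam h.div.loopless A 5 with ⟨a, b, a', b', hf, hi, hi', hd⟩ | ⟨W, hW, hWA, hf⟩
  · exfalso
    apply hF
    refine ⟨a, b, a', b', hf, ?_, ?_, ?_, ?_⟩
    · intro i j hij
      rcases Sym2.eq_iff.1 hij with ⟨e, _⟩ | ⟨e, _⟩
      · exact hi e
      · exact absurd (hf i).ha (by rw [e]; exact (hf j).hb)
    · intro i j hij
      rcases Sym2.eq_iff.1 hij with ⟨e, _⟩ | ⟨e, _⟩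
      · exact hi' e
      · exact absurd (hf i).ha' (by rw [e]; exact (hf j).hb')
    · intro i j hij
      rcases Sym2.eq_iff.1 hij with ⟨e, _⟩ | ⟨e, _⟩
      · exact hd i j e
      · exact absurd (hf i).ha (by rw [e]; exact (hf j).hb')
    · intro i j hij
      rcases Sym2.eq_iff.1 hij with ⟨e, _⟩ | ⟨e, _⟩
      · exact hi e
      · exact absurd e (hd i j)
  · exact ⟨W, h, hn, fun a ha => noBad h hn hF ha, by omega, hWA, hf⟩

variable {E : Finset (Sym2 V)} {A W : Finset V}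

theorem Ctx.sharp (c : Ctx E A W) {a a' b b' : V} (ha : a ∈ A \ W) (ha' : a' ∈ A \ W)
    (haa : s(a, a') ∈ E) (hb : b ∉ A) (hb' : b' ∉ A) (hab : s(a, b) ∈ E) (hab' : s(a', b') ∈ E)
    (hbb : b ≠ b') : ((nb E b ∩ nb E b' ∩ Aᶜ).card : ℝ) < 1 / 50 * (Fintype.card V : ℝ) := by
  by_contra hc
  push Not at hc
  refine c.no a ha a' ha' b b' ⟨(mem_sdiff.1 ha).1, (mem_sdiff.1 ha').1, hb, hb', hab, hab', haa,
    hbb, ?_, hc⟩
  exact cod_in c.set c.hn (mem_sdiff.1 ha).1 (mem_sdiff.1 ha').1 (c.gen _ (mem_sdiff.1 ha').1)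

theorem Ctx.three (c : Ctx E A W) {a1 a2 a3 b1 b2 b3 : V} (h1 : a1 ∈ A \ W) (h2 : a2 ∈ A \ W)
    (h3 : a3 ∈ A \ W) (h12 : s(a1, a2) ∈ E) (h13 : s(a1, a3) ∈ E) (h23 : s(a2, a3) ∈ E)
    (k1 : b1 ∉ A) (k2 : b2 ∉ A) (k3 : b3 ∉ A) (e1 : s(a1, b1) ∈ E) (e2 : s(a2, b2) ∈ E)
    (e3 : s(a3, b3) ∈ E) (n12 : b1 ≠ b2) (n13 : b1 ≠ b3) (n23 : b2 ≠ b3) : False := by
  have s12 := c.sharp h1 h2 h12 k1 k2 e1 e2 n12
  have s13 := c.sharp h1 h3 h13 k1 k3 e1 e3 n13
  have s23 := c.sharp h2 h3 h23 k2 k3 e2 e3 n23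
  have o1 := own_out' c.set k1
  have o2 := own_out' c.set k2
  have o3 := own_out' c.set k3
  have hc := card_compl_le c.set
  have hn := c.hn
  have key : (nb E b1 ∩ Aᶜ).card + (nb E b2 ∩ Aᶜ).card + (nb E b3 ∩ Aᶜ).card ≤
      (Aᶜ).card + (nb E b1 ∩ nb E b2 ∩ Aᶜ).card + (nb E b1 ∩ nb E b3 ∩ Aᶜ).card +
        (nb E b2 ∩ nb E b3 ∩ Aᶜ).card := by
    have r1 := card_union_add_card_inter (nb E b1 ∩ Aᶜ) (nb E b2 ∩ Aᶜ)
    have r2 := card_union_add_card_inter ((nb E b1 ∩ Aᶜ) ∪ (nb E b2 ∩ Aᶜ)) (nb E b3 ∩ Aᶜ)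
    have r3 : ((nb E b1 ∩ Aᶜ) ∪ (nb E b2 ∩ Aᶜ) ∪ (nb E b3 ∩ Aᶜ)).card ≤ (Aᶜ).card := by
      apply card_le_card
      intro u
      simp only [mem_union, mem_inter]
      tauto
    have r4 : ((nb E b1 ∩ Aᶜ) ∩ (nb E b2 ∩ Aᶜ)).card = (nb E b1 ∩ nb E b2 ∩ Aᶜ).card := by
      congr 1
      ext u
      simp only [mem_inter]
      tauto
    have r5 : (((nb E b1 ∩ Aᶜ) ∪ (nb E b2 ∩ Aᶜ)) ∩ (nb E b3 ∩ Aᶜ)).card ≤
        (nb E b1 ∩ nb E b3 ∩ Aᶜ).card + (nb E b2 ∩ nb E b3 ∩ Aᶜ).card := by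
      refine (card_le_card ?_).trans (card_union_le _ _)
      intro u
      simp only [mem_union, mem_inter]
      tauto
    omega
  have key' : ((nb E b1 ∩ Aᶜ).card : ℝ) + ((nb E b2 ∩ Aᶜ).card : ℝ) + ((nb E b3 ∩ Aᶜ).card : ℝ) ≤
      ((Aᶜ).card : ℝ) + ((nb E b1 ∩ nb E b2 ∩ Aᶜ).card : ℝ) +
        ((nb E b1 ∩ nb E b3 ∩ Aᶜ).card : ℝ) + ((nb E b2 ∩ nb E b3 ∩ Aᶜ).card : ℝ) := by
    exact_mod_cast key
  linarith

/-- choose an element of `X` adjacent to `a` -/
theorem Ctx.pick1 (c : Ctx E A W) {X : Finset V} (hX : X ⊆ A) {a : V} (ha : a ∈ A)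
    (h : 1 / 1000 * (Fintype.card V : ℝ) < (X.card : ℝ)) : ∃ x ∈ X, s(a, x) ∈ E := by
  by_contra hcon
  push Not at hcon
  have h1 : X ⊆ A \ nb E a := fun x hx => mem_sdiff.2 ⟨hX hx, fun hc => hcon x hx (mem_nb.1 hc)⟩
  have h2 : (X.card : ℝ) ≤ ((A \ nb E a).card : ℝ) := by exact_mod_cast card_le_card h1
  have h3 := sdiff_in c.set c.hn ha (c.gen a ha)
  linarith

theorem Ctx.pick2 (c : Ctx E A W) {X : Finset V} (hX : X ⊆ A) {a a' : V} (ha : a ∈ A)
    (ha' : a' ∈ A) (h : 2 / 1000 * (Fintype.card V : ℝ) < (X.card : ℝ)) :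
    ∃ x ∈ X, s(a, x) ∈ E ∧ s(a', x) ∈ E := by
  by_contra hcon
  push Not at hcon
  have h1 : X ⊆ (A \ nb E a) ∪ (A \ nb E a') := by
    intro x hx
    rw [mem_union, mem_sdiff, mem_sdiff, mem_nb, mem_nb]
    by_cases hxa : s(a, x) ∈ E
    · exact Or.inr ⟨hX hx, hcon x hx hxa⟩
    · exact Or.inl ⟨hX hx, hxa⟩
  have h2 : (X.card : ℝ) ≤ ((A \ nb E a).card : ℝ) + ((A \ nb E a').card : ℝ) := by
    exact_mod_cast (card_le_card h1).trans (card_union_le _ _)
  have h3 := sdiff_in c.set c.hn ha (c.gen a ha)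
  have h4 := sdiff_in c.set c.hn ha' (c.gen a' ha')
  linarith

/-- vertices of `A \ W` adjacent to `z` -/
def PW (E : Finset (Sym2 V)) (A W : Finset V) (z : V) : Finset V :=
  (A \ W).filter fun a => s(a, z) ∈ E

theorem mem_PW {a z : V} : a ∈ PW E A W z ↔ a ∈ A \ W ∧ s(a, z) ∈ E := mem_filter

theorem PW_sub (z : V) : PW E A W z ⊆ A := fun _ hx => (mem_sdiff.1 (mem_PW.1 hx).1).1

theorem Ctx.cardAW (c : Ctx E A W) :
    (1 / 2 - 1 / 10 ^ 8) * (Fintype.card V : ℝ) - 8 ≤ ((A \ W).card : ℝ) := by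
  have h1 := c.set.low
  have h2 := card_le_sdiff A W
  have h3 : (A.card : ℝ) ≤ (W.card : ℝ) + ((A \ W).card : ℝ) := by exact_mod_cast h2
  have h4 : (W.card : ℝ) ≤ 8 := by exact_mod_cast c.cW
  linarith

/-- Two big values: all crossing neighbours are among them. -/
theorem Ctx.two1 (c : Ctx E A W) {z1 z2 : V} (hz1 : z1 ∉ A) (hz2 : z2 ∉ A) (hz : z1 ≠ z2)
    (h1 : 1 / 500 * (Fintype.card V : ℝ) < ((PW E A W z1).card : ℝ))
    (h2 : 1 / 500 * (Fintype.card V : ℝ) < ((PW E A W z2).card : ℝ)) {a b : V} (ha : a ∈ A \ W)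
    (hb : b ∉ A) (hab : s(a, b) ∈ E) : b = z1 ∨ b = z2 := by
  by_contra hcon
  push Not at hcon
  have hn := c.hn
  have haA := (mem_sdiff.1 ha).1
  obtain ⟨a1, ha1, e1⟩ := c.pick1 (X := PW E A W z1) (PW_sub z1) haA (by linarith)
  obtain ⟨a2, ha2, e2, e3⟩ := c.pick2 (X := PW E A W z2) (PW_sub z2) haA (PW_sub z1 ha1) (by linarith)
  rw [mem_PW] at ha1 ha2
  exact c.three ha ha1.1 ha2.1 e1 e2 e3 hb hz1 hz2 hab ha1.2 ha2.2 hcon.1 hcon.2 hz

theorem Ctx.two2 (c : Ctx E A W) {z1 z2 : V} (hz1 : z1 ∉ A) (hz2 : z2 ∉ A) (hz : z1 ≠ z2)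
    (h1 : 1 / 500 * (Fintype.card V : ℝ) < ((PW E A W z1).card : ℝ))
    (h2 : 1 / 500 * (Fintype.card V : ℝ) < ((PW E A W z2).card : ℝ)) :
    ((nb E z1 ∩ nb E z2 ∩ Aᶜ).card : ℝ) < 1 / 50 * (Fintype.card V : ℝ) := by
  have hn := c.hn
  have hne : 0 < (PW E A W z1).card := by
    have : (0 : ℝ) < ((PW E A W z1).card : ℝ) := by linarith
    exact_mod_cast this
  obtain ⟨a1, ha1⟩ := card_pos.1 hne
  obtain ⟨a2, ha2, e2⟩ := c.pick1 (X := PW E A W z2) (PW_sub z2) (PW_sub z1 ha1) (by linarith)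
  rw [mem_PW] at ha1 ha2
  exact c.sharp ha1.1 ha2.1 e2 hz1 hz2 ha1.2 ha2.2 hz

/-- the crossing degree of `z` -/
theorem Ctx.crossdeg (c : Ctx E A W) {z : V} (hz : z ∉ A) :
    ((nb E z ∩ A).card : ℝ) ≤ ((nb E z ∩ Aᶜ).card : ℝ) + 1 / 10 ^ 8 * (Fintype.card V : ℝ) := by
  have := c.set.own' z
  unfold dg at this
  rw [nb_cross_out hz, nb_own_out hz] at this
  exact this

theorem PW_card_le (z : V) : (PW E A W z).card ≤ (nb E z ∩ A).card := by
  apply card_le_card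
  intro a ha
  have h := mem_PW.1 ha
  rw [mem_inter, mem_nb, Sym2.eq_swap]
  exact ⟨h.2, PW_sub z ha⟩

theorem Ctx.two3 (c : Ctx E A W) {z1 z2 : V} (hz1 : z1 ∉ A) (hz2 : z2 ∉ A) (hz : z1 ≠ z2)
    (h1 : 1 / 500 * (Fintype.card V : ℝ) < ((PW E A W z1).card : ℝ))
    (h2 : 1 / 500 * (Fintype.card V : ℝ) < ((PW E A W z2).card : ℝ)) :
    Fintype.card V ≤ 2 * A.card + 1 := by
  have hn := c.hn
  by_contra hcon
  have key : ∀ a ∈ A \ W, s(a, z1) ∈ E ∧ s(a, z2) ∈ E := by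
    intro a ha
    by_contra hc
    have haA := (mem_sdiff.1 ha).1
    have hle : (nb E a ∩ Aᶜ).card ≤ 1 := by
      rw [card_le_one]
      intro x hx y hy
      rw [mem_inter, mem_nb, mem_compl] at hx hy
      have hx' := c.two1 hz1 hz2 hz h1 h2 ha hx.2 hx.1
      have hy' := c.two1 hz1 hz2 hz h1 h2 ha hy.2 hy.1
      rcases hx' with rfl | rfl <;> rcases hy' with rfl | rfl
      · rfl
      · exact absurd ⟨hx.1, hy.1⟩ hc
      · exact absurd ⟨hy.1, hx.1⟩ hc
      · rfl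
    have i1 := dg_split E A a
    have i2 := card_inter_own c.set.div.loopless A haA
    have i3 := c.set.deg a
    omega
  have p1 : A \ W ⊆ PW E A W z1 := fun a ha => mem_PW.2 ⟨ha, (key a ha).1⟩
  have p2 : A \ W ⊆ PW E A W z2 := fun a ha => mem_PW.2 ⟨ha, (key a ha).2⟩
  have q1 : ((A \ W).card : ℝ) ≤ ((nb E z1 ∩ A).card : ℝ) := by
    exact_mod_cast (card_le_card p1).trans (PW_card_le z1)
  have q2 : ((A \ W).card : ℝ) ≤ ((nb E z2 ∩ A).card : ℝ) := by
    exact_mod_cast (card_le_card p2).trans (PW_card_le z2)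
  have r1 := c.crossdeg hz1
  have r2 := c.crossdeg hz2
  have r3 := c.two2 hz1 hz2 hz h1 h2
  have r4 := c.cardAW
  have r5 := card_compl_le c.set
  have r6 : (nb E z1 ∩ Aᶜ).card + (nb E z2 ∩ Aᶜ).card ≤
      (Aᶜ).card + (nb E z1 ∩ nb E z2 ∩ Aᶜ).card := by
    have t1 := card_union_add_card_inter (nb E z1 ∩ Aᶜ) (nb E z2 ∩ Aᶜ)
    have t2 : ((nb E z1 ∩ Aᶜ) ∪ (nb E z2 ∩ Aᶜ)).card ≤ (Aᶜ).card := by
      apply card_le_card
      intro u
      simp only [mem_union, mem_inter]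
      tauto
    have t3 : ((nb E z1 ∩ Aᶜ) ∩ (nb E z2 ∩ Aᶜ)).card = (nb E z1 ∩ nb E z2 ∩ Aᶜ).card := by
      congr 1
      ext u
      simp only [mem_inter]
      tauto
    omega
  have r7 : ((nb E z1 ∩ Aᶜ).card : ℝ) + ((nb E z2 ∩ Aᶜ).card : ℝ) ≤
      ((Aᶜ).card : ℝ) + ((nb E z1 ∩ nb E z2 ∩ Aᶜ).card : ℝ) := by exact_mod_cast r6
  linarith

open Classical in
theorem Ctx.two4 (c : Ctx E A W) {z1 z2 : V} (hz1 : z1 ∉ A) (hz2 : z2 ∉ A) (hz : z1 ≠ z2)
    (h1 : 1 / 500 * (Fintype.card V : ℝ) < ((PW E A W z1).card : ℝ))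
    (h2 : 1 / 500 * (Fintype.card V : ℝ) < ((PW E A W z2).card : ℝ)) : FiveFlex E A := by
  have hn := c.hn
  have hA := c.two3 hz1 hz2 hz h1 h2
  set Y : Finset V := (((Aᶜ).filter fun b => Gen E A b) \ {z1, z2}) \ (nb E z1 ∩ nb E z2 ∩ Aᶜ)
    with hY
  have hYmem : ∀ b ∈ Y, b ∉ A ∧ Gen E A b ∧ b ≠ z1 ∧ b ≠ z2 ∧ ¬ (s(z1, b) ∈ E ∧ s(z2, b) ∈ E) := by
    intro b hb
    rw [hY] at hb
    simp only [mem_sdiff, mem_filter, mem_compl, mem_insert, mem_singleton, mem_inter, mem_nb]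
      at hb
    tauto
  have hbW : ∀ b ∈ Y, ∃ w ∈ W, s(w, b) ∈ E := by
    intro b hb
    obtain ⟨bA, _, b1, b2, b3⟩ := hYmem b hb
    have hle : (nb E b ∩ Aᶜ).card + 2 ≤ (Aᶜ).card := by
      have hsub : ∃ z, z ≠ b ∧ insert b {z} ⊆ Aᶜ \ (nb E b ∩ Aᶜ) := by
        by_cases hq : s(z1, b) ∈ E
        · have hq2 : s(z2, b) ∉ E := fun h => b3 ⟨hq, h⟩
          refine ⟨z2, fun e => b2 e.symm, ?_⟩
          intro u hu
          simp only [mem_insert, mem_singleton] at hu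
          simp only [mem_sdiff, mem_compl, mem_inter, mem_nb]
          rcases hu with rfl | rfl
          · exact ⟨bA, fun h => c.set.div.loopless.ne h.1 rfl⟩
          · exact ⟨hz2, fun h => hq2 (by rw [Sym2.eq_swap]; exact h.1)⟩
        · refine ⟨z1, fun e => b1 e.symm, ?_⟩
          intro u hu
          simp only [mem_insert, mem_singleton] at hu
          simp only [mem_sdiff, mem_compl, mem_inter, mem_nb]
          rcases hu with rfl | rfl
          · exact ⟨bA, fun h => c.set.div.loopless.ne h.1 rfl⟩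
          · exact ⟨hz1, fun h => hq (by rw [Sym2.eq_swap]; exact h.1)⟩
      obtain ⟨z, hzb, hsub⟩ := hsub
      have t1 := card_le_card hsub
      rw [card_pair hzb.symm] at t1
      have t2 := card_sdiff_add_card_eq_card (inter_subset_right : nb E b ∩ Aᶜ ⊆ Aᶜ)
      omega
    have i1 := dg_split E A b
    have i3 := c.set.deg b
    have i4 : A.card + (Aᶜ).card = Fintype.card V := card_add_card_compl A
    have i5 : 0 < (nb E b ∩ A).card := by omega
    obtain ⟨w, hw⟩ := card_pos.1 i5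
    rw [mem_inter, mem_nb, Sym2.eq_swap] at hw
    refine ⟨w, ?_, hw.1⟩
    by_contra hwW
    rcases c.two1 hz1 hz2 hz h1 h2 (mem_sdiff.2 ⟨hw.2, hwW⟩) bA hw.1 with e | e
    · exact b1 e
    · exact b2 e
  have hYc : 9 * W.card < Y.card := by
    have t1 := card_bad c.set hn
    have t2 := c.two2 hz1 hz2 hz h1 h2
    have t3 : (Aᶜ).card ≤ Y.card + (univ.filter fun v => ¬ Gen E A v).card + 2 +
        (nb E z1 ∩ nb E z2 ∩ Aᶜ).card := by
      have u1 : Aᶜ ⊆ Y ∪ (univ.filter fun v => ¬ Gen E A v) ∪ {z1, z2} ∪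
          (nb E z1 ∩ nb E z2 ∩ Aᶜ) := by
        intro u hu
        rw [hY]
        by_cases g1 : Gen E A u <;> by_cases g2 : u ∈ ({z1, z2} : Finset V) <;>
          by_cases g3 : u ∈ nb E z1 ∩ nb E z2 ∩ Aᶜ <;>
          simp only [mem_union, mem_sdiff, mem_filter, g1, g2, g3, hu, mem_univ, true_and,
            not_true_eq_false, not_false_eq_true, or_true, true_or, or_self, and_self]
      have u2 := card_le_card u1
      have u3 := card_union_le (Y ∪ (univ.filter fun v => ¬ Gen E A v) ∪ {z1, z2})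
        (nb E z1 ∩ nb E z2 ∩ Aᶜ)
      have u4 := card_union_le (Y ∪ (univ.filter fun v => ¬ Gen E A v)) {z1, z2}
      have u5 := card_union_le Y (univ.filter fun v => ¬ Gen E A v)
      have u6 : ({z1, z2} : Finset V).card ≤ 2 := card_le_two
      omega
    have t4 : ((Aᶜ).card : ℝ) ≤ (Y.card : ℝ) + ((univ.filter fun v => ¬ Gen E A v).card : ℝ) + 2 +
        ((nb E z1 ∩ nb E z2 ∩ Aᶜ).card : ℝ) := by exact_mod_cast t3
    have t5 : (A.card : ℝ) ≤ ((Aᶜ).card : ℝ) := by exact_mod_cast c.set.le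
    have t6 := c.set.low
    have t7 : (72 : ℝ) < (Y.card : ℝ) := by linarith
    have t8 : 72 < Y.card := by exact_mod_cast t7
    have t9 := c.cW
    omega
  obtain ⟨w, hw, hw10⟩ := pigeon E Y W hbW hYc
  refine star c.set hn (c.WA hw) _ ?_ hw10
  intro b hb
  rw [mem_filter] at hb
  have := hYmem b hb.1
  exact ⟨this.1, hb.2, this.2.1⟩

/-- vertices of `A \ W` with a crossing neighbour other than `z` -/
def A3 (E : Finset (Sym2 V)) (A W : Finset V) (z : V) : Finset V :=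
  (A \ W).filter fun a => ∃ b, b ∉ A ∧ b ≠ z ∧ s(a, b) ∈ E

theorem mem_A3 {a z : V} : a ∈ A3 E A W z ↔ a ∈ A \ W ∧ ∃ b, b ∉ A ∧ b ≠ z ∧ s(a, b) ∈ E :=
  mem_filter

theorem A3_sub (z : V) : A3 E A W z ⊆ A := fun _ hx => (mem_sdiff.1 (mem_A3.1 hx).1).1

theorem card_sdiff_ge (X Y : Finset V) : (X.card : ℝ) - (Y.card : ℝ) ≤ ((X \ Y).card : ℝ) := by
  have := card_le_sdiff X Y
  have h : (X.card : ℝ) ≤ (Y.card : ℝ) + ((X \ Y).card : ℝ) := by exact_mod_cast this
  linarith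

/-- One big value: almost all vertices of `A` have `z` as only crossing neighbour. -/
theorem Ctx.one1 (c : Ctx E A W) {z : V}
    (hz : ∀ b, b ∉ A → b ≠ z → ((PW E A W b).card : ℝ) ≤ 1 / 500 * (Fintype.card V : ℝ)) :
    ((A3 E A W z).card : ℝ) ≤ 6 / 1000 * (Fintype.card V : ℝ) := by
  have hn := c.hn
  by_contra hcon
  push Not at hcon
  have hne : 0 < (A3 E A W z).card := by
    have : (0 : ℝ) < ((A3 E A W z).card : ℝ) := by linarith
    exact_mod_cast this
  obtain ⟨a1, ha1⟩ := card_pos.1 hne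
  obtain ⟨ha1', b1, hb1, hb1z, e1⟩ := mem_A3.1 ha1
  have p1 := hz b1 hb1 hb1z
  have q1 := card_sdiff_ge (A3 E A W z) (PW E A W b1)
  obtain ⟨a2, ha2, f12⟩ := c.pick1 (X := A3 E A W z \ PW E A W b1)
    (sdiff_subset.trans (A3_sub z)) (A3_sub z ha1) (by linarith)
  rw [mem_sdiff] at ha2
  obtain ⟨ha2', b2, hb2, hb2z, e2⟩ := mem_A3.1 ha2.1
  have n12 : b1 ≠ b2 := by
    rintro rfl
    exact ha2.2 (mem_PW.2 ⟨ha2', e2⟩)
  have p2 := hz b2 hb2 hb2z
  have q2 := card_sdiff_ge (A3 E A W z \ PW E A W b1) (PW E A W b2)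
  obtain ⟨a3, ha3, f13, f23⟩ := c.pick2 (X := (A3 E A W z \ PW E A W b1) \ PW E A W b2)
    (sdiff_subset.trans (sdiff_subset.trans (A3_sub z))) (A3_sub z ha1) (A3_sub z ha2.1)
    (by linarith)
  rw [mem_sdiff, mem_sdiff] at ha3
  obtain ⟨ha3', b3, hb3, hb3z, e3⟩ := mem_A3.1 ha3.1.1
  have n13 : b1 ≠ b3 := by
    rintro rfl
    exact ha3.1.2 (mem_PW.2 ⟨ha3', e3⟩)
  have n23 : b2 ≠ b3 := by
    rintro rfl
    exact ha3.2 (mem_PW.2 ⟨ha3', e3⟩)
  exact c.three ha1' ha2' ha3' f12 f13 f23 hb1 hb2 hb3 e1 e2 e3 n12 n13 n23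

theorem Ctx.one2 (c : Ctx E A W) {z : V} {a b : V} (ha : a ∈ (A \ W) \ A3 E A W z) (hb : b ∉ A)
    (hab : s(a, b) ∈ E) : b = z := by
  by_contra hc
  rw [mem_sdiff] at ha
  exact ha.2 (mem_A3.2 ⟨ha.1, b, hb, hc, hab⟩)

theorem Ctx.one3 (c : Ctx E A W) {z : V}
    (hz : ∀ b, b ∉ A → b ≠ z → ((PW E A W b).card : ℝ) ≤ 1 / 500 * (Fintype.card V : ℝ)) :
    Fintype.card V ≤ 2 * A.card + 1 := by
  have hn := c.hn
  have h1 := c.one1 hz
  have h2 := c.cardAW
  have h3 := card_sdiff_ge (A \ W) (A3 E A W z)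
  have hne : 0 < ((A \ W) \ A3 E A W z).card := by
    have : (0 : ℝ) < (((A \ W) \ A3 E A W z).card : ℝ) := by linarith
    exact_mod_cast this
  obtain ⟨a, ha⟩ := card_pos.1 hne
  have haA := (mem_sdiff.1 (mem_sdiff.1 ha).1).1
  have hle : (nb E a ∩ Aᶜ).card ≤ 1 := by
    rw [card_le_one]
    intro x hx y hy
    rw [mem_inter, mem_nb, mem_compl] at hx hy
    rw [c.one2 ha hx.2 hx.1, c.one2 ha hy.2 hy.1]
  have i1 := dg_split E A a
  have i2 := card_inter_own c.set.div.loopless A haA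
  have i3 := c.set.deg a
  omega

open Classical in
/-- `n` even -/
theorem Ctx.one4 (c : Ctx E A W) {z : V}
    (hz : ∀ b, b ∉ A → b ≠ z → ((PW E A W b).card : ℝ) ≤ 1 / 500 * (Fintype.card V : ℝ))
    (hev : Fintype.card V = 2 * A.card) : FiveFlex E A := by
  have hn := c.hn
  set Y : Finset V := ((Aᶜ).filter fun b => Gen E A b) \ {z} with hY
  have hYmem : ∀ b ∈ Y, b ∉ A ∧ Gen E A b ∧ b ≠ z := by
    intro b hb
    rw [hY] at hb
    simp only [mem_sdiff, mem_filter, mem_compl, mem_singleton] at hb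
    tauto
  have hbW : ∀ b ∈ Y, ∃ w ∈ W ∪ A3 E A W z, s(w, b) ∈ E := by
    intro b hb
    obtain ⟨bA, _, b1⟩ := hYmem b hb
    have hle := card_inter_own c.set.div.loopless Aᶜ (mem_compl.2 bA)
    have i1 := dg_split E A b
    have i3 := c.set.deg b
    have i4 : A.card + (Aᶜ).card = Fintype.card V := card_add_card_compl A
    have i5 : 0 < (nb E b ∩ A).card := by omega
    obtain ⟨w, hw⟩ := card_pos.1 i5
    rw [mem_inter, mem_nb, Sym2.eq_swap] at hw
    refine ⟨w, ?_, hw.1⟩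
    by_contra hwW
    rw [mem_union] at hwW
    push Not at hwW
    exact b1 (c.one2 (mem_sdiff.2 ⟨mem_sdiff.2 ⟨hw.2, hwW.1⟩, hwW.2⟩) bA hw.1)
  have hYc : 9 * (W ∪ A3 E A W z).card < Y.card := by
    have t1 := card_bad c.set hn
    have t3 : (Aᶜ).card ≤ Y.card + (univ.filter fun v => ¬ Gen E A v).card + 1 := by
      have u1 : Aᶜ ⊆ Y ∪ (univ.filter fun v => ¬ Gen E A v) ∪ {z} := by
        intro u hu
        rw [hY]
        by_cases g1 : Gen E A u <;> by_cases g2 : u ∈ ({z} : Finset V) <;>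
          simp only [mem_union, mem_sdiff, mem_filter, g1, g2, hu, mem_univ, true_and,
            not_true_eq_false, not_false_eq_true, or_true, true_or, or_self, and_self]
      have u2 := card_le_card u1
      have u4 := card_union_le (Y ∪ (univ.filter fun v => ¬ Gen E A v)) {z}
      have u5 := card_union_le Y (univ.filter fun v => ¬ Gen E A v)
      rw [card_singleton] at u4
      omega
    have t4 : ((Aᶜ).card : ℝ) ≤ (Y.card : ℝ) + ((univ.filter fun v => ¬ Gen E A v).card : ℝ) +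
        1 := by exact_mod_cast t3
    have t5 : (A.card : ℝ) ≤ ((Aᶜ).card : ℝ) := by exact_mod_cast c.set.le
    have t6 := c.set.low
    have t7 := c.one1 hz
    have t8 : (W.card : ℝ) ≤ 8 := by exact_mod_cast c.cW
    have t9 : ((W ∪ A3 E A W z).card : ℝ) ≤ (W.card : ℝ) + ((A3 E A W z).card : ℝ) := by
      exact_mod_cast card_union_le _ _
    have t10 : 9 * ((W ∪ A3 E A W z).card : ℝ) < (Y.card : ℝ) := by linarith
    exact_mod_cast t10
  obtain ⟨w, hw, hw10⟩ := pigeon E Y _ hbW hYc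
  have hwA : w ∈ A := by
    rcases mem_union.1 hw with h | h
    · exact c.WA h
    · exact A3_sub z h
  refine star c.set hn hwA _ ?_ hw10
  intro b hb
  rw [mem_filter] at hb
  have := hYmem b hb.1
  exact ⟨this.1, hb.2, this.2.1⟩

/-- `n` odd -/
theorem Ctx.one5 (c : Ctx E A W) {z : V} (hzA : z ∉ A)
    (hz : ∀ b, b ∉ A → b ≠ z → ((PW E A W b).card : ℝ) ≤ 1 / 500 * (Fintype.card V : ℝ))
    (hodd : 2 * A.card + 1 = Fintype.card V) : FiveFlex E A ∨ TightP E A := by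
  have hn := c.hn
  by_cases h4 : ((cross E A).filter fun e => z ∉ e).card ≤ 4
  · exact Or.inr ⟨z, hzA, hodd, h4⟩
  left
  push Not at h4
  obtain ⟨e, hei, he⟩ := exists_inj ((cross E A).filter fun e => z ∉ e) 5 h4
  have hab : ∀ j, ∃ a b, a ∈ A ∧ b ∉ A ∧ s(a, b) ∈ E ∧ b ≠ z ∧ e j = s(a, b) := by
    intro j
    have hj := he j
    rw [mem_filter] at hj
    generalize e j = x at hj
    induction x using Sym2.ind with
    | _ x y =>
      rw [mem_cross, Sym2.mem_iff] at hj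
      push Not at hj
      obtain ⟨⟨h1, h2⟩, h3, h4⟩ := hj
      by_cases hx : x ∈ A
      · exact ⟨x, y, hx, h2.1 hx, h1, fun e => h4 e.symm, rfl⟩
      · have hy : y ∈ A := by
          by_contra hy
          exact hx (h2.2 hy)
        exact ⟨y, x, hy, hx, by rw [Sym2.eq_swap]; exact h1, fun e => h3 e.symm, Sym2.eq_swap⟩
  choose a b ha hb habE hbz heab using hab
  -- the set of possible `a'`
  have hPz : (1 / 2 - 1 / 10 ^ 8) * (Fintype.card V : ℝ) - 8 - 6 / 1000 * (Fintype.card V : ℝ) ≤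
      ((nb E z ∩ A).card : ℝ) := by
    have h1 := c.one1 hz
    have h2 := c.cardAW
    have h3 := card_sdiff_ge (A \ W) (A3 E A W z)
    have h5 : (A \ W) \ A3 E A W z ⊆ nb E z ∩ A := by
      intro x hx
      have hxA := (mem_sdiff.1 (mem_sdiff.1 hx).1).1
      obtain ⟨y, hyA, hy⟩ := exCross_in c.set hxA
      have := c.one2 hx hyA hy
      subst this
      rw [mem_inter, mem_nb, Sym2.eq_swap]
      exact ⟨hy, hxA⟩
    have h6 : ((((A \ W) \ A3 E A W z).card : ℕ) : ℝ) ≤ ((nb E z ∩ A).card : ℝ) := by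
      exact_mod_cast card_le_card h5
    linarith
  have hX : ∀ j, 5 ≤ ((nb E z ∩ nb E (a j) ∩ A) \ univ.image a).card := by
    intro j
    have h1 := own_in' c.set (ha j)
    have h2 := card_sdiff_ge (nb E z ∩ nb E (a j) ∩ A) (univ.image a)
    have h3 : ((univ.image a).card : ℝ) ≤ 5 := by
      have : (univ.image a).card ≤ 5 := card_image_le.trans (by simp)
      exact_mod_cast this
    have h5 := card_inter_le' (nb E z) (nb E (a j)) A
    have h6 : ((A \ nb E (a j)).card : ℝ) ≤ 1 / 1000 * (Fintype.card V : ℝ) :=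
      sdiff_in c.set hn (ha j) (c.gen _ (ha j))
    have h7 : (5 : ℝ) ≤ (((nb E z ∩ nb E (a j) ∩ A) \ univ.image a).card : ℝ) := by linarith
    exact_mod_cast h7
  obtain ⟨a', ha'i, ha'⟩ := exists_sdr 5 _ hX
  have ha1 : ∀ j, s(a' j, z) ∈ E ∧ s(a j, a' j) ∈ E ∧ a' j ∈ A ∧ ∀ i, a i ≠ a' j := by
    intro j
    have := ha' j
    rw [mem_sdiff, mem_inter, mem_inter, mem_nb, mem_nb, mem_image] at this
    obtain ⟨⟨⟨h1, h2⟩, h3⟩, h4⟩ := this
    push Not at h4
    exact ⟨by rw [Sym2.eq_swap]; exact h1, h2, h3, fun i => h4 i (mem_univ _)⟩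
  have hcod : ∀ j, 1 / 50 * (Fintype.card V : ℝ) ≤ ((nb E (b j) ∩ nb E z ∩ Aᶜ).card : ℝ) := by
    intro j
    have h1 := own_out' c.set (hb j)
    have h2 := c.crossdeg hzA
    have h3 := card_compl_le c.set
    have h5 : (nb E (b j) ∩ Aᶜ).card + (nb E z ∩ Aᶜ).card ≤
        (Aᶜ).card + (nb E (b j) ∩ nb E z ∩ Aᶜ).card := by
      have t1 := card_union_add_card_inter (nb E (b j) ∩ Aᶜ) (nb E z ∩ Aᶜ)
      have t2 : ((nb E (b j) ∩ Aᶜ) ∪ (nb E z ∩ Aᶜ)).card ≤ (Aᶜ).card := by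
        apply card_le_card
        intro u
        simp only [mem_union, mem_inter]
        tauto
      have t3 : ((nb E (b j) ∩ Aᶜ) ∩ (nb E z ∩ Aᶜ)).card =
          (nb E (b j) ∩ nb E z ∩ Aᶜ).card := by
        congr 1
        ext u
        simp only [mem_inter]
        tauto
      omega
    have h6 : ((nb E (b j) ∩ Aᶜ).card : ℝ) + ((nb E z ∩ Aᶜ).card : ℝ) ≤
        ((Aᶜ).card : ℝ) + ((nb E (b j) ∩ nb E z ∩ Aᶜ).card : ℝ) := by exact_mod_cast h5
    linarith
  refine ⟨a, b, a', fun _ => z, ?_, ?_, ?_, ?_, ?_⟩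
  · intro j
    exact ⟨ha j, (ha1 j).2.2.1, hb j, hzA, habE j, (ha1 j).1, (ha1 j).2.1, hbz j,
      cod_in c.set hn (ha j) (ha1 j).2.2.1 (c.gen _ (ha1 j).2.2.1), hcod j⟩
  · intro i j hij
    apply hei
    rw [heab i, heab j]
    exact hij
  · intro i j hij
    rcases Sym2.eq_iff.1 hij with ⟨e, _⟩ | ⟨e, _⟩
    · exact ha'i e
    · exact absurd (ha1 i).2.2.1 (by rw [e]; exact hzA)
  · intro i j hij
    rcases Sym2.eq_iff.1 hij with ⟨e, _⟩ | ⟨e, _⟩
    · exact (ha1 j).2.2.2 i e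
    · exact absurd (ha i) (by rw [e]; exact hzA)
  · intro i j hij
    rcases Sym2.eq_iff.1 hij with ⟨_, e⟩ | ⟨e, _⟩
    · exact ha'i e
    · exact absurd e ((ha1 j).2.2.2 i)

end

end II2

open Finset II2 in
theorem caseII2 : S_II2 := by
  refine ⟨1 / 10 ^ 8, by positivity, 10 ^ 6, ?_⟩
  intro V _ _ E A hn h
  have hn' : (10 : ℝ) ^ 6 ≤ (Fintype.card V : ℝ) := by exact_mod_cast hn
  by_cases hF : FiveFlex E A
  · exact Or.inl hF
  obtain ⟨W, c⟩ := exists_ctx h hn' hF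
  by_cases h2 : ∃ z1 z2, z1 ∉ A ∧ z2 ∉ A ∧ z1 ≠ z2 ∧
      1 / 500 * (Fintype.card V : ℝ) < ((PW E A W z1).card : ℝ) ∧
      1 / 500 * (Fintype.card V : ℝ) < ((PW E A W z2).card : ℝ)
  · obtain ⟨z1, z2, hz1, hz2, hz, g1, g2⟩ := h2
    exact Or.inl (c.two4 hz1 hz2 hz g1 g2)
  · push Not at h2
    have hz : ∃ z, z ∉ A ∧ ∀ b, b ∉ A → b ≠ z →
        ((PW E A W b).card : ℝ) ≤ 1 / 500 * (Fintype.card V : ℝ) := by
      by_cases h1 : ∃ z, z ∉ A ∧ 1 / 500 * (Fintype.card V : ℝ) < ((PW E A W z).card : ℝ)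
      · obtain ⟨z, hzA, hz⟩ := h1
        exact ⟨z, hzA, fun b hb hbz => h2 z b hzA hb (fun e => hbz e.symm) hz⟩
      · push Not at h1
        have hne : 0 < (Aᶜ).card := by
          have h5 : (A.card : ℝ) ≤ ((Aᶜ).card : ℝ) := by exact_mod_cast h.le
          have h6 := h.low
          have : (0 : ℝ) < ((Aᶜ).card : ℝ) := by linarith
          exact_mod_cast this
        obtain ⟨z, hz⟩ := card_pos.1 hne
        exact ⟨z, mem_compl.1 hz, fun b hb _ => h1 b hb⟩
    obtain ⟨z, hzA, hz⟩ := hz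
    have h3 := c.one3 hz
    have h4 := two_card_le h
    by_cases hev : Fintype.card V = 2 * A.card
    · exact Or.inl (c.one4 hz hev)
    · exact c.one5 hzA hz (by omega)

end Pool.Agent.H483C6
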