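import Pool.Agent.H483C6.CIIIe

/-!
# Case III: graphs containing a nearly complete balanced bipartite graph (helper930)
-/

set_option autoImplicit false
set_option linter.unusedSectionVars false

namespace Pool.Agent.H483C6

open Finset

namespace CIII

variable {V : Type} [Fintype V] [DecidableEq V]

/-- the bad vertices of one side -/
theorem bad_side {C : Finset (Sym2 V)} {A : Finset V} (h : Bip C A)
    (hn : 0 < Fintype.card V)
    (hm : (A.card : ℝ) * (Aᶜ.card : ℝ) - 1 / 80000000000000 * (Fintype.card V : ℝ) ^ 2 ≤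
      (C.card : ℝ)) :
    ((A.filter fun v => (dg C v : ℝ) < (Aᶜ.card : ℝ) - 1 / 20000 * (Fintype.card V : ℝ)).card : ℝ) ≤
      1 / 4000000000 * (Fintype.card V : ℝ) := by
  have hnR : (0 : ℝ) < (Fintype.card V : ℝ) := by exact_mod_cast hn
  have e1 := few h (t := 1 / 20000 * (Fintype.card V : ℝ))
  have e2 : ((A.filter fun v => (dg C v : ℝ) <
      (Aᶜ.card : ℝ) - 1 / 20000 * (Fintype.card V : ℝ)).card : ℝ) *
      (1 / 20000 * (Fintype.card V : ℝ)) ≤
      (1 / 4000000000 * (Fintype.card V : ℝ)) * (1 / 20000 * (Fintype.card V : ℝ)) := by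
    refine e1.trans ?_
    nlinarith
  exact le_of_mul_le_mul_right e2 (by linarith)

theorem step2 {n1 N0 : ℕ}
    (hK : ∀ (V : Type) [Fintype V] [DecidableEq V] (E : Finset (Sym2 V)) (A : Finset V),
      n1 ≤ Fintype.card V → NearKK E A (1 / 1000) → Div6 E → Dec E)
    (hH : ∀ (V : Type) [Fintype V] [DecidableEq V]
      (S : Finset V) (D : Finset (Sym2 V)), Loopless D → D ⊆ S.sym2 → N0 ≤ S.card →
      (1 / 1600000000 : ℝ) * (S.card : ℝ) ^ 2 ≤ (D.card : ℝ) → ∃ T ⊆ D, IsHex T)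
    {E : Finset (Sym2 V)} {A : Finset V} (hn1 : n1 ≤ Fintype.card V)
    (hn2 : 4 * N0 ≤ Fintype.card V) (hn3 : 10000000 ≤ Fintype.card V)
    (h : SetIII E A (1 / 80000000000000)) : Dec E := by
  classical
  set n : ℝ := (Fintype.card V : ℝ) with hnn
  have hnR : (10000000 : ℝ) ≤ n := by rw [hnn]; exact_mod_cast hn3
  have hl := h.div.loopless
  have hlow := h.low
  have hlow' := h.low'
  rw [← hnn] at hlow hlow'
  set Cr := cross E A with hCr
  have hbip : Bip Cr A := bip_cross E A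
  set WA := A.filter fun v => (dg Cr v : ℝ) < (Aᶜ.card : ℝ) - 1 / 20000 * n with hWA
  set WB := Aᶜ.filter fun v => (dg Cr v : ℝ) < (A.card : ℝ) - 1 / 20000 * n with hWB
  have hWAc : (WA.card : ℝ) ≤ 1 / 4000000000 * n := bad_side hbip (by omega) h.many
  have hWBc : (WB.card : ℝ) ≤ 1 / 4000000000 * n := by
    have e1 := bad_side hbip.symm (by omega) (by
      rw [compl_compl, mul_comm]
      exact h.many)
    rw [compl_compl] at e1
    exact e1
  set W := WA ∪ WB with hW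
  have hWc : (W.card : ℝ) ≤ 1 / 2000000000 * n := by
    have e1 : (W.card : ℝ) ≤ (WA.card : ℝ) + (WB.card : ℝ) := by exact_mod_cast card_union_le _ _
    linarith
  have hgen : ∀ v, v ∉ W → v ∈ A → (Aᶜ.card : ℝ) - 1 / 20000 * n ≤ (dg Cr v : ℝ) := by
    intro v hv hvA
    by_contra hcon
    exact hv (mem_union_left _ (mem_filter.2 ⟨hvA, not_le.1 hcon⟩))
  have hgen' : ∀ v, v ∉ W → v ∉ A → (A.card : ℝ) - 1 / 20000 * n ≤ (dg Cr v : ℝ) := by
    intro v hv hvA
    by_contra hcon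
    exact hv (mem_union_right _ (mem_filter.2 ⟨mem_compl.2 hvA, not_le.1 hcon⟩))
  have hBp0 : Bp Cr A W (1 / 20000) := by
    refine ⟨hbip, ?_, ?_, ?_, ?_, ?_, ?_⟩
    · intro v
      have := h.own v
      rw [← hnn] at this ⊢
      linarith
    · intro v hv hvA
      have := hgen v hv hvA
      rw [← hnn]
      linarith
    · intro v hv hvA
      have := hgen' v hv hvA
      rw [← hnn]
      linarith
    · rw [← hnn]; linarith
    · rw [← hnn]; linarith
    · rw [← hnn]; linarith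
  obtain ⟨D0, hD0E, hD0, hD0d, hpA, hpB⟩ := parity h.div h.deg hBp0 (by norm_num) (by omega)
  set E1 := E \ D0 with hE1
  have hE1E : E1 ⊆ E := sdiff_subset
  have hl1 : Loopless E1 := hl.mono hE1E
  set C := cross E1 A with hC
  have hD0d' : ∀ v, (dg D0 v : ℝ) ≤ 2 := fun v => by exact_mod_cast hD0d v
  have hCd : ∀ v, (dg Cr v : ℝ) - 2 ≤ (dg C v : ℝ) := by
    intro v
    have e1 : Cr ⊆ C ∪ D0 := by
      intro e he
      rw [mem_union]
      by_cases h0 : e ∈ D0
      · exact Or.inr h0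
      · left
        rw [hC, cross, mem_filter]
        rw [hCr, cross, mem_filter] at he
        exact ⟨mem_sdiff.2 ⟨he.1, h0⟩, he.2⟩
    have e2 := (dg_mono e1 v).trans (dg_union_le C D0 v)
    have e3 : (dg Cr v : ℝ) ≤ (dg C v : ℝ) + (dg D0 v : ℝ) := by exact_mod_cast e2
    have := hD0d' v
    linarith
  have hCCr : C ⊆ Cr := by
    intro e he
    rw [hC, cross, mem_filter] at he
    rw [hCr, cross, mem_filter]
    exact ⟨hE1E he.1, he.2⟩
  have hBp : Bp C A W (1 / 20000) := by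
    refine ⟨bip_cross E1 A, ?_, ?_, ?_, ?_, ?_, ?_⟩
    · intro v
      have e1 := h.own v
      have e2 := hCd v
      rw [← hnn] at e1 ⊢
      linarith
    · intro v hv hvA
      have := hgen v hv hvA
      have := hCd v
      rw [← hnn]
      linarith
    · intro v hv hvA
      have := hgen' v hv hvA
      have := hCd v
      rw [← hnn]
      linarith
    · rw [← hnn]; linarith
    · rw [← hnn]; linarith
    · rw [← hnn]; linarith
  -- packings inside the two sides
  have hside_card : ∀ B : Finset V, 1 / 3 * n ≤ (B.card : ℝ) → N0 ≤ (B \ W).card := by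
    intro B hB
    have e1 := le_card_sdiff W B
    have e2 : (B.card : ℝ) ≤ ((B \ W).card : ℝ) + (W.card : ℝ) := by
      exact_mod_cast (by omega : B.card ≤ (B \ W).card + W.card)
    have e3 : (4 : ℝ) * (N0 : ℝ) ≤ n := by
      rw [hnn]; exact_mod_cast hn2
    have e4 : (N0 : ℝ) ≤ ((B \ W).card : ℝ) := by linarith
    exact_mod_cast e4
  have hA3 : 1 / 3 * n ≤ (A.card : ℝ) := by linarith
  have hB3 : 1 / 3 * n ≤ (Aᶜ.card : ℝ) := by linarith
  obtain ⟨KA, hKA, hKAd, hKAc⟩ := pack (by norm_num) hH (A \ W) (E1 ∩ (A \ W).sym2)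
    (hl1.mono inter_subset_left) inter_subset_right (hside_card A hA3)
  obtain ⟨KB, hKB, hKBd, hKBc⟩ := pack (by norm_num) hH (Aᶜ \ W) (E1 ∩ (Aᶜ \ W).sym2)
    (hl1.mono inter_subset_left) inter_subset_right (hside_card Aᶜ hB3)
  rw [← hnn] at hKAc hKBc
  have hKA1 : KA ⊆ E1 ∩ A.sym2 := fun e he => by
    have := mem_inter.1 (hKA he)
    exact mem_inter.2 ⟨this.1, sym2_mono sdiff_subset this.2⟩
  have hKB1 : KB ⊆ E1 ∩ Aᶜ.sym2 := fun e he => by
    have := mem_inter.1 (hKB he)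
    exact mem_inter.2 ⟨this.1, sym2_mono sdiff_subset this.2⟩
  have hKW : ∀ v ∈ W, dg KA v = 0 ∧ dg KB v = 0 := by
    intro v hv
    constructor
    · exact dg_eq_zero_of_notMem (S := A \ W) (hKA.trans inter_subset_right)
        (fun h => (mem_sdiff.1 h).2 hv)
    · exact dg_eq_zero_of_notMem (S := Aᶜ \ W) (hKB.trans inter_subset_right)
        (fun h => (mem_sdiff.1 h).2 hv)
  set IA := (E1 ∩ A.sym2) \ KA with hIA
  set IB := (E1 ∩ Aᶜ.sym2) \ KB with hIB
  set I := IA ∪ IB with hI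
  have hIA1 : IA ⊆ E1 ∩ A.sym2 := sdiff_subset
  have hIB1 : IB ⊆ E1 ∩ Aᶜ.sym2 := sdiff_subset
  have hIE : I ⊆ E1 := union_subset (hIA1.trans inter_subset_left) (hIB1.trans inter_subset_left)
  have hside : ∀ u v, s(u, v) ∈ I → (u ∈ A ↔ v ∈ A) := by
    intro u v huv
    rcases mem_union.1 huv with h1 | h1
    · have := mk_mem_sym2_iff.1 (mem_inter.1 (hIA1 h1)).2
      tauto
    · have := mk_mem_sym2_iff.1 (mem_inter.1 (hIB1 h1)).2
      rw [mem_compl, mem_compl] at this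
      tauto
  have hdisjAB : Disjoint (E1 ∩ A.sym2) (E1 ∩ Aᶜ.sym2) :=
    (disj_sym2 A).mono inter_subset_right inter_subset_right
  have hIAA : I ∩ A.sym2 = IA := by
    ext e
    rw [mem_inter, hI, mem_union]
    constructor
    · rintro ⟨h1 | h1, h2⟩
      · exact h1
      · exact absurd (mem_inter.1 (hIB1 h1)).2 (disjoint_left.1 (disj_sym2 A) h2)
    · intro h1
      exact ⟨Or.inl h1, (mem_inter.1 (hIA1 h1)).2⟩
  have hIBB : I ∩ Aᶜ.sym2 = IB := by
    ext e
    rw [mem_inter, hI, mem_union]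
    constructor
    · rintro ⟨h1 | h1, h2⟩
      · exact absurd h2 (disjoint_left.1 (disj_sym2 A) (mem_inter.1 (hIA1 h1)).2)
      · exact h1
    · intro h1
      exact ⟨Or.inr h1, (mem_inter.1 (hIB1 h1)).2⟩
  have hev : Even (I ∩ A.sym2).card := by
    rw [hIAA, hIA, card_sdiff_of_subset hKA1]
    obtain ⟨a, ha⟩ := hKAd.six
    obtain ⟨b, hb⟩ := hpA
    exact ⟨b - 3 * a, by omega⟩
  have hev' : Even (I ∩ Aᶜ.sym2).card := by
    rw [hIBB, hIB, card_sdiff_of_subset hKB1]
    obtain ⟨a, ha⟩ := hKBd.six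
    obtain ⟨b, hb⟩ := hpB
    exact ⟨b - 3 * a, by omega⟩
  -- degrees
  have hdgs : ∀ v, dg E1 v = dg C v + (dg I v + (dg KA v + dg KB v)) := by
    intro v
    have e1 : dg E1 v = dg C v + (dg (E1 ∩ A.sym2) v + dg (E1 ∩ Aᶜ.sym2) v) := by
      conv_lhs => rw [split E1 A]
      rw [dg_union (disj_cross E1 E1 A), dg_union hdisjAB]
    have e2 : dg IA v + dg KA v = dg (E1 ∩ A.sym2) v := dg_sdiff_add hKA1 v
    have e3 : dg IB v + dg KB v = dg (E1 ∩ Aᶜ.sym2) v := dg_sdiff_add hKB1 v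
    have e4 : dg I v = dg IA v + dg IB v := dg_union (hdisjAB.mono hIA1 hIB1) v
    omega
  have hdE1 : ∀ v, dg E v ≤ dg E1 v + 2 := by
    intro v
    have e1 := dg_sdiff_add hD0E v
    have e2 := hD0d v
    rw [← hE1] at e1
    omega
  have hbad : ∀ v ∈ W, (dg Cr v : ℝ) ≤ 1 / 2 * n + 1 / 80000000000000 * n - 1 / 20000 * n := by
    intro v hv
    have hsum : (A.card : ℝ) + (Aᶜ.card : ℝ) = n := by
      rw [hnn]
      exact_mod_cast card_add_card_compl A
    rcases mem_union.1 hv with h1 | h1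
    · have := (mem_filter.1 h1).2
      linarith
    · have := (mem_filter.1 h1).2
      linarith
  have hWd : ∀ v ∈ W, 2 * W.card ≤ dg I v := by
    intro v hv
    obtain ⟨k1, k2⟩ := hKW v hv
    have e1 := hdgs v
    have e2 := hdE1 v
    have e3 := h.deg v
    have e4 : n ≤ 2 * ((dg C v : ℝ) + (dg I v : ℝ) + 2) + 1 := by
      rw [hnn]
      exact_mod_cast (by omega : Fintype.card V ≤ 2 * (dg C v + dg I v + 2) + 1)
    have e5 : (dg C v : ℝ) ≤ (dg Cr v : ℝ) := by exact_mod_cast dg_mono hCCr v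
    have e6 := hbad v hv
    have e7 : 2 * (W.card : ℝ) ≤ (dg I v : ℝ) := by linarith
    exact_mod_cast e7
  -- the number of inside edges
  have hIc : (I.card : ℝ) ≤ 2 * (1 / 20000 : ℝ) ^ 2 * n ^ 2 := by
    have e1 : I ⊆ (((E1 ∩ (A \ W).sym2) \ KA) ∪ ((E1 ∩ (Aᶜ \ W).sym2) \ KB)) ∪
        E1.filter (fun e => ∃ w ∈ W, w ∈ e) := by
      intro e he
      rw [mem_union, mem_union, mem_filter]
      by_cases hw : ∃ w ∈ W, w ∈ e
      · exact Or.inr ⟨hIE he, hw⟩
      · left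
        rcases mem_union.1 he with h1 | h1
        · left
          rw [hIA, mem_sdiff, mem_inter] at h1
          rw [mem_sdiff, mem_inter]
          refine ⟨⟨h1.1.1, ?_⟩, h1.2⟩
          rw [mem_sym2_iff]
          intro x hx
          exact mem_sdiff.2 ⟨mem_sym2_iff.1 h1.1.2 x hx, fun h => hw ⟨x, h, hx⟩⟩
        · right
          rw [hIB, mem_sdiff, mem_inter] at h1
          rw [mem_sdiff, mem_inter]
          refine ⟨⟨h1.1.1, ?_⟩, h1.2⟩
          rw [mem_sym2_iff]
          intro x hx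
          exact mem_sdiff.2 ⟨mem_sym2_iff.1 h1.1.2 x hx, fun h => hw ⟨x, h, hx⟩⟩
    have e2 : (E1.filter (fun e => ∃ w ∈ W, w ∈ e)).card ≤ W.card * Fintype.card V :=
      touch_card fun e he => (mem_filter.1 he).2
    have e3 := card_le_card e1
    have e4 := card_union_le (((E1 ∩ (A \ W).sym2) \ KA) ∪ ((E1 ∩ (Aᶜ \ W).sym2) \ KB))
      (E1.filter (fun e => ∃ w ∈ W, w ∈ e))
    have e5 := card_union_le ((E1 ∩ (A \ W).sym2) \ KA) ((E1 ∩ (Aᶜ \ W).sym2) \ KB)
    have e6 : (I.card : ℝ) ≤ (((E1 ∩ (A \ W).sym2) \ KA).card : ℝ) +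
        (((E1 ∩ (Aᶜ \ W).sym2) \ KB).card : ℝ) + (W.card : ℝ) * n := by
      rw [hnn]
      exact_mod_cast (by omega : I.card ≤ ((E1 ∩ (A \ W).sym2) \ KA).card +
        ((E1 ∩ (Aᶜ \ W).sym2) \ KB).card + W.card * Fintype.card V)
    have e7 : (W.card : ℝ) * n ≤ 1 / 2000000000 * n * n :=
      mul_le_mul_of_nonneg_right hWc (by linarith)
    nlinarith
  obtain ⟨U, hUC, hUd, hUdg⟩ := cover hBp (by norm_num) (by norm_num) (by omega) (by
    rw [← hnn]; linarith) (hl1.mono hIE) hside hWd hev hev' hIc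
  rw [← hnn] at hUdg
  -- the covered part
  have mC : ∀ e, e ∈ C ↔ (e ∈ E ∧ e ∉ D0) ∧ e ∉ A.sym2 ∧ e ∉ Aᶜ.sym2 := fun e => by
    rw [hC, cross, mem_filter, hE1, mem_sdiff]
  have mI : ∀ e, e ∈ I ↔ ((e ∈ E ∧ e ∉ D0) ∧ e ∈ A.sym2) ∧ e ∉ KA ∨
      ((e ∈ E ∧ e ∉ D0) ∧ e ∈ Aᶜ.sym2) ∧ e ∉ KB := fun e => by
    rw [hI, mem_union, hIA, hIB, mem_sdiff, mem_sdiff, mem_inter, mem_inter, hE1, mem_sdiff]
  have mKA : ∀ e, e ∈ KA → (e ∈ E ∧ e ∉ D0) ∧ e ∈ A.sym2 := fun e he => by
    have h1 := hKA1 he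
    rw [mem_inter, hE1, mem_sdiff] at h1
    exact h1
  have mKB : ∀ e, e ∈ KB → (e ∈ E ∧ e ∉ D0) ∧ e ∈ Aᶜ.sym2 := fun e he => by
    have h1 := hKB1 he
    rw [mem_inter, hE1, mem_sdiff] at h1
    exact h1
  obtain ⟨hRE, hd1, hd2, hd3, hER⟩ := asm (fun e he => hD0E he)
    (fun e he => disjoint_left.1 (disj_sym2 A) he) mKA mKB mI mC (fun e he => hUC he)
  have hRd : Dec (D0 ∪ (KA ∪ (KB ∪ (I ∪ U)))) :=
    hD0.union (hKAd.union (hKBd.union hUd hd1) hd2) hd3
  have hdiv : Div6 (C \ U) := by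
    rw [← hER]
    exact h.div.sdiff hRd.div6 hRE
  have hdCU : ∀ v, (dg C v : ℝ) - 8 * (1 / 20000) * n ≤ (dg (C \ U) v : ℝ) := by
    intro v
    have e1 := dg_sdiff_add hUC v
    have e2 : (dg (C \ U) v : ℝ) + (dg U v : ℝ) = (dg C v : ℝ) := by exact_mod_cast e1
    have := hUdg v
    linarith
  have hnear : NearKK (C \ U) A (1 / 1000) := by
    refine ⟨?_, ?_, ?_, ?_, ?_, ?_⟩
    · intro e he
      exact ((mC e).1 (mem_sdiff.1 he).1).2
    · rw [← hnn]; linarith
    · rw [← hnn]; linarith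
    · intro v
      have e1 := h.own v
      have e2 := hCd v
      have e3 := hdCU v
      rw [← hnn] at e1 ⊢
      linarith
    · have e1 : (A.filter fun v => (dg (C \ U) v : ℝ) < (Aᶜ.card : ℝ) - 1 / 1000 * n) ⊆ W := by
        intro v hv
        rw [mem_filter] at hv
        by_contra hvW
        have e1 := hgen v hvW hv.1
        have e2 := hCd v
        have e3 := hdCU v
        have e4 := hv.2
        linarith
      have e2 : ((A.filter fun v => (dg (C \ U) v : ℝ) < (Aᶜ.card : ℝ) - 1 / 1000 * n).card : ℝ) ≤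
          (W.card : ℝ) := by exact_mod_cast card_le_card e1
      rw [← hnn]
      linarith
    · have e1 : (Aᶜ.filter fun v => (dg (C \ U) v : ℝ) < (A.card : ℝ) - 1 / 1000 * n) ⊆ W := by
        intro v hv
        rw [mem_filter, mem_compl] at hv
        by_contra hvW
        have e1 := hgen' v hvW hv.1
        have e2 := hCd v
        have e3 := hdCU v
        have e4 := hv.2
        linarith
      have e2 : ((Aᶜ.filter fun v => (dg (C \ U) v : ℝ) < (A.card : ℝ) - 1 / 1000 * n).card : ℝ) ≤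
          (W.card : ℝ) := by exact_mod_cast card_le_card e1
      rw [← hnn]
      linarith
  have hfin : Dec (C \ U) := hK V (C \ U) A hn1 hnear hdiv
  rw [← hER] at hfin
  have := hfin.union hRd sdiff_disjoint
  rwa [sdiff_union_of_subset hRE] at this

end CIII

/-- Case III -/
theorem caseIII (hK : S_nearKK) (hH : S_hex) : S_caseIII := by
  obtain ⟨n1, hK⟩ := hK
  obtain ⟨N0, hH⟩ := hH (1 / 1600000000) (by norm_num)
  refine ⟨1 / 800000000000000, by norm_num, n1 + 4 * N0 + 10000000, ?_⟩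
  intro V _ _ E A hn hdeg hdiv hlow hlow' hmany
  obtain ⟨A', hA'⟩ := CIII.step0 (E := E) (A := A) (ε := 1 / 800000000000000) (by norm_num)
    (by norm_num) (by omega) hdeg hdiv hlow hlow' hmany
  have e : (10 * (1 / 800000000000000) : ℝ) = 1 / 80000000000000 := by norm_num
  rw [e] at hA'
  exact CIII.step2 hK hH (by omega) (by omega) (by omega) hA'

end Pool.Agent.H483C6
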