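import Pool.Agent.H483C6.Stmts
import Pool.Agent.H162R2.AG.R

/-!
# One sampling step (MP_1bffa4_co, job C6-step)

The Chernoff lemma `Pool.Agent.H162R2.AG.R` gives a random subset `U` of `Y` of density `p` that
meets a polynomially large family of subsets of `Y` in about the right number of elements; the
property `P3` is inherited by `U` and by `Y \ U`.
-/

set_option autoImplicit false

namespace Pool.Agent.H483C6.Step

open Finset

theorem err_bound (c0 y K n : ℝ) (hc0 : 1 ≤ c0) (hK : 1 ≤ K) (hy : (6 * c0 * K) ^ 8 ≤ y)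
    (hn : n = y * K) (m : ℝ) (hm0 : 0 ≤ m) (hm : m ≤ y) :
    c0 * √(m * Real.log n) + c0 * Real.log n ≤ y ^ (3 / 4 : ℝ) := by
  have h6 : 1 ≤ 6 * c0 * K := by nlinarith
  have hy1 : 1 ≤ y := le_trans (one_le_pow₀ h6) hy
  have hy0 : 0 < y := by linarith
  set t : ℝ := y ^ (1 / 8 : ℝ) with ht
  have ht8 : t ^ 8 = y := by
    rw [ht, ← Real.rpow_natCast, ← Real.rpow_mul hy0.le]
    norm_num
  have ht6 : t ^ 6 = y ^ (3 / 4 : ℝ) := by
    rw [ht, ← Real.rpow_natCast, ← Real.rpow_mul hy0.le]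
    norm_num
  have ht2 : t ^ 2 = y ^ (1 / 4 : ℝ) := by
    rw [ht, ← Real.rpow_natCast, ← Real.rpow_mul hy0.le]
    norm_num
  have ht0 : 0 ≤ t := Real.rpow_nonneg hy0.le _
  have htK : 6 * c0 * K ≤ t := by
    have h : (6 * c0 * K) ^ 8 ≤ t ^ 8 := by rw [ht8]; exact hy
    exact le_of_pow_le_pow_left₀ (by norm_num) ht0 h
  have ht1 : 1 ≤ t := le_trans h6 htK
  have hlog0 : 0 ≤ Real.log n := by
    apply Real.log_nonneg
    rw [hn]
    nlinarith
  have hlog : Real.log n ≤ 4 * K * t ^ 2 := by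
    have h1 : Real.log n ≤ n ^ (1 / 4 : ℝ) / (1 / 4) :=
      Real.log_le_rpow_div (by rw [hn]; positivity) (by norm_num)
    have h2 : n ^ (1 / 4 : ℝ) = y ^ (1 / 4 : ℝ) * K ^ (1 / 4 : ℝ) := by
      rw [hn, Real.mul_rpow hy0.le (by linarith)]
    have h3 : K ^ (1 / 4 : ℝ) ≤ K := by
      calc K ^ (1 / 4 : ℝ) ≤ K ^ (1 : ℝ) := Real.rpow_le_rpow_of_exponent_le hK (by norm_num)
        _ = K := Real.rpow_one K
    rw [h2, ← ht2] at h1
    have h4 : t ^ 2 * K ^ (1 / 4 : ℝ) ≤ t ^ 2 * K := mul_le_mul_of_nonneg_left h3 (by positivity)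
    linarith
  have hsq : √(m * Real.log n) ≤ 2 * K * t ^ 5 := by
    apply Real.sqrt_le_iff.2
    refine ⟨by positivity, ?_⟩
    have h1 : m * Real.log n ≤ t ^ 8 * (4 * K * t ^ 2) := by
      apply mul_le_mul (by rw [ht8]; exact hm) hlog hlog0 (by positivity)
    have h2 : t ^ 8 * (4 * K * t ^ 2) ≤ (2 * K * t ^ 5) ^ 2 := by
      have h3 : (2 * K * t ^ 5) ^ 2 - t ^ 8 * (4 * K * t ^ 2) = 4 * t ^ 10 * (K * (K - 1)) := by
        ring
      have h4 : 0 ≤ 4 * t ^ 10 * (K * (K - 1)) := by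
        apply mul_nonneg (by positivity)
        apply mul_nonneg (by linarith) (by linarith)
      linarith
    linarith
  have hc : 0 ≤ c0 := by linarith
  calc c0 * √(m * Real.log n) + c0 * Real.log n
      ≤ c0 * (2 * K * t ^ 5) + c0 * (4 * K * t ^ 2) :=
        add_le_add (mul_le_mul_of_nonneg_left hsq hc) (mul_le_mul_of_nonneg_left hlog hc)
    _ ≤ c0 * (2 * K * t ^ 5) + c0 * (4 * K * t ^ 5) := by
        have h1 : t ^ 2 ≤ t ^ 5 := pow_le_pow_right₀ ht1 (by norm_num)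
        have h2 : c0 * (4 * K * t ^ 2) ≤ c0 * (4 * K * t ^ 5) := by
          apply mul_le_mul_of_nonneg_left _ hc
          apply mul_le_mul_of_nonneg_left h1 (by linarith)
        linarith
    _ = (6 * c0 * K) * t ^ 5 := by ring
    _ ≤ t * t ^ 5 := mul_le_mul_of_nonneg_right htK (by positivity)
    _ = t ^ 6 := by ring
    _ = y ^ (3 / 4 : ℝ) := ht6

theorem sample (C : ℝ) (hC : 1 ≤ C) : ∃ m1 : ℕ, ∀ (V : Type) [Fintype V] [DecidableEq V]
    (Y : Finset V) (p : ℝ), m1 ≤ Y.card → 0 ≤ p → p ≤ 1 → ∀ 𝓛 : Finset (Finset V),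
      (∀ S ∈ 𝓛, S ⊆ Y) → (𝓛.card : ℝ) ≤ 3 * C ^ 2 * (Y.card : ℝ) ^ 2 →
      ∃ U ⊆ Y, ∀ S ∈ 𝓛, |((S ∩ U).card : ℝ) - p * S.card| ≤ (Y.card : ℝ) ^ (3 / 4 : ℝ) := by
  obtain ⟨c0, hc0, hR⟩ := Pool.Agent.H162R2.AG.R
  set K : ℕ := ⌈2 * C⌉₊ with hKdef
  have hK2 : 2 * C ≤ (K : ℝ) := Nat.le_ceil _
  have hK1 : (1 : ℝ) ≤ K := by linarith
  have hK2' : 2 ≤ K := by
    have : (2 : ℝ) ≤ K := by linarith
    exact_mod_cast this
  refine ⟨⌈(6 * c0 * K) ^ 8⌉₊ + 1, ?_⟩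
  intro V _ _ Y p hY hp0 hp1 𝓛 h𝓛 hcard
  have hy : (6 * c0 * K) ^ 8 ≤ (Y.card : ℝ) := by
    have h1 : (6 * c0 * (K : ℝ)) ^ 8 ≤ (⌈(6 * c0 * (K : ℝ)) ^ 8⌉₊ : ℝ) := Nat.le_ceil _
    have h2 : (⌈(6 * c0 * (K : ℝ)) ^ 8⌉₊ : ℝ) ≤ (Y.card : ℝ) := by exact_mod_cast (by omega)
    linarith
  have hYpos : 1 ≤ Y.card := by omega
  set n : ℕ := Y.card * K with hn
  have hn2 : 2 ≤ n := by rw [hn]; nlinarith
  have hcard' : 𝓛.card ≤ n * n := by
    have h1 : (𝓛.card : ℝ) ≤ (n : ℝ) * n := by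
      rw [hn]
      push_cast
      have h2 : 3 * C ^ 2 ≤ (K : ℝ) * K := by nlinarith
      have h3 : 3 * C ^ 2 * (Y.card : ℝ) ^ 2 ≤ (K : ℝ) * K * (Y.card : ℝ) ^ 2 :=
        mul_le_mul_of_nonneg_right h2 (by positivity)
      nlinarith
    exact_mod_cast h1
  classical
  let ι : V ↪ ℕ := ((Fintype.equivFin V).toEmbedding).trans Fin.valEmbedding
  let L : Fin n → Fin n → Finset ℕ := fun v w =>
    if h : (finProdFinEquiv (v, w)).1 < 𝓛.card then
      ((𝓛.equivFin.symm ⟨(finProdFinEquiv (v, w)).1, h⟩).1).map ι else ∅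
  obtain ⟨R, hR'⟩ := hR n hn2 p hp0 hp1 L
  refine ⟨Y.filter fun x => ι x ∈ R, filter_subset _ _, ?_⟩
  intro S hS
  -- find the index of `S`
  let k : Fin 𝓛.card := 𝓛.equivFin ⟨S, hS⟩
  have hk : k.1 < n * n := lt_of_lt_of_le k.2 hcard'
  obtain ⟨vw, hvw⟩ := finProdFinEquiv.surjective (⟨k.1, hk⟩ : Fin (n * n))
  have hLS : L vw.1 vw.2 = S.map ι := by
    have h1 : (finProdFinEquiv (vw.1, vw.2)).1 = k.1 := by
      rw [Prod.mk.eta, hvw]
    have h2 : (finProdFinEquiv (vw.1, vw.2)).1 < 𝓛.card := by rw [h1]; exact k.2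
    show (if h : (finProdFinEquiv (vw.1, vw.2)).1 < 𝓛.card then
      ((𝓛.equivFin.symm ⟨(finProdFinEquiv (vw.1, vw.2)).1, h⟩).1).map ι else ∅) = S.map ι
    rw [dif_pos h2]
    have h3 : (⟨(finProdFinEquiv (vw.1, vw.2)).1, h2⟩ : Fin 𝓛.card) = k := Fin.ext h1
    rw [h3]
    show ((𝓛.equivFin.symm (𝓛.equivFin ⟨S, hS⟩)).1).map ι = S.map ι
    rw [Equiv.symm_apply_apply]
  have hmain := hR' vw.1 vw.2
  rw [hLS] at hmain
  have hc1 : (S.map ι ∩ R).card = (S ∩ Y.filter fun x => ι x ∈ R).card := by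
    have : S.map ι ∩ R = (S ∩ Y.filter fun x => ι x ∈ R).map ι := by
      ext z
      simp only [mem_inter, mem_map, mem_filter]
      constructor
      · rintro ⟨⟨x, hx, rfl⟩, hz⟩
        exact ⟨x, ⟨hx, h𝓛 S hS hx, hz⟩, rfl⟩
      · rintro ⟨x, ⟨hx, _, hz⟩, rfl⟩
        exact ⟨⟨x, hx, rfl⟩, hz⟩
    rw [this, card_map]
  rw [hc1, card_map] at hmain
  refine hmain.trans ?_
  have hSY : (S.card : ℝ) ≤ Y.card := by exact_mod_cast card_le_card (h𝓛 S hS)
  apply err_bound c0 (Y.card : ℝ) (K : ℝ) (n : ℝ) hc0 hK1 hy (by rw [hn]; push_cast; ring)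
    (p * S.card) (by positivity)
  have : p * (S.card : ℝ) ≤ 1 * (S.card : ℝ) := mul_le_mul_of_nonneg_right hp1 (by positivity)
  linarith

section

variable {V : Type} [DecidableEq V]

/-- the robust neighbours of `u` on the way to `v` -/
noncomputable def Aset (E : Finset (Sym2 V)) (Y : Finset V) (g : ℝ) (u v : V) : Finset V :=
  Y.filter fun a => s(u, a) ∈ E ∧
      g * (Y.card : ℝ) ≤ ((Y.filter fun b => s(a, b) ∈ E ∧ s(b, v) ∈ E).card : ℝ)

/-- the common neighbours in `Y` -/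
def Nset (E : Finset (Sym2 V)) (Y : Finset V) (a v : V) : Finset V :=
  Y.filter fun b => s(a, b) ∈ E ∧ s(b, v) ∈ E

theorem P3_of (E : Finset (Sym2 V)) (X Y W : Finset V) (g p q s : ℝ) (hp : 0 < p) (hpq : p ≤ q)
    (hg1 : g ≤ 1) (hY : 1 ≤ Y.card)
    (hs : s = (Y.card : ℝ) ^ (3 / 4 : ℝ)) (hWY : W ⊆ Y) (hP : P3 E g X Y)
    (hW : (W.card : ℝ) ≤ q * Y.card + s)
    (hA : ∀ u ∈ X, ∀ v ∈ X, q * ((Aset E Y g u v).card : ℝ) - s ≤ ((Aset E Y g u v ∩ W).card : ℝ))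
    (hN : ∀ a ∈ Y, ∀ v ∈ X, q * ((Nset E Y a v).card : ℝ) - s ≤ ((Nset E Y a v ∩ W).card : ℝ)) :
    P3 E (g - 2 / p * (Y.card : ℝ) ^ (-(1 / 4) : ℝ)) X W := by
  intro u hu v hv hw
  set g' : ℝ := g - 2 / p * (Y.card : ℝ) ^ (-(1 / 4) : ℝ) with hg'
  have hy0 : (0 : ℝ) < Y.card := by exact_mod_cast hY
  have hq : 0 < q := lt_of_lt_of_le hp hpq
  by_cases hneg : g' < 0
  · have h1 : g' * (W.card : ℝ) ≤ 0 := mul_nonpos_of_nonpos_of_nonneg hneg.le (Nat.cast_nonneg _)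
    exact h1.trans (Nat.cast_nonneg _)
  push Not at hneg
  have hs0 : 0 ≤ s := by rw [hs]; exact Real.rpow_nonneg hy0.le _
  have hprod : (Y.card : ℝ) ^ (-(1 / 4) : ℝ) * Y.card = s := by
    rw [hs]
    nth_rewrite 2 [← Real.rpow_one (Y.card : ℝ)]
    rw [← Real.rpow_add hy0]
    norm_num
  have hz0 : 0 ≤ (Y.card : ℝ) ^ (-(1 / 4) : ℝ) := Real.rpow_nonneg hy0.le _
  have hg'g : g' ≤ g := by
    rw [hg']
    have : 0 ≤ 2 / p * (Y.card : ℝ) ^ (-(1 / 4) : ℝ) := by positivity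
    linarith
  have hkey : g' * (W.card : ℝ) ≤ q * (g * Y.card) - s := by
    have h1 : g' * (W.card : ℝ) ≤ g' * (q * Y.card + s) := mul_le_mul_of_nonneg_left hW hneg
    have h2 : g' * s ≤ 1 * s := mul_le_mul_of_nonneg_right (by linarith) hs0
    have h3 : g' * (q * Y.card) = q * (g * Y.card) - 2 * (q / p) * s := by
      rw [hg', ← hprod]
      field_simp
    have h4 : 1 ≤ q / p := by rw [le_div_iff₀ hp]; linarith
    have h5 : 2 * s ≤ 2 * (q / p) * s := by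
      have : 0 ≤ (q / p - 1) * s := mul_nonneg (by linarith) hs0
      nlinarith
    calc g' * (W.card : ℝ) ≤ g' * (q * Y.card + s) := h1
      _ = g' * (q * Y.card) + g' * s := by ring
      _ ≤ (q * (g * Y.card) - 2 * (q / p) * s) + 1 * s := by rw [h3]; linarith
      _ ≤ q * (g * Y.card) - s := by linarith
  have hAuv : g * (Y.card : ℝ) ≤ ((Aset E Y g u v).card : ℝ) := hP u hu v hv hw
  have hsub : Aset E Y g u v ∩ W ⊆ W.filter fun a => s(u, a) ∈ E ∧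
      g' * (W.card : ℝ) ≤ ((W.filter fun b => s(a, b) ∈ E ∧ s(b, v) ∈ E).card : ℝ) := by
    intro a ha
    rw [mem_inter] at ha
    obtain ⟨ha1, haW⟩ := ha
    have ha2 := mem_filter.1 ha1
    obtain ⟨haY, hua, hN'⟩ := ha2
    refine mem_filter.2 ⟨haW, hua, ?_⟩
    have h1 : (Nset E Y a v ∩ W) = (W.filter fun b => s(a, b) ∈ E ∧ s(b, v) ∈ E) := by
      ext b
      simp only [Nset, mem_inter, mem_filter]
      constructor
      · rintro ⟨⟨_, h⟩, hb⟩
        exact ⟨hb, h⟩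
      · rintro ⟨hb, h⟩
        exact ⟨⟨hWY hb, h⟩, hb⟩
    rw [← h1]
    have h2 := hN a haY v hv
    have h3 : g * (Y.card : ℝ) ≤ ((Nset E Y a v).card : ℝ) := hN'
    have h4 : q * (g * Y.card) ≤ q * ((Nset E Y a v).card : ℝ) := mul_le_mul_of_nonneg_left h3 hq.le
    linarith
  have h1 : ((Aset E Y g u v ∩ W).card : ℝ) ≤ ((W.filter fun a => s(u, a) ∈ E ∧
      g' * (W.card : ℝ) ≤
        ((W.filter fun b => s(a, b) ∈ E ∧ s(b, v) ∈ E).card : ℝ)).card : ℝ) := by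
    exact_mod_cast card_le_card hsub
  have h2 := hA u hu v hv
  have h3 : q * (g * Y.card) ≤ q * ((Aset E Y g u v).card : ℝ) :=
    mul_le_mul_of_nonneg_left hAuv hq.le
  linarith

theorem card_sdiff_part (S Y U : Finset V) (hS : S ⊆ Y) :
    ((S ∩ (Y \ U)).card : ℝ) = S.card - ((S ∩ U).card : ℝ) := by
  have h : S ∩ (Y \ U) = S \ U := by
    ext x
    simp only [mem_inter, mem_sdiff]
    constructor
    · rintro ⟨h1, _, h2⟩
      exact ⟨h1, h2⟩
    · rintro ⟨h1, h2⟩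
      exact ⟨h1, hS h1, h2⟩
  rw [h]
  have h2 := card_sdiff_add_card_inter S U
  have h3 : ((S \ U).card : ℝ) + ((S ∩ U).card : ℝ) = S.card := by exact_mod_cast h2
  linarith

end

end Pool.Agent.H483C6.Step

namespace Pool.Agent.H483C6

open Finset

/-- TARGET: one sampling step. -/
theorem step : ∀ p C : ℝ, 0 < p → p ≤ 1 / 2 → 1 ≤ C → ∃ m1 : ℕ,
    ∀ (V : Type) [Fintype V] [DecidableEq V] (E : Finset (Sym2 V)) (X Y : Finset V) (g : ℝ),
      (X.card : ℝ) ≤ C * (Y.card : ℝ) → m1 ≤ Y.card → 0 ≤ g → g ≤ 1 → P3 E g X Y →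
      ∃ U ⊆ Y, |(U.card : ℝ) - p * (Y.card : ℝ)| ≤ (Y.card : ℝ) ^ (3 / 4 : ℝ) ∧
        P3 E (g - 2 / p * (Y.card : ℝ) ^ (-(1 / 4) : ℝ)) X U ∧
        P3 E (g - 2 / p * (Y.card : ℝ) ^ (-(1 / 4) : ℝ)) X (Y \ U) := by
  intro p C hp hp2 hC
  obtain ⟨m1, hm1⟩ := Step.sample C hC
  refine ⟨m1 + 1, ?_⟩
  intro V _ _ E X Y g hXY hY _ hg1 hP
  have hY1 : 1 ≤ Y.card := by omega
  have hy1 : (1 : ℝ) ≤ Y.card := by exact_mod_cast hY1
  classical
  let 𝓐 : Finset (Finset V) := (X ×ˢ X).image fun z => Step.Aset E Y g z.1 z.2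
  let 𝓝 : Finset (Finset V) := (Y ×ˢ X).image fun z => Step.Nset E Y z.1 z.2
  have hAc : 𝓐.card ≤ X.card * X.card := card_image_le.trans (card_product _ _).le
  have hNc : 𝓝.card ≤ Y.card * X.card := card_image_le.trans (card_product _ _).le
  obtain ⟨U, hUY, hU⟩ := hm1 V Y p (by omega) hp.le (by linarith) ({Y} ∪ 𝓐 ∪ 𝓝) (by
      intro S hS
      rw [mem_union, mem_union, mem_singleton] at hS
      rcases hS with (rfl | hS) | hS
      · exact Subset.refl _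
      · obtain ⟨z, _, rfl⟩ := mem_image.1 hS
        exact filter_subset _ _
      · obtain ⟨z, _, rfl⟩ := mem_image.1 hS
        exact filter_subset _ _) (by
      have h1 : ({Y} ∪ 𝓐 ∪ 𝓝).card ≤ 1 + X.card * X.card + Y.card * X.card := by
        refine (card_union_le _ _).trans ?_
        refine add_le_add ?_ hNc
        refine (card_union_le _ _).trans ?_
        exact add_le_add (by rw [card_singleton]) hAc
      have h2 : (({Y} ∪ 𝓐 ∪ 𝓝).card : ℝ) ≤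
          1 + (X.card : ℝ) * X.card + (Y.card : ℝ) * X.card := by exact_mod_cast h1
      refine h2.trans ?_
      have hX0 : (0 : ℝ) ≤ X.card := Nat.cast_nonneg _
      have h3 : (X.card : ℝ) * X.card ≤ (C * Y.card) * (C * Y.card) :=
        mul_le_mul hXY hXY hX0 (by positivity)
      have h4 : (Y.card : ℝ) * X.card ≤ Y.card * (C * Y.card) :=
        mul_le_mul_of_nonneg_left hXY (by positivity)
      have h5 : (Y.card : ℝ) * (C * Y.card) ≤ (C * Y.card) * (C * Y.card) := by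
        apply mul_le_mul_of_nonneg_right _ (by positivity)
        nlinarith
      have h6 : 1 ≤ (C * Y.card) * (C * Y.card) := by
        have : 1 ≤ C * (Y.card : ℝ) := by nlinarith
        nlinarith
      nlinarith)
  have hUcard := hU Y (by simp)
  rw [inter_eq_right.2 hUY] at hUcard
  have hAm : ∀ u ∈ X, ∀ v ∈ X, Step.Aset E Y g u v ∈ ({Y} ∪ 𝓐 ∪ 𝓝) := by
    intro u hu v hv
    refine mem_union_left _ (mem_union_right _ (mem_image.2 ⟨(u, v), ?_, rfl⟩))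
    exact mem_product.2 ⟨hu, hv⟩
  have hNm : ∀ a ∈ Y, ∀ v ∈ X, Step.Nset E Y a v ∈ ({Y} ∪ 𝓐 ∪ 𝓝) := by
    intro u hu v hv
    refine mem_union_right _ (mem_image.2 ⟨(u, v), ?_, rfl⟩)
    exact mem_product.2 ⟨hu, hv⟩
  refine ⟨U, hUY, hUcard, ?_, ?_⟩
  · refine Step.P3_of E X Y U g p p _ hp le_rfl hg1 hY1 rfl hUY hP ?_ ?_ ?_
    · have := (abs_le.1 hUcard).2
      linarith
    · intro u hu v hv
      have := (abs_le.1 (hU _ (hAm u hu v hv))).1
      linarith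
    · intro u hu v hv
      have := (abs_le.1 (hU _ (hNm u hu v hv))).1
      linarith
  · have hcardYU : ((Y \ U).card : ℝ) = Y.card - U.card := by
      have h := Step.card_sdiff_part Y Y U (Subset.refl _)
      rw [inter_eq_right.2 sdiff_subset, inter_eq_right.2 hUY] at h
      exact h
    refine Step.P3_of E X Y (Y \ U) g p (1 - p) _ hp (by linarith) hg1 hY1 rfl sdiff_subset hP
      ?_ ?_ ?_
    · have := (abs_le.1 hUcard).1
      rw [hcardYU]
      linarith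
    · intro u hu v hv
      have := (abs_le.1 (hU _ (hAm u hu v hv))).2
      rw [Step.card_sdiff_part (Step.Aset E Y g u v) Y U (filter_subset _ _)]
      linarith
    · intro u hu v hv
      have := (abs_le.1 (hU _ (hNm u hu v hv))).2
      rw [Step.card_sdiff_part (Step.Nset E Y u v) Y U (filter_subset _ _)]
      linarith

end Pool.Agent.H483C6
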