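import Pool.Agent.H483C6.Stmts
import Pool.Agent.H483C6.Step

/-!
# Chain (MP_1bffa4_co)
-/

set_option autoImplicit false

namespace Pool.Agent.H483C6

open Finset

namespace Chain

theorem psi_pow {y : ℝ} (hy : 0 < y) : (y ^ (-(1 / 4) : ℝ)) ^ 4 = 1 / y := by
  rw [← Real.rpow_natCast, ← Real.rpow_mul hy.le]
  norm_num
  rw [Real.rpow_neg_one]

theorem psi_pos {y : ℝ} (hy : 0 < y) : 0 < y ^ (-(1 / 4) : ℝ) := Real.rpow_pos_of_pos hy _

theorem psi_34 {y : ℝ} (hy : 0 < y) : y ^ (3 / 4 : ℝ) = y * y ^ (-(1 / 4) : ℝ) := by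
  have h := Real.rpow_add hy 1 (-(1 / 4))
  rw [Real.rpow_one] at h
  rw [← h]
  norm_num

theorem psi_small {ε y : ℝ} (hε : 0 < ε) (hy : 1 / ε ^ 4 ≤ y) : y ^ (-(1 / 4) : ℝ) ≤ ε := by
  have h0 : 0 < 1 / ε ^ 4 := by positivity
  have hy0 : 0 < y := lt_of_lt_of_le h0 hy
  have h1 : (y ^ (-(1 / 4) : ℝ)) ^ 4 ≤ ε ^ 4 := by
    rw [psi_pow hy0]
    rw [div_le_iff₀ hy0]
    rw [div_le_iff₀ (by positivity)] at hy
    linarith
  exact le_of_pow_le_pow_left₀ (by norm_num) hε.le h1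

theorem psi_mono {y z : ℝ} (hz : 0 < z) (hzy : z ≤ 55 / 100 * y) :
    21 * y ^ (-(1 / 4) : ℝ) ≤ 20 * z ^ (-(1 / 4) : ℝ) := by
  have hy : 0 < y := by linarith
  have h1 : (21 / 20 * y ^ (-(1 / 4) : ℝ)) ^ 4 ≤ (z ^ (-(1 / 4) : ℝ)) ^ 4 := by
    rw [mul_pow, psi_pow hy, psi_pow hz]
    rw [mul_one_div, div_le_div_iff₀ hy hz]
    nlinarith
  have h2 := le_of_pow_le_pow_left₀ (by norm_num) (psi_pos hz).le h1
  linarith

theorem P3_mono {V : Type} [DecidableEq V] {E : Finset (Sym2 V)} {g g' : ℝ} {X X' Y : Finset V}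
    (h : P3 E g X Y) (hX : X' ⊆ X) (hg : g' ≤ g) : P3 E g' X' Y := by
  intro u hu v hv hw
  have h1 := h u (hX hu) v (hX hv) hw
  have h2 : g' * (Y.card : ℝ) ≤ g * (Y.card : ℝ) :=
    mul_le_mul_of_nonneg_right hg (Nat.cast_nonneg _)
  refine h2.trans (h1.trans ?_)
  refine Nat.cast_le.2 (card_le_card ?_)
  intro a ha
  rw [mem_filter] at ha ⊢
  exact ⟨ha.1, ha.2.1, h2.trans ha.2.2⟩

theorem card_sdiff_real {V : Type} [DecidableEq V] {X Y : Finset V} (h : Y ⊆ X) :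
    ((X \ Y).card : ℝ) = X.card - Y.card := by
  rw [card_sdiff_of_subset h, Nat.cast_sub (card_le_card h)]

/-- the inductive construction -/
theorem aux {γ p : ℝ} (hγ : 0 < γ) (hγ1 : γ ≤ 1) (hp : 0 < p) (hp1 : p ≤ 1 / 2) {M0 m m1 : ℕ}
    (hm0 : 1 ≤ m) (hmM : M0 ≤ m) (hmm : m1 ≤ m)
    (hsm : ∀ y : ℝ, p / 2 * m ≤ y → 40 / p * y ^ (-(1 / 4) : ℝ) ≤ γ / 2)
    (hsp : ∀ y : ℝ, (m : ℝ) ≤ y → y ^ (-(1 / 4) : ℝ) ≤ p / 10)
    (V : Type) [Fintype V] [DecidableEq V] (E : Finset (Sym2 V))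
    (st : ∀ (X Y : Finset V) (g : ℝ),
      (X.card : ℝ) ≤ 2 / p * (Y.card : ℝ) → m1 ≤ Y.card → 0 ≤ g → g ≤ 1 → P3 E g X Y →
      ∃ U ⊆ Y, |(U.card : ℝ) - p * (Y.card : ℝ)| ≤ (Y.card : ℝ) ^ (3 / 4 : ℝ) ∧
        P3 E (g - 2 / p * (Y.card : ℝ) ^ (-(1 / 4) : ℝ)) X U ∧
        P3 E (g - 2 / p * (Y.card : ℝ) ^ (-(1 / 4) : ℝ)) X (Y \ U)) :
    ∀ (N : ℕ) (X Y : Finset V), Y.card ≤ N → Y ⊆ X → m ≤ X.card →
      9 / 10 * p * (X.card : ℝ) ≤ Y.card → (Y.card : ℝ) ≤ 11 / 10 * p * X.card →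
      P3 E (γ - 40 / p * (Y.card : ℝ) ^ (-(1 / 4) : ℝ)) X Y → P3 E (γ / 2) X (X \ Y) →
      ∃ (t : ℕ) (U : ℕ → Finset V), 0 < t ∧ U 0 = X ∧ U 1 = Y ∧ U (t + 1) = ∅ ∧
        (∀ i, U (i + 1) ⊆ U i) ∧ (U t).card ≤ m ∧
        ∀ i < t, M0 ≤ (U i).card ∧
          1 / 4 * ((U i).card : ℝ) ≤ ((U i \ U (i + 1)).card : ℝ) ∧
          p / 4 * ((U i).card : ℝ) ≤ ((U (i + 1) \ U (i + 2)).card : ℝ) ∧
          P3 E (γ / 2) (U i) (U i \ U (i + 1)) ∧
          P3 E (γ / 2) (U i) (U (i + 1) \ U (i + 2)) := by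
  intro N
  induction N with
  | zero =>
    intro X Y hN hYX hX h9 h11 hP hP'
    exfalso
    have h1 : (Y.card : ℝ) = 0 := by
      have : Y.card = 0 := by omega
      rw [this]; simp
    have h2 : (1 : ℝ) ≤ X.card := by
      have : 1 ≤ X.card := by omega
      exact_mod_cast this
    rw [h1] at h9
    have h3 : 0 < p * (X.card : ℝ) := by positivity
    linarith
  | succ N ih =>
    intro X Y hN hYX hX h9 h11 hP hP'
    have hXm : (m : ℝ) ≤ X.card := by exact_mod_cast hX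
    have hm1 : (1 : ℝ) ≤ m := by exact_mod_cast hm0
    have hX0 : (0 : ℝ) < X.card := by linarith
    have hpX : 0 < p * (X.card : ℝ) := by positivity
    have hY0 : (0 : ℝ) < Y.card := by linarith
    have hpm : p * (m : ℝ) ≤ p * X.card := mul_le_mul_of_nonneg_left hXm hp.le
    have hpm0 : 0 < p * (m : ℝ) := by positivity
    have hp11 : 11 / 10 * p * (X.card : ℝ) ≤ 55 / 100 * X.card := by
      have := mul_le_mul_of_nonneg_right hp1 hX0.le
      linarith
    have hφY := hsm (Y.card : ℝ) (by linarith)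
    by_cases hYm : Y.card < m
    · refine ⟨1, fun i => if i = 0 then X else if i = 1 then Y else ∅, one_pos, by simp, by simp,
        by simp, ?_, by simpa using hYm.le, ?_⟩
      · intro i
        rcases i with _ | _ | i
        · simpa using hYX
        · simp
        · simp
      · intro i hi
        obtain rfl : i = 0 := by omega
        simp only [if_true, zero_add, one_ne_zero, if_false, OfNat.ofNat_ne_zero,
          OfNat.ofNat_ne_one, sdiff_empty]
        refine ⟨by omega, ?_, ?_, hP', ?_⟩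
        · rw [card_sdiff_real hYX]
          linarith
        · linarith
        · exact P3_mono hP (Subset.refl _) (by linarith)
    · push Not at hYm
      have hYm' : (m : ℝ) ≤ Y.card := by exact_mod_cast hYm
      obtain ⟨Z, hZY, hZ1, hZ2, hZ3⟩ := st X Y (γ - 40 / p * (Y.card : ℝ) ^ (-(1 / 4) : ℝ)) (by
        rw [div_mul_eq_mul_div, le_div_iff₀ hp]
        linarith) (by omega) (by linarith) (by
        have h1 : 0 ≤ 40 / p * (Y.card : ℝ) ^ (-(1 / 4) : ℝ) := by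
          have := psi_pos hY0
          positivity
        linarith) hP
      have h34 : (Y.card : ℝ) ^ (3 / 4 : ℝ) ≤ p / 10 * Y.card := by
        rw [psi_34 hY0]
        have := mul_le_mul_of_nonneg_left (hsp _ hYm') hY0.le
        linarith
      rw [abs_le] at hZ1
      have hpY : p * (Y.card : ℝ) ≤ 1 / 2 * Y.card := mul_le_mul_of_nonneg_right hp1 hY0.le
      have hpmY : p * (m : ℝ) ≤ p * Y.card := mul_le_mul_of_nonneg_left hYm' hp.le
      have hZ55 : (Z.card : ℝ) ≤ 55 / 100 * Y.card := by linarith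
      have hZ9 : 9 / 10 * p * (Y.card : ℝ) ≤ Z.card := by linarith
      have hZ11 : (Z.card : ℝ) ≤ 11 / 10 * p * Y.card := by linarith
      have hZ0 : (0 : ℝ) < Z.card := by
        have : 0 < p * (Y.card : ℝ) := by positivity
        linarith
      have hφZ := hsm (Z.card : ℝ) (by linarith)
      have hg : γ - 40 / p * (Z.card : ℝ) ^ (-(1 / 4) : ℝ) ≤
          γ - 40 / p * (Y.card : ℝ) ^ (-(1 / 4) : ℝ) - 2 / p * (Y.card : ℝ) ^ (-(1 / 4) : ℝ) := by
        have h1 := psi_mono hZ0 hZ55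
        have h2 : 0 ≤ 2 / p := by positivity
        have h3 := mul_le_mul_of_nonneg_left h1 h2
        have e1 : 40 / p * (Z.card : ℝ) ^ (-(1 / 4) : ℝ) =
            2 / p * (20 * (Z.card : ℝ) ^ (-(1 / 4) : ℝ)) := by ring
        have e2 : 40 / p * (Y.card : ℝ) ^ (-(1 / 4) : ℝ) + 2 / p * (Y.card : ℝ) ^ (-(1 / 4) : ℝ) =
            2 / p * (21 * (Y.card : ℝ) ^ (-(1 / 4) : ℝ)) := by ring
        linarith
      have hZlt : Z.card < Y.card := by
        have : (Z.card : ℝ) < Y.card := by linarith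
        exact_mod_cast this
      obtain ⟨t, U, ht, hU0, hU1, hUt, hUs, hUm, hU⟩ := ih Y Z (by omega) hZY hYm hZ9 hZ11
        (P3_mono hZ2 hYX hg) (P3_mono hZ3 hYX (by linarith))
      refine ⟨t + 1, fun i => match i with | 0 => X | i + 1 => U i, by omega, rfl, hU0, hUt, ?_,
        hUm, ?_⟩
      · intro i
        rcases i with _ | i
        · change U 0 ⊆ X
          rw [hU0]; exact hYX
        · exact hUs i
      · intro i hi
        rcases i with _ | i
        · change M0 ≤ X.card ∧ 1 / 4 * (X.card : ℝ) ≤ ((X \ U 0).card : ℝ) ∧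
            p / 4 * (X.card : ℝ) ≤ ((U 0 \ U 1).card : ℝ) ∧ P3 E (γ / 2) X (X \ U 0) ∧
            P3 E (γ / 2) X (U 0 \ U 1)
          rw [hU0, hU1]
          refine ⟨by omega, ?_, ?_, hP', P3_mono hZ3 (Subset.refl _) (by linarith)⟩
          · rw [card_sdiff_real hYX]
            linarith
          · rw [card_sdiff_real hZY]
            linarith
        · exact hU i (by omega)

end Chain

open Chain in
/-- TARGET -/
theorem chain : S_chain := by
  intro γ p hγ hγ1 hp hp1 M0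
  obtain ⟨m1, hst⟩ := step p (2 / p) hp hp1 (by
    rw [le_div_iff₀ hp]; linarith)
  -- thresholds
  have hε1 : 0 < p / 10 := by positivity
  have hε2 : 0 < γ * p / 80 := by positivity
  obtain ⟨a, ha⟩ := exists_nat_ge (1 / (p / 10) ^ 4)
  obtain ⟨b, hb⟩ := exists_nat_ge (2 / p * (1 / (γ * p / 80) ^ 4))
  refine ⟨1 + M0 + m1 + a + b, ?_⟩
  intro V _ _ E hV hE
  obtain ⟨m, hm⟩ : ∃ m, m = 1 + M0 + m1 + a + b := ⟨_, rfl⟩
  rw [← hm] at hV ⊢
  have hsm : ∀ y : ℝ, p / 2 * m ≤ y → 40 / p * y ^ (-(1 / 4) : ℝ) ≤ γ / 2 := by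
    intro y hy
    have h1 : (b : ℝ) ≤ m := by
      have : b ≤ m := by omega
      exact_mod_cast this
    have h2 : 1 / (γ * p / 80) ^ 4 ≤ y := by
      refine le_trans ?_ hy
      have h3 : p / 2 * (2 / p * (1 / (γ * p / 80) ^ 4)) ≤ p / 2 * m :=
        mul_le_mul_of_nonneg_left (hb.trans h1) (by positivity)
      have h4 : p / 2 * (2 / p * (1 / (γ * p / 80) ^ 4)) = 1 / (γ * p / 80) ^ 4 := by
        rw [← mul_assoc]
        rw [show p / 2 * (2 / p) = 1 by field_simp]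
        rw [one_mul]
      linarith
    have h5 := psi_small hε2 h2
    have h6 := mul_le_mul_of_nonneg_left h5 (show 0 ≤ 40 / p by positivity)
    refine h6.trans (le_of_eq ?_)
    field_simp
    ring
  have hsp : ∀ y : ℝ, (m : ℝ) ≤ y → y ^ (-(1 / 4) : ℝ) ≤ p / 10 := by
    intro y hy
    have h1 : (a : ℝ) ≤ m := by
      have : a ≤ m := by omega
      exact_mod_cast this
    exact psi_small hε1 (ha.trans (h1.trans hy))
  have hn : (m : ℝ) ≤ (Fintype.card V : ℝ) := by exact_mod_cast hV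
  have hm1 : (1 : ℝ) ≤ m := by
    have : 1 ≤ m := by omega
    exact_mod_cast this
  have hcu : ((univ : Finset V).card : ℝ) = Fintype.card V := by rw [card_univ]
  have hn0 : (0 : ℝ) < Fintype.card V := by linarith
  obtain ⟨Z, hZY, hZ1, hZ2, hZ3⟩ := hst V E univ univ γ (by
    rw [hcu]
    have h1 : (1 : ℝ) ≤ 2 / p := by rw [le_div_iff₀ hp]; linarith
    have := mul_le_mul_of_nonneg_right h1 hn0.le
    linarith) (by rw [card_univ]; omega) hγ.le hγ1 hE
  rw [hcu] at hZ1 hZ2 hZ3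
  have h34 : (Fintype.card V : ℝ) ^ (3 / 4 : ℝ) ≤ p / 10 * Fintype.card V := by
    rw [psi_34 hn0]
    have := mul_le_mul_of_nonneg_left (hsp _ hn) hn0.le
    linarith
  rw [abs_le] at hZ1
  have hpV : 0 < p * (Fintype.card V : ℝ) := by positivity
  have hpV2 : p * (Fintype.card V : ℝ) ≤ 1 / 2 * Fintype.card V :=
    mul_le_mul_of_nonneg_right hp1 hn0.le
  have hZ0 : (0 : ℝ) < Z.card := by linarith
  have hZ55 : (Z.card : ℝ) ≤ 55 / 100 * Fintype.card V := by linarith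
  have hψ := psi_mono hZ0 hZ55
  have hψn := psi_pos hn0
  have h2p : 0 < 2 / p := by positivity
  have hφn := hsm (Fintype.card V : ℝ) (by
    have : p * (m : ℝ) ≤ p * Fintype.card V := mul_le_mul_of_nonneg_left hn hp.le
    have h7 : 0 < p * (m : ℝ) := by positivity
    have h8 : p * (Fintype.card V : ℝ) ≤ 1 * Fintype.card V :=
      mul_le_mul_of_nonneg_right (by linarith) hn0.le
    linarith)
  obtain ⟨t, U, ht, hU0, hU1, hUt, hUs, hUm, hU⟩ := aux (M0 := M0) (m := m) (m1 := m1) hγ hγ1 hp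
    hp1 (by omega) (by omega) (by omega) hsm hsp V E (fun X Y g => hst V E X Y g) Z.card univ Z
    le_rfl hZY (by rw [card_univ]; exact hV) (by rw [hcu]; linarith) (by rw [hcu]; linarith)
    (P3_mono hZ2 (Subset.refl _) (by
      have h3 := mul_le_mul_of_nonneg_left hψ h2p.le
      have e1 : 40 / p * (Z.card : ℝ) ^ (-(1 / 4) : ℝ) =
          2 / p * (20 * (Z.card : ℝ) ^ (-(1 / 4) : ℝ)) := by ring
      have h4 : 2 / p * (Fintype.card V : ℝ) ^ (-(1 / 4) : ℝ) ≤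
          2 / p * (21 * (Fintype.card V : ℝ) ^ (-(1 / 4) : ℝ)) :=
        mul_le_mul_of_nonneg_left (by linarith) h2p.le
      linarith))
    (P3_mono hZ3 (Subset.refl _) (by
      have h4 : 2 / p * (Fintype.card V : ℝ) ^ (-(1 / 4) : ℝ) ≤
          2 / p * (20 * (Fintype.card V : ℝ) ^ (-(1 / 4) : ℝ)) :=
        mul_le_mul_of_nonneg_left (by linarith) h2p.le
      have e1 : 40 / p * (Fintype.card V : ℝ) ^ (-(1 / 4) : ℝ) =
          2 / p * (20 * (Fintype.card V : ℝ) ^ (-(1 / 4) : ℝ)) := by ring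
      linarith))
  refine ⟨t, U, ht, hU0, hUt, hUs, hUm, ?_, hU⟩
  rw [hU1]
  linarith

end Pool.Agent.H483C6
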