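import Pool.Agent.H483C6.Paths

/-!
Choosing reserved edges (MP_1bffa4_co, project of helper483).
-/

set_option autoImplicit false

namespace Pool.Agent.H483C6

open Finset

namespace ChooseG

/-- greedy choice of the neighbourhoods -/
theorem choose_sets {V : Type} [Fintype V] [DecidableEq V] (D : Finset (Sym2 V))
    (W Y : Finset V) (q s s' : ℕ)
    (hq : ∀ w ∈ W, q ≤ (nb D w ∩ Y).card) (h : W.card * s + s' * s ≤ s' * q) (hs' : 0 < s')
    (W' : Finset V) (hW' : W' ⊆ W) :
    ∃ A : V → Finset V, (∀ w ∈ W', A w ⊆ nb D w ∩ Y ∧ (A w).card = s) ∧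
      ∀ y, (W'.filter fun w => y ∈ A w).card ≤ s' := by
  induction W' using Finset.induction_on with
  | empty => exact ⟨fun _ => ∅, by simp, by simp⟩
  | insert w W' hw ih =>
    obtain ⟨A, hA1, hA2⟩ := ih ((Finset.subset_insert w W').trans hW')
    have hcard : W'.card ≤ W.card :=
      Finset.card_le_card ((Finset.subset_insert w W').trans hW')
    obtain ⟨F, hF⟩ : ∃ F : Finset V, F = Y.filter fun y => (W'.filter fun w => y ∈ A w).card = s' :=
      ⟨_, rfl⟩
    have h1 : F.card * s' ≤ W'.card * s := by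
      calc F.card * s' = ∑ y ∈ F, (W'.filter fun w => y ∈ A w).card := by
            rw [Finset.sum_congr rfl (g := fun _ => s') (fun y hy => by
              rw [hF, Finset.mem_filter] at hy; exact hy.2)]
            simp
        _ = ∑ w ∈ W', (F.filter fun y => y ∈ A w).card := by
            simp only [Finset.card_filter]
            rw [Finset.sum_comm]
        _ ≤ ∑ w ∈ W', s := by
            refine Finset.sum_le_sum fun w hw => ?_
            rw [← (hA1 w hw).2]
            exact Finset.card_le_card fun y hy => (Finset.mem_filter.mp hy).2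
        _ = W'.card * s := by simp
    have h2 : F.card + s ≤ q := by
      have h3 : s' * (F.card + s) ≤ s' * q := by
        calc s' * (F.card + s) = F.card * s' + s' * s := by ring
          _ ≤ W'.card * s + s' * s := by omega
          _ ≤ W.card * s + s' * s := by
            have := Nat.mul_le_mul_right s hcard
            omega
          _ ≤ s' * q := h
      exact Nat.le_of_mul_le_mul_left h3 hs'
    have h4 : s ≤ ((nb D w ∩ Y) \ F).card := by
      have h5 := Finset.le_card_sdiff F (nb D w ∩ Y)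
      have h6 := hq w (hW' (Finset.mem_insert_self w W'))
      omega
    obtain ⟨B, hB1, hB2⟩ := Finset.exists_subset_card_eq h4
    refine ⟨Function.update A w B, ?_, ?_⟩
    · intro w' hw'
      rcases Finset.mem_insert.mp hw' with rfl | hw'
      · rw [Function.update_self]
        exact ⟨hB1.trans Finset.sdiff_subset, hB2⟩
      · have hne : w' ≠ w := fun h => hw (h ▸ hw')
        rw [Function.update_of_ne hne]
        exact hA1 w' hw'
    · intro y
      rw [Finset.filter_insert]
      have h7 : (W'.filter fun w' => y ∈ Function.update A w B w') = W'.filter fun w' => y ∈ A w' := by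
        refine Finset.filter_congr fun w' hw' => ?_
        have hne : w' ≠ w := fun h => hw (h ▸ hw')
        rw [Function.update_of_ne hne]
      rw [h7, Function.update_self]
      split_ifs with hy
      · rw [Finset.card_insert_of_notMem (fun h => hw (Finset.mem_filter.mp h).1)]
        have h8 := hB1 hy
        rw [Finset.mem_sdiff, Finset.mem_inter, hF, Finset.mem_filter] at h8
        have h9 : (W'.filter fun w => y ∈ A w).card ≠ s' := fun h => h8.2 ⟨h8.1.2, h⟩
        have := hA2 y
        omega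
      · exact hA2 y

end ChooseG

/-- TARGET -/
theorem choose_gamma {V : Type} [Fintype V] [DecidableEq V] (D : Finset (Sym2 V))
    (W Y : Finset V) (q s s' : ℕ) (hWY : Disjoint W Y)
    (hq : ∀ w ∈ W, q ≤ (nb D w ∩ Y).card) (h : W.card * s + s' * s ≤ s' * q) (hs' : 0 < s') :
    ∃ G ⊆ D, (∀ e ∈ G, ∃ w ∈ W, ∃ y ∈ Y, e = s(w, y)) ∧ (∀ w ∈ W, dg G w = s) ∧
      ∀ y ∈ Y, dg G y ≤ s' := by
  obtain ⟨A, hA1, hA2⟩ := ChooseG.choose_sets D W Y q s s' hq h hs' W (Finset.Subset.refl W)
  have hY : ∀ w ∈ W, ∀ y ∈ A w, y ∈ Y := fun w hw y hy =>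
    (Finset.mem_inter.mp ((hA1 w hw).1 hy)).2
  have hne : ∀ w ∈ W, ∀ y ∈ Y, w ≠ y := fun w hw y hy hwy =>
    (Finset.disjoint_left.mp hWY hw) (hwy ▸ hy)
  obtain ⟨G, hG⟩ : ∃ G : Finset (Sym2 V), G = W.biUnion fun w => (A w).image fun y => s(w, y) :=
    ⟨_, rfl⟩
  have hmem : ∀ e, e ∈ G ↔ ∃ w ∈ W, ∃ y ∈ A w, s(w, y) = e := by
    intro e
    rw [hG]
    simp only [Finset.mem_biUnion, Finset.mem_image]
  refine ⟨G, ?_, ?_, ?_, ?_⟩
  · intro e he
    obtain ⟨w, hw, y, hy, rfl⟩ := (hmem e).mp he
    exact mem_nb.mp (Finset.mem_inter.mp ((hA1 w hw).1 hy)).1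
  · intro e he
    obtain ⟨w, hw, y, hy, rfl⟩ := (hmem e).mp he
    exact ⟨w, hw, y, hY w hw y hy, rfl⟩
  · intro w hw
    have h1 : nb G w = A w := by
      ext u
      rw [mem_nb, hmem]
      constructor
      · rintro ⟨w', hw', y, hy, he⟩
        rcases Sym2.eq_iff.mp he with ⟨rfl, rfl⟩ | ⟨rfl, rfl⟩
        · exact hy
        · exact absurd rfl (hne _ hw _ (hY _ hw' _ hy))
      · intro hu
        exact ⟨w, hw, u, hu, rfl⟩
    rw [dg, h1, (hA1 w hw).2]
  · intro y hy
    refine le_trans (Finset.card_le_card ?_) (hA2 y)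
    intro u hu
    rw [mem_nb, hmem] at hu
    obtain ⟨w', hw', y', hy', he⟩ := hu
    rcases Sym2.eq_iff.mp he with ⟨rfl, rfl⟩ | ⟨rfl, rfl⟩
    · exact absurd rfl (hne _ hw' _ hy)
    · exact Finset.mem_filter.mpr ⟨hw', hy'⟩

end Pool.Agent.H483C6
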