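import Mathlib

/-!
# The final statement: definitions (MP_1bffa4_co, helper483)
-/

set_option autoImplicit false

namespace Pool.Agent.H483C6

/-- `G` is `C₆`-divisible: all degrees are even and the number of edges is divisible by `6`. -/
def C6Divisible {V : Type} (G : SimpleGraph V) : Prop :=
  (∀ v, Even (G.neighborSet v).ncard) ∧ 6 ∣ G.edgeSet.ncard

/-- `G` has a `C₆`-decomposition: there is a collection of subgraphs of `G`, each isomorphic to
the cycle of length six, such that every edge of `G` lies in exactly one of them. -/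
def HasC6Decomposition {V : Type} (G : SimpleGraph V) : Prop :=
  ∃ 𝒞 : Set G.Subgraph, (∀ H ∈ 𝒞, Nonempty (H.coe ≃g SimpleGraph.cycleGraph 6)) ∧
    ∀ e ∈ G.edgeSet, ∃! H : G.Subgraph, H ∈ 𝒞 ∧ e ∈ H.edgeSet

/-- every `C₆`-divisible graph on `n` vertices with minimum degree at least `d` has a
`C₆`-decomposition -/
def Forces (n d : ℕ) : Prop :=
  ∀ G : SimpleGraph (Fin n), C6Divisible G → (∀ v, d ≤ (G.neighborSet v).ncard) →
    HasC6Decomposition G

/-- the exact threshold -/
def threshold (n : ℕ) : ℕ :=
  if n % 4 = 0 then n / 2 - 1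
  else if n % 4 = 2 then n / 2
  else if n % 4 = 3 then (n - 1) / 2
  else if n % 24 = 5 ∨ n % 24 = 13 then (n + 1) / 2
  else (n - 3) / 2

end Pool.Agent.H483C6
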