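import Pool.Agent.H483C6.Basic
import Pool.Agent.H483C6.FinalDefs

/-!
# From `Dec` to a decomposition into subgraphs
-/

set_option autoImplicit false

namespace Pool.Agent.H483C6

open Finset

namespace Conv1

/-- the subgraph with edge set `S` -/
def subOf {V : Type} (G : SimpleGraph V) (S : Finset (Sym2 V))
    (hS : ∀ u v, s(u, v) ∈ S → G.Adj u v) : G.Subgraph where
  verts := {v | ∃ u, s(v, u) ∈ S}
  Adj u v := s(u, v) ∈ S
  adj_sub := fun h => hS _ _ h
  edge_vert := fun h => ⟨_, h⟩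
  symm := ⟨fun u v h => by rwa [Sym2.eq_swap]⟩

theorem mem_edgeSet_subOf {V : Type} (G : SimpleGraph V) (S : Finset (Sym2 V))
    (hS : ∀ u v, s(u, v) ∈ S → G.Adj u v) (e : Sym2 V) :
    e ∈ (subOf G S hS).edgeSet ↔ e ∈ S := by
  induction e using Sym2.ind with
  | _ u v => exact SimpleGraph.Subgraph.mem_edgeSet

theorem cyc (i j : Fin 6) : (∃ k : Fin 6, (i = k ∧ j = k + 1) ∨ (i = k + 1 ∧ j = k)) ↔
    (SimpleGraph.cycleGraph 6).Adj i j := by
  rw [SimpleGraph.cycleGraph_adj]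
  revert i j
  decide

theorem hex_eq {V : Type} [DecidableEq V] (a b c d e f : V) :
    hex a b c d e f = univ.image (fun k : Fin 6 => s(![a, b, c, d, e, f] k,
      ![a, b, c, d, e, f] (k + 1))) := by
  ext x
  rw [mem_hex, mem_image]
  constructor
  · rintro (h | h | h | h | h | h)
    · exact ⟨0, mem_univ _, h.symm⟩
    · exact ⟨1, mem_univ _, h.symm⟩
    · exact ⟨2, mem_univ _, h.symm⟩
    · exact ⟨3, mem_univ _, h.symm⟩
    · exact ⟨4, mem_univ _, h.symm⟩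
    · exact ⟨5, mem_univ _, h.symm⟩
  · rintro ⟨k, -, rfl⟩
    fin_cases k
    · exact Or.inl rfl
    · exact Or.inr (Or.inl rfl)
    · exact Or.inr (Or.inr (Or.inl rfl))
    · exact Or.inr (Or.inr (Or.inr (Or.inl rfl)))
    · exact Or.inr (Or.inr (Or.inr (Or.inr (Or.inl rfl))))
    · exact Or.inr (Or.inr (Or.inr (Or.inr (Or.inr rfl))))

theorem inj {V : Type} {a b c d e f : V} (h : [a, b, c, d, e, f].Nodup) :
    Function.Injective ![a, b, c, d, e, f] := by
  have h2 : ![a, b, c, d, e, f] = [a, b, c, d, e, f].get := by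
    funext i
    fin_cases i <;> rfl
  rw [h2]
  exact List.nodup_iff_injective_get.1 h

theorem iso {V : Type} [DecidableEq V] (G : SimpleGraph V) (S : Finset (Sym2 V))
    (hS : ∀ u v, s(u, v) ∈ S → G.Adj u v) (h : IsHex S) :
    Nonempty ((subOf G S hS).coe ≃g SimpleGraph.cycleGraph 6) := by
  obtain ⟨a, b, c, d, e, f, hn, hSe⟩ := h
  have hinj := inj hn
  rw [hex_eq] at hSe
  have hadj : ∀ i j : Fin 6, s(![a, b, c, d, e, f] i, ![a, b, c, d, e, f] j) ∈ S ↔
      (SimpleGraph.cycleGraph 6).Adj i j := by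
    intro i j
    rw [← cyc, hSe, mem_image]
    constructor
    · rintro ⟨k, -, hk⟩
      refine ⟨k, ?_⟩
      rcases Sym2.eq_iff.1 hk with ⟨h1, h2⟩ | ⟨h1, h2⟩
      · exact Or.inl ⟨(hinj h1).symm, (hinj h2).symm⟩
      · exact Or.inr ⟨(hinj h2).symm, (hinj h1).symm⟩
    · rintro ⟨k, ⟨rfl, rfl⟩ | ⟨rfl, rfl⟩⟩
      · exact ⟨i, mem_univ _, rfl⟩
      · exact ⟨j, mem_univ _, Sym2.eq_swap⟩
  have hv : ∀ v, v ∈ (subOf G S hS).verts ↔ ∃ i, ![a, b, c, d, e, f] i = v := by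
    intro v
    constructor
    · rintro ⟨u, hu⟩
      rw [hSe, mem_image] at hu
      obtain ⟨k, -, hk⟩ := hu
      rcases Sym2.eq_iff.1 hk with ⟨h1, h2⟩ | ⟨h1, h2⟩
      · exact ⟨k, h1⟩
      · exact ⟨k + 1, h2⟩
    · rintro ⟨i, rfl⟩
      refine ⟨![a, b, c, d, e, f] (i + 1), (hadj _ _).2 ?_⟩
      rw [← cyc]
      exact ⟨i, Or.inl ⟨rfl, rfl⟩⟩
  let φ : Fin 6 → (subOf G S hS).verts := fun i => ⟨![a, b, c, d, e, f] i, (hv _).2 ⟨i, rfl⟩⟩
  have hφ : Function.Bijective φ := by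
    constructor
    · intro i j hij
      exact hinj (congrArg Subtype.val hij)
    · rintro ⟨v, hv'⟩
      obtain ⟨i, hi⟩ := (hv v).1 hv'
      exact ⟨i, Subtype.ext hi⟩
  have e1 : SimpleGraph.cycleGraph 6 ≃g (subOf G S hS).coe :=
    { toEquiv := Equiv.ofBijective φ hφ
      map_rel_iff' := by
        intro i j
        exact hadj i j }
  exact ⟨e1.symm⟩

end Conv1

/-- TARGET -/
theorem decomp_of_dec {V : Type} [Fintype V] [DecidableEq V] (G : SimpleGraph V)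
    (E : Finset (Sym2 V)) (hE : ∀ u v, s(u, v) ∈ E ↔ G.Adj u v) (h : Dec E) :
    HasC6Decomposition G := by
  obtain ⟨P, h1, h2, h3⟩ := dec_iff.1 h
  have hsub : ∀ S ∈ P, ∀ u v, s(u, v) ∈ S → G.Adj u v := by
    intro S hS u v huv
    rw [← hE, ← h3]
    exact mem_biUnion.2 ⟨S, hS, huv⟩
  refine ⟨{H | ∃ S, ∃ hS : S ∈ P, H = Conv1.subOf G S (hsub S hS)}, ?_, ?_⟩
  · rintro H ⟨S, hS, rfl⟩
    exact Conv1.iso G S (hsub S hS) (h1 S hS)
  · intro e he
    have heE : e ∈ E := by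
      induction e using Sym2.ind with
      | _ u v => exact (hE u v).2 he
    rw [← h3] at heE
    obtain ⟨S, hS, heS⟩ := mem_biUnion.1 heE
    refine ⟨Conv1.subOf G S (hsub S hS), ⟨⟨S, hS, rfl⟩, ?_⟩, ?_⟩
    · exact (Conv1.mem_edgeSet_subOf G S (hsub S hS) e).2 heS
    · rintro H ⟨⟨T, hT, rfl⟩, heT⟩
      rw [Conv1.mem_edgeSet_subOf] at heT
      have hST : T = S := by
        by_contra hne
        exact disjoint_left.1 (h2 T hT S hS hne) heT heS
      subst hST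
      rfl

end Pool.Agent.H483C6
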