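-- dec_of_decomp done; header comment shortened
import Pool.Agent.H483C6.Basic
import Pool.Agent.H483C6.FinalDefs

/-!
# From a decomposition into subgraphs to `Dec` (MP_1bffa4_co)
-/

set_option autoImplicit false

namespace Pool.Agent.H483C6

open Finset

namespace Conv2

theorem adj_succ : ∀ i j : Fin 6, (SimpleGraph.cycleGraph 6).Adj i j → j = i + 1 ∨ i = j + 1 := by
  decide

theorem adj_next : ∀ i : Fin 6, (SimpleGraph.cycleGraph 6).Adj i (i + 1) := by
  decide

theorem hex_step {V : Type} [DecidableEq V] (v : Fin 6 → V) :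
    ∀ i : Fin 6, s(v i, v (i + 1)) ∈ hex (v 0) (v 1) (v 2) (v 3) (v 4) (v 5) := by
  intro i
  rw [mem_hex]
  fin_cases i
  · exact Or.inl rfl
  · exact Or.inr (Or.inl rfl)
  · exact Or.inr (Or.inr (Or.inl rfl))
  · exact Or.inr (Or.inr (Or.inr (Or.inl rfl)))
  · exact Or.inr (Or.inr (Or.inr (Or.inr (Or.inl rfl))))
  · exact Or.inr (Or.inr (Or.inr (Or.inr (Or.inr rfl))))

theorem mem_hex_step {V : Type} [DecidableEq V] (v : Fin 6 → V) {e : Sym2 V}
    (h : e ∈ hex (v 0) (v 1) (v 2) (v 3) (v 4) (v 5)) : ∃ i : Fin 6, e = s(v i, v (i + 1)) := by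
  rw [mem_hex] at h
  rcases h with h | h | h | h | h | h
  · exact ⟨0, h⟩
  · exact ⟨1, h⟩
  · exact ⟨2, h⟩
  · exact ⟨3, h⟩
  · exact ⟨4, h⟩
  · exact ⟨5, h⟩

/-- the edge set of a subgraph isomorphic to the cycle of length six -/
theorem isHex_of_iso {V : Type} [DecidableEq V] {G : SimpleGraph V} {H : G.Subgraph}
    (φ : H.coe ≃g SimpleGraph.cycleGraph 6) {S : Finset (Sym2 V)}
    (hS : ∀ e, e ∈ S ↔ e ∈ H.edgeSet) : IsHex S := by
  set v : Fin 6 → V := fun i => ((φ.symm i : H.verts) : V) with hv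
  have hinj : Function.Injective v := fun i j h => φ.symm.injective (Subtype.ext h)
  have hadj : ∀ i j, H.Adj (v i) (v j) ↔ (SimpleGraph.cycleGraph 6).Adj i j := by
    intro i j
    have h := φ.symm.map_adj_iff (v := i) (w := j)
    rw [← h]
    exact Iff.rfl
  have hsurj : ∀ u ∈ H.verts, ∃ i, v i = u := by
    intro u hu
    refine ⟨φ ⟨u, hu⟩, ?_⟩
    rw [hv]
    simp
  have hn : ∀ i j, i ≠ j → v i ≠ v j := fun i j h h' => h (hinj h')
  refine ⟨v 0, v 1, v 2, v 3, v 4, v 5, ?_, ?_⟩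
  · have e : [v 0, v 1, v 2, v 3, v 4, v 5] = List.map v [0, 1, 2, 3, 4, 5] := rfl
    rw [e]
    exact List.Nodup.map hinj (by decide)
  · ext e
    rw [hS]
    constructor
    · induction e using Sym2.ind with
      | h a b =>
        intro h
        rw [SimpleGraph.Subgraph.mem_edgeSet] at h
        obtain ⟨i, hi⟩ := hsurj a h.fst_mem
        obtain ⟨j, hj⟩ := hsurj b h.snd_mem
        rw [← hi, ← hj] at h ⊢
        rcases adj_succ i j ((hadj i j).1 h) with h1 | h1
        · rw [h1]; exact hex_step v i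
        · rw [h1, Sym2.eq_swap]; exact hex_step v j
    · intro h
      obtain ⟨i, rfl⟩ := mem_hex_step v h
      rw [SimpleGraph.Subgraph.mem_edgeSet, hadj]
      exact adj_next i

end Conv2

/-- TARGET -/
theorem dec_of_decomp {V : Type} [Fintype V] [DecidableEq V] (G : SimpleGraph V)
    (E : Finset (Sym2 V)) (hE : ∀ u v, s(u, v) ∈ E ↔ G.Adj u v) (h : HasC6Decomposition G) :
    Dec E := by
  classical
  obtain ⟨𝒞, h1, h2⟩ := h
  have hG : ∀ e, e ∈ E ↔ e ∈ G.edgeSet := by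
    intro e
    induction e using Sym2.ind with
    | h a b => rw [hE, SimpleGraph.mem_edgeSet]
  set S : G.Subgraph → Finset (Sym2 V) := fun H => univ.filter fun e => e ∈ H.edgeSet with hSdef
  have hS : ∀ H e, e ∈ S H ↔ e ∈ H.edgeSet := by
    intro H e
    rw [hSdef]
    simp
  rw [dec_iff]
  refine ⟨univ.filter fun T => ∃ H ∈ 𝒞, T = S H, ?_, ?_, ?_⟩
  · intro T hT
    obtain ⟨-, H, hH, rfl⟩ := mem_filter.1 hT
    obtain ⟨φ⟩ := h1 H hH
    exact Conv2.isHex_of_iso φ (hS H)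
  · intro T hT T' hT' hne
    obtain ⟨-, H, hH, rfl⟩ := mem_filter.1 hT
    obtain ⟨-, H', hH', rfl⟩ := mem_filter.1 hT'
    rw [Finset.disjoint_left]
    intro e he he'
    rw [hS] at he he'
    have hu := h2 e (H.edgeSet_subset he)
    exact hne (congrArg S (hu.unique ⟨hH, he⟩ ⟨hH', he'⟩))
  · ext e
    rw [mem_biUnion]
    constructor
    · rintro ⟨T, hT, he⟩
      obtain ⟨-, H, hH, rfl⟩ := mem_filter.1 hT
      rw [id, hS] at he
      exact (hG e).2 (H.edgeSet_subset he)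
    · intro he
      obtain ⟨H, ⟨hH, heH⟩, -⟩ := h2 e ((hG e).1 he)
      exact ⟨S H, mem_filter.2 ⟨mem_univ _, H, hH, rfl⟩, (hS H e).2 heH⟩

end Pool.Agent.H483C6
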