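import Pool.Agent.H483C6.Defs

/-!
# The blueprint: statements of the pieces (MP_1bffa4_co, helper483)

Every piece is a `Prop`; a piece file proves `theorem X : S_X`.
`n` always stands for `Fintype.card V`.
-/

set_option autoImplicit false

namespace Pool.Agent.H483C6

open Finset

/-! ## Vortex -/

/-- Sampling: a nested sequence of vertex sets down to bounded size. -/
def S_chain : Prop :=
  ∀ γ p : ℝ, 0 < γ → γ ≤ 1 → 0 < p → p ≤ 1 / 2 → ∀ M0 : ℕ, ∃ m : ℕ,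
    ∀ (V : Type) [Fintype V] [DecidableEq V] (E : Finset (Sym2 V)),
      m ≤ Fintype.card V → P3 E γ univ univ →
      ∃ (t : ℕ) (U : ℕ → Finset V), 0 < t ∧ U 0 = univ ∧ U (t + 1) = ∅ ∧
        (∀ i, U (i + 1) ⊆ U i) ∧ (U t).card ≤ m ∧
        ((U 1).card : ℝ) ≤ 2 * p * (Fintype.card V : ℝ) ∧
        ∀ i < t, M0 ≤ (U i).card ∧
          1 / 4 * ((U i).card : ℝ) ≤ ((U i \ U (i + 1)).card : ℝ) ∧
          p / 4 * ((U i).card : ℝ) ≤ ((U (i + 1) \ U (i + 2)).card : ℝ) ∧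
          P3 E (γ / 2) (U i) (U i \ U (i + 1)) ∧
          P3 E (γ / 2) (U i) (U (i + 1) \ U (i + 2))

/-- A dense graph contains a six-cycle. -/
def S_hex : Prop :=
  ∀ κ : ℝ, 0 < κ → ∃ N0 : ℕ, ∀ (V : Type) [Fintype V] [DecidableEq V] (S : Finset V)
    (D : Finset (Sym2 V)), Loopless D → D ⊆ S.sym2 → N0 ≤ S.card →
      κ * (S.card : ℝ) ^ 2 ≤ (D.card : ℝ) → ∃ T ⊆ D, IsHex T

/-- the number of 4-paths (walks) from `x` to `y` in `D` with inner vertices in `S` -/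
def cnt4 {V : Type} [Fintype V] [DecidableEq V] (D : Finset (Sym2 V)) (S : Finset V) (x y : V) :
    ℕ :=
  ((S ×ˢ S ×ˢ S).filter fun t => s(x, t.1) ∈ D ∧ s(t.1, t.2.1) ∈ D ∧ s(t.2.1, t.2.2) ∈ D ∧
    s(t.2.2, y) ∈ D).card

/-- the number of walks of length three from `x` to `y` in `D` with inner vertices in `S` -/
def cnt3 {V : Type} [Fintype V] [DecidableEq V] (D : Finset (Sym2 V)) (S : Finset V) (x y : V) :
    ℕ :=
  ((S ×ˢ S).filter fun t => s(x, t.1) ∈ D ∧ s(t.1, t.2) ∈ D ∧ s(t.2, y) ∈ D).card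

/-- Approximate decomposition with bounded leftover degree. -/
def S_approx : Prop :=
  ∀ γ η : ℝ, 0 < γ → 0 < η → ∃ N0 : ℕ, ∀ (V : Type) [Fintype V] [DecidableEq V] (S : Finset V)
    (D : Finset (Sym2 V)), Loopless D → D ⊆ S.sym2 → N0 ≤ S.card →
      (∀ v x y, s(v, x) ∈ D → s(v, y) ∈ D → x ≠ y →
        γ * (S.card : ℝ) ^ 3 ≤ (cnt4 D S x y : ℝ)) →
      ∃ D' ⊆ D, Dec (D \ D') ∧ ∀ v, (dg D' v : ℝ) ≤ η * (S.card : ℝ)

/-- Greedy choice of edge-disjoint pieces with bounded degrees. -/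
def S_greedy : Prop :=
  ∀ (V : Type) [Fintype V] [DecidableEq V] (ι : Type) [DecidableEq ι] (J : Finset ι)
    (cand : ι → Finset (Sym2 V) → Finset V → Prop) (ep : ι → V → ℕ) (Λ : ℕ),
    (∀ j ∈ J, ∀ T I, cand j T I →
      I.card ≤ 4 ∧ ∀ v, dg T v ≤ ep j v + (if v ∈ I then 2 else 0)) →
    (∀ j ∈ J, ∀ (F : Finset (Sym2 V)) (O : Finset V),
      (∀ v, dg F v ≤ (∑ i ∈ J, ep i v) + 2 * Λ) → Λ * O.card ≤ 4 * J.card →
      ∃ T I, cand j T I ∧ Disjoint T F ∧ Disjoint I O) →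
    ∃ T : ι → Finset (Sym2 V), (∀ j ∈ J, ∃ I, cand j (T j) I) ∧
      (∀ i ∈ J, ∀ j ∈ J, i ≠ j → Disjoint (T i) (T j)) ∧
      ∀ v, dg (J.biUnion T) v ≤ (∑ i ∈ J, ep i v) + 2 * Λ

/-- One step of the vortex: cover all edges that are not inside `U1`. -/
def S_cover : Prop :=
  ∀ γ c : ℝ, 0 < γ → γ ≤ 1 → 0 < c → c ≤ 1 → ∃ η : ℝ, 0 < η ∧ ∃ N0 : ℕ,
    ∀ (V : Type) [Fintype V] [DecidableEq V] (E : Finset (Sym2 V)) (U U1 U2 : Finset V),
      Loopless E → U1 ⊆ U → U2 ⊆ U1 → N0 ≤ U.card →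
      c * (U.card : ℝ) ≤ ((U \ U1).card : ℝ) → c * (U.card : ℝ) ≤ ((U1 \ U2).card : ℝ) →
      P3 E γ U (U \ U1) → P3 E γ U (U1 \ U2) →
      ∀ D : Finset (Sym2 V), D ⊆ E → D ⊆ U.sym2 → (∀ v, Even (dg D v)) →
        (∀ v, (dg ((E ∩ U.sym2) \ D) v : ℝ) ≤ η * (U.card : ℝ)) → E ∩ U1.sym2 ⊆ D →
        ∃ D' ⊆ D, D' ⊆ U1.sym2 ∧ Dec (D \ D') ∧
          (∀ v, (dg ((E ∩ U1.sym2) \ D') v : ℝ) ≤ η * (U1.card : ℝ)) ∧ E ∩ U2.sym2 ⊆ D'

/-- The vortex: everything outside a bounded set of vertices can be covered. -/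
def S_vortex : Prop :=
  ∀ γ ρ : ℝ, 0 < γ → 0 < ρ → ∃ m : ℕ, ∀ K : ℕ, ∃ n0 : ℕ,
    ∀ (V : Type) [Fintype V] [DecidableEq V] (E : Finset (Sym2 V)), Loopless E →
      n0 ≤ Fintype.card V → P3 E γ univ univ →
      ∃ U1 Us : Finset V, Us ⊆ U1 ∧ Us.card ≤ m ∧
        (U1.card : ℝ) ≤ ρ * (Fintype.card V : ℝ) ∧
        ∀ A : Finset (Sym2 V), A ⊆ E → A.card ≤ K → (∀ e ∈ A, e ∉ U1.sym2) →
          (∀ v, Even (dg (E \ A) v)) →
          ∃ H ⊆ E \ A, H ⊆ Us.sym2 ∧ Dec ((E \ A) \ H)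

/-! ## Absorbers -/

/-- every small divisible graph inside a (not too large) set `R` has an absorber none of whose
edges is inside `R` -/
def Abs {V : Type} [Fintype V] [DecidableEq V] (E : Finset (Sym2 V)) (r h c : ℕ) : Prop :=
  ∀ R : Finset V, R.card ≤ r → ∀ H ⊆ E, H ⊆ R.sym2 → H.card ≤ h → Div6 H →
    ∃ A ⊆ E, (∀ e ∈ A, e ∉ R.sym2) ∧ A.card ≤ c ∧ Dec A ∧ Dec (A ∪ H)

/-- Vortex plus absorbers give a decomposition. -/
def S_main : Prop :=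
  ∀ γ ρ : ℝ, 0 < γ → 0 < ρ → ∃ h : ℕ, ∀ c : ℕ, ∃ n0 : ℕ,
    ∀ (V : Type) [Fintype V] [DecidableEq V] (E : Finset (Sym2 V)), Loopless E →
      n0 ≤ Fintype.card V → P3 E γ univ univ →
      Abs E ⌊ρ * (Fintype.card V : ℝ)⌋₊ h c → Div6 E → Dec E

/-- edges of a closed walk of length seven -/
def hept {V : Type} [DecidableEq V] (a b c d e f g : V) : Finset (Sym2 V) :=
  {s(a, b), s(b, c), s(c, d), s(d, e), s(e, f), s(f, g), s(g, a)}

/-- edge set of a seven-cycle -/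
def IsHept {V : Type} [DecidableEq V] (S : Finset (Sym2 V)) : Prop :=
  ∃ a b c d e f g : V, [a, b, c, d, e, f, g].Nodup ∧ S = hept a b c d e f g

/-- 3-walks between all pairs of vertices, avoiding any small set -/
def ThreeP {V : Type} [Fintype V] [DecidableEq V] (E : Finset (Sym2 V)) (r : ℕ) : Prop :=
  ∀ R : Finset V, R.card ≤ r → ∀ u v : V, ∃ a b, a ∉ R ∧ b ∉ R ∧ s(u, a) ∈ E ∧ s(a, b) ∈ E ∧
    s(b, v) ∈ E

/-- any two disjoint seven-cycles inside `R` are transformable into each other, with edges not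
inside `R` -/
def SevenC {V : Type} [Fintype V] [DecidableEq V] (E : Finset (Sym2 V)) (r c : ℕ) : Prop :=
  ∀ R : Finset V, R.card ≤ r → ∀ D D' : Finset (Sym2 V), IsHept D → IsHept D' → D ⊆ E →
    D' ⊆ E → D ⊆ R.sym2 → D' ⊆ R.sym2 → Disjoint D D' →
    ∃ T ⊆ E, (∀ e ∈ T, e ∉ R.sym2) ∧ T.card ≤ c ∧ Dec (T ∪ D) ∧ Dec (T ∪ D')

/-- Absorbers from transformations of seven-cycles. -/
def S_abs7 : Prop :=
  ∀ h c : ℕ, ∃ c' : ℕ, ∀ r : ℕ, ∀ (V : Type) [Fintype V] [DecidableEq V]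
    (E : Finset (Sym2 V)), Loopless E → ThreeP E (r + c') → SevenC E (r + c') c → Abs E r h c'

/-- Transformations of seven-cycles in the non-extremal case. -/
def S_sevenQ : Prop :=
  ∀ γ : ℝ, 0 < γ → ∃ ρ : ℝ, 0 < ρ ∧ ∃ c n0 : ℕ,
    ∀ (V : Type) [Fintype V] [DecidableEq V] (E : Finset (Sym2 V)), Loopless E →
      n0 ≤ Fintype.card V → Q3 E γ → (∀ v, Fintype.card V ≤ 2 * dg E v + 1) →
      SevenC E ⌊ρ * (Fintype.card V : ℝ)⌋₊ c

/-- all degrees are at least n/10, and all but at most ε n vertices have degree at least (1-ε) n -/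
def NearK {V : Type} [Fintype V] [DecidableEq V] (E : Finset (Sym2 V)) (ε : ℝ) : Prop :=
  (∀ v, 1 / 10 * (Fintype.card V : ℝ) ≤ (dg E v : ℝ)) ∧
    ((univ.filter fun v => (dg E v : ℝ) < (1 - ε) * (Fintype.card V : ℝ)).card : ℝ) ≤
      ε * (Fintype.card V : ℝ)

/-- Transformations of seven-cycles in nearly complete graphs. -/
def S_sevenN : Prop :=
  ∃ ρ : ℝ, 0 < ρ ∧ ∃ c n0 : ℕ,
    ∀ (V : Type) [Fintype V] [DecidableEq V] (E : Finset (Sym2 V)), Loopless E →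
      n0 ≤ Fintype.card V → NearK E (1 / 1000) → SevenC E ⌊ρ * (Fintype.card V : ℝ)⌋₊ c

/-- nearly complete bipartite graphs with parts `A`, `Aᶜ` -/
def NearKK {V : Type} [Fintype V] [DecidableEq V] (E : Finset (Sym2 V)) (A : Finset V)
    (ε : ℝ) : Prop :=
  (∀ e ∈ E, e ∉ A.sym2 ∧ e ∉ Aᶜ.sym2) ∧
    2 / 5 * (Fintype.card V : ℝ) ≤ (A.card : ℝ) ∧
    2 / 5 * (Fintype.card V : ℝ) ≤ (Aᶜ.card : ℝ) ∧
    (∀ v, 1 / 10 * (Fintype.card V : ℝ) ≤ (dg E v : ℝ)) ∧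
    ((A.filter fun v => (dg E v : ℝ) < (Aᶜ.card : ℝ) - ε * (Fintype.card V : ℝ)).card : ℝ) ≤
      ε * (Fintype.card V : ℝ) ∧
    ((Aᶜ.filter fun v => (dg E v : ℝ) < (A.card : ℝ) - ε * (Fintype.card V : ℝ)).card : ℝ) ≤
      ε * (Fintype.card V : ℝ)

/-- Absorbers in nearly complete bipartite graphs. -/
def S_absB : Prop :=
  ∃ ρ : ℝ, 0 < ρ ∧ ∀ h : ℕ, ∃ c n0 : ℕ,
    ∀ (V : Type) [Fintype V] [DecidableEq V] (E : Finset (Sym2 V)) (A : Finset V), Loopless E →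
      n0 ≤ Fintype.card V → NearKK E A (1 / 1000) → Abs E ⌊ρ * (Fintype.card V : ℝ)⌋₊ h c

/-! ## Decomposition theorems -/

def S_nearK : Prop :=
  ∃ n0 : ℕ, ∀ (V : Type) [Fintype V] [DecidableEq V] (E : Finset (Sym2 V)),
    n0 ≤ Fintype.card V → NearK E (1 / 1000) → Div6 E → Dec E

def S_nearKK : Prop :=
  ∃ n0 : ℕ, ∀ (V : Type) [Fintype V] [DecidableEq V] (E : Finset (Sym2 V)) (A : Finset V),
    n0 ≤ Fintype.card V → NearKK E A (1 / 1000) → Div6 E → Dec E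

def S_caseI : Prop :=
  ∀ γ : ℝ, 0 < γ → ∃ n0 : ℕ, ∀ (V : Type) [Fintype V] [DecidableEq V] (E : Finset (Sym2 V)),
    n0 ≤ Fintype.card V → Q3 E γ → (∀ v, Fintype.card V ≤ 2 * dg E v + 1) → Div6 E → Dec E

/-- edges between `A` and its complement -/
def cross {V : Type} [Fintype V] [DecidableEq V] (E : Finset (Sym2 V)) (A : Finset V) :
    Finset (Sym2 V) :=
  E.filter fun e => e ∉ A.sym2 ∧ e ∉ Aᶜ.sym2

/-- Stability: a graph of minimum degree about `n/2` without robust 3-walks is close to two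
disjoint cliques or contains a nearly complete balanced bipartite graph. -/
def S_stab : Prop :=
  ∀ ε : ℝ, 0 < ε → ∃ γ : ℝ, 0 < γ ∧ ∃ n0 : ℕ,
    ∀ (V : Type) [Fintype V] [DecidableEq V] (E : Finset (Sym2 V)), Loopless E →
      n0 ≤ Fintype.card V → (∀ v, Fintype.card V ≤ 2 * dg E v + 1) → ¬ Q3 E γ →
      ∃ A : Finset V, (1 / 2 - ε) * (Fintype.card V : ℝ) ≤ (A.card : ℝ) ∧
        (1 / 2 - ε) * (Fintype.card V : ℝ) ≤ (Aᶜ.card : ℝ) ∧
        (((cross E A).card : ℝ) ≤ ε * (Fintype.card V : ℝ) ^ 2 ∨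
          (A.card : ℝ) * (Aᶜ.card : ℝ) - ε * (Fintype.card V : ℝ) ^ 2 ≤ ((cross E A).card : ℝ))

/-- The graph contains a nearly complete balanced bipartite graph. -/
def S_caseIII : Prop :=
  ∃ ε : ℝ, 0 < ε ∧ ∃ n0 : ℕ,
    ∀ (V : Type) [Fintype V] [DecidableEq V] (E : Finset (Sym2 V)) (A : Finset V),
      n0 ≤ Fintype.card V → (∀ v, Fintype.card V ≤ 2 * dg E v + 1) → Div6 E →
      (1 / 2 - ε) * (Fintype.card V : ℝ) ≤ (A.card : ℝ) →
      (1 / 2 - ε) * (Fintype.card V : ℝ) ≤ (Aᶜ.card : ℝ) →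
      (A.card : ℝ) * (Aᶜ.card : ℝ) - ε * (Fintype.card V : ℝ) ^ 2 ≤ ((cross E A).card : ℝ) →
      Dec E

/-- `E` is the union of two complete graphs of the same size sharing exactly one vertex. -/
def TwoCliques {V : Type} [Fintype V] [DecidableEq V] (E : Finset (Sym2 V)) : Prop :=
  ∃ (z : V) (A B : Finset V), z ∉ A ∧ z ∉ B ∧ Disjoint A B ∧ insert z (A ∪ B) = univ ∧
    A.card = B.card ∧ ∀ u v, s(u, v) ∈ E ↔ u ≠ v ∧
      ((u ∈ insert z A ∧ v ∈ insert z A) ∨ (u ∈ insert z B ∧ v ∈ insert z B))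

/-- The graph is close to two disjoint cliques. -/
def S_caseII : Prop :=
  ∃ ε : ℝ, 0 < ε ∧ ∃ n0 : ℕ,
    ∀ (V : Type) [Fintype V] [DecidableEq V] (E : Finset (Sym2 V)) (A : Finset V),
      n0 ≤ Fintype.card V → (∀ v, Fintype.card V ≤ 2 * dg E v + 1) → Div6 E →
      (1 / 2 - ε) * (Fintype.card V : ℝ) ≤ (A.card : ℝ) →
      (1 / 2 - ε) * (Fintype.card V : ℝ) ≤ (Aᶜ.card : ℝ) →
      ((cross E A).card : ℝ) ≤ ε * (Fintype.card V : ℝ) ^ 2 →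
      Dec E ∨ TwoCliques E

/-- The upper bound. -/
def S_upper : Prop :=
  ∃ n0 : ℕ, ∀ (V : Type) [Fintype V] [DecidableEq V] (E : Finset (Sym2 V)),
    n0 ≤ Fintype.card V → (∀ v, Fintype.card V ≤ 2 * dg E v + 1) → Div6 E →
    Dec E ∨ TwoCliques E

end Pool.Agent.H483C6
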