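import Pool.Agent.H483C6.Basic
import Pool.Agent.H483C6.Stmts

/-!
# Path lemmas and the greedy lemma (MP_1bffa4_co, helper483)
-/

set_option autoImplicit false
set_option linter.unusedSectionVars false

namespace Pool.Agent.H483C6

open Finset

section P

variable {V : Type} [Fintype V] [DecidableEq V]

theorem card_pairs_le (F : Finset (Sym2 V)) (S : Finset V) (d : ℕ) (hF : ∀ x, dg F x ≤ d) :
    ((S ×ˢ S).filter fun t => s(t.1, t.2) ∈ F).card ≤ S.card * d := by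
  rw [card_filter, sum_product, ← smul_eq_mul, ← sum_const]
  refine sum_le_sum fun a _ => ?_
  refine le_trans ?_ (hF a)
  rw [← card_filter]
  refine card_le_card fun b hb => ?_
  simp only [mem_filter] at hb
  rw [mem_nb]
  exact hb.2

/-- A 3-path avoiding forbidden edges and forbidden vertices. -/
theorem path3 (D F : Finset (Sym2 V)) (S O : Finset V) (u v : V) (d : ℕ)
    (hF : ∀ x, dg F x ≤ d) (hO : O.card ≤ d) (h : 5 * d * S.card < cnt3 D S u v) :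
    ∃ a b, a ∈ S ∧ a ∉ O ∧ b ∈ S ∧ b ∉ O ∧ s(u, a) ∈ D ∧ s(u, a) ∉ F ∧ s(a, b) ∈ D ∧
      s(a, b) ∉ F ∧ s(b, v) ∈ D ∧ s(b, v) ∉ F := by
  by_contra hcon
  push Not at hcon
  have hsub : ((S ×ˢ S).filter fun t => s(u, t.1) ∈ D ∧ s(t.1, t.2) ∈ D ∧ s(t.2, v) ∈ D) ⊆
      (O ×ˢ S) ∪ (S ×ˢ O) ∪ (nb F u ×ˢ S) ∪ ((S ×ˢ S).filter fun t => s(t.1, t.2) ∈ F) ∪
        (S ×ˢ nb F v) := by
    rintro ⟨a, b⟩ ht
    simp only [mem_filter, mem_product] at ht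
    obtain ⟨⟨ha, hb⟩, h1, h2, h3⟩ := ht
    simp only [mem_union, mem_product, mem_filter, mem_nb]
    by_contra hc
    push Not at hc
    obtain ⟨⟨⟨⟨c1, c2⟩, c3⟩, c4⟩, c5⟩ := hc
    have d1 : a ∉ O := fun h => (c1 h) hb
    have d2 : b ∉ O := c2 ha
    have d3 : s(u, a) ∉ F := fun h => (c3 h) hb
    have d4 : s(a, b) ∉ F := c4 ⟨ha, hb⟩
    have d5 : s(b, v) ∉ F := by rw [Sym2.eq_swap]; exact c5 ha
    exact d5 (hcon a b ha d1 hb d2 h1 d3 h2 d4 h3)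
  have hle := card_le_card hsub
  have e1 := card_union_le ((O ×ˢ S) ∪ (S ×ˢ O) ∪ (nb F u ×ˢ S) ∪
    ((S ×ˢ S).filter fun t => s(t.1, t.2) ∈ F)) (S ×ˢ nb F v)
  have e2 := card_union_le ((O ×ˢ S) ∪ (S ×ˢ O) ∪ (nb F u ×ˢ S))
    ((S ×ˢ S).filter fun t => s(t.1, t.2) ∈ F)
  have e3 := card_union_le ((O ×ˢ S) ∪ (S ×ˢ O)) (nb F u ×ˢ S)
  have e4 := card_union_le (O ×ˢ S) (S ×ˢ O)
  simp only [card_product] at e1 e2 e3 e4
  have f1 := card_pairs_le F S d hF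
  have f2 : O.card * S.card ≤ d * S.card := Nat.mul_le_mul_right _ hO
  have f3 : (nb F u).card * S.card ≤ d * S.card := Nat.mul_le_mul_right _ (hF u)
  have f4 : (nb F v).card * S.card ≤ d * S.card := Nat.mul_le_mul_right _ (hF v)
  unfold cnt3 at h
  nlinarith

/-- A 4-path avoiding forbidden edges and forbidden vertices. -/
theorem path4 (D F : Finset (Sym2 V)) (S O : Finset V) (u v : V) (d : ℕ)
    (hF : ∀ x, dg F x ≤ d) (hO : O.card ≤ d) (h : 7 * d * S.card ^ 2 < cnt4 D S u v) :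
    ∃ a b c, a ∈ S ∧ a ∉ O ∧ b ∈ S ∧ b ∉ O ∧ c ∈ S ∧ c ∉ O ∧ s(u, a) ∈ D ∧ s(u, a) ∉ F ∧
      s(a, b) ∈ D ∧ s(a, b) ∉ F ∧ s(b, c) ∈ D ∧ s(b, c) ∉ F ∧ s(c, v) ∈ D ∧ s(c, v) ∉ F := by
  by_contra hcon
  push Not at hcon
  set P := (S ×ˢ S).filter fun t => s(t.1, t.2) ∈ F with hP
  have hsub : ((S ×ˢ S ×ˢ S).filter fun t => s(u, t.1) ∈ D ∧ s(t.1, t.2.1) ∈ D ∧
      s(t.2.1, t.2.2) ∈ D ∧ s(t.2.2, v) ∈ D) ⊆
      (O ×ˢ S ×ˢ S) ∪ (S ×ˢ O ×ˢ S) ∪ (S ×ˢ S ×ˢ O) ∪ (nb F u ×ˢ S ×ˢ S) ∪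
        ((P ×ˢ S).image fun t => (t.1.1, t.1.2, t.2)) ∪ (S ×ˢ P) ∪ (S ×ˢ S ×ˢ nb F v) := by
    rintro ⟨a, b, c⟩ ht
    simp only [mem_filter, mem_product] at ht
    obtain ⟨⟨ha, hb, hc⟩, h1, h2, h3, h4⟩ := ht
    simp only [mem_union, mem_product, mem_nb, mem_image, hP, mem_filter]
    by_contra hcc
    push Not at hcc
    obtain ⟨⟨⟨⟨⟨⟨c1, c2⟩, c3⟩, c4⟩, c5⟩, c6⟩, c7⟩ := hcc
    have d1 : a ∉ O := fun h => (c1 h hb) hc
    have d2 : b ∉ O := fun h => (c2 ha h) hc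
    have d3 : c ∉ O := c3 ha hb
    have d4 : s(u, a) ∉ F := fun h => (c4 h hb) hc
    have d5 : s(a, b) ∉ F := fun h => c5 ((a, b), c) ⟨⟨⟨ha, hb⟩, h⟩, hc⟩ rfl
    have d6 : s(b, c) ∉ F := c6 ha ⟨hb, hc⟩
    have d7 : s(c, v) ∉ F := by rw [Sym2.eq_swap]; exact c7 ha hb
    exact d7 (hcon a b c ha d1 hb d2 hc d3 h1 d4 h2 d5 h3 d6 h4)
  have hle := card_le_card hsub
  have hPc : P.card ≤ S.card * d := card_pairs_le F S d hF
  have e1 := card_union_le ((O ×ˢ S ×ˢ S) ∪ (S ×ˢ O ×ˢ S) ∪ (S ×ˢ S ×ˢ O) ∪ (nb F u ×ˢ S ×ˢ S) ∪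
        ((P ×ˢ S).image fun t => (t.1.1, t.1.2, t.2)) ∪ (S ×ˢ P)) (S ×ˢ S ×ˢ nb F v)
  have e2 := card_union_le ((O ×ˢ S ×ˢ S) ∪ (S ×ˢ O ×ˢ S) ∪ (S ×ˢ S ×ˢ O) ∪ (nb F u ×ˢ S ×ˢ S) ∪
        ((P ×ˢ S).image fun t => (t.1.1, t.1.2, t.2))) (S ×ˢ P)
  have e3 := card_union_le ((O ×ˢ S ×ˢ S) ∪ (S ×ˢ O ×ˢ S) ∪ (S ×ˢ S ×ˢ O) ∪ (nb F u ×ˢ S ×ˢ S))
        ((P ×ˢ S).image fun t => (t.1.1, t.1.2, t.2))
  have e4 := card_union_le ((O ×ˢ S ×ˢ S) ∪ (S ×ˢ O ×ˢ S) ∪ (S ×ˢ S ×ˢ O)) (nb F u ×ˢ S ×ˢ S)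
  have e5 := card_union_le ((O ×ˢ S ×ˢ S) ∪ (S ×ˢ O ×ˢ S)) (S ×ˢ S ×ˢ O)
  have e6 := card_union_le (O ×ˢ S ×ˢ S) (S ×ˢ O ×ˢ S)
  have e7 : ((P ×ˢ S).image fun t => (t.1.1, t.1.2, t.2)).card ≤ P.card * S.card := by
    rw [← card_product]; exact card_image_le
  simp only [card_product] at e1 e2 e3 e4 e5 e6 e7
  have hS2 : S.card ^ 2 = S.card * S.card := sq _
  have f1 : O.card * (S.card * S.card) ≤ d * (S.card * S.card) := Nat.mul_le_mul_right _ hO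
  have f2 : S.card * (O.card * S.card) ≤ S.card * (d * S.card) :=
    Nat.mul_le_mul_left _ (Nat.mul_le_mul_right _ hO)
  have f3 : S.card * (S.card * O.card) ≤ S.card * (S.card * d) :=
    Nat.mul_le_mul_left _ (Nat.mul_le_mul_left _ hO)
  have f4 : (nb F u).card * (S.card * S.card) ≤ d * (S.card * S.card) :=
    Nat.mul_le_mul_right _ (hF u)
  have f5 : P.card * S.card ≤ S.card * d * S.card := Nat.mul_le_mul_right _ hPc
  have f6 : S.card * P.card ≤ S.card * (S.card * d) := Nat.mul_le_mul_left _ hPc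
  have f7 : S.card * (S.card * (nb F v).card) ≤ S.card * (S.card * d) :=
    Nat.mul_le_mul_left _ (Nat.mul_le_mul_left _ (hF v))
  unfold cnt4 at h
  rw [hS2] at h
  nlinarith

/-- A 4-path avoiding forbidden edges and forbidden vertices, with distinct inner vertices. -/
theorem path4' (D F : Finset (Sym2 V)) (S O : Finset V) (u v : V) (d : ℕ)
    (hF : ∀ x, dg F x ≤ d) (hO : O.card ≤ d) (h : 7 * d * S.card ^ 2 + S.card ^ 2 < cnt4 D S u v) :
    ∃ a b c, a ≠ c ∧ a ∈ S ∧ a ∉ O ∧ b ∈ S ∧ b ∉ O ∧ c ∈ S ∧ c ∉ O ∧ s(u, a) ∈ D ∧ s(u, a) ∉ F ∧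
      s(a, b) ∈ D ∧ s(a, b) ∉ F ∧ s(b, c) ∈ D ∧ s(b, c) ∉ F ∧ s(c, v) ∈ D ∧ s(c, v) ∉ F := by
  by_contra hcon
  push Not at hcon
  set P := (S ×ˢ S).filter fun t => s(t.1, t.2) ∈ F with hP
  have hsub : ((S ×ˢ S ×ˢ S).filter fun t => s(u, t.1) ∈ D ∧ s(t.1, t.2.1) ∈ D ∧
      s(t.2.1, t.2.2) ∈ D ∧ s(t.2.2, v) ∈ D) ⊆
      (O ×ˢ S ×ˢ S) ∪ (S ×ˢ O ×ˢ S) ∪ (S ×ˢ S ×ˢ O) ∪ (nb F u ×ˢ S ×ˢ S) ∪
        ((P ×ˢ S).image fun t => (t.1.1, t.1.2, t.2)) ∪ (S ×ˢ P) ∪ (S ×ˢ S ×ˢ nb F v) ∪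
        ((S ×ˢ S).image fun t => (t.1, t.2, t.1)) := by
    rintro ⟨a, b, c⟩ ht
    simp only [mem_filter, mem_product] at ht
    obtain ⟨⟨ha, hb, hc⟩, h1, h2, h3, h4⟩ := ht
    simp only [mem_union, mem_product, mem_nb, mem_image, hP, mem_filter]
    by_contra hcc
    push Not at hcc
    obtain ⟨⟨⟨⟨⟨⟨⟨c1, c2⟩, c3⟩, c4⟩, c5⟩, c6⟩, c7⟩, c8⟩ := hcc
    have d1 : a ∉ O := fun h => (c1 h hb) hc
    have d2 : b ∉ O := fun h => (c2 ha h) hc
    have d3 : c ∉ O := c3 ha hb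
    have d4 : s(u, a) ∉ F := fun h => (c4 h hb) hc
    have d5 : s(a, b) ∉ F := fun h => c5 ((a, b), c) ⟨⟨⟨ha, hb⟩, h⟩, hc⟩ rfl
    have d6 : s(b, c) ∉ F := c6 ha ⟨hb, hc⟩
    have d7 : s(c, v) ∉ F := by rw [Sym2.eq_swap]; exact c7 ha hb
    have d8 : a ≠ c := fun h => c8 (a, b) ⟨ha, hb⟩ (by rw [h])
    exact d7 (hcon a b c d8 ha d1 hb d2 hc d3 h1 d4 h2 d5 h3 d6 h4)
  have hle := card_le_card hsub
  have hPc : P.card ≤ S.card * d := card_pairs_le F S d hF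
  have e0 := card_union_le ((O ×ˢ S ×ˢ S) ∪ (S ×ˢ O ×ˢ S) ∪ (S ×ˢ S ×ˢ O) ∪ (nb F u ×ˢ S ×ˢ S) ∪
        ((P ×ˢ S).image fun t => (t.1.1, t.1.2, t.2)) ∪ (S ×ˢ P) ∪ (S ×ˢ S ×ˢ nb F v))
        ((S ×ˢ S).image fun t => (t.1, t.2, t.1))
  have e00 : ((S ×ˢ S).image fun t => (t.1, t.2, t.1)).card ≤ S.card * S.card := by
    rw [← card_product]; exact card_image_le
  have e1 := card_union_le ((O ×ˢ S ×ˢ S) ∪ (S ×ˢ O ×ˢ S) ∪ (S ×ˢ S ×ˢ O) ∪ (nb F u ×ˢ S ×ˢ S) ∪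
        ((P ×ˢ S).image fun t => (t.1.1, t.1.2, t.2)) ∪ (S ×ˢ P)) (S ×ˢ S ×ˢ nb F v)
  have e2 := card_union_le ((O ×ˢ S ×ˢ S) ∪ (S ×ˢ O ×ˢ S) ∪ (S ×ˢ S ×ˢ O) ∪ (nb F u ×ˢ S ×ˢ S) ∪
        ((P ×ˢ S).image fun t => (t.1.1, t.1.2, t.2))) (S ×ˢ P)
  have e3 := card_union_le ((O ×ˢ S ×ˢ S) ∪ (S ×ˢ O ×ˢ S) ∪ (S ×ˢ S ×ˢ O) ∪ (nb F u ×ˢ S ×ˢ S))
        ((P ×ˢ S).image fun t => (t.1.1, t.1.2, t.2))
  have e4 := card_union_le ((O ×ˢ S ×ˢ S) ∪ (S ×ˢ O ×ˢ S) ∪ (S ×ˢ S ×ˢ O)) (nb F u ×ˢ S ×ˢ S)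
  have e5 := card_union_le ((O ×ˢ S ×ˢ S) ∪ (S ×ˢ O ×ˢ S)) (S ×ˢ S ×ˢ O)
  have e6 := card_union_le (O ×ˢ S ×ˢ S) (S ×ˢ O ×ˢ S)
  have e7 : ((P ×ˢ S).image fun t => (t.1.1, t.1.2, t.2)).card ≤ P.card * S.card := by
    rw [← card_product]; exact card_image_le
  simp only [card_product] at e0 e1 e2 e3 e4 e5 e6 e7
  have hS2 : S.card ^ 2 = S.card * S.card := sq _
  have f1 : O.card * (S.card * S.card) ≤ d * (S.card * S.card) := Nat.mul_le_mul_right _ hO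
  have f2 : S.card * (O.card * S.card) ≤ S.card * (d * S.card) :=
    Nat.mul_le_mul_left _ (Nat.mul_le_mul_right _ hO)
  have f3 : S.card * (S.card * O.card) ≤ S.card * (S.card * d) :=
    Nat.mul_le_mul_left _ (Nat.mul_le_mul_left _ hO)
  have f4 : (nb F u).card * (S.card * S.card) ≤ d * (S.card * S.card) :=
    Nat.mul_le_mul_right _ (hF u)
  have f5 : P.card * S.card ≤ S.card * d * S.card := Nat.mul_le_mul_right _ hPc
  have f6 : S.card * P.card ≤ S.card * (S.card * d) := Nat.mul_le_mul_left _ hPc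
  have f7 : S.card * (S.card * (nb F v).card) ≤ S.card * (S.card * d) :=
    Nat.mul_le_mul_left _ (Nat.mul_le_mul_left _ (hF v))
  unfold cnt4 at h
  rw [hS2] at h
  nlinarith


end P

/-- The greedy lemma. -/
theorem greedy : S_greedy := by
  intro V _ _ ι _ J cand ep Λ h1 h2
  have key : ∀ J' : Finset ι, J' ⊆ J → ∃ (T : ι → Finset (Sym2 V)) (I : ι → Finset V),
      (∀ j ∈ J', cand j (T j) (I j)) ∧
      (∀ i ∈ J', ∀ j ∈ J', i ≠ j → Disjoint (T i) (T j)) ∧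
      ∀ v, (J'.filter fun j => v ∈ I j).card ≤ Λ := by
    intro J'
    induction J' using Finset.induction_on with
    | empty => intro _; exact ⟨fun _ => ∅, fun _ => ∅, by simp, by simp, by simp⟩
    | insert j J' hj ih =>
      intro hsub
      have hj' : j ∈ J := hsub (mem_insert_self _ _)
      have hJ' : J' ⊆ J := fun i hi => hsub (mem_insert_of_mem hi)
      obtain ⟨T, I, a1, a2, a3⟩ := ih hJ'
      set O : Finset V := univ.filter fun v => Λ ≤ (J'.filter fun j => v ∈ I j).card with hO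
      have hdeg : ∀ v, dg (J'.biUnion T) v ≤ (∑ i ∈ J, ep i v) + 2 * Λ := by
        intro v
        rw [dg_biUnion J' T a2]
        have b1 : ∀ i ∈ J', dg (T i) v ≤ ep i v + (if v ∈ I i then 2 else 0) :=
          fun i hi => (h1 i (hJ' hi) _ _ (a1 i hi)).2 v
        refine (sum_le_sum b1).trans ?_
        rw [sum_add_distrib]
        have b2 : ∑ i ∈ J', ep i v ≤ ∑ i ∈ J, ep i v := sum_le_sum_of_subset hJ'
        have b3 : ∑ i ∈ J', (if v ∈ I i then 2 else 0) = 2 * (J'.filter fun j => v ∈ I j).card := by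
          rw [card_filter, mul_sum]
          refine sum_congr rfl fun i _ => ?_
          split_ifs <;> rfl
        have b4 := a3 v
        omega
      have hOc : Λ * O.card ≤ 4 * J.card := by
        have c1 : ∑ v ∈ O, Λ ≤ ∑ v ∈ O, (J'.filter fun j => v ∈ I j).card :=
          sum_le_sum fun v hv => by rw [hO, mem_filter] at hv; exact hv.2
        have c2 : ∑ v ∈ O, (J'.filter fun j => v ∈ I j).card ≤
            ∑ v, (J'.filter fun j => v ∈ I j).card := sum_le_sum_of_subset (subset_univ _)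
        have c3 : ∑ v, (J'.filter fun j => v ∈ I j).card = ∑ j ∈ J', (I j).card := by
          simp only [card_filter]
          rw [sum_comm]
          refine sum_congr rfl fun i _ => ?_
          rw [← card_filter]
          congr 1
          ext v; simp
        have c4 : ∑ j ∈ J', (I j).card ≤ ∑ j ∈ J', 4 :=
          sum_le_sum fun i hi => (h1 i (hJ' hi) _ _ (a1 i hi)).1
        rw [sum_const, smul_eq_mul] at c1 c4
        have c5 := card_le_card hJ'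
        nlinarith
      obtain ⟨T0, I0, hc, hd1, hd2⟩ := h2 j hj' (J'.biUnion T) O hdeg hOc
      refine ⟨Function.update T j T0, Function.update I j I0, ?_, ?_, ?_⟩
      · intro i hi
        by_cases hij : i = j
        · subst hij; simpa using hc
        · rw [Function.update_of_ne hij, Function.update_of_ne hij]
          exact a1 i ((mem_insert.1 hi).resolve_left hij)
      · intro i hi k hk hik
        have hd : ∀ i ∈ J', Disjoint T0 (T i) := fun i hi =>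
          hd1.mono_right (subset_biUnion_of_mem T hi)
        by_cases hij : i = j <;> by_cases hkj : k = j
        · exact absurd (hij.trans hkj.symm) hik
        · rw [Function.update_of_ne hkj, hij, Function.update_self]
          exact hd k ((mem_insert.1 hk).resolve_left hkj)
        · rw [Function.update_of_ne hij, hkj, Function.update_self]
          exact (hd i ((mem_insert.1 hi).resolve_left hij)).symm
        · rw [Function.update_of_ne hij, Function.update_of_ne hkj]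
          exact a2 i ((mem_insert.1 hi).resolve_left hij) k ((mem_insert.1 hk).resolve_left hkj) hik
      · intro v
        have e1 : (J'.filter fun i => v ∈ Function.update I j I0 i) =
            J'.filter fun i => v ∈ I i := by
          refine filter_congr fun i hi => ?_
          have hij : i ≠ j := fun e => hj (by rw [← e]; exact hi)
          rw [Function.update_of_ne hij]
        rw [filter_insert, Function.update_self]
        split_ifs with hv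
        · have hvO : v ∉ O := disjoint_left.1 hd2 hv
          rw [hO, mem_filter] at hvO
          push Not at hvO
          have := hvO (mem_univ _)
          rw [e1]
          refine (card_insert_le _ _).trans ?_
          omega
        · rw [e1]; exact a3 v
  obtain ⟨T, I, a1, a2, a3⟩ := key J Subset.rfl
  refine ⟨T, fun j hj => ⟨I j, a1 j hj⟩, a2, ?_⟩
  intro v
  rw [dg_biUnion J T a2]
  have b1 : ∀ i ∈ J, dg (T i) v ≤ ep i v + (if v ∈ I i then 2 else 0) :=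
    fun i hi => (h1 i hi _ _ (a1 i hi)).2 v
  refine (sum_le_sum b1).trans ?_
  rw [sum_add_distrib]
  have b3 : ∑ i ∈ J, (if v ∈ I i then 2 else 0) = 2 * (J.filter fun j => v ∈ I j).card := by
    rw [card_filter, mul_sum]
    refine sum_congr rfl fun i _ => ?_
    split_ifs <;> rfl
  have b4 := a3 v
  omega

end Pool.Agent.H483C6
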