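-- cov2
import Pool.Agent.H483C6.Paths
import Pool.Agent.H483C6.Approx

set_option autoImplicit false

namespace Pool.Agent.H483C6

open Finset

namespace Cov2

theorem card_prod {α β : Type} (A : Finset α) (B : Finset β) (R : α → β → Prop)
    [∀ a, DecidablePred (R a)] [DecidablePred fun t : α × β => R t.1 t.2] :
    (((A ×ˢ B).filter fun t => R t.1 t.2).card : ℝ) = ∑ a ∈ A, ((B.filter (R a)).card : ℝ) := by
  rw [Finset.card_filter, Finset.sum_product, Nat.cast_sum]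
  refine Finset.sum_congr rfl fun a _ => ?_
  rw [Finset.card_filter]
  refine congrArg _ (Finset.sum_congr rfl fun b _ => ?_)
  by_cases h : R a b
  · rw [if_pos h, if_pos h]
  · rw [if_neg h, if_neg h]

theorem prod_lower {α β : Type} (A : Finset α) (B : Finset β) (R : α → β → Prop)
    [∀ a, DecidablePred (R a)] [DecidablePred fun t : α × β => R t.1 t.2] {k1 k2 : ℝ}
    (hk2 : 0 ≤ k2) (A' : Finset α) (hA : A' ⊆ A) (h1 : k1 ≤ (A'.card : ℝ))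
    (h2 : ∀ a ∈ A', k2 ≤ ((B.filter (R a)).card : ℝ)) :
    k1 * k2 ≤ (((A ×ˢ B).filter fun t => R t.1 t.2).card : ℝ) := by
  rw [card_prod]
  calc k1 * k2 ≤ (A'.card : ℝ) * k2 := mul_le_mul_of_nonneg_right h1 hk2
    _ = ∑ a ∈ A', k2 := by rw [Finset.sum_const, nsmul_eq_mul]
    _ ≤ ∑ a ∈ A', ((B.filter (R a)).card : ℝ) := Finset.sum_le_sum h2
    _ ≤ ∑ a ∈ A, ((B.filter (R a)).card : ℝ) :=
        Finset.sum_le_sum_of_subset_of_nonneg hA fun _ _ _ => Nat.cast_nonneg _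

theorem prod_upper {α β : Type} (A : Finset α) (B : Finset β) (R : α → β → Prop)
    [∀ a, DecidablePred (R a)] [DecidablePred fun t : α × β => R t.1 t.2] {K : ℝ}
    (h : ∀ a ∈ A, ((B.filter (R a)).card : ℝ) ≤ K) :
    (((A ×ˢ B).filter fun t => R t.1 t.2).card : ℝ) ≤ (A.card : ℝ) * K := by
  rw [card_prod]
  calc ∑ a ∈ A, ((B.filter (R a)).card : ℝ) ≤ ∑ a ∈ A, K := Finset.sum_le_sum h
    _ = (A.card : ℝ) * K := by rw [Finset.sum_const, nsmul_eq_mul]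

variable {V : Type} [Fintype V] [DecidableEq V]

theorem card_left (M : Finset (Sym2 V)) (U : Finset V) (x : V) :
    ((U.filter fun a => s(x, a) ∈ M).card : ℝ) ≤ (dg M x : ℝ) := by
  have h : (U.filter fun a => s(x, a) ∈ M) ⊆ nb M x := by
    intro a ha
    exact Finset.mem_filter.2 ⟨Finset.mem_univ _, (Finset.mem_filter.1 ha).2⟩
  exact_mod_cast Finset.card_le_card h

theorem card_right (M : Finset (Sym2 V)) (U : Finset V) (x : V) :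
    ((U.filter fun a => s(a, x) ∈ M).card : ℝ) ≤ (dg M x : ℝ) := by
  have h : (U.filter fun a => s(a, x) ∈ M) ⊆ nb M x := by
    intro a ha
    refine Finset.mem_filter.2 ⟨Finset.mem_univ _, ?_⟩
    rw [Sym2.eq_swap]
    exact (Finset.mem_filter.1 ha).2
  exact_mod_cast Finset.card_le_card h

/-- the four sets of bad triples -/
theorem bad1 (M : Finset (Sym2 V)) (U : Finset V) {K : ℝ} (x : V) (h : (dg M x : ℝ) ≤ K) :
    (((U ×ˢ U ×ˢ U).filter fun t => s(x, t.1) ∈ M).card : ℝ) ≤ K * (U.card : ℝ) ^ 2 := by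
  have h1 : ((U ×ˢ U ×ˢ U).filter fun t => s(x, t.1) ∈ M) =
      (U.filter fun a => s(x, a) ∈ M) ×ˢ (U ×ˢ U) := by
    ext t
    simp only [Finset.mem_filter, Finset.mem_product]
    tauto
  rw [h1, Finset.card_product, Finset.card_product]
  push_cast
  rw [← sq]
  exact mul_le_mul_of_nonneg_right ((card_left M U x).trans h) (by positivity)

theorem bad2 (M : Finset (Sym2 V)) (U : Finset V) {K : ℝ} (h : ∀ x, (dg M x : ℝ) ≤ K) :
    (((U ×ˢ U ×ˢ U).filter fun t => s(t.1, t.2.1) ∈ M).card : ℝ) ≤ K * (U.card : ℝ) ^ 2 := by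
  have h2 := prod_upper U (U ×ˢ U) (fun (a : V) (t : V × V) => s(a, t.1) ∈ M)
    (K := K * (U.card : ℝ)) (by
      intro a _
      have h1 : ((U ×ˢ U).filter fun t => s(a, t.1) ∈ M) = (U.filter fun b => s(a, b) ∈ M) ×ˢ U := by
        ext t
        simp only [Finset.mem_filter, Finset.mem_product]
        tauto
      rw [h1, Finset.card_product]
      push_cast
      exact mul_le_mul_of_nonneg_right ((card_left M U a).trans (h a)) (by positivity))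
  refine h2.trans (le_of_eq ?_)
  ring

theorem bad3 (M : Finset (Sym2 V)) (U : Finset V) {K : ℝ} (h : ∀ x, (dg M x : ℝ) ≤ K) :
    (((U ×ˢ U ×ˢ U).filter fun t => s(t.2.1, t.2.2) ∈ M).card : ℝ) ≤ K * (U.card : ℝ) ^ 2 := by
  have h2 := prod_upper U (U ×ˢ U) (fun (_ : V) (t : V × V) => s(t.1, t.2) ∈ M)
    (K := (U.card : ℝ) * K) (by
      intro a _
      exact prod_upper U U (fun (b c : V) => s(b, c) ∈ M) (K := K) fun b _ =>
        (card_left M U b).trans (h b))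
  refine h2.trans (le_of_eq ?_)
  ring

theorem bad4 (M : Finset (Sym2 V)) (U : Finset V) {K : ℝ} (y : V) (h : (dg M y : ℝ) ≤ K) :
    (((U ×ˢ U ×ˢ U).filter fun t => s(t.2.2, y) ∈ M).card : ℝ) ≤ K * (U.card : ℝ) ^ 2 := by
  have h2 := prod_upper U (U ×ˢ U) (fun (_ : V) (t : V × V) => s(t.2, y) ∈ M)
    (K := (U.card : ℝ) * K) (by
      intro a _
      exact prod_upper U U (fun (_ c : V) => s(c, y) ∈ M) (K := K) fun b _ =>
        (card_right M U y).trans h)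
  refine h2.trans (le_of_eq ?_)
  ring

omit [Fintype V] in
/-- many walks of length four with inner vertices in `W` -/
theorem many {E : Finset (Sym2 V)} {U W : Finset V} {γ : ℝ} (hγ : 0 < γ) (hW : W ⊆ U)
    (hP : P3 E γ U W) {v x y : V} (hv : v ∈ U) (hx : x ∈ U) (hy : y ∈ U) (h1 : s(v, x) ∈ E)
    (h2 : s(v, y) ∈ E) :
    (γ * (W.card : ℝ)) ^ 3 ≤ (((W ×ˢ W ×ˢ W).filter fun t => s(x, t.1) ∈ E ∧ s(t.1, t.2.1) ∈ E ∧
      s(t.2.1, t.2.2) ∈ E ∧ s(t.2.2, y) ∈ E).card : ℝ) := by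
  have hk : 0 ≤ γ * (W.card : ℝ) := by positivity
  have hxv : s(x, v) ∈ E := by rwa [Sym2.eq_swap]
  have ha := hP x hx v hv ⟨v, x, hxv, h1, hxv⟩
  have hb : ∀ a ∈ (W.filter fun a => s(x, a) ∈ E ∧
      γ * (W.card : ℝ) ≤ ((W.filter fun b => s(a, b) ∈ E ∧ s(b, v) ∈ E).card : ℝ)),
      (γ * (W.card : ℝ)) * (γ * (W.card : ℝ)) ≤ (((W ×ˢ W).filter fun t => s(x, a) ∈ E ∧
        s(a, t.1) ∈ E ∧ s(t.1, t.2) ∈ E ∧ s(t.2, y) ∈ E).card : ℝ) := by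
    intro a ha
    obtain ⟨haW, hxa, -⟩ := Finset.mem_filter.1 ha
    have hax : s(a, x) ∈ E := by rwa [Sym2.eq_swap]
    have h3 := hP a (hW haW) y hy ⟨x, v, hax, hxv, h2⟩
    refine prod_lower W W (fun (b c : V) => s(x, a) ∈ E ∧ s(a, b) ∈ E ∧ s(b, c) ∈ E ∧
      s(c, y) ∈ E) hk _ (Finset.filter_subset _ _) h3 ?_
    intro b hb
    obtain ⟨-, hab, h4⟩ := Finset.mem_filter.1 hb
    refine h4.trans (le_of_eq ?_)
    congr 2
    ext c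
    simp [hxa, hab]
  have h3 := prod_lower W (W ×ˢ W) (fun (a : V) (t : V × V) => s(x, a) ∈ E ∧ s(a, t.1) ∈ E ∧
    s(t.1, t.2) ∈ E ∧ s(t.2, y) ∈ E) (mul_nonneg hk hk) _ (Finset.filter_subset _ _) ha hb
  calc (γ * (W.card : ℝ)) ^ 3 = γ * (W.card : ℝ) * ((γ * (W.card : ℝ)) * (γ * (W.card : ℝ))) := by
        ring
    _ ≤ _ := h3

end Cov2

/-- TARGET -/
theorem cov2 : ∀ γ c : ℝ, 0 < γ → γ ≤ 1 → 0 < c → c ≤ 1 → ∃ δ : ℝ, 0 < δ ∧ ∀ η2 : ℝ, 0 < η2 →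
    ∃ N0 : ℕ, ∀ (V : Type) [Fintype V] [DecidableEq V] (E : Finset (Sym2 V)) (U U1 : Finset V),
      Loopless E → U1 ⊆ U → N0 ≤ U.card → c * (U.card : ℝ) ≤ ((U \ U1).card : ℝ) →
      P3 E γ U (U \ U1) →
      ∀ D : Finset (Sym2 V), D ⊆ (E ∩ U.sym2) \ U1.sym2 →
        (∀ v, (dg (((E ∩ U.sym2) \ U1.sym2) \ D) v : ℝ) ≤ δ * (U.card : ℝ)) →
        ∃ L ⊆ D, Dec (D \ L) ∧ ∀ v, (dg L v : ℝ) ≤ η2 * (U.card : ℝ) := by
  intro γ c hγ hγ1 hc hc1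
  refine ⟨γ ^ 3 * c ^ 3 / 8, by positivity, fun η2 hη2 => ?_⟩
  obtain ⟨N0, hN0⟩ := approx (γ ^ 3 * c ^ 3 / 2) η2 (by positivity) hη2
  refine ⟨N0, fun V _ _ E U U1 hE hU1 hN hcU hP D hD hdeg => ?_⟩
  have hDE : D ⊆ E := fun e he => (Finset.mem_inter.1 (Finset.mem_sdiff.1 (hD he)).1).1
  have hDU : D ⊆ U.sym2 := fun e he => (Finset.mem_inter.1 (Finset.mem_sdiff.1 (hD he)).1).2
  refine hN0 V U D (fun e he => hE e (hDE he)) hDU hN ?_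
  intro v x y hx hy _
  set M := ((E ∩ U.sym2) \ U1.sym2) \ D with hM
  set N : ℝ := (U.card : ℝ) with hNdef
  have hvU : v ∈ U ∧ x ∈ U := Finset.mk_mem_sym2_iff.1 (hDU hx)
  have hyU : y ∈ U := (Finset.mk_mem_sym2_iff.1 (hDU hy)).2
  have h1 := Cov2.many hγ Finset.sdiff_subset hP hvU.1 hvU.2 hyU (hDE hx) (hDE hy)
  -- the inclusion
  have h2 : (((U \ U1) ×ˢ (U \ U1) ×ˢ (U \ U1)).filter fun t => s(x, t.1) ∈ E ∧
      s(t.1, t.2.1) ∈ E ∧ s(t.2.1, t.2.2) ∈ E ∧ s(t.2.2, y) ∈ E) ⊆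
      ((U ×ˢ U ×ˢ U).filter fun t => s(x, t.1) ∈ D ∧ s(t.1, t.2.1) ∈ D ∧ s(t.2.1, t.2.2) ∈ D ∧
        s(t.2.2, y) ∈ D) ∪ (((U ×ˢ U ×ˢ U).filter fun t => s(x, t.1) ∈ M) ∪
        (((U ×ˢ U ×ˢ U).filter fun t => s(t.1, t.2.1) ∈ M) ∪
        (((U ×ˢ U ×ˢ U).filter fun t => s(t.2.1, t.2.2) ∈ M) ∪
        ((U ×ˢ U ×ˢ U).filter fun t => s(t.2.2, y) ∈ M)))) := by
    intro t ht
    simp only [Finset.mem_filter, Finset.mem_product, Finset.mem_sdiff, Finset.mem_union] at ht ⊢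
    obtain ⟨⟨⟨a1, a2⟩, ⟨b1, b2⟩, c1, c2⟩, e1, e2, e3, e4⟩ := ht
    have hF : ∀ p q, s(p, q) ∈ E → p ∈ U → q ∈ U → (p ∉ U1 ∨ q ∉ U1) → s(p, q) ∉ D →
        s(p, q) ∈ M := by
      intro p q h3 h4 h5 h6 h7
      rw [hM, Finset.mem_sdiff, Finset.mem_sdiff, Finset.mem_inter, Finset.mk_mem_sym2_iff,
        Finset.mk_mem_sym2_iff]
      exact ⟨⟨⟨h3, h4, h5⟩, fun h8 => h6.elim (fun h => h h8.1) (fun h => h h8.2)⟩, h7⟩
    by_cases d1 : s(x, t.1) ∈ D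
    · by_cases d2 : s(t.1, t.2.1) ∈ D
      · by_cases d3 : s(t.2.1, t.2.2) ∈ D
        · by_cases d4 : s(t.2.2, y) ∈ D
          · exact Or.inl ⟨⟨a1, b1, c1⟩, d1, d2, d3, d4⟩
          · exact Or.inr (Or.inr (Or.inr (Or.inr ⟨⟨a1, b1, c1⟩,
              hF _ _ e4 c1 hyU (Or.inl c2) d4⟩)))
        · exact Or.inr (Or.inr (Or.inr (Or.inl ⟨⟨a1, b1, c1⟩, hF _ _ e3 b1 c1 (Or.inl b2) d3⟩)))
      · exact Or.inr (Or.inr (Or.inl ⟨⟨a1, b1, c1⟩, hF _ _ e2 a1 b1 (Or.inl a2) d2⟩))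
    · exact Or.inr (Or.inl ⟨⟨a1, b1, c1⟩, hF _ _ e1 hvU.2 a1 (Or.inr a2) d1⟩)
  have h3 : ((((U \ U1) ×ˢ (U \ U1) ×ˢ (U \ U1)).filter fun t => s(x, t.1) ∈ E ∧
      s(t.1, t.2.1) ∈ E ∧ s(t.2.1, t.2.2) ∈ E ∧ s(t.2.2, y) ∈ E).card : ℝ) ≤
      (cnt4 D U x y : ℝ) + (((((U ×ˢ U ×ˢ U).filter fun t => s(x, t.1) ∈ M).card : ℝ)) +
      (((((U ×ˢ U ×ˢ U).filter fun t => s(t.1, t.2.1) ∈ M).card : ℝ)) +
      (((((U ×ˢ U ×ˢ U).filter fun t => s(t.2.1, t.2.2) ∈ M).card : ℝ)) +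
      ((((U ×ˢ U ×ˢ U).filter fun t => s(t.2.2, y) ∈ M).card : ℝ))))) := by
    unfold cnt4
    exact_mod_cast (Finset.card_le_card h2).trans ((Finset.card_union_le _ _).trans
      (Nat.add_le_add_left ((Finset.card_union_le _ _).trans
      (Nat.add_le_add_left ((Finset.card_union_le _ _).trans
      (Nat.add_le_add_left (Finset.card_union_le _ _) _)) _)) _))
  have b1 := Cov2.bad1 M U x (hdeg x)
  have b2 := Cov2.bad2 M U hdeg
  have b3 := Cov2.bad3 M U hdeg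
  have b4 := Cov2.bad4 M U y (hdeg y)
  have h4 : γ ^ 3 * c ^ 3 * N ^ 3 ≤ (γ * ((U \ U1).card : ℝ)) ^ 3 := by
    rw [mul_pow, mul_assoc]
    refine mul_le_mul_of_nonneg_left ?_ (by positivity)
    rw [← mul_pow]
    exact pow_le_pow_left₀ (by positivity) hcU 3
  have h5 : γ ^ 3 * c ^ 3 / 8 * N * N ^ 2 = γ ^ 3 * c ^ 3 * N ^ 3 / 8 := by ring
  rw [← hNdef, h5] at b1 b2 b3 b4
  have h6 : γ ^ 3 * c ^ 3 / 2 * N ^ 3 = γ ^ 3 * c ^ 3 * N ^ 3 / 2 := by ring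
  rw [h6]
  linarith

end Pool.Agent.H483C6
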