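import Pool.Agent.H483C6.Paths
import Pool.Agent.H483C6.Stmts2

/-!
# Splitting into short paths (MP_1bffa4_co)
-/

set_option autoImplicit false
set_option linter.unusedSectionVars false

namespace Pool.Agent.H483C6

open Finset

namespace PiecesAux

variable {V : Type} [Fintype V] [DecidableEq V]

theorem nbA_w {a w w' d : V} (haw : a ≠ w) (haw' : a ≠ w') (hdw : d ≠ w) (hww : w ≠ w') :
    nb ({s(a, w), s(w, w'), s(w', d)} : Finset (Sym2 V)) w = {a, w'} := by
  ext u
  simp only [mem_nb, mem_insert, mem_singleton, Sym2.eq_iff]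
  constructor
  · rintro ((⟨h1, h2⟩ | ⟨h1, h2⟩) | (⟨h1, h2⟩ | ⟨h1, h2⟩) | (⟨h1, h2⟩ | ⟨h1, h2⟩))
    · exact absurd h1.symm haw
    · exact Or.inl h2
    · exact Or.inr h2
    · exact absurd h1 hww
    · exact absurd h1 hww
    · exact absurd h1.symm hdw
  · rintro (rfl | rfl)
    · simp
    · simp

theorem setA_rev (a w w' d : V) : ({s(a, w), s(w, w'), s(w', d)} : Finset (Sym2 V)) =
    {s(d, w'), s(w', w), s(w, a)} := by
  rw [Sym2.eq_swap (a := a), Sym2.eq_swap (a := w) (b := w'), Sym2.eq_swap (a := w') (b := d)]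
  ext x
  simp only [mem_insert, mem_singleton]
  tauto

theorem nbA_of {a w w' d v : V} (h1 : v ≠ a) (h2 : v ≠ w) (h3 : v ≠ w') (h4 : v ≠ d) :
    nb ({s(a, w), s(w, w'), s(w', d)} : Finset (Sym2 V)) v = ∅ := by
  ext u
  simp only [mem_nb, mem_insert, mem_singleton, Sym2.eq_iff, notMem_empty, iff_false]
  tauto

theorem nbB_w {u w u' : V} (h1 : u ≠ w) (h2 : u' ≠ w) :
    nb ({s(u, w), s(w, u')} : Finset (Sym2 V)) w = {u, u'} := by
  ext x
  simp only [mem_nb, mem_insert, mem_singleton, Sym2.eq_iff]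
  constructor
  · rintro ((⟨h3, h4⟩ | ⟨h3, h4⟩) | (⟨h3, h4⟩ | ⟨h3, h4⟩))
    · exact absurd h3.symm h1
    · exact Or.inl h4
    · exact Or.inr h4
    · exact absurd h3.symm h2
  · rintro (rfl | rfl)
    · simp
    · simp

theorem nbB_of {u w u' v : V} (h1 : v ≠ u) (h2 : v ≠ w) (h3 : v ≠ u') :
    nb ({s(u, w), s(w, u')} : Finset (Sym2 V)) v = ∅ := by
  ext x
  simp only [mem_nb, mem_insert, mem_singleton, Sym2.eq_iff, notMem_empty, iff_false]
  tauto

theorem even_sdiff {R S : Finset (Sym2 V)} (h : S ⊆ R) {v : V} (h1 : Even (dg R v))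
    (h2 : Even (dg S v)) : Even (dg (R \ S) v) := by
  rw [← dg_sdiff_add h] at h1
  exact (Nat.even_add.1 h1).2 h2

theorem assemble {W U1 Y : Finset V} {R S : Finset (Sym2 V)} (hS : S ⊆ R)
    (hp : PieceA W Y S ∨ PieceB W U1 S)
    (h : ∃ P : Finset (Finset (Sym2 V)), (∀ S ∈ P, PieceA W Y S ∨ PieceB W U1 S) ∧
      (∀ S ∈ P, ∀ T ∈ P, S ≠ T → Disjoint S T) ∧ P.biUnion id = R \ S) :
    ∃ P : Finset (Finset (Sym2 V)), (∀ S ∈ P, PieceA W Y S ∨ PieceB W U1 S) ∧
      (∀ S ∈ P, ∀ T ∈ P, S ≠ T → Disjoint S T) ∧ P.biUnion id = R := by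
  obtain ⟨P, h1, h2, h3⟩ := h
  have key : ∀ T ∈ P, Disjoint S T := fun T hT =>
    (disjoint_sdiff (s := S) (t := R)).mono_right (by
      rw [← h3]; exact subset_biUnion_of_mem id hT)
  refine ⟨insert S P, ?_, ?_, ?_⟩
  · intro T hT
    rcases mem_insert.1 hT with rfl | hT
    · exact hp
    · exact h1 T hT
  · intro T hT T' hT' hne
    rcases mem_insert.1 hT with e | hT <;> rcases mem_insert.1 hT' with e' | hT'
    · exact absurd (e.trans e'.symm) hne
    · rw [e]; exact key T' hT'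
    · rw [e']; exact (key T hT).symm
    · exact h2 T hT T' hT' hne
  · rw [biUnion_insert, h3]
    exact union_sdiff_of_subset hS

/-- the counts at an end of the middle edge -/
theorem counts {W Y : Finset V} {R S : Finset (Sym2 V)} {w a w' : V}
    (hnb : nb S w = {a, w'}) (haR : s(w, a) ∈ R) (hwR : s(w, w') ∈ R) (ha : a ∈ Y)
    (haW : a ∉ W) (hw' : w' ∈ W) (hw'Y : w' ∉ Y)
    (h : (nb R w ∩ W).card + 2 ≤ (nb R w ∩ Y).card) :
    (nb (R \ S) w ∩ W).card + 2 ≤ (nb (R \ S) w ∩ Y).card := by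
  have e1 : nb (R \ S) w ∩ W = (nb R w ∩ W).erase w' := by
    ext x
    simp only [nb_sdiff, hnb, mem_inter, mem_sdiff, mem_insert, mem_singleton, mem_erase]
    constructor
    · rintro ⟨⟨h1, h2⟩, h3⟩
      exact ⟨fun e => h2 (Or.inr e), h1, h3⟩
    · rintro ⟨h1, h2, h3⟩
      refine ⟨⟨h2, ?_⟩, h3⟩
      rintro (e | e)
      · exact haW (e ▸ h3)
      · exact h1 e
  have e2 : nb (R \ S) w ∩ Y = (nb R w ∩ Y).erase a := by
    ext x
    simp only [nb_sdiff, hnb, mem_inter, mem_sdiff, mem_insert, mem_singleton, mem_erase]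
    constructor
    · rintro ⟨⟨h1, h2⟩, h3⟩
      exact ⟨fun e => h2 (Or.inl e), h1, h3⟩
    · rintro ⟨h1, h2, h3⟩
      refine ⟨⟨h2, ?_⟩, h3⟩
      rintro (e | e)
      · exact h1 e
      · exact hw'Y (e ▸ h3)
  have m1 : w' ∈ nb R w ∩ W := mem_inter.2 ⟨mem_nb.2 hwR, hw'⟩
  have m2 : a ∈ nb R w ∩ Y := mem_inter.2 ⟨mem_nb.2 haR, ha⟩
  have c1 := card_erase_add_one m1
  have c2 := card_erase_add_one m2
  rw [e1, e2]
  omega

end PiecesAux

open PiecesAux in
/-- TARGET -/
theorem pieces {V : Type} [Fintype V] [DecidableEq V] (W U1 Y : Finset V) (hd : Disjoint W U1)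
    (hY : Y ⊆ U1) (R : Finset (Sym2 V)) (hl : Loopless R)
    (hR : ∀ e ∈ R, ∃ w ∈ W, ∃ u ∈ W ∪ U1, e = s(w, u)) (hev : ∀ w ∈ W, Even (dg R w))
    (hres : ∀ w ∈ W, ∀ w' ∈ W, s(w, w') ∈ R → (nb R w ∩ W).card + 2 ≤ (nb R w ∩ Y).card) :
    ∃ P : Finset (Finset (Sym2 V)), (∀ S ∈ P, PieceA W Y S ∨ PieceB W U1 S) ∧
      (∀ S ∈ P, ∀ T ∈ P, S ≠ T → Disjoint S T) ∧ P.biUnion id = R := by
  have hWU : ∀ {x}, x ∈ W → x ∉ U1 := fun hx => disjoint_left.1 hd hx
  have hWY : ∀ {x}, x ∈ W → x ∉ Y := fun hx hy => hWU hx (hY hy)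
  induction hn : R.card using Nat.strong_induction_on generalizing R with
  | _ n ih =>
  subst hn
  rcases R.eq_empty_or_nonempty with rfl | ⟨e0, he0⟩
  · exact ⟨∅, by simp, by simp, by simp⟩
  by_cases hWW : ∃ w ∈ W, ∃ w' ∈ W, s(w, w') ∈ R
  · obtain ⟨w, hw, w', hw', hww⟩ := hWW
    have hne : w ≠ w' := hl.ne hww
    have hww2 : s(w', w) ∈ R := by rw [Sym2.eq_swap]; exact hww
    have r1 := hres w hw w' hw' hww
    have r2 := hres w' hw' w hw hww2
    have p1 : 0 < (nb R w ∩ Y).card := by omega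
    have p2 : 0 < ((nb R w' ∩ Y)).card := by omega
    obtain ⟨a, ha⟩ := card_pos.1 p1
    have p3 : 0 < ((nb R w' ∩ Y).erase a).card := by
      have := pred_card_le_card_erase (s := nb R w' ∩ Y) (a := a)
      omega
    obtain ⟨d, hd'⟩ := card_pos.1 p3
    rw [mem_erase] at hd'
    obtain ⟨hda, hd'⟩ := hd'
    rw [mem_inter, mem_nb] at ha hd'
    obtain ⟨haR, haY⟩ := ha
    obtain ⟨hdR, hdY⟩ := hd'
    have haW : a ∉ W := fun h => hWY h haY
    have hdW : d ∉ W := fun h => hWY h hdY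
    have haw : a ≠ w := fun e => haW (e ▸ hw)
    have haw' : a ≠ w' := fun e => haW (e ▸ hw')
    have hdw : d ≠ w := fun e => hdW (e ▸ hw)
    have hdw' : d ≠ w' := fun e => hdW (e ▸ hw')
    set S : Finset (Sym2 V) := {s(a, w), s(w, w'), s(w', d)} with hS
    have hSR : S ⊆ R := by
      intro x hx
      rw [hS, mem_insert, mem_insert, mem_singleton] at hx
      rcases hx with rfl | rfl | rfl
      · rw [Sym2.eq_swap]; exact haR
      · exact hww
      · exact hdR
    have n1 : nb S w = {a, w'} := nbA_w haw haw' hdw hne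
    have n2 : nb S w' = {d, w} := by
      rw [hS, setA_rev]; exact nbA_w hdw' hdw haw' hne.symm
    have n3 : ∀ v ∈ W, v ≠ w → v ≠ w' → nb S v = ∅ := fun v hv h1 h2 =>
      nbA_of (fun e => haW (e ▸ hv)) h1 h2 (fun e => hdW (e ▸ hv))
    refine assemble hSR (Or.inl ⟨a, w, w', d, hw, hw', hne, haY, hdY, hda.symm, rfl⟩) ?_
    refine ih (R \ S).card ?_ (R \ S) (hl.mono sdiff_subset)
      (fun e he => hR e (sdiff_subset he)) ?_ ?_ rfl
    · apply card_lt_card
      refine ⟨sdiff_subset, fun h => ?_⟩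
      have := h hww
      rw [mem_sdiff] at this
      exact this.2 (by rw [hS]; simp)
    · intro v hv
      refine even_sdiff hSR (hev v hv) ?_
      unfold dg
      by_cases e1 : v = w
      · rw [e1, n1, card_pair haw']; norm_num
      · by_cases e2 : v = w'
        · rw [e2, n2, card_pair hdw]; norm_num
        · rw [n3 v hv e1 e2]; simp
    · intro v hv v' hv' hvv
      have r := hres v hv v' hv' (sdiff_subset hvv)
      by_cases e1 : v = w
      · subst e1
        exact counts n1 haR hww haY haW hw' (hWY hw') r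
      · by_cases e2 : v = w'
        · subst e2
          exact counts n2 hdR hww2 hdY hdW hw (hWY hw) r
        · rw [nb_sdiff, n3 v hv e1 e2, sdiff_empty]; exact r
  · have hU : ∀ {w u}, w ∈ W → s(w, u) ∈ R → u ∈ U1 := by
      intro w u hw hwu
      have huW : u ∉ W := fun h => hWW ⟨w, hw, u, h, hwu⟩
      obtain ⟨w1, hw1, u1, hu1, he⟩ := hR _ hwu
      rw [Sym2.eq_iff] at he
      rcases he with ⟨_, h2⟩ | ⟨_, h2⟩
      · rw [h2] at huW ⊢
        exact (mem_union.1 hu1).resolve_left huW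
      · exact absurd (h2 ▸ hw1) huW
    obtain ⟨w, hw, u, hu, rfl⟩ := hR e0 he0
    have huU : u ∈ U1 := hU hw he0
    have hmem : u ∈ nb R w := mem_nb.2 he0
    have h2 : 2 ≤ (nb R w).card := by
      have h3 := hev w hw
      have h4 : 0 < (nb R w).card := card_pos.2 ⟨u, hmem⟩
      unfold dg at h3
      obtain ⟨k, hk⟩ := h3
      omega
    have h5 : 0 < ((nb R w).erase u).card := by
      rw [card_erase_of_mem hmem]; omega
    obtain ⟨u', hu'⟩ := card_pos.1 h5
    rw [mem_erase, mem_nb] at hu'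
    obtain ⟨hne, hu'R⟩ := hu'
    have hu'U : u' ∈ U1 := hU hw hu'R
    have huw : u ≠ w := fun e => hWU hw (e ▸ huU)
    have hu'w : u' ≠ w := fun e => hWU hw (e ▸ hu'U)
    set S : Finset (Sym2 V) := {s(u, w), s(w, u')} with hS
    have hSR : S ⊆ R := by
      intro x hx
      rw [hS, mem_insert, mem_singleton] at hx
      rcases hx with rfl | rfl
      · rw [Sym2.eq_swap]; exact he0
      · exact hu'R
    refine assemble hSR (Or.inr ⟨u, w, u', hw, huU, hu'U, hne.symm, rfl⟩) ?_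
    refine ih (R \ S).card ?_ (R \ S) (hl.mono sdiff_subset)
      (fun e he => hR e (sdiff_subset he)) ?_ ?_ rfl
    · apply card_lt_card
      refine ⟨sdiff_subset, fun h => ?_⟩
      have := h hu'R
      rw [mem_sdiff] at this
      exact this.2 (by rw [hS]; simp)
    · intro v hv
      refine even_sdiff hSR (hev v hv) ?_
      unfold dg
      by_cases e1 : v = w
      · rw [e1, nbB_w huw hu'w, card_pair hne.symm]; norm_num
      · have g1 : v ≠ u := fun e => hWU hv (by rw [e]; exact huU)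
        have g2 : v ≠ u' := fun e => hWU hv (by rw [e]; exact hu'U)
        rw [nbB_of g1 e1 g2]; simp
    · intro v hv v' hv' hvv
      exact absurd ⟨v, hv, v', hv', sdiff_subset hvv⟩ hWW

end Pool.Agent.H483C6
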