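import Pool.Agent.H483C6.Paths
import Pool.Agent.H483C6.Pieces

/-!
# Cov3 (MP_1bffa4_co)
-/

set_option autoImplicit false

namespace Pool.Agent.H483C6

open Finset

namespace Cov3Aux

section A

variable {V : Type} [Fintype V] [DecidableEq V]

/-- A 4-path avoiding forbidden edges and forbidden vertices, with different first and last inner
vertices. -/
theorem path4' (D F : Finset (Sym2 V)) (S O : Finset V) (u v : V) (d : ℕ)
    (hF : ∀ x, dg F x ≤ d) (hO : O.card ≤ d)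
    (h : 7 * d * S.card ^ 2 + S.card ^ 2 < cnt4 D S u v) :
    ∃ a b c, a ∈ S ∧ a ∉ O ∧ b ∈ S ∧ b ∉ O ∧ c ∈ S ∧ c ∉ O ∧ s(u, a) ∈ D ∧ s(u, a) ∉ F ∧
      s(a, b) ∈ D ∧ s(a, b) ∉ F ∧ s(b, c) ∈ D ∧ s(b, c) ∉ F ∧ s(c, v) ∈ D ∧ s(c, v) ∉ F ∧
      a ≠ c := by
  by_contra hcon
  push Not at hcon
  set P := (S ×ˢ S).filter fun t => s(t.1, t.2) ∈ F with hP
  have hsub : ((S ×ˢ S ×ˢ S).filter fun t => s(u, t.1) ∈ D ∧ s(t.1, t.2.1) ∈ D ∧
      s(t.2.1, t.2.2) ∈ D ∧ s(t.2.2, v) ∈ D) ⊆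
      ((O ×ˢ S ×ˢ S) ∪ (S ×ˢ O ×ˢ S) ∪ (S ×ˢ S ×ˢ O) ∪ (nb F u ×ˢ S ×ˢ S) ∪
        ((P ×ˢ S).image fun t => (t.1.1, t.1.2, t.2)) ∪ (S ×ˢ P) ∪ (S ×ˢ S ×ˢ nb F v)) ∪
        ((S ×ˢ S).image fun t => (t.1, t.2, t.1)) := by
    rintro ⟨a, b, c⟩ ht
    simp only [mem_filter, mem_product] at ht
    obtain ⟨⟨ha, hb, hc⟩, h1, h2, h3, h4⟩ := ht
    simp only [mem_union, mem_product, mem_nb, mem_image, hP, mem_filter]
    by_contra hcc
    push Not at hcc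
    obtain ⟨⟨⟨⟨⟨⟨⟨c1, c2⟩, c3⟩, c4⟩, c5⟩, c6⟩, c7⟩, c8⟩ := hcc
    have d1 : a ∉ O := fun h => (c1 h hb) hc
    have d2 : b ∉ O := fun h => (c2 ha h) hc
    have d3 : c ∉ O := c3 ha hb
    have d4 : s(u, a) ∉ F := fun h => (c4 h hb) hc
    have d5 : s(a, b) ∉ F := fun h => c5 ((a, b), c) ⟨⟨⟨ha, hb⟩, h⟩, hc⟩ rfl
    have d6 : s(b, c) ∉ F := c6 ha ⟨hb, hc⟩
    have d7 : s(c, v) ∉ F := by rw [Sym2.eq_swap]; exact c7 ha hb
    have d8 : a = c := hcon a b c ha d1 hb d2 hc d3 h1 d4 h2 d5 h3 d6 h4 d7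
    exact c8 (a, b) ⟨ha, hb⟩ (by rw [← d8])
  have hle := card_le_card hsub
  have hPc : P.card ≤ S.card * d := card_pairs_le F S d hF
  have e0 := card_union_le ((O ×ˢ S ×ˢ S) ∪ (S ×ˢ O ×ˢ S) ∪ (S ×ˢ S ×ˢ O) ∪ (nb F u ×ˢ S ×ˢ S) ∪
        ((P ×ˢ S).image fun t => (t.1.1, t.1.2, t.2)) ∪ (S ×ˢ P) ∪ (S ×ˢ S ×ˢ nb F v))
        ((S ×ˢ S).image fun t => (t.1, t.2, t.1))
  have e1 := card_union_le ((O ×ˢ S ×ˢ S) ∪ (S ×ˢ O ×ˢ S) ∪ (S ×ˢ S ×ˢ O) ∪ (nb F u ×ˢ S ×ˢ S) ∪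
        ((P ×ˢ S).image fun t => (t.1.1, t.1.2, t.2)) ∪ (S ×ˢ P)) (S ×ˢ S ×ˢ nb F v)
  have e2 := card_union_le ((O ×ˢ S ×ˢ S) ∪ (S ×ˢ O ×ˢ S) ∪ (S ×ˢ S ×ˢ O) ∪ (nb F u ×ˢ S ×ˢ S) ∪
        ((P ×ˢ S).image fun t => (t.1.1, t.1.2, t.2))) (S ×ˢ P)
  have e3 := card_union_le ((O ×ˢ S ×ˢ S) ∪ (S ×ˢ O ×ˢ S) ∪ (S ×ˢ S ×ˢ O) ∪ (nb F u ×ˢ S ×ˢ S))
        ((P ×ˢ S).image fun t => (t.1.1, t.1.2, t.2))
  have e4 := card_union_le ((O ×ˢ S ×ˢ S) ∪ (S ×ˢ O ×ˢ S) ∪ (S ×ˢ S ×ˢ O)) (nb F u ×ˢ S ×ˢ S)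
  have e5 := card_union_le ((O ×ˢ S ×ˢ S) ∪ (S ×ˢ O ×ˢ S)) (S ×ˢ S ×ˢ O)
  have e6 := card_union_le (O ×ˢ S ×ˢ S) (S ×ˢ O ×ˢ S)
  have e7 : ((P ×ˢ S).image fun t => (t.1.1, t.1.2, t.2)).card ≤ P.card * S.card := by
    rw [← card_product]; exact card_image_le
  have e8 : ((S ×ˢ S).image fun t : V × V => (t.1, t.2, t.1)).card ≤ S.card * S.card := by
    rw [← card_product]; exact card_image_le
  simp only [card_product] at e1 e2 e3 e4 e5 e6 e7
  have hS2 : S.card ^ 2 = S.card * S.card := sq _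
  have f1 : O.card * (S.card * S.card) ≤ d * (S.card * S.card) := Nat.mul_le_mul_right _ hO
  have f2 : S.card * (O.card * S.card) ≤ S.card * (d * S.card) :=
    Nat.mul_le_mul_left _ (Nat.mul_le_mul_right _ hO)
  have f3 : S.card * (S.card * O.card) ≤ S.card * (S.card * d) :=
    Nat.mul_le_mul_left _ (Nat.mul_le_mul_left _ hO)
  have f4 : (nb F u).card * (S.card * S.card) ≤ d * (S.card * S.card) :=
    Nat.mul_le_mul_right _ (hF u)
  have f5 : P.card * S.card ≤ S.card * d * S.card := Nat.mul_le_mul_right _ hPc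
  have f6 : S.card * P.card ≤ S.card * (S.card * d) := Nat.mul_le_mul_left _ hPc
  have f7 : S.card * (S.card * (nb F v).card) ≤ S.card * (S.card * d) :=
    Nat.mul_le_mul_left _ (Nat.mul_le_mul_left _ (hF v))
  unfold cnt4 at h
  rw [hS2] at h
  nlinarith

theorem cnt3_ge {E : Finset (Sym2 V)} {Y : Finset V} {u v : V} {γ : ℝ} (hγ : 0 ≤ γ)
    (h : γ * (Y.card : ℝ) ≤ ((Y.filter fun a => s(u, a) ∈ E ∧
      γ * (Y.card : ℝ) ≤ ((Y.filter fun b => s(a, b) ∈ E ∧ s(b, v) ∈ E).card : ℝ)).card : ℝ)) :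
    γ ^ 2 * (Y.card : ℝ) ^ 2 ≤ (cnt3 E Y u v : ℝ) := by
  set A := Y.filter fun a => s(u, a) ∈ E ∧
      γ * (Y.card : ℝ) ≤ ((Y.filter fun b => s(a, b) ∈ E ∧ s(b, v) ∈ E).card : ℝ) with hA
  have h1 : cnt3 E Y u v = ∑ a ∈ Y, (Y.filter fun b => s(u, a) ∈ E ∧ s(a, b) ∈ E ∧
      s(b, v) ∈ E).card := by
    unfold cnt3
    rw [card_filter, sum_product]
    refine sum_congr rfl fun a _ => ?_
    rw [card_filter]
  have h2 : ∑ a ∈ A, (γ * (Y.card : ℝ)) ≤ (cnt3 E Y u v : ℝ) := by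
    rw [h1, Nat.cast_sum]
    refine (sum_le_sum fun a ha => ?_).trans
      (sum_le_sum_of_subset_of_nonneg (filter_subset _ _) fun _ _ _ => Nat.cast_nonneg _)
    rw [hA, mem_filter] at ha
    refine ha.2.2.trans ?_
    have : (Y.filter fun b => s(a, b) ∈ E ∧ s(b, v) ∈ E) ⊆
        (Y.filter fun b => s(u, a) ∈ E ∧ s(a, b) ∈ E ∧ s(b, v) ∈ E) := by
      intro b hb
      rw [mem_filter] at hb ⊢
      exact ⟨hb.1, ha.2.1, hb.2⟩
    exact_mod_cast card_le_card this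
  rw [sum_const, nsmul_eq_mul] at h2
  have h3 : 0 ≤ γ * (Y.card : ℝ) := by positivity
  calc γ ^ 2 * (Y.card : ℝ) ^ 2 = (γ * (Y.card : ℝ)) * (γ * (Y.card : ℝ)) := by ring
    _ ≤ (A.card : ℝ) * (γ * (Y.card : ℝ)) := mul_le_mul_of_nonneg_right h h3
    _ ≤ _ := h2

theorem cnt4_ge {E : Finset (Sym2 V)} {Y : Finset V} {u v : V} {γ : ℝ} (hγ : 0 ≤ γ)
    (h : γ * (Y.card : ℝ) ≤ ((Y.filter fun a => s(u, a) ∈ E).card : ℝ))
    (h' : ∀ x ∈ Y, s(u, x) ∈ E → γ ^ 2 * (Y.card : ℝ) ^ 2 ≤ (cnt3 E Y x v : ℝ)) :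
    γ ^ 3 * (Y.card : ℝ) ^ 3 ≤ (cnt4 E Y u v : ℝ) := by
  set A := Y.filter fun a => s(u, a) ∈ E with hA
  have h1 : cnt4 E Y u v = ∑ a ∈ Y, ((Y ×ˢ Y).filter fun t => s(u, a) ∈ E ∧ s(a, t.1) ∈ E ∧
      s(t.1, t.2) ∈ E ∧ s(t.2, v) ∈ E).card := by
    unfold cnt4
    rw [card_filter, sum_product]
    refine sum_congr rfl fun a _ => ?_
    rw [card_filter]
  have h2 : ∑ a ∈ A, (γ ^ 2 * (Y.card : ℝ) ^ 2) ≤ (cnt4 E Y u v : ℝ) := by
    rw [h1, Nat.cast_sum]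
    refine (sum_le_sum fun a ha => ?_).trans
      (sum_le_sum_of_subset_of_nonneg (filter_subset _ _) fun _ _ _ => Nat.cast_nonneg _)
    rw [hA, mem_filter] at ha
    refine (h' a ha.1 ha.2).trans ?_
    have : ((Y ×ˢ Y).filter fun t => s(a, t.1) ∈ E ∧ s(t.1, t.2) ∈ E ∧ s(t.2, v) ∈ E) ⊆
        ((Y ×ˢ Y).filter fun t => s(u, a) ∈ E ∧ s(a, t.1) ∈ E ∧
      s(t.1, t.2) ∈ E ∧ s(t.2, v) ∈ E) := by
      intro b hb
      rw [mem_filter] at hb ⊢
      exact ⟨hb.1, ha.2, hb.2⟩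
    unfold cnt3
    exact_mod_cast card_le_card this
  rw [sum_const, nsmul_eq_mul] at h2
  have h3 : 0 ≤ γ ^ 2 * (Y.card : ℝ) ^ 2 := by positivity
  calc γ ^ 3 * (Y.card : ℝ) ^ 3 = (γ * (Y.card : ℝ)) * (γ ^ 2 * (Y.card : ℝ) ^ 2) := by ring
    _ ≤ (A.card : ℝ) * (γ ^ 2 * (Y.card : ℝ) ^ 2) := mul_le_mul_of_nonneg_right h h3
    _ ≤ _ := h2

/-- extra degree allowed -/
def epF (U1 : Finset V) (S : Finset (Sym2 V)) (v : V) : ℕ := if v ∈ U1 then dg S v else 0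

/-- the completions of a piece -/
structure Cand (E : Finset (Sym2 V)) (U1 U2 : Finset V) (S T : Finset (Sym2 V))
    (I : Finset V) : Prop where
  sub : T ⊆ E
  u1 : T ⊆ U1.sym2
  u2 : ∀ e ∈ T, e ∉ U2.sym2
  hex : IsHex (S ∪ T)
  card : I.card ≤ 4
  deg : ∀ v, dg T v ≤ epF U1 S v + (if v ∈ I then 2 else 0)

theorem dg_le_one {T : Finset (Sym2 V)} {v x : V} (h : nb T v ⊆ {x}) : dg T v ≤ 1 := by
  unfold dg
  exact (card_le_card h).trans (card_singleton x).le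

theorem dg_le_two {T : Finset (Sym2 V)} {v x y : V} (h : nb T v ⊆ {x, y}) : dg T v ≤ 2 := by
  unfold dg
  exact (card_le_card h).trans card_le_two

theorem dg_zero {T : Finset (Sym2 V)} {v : V} (h : nb T v ⊆ ∅) : dg T v = 0 := by
  unfold dg
  rw [subset_empty.1 h, card_empty]

theorem one_le_dg {T : Finset (Sym2 V)} {v w : V} (h : s(v, w) ∈ T) : 1 ≤ dg T v := by
  unfold dg
  rw [Nat.succ_le_iff, card_pos]
  exact ⟨w, mem_nb.2 h⟩

theorem candA {E : Finset (Sym2 V)} {U1 U2 : Finset V} {a w w' d x y : V}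
    (hw : w ∉ U1) (hw' : w' ∉ U1) (hww : w ≠ w') (haY : a ∈ U1 \ U2) (hdY : d ∈ U1 \ U2)
    (had : a ≠ d) (hx : x ∈ U1 \ U2) (hy : y ∈ U1 \ U2) (hax : a ≠ x) (hay : a ≠ y)
    (hdx : d ≠ x) (hdy : d ≠ y) (hxy : x ≠ y) (h1 : s(a, x) ∈ E) (h2 : s(x, y) ∈ E)
    (h3 : s(y, d) ∈ E) :
    Cand E U1 U2 {s(a, w), s(w, w'), s(w', d)} {s(a, x), s(x, y), s(y, d)} {x, y} := by
  rw [mem_sdiff] at haY hdY hx hy
  have ea : a ≠ w := fun e => hw (e ▸ haY.1)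
  have ea' : a ≠ w' := fun e => hw' (e ▸ haY.1)
  have ed : d ≠ w := fun e => hw (e ▸ hdY.1)
  have ed' : d ≠ w' := fun e => hw' (e ▸ hdY.1)
  have ex : x ≠ w := fun e => hw (e ▸ hx.1)
  have ex' : x ≠ w' := fun e => hw' (e ▸ hx.1)
  have ey : y ≠ w := fun e => hw (e ▸ hy.1)
  have ey' : y ≠ w' := fun e => hw' (e ▸ hy.1)
  refine ⟨?_, ?_, ?_, ?_, ?_, ?_⟩
  · intro e he
    simp only [mem_insert, mem_singleton] at he
    rcases he with rfl | rfl | rfl <;> assumption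
  · intro e he
    simp only [mem_insert, mem_singleton] at he
    rcases he with rfl | rfl | rfl
    · exact mk_mem_sym2_iff.2 ⟨haY.1, hx.1⟩
    · exact mk_mem_sym2_iff.2 ⟨hx.1, hy.1⟩
    · exact mk_mem_sym2_iff.2 ⟨hy.1, hdY.1⟩
  · intro e he hu
    simp only [mem_insert, mem_singleton] at he
    rcases he with rfl | rfl | rfl
    · exact haY.2 (mk_mem_sym2_iff.1 hu).1
    · exact hx.2 (mk_mem_sym2_iff.1 hu).1
    · exact hy.2 (mk_mem_sym2_iff.1 hu).1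
  · refine ⟨w, a, x, y, d, w', ?_, ?_⟩
    · simp only [List.nodup_cons, List.mem_cons, List.not_mem_nil, or_false, not_or,
        not_false_iff, List.nodup_nil, and_true]
      exact ⟨⟨ea.symm, ex.symm, ey.symm, ed.symm, hww⟩, ⟨hax, hay, had, ea'⟩,
        ⟨hxy, hdx.symm, ex'⟩, ⟨hdy.symm, ey'⟩, ed'⟩
    · ext e
      rw [mem_hex]
      simp only [mem_union, mem_insert, mem_singleton]
      rw [Sym2.eq_swap (a := w) (b := a), Sym2.eq_swap (a := d) (b := w'),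
        Sym2.eq_swap (a := w') (b := w)]
      tauto
  · exact (card_le_two).trans (by norm_num)
  · intro v
    by_cases hvx : v = x
    · subst hvx
      rw [if_pos (by simp)]
      refine le_trans (dg_le_two (x := a) (y := y) ?_) (Nat.le_add_left _ _)
      intro z hz
      simp only [mem_nb, mem_insert, mem_singleton, Sym2.eq_iff] at hz ⊢
      tauto
    by_cases hvy : v = y
    · subst hvy
      rw [if_pos (by simp)]
      refine le_trans (dg_le_two (x := x) (y := d) ?_) (Nat.le_add_left _ _)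
      intro z hz
      simp only [mem_nb, mem_insert, mem_singleton, Sym2.eq_iff] at hz ⊢
      tauto
    by_cases hva : v = a
    · subst hva
      have k1 : 1 ≤ epF U1 {s(v, w), s(w, w'), s(w', d)} v := by
        unfold epF
        rw [if_pos haY.1]
        exact one_le_dg (w := w) (by simp)
      refine le_trans (dg_le_one (x := x) ?_) (k1.trans (Nat.le_add_right _ _))
      intro z hz
      simp only [mem_nb, mem_insert, mem_singleton, Sym2.eq_iff] at hz ⊢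
      tauto
    by_cases hvd : v = d
    · subst hvd
      have k1 : 1 ≤ epF U1 {s(a, w), s(w, w'), s(w', v)} v := by
        unfold epF
        rw [if_pos hdY.1]
        refine one_le_dg (w := w') ?_
        rw [Sym2.eq_swap (a := v) (b := w')]
        simp
      refine le_trans (dg_le_one (x := y) ?_) (k1.trans (Nat.le_add_right _ _))
      intro z hz
      simp only [mem_nb, mem_insert, mem_singleton, Sym2.eq_iff] at hz ⊢
      tauto
    · rw [dg_zero]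
      · exact Nat.zero_le _
      intro z hz
      simp only [mem_nb, mem_insert, mem_singleton, Sym2.eq_iff] at hz
      tauto

theorem candB {E : Finset (Sym2 V)} {U1 U2 : Finset V} {u w u' x y z : V}
    (hw : w ∉ U1) (huU : u ∈ U1) (huU' : u' ∈ U1)
    (huu : u ≠ u') (hx : x ∈ U1 \ U2) (hy : y ∈ U1 \ U2) (hz : z ∈ U1 \ U2)
    (hux : u ≠ x) (huy : u ≠ y) (huz : u ≠ z) (hux' : u' ≠ x) (huy' : u' ≠ y) (huz' : u' ≠ z)
    (hxy : x ≠ y) (hyz : y ≠ z) (hxz : x ≠ z) (h1 : s(u, x) ∈ E) (h2 : s(x, y) ∈ E)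
    (h3 : s(y, z) ∈ E) (h4 : s(z, u') ∈ E) :
    Cand E U1 U2 {s(u, w), s(w, u')} {s(u, x), s(x, y), s(y, z), s(z, u')} {x, y, z} := by
  rw [mem_sdiff] at hx hy hz
  have eu : u ≠ w := fun e => hw (e ▸ huU)
  have eu' : u' ≠ w := fun e => hw (e ▸ huU')
  have ex : x ≠ w := fun e => hw (e ▸ hx.1)
  have ey : y ≠ w := fun e => hw (e ▸ hy.1)
  have ez : z ≠ w := fun e => hw (e ▸ hz.1)
  refine ⟨?_, ?_, ?_, ?_, ?_, ?_⟩
  · intro e he
    simp only [mem_insert, mem_singleton] at he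
    rcases he with rfl | rfl | rfl | rfl <;> assumption
  · intro e he
    simp only [mem_insert, mem_singleton] at he
    rcases he with rfl | rfl | rfl | rfl
    · exact mk_mem_sym2_iff.2 ⟨huU, hx.1⟩
    · exact mk_mem_sym2_iff.2 ⟨hx.1, hy.1⟩
    · exact mk_mem_sym2_iff.2 ⟨hy.1, hz.1⟩
    · exact mk_mem_sym2_iff.2 ⟨hz.1, huU'⟩
  · intro e he hu
    simp only [mem_insert, mem_singleton] at he
    rcases he with rfl | rfl | rfl | rfl
    · exact hx.2 (mk_mem_sym2_iff.1 hu).2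
    · exact hx.2 (mk_mem_sym2_iff.1 hu).1
    · exact hy.2 (mk_mem_sym2_iff.1 hu).1
    · exact hz.2 (mk_mem_sym2_iff.1 hu).1
  · refine ⟨w, u, x, y, z, u', ?_, ?_⟩
    · simp only [List.nodup_cons, List.mem_cons, List.not_mem_nil, or_false, not_or,
        not_false_iff, List.nodup_nil, and_true]
      exact ⟨⟨eu.symm, ex.symm, ey.symm, ez.symm, eu'.symm⟩, ⟨hux, huy, huz, huu⟩,
        ⟨hxy, hxz, hux'.symm⟩, ⟨hyz, huy'.symm⟩, huz'.symm⟩
    · ext e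
      rw [mem_hex]
      simp only [mem_union, mem_insert, mem_singleton]
      rw [Sym2.eq_swap (a := w) (b := u), Sym2.eq_swap (a := u') (b := w)]
      tauto
  · exact (card_le_three).trans (by norm_num)
  · intro v
    by_cases hvx : v = x
    · subst hvx
      rw [if_pos (by simp)]
      refine le_trans (dg_le_two (x := u) (y := y) ?_) (Nat.le_add_left _ _)
      intro t ht
      simp only [mem_nb, mem_insert, mem_singleton, Sym2.eq_iff] at ht ⊢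
      tauto
    by_cases hvy : v = y
    · subst hvy
      rw [if_pos (by simp)]
      refine le_trans (dg_le_two (x := x) (y := z) ?_) (Nat.le_add_left _ _)
      intro t ht
      simp only [mem_nb, mem_insert, mem_singleton, Sym2.eq_iff] at ht ⊢
      tauto
    by_cases hvz : v = z
    · subst hvz
      rw [if_pos (by simp)]
      refine le_trans (dg_le_two (x := y) (y := u') ?_) (Nat.le_add_left _ _)
      intro t ht
      simp only [mem_nb, mem_insert, mem_singleton, Sym2.eq_iff] at ht ⊢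
      tauto
    by_cases hva : v = u
    · subst hva
      have k1 : 1 ≤ epF U1 {s(v, w), s(w, u')} v := by
        unfold epF
        rw [if_pos huU]
        exact one_le_dg (w := w) (by simp)
      refine le_trans (dg_le_one (x := x) ?_) (k1.trans (Nat.le_add_right _ _))
      intro t ht
      simp only [mem_nb, mem_insert, mem_singleton, Sym2.eq_iff] at ht ⊢
      tauto
    by_cases hvd : v = u'
    · subst hvd
      have k1 : 1 ≤ epF U1 {s(u, w), s(w, v)} v := by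
        unfold epF
        rw [if_pos huU']
        refine one_le_dg (w := w) ?_
        rw [Sym2.eq_swap (a := v) (b := w)]
        simp
      refine le_trans (dg_le_one (x := z) ?_) (k1.trans (Nat.le_add_right _ _))
      intro t ht
      simp only [mem_nb, mem_insert, mem_singleton, Sym2.eq_iff] at ht ⊢
      tauto
    · rw [dg_zero]
      · exact Nat.zero_le _
      intro t ht
      simp only [mem_nb, mem_insert, mem_singleton, Sym2.eq_iff] at ht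
      tauto

theorem card_R_le {U U1 : Finset V} {R : Finset (Sym2 V)} {B : ℝ}
    (hR : ∀ e ∈ R, ∃ w ∈ U \ U1, ∃ u ∈ (U \ U1) ∪ U1, e = s(w, u))
    (hB : 0 ≤ B) (hd : ∀ v, (dg R v : ℝ) ≤ B) : (R.card : ℝ) ≤ (U.card : ℝ) * B := by
  have h1 : R ⊆ (U \ U1).biUnion fun w => (nb R w).image fun u => s(w, u) := by
    intro e he
    obtain ⟨w, hw, u, _, rfl⟩ := hR e he
    rw [mem_biUnion]
    exact ⟨w, hw, mem_image.2 ⟨u, mem_nb.2 he, rfl⟩⟩
  have h2 : R.card ≤ ∑ w ∈ U \ U1, dg R w := by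
    refine (card_le_card h1).trans (card_biUnion_le.trans ?_)
    exact sum_le_sum fun w _ => card_image_le
  have h3 : (R.card : ℝ) ≤ ∑ w ∈ U \ U1, (dg R w : ℝ) := by exact_mod_cast h2
  refine h3.trans ((sum_le_sum fun w _ => hd w).trans ?_)
  rw [sum_const, nsmul_eq_mul]
  refine mul_le_mul_of_nonneg_right ?_ hB
  exact_mod_cast card_le_card sdiff_subset

theorem card_P_le {P : Finset (Finset (Sym2 V))} {R : Finset (Sym2 V)}
    (hne : ∀ S ∈ P, S.Nonempty) (hdis : ∀ S ∈ P, ∀ T ∈ P, S ≠ T → Disjoint S T)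
    (hU : P.biUnion id = R) : P.card ≤ R.card := by
  rw [← hU, card_biUnion (t := id) fun S hS T hT h => hdis S hS T hT h]
  have : ∑ S ∈ P, 1 ≤ ∑ S ∈ P, (id S : Finset (Sym2 V)).card :=
    sum_le_sum fun S hS => card_pos.2 (hne S hS)
  simpa using this

/-- existence of a completion -/
theorem exists_cand {γ c s : ℝ} (hγ : 0 < γ) (hγ1 : γ ≤ 1) (hc : 0 < c)
    (hs : 0 < s) (hs1 : s ≤ γ ^ 3 * c / 60) {E : Finset (Sym2 V)} {U U1 U2 : Finset V}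
    (hE : Loopless E) (hU1 : U1 ⊆ U) (hN : 1 ≤ s * (U.card : ℝ))
    (hY : c * (U.card : ℝ) ≤ ((U1 \ U2).card : ℝ)) (hP3 : P3 E γ U (U1 \ U2))
    {S : Finset (Sym2 V)} (hS : PieceA (U \ U1) (U1 \ U2) S ∨ PieceB (U \ U1) U1 S)
    (hSE : S ⊆ E) (F : Finset (Sym2 V)) (O : Finset V)
    (hF : ∀ v, (dg F v : ℝ) ≤ 3 * (s * (U.card : ℝ)) + 2)
    (hO : (O.card : ℝ) ≤ 4 * (s * (U.card : ℝ))) :
    ∃ T I, Cand E U1 U2 S T I ∧ Disjoint T F ∧ Disjoint I O := by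
  set N : ℝ := (U.card : ℝ) with hNd
  set Y := U1 \ U2 with hYd
  set d : ℕ := ⌈4 * (s * N)⌉₊ + 2 with hd
  have hd1 : 4 * (s * N) + 2 ≤ (d : ℝ) := by
    rw [hd]
    push_cast
    linarith [Nat.le_ceil (4 * (s * N))]
  have hd2 : (d : ℝ) ≤ 7 * (s * N) := by
    rw [hd]
    push_cast
    have := Nat.ceil_lt_add_one (a := 4 * (s * N)) (by positivity)
    linarith
  have hN0 : 0 < N := by
    by_contra h
    have h1 : s * N ≤ 0 := mul_nonpos_of_nonneg_of_nonpos hs.le (not_lt.1 h)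
    linarith
  have hY0 : 0 < (Y.card : ℝ) := lt_of_lt_of_le (by positivity) hY
  have hFd : ∀ v, dg F v ≤ d := by
    intro v
    have h1 := hF v
    have : (dg F v : ℝ) ≤ (d : ℝ) := by linarith
    exact_mod_cast this
  have hOd : ∀ p q : V, (O ∪ {p, q}).card ≤ d := by
    intro p q
    have h1 : (O ∪ {p, q}).card ≤ O.card + 2 :=
      (card_union_le _ _).trans (Nat.add_le_add_left card_le_two _)
    have h2 : (O.card : ℝ) + 2 ≤ (d : ℝ) := by linarith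
    have h3 : O.card + 2 ≤ d := by exact_mod_cast h2
    omega
  have hγ3 : γ ^ 3 ≤ γ ^ 2 := by
    nlinarith [sq_nonneg γ]
  have hkey : 7 * (d : ℝ) + 1 < γ ^ 3 * (Y.card : ℝ) := by
    have h1 : γ ^ 3 * (c * N) ≤ γ ^ 3 * (Y.card : ℝ) :=
      mul_le_mul_of_nonneg_left hY (by positivity)
    have h2 : s * N ≤ γ ^ 3 * c / 60 * N := mul_le_mul_of_nonneg_right hs1 hN0.le
    have h3 : γ ^ 3 * (c * N) = 60 * (γ ^ 3 * c / 60 * N) := by ring
    linarith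
  have hkey3 : 5 * (d : ℝ) < γ ^ 2 * (Y.card : ℝ) := by
    have h1 : γ ^ 3 * (Y.card : ℝ) ≤ γ ^ 2 * (Y.card : ℝ) :=
      mul_le_mul_of_nonneg_right hγ3 hY0.le
    have h2 : (0 : ℝ) ≤ d := Nat.cast_nonneg _
    linarith
  have hYU : Y ⊆ U := sdiff_subset.trans hU1
  rcases hS with ⟨a, w, w', d', hw, hw', hww, haY, hdY, had, rfl⟩ |
    ⟨u, w, u', hw, huU, huU', huu, rfl⟩
  · rw [mem_sdiff] at hw hw'
    have e1 : s(a, w) ∈ E := hSE (by simp)
    have e2 : s(w, w') ∈ E := hSE (by simp)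
    have e3 : s(w', d') ∈ E := hSE (by simp)
    have h1 := cnt3_ge hγ.le (hP3 a (hYU haY) d' (hYU hdY) ⟨w, w', e1, e2, e3⟩)
    have h2 : 5 * d * Y.card < cnt3 E Y a d' := by
      have h3 : (5 * (d : ℝ)) * (Y.card : ℝ) < (γ ^ 2 * (Y.card : ℝ)) * (Y.card : ℝ) :=
        mul_lt_mul_of_pos_right hkey3 hY0
      have h4 : (5 * (d : ℝ)) * (Y.card : ℝ) < (cnt3 E Y a d' : ℝ) := by
        refine lt_of_lt_of_le h3 (le_trans (le_of_eq ?_) h1)
        ring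
      exact_mod_cast h4
    obtain ⟨x, y, hx, hxO, hy, hyO, f1, g1, f2, g2, f3, g3⟩ :=
      path3 E F Y (O ∪ {a, d'}) a d' d hFd (hOd a d') h2
    simp only [mem_union, mem_insert, mem_singleton, not_or] at hxO hyO
    refine ⟨{s(a, x), s(x, y), s(y, d')}, {x, y}, candA hw.2 hw'.2 hww haY hdY had hx hy
      (Ne.symm hxO.2.1) (Ne.symm hyO.2.1) (Ne.symm hxO.2.2) (Ne.symm hyO.2.2) (hE.ne f2)
      f1 f2 f3, ?_, ?_⟩
    · rw [disjoint_left]
      intro e he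
      simp only [mem_insert, mem_singleton] at he
      rcases he with rfl | rfl | rfl <;> assumption
    · rw [disjoint_left]
      intro e he
      simp only [mem_insert, mem_singleton] at he
      rcases he with rfl | rfl
      · exact hxO.1
      · exact hyO.1
  · rw [mem_sdiff] at hw
    have e1 : s(u, w) ∈ E := hSE (by simp)
    have e2 : s(w, u') ∈ E := hSE (by simp)
    have e1' : s(w, u) ∈ E := by rw [Sym2.eq_swap]; exact e1
    have h0 := hP3 u (hU1 huU) w hw.1 ⟨w, u, e1, e1', e1⟩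
    have h1 : γ * (Y.card : ℝ) ≤ ((Y.filter fun a => s(u, a) ∈ E).card : ℝ) := by
      refine h0.trans ?_
      have : (Y.filter fun a => s(u, a) ∈ E ∧ γ * (Y.card : ℝ) ≤
          ((Y.filter fun b => s(a, b) ∈ E ∧ s(b, w) ∈ E).card : ℝ)) ⊆
          Y.filter fun a => s(u, a) ∈ E := by
        intro b hb
        rw [mem_filter] at hb ⊢
        exact ⟨hb.1, hb.2.1⟩
      exact_mod_cast card_le_card this
    have h1' : ∀ x ∈ Y, s(u, x) ∈ E → γ ^ 2 * (Y.card : ℝ) ^ 2 ≤ (cnt3 E Y x u' : ℝ) := by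
      intro x hx hux
      refine cnt3_ge hγ.le (hP3 x (hYU hx) u' (hU1 huU') ⟨u, w, ?_, e1, e2⟩)
      rw [Sym2.eq_swap]; exact hux
    have h1'' := cnt4_ge hγ.le h1 h1'
    have h2 : 7 * d * Y.card ^ 2 + Y.card ^ 2 < cnt4 E Y u u' := by
      have h3 : (7 * (d : ℝ) + 1) * ((Y.card : ℝ) ^ 2) <
          (γ ^ 3 * (Y.card : ℝ)) * ((Y.card : ℝ) ^ 2) :=
        mul_lt_mul_of_pos_right hkey (by positivity)
      have h4 : 7 * (d : ℝ) * (Y.card : ℝ) ^ 2 + (Y.card : ℝ) ^ 2 < (cnt4 E Y u u' : ℝ) := by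
        have h5 : (γ ^ 3 * (Y.card : ℝ)) * ((Y.card : ℝ) ^ 2) ≤ (cnt4 E Y u u' : ℝ) :=
          le_trans (le_of_eq (by ring)) h1''
        linarith
      exact_mod_cast h4
    obtain ⟨x, y, z, hx, hxO, hy, hyO, hz, hzO, f1, g1, f2, g2, f3, g3, f4, g4, hxz⟩ :=
      path4' E F Y (O ∪ {u, u'}) u u' d hFd (hOd u u') h2
    simp only [mem_union, mem_insert, mem_singleton, not_or] at hxO hyO hzO
    refine ⟨{s(u, x), s(x, y), s(y, z), s(z, u')}, {x, y, z}, candB hw.2 huU huU' huu hx hy hz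
      (Ne.symm hxO.2.1) (Ne.symm hyO.2.1) (Ne.symm hzO.2.1) (Ne.symm hxO.2.2)
      (Ne.symm hyO.2.2) (Ne.symm hzO.2.2) (hE.ne f2) (hE.ne f3) hxz f1 f2 f3 f4, ?_, ?_⟩
    · rw [disjoint_left]
      intro e he
      simp only [mem_insert, mem_singleton] at he
      rcases he with rfl | rfl | rfl | rfl <;> assumption
    · rw [disjoint_left]
      intro e he
      simp only [mem_insert, mem_singleton] at he
      rcases he with rfl | rfl | rfl
      · exact hxO.1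
      · exact hyO.1
      · exact hzO.1

end A

end Cov3Aux

open Cov3Aux in
/-- TARGET -/
theorem cov3 : ∀ γ c : ℝ, 0 < γ → γ ≤ 1 → 0 < c → c ≤ 1 → ∃ ρ0 : ℝ, 0 < ρ0 ∧ ∀ ρ : ℝ, 0 < ρ →
    ρ ≤ ρ0 → ∃ N0 : ℕ, ∀ (V : Type) [Fintype V] [DecidableEq V] (E : Finset (Sym2 V))
      (U U1 U2 : Finset V), Loopless E → U1 ⊆ U → U2 ⊆ U1 → N0 ≤ U.card →
      c * (U.card : ℝ) ≤ ((U1 \ U2).card : ℝ) → P3 E γ U (U1 \ U2) →
      ∀ R : Finset (Sym2 V), R ⊆ E → R ⊆ U.sym2 → (∀ e ∈ R, e ∉ U1.sym2) →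
        (∀ w ∈ U \ U1, Even (dg R w)) → (∀ v, (dg R v : ℝ) ≤ ρ * (U.card : ℝ)) →
        (∀ w ∈ U \ U1, ∀ w' ∈ U \ U1, s(w, w') ∈ R →
          (nb R w ∩ (U \ U1)).card + 2 ≤ (nb R w ∩ (U1 \ U2)).card) →
        ∃ K ⊆ E, K ⊆ U1.sym2 ∧ (∀ e ∈ K, e ∉ U2.sym2) ∧ Dec (R ∪ K) ∧
          ∀ v, (dg K v : ℝ) ≤ 10 * √ρ * (U.card : ℝ) := by
  intro γ c hγ hγ1 hc hc1
  refine ⟨(γ ^ 3 * c / 60) ^ 2, by positivity, ?_⟩
  intro ρ hρ hρ0
  set s : ℝ := √ρ with hs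
  have hs0 : 0 < s := Real.sqrt_pos.2 hρ
  have hs1 : s ≤ γ ^ 3 * c / 60 := by
    rw [hs]
    exact Real.sqrt_le_iff.2 ⟨by positivity, hρ0⟩
  have hss : s * s = ρ := Real.mul_self_sqrt hρ.le
  have hs2 : s ≤ 1 := by
    refine hs1.trans ?_
    have h1 : γ ^ 3 ≤ 1 := pow_le_one₀ hγ.le hγ1
    nlinarith
  have hρs : ρ ≤ s := by
    rw [← hss]
    nlinarith
  refine ⟨⌈1 / s⌉₊, ?_⟩
  intro V _ _ E U U1 U2 hE hU1 hU2 hN hY hP3 R hRE hRU hRU1 hev hdeg hres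
  set N : ℝ := (U.card : ℝ) with hNd
  have hsN : 1 ≤ s * N := by
    have h1 : 1 / s ≤ N := by
      exact (Nat.le_ceil _).trans (Nat.cast_le.2 hN)
    rw [div_le_iff₀ hs0] at h1
    linarith
  have hN0 : 0 ≤ N := Nat.cast_nonneg _
  have hR : ∀ e ∈ R, ∃ w ∈ U \ U1, ∃ u ∈ (U \ U1) ∪ U1, e = s(w, u) := by
    intro e he
    have h1 := hRU he
    have h2 := hRU1 e he
    induction e using Sym2.ind with
    | _ a b =>
      rw [mk_mem_sym2_iff] at h1 h2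
      have hUu : ∀ x ∈ U, x ∈ (U \ U1) ∪ U1 := by
        intro x hx
        rw [mem_union, mem_sdiff]
        by_cases hx1 : x ∈ U1
        · exact Or.inr hx1
        · exact Or.inl ⟨hx, hx1⟩
      by_cases ha : a ∈ U1
      · have hb : b ∉ U1 := fun hb => h2 ⟨ha, hb⟩
        exact ⟨b, mem_sdiff.2 ⟨h1.2, hb⟩, a, hUu a h1.1, Sym2.eq_swap⟩
      · exact ⟨a, mem_sdiff.2 ⟨h1.1, ha⟩, b, hUu b h1.2, rfl⟩
  obtain ⟨P, hP1, hP2, hP3'⟩ := pieces (U \ U1) U1 (U1 \ U2) sdiff_disjoint sdiff_subset R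
    (hE.mono hRE) hR hev hres
  have hPR : ∀ S ∈ P, S ⊆ R := by
    intro S hS
    rw [← hP3']
    exact subset_biUnion_of_mem id hS
  have hne : ∀ S ∈ P, S.Nonempty := by
    intro S hS
    rcases hP1 S hS with ⟨a, w, w', d, _, _, _, _, _, _, rfl⟩ | ⟨u, w, u', _, _, _, _, rfl⟩
    · exact ⟨s(a, w), by simp⟩
    · exact ⟨s(u, w), by simp⟩
  have hRc := card_R_le hR (by positivity) hdeg
  have hPc : (P.card : ℝ) ≤ N * (ρ * N) := by
    have := card_P_le hne hP2 hP3'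
    have h1 : (P.card : ℝ) ≤ (R.card : ℝ) := by exact_mod_cast this
    exact h1.trans hRc
  set Λ : ℕ := ⌈s * N⌉₊ with hΛ
  have hΛ1 : s * N ≤ (Λ : ℝ) := Nat.le_ceil _
  have hΛ2 : (Λ : ℝ) ≤ s * N + 1 := (Nat.ceil_lt_add_one (by positivity)).le
  have hep : ∀ v, ((∑ S ∈ P, epF U1 S v : ℕ) : ℝ) ≤ s * N := by
    intro v
    have h1 : ∑ S ∈ P, epF U1 S v ≤ dg R v := by
      rw [← hP3', dg_biUnion P id (fun S hS T hT h => hP2 S hS T hT h)]
      refine sum_le_sum fun S _ => ?_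
      unfold epF
      split_ifs
      · exact le_rfl
      · exact Nat.zero_le _
    have h2 : ((∑ S ∈ P, epF U1 S v : ℕ) : ℝ) ≤ (dg R v : ℝ) := by exact_mod_cast h1
    exact h2.trans ((hdeg v).trans (mul_le_mul_of_nonneg_right hρs hN0))
  have hFb : ∀ m k : ℕ, (m : ℝ) ≤ s * N → k ≤ m + 2 * Λ → (k : ℝ) ≤ 3 * (s * N) + 2 := by
    intro m k hm hk
    have h1 : (k : ℝ) ≤ (m : ℝ) + 2 * (Λ : ℝ) := by exact_mod_cast hk
    linarith
  obtain ⟨T, hT1, hT2, hT3⟩ := greedy V (Finset (Sym2 V)) P (fun S T I => Cand E U1 U2 S T I)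
    (fun S v => epF U1 S v) Λ (fun S _ T I h => ⟨h.card, h.deg⟩) (by
      intro S hS F O hF hO
      refine exists_cand hγ hγ1 hc hs0 hs1 hE hU1 hsN hY hP3 (hP1 S hS)
        ((hPR S hS).trans hRE) F O (fun v => hFb _ _ (hep v) (hF v)) ?_
      have h1 : (Λ : ℝ) * (O.card : ℝ) ≤ 4 * (P.card : ℝ) := by exact_mod_cast hO
      have h2 : (s * N) * (O.card : ℝ) ≤ 4 * (N * (ρ * N)) :=
        (mul_le_mul_of_nonneg_right hΛ1 (Nat.cast_nonneg _)).trans (h1.trans (by linarith))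
      have h3 : 4 * (N * (ρ * N)) = (s * N) * (4 * (s * N)) := by
        rw [← hss]; ring
      rw [h3] at h2
      exact le_of_mul_le_mul_left h2 (by linarith))
  have hT1' : ∀ S ∈ P, ∃ I, Cand E U1 U2 S (T S) I := hT1
  refine ⟨P.biUnion T, ?_, ?_, ?_, ?_, ?_⟩
  · intro e he
    obtain ⟨S, hS, heS⟩ := mem_biUnion.1 he
    obtain ⟨I, hI⟩ := hT1' S hS
    exact hI.sub heS
  · intro e he
    obtain ⟨S, hS, heS⟩ := mem_biUnion.1 he
    obtain ⟨I, hI⟩ := hT1' S hS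
    exact hI.u1 heS
  · intro e he
    obtain ⟨S, hS, heS⟩ := mem_biUnion.1 he
    obtain ⟨I, hI⟩ := hT1' S hS
    exact hI.u2 e heS
  · have h1 : R ∪ P.biUnion T = P.biUnion fun S => S ∪ T S := by
      rw [← hP3']
      ext e
      simp only [mem_union, mem_biUnion, id]
      constructor
      · rintro (⟨S, hS, h⟩ | ⟨S, hS, h⟩)
        · exact ⟨S, hS, Or.inl h⟩
        · exact ⟨S, hS, Or.inr h⟩
      · rintro ⟨S, hS, h | h⟩
        · exact Or.inl ⟨S, hS, h⟩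
        · exact Or.inr ⟨S, hS, h⟩
    rw [h1]
    have hST : ∀ S ∈ P, ∀ S' ∈ P, Disjoint S (T S') := by
      intro S hS S' hS'
      rw [disjoint_left]
      intro e he he'
      obtain ⟨I, hI⟩ := hT1' S' hS'
      exact hRU1 e (hPR S hS he) (hI.u1 he')
    refine Dec.biUnion P _ (fun S hS => ?_) (fun S hS S' hS' hne' => ?_)
    · obtain ⟨I, hI⟩ := hT1' S hS
      exact hI.hex.dec
    · rw [disjoint_union_left, disjoint_union_right, disjoint_union_right]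
      exact ⟨⟨hP2 S hS S' hS' hne', hST S hS S' hS'⟩, (hST S' hS' S hS).symm,
        hT2 S hS S' hS' hne'⟩
  · intro v
    have h1 := hFb _ _ (hep v) (hT3 v)
    linarith

end Pool.Agent.H483C6
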