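import Pool.Agent.H483C6.Paths
import Pool.Agent.H483C6.ChooseG
import Pool.Agent.H483C6.Cov2
import Pool.Agent.H483C6.Cov3

/-!
# One step of the vortex (MP_1bffa4_co)
-/

set_option autoImplicit false

namespace Pool.Agent.H483C6

open Finset

namespace CoverAux

theorem sdiff_union_aux {α : Type} [DecidableEq α] (A B C : Finset α) :
    A \ (B ∪ C) = (A \ B) \ C := by
  ext e
  simp only [mem_sdiff, mem_union]
  tauto

/-- The choice of the constants. -/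
theorem consts (γ c δ ρ0 : ℝ) (hγ : 0 < γ) (hc : 0 < c) (hδ : 0 < δ)
    (hρ0 : 0 < ρ0) : ∃ η ρ ρ1 : ℝ, 0 < η ∧ 0 < ρ ∧ 0 < ρ1 ∧ η ≤ δ / 2 ∧ η ≤ γ * c / 2 ∧ ρ ≤ ρ0 ∧
      ρ ≤ δ / 4 ∧ ρ ≤ 1 ∧ 10 * √ρ ≤ η * c ∧ ρ1 = ρ * (γ * c) / 8 := by
  have hgc : 0 < γ * c := mul_pos hγ hc
  set η : ℝ := min (δ / 2) (γ * c / 2) with hη
  have hηpos : 0 < η := lt_min (by positivity) (by positivity)
  have hηc : 0 < η * c := mul_pos hηpos hc
  set ρ : ℝ := min (min ρ0 (δ / 4)) (min ((η * c / 10) ^ 2) 1) with hρ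
  have hρpos : 0 < ρ := lt_min (lt_min hρ0 (by positivity)) (lt_min (by positivity) one_pos)
  refine ⟨η, ρ, ρ * (γ * c) / 8, hηpos, hρpos, by positivity, min_le_left _ _, min_le_right _ _,
    (min_le_left _ _).trans (min_le_left _ _), (min_le_left _ _).trans (min_le_right _ _),
    (min_le_right _ _).trans (min_le_right _ _), ?_, rfl⟩
  have h1 : ρ ≤ (η * c / 10) ^ 2 := (min_le_right _ _).trans (min_le_left _ _)
  have h2 : √ρ ≤ η * c / 10 := by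
    rw [Real.sqrt_le_left (by positivity)]
    exact h1
  linarith

/-- A vertex with a neighbour in `D` has many neighbours in `Y`. -/
theorem many {V : Type} [Fintype V] [DecidableEq V] {E D : Finset (Sym2 V)} {U Y : Finset V}
    {γ c η : ℝ} (hγ : 0 < γ) (hDE : D ⊆ E) (hDU : D ⊆ U.sym2) (hYU : Y ⊆ U)
    (hY : c * (U.card : ℝ) ≤ (Y.card : ℝ)) (hP : P3 E γ U Y)
    (hdeg : ∀ v, (dg ((E ∩ U.sym2) \ D) v : ℝ) ≤ η * (U.card : ℝ)) (hη : η ≤ γ * c / 2)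
    {w : V} (hw : w ∈ U) (hpos : 0 < dg D w) :
    γ * c / 2 * (U.card : ℝ) ≤ ((nb D w ∩ Y).card : ℝ) := by
  obtain ⟨u, hu⟩ := card_pos.1 hpos
  rw [mem_nb] at hu
  have huU : u ∈ U := (mk_mem_sym2_iff.1 (hDU hu)).2
  have hW3 : W3 E w u := ⟨u, w, hDE hu, by rw [Sym2.eq_swap]; exact hDE hu, hDE hu⟩
  have h1 := hP w hw u huU hW3
  have h2 : ((Y.filter fun a => s(w, a) ∈ E ∧
      γ * (Y.card : ℝ) ≤ ((Y.filter fun b => s(a, b) ∈ E ∧ s(b, u) ∈ E).card : ℝ)).card : ℝ) ≤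
      ((nb E w ∩ Y).card : ℝ) := by
    have : (Y.filter fun a => s(w, a) ∈ E ∧
      γ * (Y.card : ℝ) ≤ ((Y.filter fun b => s(a, b) ∈ E ∧ s(b, u) ∈ E).card : ℝ)) ⊆
      nb E w ∩ Y := by
      intro a ha
      rw [mem_filter] at ha
      rw [mem_inter, mem_nb]
      exact ⟨ha.2.1, ha.1⟩
    exact_mod_cast card_le_card this
  have h3 : nb E w ∩ Y ⊆ (nb D w ∩ Y) ∪ nb ((E ∩ U.sym2) \ D) w := by
    intro a ha
    rw [mem_inter, mem_nb] at ha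
    rw [mem_union, mem_inter, mem_nb, mem_nb, mem_sdiff, mem_inter]
    by_cases hD : s(w, a) ∈ D
    · exact Or.inl ⟨hD, ha.2⟩
    · exact Or.inr ⟨⟨ha.1, mk_mem_sym2_iff.2 ⟨hw, hYU ha.2⟩⟩, hD⟩
  have h4 : ((nb E w ∩ Y).card : ℝ) ≤ ((nb D w ∩ Y).card : ℝ) +
      (dg ((E ∩ U.sym2) \ D) w : ℝ) := by
    have := (card_le_card h3).trans (card_union_le _ _)
    unfold dg
    exact_mod_cast this
  have h5 := hdeg w
  have hN : (0 : ℝ) ≤ (U.card : ℝ) := Nat.cast_nonneg _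
  have h6 : γ * (c * (U.card : ℝ)) ≤ γ * (Y.card : ℝ) := mul_le_mul_of_nonneg_left hY hγ.le
  have h7 : η * (U.card : ℝ) ≤ γ * c / 2 * (U.card : ℝ) := mul_le_mul_of_nonneg_right hη hN
  linarith

/-- The inequality needed for `choose_gamma`. -/
theorem numbers {g ρ1 : ℝ} {n : ℕ} (hg : 0 < g) (hρ1 : 0 < ρ1) (h8 : ρ1 ≤ g / 8)
    (hn1 : 24 / g ≤ n) (hn2 : 4 / ρ1 ≤ n) (k : ℕ) (hk : k ≤ n) :
    k * ⌈ρ1 * n⌉₊ + ⌈4 * ρ1 * n / g⌉₊ * ⌈ρ1 * n⌉₊ ≤ ⌈4 * ρ1 * n / g⌉₊ * ⌈g / 2 * n⌉₊ := by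
  have hn : (0 : ℝ) ≤ n := Nat.cast_nonneg n
  have hs1 : (⌈ρ1 * n⌉₊ : ℝ) < ρ1 * n + 1 := Nat.ceil_lt_add_one (by positivity)
  have hs2 : 4 * ρ1 * n / g ≤ (⌈4 * ρ1 * n / g⌉₊ : ℝ) := Nat.le_ceil _
  have hq : g / 2 * n ≤ (⌈g / 2 * n⌉₊ : ℝ) := Nat.le_ceil _
  set s : ℝ := (⌈ρ1 * n⌉₊ : ℝ) with hs
  set t : ℝ := (⌈4 * ρ1 * n / g⌉₊ : ℝ) with ht
  set q : ℝ := (⌈g / 2 * n⌉₊ : ℝ) with hqq
  have ht0 : 0 ≤ t := Nat.cast_nonneg _
  have hs0 : 0 ≤ s := Nat.cast_nonneg _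
  have hk' : (k : ℝ) ≤ n := by exact_mod_cast hk
  have hgn : 24 ≤ n * g := by rwa [div_le_iff₀ hg] at hn1
  have hrn : 4 ≤ n * ρ1 := by rwa [div_le_iff₀ hρ1] at hn2
  have e1 : (k : ℝ) * s ≤ n * (ρ1 * n + 1) :=
    mul_le_mul hk' hs1.le hs0 hn
  have e2 : g / 3 * n ≤ q - s := by nlinarith
  have e3 : t * (g / 3 * n) ≤ t * (q - s) := mul_le_mul_of_nonneg_left e2 ht0
  have e4 : 4 * ρ1 * n / g * (g / 3 * n) ≤ t * (g / 3 * n) :=
    mul_le_mul_of_nonneg_right hs2 (by positivity)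
  have e5 : 4 * ρ1 * n / g * (g / 3 * n) = 4 / 3 * ρ1 * n * n := by
    field_simp
  have e6 : n * (ρ1 * n + 1) ≤ 4 / 3 * ρ1 * n * n := by
    have : 1 ≤ 1 / 3 * ρ1 * n := by linarith
    nlinarith
  have e7 : (k : ℝ) * s + t * s ≤ t * q := by nlinarith
  have : ((k * ⌈ρ1 * n⌉₊ + ⌈4 * ρ1 * n / g⌉₊ * ⌈ρ1 * n⌉₊ : ℕ) : ℝ) ≤
      ((⌈4 * ρ1 * n / g⌉₊ * ⌈g / 2 * n⌉₊ : ℕ) : ℝ) := by
    push_cast
    exact e7
  exact_mod_cast this

end CoverAux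

set_option maxHeartbeats 2000000 in
/-- One step of the vortex. -/
theorem cover : S_cover := by
  intro γ c hγ hγ1 hc hc1
  obtain ⟨δ, hδ, hcov2⟩ := cov2 γ c hγ hγ1 hc hc1
  obtain ⟨ρ0, hρ0, hcov3⟩ := cov3 γ c hγ hγ1 hc hc1
  obtain ⟨η, ρ, ρ1, hη, hρ, hρ1, hηδ, hηg, hρρ0, hρδ, hρ1', hsq, hρ1e⟩ :=
    CoverAux.consts γ c δ ρ0 hγ hc hδ hρ0
  obtain ⟨n2, hn2⟩ := hcov2 (ρ1 / 2) (by positivity)
  obtain ⟨n3, hn3⟩ := hcov3 ρ hρ hρρ0
  have hg : 0 < γ * c := mul_pos hγ hc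
  have hg1 : γ * c ≤ 1 := by nlinarith
  have h8 : ρ1 ≤ γ * c / 8 := by rw [hρ1e]; nlinarith
  have hρ1ρ : ρ1 ≤ ρ / 8 := by rw [hρ1e]; nlinarith
  refine ⟨η, hη, ⌈24 / (γ * c) + 4 / ρ1 + 4 / δ + 4 / ρ + 1⌉₊ + n2 + n3, ?_⟩
  intro V _ _ E U U1 U2 hloop hU1 hU2 hN hcW hcY hP1 hP2 D hDE hDU hDev hDdeg hED
  have hNr : 24 / (γ * c) + 4 / ρ1 + 4 / δ + 4 / ρ + 1 ≤ (U.card : ℝ) := by
    refine (Nat.le_ceil _).trans ?_
    exact_mod_cast (by omega : ⌈24 / (γ * c) + 4 / ρ1 + 4 / δ + 4 / ρ + 1⌉₊ ≤ U.card)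
  have p1 : 0 < 24 / (γ * c) := by positivity
  have p2 : 0 < 4 / ρ1 := by positivity
  have p3 : 0 < 4 / δ := by positivity
  have p4 : 0 < 4 / ρ := by positivity
  have b1 : 24 / (γ * c) ≤ (U.card : ℝ) := by linarith
  have b2 : 4 / ρ1 ≤ (U.card : ℝ) := by linarith
  have b3 : 4 ≤ (U.card : ℝ) * δ := by
    rw [← div_le_iff₀ hδ]; linarith
  have b4 : 4 ≤ (U.card : ℝ) * ρ := by
    rw [← div_le_iff₀ hρ]; linarith
  have b5 : 4 ≤ (U.card : ℝ) * ρ1 := by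
    rwa [← div_le_iff₀ hρ1]
  have b6 : (1 : ℝ) ≤ (U.card : ℝ) := by linarith
  set n : ℕ := U.card with hn
  have hn0 : (0 : ℝ) < n := by linarith
  set W' : Finset V := (U \ U1).filter fun w => 0 < dg D w with hW'
  set Y : Finset V := U1 \ U2 with hY
  have hYU1 : Y ⊆ U1 := sdiff_subset
  have hW'W : ∀ w ∈ W', w ∈ U ∧ w ∉ U1 ∧ 0 < dg D w := by
    intro w hw
    rw [hW', mem_filter, mem_sdiff] at hw
    exact ⟨hw.1.1, hw.1.2, hw.2⟩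
  have hdisj : Disjoint W' Y := by
    rw [disjoint_left]
    intro w hw hwY
    exact (hW'W w hw).2.1 (hYU1 hwY)
  have hW'card : W'.card ≤ n := card_le_card fun w hw => (hW'W w hw).1
  have hq : ∀ w ∈ W', ⌈γ * c / 2 * n⌉₊ ≤ (nb D w ∩ Y).card := by
    intro w hw
    obtain ⟨w1, _, w3⟩ := hW'W w hw
    exact Nat.ceil_le.2
      (CoverAux.many hγ hDE hDU (hYU1.trans hU1) hcY hP2 hDdeg hηg w1 w3)
  obtain ⟨Γ, hΓD, hΓe, hΓW, hΓY⟩ := choose_gamma D W' Y ⌈γ * c / 2 * n⌉₊ ⌈ρ1 * n⌉₊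
    ⌈4 * ρ1 * n / (γ * c)⌉₊ hdisj hq
    (CoverAux.numbers hg hρ1 h8 b1 b2 W'.card hW'card) (Nat.ceil_pos.2 (by positivity))
  -- degrees of Γ
  have hs : (⌈ρ1 * n⌉₊ : ℝ) < ρ1 * n + 1 := Nat.ceil_lt_add_one (by positivity)
  have hs' : (⌈4 * ρ1 * n / (γ * c)⌉₊ : ℝ) < 4 * ρ1 * n / (γ * c) + 1 :=
    Nat.ceil_lt_add_one (by positivity)
  have hs'e : 4 * ρ1 * n / (γ * c) = ρ / 2 * n := by
    rw [hρ1e]; field_simp; norm_num
  have hΓdeg : ∀ v, (dg Γ v : ℝ) ≤ ρ / 2 * n + 1 := by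
    intro v
    by_cases hv : v ∈ W'
    · rw [hΓW v hv]
      nlinarith
    · by_cases hvY : v ∈ Y
      · have : (dg Γ v : ℝ) ≤ (⌈4 * ρ1 * n / (γ * c)⌉₊ : ℝ) := by exact_mod_cast hΓY v hvY
        rw [hs'e] at hs' this
        linarith
      · have : dg Γ v = 0 := by
          unfold dg
          rw [card_eq_zero]
          ext u
          simp only [mem_nb, notMem_empty, iff_false]
          intro hu
          obtain ⟨w, hw, y, hy, he⟩ := hΓe _ hu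
          rcases Sym2.eq_iff.1 he with ⟨h1, _⟩ | ⟨h1, _⟩
          · exact hv (h1 ▸ hw)
          · exact hvY (h1 ▸ hy)
        rw [this]
        simp only [Nat.cast_zero]
        positivity
  have hΓU1 : ∀ e ∈ Γ, e ∉ U1.sym2 := by
    intro e he hU
    obtain ⟨w, hw, y, hy, rfl⟩ := hΓe _ he
    exact (hW'W w hw).2.1 (mk_mem_sym2_iff.1 hU).1
  -- the graph D2
  set D1 : Finset (Sym2 V) := D \ U1.sym2 with hD1
  set D2 : Finset (Sym2 V) := D1 \ Γ with hD2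
  have hΓD1 : Γ ⊆ D1 := fun e he => mem_sdiff.2 ⟨hΓD he, hΓU1 e he⟩
  have hD1D : D1 ⊆ D := sdiff_subset
  have hD2D1 : D2 ⊆ D1 := sdiff_subset
  have hD2sub : D2 ⊆ (E ∩ U.sym2) \ U1.sym2 := by
    intro e he
    have h1 := hD2D1 he
    rw [hD1, mem_sdiff] at h1
    rw [mem_sdiff, mem_inter]
    exact ⟨⟨hDE h1.1, hDU h1.1⟩, h1.2⟩
  have hD2deg : ∀ v, (dg (((E ∩ U.sym2) \ U1.sym2) \ D2) v : ℝ) ≤ δ * (n : ℝ) := by
    intro v
    have hsub : ((E ∩ U.sym2) \ U1.sym2) \ D2 ⊆ ((E ∩ U.sym2) \ D) ∪ Γ := by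
      intro e he
      rw [mem_sdiff, mem_sdiff] at he
      rw [mem_union, mem_sdiff]
      by_cases h1 : e ∈ Γ
      · exact Or.inr h1
      · refine Or.inl ⟨he.1.1, fun h2 => he.2 ?_⟩
        rw [hD2, mem_sdiff, hD1, mem_sdiff]
        exact ⟨⟨h2, he.1.2⟩, h1⟩
    have h1 : (dg (((E ∩ U.sym2) \ U1.sym2) \ D2) v : ℝ) ≤
        (dg ((E ∩ U.sym2) \ D) v : ℝ) + (dg Γ v : ℝ) := by
      exact_mod_cast (dg_mono hsub v).trans (dg_union_le _ _ v)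
    have h2 := hDdeg v
    have h3 := hΓdeg v
    have h4 : η * (n : ℝ) ≤ δ / 2 * n := mul_le_mul_of_nonneg_right hηδ hn0.le
    have h5 : ρ / 2 * (n : ℝ) ≤ δ / 8 * n := mul_le_mul_of_nonneg_right (by linarith) hn0.le
    have h6 : 1 ≤ δ / 4 * (n : ℝ) := by linarith
    have h7 : 0 < δ * (n : ℝ) := by positivity
    linarith
  obtain ⟨L, hLD2, hDecL, hLdeg⟩ := hn2 V E U U1 hloop hU1 (by omega) hcW hP1 D2 hD2sub hD2deg
  -- the graph R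
  set R : Finset (Sym2 V) := Γ ∪ L with hR
  have hRD1 : R ⊆ D1 := union_subset hΓD1 (hLD2.trans hD2D1)
  have hRD : R ⊆ D := hRD1.trans hD1D
  have hRU1 : ∀ e ∈ R, e ∉ U1.sym2 := fun e he => (mem_sdiff.1 (hRD1 he)).2
  have hD1R : D1 \ R = D2 \ L := by
    exact CoverAux.sdiff_union_aux D1 Γ L
  have hzero : ∀ w, w ∉ U1 → dg (D ∩ U1.sym2) w = 0 := fun w hw =>
    dg_eq_zero_of_notMem (inter_subset_right) hw
  have hReven : ∀ w ∈ U \ U1, Even (dg R w) := by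
    intro w hw
    rw [mem_sdiff] at hw
    have h1 := dg_sdiff_add hRD1 w
    have h2 := dg_sdiff_add_inter D U1.sym2 w
    rw [hzero w hw.2, add_zero] at h2
    rw [← hD1, ← h1, hD1R] at h2
    have h3 := hDev w
    rw [← h2, Nat.even_add] at h3
    exact h3.1 (hDecL.even w)
  have hRdeg : ∀ v, (dg R v : ℝ) ≤ ρ * (n : ℝ) := by
    intro v
    have h1 : (dg R v : ℝ) ≤ (dg Γ v : ℝ) + (dg L v : ℝ) := by
      exact_mod_cast dg_union_le _ _ v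
    have h2 := hΓdeg v
    have h3 := hLdeg v
    have h4 : ρ1 / 2 * (n : ℝ) ≤ ρ / 16 * n := mul_le_mul_of_nonneg_right (by linarith) hn0.le
    have h6 : 1 ≤ ρ / 4 * (n : ℝ) := by linarith
    have h7 : 0 < ρ * (n : ℝ) := by positivity
    linarith
  have hres : ∀ w ∈ U \ U1, ∀ w' ∈ U \ U1, s(w, w') ∈ R →
      (nb R w ∩ (U \ U1)).card + 2 ≤ (nb R w ∩ (U1 \ U2)).card := by
    intro w hw w' hw' hww
    have hwW' : w ∈ W' := by
      rw [hW', mem_filter]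
      refine ⟨hw, card_pos.2 ⟨w', ?_⟩⟩
      rw [mem_nb]
      exact hRD hww
    rw [mem_sdiff] at hw
    have h1 : nb R w ∩ (U \ U1) ⊆ nb L w := by
      intro u hu
      rw [mem_inter, mem_nb, mem_sdiff, hR, mem_union] at hu
      rw [mem_nb]
      rcases hu.1 with h | h
      · exfalso
        obtain ⟨w0, hw0, y, hy, he⟩ := hΓe _ h
        rcases Sym2.eq_iff.1 he with ⟨_, h2⟩ | ⟨h1, _⟩
        · exact hu.2.2 (h2 ▸ hYU1 hy)
        · exact hw.2 (h1 ▸ hYU1 hy)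
      · exact h
    have h2 : nb Γ w ⊆ nb R w ∩ (U1 \ U2) := by
      intro u hu
      rw [mem_nb] at hu
      rw [mem_inter, mem_nb]
      refine ⟨mem_union_left _ hu, ?_⟩
      obtain ⟨w0, hw0, y, hy, he⟩ := hΓe _ hu
      rcases Sym2.eq_iff.1 he with ⟨_, h2⟩ | ⟨h1, _⟩
      · exact h2 ▸ hy
      · exact absurd (h1 ▸ hYU1 hy) hw.2
    have h3 : ((nb R w ∩ (U \ U1)).card : ℝ) ≤ (dg L w : ℝ) := by
      unfold dg
      exact_mod_cast card_le_card h1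
    have h4 : (dg Γ w : ℝ) ≤ ((nb R w ∩ (U1 \ U2)).card : ℝ) := by
      unfold dg
      exact_mod_cast card_le_card h2
    have h5 := hLdeg w
    have h6 : ρ1 * (n : ℝ) ≤ (dg Γ w : ℝ) := by
      rw [hΓW w hwW']
      exact Nat.le_ceil _
    have h7 : ((nb R w ∩ (U \ U1)).card : ℝ) + 2 ≤ ((nb R w ∩ (U1 \ U2)).card : ℝ) := by
      linarith
    exact_mod_cast h7
  obtain ⟨K, hKE, hKU1, hKU2, hDecK, hKdeg⟩ := hn3 V E U U1 U2 hloop hU1 hU2 (by omega) hcY hP2 R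
    (hRD.trans hDE) (hRD.trans hDU) hRU1 hReven hRdeg hres
  have hKEU : K ⊆ E ∩ U1.sym2 := subset_inter hKE hKU1
  have hsplit : D \ ((E ∩ U1.sym2) \ K) = (D2 \ L) ∪ (R ∪ K) := by
    rw [← hD1R]
    ext e
    constructor
    · intro he
      rw [mem_sdiff, mem_sdiff, mem_inter] at he
      rw [mem_union, mem_union, mem_sdiff, hD1, mem_sdiff]
      by_cases h1 : e ∈ R
      · exact Or.inr (Or.inl h1)
      · by_cases h2 : e ∈ K
        · exact Or.inr (Or.inr h2)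
        · refine Or.inl ⟨⟨he.1, fun h3 => he.2 ⟨⟨hDE he.1, h3⟩, h2⟩⟩, h1⟩
    · intro he
      rw [mem_union, mem_union, mem_sdiff] at he
      rw [mem_sdiff, mem_sdiff, mem_inter]
      rcases he with h | h | h
      · refine ⟨hD1D h.1, fun h1 => ?_⟩
        exact (mem_sdiff.1 h.1).2 h1.1.2
      · exact ⟨hRD h, fun h1 => hRU1 e h h1.1.2⟩
      · exact ⟨hED (hKEU h), fun h1 => h1.2 h⟩
  have hdis : Disjoint (D2 \ L) (R ∪ K) := by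
    rw [← hD1R, disjoint_union_right]
    refine ⟨sdiff_disjoint, ?_⟩
    rw [disjoint_left]
    intro e he hK
    exact (mem_sdiff.1 (mem_sdiff.1 he).1).2 (hKU1 hK)
  refine ⟨(E ∩ U1.sym2) \ K, sdiff_subset.trans hED, sdiff_subset.trans inter_subset_right, ?_,
    ?_, ?_⟩
  · rw [hsplit]
    exact hDecL.union hDecK hdis
  · intro v
    have h1 : (E ∩ U1.sym2) \ ((E ∩ U1.sym2) \ K) = K := by
      exact Finset.sdiff_sdiff_eq_self hKEU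
    rw [h1]
    have h2 : (n : ℝ) * c ≤ (U1.card : ℝ) := by
      have : ((U1 \ U2).card : ℝ) ≤ (U1.card : ℝ) := by
        exact_mod_cast card_le_card hYU1
      linarith
    have h3 : 10 * √ρ * (n : ℝ) ≤ η * c * n := mul_le_mul_of_nonneg_right hsq hn0.le
    have h4 : η * ((n : ℝ) * c) ≤ η * (U1.card : ℝ) := mul_le_mul_of_nonneg_left h2 hη.le
    have h5 := hKdeg v
    linarith
  · intro e he
    rw [mem_inter] at he
    rw [mem_sdiff, mem_inter]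
    refine ⟨⟨he.1, ?_⟩, fun hK => hKU2 e hK he.2⟩
    exact sym2_mono hU2 he.2

end Pool.Agent.H483C6
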