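import Mathlib

/-!
# Decompositions into hexagons: definitions and basic facts (MP_1bffa4_co, helper483)
-/

set_option autoImplicit false

namespace Pool.Agent.H483C6

open Finset

section Defs

variable {V : Type} [DecidableEq V]

/-- The six edges of the closed walk `a b c d e f a`. -/
def hex (a b c d e f : V) : Finset (Sym2 V) :=
  {s(a, b), s(b, c), s(c, d), s(d, e), s(e, f), s(f, a)}

/-- `S` is the edge set of a cycle of length six. -/
def IsHex (S : Finset (Sym2 V)) : Prop :=
  ∃ a b c d e f : V, [a, b, c, d, e, f].Nodup ∧ S = hex a b c d e f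

/-- `Dec E`: the edge set `E` is a disjoint union of edge sets of six-cycles. -/
inductive Dec : Finset (Sym2 V) → Prop
  | empty : Dec ∅
  | cons {S E : Finset (Sym2 V)} (hS : IsHex S) (hE : Dec E) (hd : Disjoint S E) : Dec (S ∪ E)

/-- no loops -/
def Loopless (E : Finset (Sym2 V)) : Prop := ∀ e ∈ E, ¬ e.IsDiag

variable [Fintype V]

/-- neighbours of `v` in the graph with edge set `E` -/
def nb (E : Finset (Sym2 V)) (v : V) : Finset V := univ.filter fun u => s(v, u) ∈ E

/-- degree of `v` in the graph with edge set `E` -/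
def dg (E : Finset (Sym2 V)) (v : V) : ℕ := (nb E v).card

/-- number of common neighbours -/
def cod (E : Finset (Sym2 V)) (u v : V) : ℕ := (nb E u ∩ nb E v).card

/-- the graph with edge set `E` is `C₆`-divisible -/
structure Div6 (E : Finset (Sym2 V)) : Prop where
  loopless : Loopless E
  even : ∀ v, Even (dg E v)
  six : 6 ∣ E.card

/-- there is a walk of length three from `u` to `v` -/
def W3 (E : Finset (Sym2 V)) (u v : V) : Prop :=
  ∃ x y, s(u, x) ∈ E ∧ s(x, y) ∈ E ∧ s(y, v) ∈ E

/-- `P3 E γ X Y`: any two vertices of `X` that are joined by a walk of length three in `E` are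
joined by robustly many walks of length three whose inner vertices are in `Y`. -/
def P3 (E : Finset (Sym2 V)) (γ : ℝ) (X Y : Finset V) : Prop :=
  ∀ u ∈ X, ∀ v ∈ X, W3 E u v →
    γ * (Y.card : ℝ) ≤ ((Y.filter fun a => s(u, a) ∈ E ∧
      γ * (Y.card : ℝ) ≤ ((Y.filter fun b => s(a, b) ∈ E ∧ s(b, v) ∈ E).card : ℝ)).card : ℝ)

/-- `Q3 E γ`: all pairs of vertices (equal or not) are joined by robustly many 3-walks. -/
def Q3 (E : Finset (Sym2 V)) (γ : ℝ) : Prop :=
  ∀ u v : V, γ * (Fintype.card V : ℝ) ≤ (((nb E u).filter fun a =>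
      γ * (Fintype.card V : ℝ) ≤ (cod E a v : ℝ)).card : ℝ)

end Defs

end Pool.Agent.H483C6
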