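import Pool.Agent.H483C6.II3h

/-!
# Section 15.3: final part (MP_1bffa4_co, helper388)
-/

set_option autoImplicit false
set_option linter.unusedSectionVars false

namespace Pool.Agent.H483C6

open Finset

namespace II3

section C

variable {V : Type} [Fintype V] [DecidableEq V] {E : Finset (Sym2 V)} {A : Finset V}

/-- the reserved edges -/
def rsv (a b a' b' : Fin 5 → V) : Finset (Sym2 V) :=
  (univ.image fun j => s(a j, b j)) ∪ (univ.image fun j => s(a' j, b' j)) ∪
    (univ.image fun j => s(a j, a' j))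

theorem mem_rsv1 (a b a' b' : Fin 5 → V) (j : Fin 5) : s(a j, b j) ∈ rsv a b a' b' :=
  mem_union_left _ (mem_union_left _ (mem_image_of_mem _ (mem_univ j)))

theorem mem_rsv2 (a b a' b' : Fin 5 → V) (j : Fin 5) : s(a' j, b' j) ∈ rsv a b a' b' :=
  mem_union_left _ (mem_union_right _ (mem_image_of_mem (fun j => s(a' j, b' j)) (mem_univ j)))

theorem mem_rsv3 (a b a' b' : Fin 5 → V) (j : Fin 5) : s(a j, a' j) ∈ rsv a b a' b' :=
  mem_union_right _ (mem_image_of_mem (fun j => s(a j, a' j)) (mem_univ j))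

theorem card_rsv (a b a' b' : Fin 5 → V) : (rsv a b a' b').card ≤ 15 := by
  unfold rsv
  have h1 := card_union_le ((univ.image fun j => s(a j, b j)) ∪ (univ.image fun j => s(a' j, b' j)))
    (univ.image fun j => s(a j, a' j))
  have h2 := card_union_le (univ.image fun j => s(a j, b j)) (univ.image fun j => s(a' j, b' j))
  have h3 : (univ.image fun j : Fin 5 => s(a j, b j)).card ≤ 5 :=
    card_image_le.trans (by simp)
  have h4 : (univ.image fun j : Fin 5 => s(a' j, b' j)).card ≤ 5 :=
    card_image_le.trans (by simp)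
  have h5 : (univ.image fun j : Fin 5 => s(a j, a' j)).card ≤ 5 :=
    card_image_le.trans (by simp)
  omega

theorem flexAll (h : Ctx E A) {a b a' b' : Fin 5 → V}
    (hf : ∀ j, Flex E A (a j) (b j) (a' j) (b' j))
    (he : Function.Injective fun j => s(a j, b j))
    (he' : Function.Injective fun j => s(a' j, b' j))
    (hee : ∀ i j, s(a i, b i) ≠ s(a' j, b' j))
    (hr : Function.Injective fun j => s(a j, a' j))
    (D0 : Finset (Sym2 V)) (hD0 : D0 ⊆ E \ rsv a b a' b')
    (hdD0 : ∀ v, 5000 * dg (D0 \ cross E A) v ≤ Fintype.card V) :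
    ∀ k : ℕ, k ≤ 5 → ∀ t : ℕ, k ≤ t → t ≤ 2 * k →
      ∃ D ⊆ E, Dec D ∧ Disjoint D D0 ∧
        (∀ e ∈ D, e ∈ cross E A → ∃ l : Fin 5, l.val < k ∧ (e = s(a l, b l) ∨ e = s(a' l, b' l))) ∧
        (∀ l : Fin 5, l.val < k → s(a l, b l) ∈ D ∧ s(a' l, b' l) ∈ D) ∧
        (∀ l : Fin 5, k ≤ l.val → s(a l, a' l) ∉ D) ∧ (D ∩ A.sym2).card = t ∧
        ∀ v, dg D v ≤ 2 * k := by
  have hbig : 10 ^ 30 ≤ Fintype.card V := by
    have := h.big
    exact_mod_cast this
  have hAc : ∀ {u w : V}, u ∈ A → w ∈ A → s(u, w) ∉ cross E A := by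
    intro u w hu hw hc
    rw [mem_cross, mem_sd] at hc
    tauto
  have hBc : ∀ {e : Sym2 V}, e ∈ Aᶜ.sym2 → e ∉ cross E A := by
    intro e
    induction e using Sym2.ind with
    | _ u w =>
      intro hu hc
      rw [mk_mem_sym2_iff, mem_compl, mem_compl] at hu
      rw [mem_cross, mem_sd] at hc
      tauto
  have hAc' : ∀ {e : Sym2 V}, e ∈ A.sym2 → e ∉ cross E A := by
    intro e
    induction e using Sym2.ind with
    | _ u w =>
      intro hu hc
      rw [mk_mem_sym2_iff] at hu
      rw [mem_cross, mem_sd] at hc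
      tauto
  have hc1 : ∀ j, s(a j, b j) ∈ cross E A := by
    intro j
    have h1 := hf j
    rw [mem_cross, mem_sd]
    exact ⟨h1.hab, fun g => h1.hb (g.2 h1.ha)⟩
  have hc2 : ∀ j, s(a' j, b' j) ∈ cross E A := by
    intro j
    have h1 := hf j
    rw [mem_cross, mem_sd]
    exact ⟨h1.hab', fun g => h1.hb' (g.2 h1.ha')⟩
  have hrA : ∀ j, s(a j, a' j) ∈ A.sym2 := fun j => mk_mem_sym2_iff.2 ⟨(hf j).ha, (hf j).ha'⟩
  intro k
  induction k with
  | zero =>
    intro _ t _ ht
    have ht0 : t = 0 := by omega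
    subst ht0
    exact ⟨∅, empty_subset _, Dec.empty, disjoint_empty_left _, by simp, by simp, by simp,
      by simp, by simp⟩
  | succ k ih =>
    intro hk t ht1 ht2
    set l : Fin 5 := ⟨k, by omega⟩ with hl
    have hlk : l.val = k := rfl
    -- common part
    have key : ∀ (D : Finset (Sym2 V)), D ⊆ E → Disjoint D D0 →
        (∀ e ∈ D, e ∈ cross E A →
          ∃ l : Fin 5, l.val < k ∧ (e = s(a l, b l) ∨ e = s(a' l, b' l))) →
        (∀ v, dg D v ≤ 2 * k) →
        s(a l, b l) ∉ D ∧ s(a' l, b' l) ∉ D ∧ s(a l, b l) ∉ D0 ∧ s(a' l, b' l) ∉ D0 ∧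
          s(a l, a' l) ∉ D0 ∧
          ∀ v, dg ((D0 \ cross E A) ∪ (D ∪ rsv a b a' b')) v ≤ Fintype.card V / 5000 + 30 := by
      intro D hDE hDD hDc hDd
      refine ⟨?_, ?_, ?_, ?_, ?_, ?_⟩
      · intro g
        obtain ⟨l', g1, g2 | g2⟩ := hDc _ g (hc1 l)
        · have := he g2
          rw [← this] at g1
          omega
        · exact hee l l' g2
      · intro g
        obtain ⟨l', g1, g2 | g2⟩ := hDc _ g (hc2 l)
        · exact hee l' l g2.symm
        · have := he' g2
          rw [← this] at g1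
          omega
      · exact fun g => (mem_sdiff.1 (hD0 g)).2 (mem_rsv1 a b a' b' l)
      · exact fun g => (mem_sdiff.1 (hD0 g)).2 (mem_rsv2 a b a' b' l)
      · exact fun g => (mem_sdiff.1 (hD0 g)).2 (mem_rsv3 a b a' b' l)
      · intro v
        have g1 := dg_union_le (D0 \ cross E A) (D ∪ rsv a b a' b') v
        have g2 := dg_union_le D (rsv a b a' b') v
        have g3 := (dg_le_card_edges (rsv a b a' b') v).trans (card_rsv a b a' b')
        have g4 := hDd v
        have g5 := hdD0 v
        omega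
    by_cases htk : t ≤ 2 * k + 1
    · obtain ⟨D, d1, d2, d3, d4, d5, d6, d7, d8⟩ := ih (by omega) (t - 1) (by omega) (by omega)
      obtain ⟨k1, k2, k3, k4, k5, k6⟩ := key D d1 d3 d4 d8
      obtain ⟨H, x1, x2, x3, x4, x5, x6⟩ := flex1 h (hf l) k6 (by omega) (by omega)
      have hHD : Disjoint H D := by
        rw [disjoint_left]
        intro e g1 g2
        rcases x5 e g1 with rfl | rfl | rfl | ⟨_, g3⟩
        · exact k1 g2
        · exact k2 g2
        · exact d6 l (by omega) g2
        · exact g3 (mem_union_right _ (mem_union_left _ g2))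
      have hHD0 : Disjoint H D0 := by
        rw [disjoint_left]
        intro e g1 g2
        rcases x5 e g1 with rfl | rfl | rfl | ⟨g3, g4⟩
        · exact k3 g2
        · exact k4 g2
        · exact k5 g2
        · exact g4 (mem_union_left _ (mem_sdiff.2 ⟨g2, hBc g3⟩))
      refine ⟨H ∪ D, union_subset x1 d1, x2.dec.union d2 hHD, ?_, ?_, ?_, ?_, ?_, ?_⟩
      · rw [disjoint_union_left]; exact ⟨hHD0, d3⟩
      · intro e g1 g2
        rcases mem_union.1 g1 with g1 | g1
        · rcases x5 e g1 with rfl | rfl | rfl | ⟨g3, _⟩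
          · exact ⟨l, by omega, Or.inl rfl⟩
          · exact ⟨l, by omega, Or.inr rfl⟩
          · exact absurd g2 (hAc (hf l).ha (hf l).ha')
          · exact absurd g2 (hBc g3)
        · obtain ⟨l', g3, g4⟩ := d4 e g1 g2
          exact ⟨l', by omega, g4⟩
      · intro l' g1
        by_cases g2 : l'.val < k
        · exact ⟨mem_union_right _ (d5 l' g2).1, mem_union_right _ (d5 l' g2).2⟩
        · have g3 : l' = l := Fin.ext (by omega)
          rw [g3]
          exact ⟨mem_union_left _ x3, mem_union_left _ x4⟩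
      · intro l' g1 g2
        rcases mem_union.1 g2 with g2 | g2
        · have g3 : s(a l', a' l') ∈ H ∩ A.sym2 := mem_inter.2 ⟨g2, hrA l'⟩
          rw [x6, mem_singleton] at g3
          have := hr g3
          rw [this] at g1
          omega
        · exact d6 l' (by omega) g2
      · rw [union_inter_distrib_right, card_union_of_disjoint, x6, card_singleton, d7]
        · omega
        · exact hHD.mono inter_subset_left inter_subset_left
      · intro v
        have g1 := dg_union_le H D v
        have g2 := x2.dg_le v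
        have g3 := d8 v
        omega
    · obtain ⟨D, d1, d2, d3, d4, d5, d6, d7, d8⟩ := ih (by omega) (t - 2) (by omega) (by omega)
      obtain ⟨k1, k2, k3, k4, k5, k6⟩ := key D d1 d3 d4 d8
      obtain ⟨H, x1, x2, x3, x4, x5, x6⟩ := flex2 h (hf l) k6 (by omega) (by omega)
      have hHD : Disjoint H D := by
        rw [disjoint_left]
        intro e g1 g2
        rcases x5 e g1 with rfl | rfl | ⟨_, g3⟩
        · exact k1 g2
        · exact k2 g2
        · exact g3 (mem_union_right _ (mem_union_left _ g2))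
      have hHD0 : Disjoint H D0 := by
        rw [disjoint_left]
        intro e g1 g2
        rcases x5 e g1 with rfl | rfl | ⟨g3 | g3, g4⟩
        · exact k3 g2
        · exact k4 g2
        · exact g4 (mem_union_left _ (mem_sdiff.2 ⟨g2, hAc' g3⟩))
        · exact g4 (mem_union_left _ (mem_sdiff.2 ⟨g2, hBc g3⟩))
      refine ⟨H ∪ D, union_subset x1 d1, x2.dec.union d2 hHD, ?_, ?_, ?_, ?_, ?_, ?_⟩
      · rw [disjoint_union_left]; exact ⟨hHD0, d3⟩
      · intro e g1 g2
        rcases mem_union.1 g1 with g1 | g1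
        · rcases x5 e g1 with rfl | rfl | ⟨g3 | g3, _⟩
          · exact ⟨l, by omega, Or.inl rfl⟩
          · exact ⟨l, by omega, Or.inr rfl⟩
          · exact absurd g2 (hAc' g3)
          · exact absurd g2 (hBc g3)
        · obtain ⟨l', g3, g4⟩ := d4 e g1 g2
          exact ⟨l', by omega, g4⟩
      · intro l' g1
        by_cases g2 : l'.val < k
        · exact ⟨mem_union_right _ (d5 l' g2).1, mem_union_right _ (d5 l' g2).2⟩
        · have g3 : l' = l := Fin.ext (by omega)
          rw [g3]
          exact ⟨mem_union_left _ x3, mem_union_left _ x4⟩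
      · intro l' g1 g2
        rcases mem_union.1 g2 with g2 | g2
        · rcases x5 _ g2 with g3 | g3 | ⟨_, g3⟩
          · exact hAc' (hrA l') (g3 ▸ hc1 l)
          · exact hAc' (hrA l') (g3 ▸ hc2 l)
          · exact g3 (mem_union_right _ (mem_union_right _ (mem_rsv3 a b a' b' l')))
        · exact d6 l' (by omega) g2
      · rw [union_inter_distrib_right, card_union_of_disjoint, x6, d7]
        · omega
        · exact hHD.mono inter_subset_left inter_subset_left
      · intro v
        have g1 := dg_union_le H D v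
        have g2 := x2.dg_le v
        have g3 := d8 v
        omega

/-- the number of crossing edges outside the reserved edges is even -/
theorem even_rest (h : Ctx E A) {a b a' b' : Fin 5 → V}
    (hf : ∀ j, Flex E A (a j) (b j) (a' j) (b' j))
    (he : Function.Injective fun j => s(a j, b j))
    (he' : Function.Injective fun j => s(a' j, b' j))
    (hee : ∀ i j, s(a i, b i) ≠ s(a' j, b' j)) :
    Even (crp A (E \ rsv a b a' b')).card := by
  set I1 : Finset (V × V) := univ.image fun j => (a j, b j) with hI1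
  set I2 : Finset (V × V) := univ.image fun j => (a' j, b' j) with hI2
  have h1 : crp A (E \ rsv a b a' b') = crp A E \ (I1 ∪ I2) := by
    rw [crp_sdiff]
    ext p
    rw [mem_sdiff, mem_sdiff, mem_union, mem_crp (D := rsv a b a' b')]
    constructor
    · rintro ⟨g1, g2⟩
      refine ⟨g1, ?_⟩
      have g1' := mem_crp.1 g1
      rintro (g | g)
      · rw [hI1, mem_image] at g
        obtain ⟨j, _, rfl⟩ := g
        exact g2 ⟨g1'.1, g1'.2.1, mem_rsv1 a b a' b' j⟩
      · rw [hI2, mem_image] at g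
        obtain ⟨j, _, rfl⟩ := g
        exact g2 ⟨g1'.1, g1'.2.1, mem_rsv2 a b a' b' j⟩
    · rintro ⟨g1, g2⟩
      refine ⟨g1, ?_⟩
      rintro ⟨g3, g4, g5⟩
      apply g2
      unfold rsv at g5
      simp only [mem_union, mem_image, mem_univ, true_and] at g5
      rcases g5 with (⟨j, g5⟩ | ⟨j, g5⟩) | ⟨j, g5⟩
      · left
        rw [hI1, mem_image]
        exact ⟨j, mem_univ _, (pair_inj g3 g4 (hf j).ha (hf j).hb (g5.symm : s(p.1, p.2) =
          s((a j, b j).1, (a j, b j).2))).symm⟩
      · right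
        rw [hI2, mem_image]
        exact ⟨j, mem_univ _, (pair_inj g3 g4 (hf j).ha' (hf j).hb' (g5.symm : s(p.1, p.2) =
          s((a' j, b' j).1, (a' j, b' j).2))).symm⟩
      · exfalso
        rcases Sym2.eq_iff.1 g5 with ⟨g6, g7⟩ | ⟨g6, g7⟩
        · exact g4 (g7 ▸ (hf j).ha')
        · exact g4 (g6 ▸ (hf j).ha)
  have h2 : I1 ∪ I2 ⊆ crp A E := by
    intro p hp
    rw [mem_crp]
    rcases mem_union.1 hp with hp | hp
    · rw [hI1, mem_image] at hp
      obtain ⟨j, _, rfl⟩ := hp
      exact ⟨(hf j).ha, (hf j).hb, (hf j).hab⟩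
    · rw [hI2, mem_image] at hp
      obtain ⟨j, _, rfl⟩ := hp
      exact ⟨(hf j).ha', (hf j).hb', (hf j).hab'⟩
  have h3 : I1.card = 5 := by
    rw [hI1, card_image_of_injective]
    · simp
    · intro i j hij
      apply he
      have := (Prod.mk.injEq _ _ _ _ ▸ hij : a i = a j ∧ b i = b j)
      simp only [this.1, this.2]
  have h4 : I2.card = 5 := by
    rw [hI2, card_image_of_injective]
    · simp
    · intro i j hij
      apply he'
      have := (Prod.mk.injEq _ _ _ _ ▸ hij : a' i = a' j ∧ b' i = b' j)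
      simp only [this.1, this.2]
  have h5 : Disjoint I1 I2 := by
    rw [disjoint_left]
    intro p hp hp'
    rw [hI1, mem_image] at hp
    rw [hI2, mem_image] at hp'
    obtain ⟨i, _, rfl⟩ := hp
    obtain ⟨j, _, hj⟩ := hp'
    apply hee i j
    have := (Prod.mk.injEq _ _ _ _ ▸ hj : a' j = a i ∧ b' j = b i)
    rw [this.1, this.2]
  rw [h1, card_sdiff_of_subset h2, card_union_of_disjoint h5, h3, h4]
  have h6 : (I1 ∪ I2).card ≤ (crp A E).card := card_le_card h2
  rw [card_union_of_disjoint h5, h3, h4] at h6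
  exact (Nat.even_sub h6).2 (by simp [even_crp h]; decide)

end C

end II3

open II3 in
/-- Section 15.3 -/
theorem II3_of (hK : S_nearKsub) : S_II3 := by
  obtain ⟨m, hm⟩ := hK
  refine ⟨1 / 10 ^ 20, by positivity, 10 ^ 30 + 4 * m, ?_⟩
  intro V _ _ E A hn hS hF
  have h := ctx_of_setII hS (by omega)
  obtain ⟨a, b, a', b', hf, he, he', hee, hr⟩ := hF
  obtain ⟨D0, c1, c2, c3, c4⟩ := clear h (rsv a b a' b')
    (fun x => (dg_le_card_edges _ x).trans ((card_rsv a b a' b').trans (by norm_num)))
    (even_rest h hf he he' hee)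
  set g := ((E ∩ A.sym2) \ D0).card with hg
  obtain ⟨t, ht1, ht2, ht3⟩ : ∃ t, 5 ≤ t ∧ t ≤ 2 * 5 ∧ 6 ∣ (g + 60 - t) := by
    refine ⟨5 + (g + 1) % 6, by omega, by omega, by omega⟩
  obtain ⟨D, d1, d2, d3, d4, d5, d6, d7, d8⟩ :=
    flexAll h hf he he' hee hr D0 c1 c4 5 le_rfl t ht1 ht2
  set D' := D0 ∪ D with hD'
  have hD'E : D' ⊆ E := union_subset (fun e he => (mem_sdiff.1 (c1 he)).1) d1
  have hD'D : Dec D' := c2.union d2 d3.symm
  have hcD : cross E A ⊆ D' := by
    intro e hec
    by_cases her : e ∈ rsv a b a' b'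
    · apply mem_union_right
      unfold rsv at her
      simp only [mem_union, mem_image, mem_univ, true_and] at her
      rcases her with (⟨j, rfl⟩ | ⟨j, rfl⟩) | ⟨j, rfl⟩
      · exact (d5 j j.2).1
      · exact (d5 j j.2).2
      · exfalso
        rw [mem_cross, mem_sd] at hec
        have h1 := (hf j).ha
        have h2 := (hf j).ha'
        tauto
    · apply mem_union_left
      obtain ⟨p, hp, hpe⟩ := exists_crp (D := E \ rsv a b a' b')
        (mem_sdiff.2 ⟨cross_subset E A hec, her⟩) hec
      rw [← c3, mem_crp, hpe] at hp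
      exact hp.2.2
  have hdD : ∀ v, 4000 * dg (D' \ cross E A) v ≤ Fintype.card V := by
    intro v
    have h1 : D' \ cross E A ⊆ (D0 \ cross E A) ∪ D := by
      intro e
      rw [hD']
      simp only [mem_sdiff, mem_union]
      tauto
    have h2 := (dg_mono h1 v).trans (dg_union_le _ _ v)
    have h3 := c4 v
    have h4 := d8 v
    omega
  have hDA : D ∩ A.sym2 ⊆ (E ∩ A.sym2) \ D0 := by
    intro e he
    rw [mem_inter] at he
    rw [mem_sdiff, mem_inter]
    exact ⟨⟨d1 he.1, he.2⟩, disjoint_left.1 d3 he.1⟩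
  have hA' : (E ∩ A.sym2) \ D' = ((E ∩ A.sym2) \ D0) \ (D ∩ A.sym2) := by
    ext e
    rw [hD']
    simp only [mem_sdiff, mem_inter, mem_union]
    tauto
  have hsixA : 6 ∣ ((E ∩ A.sym2) \ D').card := by
    rw [hA', card_sdiff_of_subset hDA, d7, ← hg]
    have h1 : t ≤ g := by
      rw [hg, ← d7]
      exact card_le_card hDA
    omega
  have hpart : E = D' ∪ (((E ∩ A.sym2) \ D') ∪ ((E ∩ Aᶜ.sym2) \ D')) := by
    ext e
    simp only [mem_union, mem_sdiff, mem_inter]
    constructor
    · intro heE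
      by_cases h1 : e ∈ D'
      · exact Or.inl h1
      · right
        have h2 : e ∉ cross E A := fun g => h1 (hcD g)
        unfold cross at h2
        rw [mem_filter] at h2
        by_cases h3 : e ∈ A.sym2
        · exact Or.inl ⟨⟨heE, h3⟩, h1⟩
        · by_cases h4 : e ∈ Aᶜ.sym2
          · exact Or.inr ⟨⟨heE, h4⟩, h1⟩
          · exact absurd ⟨heE, h3, h4⟩ h2
    · rintro (h1 | ⟨⟨h1, _⟩, _⟩ | ⟨⟨h1, _⟩, _⟩)
      · exact hD'E h1
      · exact h1
      · exact h1
  have hdAB : Disjoint ((E ∩ A.sym2) \ D') ((E ∩ Aᶜ.sym2) \ D') := by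
    rw [disjoint_left]
    intro e
    induction e using Sym2.ind with
    | _ u w =>
      intro h1 h2
      rw [mem_sdiff, mem_inter, mk_mem_sym2_iff] at h1 h2
      exact (mem_compl.1 h2.1.2.1) h1.1.2.1
  have hdD' : Disjoint D' (((E ∩ A.sym2) \ D') ∪ ((E ∩ Aᶜ.sym2) \ D')) := by
    rw [disjoint_union_right]
    exact ⟨disjoint_sdiff, disjoint_sdiff⟩
  have hsixB : 6 ∣ ((E ∩ Aᶜ.sym2) \ D').card := by
    have h1 : E.card = D'.card + (((E ∩ A.sym2) \ D').card + ((E ∩ Aᶜ.sym2) \ D').card) := by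
      conv_lhs => rw [hpart]
      rw [card_union_of_disjoint hdD', card_union_of_disjoint hdAB]
    have h2 := hS.div.six
    have h3 := hD'D.six
    omega
  have hside := fun (X : Finset V) => side h (hm V) (D := D') (by omega) hD'E hD'D hcD hdD (X := X)
  have hA0 : A.Nonempty := by
    rw [← card_pos]
    have h1 := hS.low
    have h2 := h.big
    have : (0 : ℝ) < (A.card : ℝ) := by
      refine lt_of_lt_of_le ?_ h1
      have h3 : (0 : ℝ) < (Fintype.card V : ℝ) := by linarith
      have h4 : (0 : ℝ) < 1 / 2 - 1 / 10 ^ 20 := by norm_num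
      positivity
    exact_mod_cast this
  have hB0 : (Aᶜ).Nonempty := by
    rw [← card_pos]
    exact lt_of_lt_of_le (card_pos.2 hA0) hS.le
  obtain ⟨x, hx⟩ := hA0
  obtain ⟨y, hy⟩ := hB0
  rw [mem_compl] at hy
  have hDecA := hside A (fun x hx => if_pos hx) x (if_pos hx) hsixA
  have hDecB := hside Aᶜ (fun x hx => if_neg (mem_compl.1 hx)) y (if_neg hy) hsixB
  rw [hpart]
  exact hD'D.union (hDecA.union hDecB hdAB) hdD'

end Pool.Agent.H483C6
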