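import Pool.Agent.H483C6.Stmts3
import Pool.Agent.H483C6.Basic

/-!
# Lower bound constructions for hexagon decompositions (MP_1bffa4_co, section 16, helper335)
-/

set_option autoImplicit false
set_option linter.unusedSectionVars false

namespace Pool.Agent.H483C6

namespace Low

open Finset

section Gen

variable {V : Type} [DecidableEq V]

/-- an invariant of decomposable graphs -/
theorem dec_inv {m : ℕ} {F E0 : Finset (Sym2 V)}
    (h0 : ∀ S, IsHex S → S ⊆ E0 → m ∣ (S ∩ F).card) {E : Finset (Sym2 V)} (hE : Dec E)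
    (hsub : E ⊆ E0) : m ∣ (E ∩ F).card := by
  induction hE with
  | empty => simp
  | @cons S E hS hE hd ih =>
    rw [union_inter_distrib_right, card_union_of_disjoint
      (disjoint_of_subset_left inter_subset_left (disjoint_of_subset_right inter_subset_left hd))]
    exact dvd_add (h0 S hS (subset_union_left.trans hsub)) (ih (subset_union_right.trans hsub))

theorem sum_hex {a b c d e f : V} (h : [a, b, c, d, e, f].Nodup) (g : Sym2 V → ℕ) :
    ∑ x ∈ hex a b c d e f, g x =
      g s(a, b) + (g s(b, c) + (g s(c, d) + (g s(d, e) + (g s(e, f) + g s(f, a))))) := by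
  simp only [List.nodup_cons, List.mem_cons, List.not_mem_nil, or_false, not_or, not_false_iff,
    List.nodup_nil, and_true] at h
  obtain ⟨⟨h1, h2, h3, h4, h5⟩, ⟨h6, h7, h8, h9⟩, ⟨h10, h11, h12⟩, ⟨h13, h14⟩, h15⟩ := h
  unfold hex
  rw [sum_insert, sum_insert, sum_insert, sum_insert, sum_insert, sum_singleton]
  all_goals simp only [mem_insert, mem_singleton, Sym2.eq_iff]; tauto

theorem chain6 {P : V → Prop} {v a b c d e f : V} (h : [a, b, c, d, e, f].Nodup)
    (a1 : P a → b ≠ v → P b) (a2 : P b → a ≠ v → P a)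
    (b1 : P b → c ≠ v → P c) (b2 : P c → b ≠ v → P b)
    (c1 : P c → d ≠ v → P d) (c2 : P d → c ≠ v → P c)
    (d1 : P d → e ≠ v → P e) (d2 : P e → d ≠ v → P d)
    (e1 : P e → f ≠ v → P f) (e2 : P f → e ≠ v → P e)
    (f1 : P f → a ≠ v → P a) (f2 : P a → f ≠ v → P f) (ha : P a) :
    (P a ∨ P b) ∧ (P b ∨ P c) ∧ (P c ∨ P d) ∧ (P d ∨ P e) ∧ (P e ∨ P f) ∧ (P f ∨ P a) := by
  simp only [List.nodup_cons, List.mem_cons, List.not_mem_nil, or_false, not_or, not_false_iff,
    List.nodup_nil, and_true] at h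
  obtain ⟨⟨h1, h2, h3, h4, h5⟩, ⟨h6, h7, h8, h9⟩, ⟨h10, h11, h12⟩, ⟨h13, h14⟩, h15⟩ := h
  by_cases hb : b = v
  · subst hb
    have pf := f2 ha (Ne.symm h9)
    have pe := e2 pf (Ne.symm h8)
    have pd := d2 pe (Ne.symm h7)
    have pc := c2 pd (Ne.symm h6)
    exact ⟨.inl ha, .inr pc, .inl pc, .inl pd, .inl pe, .inl pf⟩
  have pb := a1 ha hb
  by_cases hc : c = v
  · subst hc
    have pf := f2 ha (Ne.symm h12)
    have pe := e2 pf (Ne.symm h11)
    have pd := d2 pe (Ne.symm h10)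
    exact ⟨.inl ha, .inl pb, .inr pd, .inl pd, .inl pe, .inl pf⟩
  have pc := b1 pb hc
  by_cases hd : d = v
  · subst hd
    have pf := f2 ha (Ne.symm h14)
    have pe := e2 pf (Ne.symm h13)
    exact ⟨.inl ha, .inl pb, .inl pc, .inr pe, .inl pe, .inl pf⟩
  have pd := c1 pc hd
  by_cases he : e = v
  · subst he
    have pf := f2 ha (Ne.symm h15)
    exact ⟨.inl ha, .inl pb, .inl pc, .inl pd, .inr pf, .inl pf⟩
  have pe := d1 pd he
  exact ⟨.inl ha, .inl pb, .inl pc, .inl pd, .inl pe, .inr ha⟩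

/-- two graphs sharing at most one vertex -/
theorem cut [Fintype V] {A B : Finset V} {v : V} (hAB : Disjoint A B) (hA : v ∉ A)
    {E1 E2 : Finset (Sym2 V)} (h1 : E1 ⊆ (insert v A).sym2) (h2 : E2 ⊆ (insert v B).sym2)
    (hl : Loopless (E1 ∪ E2)) (hn : ¬ 6 ∣ E1.card) : ¬ Dec (E1 ∪ E2) := by
  intro hdec
  have hAB' : ∀ x, x ∈ A → x ∉ B := fun x hx hx' => disjoint_left.1 hAB hx hx'
  -- an edge lies in `E1` iff it has an end in `A`
  have key1 : ∀ x y, s(x, y) ∈ E1 ∪ E2 → (s(x, y) ∈ E1 ↔ x ∈ A ∨ y ∈ A) := by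
    intro x y hxy
    have hne := hl.ne hxy
    constructor
    · intro h
      have := mk_mem_sym2_iff.1 (h1 h)
      simp only [mem_insert] at this
      rcases this with ⟨h3 | h3, h4 | h4⟩
      · exact absurd (h3.trans h4.symm) hne
      · exact Or.inr h4
      · exact Or.inl h3
      · exact Or.inr h4
    · intro h
      rcases mem_union.1 hxy with h' | h'
      · exact h'
      · exfalso
        have := mk_mem_sym2_iff.1 (h2 h')
        simp only [mem_insert] at this
        rcases h with h | h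
        · rcases this.1 with h3 | h3
          · exact hA (h3 ▸ h)
          · exact hAB' _ h h3
        · rcases this.2 with h3 | h3
          · exact hA (h3 ▸ h)
          · exact hAB' _ h h3
  have key2 : ∀ x y, s(x, y) ∈ E1 ∪ E2 → x ∈ A → y ≠ v → y ∈ A := by
    intro x y hxy hx hy
    have h := mk_mem_sym2_iff.1 (h1 ((key1 x y hxy).2 (Or.inl hx)))
    simp only [mem_insert] at h
    exact h.2.resolve_left hy
  have key3 : ∀ x y, s(x, y) ∈ E1 ∪ E2 → y ∈ A → x ≠ v → x ∈ A := by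
    intro x y hxy hx hy
    exact key2 y x (by rwa [Sym2.eq_swap]) hx hy
  have hinv : ∀ S, IsHex S → S ⊆ E1 ∪ E2 → 6 ∣ (S ∩ E1).card := by
    rintro S ⟨a, b, c, d, e, f, hnd, rfl⟩ hS
    have hab : s(a, b) ∈ E1 ∪ E2 := hS (by simp [hex])
    have hbc : s(b, c) ∈ E1 ∪ E2 := hS (by simp [hex])
    have hcd : s(c, d) ∈ E1 ∪ E2 := hS (by simp [hex])
    have hde : s(d, e) ∈ E1 ∪ E2 := hS (by simp [hex])
    have hef : s(e, f) ∈ E1 ∪ E2 := hS (by simp [hex])
    have hfa : s(f, a) ∈ E1 ∪ E2 := hS (by simp [hex])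
    have hA' : ∀ x, x ∈ A → x ≠ v := fun x hx h => hA (h ▸ hx)
    have n := hnd
    simp only [List.nodup_cons, List.mem_cons, List.not_mem_nil, or_false, not_or, not_false_iff,
      List.nodup_nil, and_true] at n
    obtain ⟨⟨n1, n2, n3, n4, n5⟩, ⟨n6, n7, n8, n9⟩, ⟨n10, n11, n12⟩, ⟨n13, n14⟩, n15⟩ := n
    have a1 := key2 _ _ hab
    have a2 := key3 _ _ hab
    have b1 := key2 _ _ hbc
    have b2 := key3 _ _ hbc
    have c1 := key2 _ _ hcd
    have c2 := key3 _ _ hcd
    have d1 := key2 _ _ hde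
    have d2 := key3 _ _ hde
    have e1 := key2 _ _ hef
    have e2 := key3 _ _ hef
    have f1 := key2 _ _ hfa
    have f2 := key3 _ _ hfa
    by_cases hany : a ∈ A ∨ b ∈ A ∨ c ∈ A ∨ d ∈ A ∨ e ∈ A ∨ f ∈ A
    · have hall : (a ∈ A ∨ b ∈ A) ∧ (b ∈ A ∨ c ∈ A) ∧ (c ∈ A ∨ d ∈ A) ∧ (d ∈ A ∨ e ∈ A) ∧
          (e ∈ A ∨ f ∈ A) ∧ (f ∈ A ∨ a ∈ A) := by
        have r1 := nodup_rot hnd
        have r2 := nodup_rot r1
        have r3 := nodup_rot r2
        have r4 := nodup_rot r3
        have r5 := nodup_rot r4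
        rcases hany with h | h | h | h | h | h
        · exact chain6 (P := fun x => x ∈ A) hnd a1 a2 b1 b2 c1 c2 d1 d2 e1 e2 f1 f2 h
        · obtain ⟨q1, q2, q3, q4, q5, q6⟩ :=
            chain6 (P := fun x => x ∈ A) r1 b1 b2 c1 c2 d1 d2 e1 e2 f1 f2 a1 a2 h
          exact ⟨q6, q1, q2, q3, q4, q5⟩
        · obtain ⟨q1, q2, q3, q4, q5, q6⟩ :=
            chain6 (P := fun x => x ∈ A) r2 c1 c2 d1 d2 e1 e2 f1 f2 a1 a2 b1 b2 h
          exact ⟨q5, q6, q1, q2, q3, q4⟩
        · obtain ⟨q1, q2, q3, q4, q5, q6⟩ :=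
            chain6 (P := fun x => x ∈ A) r3 d1 d2 e1 e2 f1 f2 a1 a2 b1 b2 c1 c2 h
          exact ⟨q4, q5, q6, q1, q2, q3⟩
        · obtain ⟨q1, q2, q3, q4, q5, q6⟩ :=
            chain6 (P := fun x => x ∈ A) r4 e1 e2 f1 f2 a1 a2 b1 b2 c1 c2 d1 d2 h
          exact ⟨q3, q4, q5, q6, q1, q2⟩
        · obtain ⟨q1, q2, q3, q4, q5, q6⟩ :=
            chain6 (P := fun x => x ∈ A) r5 f1 f2 a1 a2 b1 b2 c1 c2 d1 d2 e1 e2 h
          exact ⟨q2, q3, q4, q5, q6, q1⟩
      obtain ⟨g1, g2, g3, g4, g5, g6⟩ := hall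
      have : hex a b c d e f ⊆ E1 := by
        intro x hx
        rw [mem_hex] at hx
        rcases hx with rfl | rfl | rfl | rfl | rfl | rfl
        · exact (key1 _ _ hab).2 g1
        · exact (key1 _ _ hbc).2 g2
        · exact (key1 _ _ hcd).2 g3
        · exact (key1 _ _ hde).2 g4
        · exact (key1 _ _ hef).2 g5
        · exact (key1 _ _ hfa).2 g6
      rw [inter_eq_left.2 this, card_hex hnd]
    · have : hex a b c d e f ∩ E1 = ∅ := by
        rw [← disjoint_iff_inter_eq_empty, disjoint_left]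
        intro x hx hx'
        rw [mem_hex] at hx
        push Not at hany
        obtain ⟨m1, m2, m3, m4, m5, m6⟩ := hany
        rcases hx with rfl | rfl | rfl | rfl | rfl | rfl
        · exact ((key1 _ _ hab).1 hx').elim m1 m2
        · exact ((key1 _ _ hbc).1 hx').elim m2 m3
        · exact ((key1 _ _ hcd).1 hx').elim m3 m4
        · exact ((key1 _ _ hde).1 hx').elim m4 m5
        · exact ((key1 _ _ hef).1 hx').elim m5 m6
        · exact ((key1 _ _ hfa).1 hx').elim m6 m1
      rw [this]; simp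
  have := dec_inv hinv hdec subset_rfl
  rw [inter_eq_right.2 subset_union_left] at this
  exact hn this

end Gen

section Blocks

variable {V : Type} [DecidableEq V] [Fintype V]

/-- the edge set of a symmetric relation -/
noncomputable def es (r : V → V → Prop) (hr : ∀ x y, r x y → r y x) : Finset (Sym2 V) := by
  classical
  exact univ.filter fun e => e ∈ Sym2.fromRel (r := r) ⟨hr⟩

theorem mem_es {r : V → V → Prop} {hr : ∀ x y, r x y → r y x} {x y : V} : s(x, y) ∈ es r hr ↔ r x y := by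
  classical
  unfold es
  simp

theorem exists_matching (S : Finset V) (h : Even S.card) : ∃ f : V → V,
    ∀ x ∈ S, f x ∈ S ∧ f x ≠ x ∧ f (f x) = x := by
  classical
  obtain ⟨q, hq⟩ := h
  have hc : Fintype.card S = Fintype.card (Fin q × Bool) := by
    simp [hq]; ring
  let e : S ≃ Fin q × Bool := Fintype.equivOfCardEq hc
  let f : V → V := fun x => if h : x ∈ S then (e.symm ((e ⟨x, h⟩).1, !(e ⟨x, h⟩).2) : S) else x
  have hf : ∀ x (h : x ∈ S), f x = (e.symm ((e ⟨x, h⟩).1, !(e ⟨x, h⟩).2) : S) := by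
    intro x h
    simp only [f, dif_pos h]
  refine ⟨f, fun x hx => ⟨?_, ?_, ?_⟩⟩
  · rw [hf x hx]; exact Subtype.mem _
  · rw [hf x hx]
    intro h
    have h2 : e.symm ((e ⟨x, hx⟩).1, !(e ⟨x, hx⟩).2) = ⟨x, hx⟩ := Subtype.ext h
    rw [Equiv.symm_apply_eq] at h2
    have h3 := congrArg Prod.snd h2
    simp at h3
  · have hm : f x ∈ S := by rw [hf x hx]; exact Subtype.mem _
    rw [hf (f x) hm]
    have h2 : (⟨f x, hm⟩ : S) = e.symm ((e ⟨x, hx⟩).1, !(e ⟨x, hx⟩).2) := Subtype.ext (hf x hx)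
    rw [h2]
    simp

theorem exists_rot (S : Finset V) (h : 3 ≤ S.card) : ∃ f g : V → V,
    ∀ x ∈ S, f x ∈ S ∧ g x ∈ S ∧ f x ≠ x ∧ g x ≠ x ∧ f x ≠ g x ∧ g (f x) = x ∧ f (g x) = x := by
  classical
  set t := S.card with ht
  have : NeZero t := ⟨by omega⟩
  have : Fact (1 < t) := ⟨by omega⟩
  have hc : Fintype.card S = Fintype.card (ZMod t) := by
    simp [ZMod.card]; rfl
  let e : S ≃ ZMod t := Fintype.equivOfCardEq hc
  let F : ZMod t → V → V := fun i x => if h : x ∈ S then (e.symm (e ⟨x, h⟩ + i) : S) else x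
  have hF : ∀ i x (h : x ∈ S), F i x = (e.symm (e ⟨x, h⟩ + i) : S) := by
    intro i x h
    simp only [F, dif_pos h]
  have hmem : ∀ i, ∀ x ∈ S, F i x ∈ S := by
    intro i x h
    rw [hF i x h]; exact Subtype.mem _
  have hcomp : ∀ i j, ∀ x ∈ S, F i (F j x) = F (j + i) x := by
    intro i j x h
    rw [hF i _ (hmem j x h), hF (j + i) x h]
    have h2 : (⟨F j x, hmem j x h⟩ : S) = e.symm (e ⟨x, h⟩ + j) := Subtype.ext (hF j x h)
    rw [h2]
    simp [add_assoc]
  have hinj : ∀ i j, ∀ x ∈ S, F i x = F j x → i = j := by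
    intro i j x h hij
    rw [hF i x h, hF j x h] at hij
    have := e.symm.injective (Subtype.ext hij)
    exact add_left_cancel this
  have hzero : ∀ x ∈ S, F 0 x = x := by
    intro x h
    rw [hF 0 x h]
    simp
  have h10 : (1 : ZMod t) ≠ 0 := by
    exact one_ne_zero
  have h2 : ((2 : ℕ) : ZMod t) ≠ 0 := by
    rw [Ne, ZMod.natCast_eq_zero_iff]
    intro hd
    have := Nat.le_of_dvd (by norm_num) hd
    omega
  refine ⟨F 1, F (-1), fun x hx => ⟨hmem _ x hx, hmem _ x hx, ?_, ?_, ?_, ?_, ?_⟩⟩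
  · intro h'
    exact h10 (hinj 1 0 x hx (h'.trans (hzero x hx).symm))
  · intro h'
    exact h10 (neg_eq_zero.1 (hinj (-1) 0 x hx (h'.trans (hzero x hx).symm)))
  · intro h'
    have := hinj 1 (-1) x hx h'
    apply h2
    have h3 : (1 : ZMod t) + 1 = 0 := by
      nth_rewrite 2 [this]
      ring
    push_cast
    rw [← h3]; ring
  · rw [hcomp _ _ x hx]
    simp [hzero x hx]
  · rw [hcomp _ _ x hx]
    simp [hzero x hx]

/-- one side of the construction -/
structure Blk (S : Finset V) (v : V) (E : Finset (Sym2 V)) (d c : ℕ) : Prop where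
  sub : E ⊆ (insert v S).sym2
  loopless : Loopless E
  even : ∀ x ∈ S, Even (dg E x)
  deg : ∀ x ∈ S, d ≤ dg E x
  evenv : Even (dg E v)
  degv : S.card ≤ dg E v + 12
  card : E.card % 6 = c

theorem oddBlk {S : Finset V} {v : V} (hv : v ∉ S) {c k : ℕ} (hc : c < 6)
    (hS : S.card = 2 * k + 1) (hk : 10 ≤ k) : ∃ E, Blk S v E (2 * k) c := by
  classical
  -- choose `r`
  obtain ⟨r, hr1, hr2, hr3⟩ : ∃ r : ℕ, r ≤ 11 ∧ r % 2 = 1 ∧
      ∀ e : ℕ, 2 * e + r = S.card * S.card → e % 6 = c := by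
    have hM : S.card * S.card = 4 * (k * k) + 4 * k + 1 := by rw [hS]; ring
    have hkk : (k * k) % 3 = (k % 3) * (k % 3) % 3 := Nat.mul_mod _ _ _
    have hpar : (k * k) % 2 = (k % 2) * (k % 2) % 2 := Nat.mul_mod _ _ _
    have h3 : k % 3 = 0 ∨ k % 3 = 1 ∨ k % 3 = 2 := by omega
    refine ⟨(S.card * S.card + 12 - 2 * c) % 12, by omega, ?_, ?_⟩
    · rw [hM]; omega
    · intro e he
      rw [hM] at he
      omega
  obtain ⟨T, hTS, hT⟩ := exists_subset_card_eq (s := S) (n := r) (by omega)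
  have hTe : Even (S \ T).card := by
    rw [card_sdiff_of_subset hTS, hT, hS]
    rw [Nat.even_iff]; omega
  obtain ⟨f, hf⟩ := exists_matching (S \ T) hTe
  let rel : V → V → Prop := fun x y => x ≠ y ∧ x ∈ insert v S ∧ y ∈ insert v S ∧
    ¬ (x = v ∧ y ∈ T) ∧ ¬ (y = v ∧ x ∈ T) ∧ ¬ (x ∈ S \ T ∧ y = f x)
  have hsym : ∀ x y, rel x y → rel y x := by
    rintro x y ⟨h1, h2, h3, h4, h5, h6⟩
    refine ⟨h1.symm, h3, h2, h5, h4, ?_⟩
    rintro ⟨h7, h8⟩
    apply h6
    have := hf y h7
    rw [← h8] at this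
    exact ⟨this.1, this.2.2.symm⟩
  have hTv : v ∉ T := fun h => hv (hTS h)
  have nbv : nb (es rel hsym) v = S \ T := by
    ext y
    rw [mem_nb, mem_es]
    simp only [rel, mem_insert, mem_sdiff]
    constructor
    · rintro ⟨h1, h2, h3, h4, h5, h6⟩
      exact ⟨h3.resolve_left (Ne.symm h1), fun h => h4 ⟨trivial, h⟩⟩
    · rintro ⟨h1, h2⟩
      exact ⟨fun h => hv (h ▸ h1), Or.inl trivial, Or.inr h1, fun h => h2 h.2,
        fun h => hTv h.2, fun h => hv h.1.1⟩
  have nbT : ∀ x ∈ T, nb (es rel hsym) x = S.erase x := by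
    intro x hx
    ext y
    rw [mem_nb, mem_es]
    simp only [rel, mem_insert, mem_sdiff, mem_erase]
    constructor
    · rintro ⟨h1, h2, h3, h4, h5, h6⟩
      exact ⟨Ne.symm h1, h3.resolve_left fun h => h5 ⟨h, hx⟩⟩
    · rintro ⟨h1, h2⟩
      exact ⟨Ne.symm h1, Or.inr (hTS hx), Or.inr h2, fun h => hTv (h.1 ▸ hx),
        fun h => hv (h.1 ▸ h2), fun h => h.1.2 hx⟩
  have nbS : ∀ x ∈ S \ T, nb (es rel hsym) x = (insert v (S.erase x)).erase (f x) := by
    intro x hx
    have hx' := mem_sdiff.1 hx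
    ext y
    rw [mem_nb, mem_es]
    simp only [rel, mem_insert, mem_sdiff, mem_erase]
    constructor
    · rintro ⟨h1, h2, h3, h4, h5, h6⟩
      refine ⟨fun h => h6 ⟨hx', h⟩, ?_⟩
      rcases h3 with h3 | h3
      · exact Or.inl h3
      · exact Or.inr ⟨Ne.symm h1, h3⟩
    · rintro ⟨h1, h2⟩
      refine ⟨?_, Or.inr hx'.1, ?_, ?_, ?_, fun h => h1 h.2⟩
      · rcases h2 with h2 | h2
        · rintro rfl; exact hv (h2 ▸ hx'.1)
        · exact Ne.symm h2.1
      · rcases h2 with h2 | h2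
        · exact Or.inl h2
        · exact Or.inr h2.2
      · rintro ⟨rfl, -⟩; exact hv hx'.1
      · rintro ⟨-, h⟩; exact hx'.2 h
  have dv : dg (es rel hsym) v = 2 * k + 1 - r := by
    unfold dg
    rw [nbv, card_sdiff_of_subset hTS, hT, hS]
  have dS : ∀ x ∈ S, dg (es rel hsym) x = 2 * k := by
    intro x hx
    unfold dg
    by_cases hxT : x ∈ T
    · rw [nbT x hxT, card_erase_of_mem hx, hS]; rfl
    · have hx' : x ∈ S \ T := mem_sdiff.2 ⟨hx, hxT⟩
      have hfx := hf x hx'
      rw [nbS x hx', card_erase_of_mem, card_insert_of_notMem, card_erase_of_mem hx, hS]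
      · simp
      · simp [hv]
      · simp only [mem_insert, mem_erase]
        exact Or.inr ⟨hfx.2.1, (mem_sdiff.1 hfx.1).1⟩
  have hsub : es rel hsym ⊆ (insert v S).sym2 := by
    intro e he
    induction e using Sym2.ind with
    | _ x y =>
      rw [mem_es] at he
      rw [mk_mem_sym2_iff]
      exact ⟨he.2.1, he.2.2.1⟩
  have hll : Loopless (es rel hsym) := by
    intro e he
    induction e using Sym2.ind with
    | _ x y =>
      rw [mem_es] at he
      rw [Sym2.mk_isDiag_iff]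
      exact he.1
  refine ⟨es rel hsym, hsub, hll, fun x hx => ?_, fun x hx => (dS x hx).ge, ?_, ?_, ?_⟩
  · rw [dS x hx]; exact even_two_mul k
  · rw [dv, Nat.even_iff]; omega
  · rw [dv, hS]; omega
  · apply hr3
    have := sum_dg_of_subset hll hsub
    rw [sum_insert hv, sum_congr rfl dS, sum_const, dv, smul_eq_mul] at this
    rw [← this, hS]
    have h5 : (2 * k + 1) * (2 * k + 1) = (2 * k + 1) * (2 * k) + (2 * k + 1) := by ring
    omega

theorem fullBlk {S : Finset V} {v : V} (hv : v ∉ S) {k : ℕ}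
    (hS : S.card = 2 * k) : ∃ E, Blk S v E (2 * k) (k * (2 * k + 1) % 6) := by
  classical
  let rel : V → V → Prop := fun x y => x ≠ y ∧ x ∈ insert v S ∧ y ∈ insert v S
  have hsym : ∀ x y, rel x y → rel y x := fun x y h => ⟨h.1.symm, h.2.2, h.2.1⟩
  have nbx : ∀ x ∈ insert v S, nb (es rel hsym) x = (insert v S).erase x := by
    intro x hx
    ext y
    rw [mem_nb, mem_es]
    simp only [rel, mem_erase]
    exact ⟨fun h => ⟨h.1.symm, h.2.2⟩, fun h => ⟨h.1.symm, hx, h.2⟩⟩
  have hcard : (insert v S).card = 2 * k + 1 := by rw [card_insert_of_notMem hv, hS]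
  have dx : ∀ x ∈ insert v S, dg (es rel hsym) x = 2 * k := by
    intro x hx
    unfold dg
    rw [nbx x hx, card_erase_of_mem hx, hcard]; rfl
  have hsub : es rel hsym ⊆ (insert v S).sym2 := by
    intro e he
    induction e using Sym2.ind with
    | _ x y =>
      rw [mem_es] at he
      rw [mk_mem_sym2_iff]
      exact he.2
  have hll : Loopless (es rel hsym) := by
    intro e he
    induction e using Sym2.ind with
    | _ x y =>
      rw [mem_es] at he
      rw [Sym2.mk_isDiag_iff]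
      exact he.1
  refine ⟨es rel hsym, hsub, hll, fun x hx => ?_, fun x hx => (dx x (mem_insert_of_mem hx)).ge,
    ?_, ?_, ?_⟩
  · rw [dx x (mem_insert_of_mem hx)]; exact even_two_mul k
  · rw [dx v (mem_insert_self _ _)]; exact even_two_mul k
  · rw [dx v (mem_insert_self _ _), hS]; omega
  · have := sum_dg_of_subset hll hsub
    rw [sum_congr rfl dx, sum_const, smul_eq_mul, hcard] at this
    have h2 : (es rel hsym).card = k * (2 * k + 1) := by
      have h3 : (2 * k + 1) * (2 * k) = 2 * (k * (2 * k + 1)) := by ring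
      omega
    rw [h2]

theorem evenBlk {S : Finset V} {v : V} (hv : v ∉ S) {c k : ℕ} (hc : c < 6)
    (hS : S.card = 2 * k) (hk : 10 ≤ k) : ∃ E, Blk S v E (2 * k - 2) c := by
  classical
  -- choose `t`
  obtain ⟨t, ht1, ht2, ht3⟩ : ∃ t : ℕ, 3 ≤ t ∧ t ≤ 8 ∧
      ∀ e : ℕ, e + t = k * (2 * k + 1) → e % 6 = c := by
    refine ⟨3 + (k * (2 * k + 1) + 9 - c) % 6, by omega, by omega, ?_⟩
    intro e he
    omega
  obtain ⟨T, hTS, hT⟩ := exists_subset_card_eq (s := S) (n := t) (by omega)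
  obtain ⟨f, g, hfg⟩ := exists_rot T (by omega)
  let rel : V → V → Prop := fun x y => x ≠ y ∧ x ∈ insert v S ∧ y ∈ insert v S ∧
    ¬ (x ∈ T ∧ (y = f x ∨ y = g x))
  have hsym : ∀ x y, rel x y → rel y x := by
    rintro x y ⟨h1, h2, h3, h4⟩
    refine ⟨h1.symm, h3, h2, ?_⟩
    rintro ⟨h7, h8⟩
    apply h4
    obtain ⟨g1, g2, g3, g4, g5, g6, g7⟩ := hfg y h7
    rcases h8 with h8 | h8
    · rw [← h8] at g1 g6
      exact ⟨g1, Or.inr g6.symm⟩
    · rw [← h8] at g2 g7
      exact ⟨g2, Or.inl g7.symm⟩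
  have hTv : v ∉ T := fun h => hv (hTS h)
  have nbS : ∀ x ∈ insert v S, x ∉ T → nb (es rel hsym) x = (insert v S).erase x := by
    intro x hx hxT
    ext y
    rw [mem_nb, mem_es]
    simp only [rel, mem_erase]
    exact ⟨fun h => ⟨h.1.symm, h.2.2.1⟩, fun h => ⟨h.1.symm, hx, h.2, fun h' => hxT h'.1⟩⟩
  have nbT : ∀ x ∈ T, nb (es rel hsym) x = (insert v S) \ {x, f x, g x} := by
    intro x hx
    ext y
    rw [mem_nb, mem_es]
    simp only [rel, mem_sdiff, mem_insert, mem_singleton, not_or]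
    constructor
    · rintro ⟨h1, h2, h3, h4⟩
      exact ⟨h3, Ne.symm h1, fun h => h4 ⟨hx, Or.inl h⟩, fun h => h4 ⟨hx, Or.inr h⟩⟩
    · rintro ⟨h1, h2, h3, h4⟩
      exact ⟨Ne.symm h2, Or.inr (hTS hx), h1, fun h => h.2.elim h3 h4⟩
  have hcard : (insert v S).card = 2 * k + 1 := by rw [card_insert_of_notMem hv, hS]
  have dS : ∀ x ∈ insert v S, x ∉ T → dg (es rel hsym) x = 2 * k := by
    intro x hx hxT
    unfold dg
    rw [nbS x hx hxT, card_erase_of_mem hx, hcard]; rfl
  have dT : ∀ x ∈ T, dg (es rel hsym) x = 2 * k - 2 := by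
    intro x hx
    obtain ⟨g1, g2, g3, g4, g5, g6, g7⟩ := hfg x hx
    unfold dg
    rw [nbT x hx, card_sdiff_of_subset, hcard, card_insert_of_notMem, card_pair g5]
    · omega
    · simp only [mem_insert, mem_singleton, not_or]
      exact ⟨g3.symm, g4.symm⟩
    · intro z hz
      simp only [mem_insert, mem_singleton] at hz
      rcases hz with rfl | rfl | rfl
      · exact mem_insert_of_mem (hTS hx)
      · exact mem_insert_of_mem (hTS g1)
      · exact mem_insert_of_mem (hTS g2)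
  have hsub : es rel hsym ⊆ (insert v S).sym2 := by
    intro e he
    induction e using Sym2.ind with
    | _ x y =>
      rw [mem_es] at he
      rw [mk_mem_sym2_iff]
      exact ⟨he.2.1, he.2.2.1⟩
  have hll : Loopless (es rel hsym) := by
    intro e he
    induction e using Sym2.ind with
    | _ x y =>
      rw [mem_es] at he
      rw [Sym2.mk_isDiag_iff]
      exact he.1
  refine ⟨es rel hsym, hsub, hll, fun x hx => ?_, fun x hx => ?_, ?_, ?_, ?_⟩
  · by_cases hxT : x ∈ T
    · rw [dT x hxT, Nat.even_iff]; omega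
    · rw [dS x (mem_insert_of_mem hx) hxT]; exact even_two_mul k
  · by_cases hxT : x ∈ T
    · rw [dT x hxT]
    · rw [dS x (mem_insert_of_mem hx) hxT]; omega
  · rw [dS v (mem_insert_self _ _) hTv]; exact even_two_mul k
  · rw [dS v (mem_insert_self _ _) hTv, hS]; omega
  · apply ht3
    have h1 := sum_dg_of_subset hll hsub
    have h2 : T ⊆ insert v S := hTS.trans (subset_insert _ _)
    rw [← sum_sdiff h2, sum_congr rfl dT,
      sum_congr rfl (fun x hx => dS x (mem_sdiff.1 hx).1 (mem_sdiff.1 hx).2), sum_const, sum_const,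
      smul_eq_mul, smul_eq_mul, card_sdiff_of_subset h2, hcard, hT] at h1
    have h3 : (2 * k + 1 - t) * (2 * k) + t * (2 * k - 2) + 2 * t = 2 * (k * (2 * k + 1)) := by
      obtain ⟨a, ha⟩ : ∃ a, 2 * k + 1 = a + t := ⟨2 * k + 1 - t, by omega⟩
      obtain ⟨b, hb⟩ : ∃ b, 2 * k = b + 2 := ⟨2 * k - 2, by omega⟩
      have h4 : 2 * (k * (2 * k + 1)) = (2 * k) * (2 * k + 1) := by ring
      rw [h4, ha, Nat.add_sub_cancel, hb, Nat.add_sub_cancel]
      ring
    omega

/-- gluing two blocks at a vertex -/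
theorem glue {A B : Finset V} {v : V} (hAB : Disjoint A B) (hA : v ∉ A) (hB : v ∉ B)
    (hu : ∀ x, x = v ∨ x ∈ A ∨ x ∈ B) {E1 E2 : Finset (Sym2 V)} {d1 d2 c1 c2 d : ℕ}
    (h1 : Blk A v E1 d1 c1) (h2 : Blk B v E2 d2 c2) (hc1 : c1 ≠ 0) (hc : (c1 + c2) % 6 = 0)
    (hd1 : d ≤ d1) (hd2 : d ≤ d2) (hd : d + 24 ≤ A.card + B.card) :
    ∃ E : Finset (Sym2 V), Div6 E ∧ ¬ Dec E ∧ ∀ x, d ≤ dg E x := by
  classical
  have hdisj : Disjoint E1 E2 := by
    rw [disjoint_left]
    intro e he1 he2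
    induction e using Sym2.ind with
    | _ x y =>
      have hne := h1.loopless.ne he1
      have m1 := mk_mem_sym2_iff.1 (h1.sub he1)
      have m2 := mk_mem_sym2_iff.1 (h2.sub he2)
      simp only [mem_insert] at m1 m2
      have hx : x = v := by
        rcases m1.1 with h | h
        · exact h
        · rcases m2.1 with h' | h'
          · exact h'
          · exact absurd h' (disjoint_left.1 hAB h)
      have hy : y = v := by
        rcases m1.2 with h | h
        · exact h
        · rcases m2.2 with h' | h'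
          · exact h'
          · exact absurd h' (disjoint_left.1 hAB h)
      exact hne (hx.trans hy.symm)
  have hll : Loopless (E1 ∪ E2) := h1.loopless.union h2.loopless
  have dA : ∀ x ∈ A, dg (E1 ∪ E2) x = dg E1 x := by
    intro x hx
    rw [dg_union hdisj, dg_eq_zero_of_notMem h2.sub, add_zero]
    simp only [mem_insert, not_or]
    exact ⟨fun h => hA (h ▸ hx), fun h => disjoint_left.1 hAB hx h⟩
  have dB : ∀ x ∈ B, dg (E1 ∪ E2) x = dg E2 x := by
    intro x hx
    rw [dg_union hdisj, dg_eq_zero_of_notMem h1.sub, zero_add]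
    simp only [mem_insert, not_or]
    exact ⟨fun h => hB (h ▸ hx), fun h => disjoint_left.1 hAB h hx⟩
  have dv : dg (E1 ∪ E2) v = dg E1 v + dg E2 v := dg_union hdisj v
  have e1 := h1.card
  have e2 := h2.card
  refine ⟨E1 ∪ E2, ⟨hll, fun x => ?_, ?_⟩, cut hAB hA h1.sub h2.sub hll ?_, fun x => ?_⟩
  · rcases hu x with rfl | hx | hx
    · rw [dv]; exact h1.evenv.add h2.evenv
    · rw [dA x hx]; exact h1.even x hx
    · rw [dB x hx]; exact h2.even x hx
  · rw [card_union_of_disjoint hdisj]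
    omega
  · omega
  · rcases hu x with rfl | hx | hx
    · have := h1.degv
      have := h2.degv
      rw [dv]; omega
    · rw [dA x hx]; exact hd1.trans (h1.deg x hx)
    · rw [dB x hx]; exact hd2.trans (h2.deg x hx)

end Blocks

section Tri

/-- vertices of the triangle construction -/
abbrev W (m : ℕ) := Bool × (Fin 3 ⊕ Fin m)

/-- adjacency of the triangle construction -/
def R {m : ℕ} : W m → W m → Prop
  | (b, .inl i), (b', .inl i') => b = b' ∧ i ≠ i'
  | (b, .inl _), (b', .inr _) => b = b'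
  | (b, .inr _), (b', .inl _) => b = b'
  | (b, .inr j), (b', .inr j') => b ≠ b' ∧ j ≠ j'

/-- colour of a vertex -/
def col {m : ℕ} : W m → Fin 4
  | (false, .inl _) => 0
  | (false, .inr _) => 1
  | (true, .inr _) => 2
  | (true, .inl _) => 3

/-- adjacent colours -/
def adj4 (i j : Fin 4) : Bool :=
  (i == 0 && j == 0) || (i == 3 && j == 3) || (i.val + 1 == j.val) || (j.val + 1 == i.val)

theorem R_symm {m : ℕ} : ∀ x y : W m, R x y → R y x := by
  rintro ⟨b, i | i⟩ ⟨b', j | j⟩ h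
  · exact ⟨h.1.symm, h.2.symm⟩
  · exact Eq.symm h
  · exact Eq.symm h
  · exact ⟨h.1.symm, h.2.symm⟩

theorem R_irrefl {m : ℕ} (x : W m) : ¬ R x x := by
  obtain ⟨b, i | i⟩ := x <;> simp [R]

theorem R_col {m : ℕ} (x y : W m) (h : R x y) : adj4 (col x) (col y) = true := by
  obtain ⟨b, i | i⟩ := x <;> obtain ⟨b', j | j⟩ := y <;> simp only [R] at h
  · obtain ⟨rfl, -⟩ := h
    cases b <;> simp [col, adj4]
  · subst h
    cases b <;> simp [col, adj4]
  · subst h
    cases b <;> simp [col, adj4]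
  · cases b <;> cases b' <;> simp_all [col, adj4]

theorem R_card {m : ℕ} (hm : 1 ≤ m) (x : W m) [DecidablePred (R x)] :
    (univ.filter (R x)).card = m + 2 := by
  classical
  obtain ⟨b, i | j⟩ := x
  · have : univ.filter (R ((b, .inl i) : W m)) =
        ({b} : Finset Bool) ×ˢ ((univ.erase i).disjSum univ) := by
      ext ⟨b', j | j⟩
      · simp [R, eq_comm, and_comm]
      · simp [R]
    rw [this]
    simp [card_disjSum]
    omega
  · have : univ.filter (R ((b, .inr j) : W m)) =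
        (({b} : Finset Bool) ×ˢ ((univ : Finset (Fin 3)).disjSum ∅)) ∪
        (({!b} : Finset Bool) ×ˢ ((∅ : Finset (Fin 3)).disjSum (univ.erase j))) := by
      ext ⟨b', i | i⟩
      · simp [R, eq_comm]
      · cases b <;> cases b' <;> simp [R, eq_comm]
    rw [this, card_union_of_disjoint]
    · simp [card_disjSum]
      omega
    · rw [disjoint_left]
      rintro ⟨b', i | i⟩ h1 h2
      · simp at h1 h2
      · simp at h1 h2

theorem walk4 : ∀ a b c d e f : Fin 4, adj4 a b = true → adj4 b c = true → adj4 c d = true →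
    adj4 d e = true → adj4 e f = true → adj4 f a = true →
    2 ∣ (if a = 0 ∧ b = 0 then 1 else 0) + ((if b = 0 ∧ c = 0 then 1 else 0) +
      ((if c = 0 ∧ d = 0 then 1 else 0) + ((if d = 0 ∧ e = 0 then 1 else 0) +
      ((if e = 0 ∧ f = 0 then 1 else 0) + (if f = 0 ∧ a = 0 then 1 else 0))))) := by
  decide +kernel

/-- the triangle construction -/
theorem tri {n k : ℕ} (hn : n = 4 * k + 2) (hk : 2 ≤ k) (hk6 : k % 6 = 0 ∨ k % 6 = 4) :
    ∃ E : Finset (Sym2 (Fin n)), Div6 E ∧ ¬ Dec E ∧ ∀ x, 2 * k ≤ dg E x := by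
  classical
  obtain ⟨m, hm⟩ : ∃ m, 2 * k = m + 2 := ⟨2 * k - 2, by omega⟩
  have hcard : Fintype.card (Fin n) = Fintype.card (W m) := by
    simp; omega
  let φ : Fin n ≃ W m := Fintype.equivOfCardEq hcard
  let rel : Fin n → Fin n → Prop := fun x y => R (φ x) (φ y)
  have hsym : ∀ x y, rel x y → rel y x := fun x y h => R_symm _ _ h
  have hdg : ∀ x, dg (es rel hsym) x = 2 * k := by
    intro x
    unfold dg
    have h1 : (nb (es rel hsym) x).card = (univ.filter (R (φ x))).card := by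
      apply card_equiv φ
      intro y
      rw [mem_nb, mem_es]
      simp [rel]
    rw [h1, R_card (by omega), hm]
  have hll : Loopless (es rel hsym) := by
    intro e he
    induction e using Sym2.ind with
    | _ x y =>
      rw [mem_es] at he
      rw [Sym2.mk_isDiag_iff]
      rintro rfl
      exact R_irrefl _ he
  have hE : (es rel hsym).card = (4 * k + 2) * k := by
    have h1 := sum_dg hll
    rw [sum_congr rfl (fun x _ => hdg x), sum_const, smul_eq_mul, card_univ,
      Fintype.card_fin] at h1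
    have h2 : n * (2 * k) = 2 * ((4 * k + 2) * k) := by rw [hn]; ring
    omega
  -- the edges inside the first triangle
  let X : Finset (Fin n) := univ.filter fun x => col (φ x) = 0
  let F : Finset (Sym2 (Fin n)) := X.sym2
  have hF : ∀ x y, s(x, y) ∈ F ↔ col (φ x) = 0 ∧ col (φ y) = 0 := by
    intro x y
    simp only [F, mk_mem_sym2_iff, X, mem_filter, mem_univ, true_and]
  have hinv : ∀ S, IsHex S → S ⊆ es rel hsym → 2 ∣ (S ∩ F).card := by
    rintro S ⟨a, b, c, d, e, f, hnd, rfl⟩ hS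
    have h1 : (hex a b c d e f ∩ F).card = ∑ x ∈ hex a b c d e f, if x ∈ F then 1 else 0 := by
      rw [← card_filter, filter_mem_eq_inter]
    rw [h1, sum_hex hnd]
    simp only [hF]
    have hab : rel a b := mem_es.1 (hS (by simp [hex]) : s(a, b) ∈ es rel hsym)
    have hbc : rel b c := mem_es.1 (hS (by simp [hex]) : s(b, c) ∈ es rel hsym)
    have hcd : rel c d := mem_es.1 (hS (by simp [hex]) : s(c, d) ∈ es rel hsym)
    have hde : rel d e := mem_es.1 (hS (by simp [hex]) : s(d, e) ∈ es rel hsym)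
    have hef : rel e f := mem_es.1 (hS (by simp [hex]) : s(e, f) ∈ es rel hsym)
    have hfa : rel f a := mem_es.1 (hS (by simp [hex]) : s(f, a) ∈ es rel hsym)
    exact walk4 _ _ _ _ _ _ (R_col _ _ hab) (R_col _ _ hbc)
      (R_col _ _ hcd) (R_col _ _ hde) (R_col _ _ hef) (R_col _ _ hfa)
  have hX : X.card = 3 := by
    have h1 : X.card = (univ.filter fun w : W m => col w = 0).card := by
      apply card_equiv φ
      intro y
      simp [X]
    have h2 : (univ.filter fun w : W m => col w = 0) =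
        ({false} : Finset Bool) ×ˢ ((univ : Finset (Fin 3)).disjSum ∅) := by
      ext ⟨b, i | i⟩ <;> cases b <;> simp [col]
    rw [h1, h2]
    simp [card_disjSum]
  have hcol : ∀ w : W m, col w = 0 ↔ ∃ i, w = (false, .inl i) := by
    rintro ⟨b, i | i⟩ <;> cases b <;> simp [col]
  have hEF : (es rel hsym ∩ F).card = 3 := by
    have hll' : Loopless (es rel hsym ∩ F) := hll.mono inter_subset_left
    have h1 := sum_dg_of_subset hll' (inter_subset_right : es rel hsym ∩ F ⊆ X.sym2)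
    have h2 : ∀ x ∈ X, dg (es rel hsym ∩ F) x = 2 := by
      intro x hx
      have hx0 : col (φ x) = 0 := by simpa [X] using hx
      have : nb (es rel hsym ∩ F) x = X.erase x := by
        ext y
        rw [mem_nb, mem_inter, mem_es, hF, mem_erase]
        constructor
        · rintro ⟨g1, g2, g3⟩
          refine ⟨?_, by simpa [X] using g3⟩
          rintro rfl
          exact R_irrefl _ g1
        · rintro ⟨g1, g2⟩
          have hy0 : col (φ y) = 0 := by simpa [X] using g2
          refine ⟨?_, hx0, hy0⟩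
          obtain ⟨i, hi⟩ := (hcol _).1 hx0
          obtain ⟨j, hj⟩ := (hcol _).1 hy0
          simp only [rel, hi, hj, R]
          refine ⟨trivial, ?_⟩
          rintro rfl
          exact g1 (φ.injective (hj.trans hi.symm))
      unfold dg
      rw [this, card_erase_of_mem hx, hX]
    rw [sum_congr rfl h2, sum_const, hX, smul_eq_mul] at h1
    omega
  refine ⟨es rel hsym, ⟨hll, fun x => ?_, ?_⟩, ?_, fun x => (hdg x).ge⟩
  · rw [hdg x]; exact even_two_mul k
  · rw [hE]
    rcases hk6 with h | h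
    · have : 6 ∣ k := by omega
      exact Dvd.dvd.mul_left this _
    · obtain ⟨q, hq⟩ : ∃ q, k = 6 * q + 4 := ⟨k / 6, by omega⟩
      subst hq
      exact ⟨(4 * q + 3) * (6 * q + 4), by ring⟩
  · intro hdec
    have := dec_inv hinv hdec subset_rfl
    rw [hEF] at this
    omega

end Tri

section Final

/-- splitting the vertex set -/
theorem split {n s1 s2 : ℕ} (h : n = s1 + s2 + 1) : ∃ (v : Fin n) (A B : Finset (Fin n)),
    Disjoint A B ∧ v ∉ A ∧ v ∉ B ∧ (∀ x, x = v ∨ x ∈ A ∨ x ∈ B) ∧ A.card = s1 ∧ B.card = s2 := by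
  classical
  have hn : 0 < n := by omega
  let v : Fin n := ⟨0, hn⟩
  obtain ⟨A, hA, hAc⟩ := exists_subset_card_eq (s := (univ : Finset (Fin n)).erase v) (n := s1)
    (by rw [card_erase_of_mem (mem_univ _), card_univ, Fintype.card_fin]; omega)
  refine ⟨v, A, (univ.erase v) \ A, disjoint_sdiff, fun h => ?_, fun h => ?_, fun x => ?_, hAc, ?_⟩
  · simpa using hA h
  · simp at h
  · by_cases h1 : x = v
    · exact Or.inl h1
    · by_cases h2 : x ∈ A
      · exact Or.inr (Or.inl h2)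
      · exact Or.inr (Or.inr (by simp [h1, h2]))
  · rw [card_sdiff_of_subset hA, card_erase_of_mem (mem_univ _), card_univ, Fintype.card_fin, hAc]
    omega

theorem mod6 (k : ℕ) : k * (2 * k + 1) % 6 =
    if k % 6 = 0 then 0 else if k % 6 = 1 then 3 else if k % 6 = 2 then 4 else
      if k % 6 = 3 then 3 else if k % 6 = 4 then 0 else 1 := by
  have h1 : k * (2 * k + 1) % 6 = ((k % 6) * (2 * (k % 6) + 1)) % 6 := by
    simp [Nat.mul_mod, Nat.add_mod]
  rw [h1]
  have h2 : k % 6 < 6 := Nat.mod_lt _ (by norm_num)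
  interval_cases (k % 6) <;> simp

theorem lower : S_lower := by
  classical
  refine ⟨200, fun n hn => ?_⟩
  obtain ⟨k, r, hr, rfl⟩ : ∃ k r, r < 4 ∧ n = 4 * k + r := ⟨n / 4, n % 4, by omega, by omega⟩
  have hk : 20 ≤ k := by omega
  interval_cases r
  · -- `n = 4 k`
    obtain ⟨v, A, B, hAB, hA, hB, hu, hAc, hBc⟩ :=
      split (n := 4 * k + 0) (s1 := 2 * (k - 1) + 1) (s2 := 2 * k) (by omega)
    obtain ⟨E1, h1⟩ := oddBlk hA (c := 1) (by norm_num) hAc (by omega)
    obtain ⟨E2, h2⟩ := evenBlk hB (c := 5) (by norm_num) hBc (by omega)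
    obtain ⟨E, hE1, hE2, hE3⟩ := glue (d := 2 * k - 2) hAB hA hB hu h1 h2 (by norm_num)
      (by norm_num) (by omega) (by omega) (by omega)
    refine ⟨E, hE1, hE2, fun x => ?_⟩
    have := hE3 x
    have h4 : fval (4 * k + 0) = 2 * k - 1 := by
      unfold fval
      rw [if_pos (by omega)]
      omega
    omega
  · -- `n = 4 k + 1`
    obtain ⟨v, A, B, hAB, hA, hB, hu, hAc, hBc⟩ :=
      split (n := 4 * k + 1) (s1 := 2 * k) (s2 := 2 * k) (by omega)
    by_cases hk6 : k % 6 = 1 ∨ k % 6 = 3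
    · obtain ⟨E1, h1⟩ := fullBlk hA hAc
      obtain ⟨E2, h2⟩ := fullBlk hB hBc
      have h6 := mod6 k
      have h7 : k * (2 * k + 1) % 6 = 3 := by
        rw [h6]; rcases hk6 with h | h <;> simp [h]
      rw [h7] at h1 h2
      obtain ⟨E, hE1, hE2, hE3⟩ := glue (d := 2 * k) hAB hA hB hu h1 h2 (by norm_num)
        (by norm_num) le_rfl le_rfl (by omega)
      refine ⟨E, hE1, hE2, fun x => ?_⟩
      have := hE3 x
      have h4 : fval (4 * k + 1) = 2 * k + 1 := by
        unfold fval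
        rw [if_neg (by omega), if_neg (by omega), if_pos (by omega)]
        omega
      omega
    · obtain ⟨E1, h1⟩ := evenBlk hA (c := 1) (by norm_num) hAc (by omega)
      obtain ⟨E2, h2⟩ := evenBlk hB (c := 5) (by norm_num) hBc (by omega)
      obtain ⟨E, hE1, hE2, hE3⟩ := glue (d := 2 * k - 2) hAB hA hB hu h1 h2 (by norm_num)
        (by norm_num) le_rfl le_rfl (by omega)
      refine ⟨E, hE1, hE2, fun x => ?_⟩
      have := hE3 x
      have h4 : fval (4 * k + 1) = 2 * k - 1 := by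
        unfold fval
        rw [if_neg (by omega), if_neg (by omega), if_neg (by omega)]
        omega
      omega
  · -- `n = 4 k + 2`
    have h4 : fval (4 * k + 2) = 2 * k + 1 := by
      unfold fval
      rw [if_neg (by omega), if_pos (by omega)]
      omega
    by_cases hk6 : k % 6 = 0 ∨ k % 6 = 4
    · obtain ⟨E, hE1, hE2, hE3⟩ := tri rfl (by omega) hk6
      refine ⟨E, hE1, hE2, fun x => ?_⟩
      have := hE3 x
      omega
    · obtain ⟨v, A, B, hAB, hA, hB, hu, hAc, hBc⟩ :=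
        split (n := 4 * k + 2) (s1 := 2 * k) (s2 := 2 * k + 1) (by omega)
      have h6 := mod6 k
      have h7 : k * (2 * k + 1) % 6 ≠ 0 := by
        rw [h6]
        push Not at hk6
        rw [if_neg hk6.1]
        split_ifs <;> simp_all
      have h8 : k * (2 * k + 1) % 6 < 6 := Nat.mod_lt _ (by norm_num)
      obtain ⟨E1, h1⟩ := fullBlk hA hAc
      obtain ⟨E2, h2⟩ := oddBlk hB (c := 6 - k * (2 * k + 1) % 6) (by omega) hBc (by omega)
      obtain ⟨E, hE1, hE2, hE3⟩ := glue (d := 2 * k) hAB hA hB hu h1 h2 h7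
        (by omega) le_rfl le_rfl (by omega)
      refine ⟨E, hE1, hE2, fun x => ?_⟩
      have := hE3 x
      omega
  · -- `n = 4 k + 3`
    have h4 : fval (4 * k + 3) = 2 * k + 1 := by
      unfold fval
      rw [if_neg (by omega), if_pos (by omega)]
      omega
    obtain ⟨v, A, B, hAB, hA, hB, hu, hAc, hBc⟩ :=
      split (n := 4 * k + 3) (s1 := 2 * k + 1) (s2 := 2 * k + 1) (by omega)
    obtain ⟨E1, h1⟩ := oddBlk hA (c := 1) (by norm_num) hAc (by omega)
    obtain ⟨E2, h2⟩ := oddBlk hB (c := 5) (by norm_num) hBc (by omega)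
    obtain ⟨E, hE1, hE2, hE3⟩ := glue (d := 2 * k) hAB hA hB hu h1 h2 (by norm_num)
      (by norm_num) le_rfl le_rfl (by omega)
    refine ⟨E, hE1, hE2, fun x => ?_⟩
    have := hE3 x
    omega

end Final

end Low

end Pool.Agent.H483C6
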