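import Pool.Agent.H483C6.Paths
import Pool.Agent.H483C6.Stmts
import Pool.Agent.H483C6.Chain
import Pool.Agent.H483C6.Cover

/-!
# The vortex from the chain and the cover (MP_1bffa4_co, helper483)
-/

set_option autoImplicit false

namespace Pool.Agent.H483C6

open Finset

namespace VortexAux

variable {V : Type} [Fintype V] [DecidableEq V]

/-- decreasing the constant keeps the property -/
theorem P3_mono {E : Finset (Sym2 V)} {γ γ' : ℝ} {X Y : Finset V} (h : P3 E γ X Y)
    (hγ : γ' ≤ γ) : P3 E γ' X Y := by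
  intro u hu v hv huv
  have h1 := h u hu v hv huv
  have hY : (0 : ℝ) ≤ (Y.card : ℝ) := Nat.cast_nonneg _
  have hle : γ' * (Y.card : ℝ) ≤ γ * (Y.card : ℝ) := mul_le_mul_of_nonneg_right hγ hY
  refine hle.trans (h1.trans ?_)
  have hsub : (Y.filter fun a => s(u, a) ∈ E ∧
      γ * (Y.card : ℝ) ≤ ((Y.filter fun b => s(a, b) ∈ E ∧ s(b, v) ∈ E).card : ℝ)) ⊆
      (Y.filter fun a => s(u, a) ∈ E ∧
      γ' * (Y.card : ℝ) ≤ ((Y.filter fun b => s(a, b) ∈ E ∧ s(b, v) ∈ E).card : ℝ)) := by
    intro a ha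
    rw [mem_filter] at ha ⊢
    exact ⟨ha.1, ha.2.1, hle.trans ha.2.2⟩
  exact_mod_cast card_le_card hsub

/-- the degree is at most the number of edges -/
theorem dg_le_edges (A : Finset (Sym2 V)) (v : V) : dg A v ≤ A.card := by
  unfold dg
  refine card_le_card_of_injOn (fun u => s(v, u)) (fun u hu => ?_) ?_
  · exact mem_nb.1 hu
  · intro u _ u' _ h
    simp only [Sym2.eq_iff, true_and] at h
    rcases h with h | ⟨h1, h2⟩
    · exact h
    · rw [h2, h1]

end VortexAux

open VortexAux in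
/-- TARGET -/
theorem vortex : S_vortex := by
  intro γ ρ hγ hρ
  set γ1 : ℝ := min γ 1 with hγ1
  have hγ1pos : 0 < γ1 := lt_min hγ one_pos
  have hγ1le : γ1 ≤ 1 := min_le_right _ _
  set p : ℝ := min (ρ / 2) (1 / 2) with hp
  have hppos : 0 < p := lt_min (by positivity) (by norm_num)
  have hple : p ≤ 1 / 2 := min_le_right _ _
  have hpρ : p ≤ ρ / 2 := min_le_left _ _
  obtain ⟨η, hη, N0, hcover⟩ := cover (γ1 / 2) (p / 4) (by positivity) (by linarith)
    (by positivity) (by linarith)
  obtain ⟨m, hchain⟩ := chain γ1 p hγ1pos hγ1le hppos hple N0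
  refine ⟨m, fun K => ⟨max m (⌈(K : ℝ) / η⌉₊ + 1), fun V _ _ E hloop hn hP3 => ?_⟩⟩
  obtain ⟨t, U, ht, hU0, hUt1, hmono, hUt, hU1, hstep⟩ :=
    hchain V E ((le_max_left _ _).trans hn) (P3_mono hP3 (min_le_left _ _))
  have hanti : ∀ i j, i ≤ j → U j ⊆ U i := by
    intro i j hij
    induction j, hij using Nat.le_induction with
    | base => exact Subset.refl _
    | succ j _ ih => exact (hmono j).trans ih
  have hKη : (K : ℝ) ≤ η * (Fintype.card V : ℝ) := by
    have h1 : ⌈(K : ℝ) / η⌉₊ + 1 ≤ Fintype.card V := (le_max_right _ _).trans hn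
    have h2 : (K : ℝ) / η ≤ (⌈(K : ℝ) / η⌉₊ : ℝ) := Nat.le_ceil _
    have h3 : ((⌈(K : ℝ) / η⌉₊ + 1 : ℕ) : ℝ) ≤ (Fintype.card V : ℝ) := by exact_mod_cast h1
    push_cast at h3
    have h4 : (K : ℝ) / η ≤ (Fintype.card V : ℝ) := by linarith
    rw [div_le_iff₀ hη] at h4
    linarith
  refine ⟨U 1, U t, hanti 1 t ht, hUt, ?_, fun A hA hAK hAU heven => ?_⟩
  · have hn0 : (0 : ℝ) ≤ (Fintype.card V : ℝ) := Nat.cast_nonneg _
    refine hU1.trans (mul_le_mul_of_nonneg_right ?_ hn0)
    linarith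
  · have claim : ∀ i, i ≤ t → ∃ D ⊆ E \ A, D ⊆ (U i).sym2 ∧ (∀ v, Even (dg D v)) ∧
        (∀ v, (dg ((E ∩ (U i).sym2) \ D) v : ℝ) ≤ η * ((U i).card : ℝ)) ∧
        E ∩ (U (i + 1)).sym2 ⊆ D ∧ Dec ((E \ A) \ D) := by
      intro i
      induction i with
      | zero =>
        intro _
        refine ⟨E \ A, Subset.refl _, ?_, heven, fun v => ?_, ?_, ?_⟩
        · intro e _
          rw [hU0]
          induction e using Sym2.ind with
          | _ x y => exact mk_mem_sym2_iff.2 ⟨mem_univ x, mem_univ y⟩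
        · have hsub : (E ∩ (U 0).sym2) \ (E \ A) ⊆ A := by
            intro e he
            rw [mem_sdiff, mem_inter, mem_sdiff] at he
            by_contra hcon
            exact he.2 ⟨he.1.1, hcon⟩
          have h1 : dg ((E ∩ (U 0).sym2) \ (E \ A)) v ≤ K :=
            ((dg_mono hsub v).trans (dg_le_edges A v)).trans hAK
          have h2 : (dg ((E ∩ (U 0).sym2) \ (E \ A)) v : ℝ) ≤ (K : ℝ) := by exact_mod_cast h1
          rw [hU0] at h2 ⊢
          rw [card_univ]
          exact h2.trans hKη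
        · intro e he
          rw [mem_inter] at he
          rw [mem_sdiff]
          exact ⟨he.1, fun heA => hAU e heA (by simpa using he.2)⟩
        · rw [sdiff_self]
          exact Dec.empty
      | succ i ih =>
        intro hi
        obtain ⟨D, hDE, hDU, hDeven, hDdg, hDsub, hDdec⟩ := ih (by omega)
        obtain ⟨hM0, hq1, hq2, hp1, hp2⟩ := hstep i (by omega)
        have hcard0 : (0 : ℝ) ≤ ((U i).card : ℝ) := Nat.cast_nonneg _
        obtain ⟨D', hD'D, hD'U, hD'dec, hD'dg, hD'sub⟩ := hcover V E (U i) (U (i + 1)) (U (i + 2))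
          hloop (hmono i) (hmono (i + 1)) hM0
          (le_trans (mul_le_mul_of_nonneg_right (by linarith) hcard0) hq1) hq2 hp1 hp2 D
          (hDE.trans sdiff_subset) hDU hDeven hDdg hDsub
        refine ⟨D', hD'D.trans hDE, hD'U, fun v => ?_, hD'dg, hD'sub, ?_⟩
        · have h1 := dg_sdiff_add hD'D v
          have h2 := hDeven v
          rw [← h1] at h2
          exact (Nat.even_add.1 h2).1 (hD'dec.even v)
        · have hunion : (E \ A) \ D' = ((E \ A) \ D) ∪ (D \ D') := by
            ext e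
            simp only [mem_sdiff, mem_union]
            constructor
            · rintro ⟨h1, h2⟩
              by_cases h3 : e ∈ D
              · exact Or.inr ⟨h3, h2⟩
              · exact Or.inl ⟨h1, h3⟩
            · rintro (⟨h1, h2⟩ | ⟨h1, h2⟩)
              · exact ⟨h1, fun h3 => h2 (hD'D h3)⟩
              · exact ⟨by simpa using hDE h1, h2⟩
          rw [hunion]
          refine hDdec.union hD'dec ?_
          rw [disjoint_left]
          intro e he he'
          exact (mem_sdiff.1 he).2 (mem_sdiff.1 he').1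
    obtain ⟨H, hHE, hHU, -, -, -, hHdec⟩ := claim t le_rfl
    exact ⟨H, hHE, hHU, hHdec⟩

end Pool.Agent.H483C6
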