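import Pool.Agent.H483C6.Paths
import Pool.Agent.H483C6.Vortex

/-!
# MainT (MP_1bffa4_co)
-/

set_option autoImplicit false

namespace Pool.Agent.H483C6

open Finset

namespace MainT

section

variable {V : Type} [Fintype V] [DecidableEq V]

/-- the ends of the edges -/
def ends (A : Finset (Sym2 V)) : Finset V := A.biUnion fun e => e.toFinset

theorem card_ends (A : Finset (Sym2 V)) : (ends A).card ≤ A.card * 2 := by
  unfold ends
  apply card_biUnion_le_card_mul
  intro e _
  rw [Sym2.card_toFinset]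
  split_ifs <;> norm_num

theorem subset_ends (A : Finset (Sym2 V)) : A ⊆ (ends A).sym2 := by
  intro e he
  rw [mem_sym2_iff]
  intro a ha
  unfold ends
  rw [mem_biUnion]
  exact ⟨e, he, Sym2.mem_toFinset.2 ha⟩

theorem card_sym2_le (S : Finset V) {m : ℕ} (hm : S.card ≤ m) : S.sym2.card ≤ m ^ 2 := by
  rw [card_sym2, Nat.choose_two_right, Nat.add_sub_cancel]
  rcases Nat.eq_zero_or_pos S.card with h | h
  · rw [h]
    norm_num
  · calc (S.card + 1) * S.card / 2 ≤ (S.card + S.card) * S.card / 2 := by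
          apply Nat.div_le_div_right
          apply Nat.mul_le_mul_right
          omega
      _ = S.card * S.card := by
          have : (S.card + S.card) * S.card = 2 * (S.card * S.card) := by ring
          rw [this]
          exact Nat.mul_div_cancel_left _ (by norm_num)
      _ ≤ m * m := Nat.mul_le_mul hm hm
      _ = m ^ 2 := by ring

/-- the properties of an absorber -/
structure IsAb (E : Finset (Sym2 V)) (U : Finset V) (c : ℕ) (H A : Finset (Sym2 V)) : Prop where
  sub : A ⊆ E
  out : ∀ e ∈ A, e ∉ U.sym2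
  card : A.card ≤ c
  dec : Dec A
  decH : Dec (A ∪ H)

theorem exists_family (E : Finset (Sym2 V)) (U1 Us : Finset V) (hU : Us ⊆ U1) (r h c K : ℕ)
    (hr : U1.card + K * 2 ≤ r) (hAbs : Abs E r h c) (P : Finset (Finset (Sym2 V)))
    (hP : ∀ H ∈ P, H ⊆ E ∧ H ⊆ Us.sym2 ∧ H.card ≤ h ∧ Div6 H) (hPK : P.card * c ≤ K) :
    ∃ Ab : Finset (Sym2 V) → Finset (Sym2 V), (∀ H ∈ P, IsAb E U1 c H (Ab H)) ∧
      ∀ H ∈ P, ∀ H' ∈ P, H ≠ H' → Disjoint (Ab H) (Ab H') := by
  classical
  induction P using Finset.induction_on with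
  | empty => exact ⟨fun _ => ∅, fun H hH => absurd hH (notMem_empty _),
      fun H hH => absurd hH (notMem_empty _)⟩
  | insert H P hHP ih =>
    have hcard : (insert H P).card = P.card + 1 := card_insert_of_notMem hHP
    rw [hcard, add_mul] at hPK
    obtain ⟨Ab, h1, h2⟩ := ih (fun H' hH' => hP H' (mem_insert_of_mem hH')) (by omega)
    have hT : (P.biUnion Ab).card ≤ K :=
      (card_biUnion_le_card_mul P Ab c (fun H' hH' => (h1 H' hH').card)).trans (by omega)
    have hR : (U1 ∪ ends (P.biUnion Ab)).card ≤ r := by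
      refine (card_union_le _ _).trans ?_
      have h3 := card_ends (P.biUnion Ab)
      omega
    obtain ⟨hHE, hHU, hHc, hHd⟩ := hP H (mem_insert_self _ _)
    have hsub1 : U1.sym2 ⊆ (U1 ∪ ends (P.biUnion Ab)).sym2 := sym2_mono subset_union_left
    have hsub2 : (P.biUnion Ab) ⊆ (U1 ∪ ends (P.biUnion Ab)).sym2 :=
      (subset_ends _).trans (sym2_mono subset_union_right)
    obtain ⟨A, hA1, hA2, hA3, hA4, hA5⟩ := hAbs (U1 ∪ ends (P.biUnion Ab)) hR H hHE
      ((hHU.trans (sym2_mono hU)).trans hsub1) hHc hHd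
    have hdis : ∀ H' ∈ P, Disjoint A (Ab H') := by
      intro H' hH'
      rw [disjoint_left]
      intro e he he'
      exact hA2 e he (hsub2 (mem_biUnion.2 ⟨H', hH', he'⟩))
    have hup : ∀ H' ∈ P, Function.update Ab H A H' = Ab H' := by
      intro H' hH'
      apply Function.update_of_ne
      rintro rfl
      exact hHP hH'
    refine ⟨Function.update Ab H A, ?_, ?_⟩
    · intro H' hH'
      rcases mem_insert.1 hH' with rfl | hH'
      · rw [Function.update_self]
        exact ⟨hA1, fun e he he' => hA2 e he (hsub1 he'), hA3, hA4, hA5⟩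
      · rw [hup H' hH']
        exact h1 H' hH'
    · intro H' hH' H'' hH'' hne
      rcases mem_insert.1 hH' with e' | hH' <;> rcases mem_insert.1 hH'' with e'' | hH''
      · exact absurd (e'.trans e''.symm) hne
      · rw [e', Function.update_self, hup H'' hH'']
        exact hdis H'' hH''
      · rw [e'', Function.update_self, hup H' hH']
        exact (hdis H' hH').symm
      · rw [hup H' hH', hup H'' hH'']
        exact h2 H' hH' H'' hH'' hne

end

end MainT

/-- TARGET -/
theorem main : S_main := by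
  intro γ ρ hγ hρ
  obtain ⟨m, hm⟩ := vortex γ (ρ / 2) hγ (by positivity)
  refine ⟨m ^ 2, ?_⟩
  intro c
  obtain ⟨n0, hn0⟩ := hm (2 ^ (m ^ 2) * c)
  refine ⟨max n0 ⌈4 * ((2 ^ (m ^ 2) * c : ℕ) : ℝ) / ρ⌉₊, ?_⟩
  intro V _ _ E hE hn hP3 hAbs hdiv
  classical
  obtain ⟨U1, Us, hUs, hUm, hU1, hU⟩ := hn0 V E hE ((le_max_left _ _).trans hn) hP3
  set K := 2 ^ (m ^ 2) * c with hK
  set n := Fintype.card V with hndef
  -- the size of the forbidden set
  have hr : U1.card + K * 2 ≤ ⌊ρ * (n : ℝ)⌋₊ := by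
    apply Nat.le_floor
    have h1 : 4 * (K : ℝ) / ρ ≤ n := by
      have h2 := Nat.le_ceil (4 * (K : ℝ) / ρ)
      have h3 : ((⌈4 * (K : ℝ) / ρ⌉₊ : ℕ) : ℝ) ≤ n := by
        exact_mod_cast (le_max_right _ _).trans hn
      exact h2.trans h3
    rw [div_le_iff₀ hρ] at h1
    push_cast
    linarith
  set P : Finset (Finset (Sym2 V)) := (E ∩ Us.sym2).powerset.filter fun H => Div6 H with hPdef
  have hPm : ∀ H ∈ P, H ⊆ E ∧ H ⊆ Us.sym2 ∧ H.card ≤ m ^ 2 ∧ Div6 H := by
    intro H hH
    rw [hPdef, mem_filter, mem_powerset, subset_inter_iff] at hH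
    exact ⟨hH.1.1, hH.1.2, (card_le_card hH.1.2).trans (MainT.card_sym2_le Us hUm), hH.2⟩
  have hPc : P.card * c ≤ K := by
    apply Nat.mul_le_mul_right
    calc P.card ≤ (E ∩ Us.sym2).powerset.card := card_filter_le _ _
      _ = 2 ^ (E ∩ Us.sym2).card := card_powerset _
      _ ≤ 2 ^ (m ^ 2) := by
          apply Nat.pow_le_pow_right (by norm_num)
          exact (card_le_card inter_subset_right).trans (MainT.card_sym2_le Us hUm)
  obtain ⟨Ab, hAb, hdis⟩ := MainT.exists_family E U1 Us hUs _ (m ^ 2) c K hr hAbs P hPm hPc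
  -- the union of the absorbers
  have hTE : P.biUnion Ab ⊆ E := by
    rw [biUnion_subset]
    exact fun H hH => (hAb H hH).sub
  have hTK : (P.biUnion Ab).card ≤ K :=
    (card_biUnion_le_card_mul P Ab c (fun H hH => (hAb H hH).card)).trans hPc
  have hTout : ∀ e ∈ P.biUnion Ab, e ∉ U1.sym2 := by
    intro e he
    obtain ⟨H, hH, he'⟩ := mem_biUnion.1 he
    exact (hAb H hH).out e he'
  have hTdec : Dec (P.biUnion Ab) := Dec.biUnion P Ab (fun H hH => (hAb H hH).dec) hdis
  have hdiv' : Div6 (E \ P.biUnion Ab) := hdiv.sdiff hTdec.div6 hTE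
  obtain ⟨H, hHsub, hHU, hHdec⟩ := hU (P.biUnion Ab) hTE hTK hTout hdiv'.even
  have hHdiv : Div6 H := by
    have h1 := hdiv'.sdiff hHdec.div6 sdiff_subset
    rwa [Finset.sdiff_sdiff_eq_self hHsub] at h1
  have hHP : H ∈ P := by
    rw [hPdef, mem_filter, mem_powerset, subset_inter_iff]
    exact ⟨⟨hHsub.trans sdiff_subset, hHU⟩, hHdiv⟩
  -- the other absorbers
  have hrest : Dec ((P.erase H).biUnion Ab) :=
    Dec.biUnion _ Ab (fun H' hH' => (hAb H' (mem_of_mem_erase hH')).dec)
      (fun H' hH' H'' hH'' hne => hdis H' (mem_of_mem_erase hH') H'' (mem_of_mem_erase hH'') hne)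
  have hT : P.biUnion Ab = Ab H ∪ (P.erase H).biUnion Ab := by
    rw [← biUnion_insert, insert_erase hHP]
  have hd1 : Disjoint (Ab H) ((P.erase H).biUnion Ab) := by
    rw [disjoint_biUnion_right]
    intro H' hH'
    exact hdis H hHP H' (mem_of_mem_erase hH') (ne_of_mem_erase hH').symm
  have hHT : Disjoint H (P.biUnion Ab) := by
    rw [disjoint_left]
    intro e he
    exact (mem_sdiff.1 (hHsub he)).2
  have hd2 : Disjoint ((E \ P.biUnion Ab) \ H) (P.biUnion Ab) := by
    rw [disjoint_left]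
    intro e he
    exact (mem_sdiff.1 (mem_sdiff.1 he).1).2
  have hd3 : Disjoint ((E \ P.biUnion Ab) \ H) H := sdiff_disjoint
  have hEeq : E = (((E \ P.biUnion Ab) \ H) ∪ (P.erase H).biUnion Ab) ∪ (Ab H ∪ H) := by
    have h1 : E = (E \ P.biUnion Ab) ∪ P.biUnion Ab := (sdiff_union_of_subset hTE).symm
    have h2 : E \ P.biUnion Ab = ((E \ P.biUnion Ab) \ H) ∪ H :=
      (sdiff_union_of_subset hHsub).symm
    ext e
    constructor
    · intro he
      by_cases h3 : e ∈ P.biUnion Ab
      · have h3' := h3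
        rw [hT, mem_union] at h3
        simp only [mem_union]
        tauto
      · by_cases h4 : e ∈ H
        · simp only [mem_union]
          tauto
        · have : e ∈ (E \ P.biUnion Ab) \ H := mem_sdiff.2 ⟨mem_sdiff.2 ⟨he, h3⟩, h4⟩
          simp only [mem_union]
          tauto
    · intro he
      simp only [mem_union] at he
      rcases he with (he | he) | (he | he)
      · exact (mem_sdiff.1 (mem_sdiff.1 he).1).1
      · apply hTE
        rw [hT]
        exact mem_union_right _ he
      · exact (hAb H hHP).sub he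
      · exact (mem_sdiff.1 (hHsub he)).1
  rw [hEeq]
  rw [hT] at hd2 hHT
  rw [disjoint_union_right] at hd2 hHT
  apply Dec.union
  · apply Dec.union hHdec hrest
    rw [hT]
    exact hd2.2
  · exact (hAb H hHP).decH
  · rw [disjoint_union_left, disjoint_union_right, disjoint_union_right]
    refine ⟨⟨?_, hd3⟩, ⟨hd1.symm, hHT.2.symm⟩⟩
    rw [hT]
    exact hd2.1

end Pool.Agent.H483C6
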