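import Pool.Agent.H483C6.Basic
import Pool.Agent.H483C6.Stmts3

/-!
# Decompositions of nearly complete graphs and of graphs with robust 3-walks
(MP_1bffa4_co, helper483)
-/

set_option autoImplicit false
set_option linter.unusedSectionVars false

namespace Pool.Agent.H483C6

open Finset

section Q

variable {V : Type} [Fintype V] [DecidableEq V]

theorem Q3.toP3 {E : Finset (Sym2 V)} {γ : ℝ} (h : Q3 E γ) : P3 E γ univ univ := by
  intro u _ v _ _
  have h1 := h u v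
  rw [card_univ]
  refine h1.trans ?_
  refine Nat.cast_le.2 (card_le_card fun a ha => ?_)
  simp only [mem_filter, mem_nb] at ha
  simp only [mem_filter, mem_univ, true_and]
  refine ⟨ha.1, ha.2.trans ?_⟩
  refine Nat.cast_le.2 (card_le_card fun b hb => ?_)
  simp only [mem_inter, mem_nb] at hb
  simp only [mem_filter, mem_univ, true_and]
  refine ⟨hb.1, ?_⟩
  rw [Sym2.eq_swap]; exact hb.2

theorem Q3.threeP {E : Finset (Sym2 V)} {γ : ℝ} (h : Q3 E γ) (r : ℕ)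
    (hr : (r : ℝ) < γ * (Fintype.card V : ℝ)) : ThreeP E r := by
  intro R hR u v
  have h1 := h u v
  have hR' : (R.card : ℝ) ≤ r := by exact_mod_cast hR
  have h2 : R.card < (((nb E u).filter fun a =>
      γ * (Fintype.card V : ℝ) ≤ (cod E a v : ℝ)).card) := by
    have : (R.card : ℝ) < (((nb E u).filter fun a =>
      γ * (Fintype.card V : ℝ) ≤ (cod E a v : ℝ)).card : ℝ) := by linarith
    exact_mod_cast this
  obtain ⟨a, ha, haR⟩ := exists_mem_notMem_of_card_lt_card h2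
  simp only [mem_filter, mem_nb] at ha
  have h3 : R.card < (nb E a ∩ nb E v).card := by
    have : (R.card : ℝ) < ((nb E a ∩ nb E v).card : ℝ) := by
      have := ha.2
      unfold cod at this
      linarith
    exact_mod_cast this
  obtain ⟨b, hb, hbR⟩ := exists_mem_notMem_of_card_lt_card h3
  simp only [mem_inter, mem_nb] at hb
  refine ⟨a, b, haR, hbR, ha.1, hb.1, ?_⟩
  rw [Sym2.eq_swap]; exact hb.2

theorem SevenC.mono {E : Finset (Sym2 V)} {r r' c : ℕ} (h : SevenC E r c) (hr : r' ≤ r) :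
    SevenC E r' c := fun R hR => h R (hR.trans hr)

theorem NearK.toQ3 {E : Finset (Sym2 V)} (h : NearK E (1 / 1000)) : Q3 E (9 / 100) := by
  classical
  intro u v
  obtain ⟨h1, h2⟩ := h
  set n : ℝ := (Fintype.card V : ℝ) with hn
  set Bd := univ.filter fun v => (dg E v : ℝ) < (1 - 1 / 1000) * n with hBd
  have hsub : nb E u \ Bd ⊆ (nb E u).filter fun a => 9 / 100 * n ≤ (cod E a v : ℝ) := by
    intro a ha
    rw [mem_sdiff] at ha
    rw [mem_filter]
    refine ⟨ha.1, ?_⟩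
    have h3 : (1 - 1 / 1000) * n ≤ (dg E a : ℝ) := by
      by_contra hc
      push Not at hc
      exact ha.2 (by rw [hBd, mem_filter]; exact ⟨mem_univ _, hc⟩)
    have h4 := h1 v
    have h5 : (nb E a ∪ nb E v).card + (nb E a ∩ nb E v).card = (nb E a).card + (nb E v).card :=
      card_union_add_card_inter _ _
    have h6 : ((nb E a ∪ nb E v).card : ℝ) ≤ n := by
      rw [hn]; exact_mod_cast card_le_univ _
    have h7 : ((nb E a ∪ nb E v).card : ℝ) + (cod E a v : ℝ) = (dg E a : ℝ) + (dg E v : ℝ) := by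
      unfold cod dg
      exact_mod_cast h5
    have h8 : 0 ≤ n := Nat.cast_nonneg _
    linarith
  have h3 : ((nb E u \ Bd).card : ℝ) ≤ (((nb E u).filter fun a =>
      9 / 100 * n ≤ (cod E a v : ℝ)).card : ℝ) := Nat.cast_le.2 (card_le_card hsub)
  have h4 : (nb E u).card ≤ (nb E u \ Bd).card + Bd.card := by
    have := card_le_card_sdiff_add_card (s := nb E u) (t := Bd)
    omega
  have h5 : (dg E u : ℝ) ≤ ((nb E u \ Bd).card : ℝ) + (Bd.card : ℝ) := by
    unfold dg; exact_mod_cast h4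
  have h6 := h1 u
  have h8 : 0 ≤ n := Nat.cast_nonneg _
  linarith

end Q

theorem dec_of_Q3 (hm : S_main) (h7 : S_abs7) : ∀ γ ρ1 : ℝ, 0 < γ → 0 < ρ1 → ∀ c : ℕ,
    ∃ n0 : ℕ, ∀ (V : Type) [Fintype V] [DecidableEq V] (E : Finset (Sym2 V)),
      n0 ≤ Fintype.card V → Q3 E γ → SevenC E ⌊ρ1 * (Fintype.card V : ℝ)⌋₊ c → Div6 E →
      Dec E := by
  intro γ ρ1 hγ hρ1 c
  set μ := min ρ1 γ with hμ
  have hμ0 : 0 < μ := lt_min hρ1 hγ
  obtain ⟨h, Hm⟩ := hm γ (μ / 2) hγ (by positivity)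
  obtain ⟨c', H7⟩ := h7 h c
  obtain ⟨n1, Hn⟩ := Hm c'
  refine ⟨max n1 (⌈(2 * (c' + 1)) / μ⌉₊ + 1), ?_⟩
  intro V _ _ E hn hQ hS hdiv
  have k1 : n1 ≤ Fintype.card V := (le_max_left _ _).trans hn
  have k2 : ⌈(2 * (c' + 1)) / μ⌉₊ + 1 ≤ Fintype.card V := (le_max_right _ _).trans hn
  have k3 : (2 * ((c' : ℝ) + 1)) / μ ≤ (Fintype.card V : ℝ) := by
    have a1 := Nat.le_ceil ((2 * ((c' : ℝ) + 1)) / μ)
    have a2 : ((⌈(2 * ((c' : ℝ) + 1)) / μ⌉₊ : ℕ) : ℝ) ≤ (Fintype.card V : ℝ) := by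
      exact_mod_cast (Nat.le_succ _).trans k2
    linarith
  have k4 : 2 * ((c' : ℝ) + 1) ≤ μ * (Fintype.card V : ℝ) := by
    rw [div_le_iff₀ hμ0] at k3; linarith
  have hr : ((⌊μ / 2 * (Fintype.card V : ℝ)⌋₊ : ℕ) : ℝ) ≤ μ / 2 * (Fintype.card V : ℝ) :=
    Nat.floor_le (by positivity)
  have hrc : ((⌊μ / 2 * (Fintype.card V : ℝ)⌋₊ + c' : ℕ) : ℝ) < μ * (Fintype.card V : ℝ) := by
    push_cast
    linarith
  have hnn : (0 : ℝ) ≤ Fintype.card V := Nat.cast_nonneg _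
  have hμγ : μ ≤ γ := min_le_right _ _
  have hμρ : μ ≤ ρ1 := min_le_left _ _
  have hT : ThreeP E (⌊μ / 2 * (Fintype.card V : ℝ)⌋₊ + c') :=
    hQ.threeP _ (hrc.trans_le (by nlinarith))
  have hS' : SevenC E (⌊μ / 2 * (Fintype.card V : ℝ)⌋₊ + c') c := by
    refine hS.mono (Nat.le_floor ?_)
    have : μ * (Fintype.card V : ℝ) ≤ ρ1 * (Fintype.card V : ℝ) := by nlinarith
    linarith
  exact Hn V E hdiv.loopless k1 hQ.toP3 (H7 _ V E hdiv.loopless hT hS') hdiv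

theorem nearK_of (hm : S_main) (h7 : S_abs7) (hN : S_sevenN) : S_nearK := by
  obtain ⟨ρ, hρ, c, n1, HN⟩ := hN
  obtain ⟨n0, H⟩ := dec_of_Q3 hm h7 (9 / 100) ρ (by norm_num) hρ c
  refine ⟨max n0 n1, ?_⟩
  intro V _ _ E hn hK hdiv
  exact H V E ((le_max_left _ _).trans hn) hK.toQ3
    (HN V E hdiv.loopless ((le_max_right _ _).trans hn) hK) hdiv

theorem caseI_of (hm : S_main) (h7 : S_abs7) (hQ : S_sevenQ) : S_caseI := by
  intro γ hγ
  obtain ⟨ρ, hρ, c, n1, HN⟩ := hQ γ hγ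
  obtain ⟨n0, H⟩ := dec_of_Q3 hm h7 γ ρ hγ hρ c
  refine ⟨max n0 n1, ?_⟩
  intro V _ _ E hn hK hdeg hdiv
  exact H V E ((le_max_left _ _).trans hn) hK
    (HN V E hdiv.loopless ((le_max_right _ _).trans hn) hK hdeg) hdiv

end Pool.Agent.H483C6
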