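import Pool.Agent.H483C6.Basic
import Pool.Agent.H483C6.Stmts3

/-!
# Decompositions of nearly complete bipartite graphs (MP_1bffa4_co, helper483)
-/

set_option autoImplicit false
set_option linter.unusedSectionVars false

namespace Pool.Agent.H483C6

open Finset

theorem NearKK.toP3 {V : Type} [Fintype V] [DecidableEq V] {E : Finset (Sym2 V)} {A : Finset V}
    (h : NearKK E A (1 / 1000)) : P3 E (9 / 100) univ univ := by
  classical
  obtain ⟨hb, hA, hB, h1, h2, h3⟩ := h
  set n : ℝ := (Fintype.card V : ℝ) with hn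
  have hn0 : 0 ≤ n := Nat.cast_nonneg _
  have hcr : ∀ u v, s(u, v) ∈ E → (u ∈ A ↔ v ∉ A) := by
    intro u v huv
    have h4 := hb _ huv
    rw [mk_mem_sym2_iff, mk_mem_sym2_iff, mem_compl, mem_compl] at h4
    tauto
  have hcard : ((A.card : ℕ) : ℝ) + (Aᶜ.card : ℝ) = n := by
    rw [hn]; exact_mod_cast card_add_card_compl A
  -- the statement for one side
  have key : ∀ (X : Finset V), (∀ u v, s(u, v) ∈ E → (u ∈ X ↔ v ∉ X)) →
      ((X.filter fun v => (dg E v : ℝ) < (Xᶜ.card : ℝ) - 1 / 1000 * n).card : ℝ) ≤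
        1 / 1000 * n → ∀ u v, u ∉ X → v ∈ Xᶜᶜ →
      9 / 100 * n ≤ ((univ.filter fun a => s(u, a) ∈ E ∧ 9 / 100 * n ≤
        ((univ.filter fun b => s(a, b) ∈ E ∧ s(b, v) ∈ E).card : ℝ)).card : ℝ) := by
    intro X hX hg u v hu hv
    rw [compl_compl] at hv
    set Bd := X.filter fun v => (dg E v : ℝ) < (Xᶜ.card : ℝ) - 1 / 1000 * n with hBd
    have hsub : nb E u \ Bd ⊆ univ.filter fun a => s(u, a) ∈ E ∧ 9 / 100 * n ≤
        ((univ.filter fun b => s(a, b) ∈ E ∧ s(b, v) ∈ E).card : ℝ) := by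
      intro a ha
      rw [mem_sdiff, mem_nb] at ha
      rw [mem_filter]
      refine ⟨mem_univ _, ha.1, ?_⟩
      have haX : a ∈ X := by
        have := hX u a ha.1
        tauto
      have h4 : (Xᶜ.card : ℝ) - 1 / 1000 * n ≤ (dg E a : ℝ) := by
        by_contra hc
        push Not at hc
        exact ha.2 (by rw [hBd, mem_filter]; exact ⟨haX, hc⟩)
      have h5 := h1 v
      have h6 : (nb E a ∪ nb E v).card + (nb E a ∩ nb E v).card = (nb E a).card + (nb E v).card :=
        card_union_add_card_inter _ _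
      have h7 : ((nb E a ∪ nb E v).card : ℝ) ≤ (Xᶜ.card : ℝ) := by
        refine Nat.cast_le.2 (card_le_card fun b hb' => ?_)
        rw [mem_compl]
        rw [mem_union, mem_nb, mem_nb] at hb'
        rcases hb' with hb' | hb'
        · have := hX _ _ hb'; tauto
        · have := hX _ _ hb'; tauto
      have h8 : ((nb E a ∪ nb E v).card : ℝ) + ((nb E a ∩ nb E v).card : ℝ) =
          (dg E a : ℝ) + (dg E v : ℝ) := by
        unfold dg
        exact_mod_cast h6
      have h9 : ((nb E a ∩ nb E v).card : ℝ) ≤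
          ((univ.filter fun b => s(a, b) ∈ E ∧ s(b, v) ∈ E).card : ℝ) := by
        refine Nat.cast_le.2 (card_le_card fun b hb' => ?_)
        rw [mem_inter, mem_nb, mem_nb] at hb'
        rw [mem_filter]
        exact ⟨mem_univ _, hb'.1, by rw [Sym2.eq_swap]; exact hb'.2⟩
      linarith
    have h3 : ((nb E u \ Bd).card : ℝ) ≤ ((univ.filter fun a => s(u, a) ∈ E ∧ 9 / 100 * n ≤
        ((univ.filter fun b => s(a, b) ∈ E ∧ s(b, v) ∈ E).card : ℝ)).card : ℝ) :=
      Nat.cast_le.2 (card_le_card hsub)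
    have h4 : (nb E u).card ≤ (nb E u \ Bd).card + Bd.card := card_le_card_sdiff_add_card
    have h5 : (dg E u : ℝ) ≤ ((nb E u \ Bd).card : ℝ) + (Bd.card : ℝ) := by
      unfold dg; exact_mod_cast h4
    have h6 := h1 u
    linarith
  intro u _ v _ hw
  obtain ⟨x, y, w1, w2, w3⟩ := hw
  have c1 := hcr _ _ w1
  have c2 := hcr _ _ w2
  have c3 := hcr _ _ w3
  rw [card_univ]
  by_cases hu : u ∈ A
  · refine key Aᶜ (fun u v huv => ?_) ?_ u v (by simpa using hu) ?_
    · have := hcr u v huv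
      rw [mem_compl, mem_compl]; tauto
    · rw [compl_compl]; exact h3
    · rw [compl_compl, mem_compl]; tauto
  · refine key A hcr h2 u v hu ?_
    rw [compl_compl]; tauto

theorem nearKK_of (hm : S_main) (hB : S_absB) : S_nearKK := by
  obtain ⟨ρ, hρ, HB⟩ := hB
  obtain ⟨h, Hm⟩ := hm (9 / 100) ρ (by norm_num) hρ
  obtain ⟨c, n1, H1⟩ := HB h
  obtain ⟨n0, H⟩ := Hm c
  refine ⟨max n0 n1, ?_⟩
  intro V _ _ E A hn hK hdiv
  exact H V E hdiv.loopless ((le_max_left _ _).trans hn) hK.toP3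
    (H1 V E A hdiv.loopless ((le_max_right _ _).trans hn) hK) hdiv

end Pool.Agent.H483C6
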