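import Pool.Agent.H483C6.Paths
import Pool.Agent.H483C6.Stmts2

/-!
# The swap gadget for seven-cycles (MP_1bffa4_co)
-/

set_option autoImplicit false

namespace Pool.Agent.H483C6

open Finset

namespace S7

section

variable {U V : Type} [DecidableEq U] [DecidableEq V]

theorem hex_image (f : U → V) (a b c d e g : U) :
    (hex a b c d e g).image (Sym2.map f) = hex (f a) (f b) (f c) (f d) (f e) (f g) := by
  simp [hex, image_insert]

theorem hept_image (f : U → V) (a b c d e g h : U) :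
    (hept a b c d e g h).image (Sym2.map f) = hept (f a) (f b) (f c) (f d) (f e) (f g) (f h) := by
  simp [hept, image_insert]

theorem isHex_image {f : U → V} (hf : Function.Injective f) {S : Finset (Sym2 U)} (h : IsHex S) :
    IsHex (S.image (Sym2.map f)) := by
  obtain ⟨a, b, c, d, e, g, hn, rfl⟩ := h
  refine ⟨f a, f b, f c, f d, f e, f g, ?_, hex_image f a b c d e g⟩
  have := hn.map hf
  simpa using this

theorem dec_image {f : U → V} (hf : Function.Injective f) {S : Finset (Sym2 U)} (h : Dec S) :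
    Dec (S.image (Sym2.map f)) := by
  induction h with
  | empty => simpa using Dec.empty
  | cons hS _ hd ih =>
    rw [image_union]
    exact Dec.cons (isHex_image hf hS) ih ((disjoint_image (Sym2.map.injective hf)).2 hd)

end

/-- the index type -/
abbrev W : Type := Fin 7 ⊕ (Fin 8 ⊕ Fin 8)

/-- the vertices `v` -/
def V' (i : Fin 7) : W := Sum.inl i
/-- the vertices `a` -/
def A' (i : Fin 8) : W := Sum.inr (Sum.inl i)
/-- the vertices `t` -/
def T' (i : Fin 8) : W := Sum.inr (Sum.inr i)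

/-- the gadget -/
def TT : Finset (Sym2 W) := {s(V' 6, A' 0), s(A' 0, A' 1), s(A' 1, V' 2), s(A' 3, V' 4),
  s(A' 5, V' 6), s(V' 6, T' 0), s(T' 0, T' 1), s(T' 1, V' 2), s(A' 1, T' 2), s(T' 2, T' 3),
  s(T' 3, V' 4), s(A' 3, T' 4), s(T' 4, T' 5), s(T' 5, V' 6), s(A' 5, T' 6), s(T' 6, T' 7),
  s(T' 7, A' 1)}

theorem dis1 : Disjoint TT (hept (V' 0) (V' 1) (V' 2) (V' 3) (V' 4) (V' 5) (V' 6)) := by
  decide +kernel

theorem dis2 : Disjoint TT (hept (A' 1) (A' 2) (A' 3) (A' 4) (A' 5) (A' 6) (A' 7)) := by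
  decide +kernel

theorem dec4 {S : Finset (Sym2 W)} (a b c d : Finset (Sym2 W)) (ha : IsHex a) (hb : IsHex b)
    (hc : IsHex c) (hd : IsHex d) (h1 : Disjoint a (b ∪ (c ∪ d))) (h2 : Disjoint b (c ∪ d))
    (h3 : Disjoint c d) (hS : S = a ∪ (b ∪ (c ∪ d))) : Dec S := by
  rw [hS]
  exact ha.dec.union (hb.dec.union (hc.dec.union hd.dec h3) h2) h1

theorem dd1 : Dec (TT ∪ hept (V' 0) (V' 1) (V' 2) (V' 3) (V' 4) (V' 5) (V' 6)) := by
  refine dec4 (hex (V' 6) (V' 0) (V' 1) (V' 2) (T' 1) (T' 0))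
    (hex (A' 1) (V' 2) (V' 3) (V' 4) (T' 3) (T' 2))
    (hex (A' 3) (V' 4) (V' 5) (V' 6) (T' 5) (T' 4))
    (hex (A' 5) (V' 6) (A' 0) (A' 1) (T' 7) (T' 6))
    (isHex_hex (by decide)) (isHex_hex (by decide)) (isHex_hex (by decide)) (isHex_hex (by decide))
    ?_ ?_ ?_ ?_
  · decide +kernel
  · decide +kernel
  · decide +kernel
  · decide +kernel

theorem dd2 : Dec (TT ∪ hept (A' 1) (A' 2) (A' 3) (A' 4) (A' 5) (A' 6) (A' 7)) := by
  refine dec4 (hex (V' 6) (A' 0) (A' 1) (V' 2) (T' 1) (T' 0))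
    (hex (A' 1) (A' 2) (A' 3) (V' 4) (T' 3) (T' 2))
    (hex (A' 3) (A' 4) (A' 5) (V' 6) (T' 5) (T' 4))
    (hex (A' 5) (A' 6) (A' 7) (A' 1) (T' 7) (T' 6))
    (isHex_hex (by decide)) (isHex_hex (by decide)) (isHex_hex (by decide)) (isHex_hex (by decide))
    ?_ ?_ ?_ ?_
  · decide +kernel
  · decide +kernel
  · decide +kernel
  · decide +kernel

end S7

/-- TARGET -/
theorem swap7 {V : Type} [DecidableEq V] (v : Fin 7 → V) (a t : Fin 8 → V)
    (hv : Function.Injective v) (ha : Function.Injective a) (ht : Function.Injective t)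
    (hva : ∀ i j, v i ≠ a j) (hvt : ∀ i j, v i ≠ t j) (hat : ∀ i j, a i ≠ t j) :
    ∃ T : Finset (Sym2 V), T = {s(v 6, a 0), s(a 0, a 1), s(a 1, v 2), s(a 3, v 4), s(a 5, v 6),
        s(v 6, t 0), s(t 0, t 1), s(t 1, v 2), s(a 1, t 2), s(t 2, t 3), s(t 3, v 4),
        s(a 3, t 4), s(t 4, t 5), s(t 5, v 6), s(a 5, t 6), s(t 6, t 7), s(t 7, a 1)} ∧
      Disjoint T (hept (v 0) (v 1) (v 2) (v 3) (v 4) (v 5) (v 6)) ∧
      Disjoint T (hept (a 1) (a 2) (a 3) (a 4) (a 5) (a 6) (a 7)) ∧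
      Dec (T ∪ hept (v 0) (v 1) (v 2) (v 3) (v 4) (v 5) (v 6)) ∧
      Dec (T ∪ hept (a 1) (a 2) (a 3) (a 4) (a 5) (a 6) (a 7)) := by
  let f : S7.W → V := Sum.elim v (Sum.elim a t)
  have hf : Function.Injective f := by
    refine hv.sumElim (ha.sumElim ht hat) ?_
    rintro i (j | j)
    · exact hva i j
    · exact hvt i j
  have hT : S7.TT.image (Sym2.map f) = {s(v 6, a 0), s(a 0, a 1), s(a 1, v 2), s(a 3, v 4),
      s(a 5, v 6), s(v 6, t 0), s(t 0, t 1), s(t 1, v 2), s(a 1, t 2), s(t 2, t 3), s(t 3, v 4),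
        s(a 3, t 4), s(t 4, t 5), s(t 5, v 6), s(a 5, t 6), s(t 6, t 7), s(t 7, a 1)} := by
    simp [S7.TT, image_insert, S7.V', S7.A', S7.T', f]
  have h1 : (hept (S7.V' 0) (S7.V' 1) (S7.V' 2) (S7.V' 3) (S7.V' 4) (S7.V' 5)
      (S7.V' 6)).image (Sym2.map f) = hept (v 0) (v 1) (v 2) (v 3) (v 4) (v 5) (v 6) :=
    S7.hept_image f _ _ _ _ _ _ _
  have h2 : (hept (S7.A' 1) (S7.A' 2) (S7.A' 3) (S7.A' 4) (S7.A' 5) (S7.A' 6)
      (S7.A' 7)).image (Sym2.map f) = hept (a 1) (a 2) (a 3) (a 4) (a 5) (a 6) (a 7) :=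
    S7.hept_image f _ _ _ _ _ _ _
  have hinj := Sym2.map.injective hf
  refine ⟨S7.TT.image (Sym2.map f), hT, ?_, ?_, ?_, ?_⟩
  · rw [← h1]; exact (disjoint_image hinj).2 S7.dis1
  · rw [← h2]; exact (disjoint_image hinj).2 S7.dis2
  · rw [← h1, ← image_union]; exact S7.dec_image hf S7.dd1
  · rw [← h2, ← image_union]; exact S7.dec_image hf S7.dd2

end Pool.Agent.H483C6
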