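import Pool.Agent.H483C6.Paths
import Pool.Agent.H483C6.Stmts2
import Pool.Agent.H483C6.Swap7

/-!
# SevenN (MP_1bffa4_co)
-/

set_option autoImplicit false

namespace Pool.Agent.H483C6

open Finset

namespace SevenNAux

section S

variable {V : Type} [DecidableEq V]

/-- the seven-cycle through the values of `f` -/
def hp (f : Fin 7 → V) : Finset (Sym2 V) := hept (f 0) (f 1) (f 2) (f 3) (f 4) (f 5) (f 6)

theorem mem2 {P : V → Prop} {u w : V} (hu : P u) (hw : P w) : ∀ z ∈ s(u, w), P z := by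
  intro z hz
  rcases Sym2.mem_iff.1 hz with rfl | rfl
  exacts [hu, hw]

theorem exL {P : V → Prop} {u w : V} (hu : P u) : ∃ z ∈ s(u, w), P z :=
  ⟨u, Sym2.mem_mk_left _ _, hu⟩

theorem exR {P : V → Prop} {u w : V} (hw : P w) : ∃ z ∈ s(u, w), P z :=
  ⟨w, Sym2.mem_mk_right _ _, hw⟩

theorem dj {A B : Finset (Sym2 V)} (P : V → Prop) (hA : ∀ e ∈ A, ∃ z ∈ e, P z)
    (hB : ∀ e ∈ B, ∀ z ∈ e, ¬ P z) : Disjoint A B := by
  rw [disjoint_left]
  intro e h1 h2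
  obtain ⟨z, hz, hP⟩ := hA e h1
  exact hB e h2 z hz hP

theorem card_ins {s : Finset (Sym2 V)} {a : Sym2 V} {k : ℕ} (h : s.card ≤ k) :
    (insert a s).card ≤ k + 1 := (card_insert_le _ _).trans (Nat.succ_le_succ h)

theorem hp_all {P : V → Prop} {f : Fin 7 → V} (h : ∀ i, P (f i)) : ∀ e ∈ hp f, ∀ z ∈ e, P z := by
  unfold hp hept
  simp only [mem_insert, mem_singleton, forall_eq_or_imp, forall_eq]
  exact ⟨mem2 (h _) (h _), mem2 (h _) (h _), mem2 (h _) (h _), mem2 (h _) (h _),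
    mem2 (h _) (h _), mem2 (h _) (h _), mem2 (h _) (h _)⟩

theorem hp_ex {P : V → Prop} {f : Fin 7 → V} (h : ∀ i, P (f i)) : ∀ e ∈ hp f, ∃ z ∈ e, P z := by
  unfold hp hept
  simp only [mem_insert, mem_singleton, forall_eq_or_imp, forall_eq]
  exact ⟨exL (h _), exL (h _), exL (h _), exL (h _), exL (h _), exL (h _), exL (h _)⟩

theorem hp_card (f : Fin 7 → V) : (hp f).card ≤ 7 := by
  unfold hp hept
  iterate 6 refine card_ins ?_
  exact (card_singleton _).le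

theorem useSwap (E : Finset (Sym2 V)) (v : Fin 7 → V) (a t : Fin 8 → V)
    (hv : Function.Injective v) (ha : Function.Injective a) (ht : Function.Injective t)
    (hva : ∀ i j, v i ≠ a j) (hvt : ∀ i j, v i ≠ t j) (hat : ∀ i j, a i ≠ t j)
    (h1 : s(v 6, a 0) ∈ E) (h2 : s(a 0, a 1) ∈ E) (h3 : s(a 1, v 2) ∈ E) (h4 : s(a 3, v 4) ∈ E)
    (h5 : s(a 5, v 6) ∈ E) (h6 : s(v 6, t 0) ∈ E) (h7 : s(t 0, t 1) ∈ E) (h8 : s(t 1, v 2) ∈ E)
    (h9 : s(a 1, t 2) ∈ E) (h10 : s(t 2, t 3) ∈ E) (h11 : s(t 3, v 4) ∈ E)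
    (h12 : s(a 3, t 4) ∈ E) (h13 : s(t 4, t 5) ∈ E) (h14 : s(t 5, v 6) ∈ E)
    (h15 : s(a 5, t 6) ∈ E) (h16 : s(t 6, t 7) ∈ E) (h17 : s(t 7, a 1) ∈ E) :
    ∃ T : Finset (Sym2 V), T ⊆ E ∧ T.card ≤ 17 ∧
      (∀ e ∈ T, ∃ z ∈ e, (∃ i, z = a i) ∨ (∃ i, z = t i)) ∧
      (∀ e ∈ T, ∃ z ∈ e, z = a 0 ∨ (∃ i, z = t i) ∨ (∃ i, z = v i)) ∧
      (∀ e ∈ T, ∀ z ∈ e, (∃ i, z = a i) ∨ (∃ i, z = t i) ∨ (∃ i, z = v i)) ∧
      Disjoint T (hp v) ∧ Disjoint T (hp fun i => a i.succ) ∧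
      Dec (T ∪ hp v) ∧ Dec (T ∪ hp fun i => a i.succ) := by
  obtain ⟨T, hT, d1, d2, d3, d4⟩ := swap7 v a t hv ha ht hva hvt hat
  have hE : ∀ e ∈ T, e ∈ E := by
    rw [hT]
    simp only [mem_insert, mem_singleton, forall_eq_or_imp, forall_eq]
    exact ⟨h1, h2, h3, h4, h5, h6, h7, h8, h9, h10, h11, h12, h13, h14, h15, h16, h17⟩
  refine ⟨T, hE, ?_, ?_, ?_, ?_, d1, d2, d3, d4⟩
  · rw [hT]
    iterate 16 refine card_ins ?_
    exact (card_singleton _).le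
  · have pa : ∀ i, (∃ j, a i = a j) ∨ (∃ j, a i = t j) := fun i => Or.inl ⟨i, rfl⟩
    have pt : ∀ i, (∃ j, t i = a j) ∨ (∃ j, t i = t j) := fun i => Or.inr ⟨i, rfl⟩
    rw [hT]
    simp only [mem_insert, mem_singleton, forall_eq_or_imp, forall_eq]
    exact ⟨exR (pa 0), exL (pa 0), exL (pa 1), exL (pa 3), exL (pa 5), exR (pt 0), exL (pt 0),
      exL (pt 1), exL (pa 1), exL (pt 2), exL (pt 3), exL (pa 3), exL (pt 4), exL (pt 5),
      exL (pa 5), exL (pt 6), exL (pt 7)⟩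
  · have p0 : a 0 = a 0 ∨ (∃ j, a 0 = t j) ∨ (∃ j, a 0 = v j) := Or.inl rfl
    have pt : ∀ i, t i = a 0 ∨ (∃ j, t i = t j) ∨ (∃ j, t i = v j) :=
      fun i => Or.inr (Or.inl ⟨i, rfl⟩)
    have pv : ∀ i, v i = a 0 ∨ (∃ j, v i = t j) ∨ (∃ j, v i = v j) :=
      fun i => Or.inr (Or.inr ⟨i, rfl⟩)
    rw [hT]
    simp only [mem_insert, mem_singleton, forall_eq_or_imp, forall_eq]
    exact ⟨exL (pv 6), exL p0, exR (pv 2), exR (pv 4), exR (pv 6), exL (pv 6), exL (pt 0),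
      exL (pt 1), exR (pt 2), exL (pt 2), exL (pt 3), exR (pt 4), exL (pt 4), exL (pt 5),
      exR (pt 6), exL (pt 6), exL (pt 7)⟩
  · have pa : ∀ i, (∃ j, a i = a j) ∨ (∃ j, a i = t j) ∨ (∃ j, a i = v j) :=
      fun i => Or.inl ⟨i, rfl⟩
    have pt : ∀ i, (∃ j, t i = a j) ∨ (∃ j, t i = t j) ∨ (∃ j, t i = v j) :=
      fun i => Or.inr (Or.inl ⟨i, rfl⟩)
    have pv : ∀ i, (∃ j, v i = a j) ∨ (∃ j, v i = t j) ∨ (∃ j, v i = v j) :=
      fun i => Or.inr (Or.inr ⟨i, rfl⟩)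
    rw [hT]
    simp only [mem_insert, mem_singleton, forall_eq_or_imp, forall_eq]
    exact ⟨mem2 (pv _) (pa _), mem2 (pa _) (pa _), mem2 (pa _) (pv _), mem2 (pa _) (pv _),
      mem2 (pa _) (pv _), mem2 (pv _) (pt _), mem2 (pt _) (pt _), mem2 (pt _) (pv _),
      mem2 (pa _) (pt _), mem2 (pt _) (pt _), mem2 (pt _) (pv _), mem2 (pa _) (pt _),
      mem2 (pt _) (pt _), mem2 (pt _) (pv _), mem2 (pa _) (pt _), mem2 (pt _) (pt _),
      mem2 (pt _) (pa _)⟩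

end S

section G

variable {V : Type} [Fintype V] [DecidableEq V]

/-- generic vertices -/
def Gen (E : Finset (Sym2 V)) (x : V) : Prop :=
  (1 - 1 / 1000) * (Fintype.card V : ℝ) ≤ (dg E x : ℝ)

theorem card_non {E : Finset (Sym2 V)} {g : V} (hg : Gen E g) :
    ((univ \ nb E g).card : ℝ) ≤ 1 / 1000 * (Fintype.card V : ℝ) := by
  have h1 := card_sdiff_add_card_eq_card (subset_univ (nb E g))
  have h2 : ((univ \ nb E g).card : ℝ) + (dg E g : ℝ) = (Fintype.card V : ℝ) := by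
    rw [card_univ] at h1
    exact_mod_cast h1
  unfold Gen at hg
  linarith

theorem pick {E : Finset (Sym2 V)} (hE : NearK E (1 / 1000)) (hn : 0 < Fintype.card V)
    (R : Finset V) (hR : (R.card : ℝ) ≤ 1 / 50 * (Fintype.card V : ℝ)) (v g1 g2 : V)
    (h1 : Gen E g1) (h2 : Gen E g2) :
    ∃ x, Gen E x ∧ x ∉ R ∧ s(v, x) ∈ E ∧ s(g1, x) ∈ E ∧ s(g2, x) ∈ E := by
  by_contra hcon
  push Not at hcon
  have hsub : nb E v ⊆ (univ.filter fun x => (dg E x : ℝ) <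
      (1 - 1 / 1000) * (Fintype.card V : ℝ)) ∪ R ∪ (univ \ nb E g1) ∪ (univ \ nb E g2) := by
    intro x hx
    by_contra hc
    simp only [mem_union, mem_filter, mem_univ, true_and, mem_sdiff, not_or, not_not,
      not_lt] at hc
    obtain ⟨⟨⟨c1, c2⟩, c3⟩, c4⟩ := hc
    exact hcon x c1 c2 (mem_nb.1 hx) (mem_nb.1 c3) (mem_nb.1 c4)
  have e0 := card_le_card hsub
  have e1 := card_union_le ((univ.filter fun x => (dg E x : ℝ) <
      (1 - 1 / 1000) * (Fintype.card V : ℝ)) ∪ R ∪ (univ \ nb E g1)) (univ \ nb E g2)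
  have e2 := card_union_le ((univ.filter fun x => (dg E x : ℝ) <
      (1 - 1 / 1000) * (Fintype.card V : ℝ)) ∪ R) (univ \ nb E g1)
  have e3 := card_union_le (univ.filter fun x => (dg E x : ℝ) <
      (1 - 1 / 1000) * (Fintype.card V : ℝ)) R
  have e4 : (nb E v).card ≤ (univ.filter fun x => (dg E x : ℝ) <
      (1 - 1 / 1000) * (Fintype.card V : ℝ)).card + R.card + (univ \ nb E g1).card +
      (univ \ nb E g2).card := by omega
  have e5 : ((nb E v).card : ℝ) ≤ ((univ.filter fun x => (dg E x : ℝ) <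
      (1 - 1 / 1000) * (Fintype.card V : ℝ)).card : ℝ) + (R.card : ℝ) +
      ((univ \ nb E g1).card : ℝ) + ((univ \ nb E g2).card : ℝ) := by exact_mod_cast e4
  have f1 := hE.1 v
  have f2 := hE.2
  have f3 := card_non h1
  have f4 := card_non h2
  unfold dg at f1
  have hn' : (0 : ℝ) < (Fintype.card V : ℝ) := by exact_mod_cast hn
  linarith

theorem exists_gen {E : Finset (Sym2 V)} (hE : NearK E (1 / 1000)) (hn : 0 < Fintype.card V) :
    ∃ g, Gen E g := by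
  by_contra hcon
  push Not at hcon
  have h1 : (univ.filter fun x => (dg E x : ℝ) < (1 - 1 / 1000) * (Fintype.card V : ℝ)) =
      (univ : Finset V) := by
    ext x
    simp only [mem_filter, mem_univ, true_and, iff_true]
    have := hcon x
    unfold Gen at this
    exact not_le.1 this
  have f2 := hE.2
  rw [h1, card_univ] at f2
  have hn' : (0 : ℝ) < (Fintype.card V : ℝ) := by exact_mod_cast hn
  linarith

theorem seq {E : Finset (Sym2 V)} (hE : NearK E (1 / 1000)) (hn : 0 < Fintype.card V)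
    (M : ℕ) (y : ℕ → V) (hy : ∀ i < M, Gen E (y i)) (hyi : ∀ i < M, ∀ j < M, y i = y j → i = j)
    (R : Finset V) (hyR : ∀ i < M, y i ∈ R) (o : ℕ → V) (p q : ℕ → ℕ) (N : ℕ) (hMN : M ≤ N) :
    (∀ k, M ≤ k → k < N → p k < k ∧ q k < k) →
    (R.card : ℝ) + N ≤ 1 / 50 * (Fintype.card V : ℝ) →
    ∃ x : ℕ → V, (∀ i < M, x i = y i) ∧ (∀ i < N, Gen E (x i)) ∧
      (∀ i, M ≤ i → i < N → x i ∉ R) ∧ (∀ i < N, ∀ j < N, x i = x j → i = j) ∧
      ∀ k, M ≤ k → k < N → s(o k, x k) ∈ E ∧ s(x (p k), x k) ∈ E ∧ s(x (q k), x k) ∈ E := by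
  induction N, hMN using Nat.le_induction with
  | base =>
    intro _ _
    exact ⟨y, fun _ _ => rfl, hy, fun i h1 h2 => absurd h2 (not_lt.2 h1), hyi,
      fun i h1 h2 => absurd h2 (not_lt.2 h1)⟩
  | succ N hMN ih =>
    intro hpq hR
    have hR' : (R.card : ℝ) + N ≤ 1 / 50 * (Fintype.card V : ℝ) := by
      push_cast at hR
      linarith
    obtain ⟨x, x1, x2, x3, x4, x5⟩ := ih (fun k h1 h2 => hpq k h1 (h2.trans (Nat.lt_succ_self _))) hR'
    obtain ⟨hp1, hq1⟩ := hpq N hMN (Nat.lt_succ_self _)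
    have hc : ((R ∪ (range N).image x).card : ℝ) ≤ 1 / 50 * (Fintype.card V : ℝ) := by
      have c1 : (R ∪ (range N).image x).card ≤ R.card + N := by
        refine (card_union_le _ _).trans (Nat.add_le_add_left ?_ _)
        exact card_image_le.trans (card_range N).le
      have c2 : ((R ∪ (range N).image x).card : ℝ) ≤ (R.card : ℝ) + N := by exact_mod_cast c1
      linarith
    obtain ⟨z, z1, z2, z3, z4, z5⟩ := pick hE hn _ hc (o N) (x (p N)) (x (q N)) (x2 _ hp1)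
      (x2 _ hq1)
    rw [mem_union, not_or] at z2
    have z2' : ∀ i < N, x i ≠ z := fun i hi e =>
      z2.2 (mem_image.2 ⟨i, mem_range.2 hi, e⟩)
    refine ⟨Function.update x N z, ?_, ?_, ?_, ?_, ?_⟩
    · intro i hi
      rw [Function.update_of_ne (by omega)]
      exact x1 i hi
    · intro i hi
      rcases Nat.lt_succ_iff_lt_or_eq.1 hi with h | rfl
      · rw [Function.update_of_ne h.ne]; exact x2 i h
      · rw [Function.update_self]; exact z1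
    · intro i h1 hi
      rcases Nat.lt_succ_iff_lt_or_eq.1 hi with h | rfl
      · rw [Function.update_of_ne h.ne]; exact x3 i h1 h
      · rw [Function.update_self]; exact z2.1
    · intro i hi j hj hij
      rcases Nat.lt_succ_iff_lt_or_eq.1 hi with h | rfl <;>
        rcases Nat.lt_succ_iff_lt_or_eq.1 hj with h' | rfl
      · rw [Function.update_of_ne h.ne, Function.update_of_ne h'.ne] at hij
        exact x4 i h j h' hij
      · rw [Function.update_of_ne h.ne, Function.update_self] at hij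
        exact absurd hij (z2' i h)
      · rw [Function.update_of_ne h'.ne, Function.update_self] at hij
        exact absurd hij.symm (z2' j h')
      · rfl
    · intro k h1 hk
      rcases Nat.lt_succ_iff_lt_or_eq.1 hk with h | rfl
      · obtain ⟨a1, a2⟩ := hpq k h1 hk
        rw [Function.update_of_ne h.ne, Function.update_of_ne (a1.trans h).ne,
          Function.update_of_ne (a2.trans h).ne]
        exact x5 k h1 h
      · rw [Function.update_self, Function.update_of_ne hp1.ne, Function.update_of_ne hq1.ne]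
        exact ⟨z3, z4, z5⟩

theorem stage1 {E : Finset (Sym2 V)} (hE : NearK E (1 / 1000)) (hn : 0 < Fintype.card V)
    (R : Finset V) (hR : (R.card : ℝ) + 18 ≤ 1 / 50 * (Fintype.card V : ℝ)) (v : Fin 7 → V)
    (hv : Function.Injective v) (hvR : ∀ i, v i ∈ R) :
    ∃ (T : Finset (Sym2 V)) (f : Fin 7 → V) (S : Finset V), Function.Injective f ∧
      (∀ i, f i ∈ S) ∧ (∀ i, Gen E (f i)) ∧ S.card ≤ 16 ∧ (∀ z ∈ S, z ∉ R) ∧ T ⊆ E ∧
      T.card ≤ 17 ∧ hp f ⊆ E ∧ (∀ e ∈ T, ∃ z ∈ e, z ∈ S) ∧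
      (∀ e ∈ T, ∀ z ∈ e, z ∈ S ∨ z ∈ R) ∧ (∀ e ∈ T, ∀ z ∈ e, z ∈ S ∨ ∃ i, z = v i) ∧
      Disjoint T (hp v) ∧ Disjoint T (hp f) ∧ Dec (T ∪ hp v) ∧ Dec (T ∪ hp f) := by
  obtain ⟨g0, hg0⟩ := exists_gen hE hn
  have hR1 : (((insert g0 R : Finset V).card : ℝ)) + (17 : ℕ) ≤
      1 / 50 * (Fintype.card V : ℝ) := by
    have c1 : (insert g0 R : Finset V).card ≤ R.card + 1 := card_insert_le _ _
    have c2 : (((insert g0 R : Finset V).card : ℝ)) ≤ (R.card : ℝ) + 1 := by exact_mod_cast c1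
    push_cast
    linarith
  obtain ⟨x, -, x2, x3, x4, x5⟩ := seq hE hn 1 (fun _ => g0) (fun _ _ => hg0)
    (fun i hi j hj _ => by omega) (insert g0 R) (fun _ _ => mem_insert_self _ _)
    (fun k => v (([0,2,6,4,0,6,0,0,0,2,6,4,0,6,0,0,0] : List (Fin 7)).getD k 0))
    (fun k => ([0,0,1,0,1,0,3,5,7,0,9,0,1,0,3,1,5] : List ℕ).getD k 0)
    (fun k => ([0,0,0,0,3,0,5,0,1,0,0,0,11,0,13,0,15] : List ℕ).getD k 0) 17 (by norm_num)
    (by intro k h1 h2; interval_cases k <;> decide) hR1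
  have hxR : ∀ k, 1 ≤ k → k < 17 → x k ∉ R := fun k h1 h2 h =>
    x3 k h1 h2 (mem_insert_of_mem h)
  have hxS : ∀ k, 1 ≤ k → k < 17 → x k ∈ (Ico 1 17).image x := fun k h1 h2 =>
    mem_image_of_mem _ (mem_Ico.2 ⟨h1, h2⟩)
  have hia : ∀ i : Fin 8, 1 ≤ (![2,1,4,3,6,5,7,8] : Fin 8 → ℕ) i ∧
    (![2,1,4,3,6,5,7,8] : Fin 8 → ℕ) i < 17 := by decide
  have hit : ∀ i : Fin 8, 1 ≤ (![10,9,12,11,14,13,16,15] : Fin 8 → ℕ) i ∧
    (![10,9,12,11,14,13,16,15] : Fin 8 → ℕ) i < 17 := by decide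
  have hiai : Function.Injective (![2,1,4,3,6,5,7,8] : Fin 8 → ℕ) := by decide
  have hiti : Function.Injective (![10,9,12,11,14,13,16,15] : Fin 8 → ℕ) := by decide
  have hne : ∀ i j : Fin 8, (![2,1,4,3,6,5,7,8] : Fin 8 → ℕ) i ≠
    (![10,9,12,11,14,13,16,15] : Fin 8 → ℕ) j := by decide
  have ha : Function.Injective fun i : Fin 8 => x ((![2,1,4,3,6,5,7,8] : Fin 8 → ℕ) i) :=
    fun i j h => hiai (x4 _ (hia i).2 _ (hia j).2 h)
  have ht : Function.Injective fun i : Fin 8 => x ((![10,9,12,11,14,13,16,15] : Fin 8 → ℕ) i) :=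
    fun i j h => hiti (x4 _ (hit i).2 _ (hit j).2 h)
  obtain ⟨T, t1, t2, t3, -, t5, t6, t7, t8, t9⟩ := useSwap E v
    (fun i : Fin 8 => x ((![2,1,4,3,6,5,7,8] : Fin 8 → ℕ) i))
    (fun i : Fin 8 => x ((![10,9,12,11,14,13,16,15] : Fin 8 → ℕ) i)) hv ha ht
    (fun i j h => hxR _ (hia j).1 (hia j).2 (by rw [← h]; exact hvR i))
    (fun i j h => hxR _ (hit j).1 (hit j).2 (by rw [← h]; exact hvR i))
    (fun i j h => hne i j (x4 _ (hia i).2 _ (hit j).2 h))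
    (x5 2 (by norm_num) (by norm_num)).1
    (by rw [Sym2.eq_swap]; exact (x5 2 (by norm_num) (by norm_num)).2.1)
    (by rw [Sym2.eq_swap]; exact (x5 1 (by norm_num) (by norm_num)).1)
    (by rw [Sym2.eq_swap]; exact (x5 3 (by norm_num) (by norm_num)).1)
    (by rw [Sym2.eq_swap]; exact (x5 5 (by norm_num) (by norm_num)).1)
    (x5 10 (by norm_num) (by norm_num)).1
    (by rw [Sym2.eq_swap]; exact (x5 10 (by norm_num) (by norm_num)).2.1)
    (by rw [Sym2.eq_swap]; exact (x5 9 (by norm_num) (by norm_num)).1)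
    (x5 12 (by norm_num) (by norm_num)).2.1
    (by rw [Sym2.eq_swap]; exact (x5 12 (by norm_num) (by norm_num)).2.2)
    (by rw [Sym2.eq_swap]; exact (x5 11 (by norm_num) (by norm_num)).1)
    (x5 14 (by norm_num) (by norm_num)).2.1
    (by rw [Sym2.eq_swap]; exact (x5 14 (by norm_num) (by norm_num)).2.2)
    (by rw [Sym2.eq_swap]; exact (x5 13 (by norm_num) (by norm_num)).1)
    (x5 16 (by norm_num) (by norm_num)).2.1
    (by rw [Sym2.eq_swap]; exact (x5 16 (by norm_num) (by norm_num)).2.2)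
    (by rw [Sym2.eq_swap]; exact (x5 15 (by norm_num) (by norm_num)).2.1)
  have hF : hp (fun i : Fin 7 => x ((![2,1,4,3,6,5,7,8] : Fin 8 → ℕ) i.succ)) ⊆ E := by
    have : ∀ e ∈ hp (fun i : Fin 7 => x ((![2,1,4,3,6,5,7,8] : Fin 8 → ℕ) i.succ)), e ∈ E := by
      unfold hp hept
      simp only [mem_insert, mem_singleton, forall_eq_or_imp, forall_eq]
      refine ⟨?_, ?_, ?_, ?_, ?_, ?_, ?_⟩
      · exact (x5 4 (by norm_num) (by norm_num)).2.1
      · rw [Sym2.eq_swap]; exact (x5 4 (by norm_num) (by norm_num)).2.2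
      · exact (x5 6 (by norm_num) (by norm_num)).2.1
      · rw [Sym2.eq_swap]; exact (x5 6 (by norm_num) (by norm_num)).2.2
      · exact (x5 7 (by norm_num) (by norm_num)).2.1
      · exact (x5 8 (by norm_num) (by norm_num)).2.1
      · rw [Sym2.eq_swap]; exact (x5 8 (by norm_num) (by norm_num)).2.2
    exact this
  refine ⟨T, fun i : Fin 7 => x ((![2,1,4,3,6,5,7,8] : Fin 8 → ℕ) i.succ), (Ico 1 17).image x,
    fun i j h => Fin.succ_injective 7 (ha h), fun i => hxS _ (hia _).1 (hia _).2,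
    fun i => x2 _ (hia _).2, ?_, ?_, t1, t2, hF, ?_, ?_, ?_, t6, t7, t8, t9⟩
  · exact card_image_le.trans (by simp)
  · intro z hz
    obtain ⟨k, hk, rfl⟩ := mem_image.1 hz
    obtain ⟨h1, h2⟩ := mem_Ico.1 hk
    exact hxR k h1 h2
  · intro e he
    obtain ⟨z, hz, h | h⟩ := t3 e he
    · obtain ⟨i, rfl⟩ := h
      exact ⟨_, hz, hxS _ (hia _).1 (hia _).2⟩
    · obtain ⟨i, rfl⟩ := h
      exact ⟨_, hz, hxS _ (hit _).1 (hit _).2⟩
  · intro e he z hz
    rcases t5 e he z hz with ⟨i, rfl⟩ | ⟨i, rfl⟩ | ⟨i, rfl⟩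
    · exact Or.inl (hxS _ (hia _).1 (hia _).2)
    · exact Or.inl (hxS _ (hit _).1 (hit _).2)
    · exact Or.inr (hvR i)
  · intro e he z hz
    rcases t5 e he z hz with ⟨i, rfl⟩ | ⟨i, rfl⟩ | ⟨i, rfl⟩
    · exact Or.inl (hxS _ (hia _).1 (hia _).2)
    · exact Or.inl (hxS _ (hit _).1 (hit _).2)
    · exact Or.inr ⟨i, rfl⟩


theorem stage2 {E : Finset (Sym2 V)} (hE : NearK E (1 / 1000)) (hn : 0 < Fintype.card V)
    (R : Finset V) (hR : (R.card : ℝ) + 39 ≤ 1 / 50 * (Fintype.card V : ℝ)) (f f' : Fin 7 → V)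
    (hf : Function.Injective f) (hf' : Function.Injective f') (hff : ∀ i j, f i ≠ f' j)
    (hG : ∀ i, Gen E (f i)) (hG' : ∀ i, Gen E (f' i)) (hfR : ∀ i, f i ∈ R)
    (hfR' : ∀ i, f' i ∈ R) :
    ∃ T2 Dg T3 : Finset (Sym2 V), T2 ⊆ E ∧ Dg ⊆ E ∧ T3 ⊆ E ∧ T2.card ≤ 17 ∧ Dg.card ≤ 7 ∧
      T3.card ≤ 17 ∧ (∀ e ∈ T2, ∃ z ∈ e, z ∉ R) ∧ (∀ e ∈ Dg, ∃ z ∈ e, z ∉ R) ∧
      (∀ e ∈ T3, ∃ z ∈ e, z ∉ R) ∧ Disjoint T2 (hp f) ∧ Disjoint T2 Dg ∧ Disjoint T3 (hp f') ∧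
      Disjoint T3 Dg ∧ Disjoint T2 T3 ∧ Dec (T2 ∪ hp f) ∧ Dec (T2 ∪ Dg) ∧ Dec (T3 ∪ hp f') ∧
      Dec (T3 ∪ Dg) := by
  set y : ℕ → V := fun k => if h : k < 7 then f ⟨k, h⟩ else
    if h' : k - 7 < 7 then f' ⟨k - 7, h'⟩ else f 0 with hy
  have hy1 : ∀ k (h : k < 7), y k = f ⟨k, h⟩ := fun k h => by rw [hy]; exact dif_pos h
  have hy2 : ∀ k (h : ¬ k < 7) (h' : k - 7 < 7), y k = f' ⟨k - 7, h'⟩ := fun k h h' => by
    rw [hy]; simp only [h, h', dif_neg, dif_pos, not_false_eq_true]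
  have hyG : ∀ i < 14, Gen E (y i) := by
    intro i hi
    by_cases h : i < 7
    · rw [hy1 i h]; exact hG _
    · rw [hy2 i h (by omega)]; exact hG' _
  have hyi : ∀ i < 14, ∀ j < 14, y i = y j → i = j := by
    intro i hi j hj hij
    by_cases h : i < 7 <;> by_cases h' : j < 7
    · rw [hy1 i h, hy1 j h'] at hij
      have := congrArg Fin.val (hf hij)
      exact this
    · rw [hy1 i h, hy2 j h' (by omega)] at hij
      exact absurd hij (hff _ _)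
    · rw [hy2 i h (by omega), hy1 j h'] at hij
      exact absurd hij.symm (hff _ _)
    · rw [hy2 i h (by omega), hy2 j h' (by omega)] at hij
      have := congrArg Fin.val (hf' hij)
      simp only at this
      omega
  have hyR : ∀ i < 14, y i ∈ R := by
    intro i hi
    by_cases h : i < 7
    · rw [hy1 i h]; exact hfR _
    · rw [hy2 i h (by omega)]; exact hfR' _
  obtain ⟨x, x1, x2, x3, x4, x5⟩ := seq hE hn 14 y hyG hyi R hyR (fun _ => f 0)
    (fun k => ([0,0,0,0,0,0,0,0,0,0,0,0,0,0,2,4,6,14,15,16,19,6,13,2,6,4,14,6,15,14,16,9,13,11,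
      14,13,15,14,16] : List ℕ).getD k 0)
    (fun k => ([0,0,0,0,0,0,0,0,0,0,0,0,0,0,9,11,13,15,16,16,14,14,14,2,23,4,25,6,27,14,29,9,31,
      11,33,13,35,14,37] : List ℕ).getD k 0) 39 (by norm_num)
    (by intro k h1 h2; interval_cases k <;> decide) (by push_cast; exact hR)
  have hfx : (fun i : Fin 7 => x ((![0,1,2,3,4,5,6] : Fin 7 → ℕ) i)) = f := by
    funext i
    have hi : (![0,1,2,3,4,5,6] : Fin 7 → ℕ) i = (i : ℕ) := by revert i; decide
    rw [hi, x1 _ (by omega), hy1 _ i.2]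
  have hfx' : (fun i : Fin 7 => x ((![7,8,9,10,11,12,13] : Fin 7 → ℕ) i)) = f' := by
    funext i
    have hi : (![7,8,9,10,11,12,13] : Fin 7 → ℕ) i = (i : ℕ) + 7 := by revert i; decide
    rw [hi, x1 _ (by omega), hy2 _ (by omega) (by omega)]
    congr 1
  have inj : ∀ {m : ℕ} {u : Fin m → ℕ}, Function.Injective u → (∀ i, u i < 39) →
      Function.Injective fun i => x (u i) := fun hu hb i j h => hu (x4 _ (hb i) _ (hb j) h)
  have dne : ∀ {m m' : ℕ} {u : Fin m → ℕ} {w : Fin m' → ℕ}, (∀ i, u i < 39) → (∀ i, w i < 39) →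
      (∀ i j, u i ≠ w j) → ∀ i j, x (u i) ≠ x (w j) :=
    fun hu hw h i j e => h i j (x4 _ (hu i) _ (hw j) e)
  obtain ⟨T2, t1, t2, t3, t4, -, t6, t7, t8, t9⟩ := useSwap E
    (fun i : Fin 7 => x ((![0,1,2,3,4,5,6] : Fin 7 → ℕ) i))
    (fun i : Fin 8 => x ((![21,14,17,15,18,16,19,20] : Fin 8 → ℕ) i))
    (fun i : Fin 8 => x ((![24,23,26,25,28,27,30,29] : Fin 8 → ℕ) i))
    (inj (by decide) (by decide)) (inj (by decide) (by decide)) (inj (by decide) (by decide))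
    (dne (by decide) (by decide) (by decide)) (dne (by decide) (by decide) (by decide))
    (dne (by decide) (by decide) (by decide))
    (x5 21 (by norm_num) (by norm_num)).2.1
    (by rw [Sym2.eq_swap]; exact (x5 21 (by norm_num) (by norm_num)).2.2)
    (by rw [Sym2.eq_swap]; exact (x5 14 (by norm_num) (by norm_num)).2.1)
    (by rw [Sym2.eq_swap]; exact (x5 15 (by norm_num) (by norm_num)).2.1)
    (by rw [Sym2.eq_swap]; exact (x5 16 (by norm_num) (by norm_num)).2.1)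
    (x5 24 (by norm_num) (by norm_num)).2.1
    (by rw [Sym2.eq_swap]; exact (x5 24 (by norm_num) (by norm_num)).2.2)
    (by rw [Sym2.eq_swap]; exact (x5 23 (by norm_num) (by norm_num)).2.1)
    (x5 26 (by norm_num) (by norm_num)).2.1
    (by rw [Sym2.eq_swap]; exact (x5 26 (by norm_num) (by norm_num)).2.2)
    (by rw [Sym2.eq_swap]; exact (x5 25 (by norm_num) (by norm_num)).2.1)
    (x5 28 (by norm_num) (by norm_num)).2.1
    (by rw [Sym2.eq_swap]; exact (x5 28 (by norm_num) (by norm_num)).2.2)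
    (by rw [Sym2.eq_swap]; exact (x5 27 (by norm_num) (by norm_num)).2.1)
    (x5 30 (by norm_num) (by norm_num)).2.1
    (by rw [Sym2.eq_swap]; exact (x5 30 (by norm_num) (by norm_num)).2.2)
    (by rw [Sym2.eq_swap]; exact (x5 29 (by norm_num) (by norm_num)).2.1)
  obtain ⟨T3, u1, u2, u3, -, u5, u6, u7, u8, u9⟩ := useSwap E
    (fun i : Fin 7 => x ((![7,8,9,10,11,12,13] : Fin 7 → ℕ) i))
    (fun i : Fin 8 => x ((![22,14,17,15,18,16,19,20] : Fin 8 → ℕ) i))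
    (fun i : Fin 8 => x ((![32,31,34,33,36,35,38,37] : Fin 8 → ℕ) i))
    (inj (by decide) (by decide)) (inj (by decide) (by decide)) (inj (by decide) (by decide))
    (dne (by decide) (by decide) (by decide)) (dne (by decide) (by decide) (by decide))
    (dne (by decide) (by decide) (by decide))
    (x5 22 (by norm_num) (by norm_num)).2.1
    (by rw [Sym2.eq_swap]; exact (x5 22 (by norm_num) (by norm_num)).2.2)
    (by rw [Sym2.eq_swap]; exact (x5 14 (by norm_num) (by norm_num)).2.2)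
    (by rw [Sym2.eq_swap]; exact (x5 15 (by norm_num) (by norm_num)).2.2)
    (by rw [Sym2.eq_swap]; exact (x5 16 (by norm_num) (by norm_num)).2.2)
    (x5 32 (by norm_num) (by norm_num)).2.1
    (by rw [Sym2.eq_swap]; exact (x5 32 (by norm_num) (by norm_num)).2.2)
    (by rw [Sym2.eq_swap]; exact (x5 31 (by norm_num) (by norm_num)).2.1)
    (x5 34 (by norm_num) (by norm_num)).2.1
    (by rw [Sym2.eq_swap]; exact (x5 34 (by norm_num) (by norm_num)).2.2)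
    (by rw [Sym2.eq_swap]; exact (x5 33 (by norm_num) (by norm_num)).2.1)
    (x5 36 (by norm_num) (by norm_num)).2.1
    (by rw [Sym2.eq_swap]; exact (x5 36 (by norm_num) (by norm_num)).2.2)
    (by rw [Sym2.eq_swap]; exact (x5 35 (by norm_num) (by norm_num)).2.1)
    (x5 38 (by norm_num) (by norm_num)).2.1
    (by rw [Sym2.eq_swap]; exact (x5 38 (by norm_num) (by norm_num)).2.2)
    (by rw [Sym2.eq_swap]; exact (x5 37 (by norm_num) (by norm_num)).2.1)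
  rw [hfx] at t6 t8
  rw [hfx'] at u6 u8
  have hDgE : hp (fun i : Fin 7 => x ((![21,14,17,15,18,16,19,20] : Fin 8 → ℕ) i.succ)) ⊆ E := by
    have : ∀ e ∈ hp (fun i : Fin 7 => x ((![21,14,17,15,18,16,19,20] : Fin 8 → ℕ) i.succ)),
        e ∈ E := by
      unfold hp hept
      simp only [mem_insert, mem_singleton, forall_eq_or_imp, forall_eq]
      refine ⟨?_, ?_, ?_, ?_, ?_, ?_, ?_⟩
      · exact (x5 17 (by norm_num) (by norm_num)).2.1
      · rw [Sym2.eq_swap]; exact (x5 17 (by norm_num) (by norm_num)).2.2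
      · exact (x5 18 (by norm_num) (by norm_num)).2.1
      · rw [Sym2.eq_swap]; exact (x5 18 (by norm_num) (by norm_num)).2.2
      · exact (x5 19 (by norm_num) (by norm_num)).2.1
      · exact (x5 20 (by norm_num) (by norm_num)).2.1
      · rw [Sym2.eq_swap]; exact (x5 20 (by norm_num) (by norm_num)).2.2
    exact this
  have ba : ∀ i, 14 ≤ (![21,14,17,15,18,16,19,20] : Fin 8 → ℕ) i ∧
    (![21,14,17,15,18,16,19,20] : Fin 8 → ℕ) i < 39 := by decide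
  have bt : ∀ i, 14 ≤ (![24,23,26,25,28,27,30,29] : Fin 8 → ℕ) i ∧
    (![24,23,26,25,28,27,30,29] : Fin 8 → ℕ) i < 39 := by decide
  have ba' : ∀ i, 14 ≤ (![22,14,17,15,18,16,19,20] : Fin 8 → ℕ) i ∧
    (![22,14,17,15,18,16,19,20] : Fin 8 → ℕ) i < 39 := by decide
  have bt' : ∀ i, 14 ≤ (![32,31,34,33,36,35,38,37] : Fin 8 → ℕ) i ∧
    (![32,31,34,33,36,35,38,37] : Fin 8 → ℕ) i < 39 := by decide
  refine ⟨T2, hp (fun i : Fin 7 => x ((![21,14,17,15,18,16,19,20] : Fin 8 → ℕ) i.succ)), T3,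
    t1, hDgE, u1, t2, hp_card _, u2, ?_, ?_, ?_, t6, t7, u6, u7, ?_, t8, t9, u8, u9⟩
  · intro e he
    obtain ⟨z, hz, ⟨i, rfl⟩ | ⟨i, rfl⟩⟩ := t3 e he
    · exact ⟨_, hz, x3 _ (ba i).1 (ba i).2⟩
    · exact ⟨_, hz, x3 _ (bt i).1 (bt i).2⟩
  · exact hp_ex (P := fun z => z ∉ R) fun i => x3 _ (ba _).1 (ba _).2
  · intro e he
    obtain ⟨z, hz, ⟨i, rfl⟩ | ⟨i, rfl⟩⟩ := u3 e he
    · exact ⟨_, hz, x3 _ (ba' i).1 (ba' i).2⟩
    · exact ⟨_, hz, x3 _ (bt' i).1 (bt' i).2⟩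
  · apply dj (fun z => ∃ k ∈ ({0,1,2,3,4,5,6,21,23,24,25,26,27,28,29,30} : Finset ℕ), z = x k)
    · intro e he
      obtain ⟨z, hz, rfl | ⟨i, rfl⟩ | ⟨i, rfl⟩⟩ := t4 e he
      · exact ⟨_, hz, 21, by decide, rfl⟩
      · have : ∀ i, (![24,23,26,25,28,27,30,29] : Fin 8 → ℕ) i ∈
          ({0,1,2,3,4,5,6,21,23,24,25,26,27,28,29,30} : Finset ℕ) := by decide
        exact ⟨_, hz, _, this i, rfl⟩
      · have : ∀ i, (![0,1,2,3,4,5,6] : Fin 7 → ℕ) i ∈
          ({0,1,2,3,4,5,6,21,23,24,25,26,27,28,29,30} : Finset ℕ) := by decide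
        exact ⟨_, hz, _, this i, rfl⟩
    · intro e he z hz
      rintro ⟨k, hk, rfl⟩
      have hk39 : k < 39 := by
        have : ∀ k ∈ ({0,1,2,3,4,5,6,21,23,24,25,26,27,28,29,30} : Finset ℕ), k < 39 := by decide
        exact this k hk
      rcases u5 e he _ hz with ⟨i, hi⟩ | ⟨i, hi⟩ | ⟨i, hi⟩
      · have h1 := x4 _ hk39 _ (ba' i).2 hi
        have : ∀ i, (![22,14,17,15,18,16,19,20] : Fin 8 → ℕ) i ∉
          ({0,1,2,3,4,5,6,21,23,24,25,26,27,28,29,30} : Finset ℕ) := by decide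
        exact this i (h1 ▸ hk)
      · have h1 := x4 _ hk39 _ (bt' i).2 hi
        have : ∀ i, (![32,31,34,33,36,35,38,37] : Fin 8 → ℕ) i ∉
          ({0,1,2,3,4,5,6,21,23,24,25,26,27,28,29,30} : Finset ℕ) := by decide
        exact this i (h1 ▸ hk)
      · have hb : ∀ i, (![7,8,9,10,11,12,13] : Fin 7 → ℕ) i < 39 := by decide
        have h1 := x4 _ hk39 _ (hb i) hi
        have : ∀ i, (![7,8,9,10,11,12,13] : Fin 7 → ℕ) i ∉
          ({0,1,2,3,4,5,6,21,23,24,25,26,27,28,29,30} : Finset ℕ) := by decide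
        exact this i (h1 ▸ hk)

theorem hp_sub {v : Fin 7 → V} {R : Finset V} (h : hp v ⊆ R.sym2) : ∀ i, v i ∈ R := by
  have h' : ∀ e ∈ hp v, e ∈ R.sym2 := h
  unfold hp hept at h'
  simp only [mem_insert, mem_singleton, forall_eq_or_imp, forall_eq, mk_mem_sym2_iff] at h'
  obtain ⟨⟨h0, _⟩, ⟨h1, _⟩, ⟨h2, _⟩, ⟨h3, _⟩, ⟨h4, _⟩, ⟨h5, _⟩, ⟨h6, _⟩⟩ := h'
  intro i
  fin_cases i <;> assumption

theorem isHept_iff {D : Finset (Sym2 V)} (h : IsHept D) :
    ∃ v : Fin 7 → V, Function.Injective v ∧ D = hp v := by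
  obtain ⟨a, b, c, d, e, f, g, hn, rfl⟩ := h
  refine ⟨![a, b, c, d, e, f, g], ?_, rfl⟩
  rw [← List.nodup_ofFn]
  simpa using hn

theorem notMem_sym2 {R : Finset V} {e : Sym2 V} (h : ∃ z ∈ e, z ∉ R) : e ∉ R.sym2 := by
  obtain ⟨z, hz, hR⟩ := h
  intro he
  exact hR (mem_sym2_iff.1 he z hz)

end G

end SevenNAux

/-- TARGET -/
theorem sevenN : S_sevenN := by
  refine ⟨1 / 1000, by norm_num, 200, 10000, ?_⟩
  intro V _ _ E hL hn hE R hR D D' hD hD' hDE hDE' hDR hDR' hDD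
  have hn' : (10000 : ℝ) ≤ (Fintype.card V : ℝ) := by exact_mod_cast hn
  have hn0 : 0 < Fintype.card V := by omega
  have hR' : (R.card : ℝ) ≤ 1 / 1000 * (Fintype.card V : ℝ) :=
    (Nat.cast_le.2 hR).trans (Nat.floor_le (by positivity))
  obtain ⟨v, hv, rfl⟩ := SevenNAux.isHept_iff hD
  obtain ⟨v', hv', rfl⟩ := SevenNAux.isHept_iff hD'
  have hvR := SevenNAux.hp_sub hDR
  have hvR' := SevenNAux.hp_sub hDR'
  obtain ⟨T1, f, S, a1, a2, a3, a4, a5, a6, a7, a8, a9, a10, -, a12, a13, a14, a15⟩ :=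
    SevenNAux.stage1 hE hn0 R (by linarith) v hv hvR
  have hRS : ((R ∪ S).card : ℝ) ≤ (R.card : ℝ) + 16 := by
    have : (R ∪ S).card ≤ R.card + 16 := (card_union_le _ _).trans (Nat.add_le_add_left a4 _)
    exact_mod_cast this
  obtain ⟨T1', f', S', b1, b2, b3, b4, b5, b6, b7, b8, b9, b10, -, b12, b13, b14, b15⟩ :=
    SevenNAux.stage1 hE hn0 (R ∪ S) (by linarith) v' hv' fun i => mem_union_left _ (hvR' i)
  have hRSS : ((R ∪ S ∪ S').card : ℝ) ≤ (R.card : ℝ) + 32 := by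
    have h1 : (R ∪ S ∪ S').card ≤ (R ∪ S).card + 16 :=
      (card_union_le _ _).trans (Nat.add_le_add_left b4 _)
    have h2 : ((R ∪ S ∪ S').card : ℝ) ≤ ((R ∪ S).card : ℝ) + 16 := by exact_mod_cast h1
    linarith
  obtain ⟨T2, Dg, T3, c1, c2, c3, c4, c5, c6, c7, c8, c9, c10, c11, c12, c13, c14, c15, c16, c17,
      c18⟩ := SevenNAux.stage2 hE hn0 (R ∪ S ∪ S') (by linarith) f f' a1 b1
    (fun i j h => b5 _ (b2 j) (mem_union_right _ (h ▸ a2 i))) a3 b3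
    (fun i => mem_union_left _ (mem_union_right _ (a2 i))) fun i => mem_union_right _ (b2 i)
  -- touching facts
  have tR : ∀ A : Finset (Sym2 V), (∀ e ∈ A, ∃ z ∈ e, z ∉ R ∪ S ∪ S') →
      ∀ e ∈ A, ∃ z ∈ e, z ∉ R := fun A h e he => by
    obtain ⟨z, hz, h2⟩ := h e he
    exact ⟨z, hz, fun h => h2 (mem_union_left _ (mem_union_left _ h))⟩
  have k1 : ∀ e ∈ T1, ∃ z ∈ e, z ∉ R := fun e he => by
    obtain ⟨z, hz, h⟩ := a9 e he
    exact ⟨z, hz, a5 z h⟩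
  have k2 : ∀ e ∈ SevenNAux.hp f, ∃ z ∈ e, z ∉ R :=
    SevenNAux.hp_ex (P := fun z => z ∉ R) fun i => a5 _ (a2 i)
  have k3' : ∀ e ∈ T1', ∃ z ∈ e, z ∉ R ∪ S := fun e he => by
    obtain ⟨z, hz, h⟩ := b9 e he
    exact ⟨z, hz, b5 z h⟩
  have k4' : ∀ e ∈ SevenNAux.hp f', ∃ z ∈ e, z ∉ R ∪ S :=
    SevenNAux.hp_ex (P := fun z => z ∉ R ∪ S) fun i => b5 _ (b2 i)
  have k3 : ∀ e ∈ T1', ∃ z ∈ e, z ∉ R := fun e he => by
    obtain ⟨z, hz, h⟩ := k3' e he
    exact ⟨z, hz, fun h' => h (mem_union_left _ h')⟩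
  have k4 : ∀ e ∈ SevenNAux.hp f', ∃ z ∈ e, z ∉ R := fun e he => by
    obtain ⟨z, hz, h⟩ := k4' e he
    exact ⟨z, hz, fun h' => h (mem_union_left _ h')⟩
  have k5 := tR T2 c7
  have k6 := tR Dg c8
  have k7 := tR T3 c9
  -- inside facts
  have i1 : ∀ e ∈ T1, ∀ z ∈ e, z ∈ R ∪ S := fun e he z hz => by
    rcases a10 e he z hz with h | h
    · exact mem_union_right _ h
    · exact mem_union_left _ h
  have i2 : ∀ e ∈ SevenNAux.hp f, ∀ z ∈ e, z ∈ R ∪ S :=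
    SevenNAux.hp_all (P := fun z => z ∈ R ∪ S) fun i => mem_union_right _ (a2 i)
  have i1' : ∀ e ∈ T1, ∀ z ∈ e, z ∈ R ∪ S ∪ S' := fun e he z hz => mem_union_left _ (i1 e he z hz)
  have i2' : ∀ e ∈ SevenNAux.hp f, ∀ z ∈ e, z ∈ R ∪ S ∪ S' := fun e he z hz =>
    mem_union_left _ (i2 e he z hz)
  have i3 : ∀ e ∈ T1', ∀ z ∈ e, z ∈ R ∪ S ∪ S' := fun e he z hz => by
    rcases b10 e he z hz with h | h
    · exact mem_union_right _ h
    · exact mem_union_left _ h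
  have i4 : ∀ e ∈ SevenNAux.hp f', ∀ z ∈ e, z ∈ R ∪ S ∪ S' :=
    SevenNAux.hp_all (P := fun z => z ∈ R ∪ S ∪ S') fun i => mem_union_right _ (b2 i)
  have i5 : ∀ e ∈ SevenNAux.hp v, ∀ z ∈ e, z ∈ R := SevenNAux.hp_all (P := fun z => z ∈ R) hvR
  have i6 : ∀ e ∈ SevenNAux.hp v', ∀ z ∈ e, z ∈ R := SevenNAux.hp_all (P := fun z => z ∈ R) hvR'
  have dd : ∀ (X : Finset V) (A B : Finset (Sym2 V)), (∀ e ∈ A, ∃ z ∈ e, z ∉ X) →
      (∀ e ∈ B, ∀ z ∈ e, z ∈ X) → Disjoint A B := fun X A B hA hB =>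
    SevenNAux.dj (fun z => z ∉ X) hA fun e he z hz h => h (hB e he z hz)
  have e1 := dd _ _ _ k1 i5
  have e2 := dd _ _ _ k2 i5
  have e3 := dd _ _ _ k3 i5
  have e4 := dd _ _ _ k4 i5
  have e5 := dd _ _ _ k5 i5
  have e6 := dd _ _ _ k6 i5
  have e7 := dd _ _ _ k7 i5
  have f1 := dd _ _ _ k1 i6
  have f2 := dd _ _ _ k2 i6
  have f3 := dd _ _ _ k3 i6
  have f4 := dd _ _ _ k4 i6
  have f5 := dd _ _ _ k5 i6
  have f6 := dd _ _ _ k6 i6
  have f7 := dd _ _ _ k7 i6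
  have g1 := dd _ _ _ k3' i1
  have g2 := dd _ _ _ k3' i2
  have g3 := dd _ _ _ k4' i1
  have g4 := dd _ _ _ k4' i2
  have l1 := dd _ _ _ c7 i1'
  have l2 := dd _ _ _ c7 i2'
  have l3 := dd _ _ _ c7 i3
  have l4 := dd _ _ _ c7 i4
  have m1 := dd _ _ _ c8 i1'
  have m2 := dd _ _ _ c8 i2'
  have m3 := dd _ _ _ c8 i3
  have m4 := dd _ _ _ c8 i4
  have n1 := dd _ _ _ c9 i1'
  have n2 := dd _ _ _ c9 i2'
  have n3 := dd _ _ _ c9 i3
  have n4 := dd _ _ _ c9 i4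
  set F := SevenNAux.hp f with hF
  set F' := SevenNAux.hp f' with hF'
  set DD := SevenNAux.hp v with hDv
  set DD' := SevenNAux.hp v' with hDv'
  have p7 : F.card ≤ 7 := SevenNAux.hp_card f
  have p8 : F'.card ≤ 7 := SevenNAux.hp_card f'
  clear_value F F' DD DD'
  refine ⟨T1 ∪ (F ∪ (T2 ∪ (Dg ∪ (T3 ∪ (F' ∪ T1'))))), ?_, ?_, ?_, ?_, ?_⟩
  · exact union_subset a6 (union_subset a8 (union_subset c1 (union_subset c2
      (union_subset c3 (union_subset b8 b6)))))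
  · intro e he
    apply SevenNAux.notMem_sym2
    simp only [mem_union] at he
    rcases he with h | h | h | h | h | h | h
    · exact k1 e h
    · exact k2 e h
    · exact k5 e h
    · exact k6 e h
    · exact k7 e h
    · exact k4 e h
    · exact k3 e h
  · have p1 := card_union_le T1 (F ∪ (T2 ∪ (Dg ∪ (T3 ∪ (F' ∪ T1')))))
    have p2 := card_union_le F (T2 ∪ (Dg ∪ (T3 ∪ (F' ∪ T1'))))
    have p3 := card_union_le T2 (Dg ∪ (T3 ∪ (F' ∪ T1')))
    have p4 := card_union_le Dg (T3 ∪ (F' ∪ T1'))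
    have p5 := card_union_le T3 (F' ∪ T1')
    have p6 := card_union_le F' T1'
    omega
  · have heq : T1 ∪ (F ∪ (T2 ∪ (Dg ∪ (T3 ∪ (F' ∪ T1'))))) ∪ DD =
        (T1 ∪ DD) ∪ ((T2 ∪ F) ∪ ((T3 ∪ Dg) ∪ (T1' ∪ F'))) := by
      ext e
      simp only [mem_union]
      tauto
    rw [heq]
    refine a14.union (c15.union (c18.union b15 ?_) ?_) ?_
    all_goals
      simp only [disjoint_union_left, disjoint_union_right]
      repeat' apply And.intro
      all_goals first | assumption | (apply Disjoint.symm; assumption)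
  · have heq : T1 ∪ (F ∪ (T2 ∪ (Dg ∪ (T3 ∪ (F' ∪ T1'))))) ∪ DD' =
        (T1 ∪ F) ∪ ((T2 ∪ Dg) ∪ ((T3 ∪ F') ∪ (T1' ∪ DD'))) := by
      ext e
      simp only [mem_union]
      tauto
    rw [heq]
    refine a15.union (c16.union (c17.union b14 ?_) ?_) ?_
    all_goals
      simp only [disjoint_union_left, disjoint_union_right]
      repeat' apply And.intro
      all_goals first | assumption | (apply Disjoint.symm; assumption)

end Pool.Agent.H483C6
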