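import Pool.Agent.H483C6.SQ6

/-!
# Section 9: `S_split → S_sevenQ` (MP_1bffa4_co), helper168
-/

set_option autoImplicit false
set_option linter.unusedSectionVars false
set_option linter.unusedVariables false
set_option linter.unusedSimpArgs false

namespace Pool.Agent.H483C6

open Finset

namespace SQ

section I

variable {V : Type} [Fintype V] [DecidableEq V]

theorem Goal.symmW {E : Finset (Sym2 V)} {s : ℝ} {c m : ℕ} {D' : Finset (Sym2 V)} {z y : V}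
    (h : Goal E s c m D' (Wd z y)) : Goal E s c m D' (Wd y z) :=
  fun R hR hD' D hW hDE hDR => h R hR hD' D (Wd.symm hW) hDE hDR

theorem fin_core {E : Finset (Sym2 V)} {γ : ℝ} (h : Hyp E γ) {K : ℕ} (hK : 6 / γ + 1 ≤ K)
    {x x2 u x2' x' y0 y0' : V}
    (gx : GoodV E (γ ^ 4 / 10 ^ 4) (γ ^ 4 / 10 ^ 5) x)
    (gx2 : GoodV E (γ ^ 4 / 10 ^ 4) (γ ^ 4 / 10 ^ 5) x2)
    (gu : GoodV E (γ ^ 4 / 10 ^ 4) (γ ^ 4 / 10 ^ 5) u)
    (gx2' : GoodV E (γ ^ 4 / 10 ^ 4) (γ ^ 4 / 10 ^ 5) x2')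
    (gx' : GoodV E (γ ^ 4 / 10 ^ 4) (γ ^ 4 / 10 ^ 5) x')
    (b0 : y0 ∈ Bn E (γ ^ 4 / 10 ^ 4) x) (b1 : x2 ∈ Bn E (γ ^ 4 / 10 ^ 4) x)
    (b2 : u ∈ Bn E (γ ^ 4 / 10 ^ 4) x2') (b3 : x2' ∈ Bn E (γ ^ 4 / 10 ^ 4) x')
    (b4 : y0' ∈ Bn E (γ ^ 4 / 10 ^ 4) x')
    (hxu : s(x2, u) ∉ E) (hne : x2 ≠ u) {R : Finset V} (hxR : x2 ∉ R) (huR : u ∉ R)
    (hR : (R.card : ℝ) + (15 + 2 * (5 + 24 * K) + 24 * K + 6 : ℕ) ≤
      γ ^ 4 / 10 ^ 5 * (Fintype.card V : ℝ))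
    {D D' : Finset (Sym2 V)} (hDR : D ⊆ R.sym2) (hD'R : D' ⊆ R.sym2) (hDE : D ⊆ E)
    (hW : Wd x y0 D) (hW' : Wd x' y0' D') :
    Tr E R.sym2 (29 + 60 * K) D D' := by
  have hK0 : (0 : ℝ) ≤ K := Nat.cast_nonneg _
  push_cast at hR
  obtain ⟨D1, D2, T, w1, w2, R3, a1, a2, a3, a4, a5, a6, a7, a8, a9, a10, a11, a12, a13, a14,
    a15, a16, a17, a18, a19, a20, a21⟩ := link h hxu hne hxR huR (by linarith)
  have a18' : (R3.card : ℝ) ≤ R.card + 15 := by exact_mod_cast a18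
  -- D → D1
  have g1 := goal_base h a5 a4
  have g2 := (good_move h gx2 (mem_Bn_symm b1) a5 hK g1).symmW
  have g3 := good_move h gx b0 b1 hK g2
  obtain ⟨TA, t1, t2, t3, t4, t5⟩ := g3 R3 (by push_cast; linarith) a19 D hW hDE
    (hDR.trans (sym2_mono a17))
  -- D2 → D'
  have f1 := goal_base h b4 hW'
  have f2 := (good_move h gx' b3 b4 hK f1).symmW
  have f3 := (good_move h gx2' b2 (mem_Bn_symm b3) hK f2).symmW
  have f4 := good_move h gu a7 (mem_Bn_symm b2) hK f3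
  set R4 : Finset V := R3 ∪ vt TA with hR4
  have hR34 : R3 ⊆ R4 := subset_union_left
  have hR4c : (R4.card : ℝ) ≤ R3.card + 2 * (5 + 24 * K) := by
    have i1 := card_union_le R3 (vt TA)
    have i2 := card_vt TA
    rw [← hR4] at i1
    have i3 : R4.card ≤ R3.card + 2 * (5 + 24 * K) := by omega
    exact_mod_cast i3
  have hTA4 : TA ⊆ R4.sym2 := (subset_vt TA).trans (sym2_mono subset_union_right)
  have hRR4 : R ⊆ R4 := a17.trans hR34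
  have main2 := f4 R4 (by push_cast; linarith) (hD'R.trans (sym2_mono hRR4)) D2 a6 a2
    (a20.trans (sym2_mono hR34))
  -- middle
  have hR3s : R.sym2 ⊆ R3.sym2 := sym2_mono a17
  have hR34s : R3.sym2 ⊆ R4.sym2 := sym2_mono hR34
  have mid : Tr E (R.sym2 ∪ D1 ∪ TA) (T.card + D2.card + (5 + 12 * K + 12 * K + 12 * K)) D1 D' := by
    refine Tr.trans (F := R.sym2 ∪ D1 ∪ TA) (M := D2) (T1 := T) ?_ ?_ a2 ?_ a3 ?_ a13 a15 a16 ?_
    · exact subset_union_right.trans subset_union_left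
    · exact (hD'R.trans subset_union_left).trans subset_union_left
    · rw [disjoint_union_right, disjoint_union_right]
      exact ⟨⟨a9, a11.symm⟩, (t2.mono_right a20).symm⟩
    · rw [disjoint_union_right, disjoint_union_right]
      exact ⟨⟨a10, a12⟩, (t2.mono_right a21).symm⟩
    · refine main2.mono ?_ le_rfl
      refine union_subset (union_subset (union_subset (union_subset ?_ ?_) hTA4) ?_) ?_
      · exact hR3s.trans hR34s
      · exact a19.trans hR34s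
      · exact a20.trans hR34s
      · exact a21.trans hR34s
  have fin := Tr.trans (F := R.sym2) (M := D1) (T1 := TA) hDR hD'R a1 a8 t1
    (t2.mono_right hR3s) (t2.mono_right a19) t4 t5 mid
  refine fin.mono Subset.rfl ?_
  have c1 := Wd.card_le a4
  have c2 := Wd.card_le a6
  omega

theorem fin_goal {E : Finset (Sym2 V)} {γ : ℝ} (h : Hyp E γ) (hS : SplitH E γ) {K : ℕ}
    (hK : 6 / γ + 1 ≤ K) {x x' y0 y0' : V}
    (gx : GoodV E (γ ^ 4 / 10 ^ 4) (γ ^ 4 / 10 ^ 5) x)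
    (gx' : GoodV E (γ ^ 4 / 10 ^ 4) (γ ^ 4 / 10 ^ 5) x')
    (b0 : y0 ∈ Bn E (γ ^ 4 / 10 ^ 4) x) (b0' : y0' ∈ Bn E (γ ^ 4 / 10 ^ 4) x')
    {D' : Finset (Sym2 V)} (hW' : Wd x' y0' D') (hDE' : D' ⊆ E) :
    Goal E (γ ^ 4 / 10 ^ 5 * (Fintype.card V : ℝ)) (29 + 60 * K) (31 + 72 * K) D'
      (Wd x y0) := by
  intro R hR hD'R D hW hDE hDR
  have hK0 : (0 : ℝ) ≤ K := Nat.cast_nonneg _
  have hR' := hR
  push_cast at hR'
  have k1 := h.c1
  have k2 := h.c2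
  have k3 := h.c3
  have k4 := h.big
  obtain ⟨x2, hx2R, b1, gx2⟩ := lemG h hS x R (by linarith)
  obtain ⟨x2', hx2'R, b1', gx2'⟩ := lemG h hS x' (insert x2 R) (by
    have : ((insert x2 R).card : ℝ) ≤ R.card + 1 := by exact_mod_cast card_insert_le x2 R
    linarith)
  rw [mem_insert, not_or] at hx2'R
  obtain ⟨hx22, hx2'R⟩ := hx2'R
  have f1 := goal_base h b0' hW'
  have f2 := (good_move h gx' b1' b0' hK f1).symmW
  rcases Bn_or_On E (γ ^ 4 / 10 ^ 4) hx22 with hA | hA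
  · -- case A
    have f3 := (good_move h gx2' (mem_Bn_symm hA) (mem_Bn_symm b1') hK f2).symmW
    have f4 := (good_move h gx2 (mem_Bn_symm b1) hA hK f3).symmW
    have f5 := good_move h gx b0 b1 hK f4
    refine (f5 R ?_ hD'R D hW hDE hDR).mono Subset.rfl (by omega)
    push_cast
    linarith
  by_cases hB : ∃ w, GoodV E (γ ^ 4 / 10 ^ 4) (γ ^ 4 / 10 ^ 5) w ∧
      w ∈ Bn E (γ ^ 4 / 10 ^ 4) x2 ∧ w ∈ Bn E (γ ^ 4 / 10 ^ 4) x2'
  · obtain ⟨w, gw, w1, w2⟩ := hB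
    have f3 := (good_move h gx2' w2 (mem_Bn_symm b1') hK f2).symmW
    have f4 := (good_move h gw (mem_Bn_symm w1) (mem_Bn_symm w2) hK f3).symmW
    have f5 := (good_move h gx2 (mem_Bn_symm b1) w1 hK f4).symmW
    have f6 := good_move h gx b0 b1 hK f5
    refine (f6 R ?_ hD'R D hW hDE hDR).mono Subset.rfl (by omega)
    push_cast
    linarith
  obtain ⟨w, w1, w2⟩ := exW h hA
  have gw : ¬ GoodV E (γ ^ 4 / 10 ^ 4) (γ ^ 4 / 10 ^ 5) w := fun hh => hB ⟨w, hh, w1, w2⟩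
  obtain ⟨R', C0, C1, T0, s1, s2, s3, s4, s5, s6, s7, s8, s9, s10, s11, s12, s13, s14, s15⟩ :=
    hS w gw
  have hC1c : γ / 2 * (Fintype.card V : ℝ) ≤ (C1.card : ℝ) := by
    obtain ⟨v, hv⟩ := s4
    have e1 := s7 v hv
    have e2 : ((nb E v ∩ C1).card : ℝ) ≤ (C1.card : ℝ) := by
      exact_mod_cast card_le_card inter_subset_right
    linarith
  obtain ⟨u0, hu0, hu0n⟩ := fresh (S := C1) (R := {x2, x2'}) (by
    have : ((({x2, x2'} : Finset V).card : ℕ) : ℝ) ≤ 2 := by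
      exact_mod_cast (card_le_two : ({x2, x2'} : Finset V).card ≤ 2)
    linarith)
  simp only [mem_insert, mem_singleton, not_or] at hu0n
  have hcase : u0 ∈ On E (γ ^ 4 / 10 ^ 4) x2 ∨ u0 ∈ On E (γ ^ 4 / 10 ^ 4) x2' := by
    rcases Bn_or_On E (γ ^ 4 / 10 ^ 4) hu0n.1 with h1 | h1
    · rcases Bn_or_On E (γ ^ 4 / 10 ^ 4) hu0n.2 with h2 | h2
      · exact absurd ⟨u0, s14 u0 hu0, h1, h2⟩ hB
      · exact Or.inr h2
    · exact Or.inl h1
  have hRbig : (R.card : ℝ) + (15 + 2 * (5 + 24 * K) + 24 * K + 6 : ℕ) ≤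
      γ ^ 4 / 10 ^ 5 * (Fintype.card V : ℝ) := by
    push_cast
    linarith
  rcases hcase with hc | hc
  · obtain ⟨u, huC, huR, hux, hxu, huB⟩ := lemC h hA s7 s8 s9 hu0 hc R (by linarith)
    exact fin_core h hK gx gx2 (s14 u huC) gx2' gx' b0 b1 huB b1' b0' hxu hux.symm hx2R huR
      hRbig hDR hD'R hDE hW hW'
  · obtain ⟨u, huC, huR, hux, hxu, huB⟩ := lemC h (mem_On_symm hA) s7 s8 s9 hu0 hc R
      (by linarith)
    exact (fin_core h hK gx' gx2' (s14 u huC) gx2 gx b0' b1' huB b1 b0 hxu hux.symm hx2'R huR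
      hRbig hD'R hDR hDE' hW' hW).symm

theorem hept_goal {E : Finset (Sym2 V)} {γ : ℝ} (h : Hyp E γ) (hS : SplitH E γ) {K : ℕ}
    (hK : 6 / γ + 1 ≤ K) {D' : Finset (Sym2 V)} (hD' : IsHept D') (hDE' : D' ⊆ E) :
    Goal E (γ ^ 4 / 10 ^ 5 * (Fintype.card V : ℝ)) (29 + 60 * K + 60 + 60)
      (31 + 72 * K + 50 + 50) D' IsHept := by
  refine cl h hS ?_
  intro x gx y hy R hR hD'R M hM hME hMR
  have h1 : Goal E (γ ^ 4 / 10 ^ 5 * (Fintype.card V : ℝ)) (29 + 60 * K + 60)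
      (31 + 72 * K + 50) M IsHept := by
    refine cl h hS ?_
    intro x' gx' y' hy'
    exact fin_goal h hS hK gx' gx hy' hy hM hME
  exact (h1 R hR hMR D' hD' hDE' hD'R).symm

end I

end SQ

theorem sevenQ_of_split (hsplit : S_split) : S_sevenQ := by
  intro γ hγ
  obtain ⟨n1, hn1⟩ := hsplit γ hγ
  obtain ⟨K, hK⟩ := exists_nat_ge (6 / γ + 1)
  have hρ : (0 : ℝ) < γ ^ 4 / 10 ^ 5 := by positivity
  obtain ⟨n2, hn2⟩ := exists_nat_ge (10000 / (γ ^ 4 / 10 ^ 5))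
  obtain ⟨n3, hn3⟩ := exists_nat_ge (2 * ((31 + 72 * K + 50 + 50 : ℕ) : ℝ) / (γ ^ 4 / 10 ^ 5))
  refine ⟨γ ^ 4 / 10 ^ 5 / 2, by positivity, 29 + 60 * K + 60 + 60, n1 + n2 + n3 + 1, ?_⟩
  intro V _ _ E hE hn hQ hdeg R hR D D' hD hD' hDE hD'E hDR hD'R hdis
  have hnr : ((n1 : ℝ) + n2 + n3 + 1) ≤ (Fintype.card V : ℝ) := by exact_mod_cast hn
  have p1 : (0 : ℝ) ≤ n1 := Nat.cast_nonneg _
  have p2 : (0 : ℝ) ≤ n2 := Nat.cast_nonneg _
  have p3 : (0 : ℝ) ≤ n3 := Nat.cast_nonneg _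
  have hbig : 10000 ≤ γ ^ 4 / 10 ^ 5 * (Fintype.card V : ℝ) := by
    rw [div_le_iff₀ hρ] at hn2
    have : (n2 : ℝ) * (γ ^ 4 / 10 ^ 5) ≤ (Fintype.card V : ℝ) * (γ ^ 4 / 10 ^ 5) :=
      mul_le_mul_of_nonneg_right (by linarith) hρ.le
    linarith
  have hM : 2 * ((31 + 72 * K + 50 + 50 : ℕ) : ℝ) ≤ γ ^ 4 / 10 ^ 5 * (Fintype.card V : ℝ) := by
    rw [div_le_iff₀ hρ] at hn3
    have : (n3 : ℝ) * (γ ^ 4 / 10 ^ 5) ≤ (Fintype.card V : ℝ) * (γ ^ 4 / 10 ^ 5) :=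
      mul_le_mul_of_nonneg_right (by linarith) hρ.le
    linarith
  have hγ1 : γ ≤ 1 := by
    have hpos : (0 : ℝ) < (Fintype.card V : ℝ) := by linarith
    have hne : Nonempty V := by
      have : 0 < Fintype.card V := by exact_mod_cast hpos
      exact Fintype.card_pos_iff.1 this
    obtain ⟨v⟩ := hne
    have h1 := hQ v v
    have h2 : (((nb E v).filter fun a =>
      γ * (Fintype.card V : ℝ) ≤ (cod E a v : ℝ)).card : ℝ) ≤ (Fintype.card V : ℝ) := by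
      exact_mod_cast card_le_univ _
    by_contra hc
    push Not at hc
    nlinarith
  have hyp : SQ.Hyp E γ := ⟨hγ, hγ1, hbig, hE, hQ, hdeg⟩
  have hS : SQ.SplitH E γ := fun z hz => hn1 V E hE (by omega) hQ hdeg z hz
  have hg := SQ.hept_goal hyp hS hK hD' hD'E
  have hRc : (R.card : ℝ) ≤ γ ^ 4 / 10 ^ 5 / 2 * (Fintype.card V : ℝ) := by
    have h1 : (0 : ℝ) ≤ γ ^ 4 / 10 ^ 5 / 2 * (Fintype.card V : ℝ) := by positivity
    exact (Nat.le_floor_iff h1).1 hR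
  obtain ⟨T, t1, t2, t3, t4, t5⟩ := hg R (by linarith) hD'R D hD hDE hDR
  exact ⟨T, t1, fun e he => disjoint_left.1 t2 he, t3, t4, t5⟩

end Pool.Agent.H483C6
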