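import Pool.Agent.H483C6.Basic
import Pool.Agent.H483C6.Stmts3

/-!
# Section 9: structure around a vertex that is not good (MP_1bffa4_co, project of helper483)
-/

set_option autoImplicit false
set_option linter.unusedSectionVars false
set_option linter.unusedVariables false

namespace Pool.Agent.H483C6

namespace Split

open Finset

section Conn

variable {V : Type} [Fintype V] [DecidableEq V] {E : Finset (Sym2 V)}

theorem conn_refl {X : Finset V} (y : V) : Conn E X y y := Relation.ReflTransGen.refl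

theorem conn_trans {X : Finset V} {a b c : V} (h : Conn E X a b) (h' : Conn E X b c) :
    Conn E X a c := Relation.ReflTransGen.trans h h'

theorem conn_step {X : Finset V} {a b : V} (h : s(a, b) ∈ E) (hb : b ∈ X) : Conn E X a b :=
  Relation.ReflTransGen.single ⟨h, hb⟩

theorem conn_mem {X : Finset V} {y y' : V} (hy : y ∈ X) (h : Conn E X y y') : y' ∈ X := by
  induction h with
  | refl => exact hy
  | tail _ h2 _ => exact h2.2

theorem conn_symm {X : Finset V} {y y' : V} (hy : y ∈ X) (h : Conn E X y y') :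
    Conn E X y' y := by
  induction h with
  | refl => exact conn_refl _
  | @tail b c h1 h2 ih =>
    have hb : b ∈ X := conn_mem hy h1
    have : s(c, b) ∈ E := by rw [Sym2.eq_swap]; exact h2.1
    exact conn_trans (conn_step this hb) ih

/-- connectivity from a hub -/
theorem conn_all {X : Finset V} (T : V → Prop)
    (h1 : ∀ y ∈ X, ∃ t ∈ X, T t ∧ Conn E X y t)
    (h2 : ∀ t ∈ X, T t → ∀ t' ∈ X, T t' → Conn E X t t') :
    ∀ y ∈ X, ∀ y' ∈ X, Conn E X y y' := by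
  intro y hy y' hy'
  obtain ⟨t, ht, hT, hc⟩ := h1 y hy
  obtain ⟨t', ht', hT', hc'⟩ := h1 y' hy'
  exact conn_trans hc (conn_trans (h2 t ht hT t' ht' hT') (conn_symm hy' hc'))

end Conn

section Cnt

variable {V : Type} [Fintype V] [DecidableEq V] {E : Finset (Sym2 V)}

theorem rc2 {S A B : Finset V} (h : S ⊆ A ∪ B) : (S.card : ℝ) ≤ (A.card : ℝ) + (B.card : ℝ) := by
  have := (card_le_card h).trans (card_union_le _ _)
  exact_mod_cast this

theorem rc3 {S A B C : Finset V} (h : S ⊆ A ∪ B ∪ C) :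
    (S.card : ℝ) ≤ (A.card : ℝ) + (B.card : ℝ) + (C.card : ℝ) := by
  have h1 := rc2 h
  have h2 := rc2 (Subset.refl (A ∪ B))
  linarith

theorem rc4 {S A B C D : Finset V} (h : S ⊆ A ∪ B ∪ C ∪ D) :
    (S.card : ℝ) ≤ (A.card : ℝ) + (B.card : ℝ) + (C.card : ℝ) + (D.card : ℝ) := by
  have h1 := rc2 h
  have h2 := rc3 (Subset.refl (A ∪ B ∪ C))
  linarith

/-- a set whose card exceeds the card of three other sets has an element outside them -/
theorem pick3 {S A B C : Finset V}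
    (h : (A.card : ℝ) + (B.card : ℝ) + (C.card : ℝ) < (S.card : ℝ)) :
    ∃ x ∈ S, x ∉ A ∧ x ∉ B ∧ x ∉ C := by
  by_contra hcon
  push Not at hcon
  have : S ⊆ A ∪ B ∪ C := by
    intro x hx
    rw [mem_union, mem_union]
    by_contra hc
    push Not at hc
    exact hc.2 (hcon x hx hc.1.1 hc.1.2)
  have := rc3 this
  linarith

theorem pick4 {S A B C D : Finset V}
    (h : (A.card : ℝ) + (B.card : ℝ) + (C.card : ℝ) + (D.card : ℝ) < (S.card : ℝ)) :
    ∃ x ∈ S, x ∉ A ∧ x ∉ B ∧ x ∉ C ∧ x ∉ D := by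
  by_contra hcon
  push Not at hcon
  have : S ⊆ A ∪ B ∪ C ∪ D := by
    intro x hx
    rw [mem_union, mem_union, mem_union]
    by_contra hc
    push Not at hc
    exact hc.2 (hcon x hx hc.1.1.1 hc.1.1.2 hc.1.2)
  have := rc4 this
  linarith

theorem cod_comm (u v : V) : cod E u v = cod E v u := by
  unfold cod; rw [inter_comm]

theorem mem_On {κ : ℝ} {z y : V} : y ∈ On E κ z ↔
    y ≠ z ∧ (cod E y z : ℝ) < κ * (Fintype.card V : ℝ) := by
  simp [On]

theorem mem_Bn {κ : ℝ} {z y : V} : y ∈ Bn E κ z ↔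
    y ≠ z ∧ κ * (Fintype.card V : ℝ) ≤ (cod E y z : ℝ) := by
  simp [Bn]

theorem On_symm {κ : ℝ} {z y : V} (h : y ∈ On E κ z) : z ∈ On E κ y := by
  rw [mem_On] at *
  rw [cod_comm]
  exact ⟨h.1.symm, h.2⟩

theorem trichotomy (κ : ℝ) (z y : V) : y = z ∨ y ∈ On E κ z ∨ y ∈ Bn E κ z := by
  by_cases h : y = z
  · exact Or.inl h
  · right
    rw [mem_On, mem_Bn]
    rcases lt_or_ge (cod E y z : ℝ) (κ * (Fintype.card V : ℝ)) with h' | h'
    · exact Or.inl ⟨h, h'⟩
    · exact Or.inr ⟨h, h'⟩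

theorem not_On_Bn {κ : ℝ} {z y : V} (h : y ∈ On E κ z) (h' : y ∈ Bn E κ z) : False := by
  rw [mem_On] at h
  rw [mem_Bn] at h'
  linarith [h.2, h'.2]

theorem F1 {κ : ℝ} (hdeg : ∀ v, Fintype.card V ≤ 2 * dg E v + 1) {u v : V}
    (h : v ∈ On E κ u) :
    ((univ \ (nb E u ∪ nb E v)).card : ℝ) ≤ κ * (Fintype.card V : ℝ) + 1 := by
  have h1 := card_union_add_card_inter (nb E u) (nb E v)
  have h2 : (univ \ (nb E u ∪ nb E v)).card + (nb E u ∪ nb E v).card = Fintype.card V := by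
    rw [card_sdiff_of_subset (subset_univ _), card_univ]
    have := card_le_univ (nb E u ∪ nb E v)
    omega
  have h3 := hdeg u
  have h4 := hdeg v
  unfold dg at h3 h4
  rw [mem_On, cod_comm] at h
  have h5 := h.2
  unfold cod at h5
  have h6 : (univ \ (nb E u ∪ nb E v)).card ≤ (nb E u ∩ nb E v).card + 1 := by omega
  have h7 : ((univ \ (nb E u ∪ nb E v)).card : ℝ) ≤ ((nb E u ∩ nb E v).card : ℝ) + 1 := by
    exact_mod_cast h6
  linarith

theorem F2 {κ : ℝ} (hdeg : ∀ v, Fintype.card V ≤ 2 * dg E v + 1) {u v w : V}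
    (h : v ∈ On E κ u) (h' : v ∈ On E κ w) :
    ((nb E u \ nb E w).card : ℝ) ≤ 2 * (κ * (Fintype.card V : ℝ)) + 1 := by
  have h1 := F1 hdeg h'
  have h2 : ((nb E v ∩ nb E u).card : ℝ) < κ * (Fintype.card V : ℝ) := by
    rw [mem_On] at h
    exact h.2
  have h3 : nb E u \ nb E w ⊆ (nb E v ∩ nb E u) ∪ (univ \ (nb E w ∪ nb E v)) := by
    intro x hx
    rw [mem_sdiff] at hx
    rw [mem_union, mem_inter, mem_sdiff, mem_union]
    by_cases hv : x ∈ nb E v
    · exact Or.inl ⟨hv, hx.1⟩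
    · right
      refine ⟨mem_univ _, ?_⟩
      rintro (h | h)
      · exact hx.2 h
      · exact hv h
  have := rc2 h3
  linarith

end Cnt

/-- the data around a vertex `z` that is not good; `C0`, `C1` are interchangeable -/
structure Ctx {V : Type} [Fintype V] [DecidableEq V] (E : Finset (Sym2 V)) (γ b κ ρ : ℝ) (z : V)
    (R C0 C1 : Finset V) : Prop where
  ll : Loopless E
  deg : ∀ v, Fintype.card V ≤ 2 * dg E v + 1
  q3 : Q3 E γ
  g0 : 0 < γ
  g1 : γ ≤ 1
  hb : b = γ ^ 2 / 100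
  hk : κ = γ ^ 4 / 10 ^ 4
  hr : ρ = γ ^ 4 / 10 ^ 5
  big : 100 ≤ κ * (Fintype.card V : ℝ)
  hR : (R.card : ℝ) ≤ ρ * (Fintype.card V : ℝ)
  hC : C0 ∪ C1 = Bn E κ z \ R
  hd : Disjoint C0 C1
  ne0 : C0.Nonempty
  ne1 : C1.Nonempty
  no : ∀ u ∈ C0, ∀ v ∈ C1, s(u, v) ∉ E

section M

variable {V : Type} [Fintype V] [DecidableEq V] {E : Finset (Sym2 V)} {γ b κ ρ : ℝ} {z : V}
  {R C0 C1 : Finset V}

theorem Ctx.swap (h : Ctx E γ b κ ρ z R C0 C1) : Ctx E γ b κ ρ z R C1 C0 :=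
  { ll := h.ll, deg := h.deg, q3 := h.q3, g0 := h.g0, g1 := h.g1, hb := h.hb, hk := h.hk,
    hr := h.hr, big := h.big, hR := h.hR, hC := by rw [union_comm]; exact h.hC,
    hd := h.hd.symm, ne0 := h.ne1, ne1 := h.ne0,
    no := fun u hu v hv => by rw [Sym2.eq_swap]; exact h.no v hv u hu }

/-- the numerical facts -/
structure Num (N G B K P : ℝ) : Prop where
  gn : G ≤ N
  bg : B ≤ G / 100
  kb : K ≤ B / 100
  pk : P = K / 10
  k100 : 100 ≤ K
  bn : B * N = G ^ 2 / 100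
  kn : K * N = B ^ 2

theorem Ctx.num (h : Ctx E γ b κ ρ z R C0 C1) : Num (Fintype.card V : ℝ)
    (γ * (Fintype.card V : ℝ)) (b * (Fintype.card V : ℝ)) (κ * (Fintype.card V : ℝ))
    (ρ * (Fintype.card V : ℝ)) := by
  have hN : (0 : ℝ) ≤ (Fintype.card V : ℝ) := Nat.cast_nonneg _
  have g0 := h.g0
  have g1 := h.g1
  have g2 : γ ^ 2 ≤ γ := by nlinarith
  have g22 : γ ^ 2 ≤ 1 := by linarith
  have g4 : γ ^ 4 ≤ γ ^ 2 := by nlinarith [sq_nonneg γ]
  refine ⟨?_, ?_, ?_, ?_, h.big, ?_, ?_⟩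
  · nlinarith
  · rw [h.hb]
    have : γ ^ 2 / 100 ≤ γ / 100 := by linarith
    nlinarith
  · rw [h.hb, h.hk]
    have : γ ^ 4 / 10 ^ 4 ≤ γ ^ 2 / 100 / 100 := by linarith
    nlinarith
  · rw [h.hr, h.hk]; ring
  · rw [h.hb]; ring
  · rw [h.hb, h.hk]; ring

theorem Ctx.mem0 (h : Ctx E γ b κ ρ z R C0 C1) {x : V} (hx : x ∈ C0) :
    x ∈ Bn E κ z ∧ x ∉ R := by
  have : x ∈ Bn E κ z \ R := by rw [← h.hC]; exact mem_union_left _ hx
  rwa [mem_sdiff] at this

theorem Ctx.ndeg (h : Ctx E γ b κ ρ z R C0 C1) (v : V) :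
    ((Fintype.card V : ℝ) - 1) / 2 ≤ ((nb E v).card : ℝ) := by
  have h1 := h.deg v
  unfold dg at h1
  have : (Fintype.card V : ℝ) ≤ 2 * ((nb E v).card : ℝ) + 1 := by exact_mod_cast h1
  linarith

theorem Ctx.nbsub (h : Ctx E γ b κ ρ z R C0 C1) {w : V} (hw : w ∈ C0) :
    nb E w ⊆ C0 ∪ On E κ z ∪ R ∪ {z} := by
  intro a ha
  simp only [mem_union, mem_singleton]
  rcases trichotomy (E := E) κ z a with h1 | h1 | h1
  · exact Or.inr h1
  · exact Or.inl (Or.inl (Or.inr h1))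
  · by_cases hR : a ∈ R
    · exact Or.inl (Or.inr hR)
    · have : a ∈ C0 ∪ C1 := by rw [h.hC, mem_sdiff]; exact ⟨h1, hR⟩
      rcases mem_union.1 this with h2 | h2
      · exact Or.inl (Or.inl (Or.inl h2))
      · exact absurd (mem_nb.1 ha) (h.no w hw a h2)

/-- (Q') inside `B(z) \ R` -/
theorem Ctx.qz (h : Ctx E γ b κ ρ z R C0 C1) (w : V) :
    γ * (Fintype.card V : ℝ) - ρ * (Fintype.card V : ℝ) - 1 ≤
      ((nb E w ∩ (C0 ∪ C1)).card : ℝ) := by
  have hq := h.q3 w z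
  have nm := h.num
  have hsub : ((nb E w).filter fun a => γ * (Fintype.card V : ℝ) ≤ (cod E a z : ℝ)) ⊆
      (nb E w ∩ (C0 ∪ C1)) ∪ R ∪ {z} := by
    intro a ha
    rw [mem_filter] at ha
    simp only [mem_union, mem_singleton, mem_inter]
    rw [← mem_union, h.hC, mem_sdiff, mem_Bn]
    by_cases haz : a = z
    · exact Or.inr haz
    · by_cases haR : a ∈ R
      · exact Or.inl (Or.inr haR)
      · refine Or.inl (Or.inl ⟨ha.1, ⟨haz, ?_⟩, haR⟩)
        have := ha.2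
        have := nm.bg
        have := nm.kb
        have := nm.k100
        linarith
  have := rc3 hsub
  have hR := h.hR
  rw [card_singleton] at this
  push_cast at this
  linarith

theorem Ctx.s1 (h : Ctx E γ b κ ρ z R C0 C1) {w : V} (hw : w ∈ C0) :
    γ / 2 * (Fintype.card V : ℝ) ≤ ((nb E w ∩ C0).card : ℝ) := by
  have h1 := h.qz w
  have h2 : nb E w ∩ (C0 ∪ C1) ⊆ nb E w ∩ C0 := by
    intro a ha
    rw [mem_inter, mem_union] at ha
    rw [mem_inter]
    refine ⟨ha.1, ?_⟩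
    rcases ha.2 with h3 | h3
    · exact h3
    · exact absurd (mem_nb.1 ha.1) (h.no w hw a h3)
  have h3 : ((nb E w ∩ (C0 ∪ C1)).card : ℝ) ≤ ((nb E w ∩ C0).card : ℝ) := by
    exact_mod_cast card_le_card h2
  have nm := h.num
  have := nm.bg
  have := nm.kb
  have := nm.k100
  have := nm.pk
  linarith

theorem Ctx.card0 (h : Ctx E γ b κ ρ z R C0 C1) :
    γ / 2 * (Fintype.card V : ℝ) ≤ (C0.card : ℝ) := by
  obtain ⟨w, hw⟩ := h.ne0
  have h1 := h.s1 hw
  have h2 : ((nb E w ∩ C0).card : ℝ) ≤ (C0.card : ℝ) := by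
    exact_mod_cast card_le_card inter_subset_right
  linarith

/-- `a` is typical -/
def Typ (E : Finset (Sym2 V)) (b κ : ℝ) (z a : V) : Prop :=
  ((nb E a ∩ On E κ z).card : ℝ) ≤ b * (Fintype.card V : ℝ)

/-- (s2) -/
theorem Ctx.s2 (h : Ctx E γ b κ ρ z R C0 C1) (S : Finset V) (hS : S ⊆ nb E z)
    (hnt : ∀ a ∈ S, ¬ Typ E b κ z a) : (S.card : ℝ) ≤ b * (Fintype.card V : ℝ) := by
  classical
  have nm := h.num
  have hdc : ∑ a ∈ S, (nb E a ∩ On E κ z).card = ∑ t ∈ On E κ z, (nb E t ∩ S).card := by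
    have := sum_card_bipartiteAbove_eq_sum_card_bipartiteBelow (s := S) (t := On E κ z)
      (fun a t => s(a, t) ∈ E)
    convert this using 2 with a ha t ht
    · congr 1
      ext x
      simp only [mem_inter, mem_nb, bipartiteAbove, mem_filter]
      tauto
    · congr 1
      ext x
      simp only [mem_inter, mem_nb, bipartiteBelow, mem_filter]
      rw [Sym2.eq_swap]
      tauto
  have h1 : (S.card : ℝ) * (b * (Fintype.card V : ℝ)) ≤
      ∑ a ∈ S, ((nb E a ∩ On E κ z).card : ℝ) := by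
    rw [← nsmul_eq_mul, ← sum_const]
    refine sum_le_sum fun a ha => ?_
    have := hnt a ha
    unfold Typ at this
    push Not at this
    exact this.le
  have h2 : ∑ t ∈ On E κ z, ((nb E t ∩ S).card : ℝ) ≤
      ((On E κ z).card : ℝ) * (κ * (Fintype.card V : ℝ)) := by
    rw [← nsmul_eq_mul, ← sum_const]
    refine sum_le_sum fun t ht => ?_
    rw [mem_On] at ht
    refine le_trans ?_ ht.2.le
    unfold cod
    exact_mod_cast card_le_card (inter_subset_inter_left hS)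
  have h3 : ((On E κ z).card : ℝ) ≤ (Fintype.card V : ℝ) := by
    exact_mod_cast card_le_univ _
  have h4 : (∑ a ∈ S, ((nb E a ∩ On E κ z).card : ℝ)) =
      ∑ t ∈ On E κ z, ((nb E t ∩ S).card : ℝ) := by exact_mod_cast hdc
  have hk := nm.k100
  have hkn := nm.kn
  have hkb := nm.kb
  have h5 : (S.card : ℝ) * (b * (Fintype.card V : ℝ)) ≤
      (b * (Fintype.card V : ℝ)) * (b * (Fintype.card V : ℝ)) := by
    have : ((On E κ z).card : ℝ) * (κ * (Fintype.card V : ℝ)) ≤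
        (Fintype.card V : ℝ) * (κ * (Fintype.card V : ℝ)) :=
      mul_le_mul_of_nonneg_right h3 (by linarith)
    nlinarith
  exact le_of_mul_le_mul_right h5 (by linarith)

/-- the neighbours of a typical vertex -/
theorem Ctx.typ_nb (h : Ctx E γ b κ ρ z R C0 C1) {a : V} (ha : a ∈ C0) (ht : Typ E b κ z a) :
    (1 / 2 - 2 * b) * (Fintype.card V : ℝ) ≤ ((nb E a ∩ C0).card : ℝ) := by
  have h1 := h.ndeg a
  have h2 : nb E a ⊆ (nb E a ∩ C0) ∪ (nb E a ∩ On E κ z) ∪ R ∪ {z} := by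
    intro x hx
    have := h.nbsub ha hx
    simp only [mem_union, mem_singleton, mem_inter] at this ⊢
    tauto
  have h3 := rc4 h2
  rw [card_singleton] at h3
  push_cast at h3
  have hR := h.hR
  unfold Typ at ht
  have nm := h.num
  have := nm.kb
  have := nm.k100
  have := nm.pk
  linarith

/-- (s4), first part -/
theorem Ctx.s4 (h : Ctx E γ b κ ρ z R C0 C1) :
    5 * (b * (Fintype.card V : ℝ)) < ((On E κ z).card : ℝ) := by
  by_contra hcon
  push Not at hcon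
  have nm := h.num
  have hbg := nm.bg
  have hkb := nm.kb
  have hk := nm.k100
  have hpk := nm.pk
  have hR := h.hR
  obtain ⟨u, hu⟩ := h.ne1
  obtain ⟨v, hv⟩ := h.ne0
  have hq := h.q3 u v
  have hsub : ((nb E u).filter fun a => γ * (Fintype.card V : ℝ) ≤ (cod E a v : ℝ)) ⊆
      On E κ z ∪ R ∪ {z} := by
    intro a ha
    rw [mem_filter] at ha
    have h1 := h.swap.nbsub hu ha.1
    simp only [mem_union, mem_singleton] at h1 ⊢
    rcases h1 with ((h1 | h1) | h1) | h1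
    · exfalso
      have h2 : nb E a ∩ nb E v ⊆ On E κ z ∪ R ∪ {z} := by
        intro x hx
        rw [mem_inter] at hx
        have e1 := h.swap.nbsub h1 hx.1
        have e2 := h.nbsub hv hx.2
        simp only [mem_union, mem_singleton] at e1 e2 ⊢
        rcases e1 with ((e1 | e1) | e1) | e1
        · rcases e2 with ((e2 | e2) | e2) | e2
          · exact absurd e1 (disjoint_left.1 h.hd e2)
          · exact Or.inl (Or.inl e2)
          · exact Or.inl (Or.inr e2)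
          · exact Or.inr e2
        · exact Or.inl (Or.inl e1)
        · exact Or.inl (Or.inr e1)
        · exact Or.inr e1
      have h3 := rc3 h2
      rw [card_singleton] at h3
      push_cast at h3
      have h4 := ha.2
      unfold cod at h4
      linarith
    · exact Or.inl (Or.inl h1)
    · exact Or.inl (Or.inr h1)
    · exact Or.inr h1
  have h3 := rc3 hsub
  rw [card_singleton] at h3
  push_cast at h3
  linarith


/-- the data with a typical vertex in `C0` -/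
structure Ctx2 {V : Type} [Fintype V] [DecidableEq V] (E : Finset (Sym2 V)) (γ b κ ρ : ℝ) (z : V)
    (R C0 C1 : Finset V) : Prop extends Ctx E γ b κ ρ z R C0 C1 where
  typ : ∃ a ∈ C0, a ∈ nb E z ∧ Typ E b κ z a

theorem Ctx2.c0low (h : Ctx2 E γ b κ ρ z R C0 C1) :
    (1 / 2 - 2 * b) * (Fintype.card V : ℝ) ≤ (C0.card : ℝ) := by
  obtain ⟨a, ha, _, ht⟩ := h.typ
  have h1 := h.toCtx.typ_nb ha ht
  have h2 : ((nb E a ∩ C0).card : ℝ) ≤ (C0.card : ℝ) := by
    exact_mod_cast card_le_card inter_subset_right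
  linarith

theorem Ctx.disjOn (h : Ctx E γ b κ ρ z R C0 C1) : Disjoint C0 (On E κ z) := by
  rw [disjoint_left]
  intro x hx hx'
  exact not_On_Bn hx' (h.mem0 hx).1

theorem Ctx.sumcard (h : Ctx E γ b κ ρ z R C0 C1) :
    (C0.card : ℝ) + ((C1 ∪ On E κ z).card : ℝ) ≤ (Fintype.card V : ℝ) := by
  have hd : Disjoint C0 (C1 ∪ On E κ z) := disjoint_union_right.2 ⟨h.hd, h.disjOn⟩
  have h1 := card_union_of_disjoint hd
  have h2 := card_le_univ (C0 ∪ (C1 ∪ On E κ z))
  have : C0.card + (C1 ∪ On E κ z).card ≤ Fintype.card V := by omega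
  exact_mod_cast this

theorem Ctx.sumcard' (h : Ctx E γ b κ ρ z R C0 C1) :
    (C0.card : ℝ) + (C1.card : ℝ) + ((On E κ z).card : ℝ) ≤ (Fintype.card V : ℝ) := by
  have h1 := h.sumcard
  have h2 := card_union_of_disjoint h.swap.disjOn
  have h3 : ((C1 ∪ On E κ z).card : ℝ) = (C1.card : ℝ) + ((On E κ z).card : ℝ) := by
    exact_mod_cast h2
  linarith

theorem Ctx2.notyp (h : Ctx2 E γ b κ ρ z R C0 C1) : ∀ a ∈ nb E z ∩ C1, ¬ Typ E b κ z a := by
  intro a ha ht
  rw [mem_inter] at ha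
  have h1 := h.toCtx.swap.typ_nb ha.2 ht
  have h2 : ((nb E a ∩ C1).card : ℝ) ≤ (C1.card : ℝ) := by
    exact_mod_cast card_le_card inter_subset_right
  have h3 := h.toCtx.sumcard'
  have h4 := h.toCtx.s4
  have h5 := h.c0low
  have nm := h.toCtx.num
  have := nm.kb
  have := nm.k100
  linarith

theorem Ctx2.zc1 (h : Ctx2 E γ b κ ρ z R C0 C1) :
    ((nb E z ∩ C1).card : ℝ) ≤ b * (Fintype.card V : ℝ) :=
  h.toCtx.s2 _ inter_subset_left h.notyp

theorem Ctx2.zc0 (h : Ctx2 E γ b κ ρ z R C0 C1) :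
    γ * (Fintype.card V : ℝ) - 2 * (b * (Fintype.card V : ℝ)) ≤ ((nb E z ∩ C0).card : ℝ) := by
  have h1 := h.toCtx.qz z
  have h2 : nb E z ∩ (C0 ∪ C1) ⊆ (nb E z ∩ C0) ∪ (nb E z ∩ C1) := by
    intro x hx
    rw [mem_inter, mem_union] at hx
    rw [mem_union, mem_inter, mem_inter]
    tauto
  have h3 := rc2 h2
  have h4 := h.zc1
  have nm := h.toCtx.num
  have := nm.kb
  have := nm.k100
  have := nm.pk
  linarith

/-- (s5), upper bound -/
theorem Ctx2.s5u (h : Ctx2 E γ b κ ρ z R C0 C1) :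
    ((C1 ∪ On E κ z).card : ℝ) ≤ (1 / 2 + 2 * b) * (Fintype.card V : ℝ) := by
  have h1 := h.toCtx.sumcard
  have h2 := h.c0low
  linarith

theorem Ctx2.s5n (h : Ctx2 E γ b κ ρ z R C0 C1) {u : V} (hu : u ∈ C1) :
    (1 / 2 - b) * (Fintype.card V : ℝ) ≤ ((nb E u ∩ (C1 ∪ On E κ z)).card : ℝ) := by
  have h1 := h.toCtx.ndeg u
  have h2 : nb E u ⊆ (nb E u ∩ (C1 ∪ On E κ z)) ∪ R ∪ {z} := by
    intro x hx
    have := h.toCtx.swap.nbsub hu hx
    simp only [mem_union, mem_singleton, mem_inter] at this ⊢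
    tauto
  have h3 := rc3 h2
  rw [card_singleton] at h3
  push_cast at h3
  have hR := h.hR
  have nm := h.toCtx.num
  have := nm.kb
  have := nm.k100
  have := nm.pk
  linarith

/-- (s5), lower bound -/
theorem Ctx2.s5l (h : Ctx2 E γ b κ ρ z R C0 C1) :
    (1 / 2 - b) * (Fintype.card V : ℝ) ≤ ((C1 ∪ On E κ z).card : ℝ) := by
  obtain ⟨u, hu⟩ := h.ne1
  have h1 := h.s5n hu
  have h2 : ((nb E u ∩ (C1 ∪ On E κ z)).card : ℝ) ≤ ((C1 ∪ On E κ z).card : ℝ) := by
    exact_mod_cast card_le_card inter_subset_right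
  linarith

theorem sdiff_card_real (A B : Finset V) :
    ((A \ B).card : ℝ) = (A.card : ℝ) - ((B ∩ A).card : ℝ) := by
  have h1 := card_sdiff_add_card_inter A B
  rw [inter_comm] at h1
  have : ((A \ B).card : ℝ) + ((B ∩ A).card : ℝ) = (A.card : ℝ) := by exact_mod_cast h1
  linarith

/-- (s5) -/
theorem Ctx2.s5 (h : Ctx2 E γ b κ ρ z R C0 C1) {u : V} (hu : u ∈ C1) :
    (((C1 ∪ On E κ z) \ nb E u).card : ℝ) ≤ 3 * (b * (Fintype.card V : ℝ)) := by
  rw [sdiff_card_real]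
  have h1 := h.s5n hu
  have h2 := h.s5u
  linarith

theorem Ctx2.c0up (h : Ctx2 E γ b κ ρ z R C0 C1) :
    (C0.card : ℝ) ≤ (1 / 2 + b) * (Fintype.card V : ℝ) := by
  have h1 := h.toCtx.sumcard
  have h2 := h.s5l
  linarith

/-- (s6) -/
theorem Ctx2.s6 (h : Ctx2 E γ b κ ρ z R C0 C1) {a : V} (ha : a ∈ C0) (ht : Typ E b κ z a) :
    ((C0 \ nb E a).card : ℝ) ≤ 3 * (b * (Fintype.card V : ℝ)) := by
  rw [sdiff_card_real]
  have h1 := h.toCtx.typ_nb ha ht
  have h2 := h.c0up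
  linarith

/-- `Typ`ical vertices in `N(z)` -/
theorem Ctx2.t0 (h : Ctx2 E γ b κ ρ z R C0 C1) (T : Finset V)
    (hT : ∀ a ∈ nb E z ∩ C0, Typ E b κ z a → a ∈ T) :
    γ * (Fintype.card V : ℝ) - 3 * (b * (Fintype.card V : ℝ)) ≤ (T.card : ℝ) := by
  have h1 := h.zc0
  have h2 : ((nb E z ∩ C0) \ T) ⊆ nb E z := fun x hx => by
    rw [mem_sdiff, mem_inter] at hx
    exact hx.1.1
  have h3 := h.toCtx.s2 ((nb E z ∩ C0) \ T) h2 fun a ha hta => by
    rw [mem_sdiff] at ha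
    exact ha.2 (hT a ha.1 hta)
  have h4 : nb E z ∩ C0 ⊆ ((nb E z ∩ C0) \ T) ∪ T := by
    intro x hx
    rw [mem_union, mem_sdiff]
    by_cases hx' : x ∈ T
    · exact Or.inr hx'
    · exact Or.inl ⟨hx, hx'⟩
  have h5 := rc2 h4
  linarith

theorem On_nonempty (h : Ctx E γ b κ ρ z R C0 C1) : (On E κ z).Nonempty := by
  rw [← card_pos]
  have h1 := h.s4
  have nm := h.num
  have := nm.kb
  have := nm.k100
  have : (0 : ℝ) < ((On E κ z).card : ℝ) := by linarith
  exact_mod_cast this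

/-- first half of (B1): `O(u)` and `O(z)` are disjoint -/
theorem Ctx2.b1a (h : Ctx2 E γ b κ ρ z R C0 C1) {u v : V} (hu : u ∈ C1) (hv : v ∈ On E κ z)
    (hv' : v ∈ On E κ u) : False := by
  have h1 := F2 h.deg hv hv'
  have h2 := h.zc1
  have h3 := h.zc0
  have h4 : nb E z ∩ C0 ⊆ (nb E z \ nb E u) := by
    intro x hx
    rw [mem_inter] at hx
    rw [mem_sdiff]
    refine ⟨hx.1, fun hxu => ?_⟩
    rw [mem_nb, Sym2.eq_swap] at hxu
    exact h.no x hx.2 u hu hxu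
  have h5 : ((nb E z ∩ C0).card : ℝ) ≤ ((nb E z \ nb E u).card : ℝ) := by
    exact_mod_cast card_le_card h4
  have nm := h.toCtx.num
  have := nm.bg
  have := nm.kb
  have := nm.k100
  linarith

theorem Ctx2.b1c (h : Ctx2 E γ b κ ρ z R C0 C1) {u w : V} (hu : u ∈ C1) (hw : w ∈ C1)
    (hne : w ≠ u) : w ∈ Bn E κ u := by
  rw [mem_Bn]
  refine ⟨hne, ?_⟩
  have h1 := h.s5 hu
  have h2 := h.s5 hw
  have h3 := h.s5l
  have h4 : C1 ∪ On E κ z ⊆ (nb E w ∩ nb E u) ∪ ((C1 ∪ On E κ z) \ nb E u) ∪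
      ((C1 ∪ On E κ z) \ nb E w) := by
    intro x hx
    rw [mem_union, mem_union, mem_inter, mem_sdiff, mem_sdiff]
    by_cases e1 : x ∈ nb E w <;> by_cases e2 : x ∈ nb E u
    · exact Or.inl (Or.inl ⟨e1, e2⟩)
    · exact Or.inl (Or.inr ⟨hx, e2⟩)
    · exact Or.inr ⟨hx, e1⟩
    · exact Or.inr ⟨hx, e1⟩
  have h5 := rc3 h4
  unfold cod
  have nm := h.toCtx.num
  have := nm.gn
  have := nm.bg
  have := nm.kb
  have := nm.k100
  linarith

theorem Ctx2.b1o (h : Ctx2 E γ b κ ρ z R C0 C1) {u t : V} (hu : u ∈ C1) (ht : t ∈ On E κ z) :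
    t ∈ Bn E κ u := by
  rcases trichotomy (E := E) κ u t with h1 | h1 | h1
  · rw [h1] at ht
    exact (not_On_Bn ht (h.toCtx.swap.mem0 hu).1).elim
  · exact (h.b1a hu ht h1).elim
  · exact h1

/-- vertices of `O(z)` are adjacent to almost all of `C1` -/
theorem Ctx2.ot1 (h : Ctx2 E γ b κ ρ z R C0 C1) {t : V} (ht : t ∈ On E κ z) :
    ((C1 \ nb E t).card : ℝ) ≤ 2 * (b * (Fintype.card V : ℝ)) := by
  have h1 := F1 h.deg ht
  have h2 := h.zc1
  have h3 : C1 \ nb E t ⊆ (univ \ (nb E z ∪ nb E t)) ∪ (nb E z ∩ C1) := by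
    intro x hx
    rw [mem_sdiff] at hx
    rw [mem_union, mem_sdiff, mem_union, mem_inter]
    by_cases e : x ∈ nb E z
    · exact Or.inr ⟨e, hx.1⟩
    · left
      refine ⟨mem_univ _, ?_⟩
      rintro (e' | e')
      · exact e e'
      · exact hx.2 e'
  have h4 := rc2 h3
  have nm := h.toCtx.num
  have := nm.kb
  have := nm.k100
  linarith

/-- (B1) -/
theorem Ctx2.b1 (h : Ctx2 E γ b κ ρ z R C0 C1) {u : V} (hu : u ∈ C1) : GoodV E κ ρ u := by
  intro R' hR'
  have nm := h.toCtx.num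
  have hgn := nm.gn
  have hbg := nm.bg
  have hkb := nm.kb
  have hk := nm.k100
  have hpk := nm.pk
  have hR := h.hR
  have hone : (({u} : Finset V).card : ℝ) = 1 := by simp
  have honez : (({z} : Finset V).card : ℝ) = 1 := by simp
  -- vertices of `C1` and of `O(z)` in the set
  have hc1 : ∀ w ∈ C1, w ≠ u → w ∉ R' → w ∈ Bn E κ u \ R' := fun w hw hwu hwR =>
    mem_sdiff.2 ⟨h.b1c hu hw hwu, hwR⟩
  have hon : ∀ t ∈ On E κ z, t ∉ R' → t ∈ Bn E κ u \ R' := fun t ht htR =>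
    mem_sdiff.2 ⟨h.b1o hu ht, htR⟩
  have hc1o : ∀ w ∈ C1, w ≠ u → w ∉ R' → ∃ t ∈ Bn E κ u \ R', t ∈ On E κ z ∧
      Conn E (Bn E κ u \ R') w t := by
    intro w hw hwu hwR
    have e1 := h.s5 hw
    have e2 := h.toCtx.s4
    have e3 : ((On E κ z \ nb E w).card : ℝ) ≤ (((C1 ∪ On E κ z) \ nb E w).card : ℝ) := by
      exact_mod_cast card_le_card (sdiff_subset_sdiff subset_union_right (Subset.refl _))
    obtain ⟨t, ht, ht1, ht2, _⟩ := pick3 (S := On E κ z) (A := On E κ z \ nb E w) (B := R')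
      (C := ∅) (by rw [card_empty]; push_cast; linarith)
    have ht3 : t ∈ nb E w := by
      by_contra hc
      exact ht1 (mem_sdiff.2 ⟨ht, hc⟩)
    exact ⟨t, hon t ht ht2, ht, conn_step (mem_nb.1 ht3) (hon t ht ht2)⟩
  refine conn_all (fun t => t ∈ On E κ z) ?_ ?_
  · intro w hw
    rw [mem_sdiff] at hw
    have hcod := (mem_Bn.1 hw.1).2
    unfold cod at hcod
    obtain ⟨x, hx, hx1, hx2, hx3⟩ := pick3 (S := nb E w ∩ nb E u) (A := R) (B := R')
      (C := {z}) (by rw [honez]; linarith)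
    rw [mem_inter] at hx
    have hx4 := h.toCtx.swap.nbsub hu hx.2
    simp only [mem_union] at hx4
    rcases hx4 with ((hx4 | hx4) | hx4) | hx4
    · have hxu : x ≠ u := by
        intro e
        have := hx.2
        rw [e, mem_nb] at this
        exact h.ll.ne this rfl
      obtain ⟨t, ht, ht1, ht2⟩ := hc1o x hx4 hxu hx2
      exact ⟨t, ht, ht1, conn_trans (conn_step (mem_nb.1 hx.1) (hc1 x hx4 hxu hx2)) ht2⟩
    · exact ⟨x, hon x hx4 hx2, hx4, conn_step (mem_nb.1 hx.1) (hon x hx4 hx2)⟩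
    · exact absurd hx4 hx1
    · exact absurd hx4 hx3
  · intro t ht hto t' ht' hto'
    rw [mem_sdiff] at ht ht'
    have e1 := h.ot1 hto
    have e2 := h.ot1 hto'
    have e3 := h.toCtx.swap.card0
    obtain ⟨x, hx, hx1, hx2, hx3, hx4⟩ := pick4 (S := C1) (A := C1 \ nb E t) (B := C1 \ nb E t')
      (C := R') (D := {u}) (by rw [hone]; linarith)
    have hx5 : x ∈ nb E t := by
      by_contra hc
      exact hx1 (mem_sdiff.2 ⟨hx, hc⟩)
    have hx6 : x ∈ nb E t' := by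
      by_contra hc
      exact hx2 (mem_sdiff.2 ⟨hx, hc⟩)
    rw [mem_singleton] at hx4
    have hx7 := hc1 x hx hx4 hx3
    refine conn_trans (conn_step (mem_nb.1 hx5) hx7) ?_
    refine conn_step ?_ (mem_sdiff.2 ht')
    rw [Sym2.eq_swap]
    exact mem_nb.1 hx6

/-- (B2), first claim -/
theorem Ctx2.b2z (h : Ctx2 E γ b κ ρ z R C0 C1) {a : V} (ha : a ∈ C0) (ht : Typ E b κ z a) :
    4 * (b * (Fintype.card V : ℝ)) < ((C0 \ nb E z).card : ℝ) := by
  classical
  by_contra hcon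
  push Not at hcon
  have nm := h.toCtx.num
  have hgn := nm.gn
  have hbg := nm.bg
  have hkb := nm.kb
  have hk := nm.k100
  have hpk := nm.pk
  have hbn := nm.bn
  have hR := h.hR
  obtain ⟨u, hu⟩ := h.ne1
  -- upper bound
  have hup : ∀ t ∈ On E κ z, ((nb E t ∩ C0).card : ℝ) ≤ 5 * (b * (Fintype.card V : ℝ)) := by
    intro t hto
    have e1 : nb E t ∩ C0 ⊆ (nb E t ∩ nb E z) ∪ (C0 \ nb E z) := by
      intro x hx
      rw [mem_inter] at hx
      rw [mem_union, mem_inter, mem_sdiff]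
      by_cases e : x ∈ nb E z
      · exact Or.inl ⟨hx.1, e⟩
      · exact Or.inr ⟨hx.2, e⟩
    have e2 := rc2 e1
    have e3 := (mem_On.1 hto).2
    unfold cod at e3
    linarith
  -- lower bound
  set S := (nb E a ∩ C0).filter fun x => γ * (Fintype.card V : ℝ) ≤ (cod E x u : ℝ) with hS
  have hScard : γ / 2 * (Fintype.card V : ℝ) ≤ (S.card : ℝ) := by
    have hq := h.q3 a u
    have hsub : ((nb E a).filter fun x => γ * (Fintype.card V : ℝ) ≤ (cod E x u : ℝ)) ⊆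
        S ∪ (nb E a ∩ On E κ z) ∪ R ∪ {z} := by
      intro x hx
      rw [mem_filter] at hx
      have := h.toCtx.nbsub ha hx.1
      simp only [mem_union, mem_singleton, mem_inter, hS, mem_filter] at this ⊢
      tauto
    have e1 := rc4 hsub
    rw [card_singleton] at e1
    push_cast at e1
    unfold Typ at ht
    linarith
  have hlow : ∀ x ∈ S, γ / 2 * (Fintype.card V : ℝ) ≤ ((nb E x ∩ On E κ z).card : ℝ) := by
    intro x hx
    rw [hS, mem_filter, mem_inter] at hx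
    have e1 : nb E x ∩ nb E u ⊆ (nb E x ∩ On E κ z) ∪ R ∪ {z} := by
      intro y hy
      rw [mem_inter] at hy
      have f1 := h.toCtx.nbsub hx.1.2 hy.1
      have f2 := h.toCtx.swap.nbsub hu hy.2
      simp only [mem_union, mem_singleton, mem_inter] at f1 f2 ⊢
      rcases f1 with ((f1 | f1) | f1) | f1
      · rcases f2 with ((f2 | f2) | f2) | f2
        · exact absurd f2 (disjoint_left.1 h.hd f1)
        · exact Or.inl (Or.inl ⟨hy.1, f2⟩)
        · exact Or.inl (Or.inr f2)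
        · exact Or.inr f2
      · exact Or.inl (Or.inl ⟨hy.1, f1⟩)
      · exact Or.inl (Or.inr f1)
      · exact Or.inr f1
    have e2 := rc3 e1
    rw [card_singleton] at e2
    push_cast at e2
    have e3 := hx.2
    unfold cod at e3
    linarith
  have hdc : ∑ x ∈ S, (nb E x ∩ On E κ z).card = ∑ t ∈ On E κ z, (nb E t ∩ S).card := by
    have := sum_card_bipartiteAbove_eq_sum_card_bipartiteBelow (s := S) (t := On E κ z)
      (fun a t => s(a, t) ∈ E)
    convert this using 2 with a ha t ht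
    · congr 1
      ext x
      simp only [mem_inter, mem_nb, bipartiteAbove, mem_filter]
      tauto
    · congr 1
      ext x
      simp only [mem_inter, mem_nb, bipartiteBelow, mem_filter]
      rw [Sym2.eq_swap]
      tauto
  have h4 : (∑ x ∈ S, ((nb E x ∩ On E κ z).card : ℝ)) =
      ∑ t ∈ On E κ z, ((nb E t ∩ S).card : ℝ) := by exact_mod_cast hdc
  have h1 : (S.card : ℝ) * (γ / 2 * (Fintype.card V : ℝ)) ≤
      ∑ x ∈ S, ((nb E x ∩ On E κ z).card : ℝ) := by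
    rw [← nsmul_eq_mul, ← sum_const]
    exact sum_le_sum hlow
  have h2 : ∑ t ∈ On E κ z, ((nb E t ∩ S).card : ℝ) ≤
      ((On E κ z).card : ℝ) * (5 * (b * (Fintype.card V : ℝ))) := by
    rw [← nsmul_eq_mul, ← sum_const]
    refine sum_le_sum fun t hto => ?_
    refine le_trans ?_ (hup t hto)
    have : nb E t ∩ S ⊆ nb E t ∩ C0 := by
      refine inter_subset_inter_left ?_
      intro x hx
      rw [hS, mem_filter, mem_inter] at hx
      exact hx.1.2
    exact_mod_cast card_le_card this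
  have h3 : ((On E κ z).card : ℝ) ≤ (Fintype.card V : ℝ) := by
    exact_mod_cast card_le_univ _
  have h5 : (γ / 2 * (Fintype.card V : ℝ)) * (γ / 2 * (Fintype.card V : ℝ)) ≤
      (S.card : ℝ) * (γ / 2 * (Fintype.card V : ℝ)) :=
    mul_le_mul_of_nonneg_right hScard (by linarith)
  have h6 : ((On E κ z).card : ℝ) * (5 * (b * (Fintype.card V : ℝ))) ≤
      (Fintype.card V : ℝ) * (5 * (b * (Fintype.card V : ℝ))) :=
    mul_le_mul_of_nonneg_right h3 (by linarith)
  have h7 : (0 : ℝ) < (γ * (Fintype.card V : ℝ)) ^ 2 := by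
    have : (0 : ℝ) < γ * (Fintype.card V : ℝ) := by linarith
    positivity
  nlinarith

/-- (B2), second claim -/
theorem Ctx2.b2o (h : Ctx2 E γ b κ ρ z R C0 C1) {a t : V} (ha : a ∈ C0) (ht : Typ E b κ z a)
    (hto : t ∈ On E κ z) : t ∈ Bn E κ a := by
  rcases trichotomy (E := E) κ a t with h1 | h1 | h1
  · rw [h1] at hto
    exact (not_On_Bn hto (h.toCtx.mem0 ha).1).elim
  · exfalso
    have e1 := h.b2z ha ht
    have e2 := h.s6 ha ht
    have e3 := F1 h.deg hto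
    have e4 := (mem_On.1 h1).2
    unfold cod at e4
    have e5 : C0 \ nb E z ⊆ (nb E t ∩ nb E a) ∪ (C0 \ nb E a) ∪ (univ \ (nb E z ∪ nb E t)) := by
      intro x hx
      rw [mem_sdiff] at hx
      simp only [mem_union, mem_inter, mem_sdiff, mem_univ, true_and, not_or]
      by_cases f1 : x ∈ nb E t <;> by_cases f2 : x ∈ nb E a
      · exact Or.inl (Or.inl ⟨f1, f2⟩)
      · exact Or.inl (Or.inr ⟨hx.1, f2⟩)
      · exact Or.inr ⟨hx.2, f1⟩
      · exact Or.inr ⟨hx.2, f1⟩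
    have e6 := rc3 e5
    have nm := h.toCtx.num
    have hkb := nm.kb
    have hk := nm.k100
    linarith
  · exact h1

theorem Ctx2.b2c (h : Ctx2 E γ b κ ρ z R C0 C1) {a w : V} (ha : a ∈ C0) (ht : Typ E b κ z a)
    (hw : w ∈ C0) (hne : w ≠ a) : w ∈ Bn E κ a := by
  rw [mem_Bn]
  refine ⟨hne, ?_⟩
  have h1 := h.s6 ha ht
  have h2 := h.toCtx.s1 hw
  have h4 : nb E w ∩ C0 ⊆ (nb E w ∩ nb E a) ∪ (C0 \ nb E a) := by
    intro x hx
    rw [mem_inter] at hx
    rw [mem_union, mem_inter, mem_sdiff]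
    by_cases e2 : x ∈ nb E a
    · exact Or.inl ⟨hx.1, e2⟩
    · exact Or.inr ⟨hx.2, e2⟩
  have h5 := rc2 h4
  unfold cod
  have nm := h.toCtx.num
  have := nm.gn
  have := nm.bg
  have := nm.kb
  have := nm.k100
  linarith

/-- (B2) -/
theorem Ctx2.b2 (h : Ctx2 E γ b κ ρ z R C0 C1) {a : V} (ha : a ∈ C0) (ht : Typ E b κ z a) :
    GoodV E κ ρ a := by
  classical
  intro R' hR'
  have nm := h.toCtx.num
  have hgn := nm.gn
  have hbg := nm.bg
  have hkb := nm.kb
  have hk := nm.k100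
  have hpk := nm.pk
  have hR := h.hR
  have hone : (({a} : Finset V).card : ℝ) = 1 := by simp
  have honez : (({z} : Finset V).card : ℝ) = 1 := by simp
  have hc0 : ∀ w ∈ C0, w ≠ a → w ∉ R' → w ∈ Bn E κ a \ R' := fun w hw hwu hwR =>
    mem_sdiff.2 ⟨h.b2c ha ht hw hwu, hwR⟩
  have hon : ∀ t ∈ On E κ z, t ∉ R' → t ∈ Bn E κ a \ R' := fun t hto htR =>
    mem_sdiff.2 ⟨h.b2o ha ht hto, htR⟩
  -- the hub
  have hT := h.t0 ((nb E z ∩ C0).filter fun x => Typ E b κ z x) fun x hx hx' =>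
    mem_filter.2 ⟨hx, hx'⟩
  obtain ⟨a', ha', ha'1, ha'2, _⟩ := pick3 (S := (nb E z ∩ C0).filter fun x => Typ E b κ z x)
    (A := R') (B := {a}) (C := ∅) (by rw [hone, card_empty]; push_cast; linarith)
  rw [mem_singleton] at ha'2
  rw [mem_filter, mem_inter] at ha'
  have ha'3 : a' ∈ Bn E κ a \ R' := hc0 a' ha'.1.2 ha'2 ha'1
  have hs6 := h.s6 ha'.1.2 ha'.2
  have hcc : ∀ w ∈ C0, Conn E (Bn E κ a \ R') w a' := by
    intro w hw
    have e1 := h.toCtx.s1 hw
    obtain ⟨x, hx, hx1, hx2, hx3⟩ := pick3 (S := nb E w ∩ C0) (A := C0 \ nb E a') (B := R')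
      (C := {a}) (by rw [hone]; linarith)
    rw [mem_inter] at hx
    rw [mem_singleton] at hx3
    have hx4 : x ∈ nb E a' := by
      by_contra hc
      exact hx1 (mem_sdiff.2 ⟨hx.2, hc⟩)
    refine conn_trans (conn_step (mem_nb.1 hx.1) (hc0 x hx.2 hx3 hx2)) (conn_step ?_ ha'3)
    rw [Sym2.eq_swap]
    exact mem_nb.1 hx4
  have hoc : ∀ t ∈ On E κ z, Conn E (Bn E κ a \ R') t a' := by
    intro t hto
    have e1 := h.b2z ha ht
    have e2 := F1 h.deg hto
    obtain ⟨x, hx, hx1, hx2, hx3⟩ := pick3 (S := C0 \ nb E z) (A := univ \ (nb E z ∪ nb E t))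
      (B := R') (C := {a}) (by rw [hone]; linarith)
    rw [mem_sdiff] at hx
    rw [mem_singleton] at hx3
    have hx4 : x ∈ nb E t := by
      by_contra hc
      refine hx1 (mem_sdiff.2 ⟨mem_univ _, ?_⟩)
      rw [mem_union]
      rintro (f | f)
      · exact hx.2 f
      · exact hc f
    exact conn_trans (conn_step (mem_nb.1 hx4) (hc0 x hx.1 hx3 hx2)) (hcc x hx.1)
  refine conn_all (fun t => t = a') ?_ ?_
  · intro w hw
    rw [mem_sdiff] at hw
    have hcod := (mem_Bn.1 hw.1).2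
    unfold cod at hcod
    obtain ⟨x, hx, hx1, hx2, hx3⟩ := pick3 (S := nb E w ∩ nb E a) (A := R) (B := R')
      (C := {z}) (by rw [honez]; linarith)
    rw [mem_inter] at hx
    have hx4 := h.toCtx.nbsub ha hx.2
    simp only [mem_union] at hx4
    refine ⟨a', ha'3, rfl, ?_⟩
    rcases hx4 with ((hx4 | hx4) | hx4) | hx4
    · have hxa : x ≠ a := by
        intro e
        have := hx.2
        rw [e, mem_nb] at this
        exact h.ll.ne this rfl
      exact conn_trans (conn_step (mem_nb.1 hx.1) (hc0 x hx4 hxa hx2)) (hcc x hx4)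
    · exact conn_trans (conn_step (mem_nb.1 hx.1) (hon x hx4 hx2)) (hoc x hx4)
    · exact absurd hx4 hx1
    · exact absurd hx4 hx3
  · rintro t _ rfl t' _ rfl
    exact conn_refl _

end M

/-- the conclusion from the context -/
theorem Ctx2.final {V : Type} [Fintype V] [DecidableEq V] {E : Finset (Sym2 V)} {γ b κ ρ : ℝ}
    {z : V} {R C0 C1 : Finset V} (h : Ctx2 E γ b κ ρ z R C0 C1) :
    ∃ R' C0 C1 T0 : Finset V,
      (R'.card : ℝ) ≤ ρ * (Fintype.card V : ℝ) ∧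
      C0 ∪ C1 = Bn E κ z \ R' ∧ Disjoint C0 C1 ∧ C1.Nonempty ∧
      (∀ u ∈ C0, ∀ v ∈ C1, s(u, v) ∉ E) ∧
      (∀ w ∈ C0, γ / 2 * (Fintype.card V : ℝ) ≤ ((nb E w ∩ C0).card : ℝ)) ∧
      (∀ w ∈ C1, γ / 2 * (Fintype.card V : ℝ) ≤ ((nb E w ∩ C1).card : ℝ)) ∧
      (∀ u ∈ C1, (((C1 ∪ On E κ z) \ nb E u).card : ℝ) ≤ 3 * b * (Fintype.card V : ℝ)) ∧
      (1 / 2 - b) * (Fintype.card V : ℝ) ≤ ((C1 ∪ On E κ z).card : ℝ) ∧
      ((C1 ∪ On E κ z).card : ℝ) ≤ (1 / 2 + 2 * b) * (Fintype.card V : ℝ) ∧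
      T0 ⊆ nb E z ∩ C0 ∧ γ / 2 * (Fintype.card V : ℝ) ≤ (T0.card : ℝ) ∧
      (∀ a ∈ T0, ((C0 \ nb E a).card : ℝ) ≤ 3 * b * (Fintype.card V : ℝ)) ∧
      (∀ u ∈ C1, GoodV E κ ρ u) ∧ ∀ a ∈ T0, GoodV E κ ρ a := by
  classical
  refine ⟨R, C0, C1, (nb E z ∩ C0).filter fun x => Typ E b κ z x, h.hR, h.hC, h.hd, h.ne1, h.no,
    fun w hw => h.toCtx.s1 hw, fun w hw => h.toCtx.swap.s1 hw, fun u hu => ?_, h.s5l, h.s5u,
    filter_subset _ _, ?_, ?_, fun u hu => h.b1 hu, ?_⟩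
  · have := h.s5 hu
    linarith
  · have h1 := h.t0 ((nb E z ∩ C0).filter fun x => Typ E b κ z x) fun x hx hx' =>
      mem_filter.2 ⟨hx, hx'⟩
    have nm := h.toCtx.num
    have := nm.bg
    have := nm.kb
    have := nm.k100
    linarith
  · intro a ha
    rw [mem_filter, mem_inter] at ha
    have := h.s6 ha.1.2 ha.2
    linarith
  · intro a ha
    rw [mem_filter, mem_inter] at ha
    exact h.b2 ha.1.2 ha.2

end Split

open Finset Split in
/-- Section 9, structure around a vertex that is not good. -/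
theorem split : S_split := by
  classical
  intro γ hγ
  refine ⟨⌈10 ^ 6 / γ ^ 4⌉₊ + 1, ?_⟩
  intro V _ _ E hE hn hq hdeg z hz
  have hN : (10 : ℝ) ^ 6 / γ ^ 4 ≤ (Fintype.card V : ℝ) := by
    have h1 : (10 : ℝ) ^ 6 / γ ^ 4 ≤ (⌈10 ^ 6 / γ ^ 4⌉₊ : ℝ) := Nat.le_ceil _
    have h2 : ((⌈10 ^ 6 / γ ^ 4⌉₊ + 1 : ℕ) : ℝ) ≤ (Fintype.card V : ℝ) := by exact_mod_cast hn
    push_cast at h2
    linarith
  have hNpos : (0 : ℝ) < (Fintype.card V : ℝ) := by
    have : 0 < Fintype.card V := by omega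
    exact_mod_cast this
  have hg1 : γ ≤ 1 := by
    have h1 := hq z z
    have h2 : (((nb E z).filter fun a => γ * (Fintype.card V : ℝ) ≤ (cod E a z : ℝ)).card : ℝ) ≤
        (Fintype.card V : ℝ) := by exact_mod_cast card_le_univ _
    by_contra hc
    push Not at hc
    nlinarith
  have hbig : 100 ≤ γ ^ 4 / 10 ^ 4 * (Fintype.card V : ℝ) := by
    have hg4 : 0 < γ ^ 4 := by positivity
    rw [div_le_iff₀ hg4] at hN
    linarith
  unfold GoodV at hz
  push Not at hz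
  obtain ⟨R, hR, y, hy, y', hy', hcon⟩ := hz
  set X := Bn E (γ ^ 4 / 10 ^ 4) z \ R with hX
  set D := X.filter fun w => Conn E X y w with hD
  have hyD : y ∈ D := by rw [hD, mem_filter]; exact ⟨hy, conn_refl _⟩
  have hyD' : y' ∈ X \ D := by
    rw [mem_sdiff, hD, mem_filter]
    exact ⟨hy', fun h => hcon h.2⟩
  have hno : ∀ u ∈ D, ∀ v ∈ X \ D, s(u, v) ∉ E := by
    intro u hu v hv huv
    rw [mem_sdiff] at hv
    rw [hD, mem_filter] at hu
    refine hv.2 ?_
    rw [hD, mem_filter]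
    exact ⟨hv.1, conn_trans hu.2 (conn_step huv hv.1)⟩
  have ctx : Ctx E γ (γ ^ 2 / 100) (γ ^ 4 / 10 ^ 4) (γ ^ 4 / 10 ^ 5) z R D (X \ D) :=
    { ll := hE, deg := hdeg, q3 := hq, g0 := hγ, g1 := hg1, hb := rfl, hk := rfl, hr := rfl,
      big := hbig, hR := hR, hC := union_sdiff_of_subset (filter_subset _ _),
      hd := disjoint_sdiff, ne0 := ⟨y, hyD⟩, ne1 := ⟨y', hyD'⟩, no := hno }
  -- a typical vertex
  have nm := ctx.num
  have hbg := nm.bg
  have hkb := nm.kb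
  have hk := nm.k100
  have hpk := nm.pk
  have htyp : ∃ a ∈ D ∪ X \ D, a ∈ nb E z ∧ Typ E (γ ^ 2 / 100) (γ ^ 4 / 10 ^ 4) z a := by
    by_contra hc
    push Not at hc
    have h1 := ctx.qz z
    have h2 := ctx.s2 (nb E z ∩ (D ∪ X \ D)) inter_subset_left fun a ha => by
      rw [mem_inter] at ha
      exact hc a ha.2 ha.1
    linarith
  obtain ⟨a, ha, haz, hat⟩ := htyp
  rcases mem_union.1 ha with h1 | h1
  · exact Ctx2.final { toCtx := ctx, typ := ⟨a, h1, haz, hat⟩ }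
  · exact Ctx2.final { toCtx := ctx.swap, typ := ⟨a, h1, haz, hat⟩ }

end Pool.Agent.H483C6
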