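import Pool.Agent.H483C6.Stmts

set_option autoImplicit false

namespace Pool.Agent.H483C6

open Finset

namespace Stab

section aux

variable {V : Type} [Fintype V] [DecidableEq V]

theorem mem_nb (E : Finset (Sym2 V)) (v u : V) : u ∈ nb E v ↔ s(v, u) ∈ E := by
  simp [nb]

theorem nb_symm (E : Finset (Sym2 V)) (v u : V) : u ∈ nb E v ↔ v ∈ nb E u := by
  rw [mem_nb, mem_nb, Sym2.eq_swap]

theorem cross_card (E : Finset (Sym2 V)) (A : Finset V) :
    (cross E A).card = ∑ a ∈ A, (nb E a ∩ Aᶜ).card := by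
  have h1 : cross E A =
      ((A ×ˢ Aᶜ).filter (fun p => s(p.1, p.2) ∈ E)).image (fun p => s(p.1, p.2)) := by
    ext e
    induction e using Sym2.ind with
    | _ a b =>
      simp only [cross, mem_filter, mem_image, mem_product, mem_compl, Finset.mk_mem_sym2_iff, Prod.exists]
      constructor
      · rintro ⟨hE, h1, h2⟩
        by_cases ha : a ∈ A
        · have hb : b ∉ A := fun hb => h1 ⟨ha, hb⟩
          exact ⟨a, b, ⟨⟨ha, hb⟩, hE⟩, rfl⟩
        · have hb : b ∈ A := by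
            by_contra hb
            exact h2 ⟨ha, hb⟩
          exact ⟨b, a, ⟨⟨hb, ha⟩, by rwa [Sym2.eq_swap]⟩, Sym2.eq_swap⟩
      · rintro ⟨x, y, ⟨⟨hx, hy⟩, hE⟩, he⟩
        rw [Sym2.eq_iff] at he
        rcases he with ⟨rfl, rfl⟩ | ⟨rfl, rfl⟩
        · exact ⟨hE, fun h => hy h.2, fun h => h.1 hx⟩
        · exact ⟨by rwa [Sym2.eq_swap], fun h => hy h.1, fun h => h.2 hx⟩
  rw [h1, card_image_of_injOn]
  · rw [card_filter, sum_product]
    apply sum_congr rfl
    intro a _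
    rw [← card_filter]
    congr 1
    ext b
    simp only [mem_filter, mem_compl, mem_inter, mem_nb]
    tauto
  · intro p hp q hq h
    simp only [coe_filter, mem_product, mem_compl, Set.mem_ofPred_eq] at hp hq
    rcases Sym2.eq_iff.mp h with ⟨h1, h2⟩ | ⟨h1, h2⟩
    · exact Prod.ext h1 h2
    · exfalso
      apply hq.1.2
      rw [← h1]
      exact hp.1.1

theorem cross_compl (E : Finset (Sym2 V)) (A : Finset V) : cross E Aᶜ = cross E A := by
  unfold cross
  rw [compl_compl]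
  ext e
  simp only [mem_filter]
  tauto

end aux

/-- the main argument with explicit constants -/
theorem main {V : Type} [Fintype V] [DecidableEq V] (E : Finset (Sym2 V)) (n ε θ γ : ℝ)
    (hn : n = (Fintype.card V : ℝ)) (hε : 0 < ε) (hε1 : ε ≤ 1 / 10) (hθ : θ = ε / 4) (hγ : γ = ε ^ 2 / 32)
    (hn1 : 1 ≤ γ * n) (hdeg : ∀ v, n ≤ 2 * (dg E v : ℝ) + 1) (hQ : ¬ Q3 E γ) :
    ∃ A : Finset V, (1 / 2 - ε) * n ≤ (A.card : ℝ) ∧ (1 / 2 - ε) * n ≤ (Aᶜ.card : ℝ) ∧
        (((cross E A).card : ℝ) ≤ ε * n ^ 2 ∨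
          (A.card : ℝ) * (Aᶜ.card : ℝ) - ε * n ^ 2 ≤ ((cross E A).card : ℝ)) := by
  classical
  have hγ0 : 0 < γ := by rw [hγ]; positivity
  have hθ0 : 0 < θ := by rw [hθ]; positivity
  have hγε : γ ≤ ε / 320 := by rw [hγ]; nlinarith
  have hn0 : 0 < n := by
    by_contra h
    push Not at h
    nlinarith
  have hγθ : 2 * γ / θ = ε / 4 := by
    rw [hγ, hθ]; field_simp; norm_num
  -- the bad pair
  unfold Q3 at hQ
  push Not at hQ
  obtain ⟨u, v, huv⟩ := hQ
  rw [← hn] at huv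
  obtain ⟨M, hM⟩ : ∃ M : Finset V, M = (nb E v)ᶜ := ⟨_, rfl⟩
  obtain ⟨T, hT⟩ : ∃ T : Finset V, T = (nb E u).filter (fun a => (cod E a v : ℝ) < γ * n) := ⟨_, rfl⟩
  have hMc : Mᶜ = nb E v := by rw [hM, compl_compl]
  have hTcard : (dg E u : ℝ) ≤ (T.card : ℝ) + γ * n := by
    have h1 := Finset.card_filter_add_card_filter_not (s := nb E u) (fun a => γ * n ≤ (cod E a v : ℝ))
    have h2 : ((nb E u).filter (fun a => ¬ γ * n ≤ (cod E a v : ℝ))) = T := by
      rw [hT]
      apply Finset.filter_congr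
      intro a _
      exact not_le
    rw [h2] at h1
    have h3 : ((nb E u).card : ℝ) = (((nb E u).filter (fun a => γ * n ≤ (cod E a v : ℝ))).card : ℝ) + T.card := by
      exact_mod_cast h1.symm
    unfold dg
    linarith
  have hTtyp : ∀ a ∈ T, ((nb E a ∩ Mᶜ).card : ℝ) < γ * n := by
    intro a ha
    rw [hT, mem_filter] at ha
    rw [hMc]
    exact ha.2
  have hMcard : (M.card : ℝ) + (Mᶜ.card : ℝ) = n := by
    rw [hn]
    exact_mod_cast Finset.card_add_card_compl M
  have hMc1 : (Mᶜ.card : ℝ) = dg E v := by rw [hMc]; rfl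
  have hMle : (M.card : ℝ) ≤ (n + 1) / 2 := by
    have := hdeg v
    linarith
  have hcap : ∀ a, ((nb E a).card : ℝ) = ((nb E a ∩ M).card : ℝ) + ((nb E a ∩ Mᶜ).card : ℝ) := by
    intro a
    have h1 : nb E a ∩ Mᶜ = nb E a \ M := by
      ext x; simp
    rw [h1]
    exact_mod_cast (Finset.card_inter_add_card_sdiff (nb E a) M).symm
  have hTM : ∀ a ∈ T, (n - 1) / 2 - γ * n ≤ ((nb E a ∩ M).card : ℝ) := by
    intro a ha
    have h1 := hdeg a
    have h2 := hcap a
    have h3 := hTtyp a ha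
    have h4 : ((nb E a).card : ℝ) = dg E a := rfl
    linarith
  have hMT : ∀ a ∈ T, ((M \ nb E a).card : ℝ) ≤ γ * n + 1 := by
    intro a ha
    have h1 : ((M ∩ nb E a).card : ℝ) + ((M \ nb E a).card : ℝ) = M.card := by
      exact_mod_cast Finset.card_inter_add_card_sdiff M (nb E a)
    have h2 := hTM a ha
    rw [Finset.inter_comm] at h2
    linarith
  have hTn : (n - 1) / 2 - γ * n ≤ (T.card : ℝ) := by
    have := hdeg u
    linarith
  have hn10 : 3200 ≤ n := by
    have : 1 ≤ ε / 320 * n := by nlinarith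
    nlinarith
  have hεn : 32 ≤ ε * n := by
    have : 1 ≤ ε / 320 * n := by nlinarith
    linarith
  have hγn : γ * n ≤ ε / 320 * n := mul_le_mul_of_nonneg_right hγε hn0.le
  have hγn1 : γ * n ≤ n / 3200 := by
    have : ε * n ≤ 1 / 10 * n := mul_le_mul_of_nonneg_right hε1 hn0.le
    linarith
  have hTne : T.Nonempty := by
    rw [← Finset.card_pos]
    have h1 : (0 : ℝ) < T.card := by linarith
    exact_mod_cast h1
  have hMge : (n - 1) / 2 - γ * n ≤ (M.card : ℝ) := by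
    obtain ⟨a, ha⟩ := hTne
    have h1 := hTM a ha
    have h2 : ((nb E a ∩ M).card : ℝ) ≤ M.card := by
      exact_mod_cast Finset.card_le_card Finset.inter_subset_right
    linarith
  have hMcle : (Mᶜ.card : ℝ) ≤ (n + 1) / 2 + γ * n := by linarith
  refine ⟨M, by linarith, ?_, ?_⟩
  · have := hdeg v
    linarith
  by_cases hI : θ * n ≤ ((T ∩ M).card : ℝ)
  · -- two cliques
    left
    -- a vertex of `T ∩ M` with few non-neighbours in `T`
    obtain ⟨x, hx, hxT⟩ : ∃ x ∈ T ∩ M, ((T \ nb E x).card : ℝ) ≤ ε / 4 * n := by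
      by_contra hcon
      push Not at hcon
      have h1 : ∑ x ∈ T ∩ M, (T \ nb E x).card = ∑ a ∈ T, ((T ∩ M) \ nb E a).card := by
        have e1 : ∀ x, (T \ nb E x).card = ∑ a ∈ T, if a ∉ nb E x then 1 else 0 := by
          intro x
          rw [Finset.sdiff_eq_filter, Finset.card_filter]
        have e2 : ∀ a, ((T ∩ M) \ nb E a).card = ∑ x ∈ T ∩ M, if x ∉ nb E a then 1 else 0 := by
          intro a
          rw [Finset.sdiff_eq_filter, Finset.card_filter]
        simp only [e1, e2]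
        rw [Finset.sum_comm]
        refine Finset.sum_congr rfl (fun a _ => Finset.sum_congr rfl (fun x _ => ?_))
        exact if_congr (not_congr (nb_symm E x a)) rfl rfl
      have h2 : ∀ a ∈ T, (((T ∩ M) \ nb E a).card : ℝ) ≤ 2 * γ * n := by
        intro a ha
        have h3 := hMT a ha
        have h4 : (((T ∩ M) \ nb E a).card : ℝ) ≤ ((M \ nb E a).card : ℝ) := by
          exact_mod_cast Finset.card_le_card (Finset.sdiff_subset_sdiff Finset.inter_subset_right (le_refl _))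
        linarith
      have h3 : ((∑ a ∈ T, ((T ∩ M) \ nb E a).card : ℕ) : ℝ) ≤ T.card * (2 * γ * n) := by
        push_cast
        calc ∑ a ∈ T, (((T ∩ M) \ nb E a).card : ℝ) ≤ ∑ _a ∈ T, 2 * γ * n := Finset.sum_le_sum h2
          _ = T.card * (2 * γ * n) := by rw [Finset.sum_const, nsmul_eq_mul]
      have hne : (T ∩ M).Nonempty := by
        rw [← Finset.card_pos]
        have : (0 : ℝ) < (T ∩ M).card := lt_of_lt_of_le (by positivity) hI
        exact_mod_cast this
      have h4 : ((T ∩ M).card : ℝ) * (ε / 4 * n) < ((∑ x ∈ T ∩ M, (T \ nb E x).card : ℕ) : ℝ) := by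
        push_cast
        calc ((T ∩ M).card : ℝ) * (ε / 4 * n) = ∑ _x ∈ T ∩ M, ε / 4 * n := by
              rw [Finset.sum_const, nsmul_eq_mul]
          _ < ∑ x ∈ T ∩ M, ((T \ nb E x).card : ℝ) := Finset.sum_lt_sum_of_nonempty hne hcon
      rw [h1] at h4
      have h5 : (T.card : ℝ) ≤ n := by
        rw [hn]
        exact_mod_cast Finset.card_le_univ T
      have h6 : θ * n * (ε / 4 * n) ≤ ((T ∩ M).card : ℝ) * (ε / 4 * n) :=
        mul_le_mul_of_nonneg_right hI (by positivity)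
      have h7 : (T.card : ℝ) * (2 * γ * n) ≤ n * (2 * γ * n) :=
        mul_le_mul_of_nonneg_right h5 (by positivity)
      have h8 : θ * n * (ε / 4 * n) = n * (2 * γ * n) := by
        rw [hθ, hγ]; ring
      linarith
    rw [Finset.mem_inter] at hx
    have h1 : ((T \ M).card : ℝ) ≤ ε / 4 * n + γ * n := by
      have h2 : T \ M ⊆ (T \ nb E x) ∪ (nb E x ∩ Mᶜ) := by
        intro a ha
        rw [Finset.mem_sdiff] at ha
        rw [Finset.mem_union, Finset.mem_sdiff, Finset.mem_inter, Finset.mem_compl]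
        by_cases h : a ∈ nb E x
        · exact Or.inr ⟨h, ha.2⟩
        · exact Or.inl ⟨ha.1, h⟩
      have h3 : ((T \ M).card : ℝ) ≤ ((T \ nb E x).card : ℝ) + ((nb E x ∩ Mᶜ).card : ℝ) := by
        exact_mod_cast (Finset.card_le_card h2).trans (Finset.card_union_le _ _)
      have h4 := hTtyp x hx.1
      linarith
    have h2 : ((T ∩ M).card : ℝ) + ((T \ M).card : ℝ) = T.card := by
      exact_mod_cast Finset.card_inter_add_card_sdiff T M
    have h3 : ((M ∩ T).card : ℝ) + ((M \ T).card : ℝ) = M.card := by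
      exact_mod_cast Finset.card_inter_add_card_sdiff M T
    have h4 : ((M \ T).card : ℝ) ≤ 1 + (ε / 4 + 2 * γ) * n := by
      rw [Finset.inter_comm] at h3
      linarith
    rw [cross_card]
    have h5 : ∑ a ∈ M, (nb E a ∩ Mᶜ).card =
        ∑ a ∈ M ∩ T, (nb E a ∩ Mᶜ).card + ∑ a ∈ M \ T, (nb E a ∩ Mᶜ).card := by
      rw [← Finset.sum_union (Finset.disjoint_left.mpr (fun a ha hb => (Finset.mem_sdiff.mp hb).2
        (Finset.mem_inter.mp ha).2))]
      apply Finset.sum_congr _ (fun _ _ => rfl)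
      ext a
      simp only [mem_union, mem_inter, mem_sdiff]
      tauto
    rw [h5]
    push_cast
    have h6 : ∑ a ∈ M ∩ T, ((nb E a ∩ Mᶜ).card : ℝ) ≤ n * (γ * n) := by
      calc ∑ a ∈ M ∩ T, ((nb E a ∩ Mᶜ).card : ℝ) ≤ ∑ _a ∈ M ∩ T, γ * n :=
            Finset.sum_le_sum (fun a ha => (hTtyp a (Finset.mem_inter.mp ha).2).le)
        _ = ((M ∩ T).card : ℝ) * (γ * n) := by rw [Finset.sum_const, nsmul_eq_mul]
        _ ≤ n * (γ * n) := by
            apply mul_le_mul_of_nonneg_right _ (by positivity)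
            rw [hn]
            exact_mod_cast Finset.card_le_univ _
    have h7 : ∑ a ∈ M \ T, ((nb E a ∩ Mᶜ).card : ℝ) ≤ (1 + (ε / 4 + 2 * γ) * n) * n := by
      calc ∑ a ∈ M \ T, ((nb E a ∩ Mᶜ).card : ℝ) ≤ ∑ _a ∈ M \ T, n :=
            Finset.sum_le_sum (fun a _ => by
              rw [hn]
              exact_mod_cast Finset.card_le_univ _)
        _ = ((M \ T).card : ℝ) * n := by rw [Finset.sum_const, nsmul_eq_mul]
        _ ≤ _ := mul_le_mul_of_nonneg_right h4 hn0.le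
    have h8 : n * (γ * n) + (1 + (ε / 4 + 2 * γ) * n) * n ≤ ε * n ^ 2 := by
      have e : n * (γ * n) + (1 + (ε / 4 + 2 * γ) * n) * n = n * (3 * (γ * n) + 1 + ε / 4 * n) := by ring
      rw [e, show ε * n ^ 2 = n * (ε * n) by ring]
      apply mul_le_mul_of_nonneg_left _ hn0.le
      linarith
    linarith
  · -- nearly complete bipartite
    right
    push Not at hI
    have h2 : ((T ∩ M).card : ℝ) + ((T \ M).card : ℝ) = T.card := by
      exact_mod_cast Finset.card_inter_add_card_sdiff T M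
    rw [← cross_compl, cross_card, compl_compl]
    have h3 : ∑ a ∈ T \ M, (nb E a ∩ M).card ≤ ∑ a ∈ Mᶜ, (nb E a ∩ M).card := by
      apply Finset.sum_le_sum_of_subset
      intro a ha
      rw [Finset.mem_compl]
      exact (Finset.mem_sdiff.mp ha).2
    have h4 : ((T \ M).card : ℝ) * ((M.card : ℝ) - (γ * n + 1)) ≤ ∑ a ∈ T \ M, ((nb E a ∩ M).card : ℝ) := by
      calc ((T \ M).card : ℝ) * ((M.card : ℝ) - (γ * n + 1)) = ∑ _a ∈ T \ M, ((M.card : ℝ) - (γ * n + 1)) := by
            rw [Finset.sum_const, nsmul_eq_mul]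
        _ ≤ _ := by
            apply Finset.sum_le_sum
            intro a ha
            have h5 := hMT a (Finset.mem_sdiff.mp ha).1
            have h6 : ((M ∩ nb E a).card : ℝ) + ((M \ nb E a).card : ℝ) = M.card := by
              exact_mod_cast Finset.card_inter_add_card_sdiff M (nb E a)
            rw [Finset.inter_comm] at h6
            linarith
    have h5 : ((∑ a ∈ T \ M, (nb E a ∩ M).card : ℕ) : ℝ) ≤ ((∑ a ∈ Mᶜ, (nb E a ∩ M).card : ℕ) : ℝ) := by
      exact_mod_cast h3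
    have h6 : ((∑ a ∈ T \ M, (nb E a ∩ M).card : ℕ) : ℝ) = ∑ a ∈ T \ M, ((nb E a ∩ M).card : ℝ) := by
      push_cast; rfl
    have h7 : (Mᶜ.card : ℝ) - (1 + (2 * γ + θ) * n) ≤ ((T \ M).card : ℝ) := by linarith
    have h8 : 0 ≤ (M.card : ℝ) - (γ * n + 1) := by linarith
    have h9 : ((Mᶜ.card : ℝ) - (1 + (2 * γ + θ) * n)) * ((M.card : ℝ) - (γ * n + 1)) ≤
        ((T \ M).card : ℝ) * ((M.card : ℝ) - (γ * n + 1)) := mul_le_mul_of_nonneg_right h7 h8
    have hMn : (M.card : ℝ) ≤ n := by linarith [(Nat.cast_nonneg (Mᶜ.card) : (0 : ℝ) ≤ _)]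
    have hMcn : (Mᶜ.card : ℝ) ≤ n := by linarith [(Nat.cast_nonneg (M.card) : (0 : ℝ) ≤ _)]
    have h10 : (M.card : ℝ) * (1 + (2 * γ + θ) * n) ≤ n * (1 + (2 * γ + θ) * n) :=
      mul_le_mul_of_nonneg_right hMn (by positivity)
    have h11 : (Mᶜ.card : ℝ) * (γ * n + 1) ≤ n * (γ * n + 1) :=
      mul_le_mul_of_nonneg_right hMcn (by positivity)
    have h12 : 0 ≤ (1 + (2 * γ + θ) * n) * (γ * n + 1) := by positivity
    have h13 : n * (1 + (2 * γ + θ) * n) + n * (γ * n + 1) ≤ ε * n ^ 2 := by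
      have e : n * (1 + (2 * γ + θ) * n) + n * (γ * n + 1) = n * (2 + 3 * (γ * n) + θ * n) := by ring
      rw [e, show ε * n ^ 2 = n * (ε * n) by ring]
      apply mul_le_mul_of_nonneg_left _ hn0.le
      rw [hθ]
      linarith
    nlinarith

end Stab

/-- TARGET: stability (S_stab in Stmts.lean, unchanged) -/
theorem stab : S_stab := by
  intro ε hε
  obtain ⟨ε', hε'⟩ : ∃ ε' : ℝ, ε' = min ε (1 / 10) := ⟨_, rfl⟩
  have h1 : 0 < ε' := by rw [hε']; exact lt_min hε (by norm_num)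
  have h2 : ε' ≤ 1 / 10 := by rw [hε']; exact min_le_right _ _
  have h3 : ε' ≤ ε := by rw [hε']; exact min_le_left _ _
  refine ⟨ε' ^ 2 / 32, by positivity, ⌈(ε' ^ 2 / 32)⁻¹⌉₊, ?_⟩
  intro V _ _ E _ hn hdeg hQ
  have h4 : (ε' ^ 2 / 32)⁻¹ ≤ (Fintype.card V : ℝ) := (Nat.le_ceil _).trans (by exact_mod_cast hn)
  have h5 : 1 ≤ ε' ^ 2 / 32 * (Fintype.card V : ℝ) := by
    have h6 : 0 < ε' ^ 2 / 32 := by positivity
    calc (1 : ℝ) = ε' ^ 2 / 32 * (ε' ^ 2 / 32)⁻¹ := (mul_inv_cancel₀ h6.ne').symm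
      _ ≤ _ := mul_le_mul_of_nonneg_left h4 h6.le
  obtain ⟨A, a1, a2, a3⟩ := Stab.main E (Fintype.card V : ℝ) ε' (ε' / 4) (ε' ^ 2 / 32) rfl h1 h2 rfl rfl h5
    (fun v => by exact_mod_cast hdeg v) hQ
  have hn0 : (0 : ℝ) ≤ Fintype.card V := Nat.cast_nonneg _
  have h6 : ε' * (Fintype.card V : ℝ) ≤ ε * (Fintype.card V : ℝ) := mul_le_mul_of_nonneg_right h3 hn0
  have h7 : ε' * (Fintype.card V : ℝ) ^ 2 ≤ ε * (Fintype.card V : ℝ) ^ 2 :=
    mul_le_mul_of_nonneg_right h3 (by positivity)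
  refine ⟨A, by linarith, by linarith, ?_⟩
  rcases a3 with a3 | a3
  · left; linarith
  · right; linarith

end Pool.Agent.H483C6
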