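import Pool.Agent.H483C6.Basic
import Pool.Agent.H483C6.Stmts3

/-!
# Section 15.4: the tight case (MP_1bffa4_co, project of helper483)
-/

set_option autoImplicit false
set_option linter.unusedSectionVars false
set_option linter.unusedVariables false

namespace Pool.Agent.H483C6

namespace Tight

open Finset

variable {V : Type} [Fintype V] [DecidableEq V]

/-- the edges between `A` and `B` -/
def Ep (E : Finset (Sym2 V)) (A B : Finset V) : Finset (Sym2 V) :=
  E.filter fun e => ∃ a ∈ A, ∃ b ∈ B, e = s(a, b)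

theorem mem_Ep {E : Finset (Sym2 V)} {A B : Finset V} {x y : V} : s(x, y) ∈ Ep E A B ↔
    s(x, y) ∈ E ∧ ((x ∈ A ∧ y ∈ B) ∨ (x ∈ B ∧ y ∈ A)) := by
  unfold Ep
  rw [mem_filter]
  refine and_congr_right fun _ => ?_
  constructor
  · rintro ⟨a, ha, b, hb, h⟩
    rw [Sym2.eq_iff] at h
    rcases h with ⟨rfl, rfl⟩ | ⟨rfl, rfl⟩
    · exact Or.inl ⟨ha, hb⟩
    · exact Or.inr ⟨hb, ha⟩
  · rintro (⟨ha, hb⟩ | ⟨ha, hb⟩)
    · exact ⟨x, ha, y, hb, rfl⟩
    · exact ⟨y, hb, x, ha, Sym2.eq_swap⟩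

theorem Ep_comm (E : Finset (Sym2 V)) (A B : Finset V) : Ep E A B = Ep E B A := by
  ext e
  induction e using Sym2.ind with
  | _ x y =>
    rw [mem_Ep, mem_Ep]
    tauto

theorem Ep_subset (E : Finset (Sym2 V)) (A B : Finset V) : Ep E A B ⊆ E := filter_subset _ _

theorem Ep_cases {E : Finset (Sym2 V)} {A B : Finset V} {e : Sym2 V} (h : e ∈ Ep E A B) :
    ∃ a ∈ A, ∃ b ∈ B, e = s(a, b) ∧ s(a, b) ∈ E := by
  unfold Ep at h
  rw [mem_filter] at h
  obtain ⟨h1, a, ha, b, hb, rfl⟩ := h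
  exact ⟨a, ha, b, hb, rfl, h1⟩

/-- the tight configuration -/
structure TC (E : Finset (Sym2 V)) (A B : Finset V) (z : V) (m : ℕ) : Prop where
  div : Div6 E
  deg : ∀ v, m ≤ dg E v
  zA : z ∉ A
  zB : z ∉ B
  dis : ∀ v, v ∈ A → v ∉ B
  cov : ∀ v, v = z ∨ v ∈ A ∨ v ∈ B
  cA : A.card = m
  cB : B.card = m
  few : (Ep E A B).card ≤ 4
  big : 30000 ≤ m

variable {E : Finset (Sym2 V)} {A B : Finset V} {z : V} {m : ℕ}

theorem TC.swap (h : TC E A B z m) : TC E B A z m :=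
  { div := h.div, deg := h.deg, zA := h.zB, zB := h.zA,
    dis := fun v hv hv' => h.dis v hv' hv,
    cov := fun v => by rcases h.cov v with h1 | h1 | h1 <;> simp [h1],
    cA := h.cB, cB := h.cA, few := by rw [Ep_comm]; exact h.few, big := h.big }

/-- number of neighbours on the other side -/
def ee (E : Finset (Sym2 V)) (B : Finset V) (a : V) : ℕ := (nb E a ∩ B).card

/-- number of missing neighbours on its own side -/
def ms (E : Finset (Sym2 V)) (z : V) (A : Finset V) (a : V) : ℕ :=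
  ((insert z A).erase a \ nb E a).card

/-- edges inside `insert z A` -/
def KS (E : Finset (Sym2 V)) (z : V) (A : Finset V) : Finset (Sym2 V) :=
  E.filter fun e => e ∈ (insert z A).sym2

theorem KS_subset (E : Finset (Sym2 V)) (z : V) (A : Finset V) : KS E z A ⊆ E := filter_subset _ _

theorem mem_KS {x y : V} : s(x, y) ∈ KS E z A ↔
    s(x, y) ∈ E ∧ x ∈ insert z A ∧ y ∈ insert z A := by
  unfold KS
  rw [mem_filter, mk_mem_sym2_iff]

theorem KS_sub_sym2 : KS E z A ⊆ (insert z A).sym2 := by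
  intro e he
  unfold KS at he
  rw [mem_filter] at he
  exact he.2

theorem TC.ll (h : TC E A B z m) : Loopless E := h.div.loopless

theorem TC.nself (h : TC E A B z m) (v : V) : v ∉ nb E v := by
  rw [mem_nb]
  intro hv
  exact h.ll.ne hv rfl

theorem TC.cX (h : TC E A B z m) : (insert z A).card = m + 1 := by
  rw [card_insert_of_notMem h.zA, h.cA]

theorem TC.notX {b : V} (h : TC E A B z m) (hb : b ∈ B) : b ∉ insert z A := by
  rw [mem_insert]
  rintro (rfl | h1)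
  · exact h.zB hb
  · exact h.dis b h1 hb

/-- degree inside `insert z A` plus missing -/
theorem TC.inX (h : TC E A B z m) {v : V} (hv : v ∈ insert z A) :
    (nb E v ∩ insert z A).card + ms E z A v = m := by
  unfold ms
  have h1 : nb E v ∩ insert z A = nb E v ∩ (insert z A).erase v := by
    ext x
    rw [mem_inter, mem_inter, mem_erase]
    constructor
    · rintro ⟨e1, e2⟩
      refine ⟨e1, ?_, e2⟩
      rintro rfl
      exact h.nself x e1
    · rintro ⟨e1, e2, e3⟩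
      exact ⟨e1, e3⟩
  have h2 : ((insert z A).erase v).card = m := by
    rw [card_erase_of_mem hv, h.cX]; rfl
  rw [h1, inter_comm, add_comm, card_sdiff_add_card_inter, h2]

theorem TC.degeq (h : TC E A B z m) {a : V} (ha : a ∈ A) :
    ms E z A a + dg E a = m + ee E B a := by
  have h1 := h.inX (mem_insert_of_mem (a := a) (b := z) ha)
  have h2 : nb E a = (nb E a ∩ insert z A) ∪ (nb E a ∩ B) := by
    ext x
    rw [mem_union, mem_inter, mem_inter, mem_insert]
    have := h.cov x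
    tauto
  have h3 : Disjoint (nb E a ∩ insert z A) (nb E a ∩ B) := by
    rw [disjoint_left]
    intro x hx hx'
    rw [mem_inter] at hx hx'
    exact h.notX hx'.2 hx.2
  have h4 : dg E a = (nb E a ∩ insert z A).card + ee E B a := by
    unfold dg ee
    conv_lhs => rw [h2]
    rw [card_union_of_disjoint h3]
  omega

theorem TC.msle (h : TC E A B z m) {a : V} (ha : a ∈ A) : ms E z A a ≤ ee E B a := by
  have h1 := h.degeq ha
  have h2 := h.deg a
  omega

/-- a clean vertex of `A` -/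
def Cl (E : Finset (Sym2 V)) (A B : Finset V) (v : V) : Prop := v ∈ A ∧ nb E v ∩ B = ∅

theorem TC.cladj (h : TC E A B z m) {a v : V} (ha : Cl E A B a) (hv : v ∈ insert z A)
    (hne : v ≠ a) : s(a, v) ∈ E := by
  have h1 := h.msle ha.1
  unfold ee at h1
  rw [ha.2, card_empty] at h1
  have h2 : (insert z A).erase a \ nb E a = ∅ := by
    rw [← card_eq_zero]
    unfold ms at h1
    omega
  by_contra hc
  have : v ∈ (insert z A).erase a \ nb E a := by
    rw [mem_sdiff, mem_erase, mem_nb]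
    exact ⟨⟨hne, hv⟩, hc⟩
  rw [h2] at this
  simp at this

theorem TC.nbKS (h : TC E A B z m) {v : V} (hv : v ∈ insert z A) :
    nb (KS E z A) v = nb E v ∩ insert z A := by
  ext x
  rw [mem_nb, mem_KS, mem_inter, mem_nb]
  tauto

theorem TC.msz (h : TC E A B z m) : ms E z A z = (A \ nb E z).card := by
  unfold ms
  rw [erase_insert h.zA]

theorem TC.sumK (h : TC E A B z m) :
    2 * (KS E z A).card + ∑ a ∈ A, ms E z A a + (A \ nb E z).card = m * (m + 1) := by
  have h1 := sum_dg_of_subset (h.ll.mono (KS_subset E z A)) (KS_sub_sym2 (E := E) (z := z) (A := A))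
  rw [sum_insert h.zA] at h1
  have h2 : ∀ v ∈ insert z A, dg (KS E z A) v + ms E z A v = m := by
    intro v hv
    unfold dg
    rw [h.nbKS hv]
    exact h.inX hv
  have h3 : ∑ a ∈ A, (dg (KS E z A) a + ms E z A a) = ∑ a ∈ A, m :=
    sum_congr rfl fun a ha => h2 a (mem_insert_of_mem ha)
  rw [sum_add_distrib, sum_const, h.cA, smul_eq_mul] at h3
  have h4 := h2 z (mem_insert_self _ _)
  rw [h.msz] at h4
  have h5 : m * (m + 1) = m * m + m := by ring
  rw [h5]
  omega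

theorem TC.sumE (h : TC E A B z m) : ∑ a ∈ A, ee E B a = (Ep E A B).card := by
  have h1 : Ep E A B = A.biUnion fun a => (nb E a ∩ B).image fun b => s(a, b) := by
    ext e
    rw [mem_biUnion]
    constructor
    · intro he
      obtain ⟨a, ha, b, hb, rfl, hab⟩ := Ep_cases he
      refine ⟨a, ha, mem_image.2 ⟨b, ?_, rfl⟩⟩
      rw [mem_inter, mem_nb]
      exact ⟨hab, hb⟩
    · rintro ⟨a, ha, he⟩
      rw [mem_image] at he
      obtain ⟨b, hb, rfl⟩ := he
      rw [mem_inter, mem_nb] at hb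
      rw [mem_Ep]
      exact ⟨hb.1, Or.inl ⟨ha, hb.2⟩⟩
  rw [h1, card_biUnion]
  · refine sum_congr rfl fun a ha => ?_
    unfold ee
    rw [card_image_of_injOn]
    intro b hb b' hb' hbb
    simp only at hbb
    rw [Sym2.eq_iff] at hbb
    rcases hbb with hbb | hbb
    · exact hbb.2
    · exact hbb.2.trans hbb.1
  · intro a ha a' ha' hne
    rw [Function.onFun, disjoint_left]
    intro e he he'
    rw [mem_image] at he he'
    obtain ⟨b, hb, rfl⟩ := he
    obtain ⟨b', hb', hbb⟩ := he'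
    rw [mem_inter] at hb hb'
    rw [Sym2.eq_iff] at hbb
    rcases hbb with hbb | hbb
    · exact hne hbb.1.symm
    · rw [hbb.1] at ha'
      exact h.dis _ ha' hb.2

theorem TC.even_m (h : TC E A B z m) {a : V} (ha : Cl E A B a) : Even m := by
  have h1 := h.degeq ha.1
  have h2 := h.msle ha.1
  have h3 : ee E B a = 0 := by unfold ee; rw [ha.2, card_empty]
  have h4 := h.div.even a
  have : dg E a = m := by omega
  rwa [this] at h4

/-- the vertices of `A` that are not clean -/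
def NC (E : Finset (Sym2 V)) (A B : Finset V) : Finset V := A.filter fun a => nb E a ∩ B ≠ ∅

theorem TC.ncard (h : TC E A B z m) : (NC E A B).card ≤ (Ep E A B).card := by
  rw [← h.sumE]
  unfold NC
  rw [card_filter]
  refine sum_le_sum fun a ha => ?_
  split_ifs with h1
  · unfold ee
    rw [Nat.one_le_iff_ne_zero, Ne, card_eq_zero]
    exact h1
  · exact Nat.zero_le _

theorem TC.fresh (h : TC E A B z m) (O : Finset V) (hO : O.card ≤ 60) :
    ∃ c, Cl E A B c ∧ c ∉ O := by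
  by_contra hcon
  push Not at hcon
  have h1 : A ⊆ NC E A B ∪ O := by
    intro a ha
    rw [mem_union]
    by_cases hc : nb E a ∩ B = ∅
    · exact Or.inr (hcon a ⟨ha, hc⟩)
    · left
      unfold NC
      rw [mem_filter]
      exact ⟨ha, hc⟩
  have h2 := (card_le_card h1).trans (card_union_le _ _)
  have h3 := h.ncard
  have h4 := h.few
  have h5 := h.big
  have h6 := h.cA
  omega

theorem TC.evm (h : TC E A B z m) : Even m := by
  obtain ⟨c, hc, _⟩ := h.fresh ∅ (by simp)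
  exact h.even_m hc

theorem TC.par (h : TC E A B z m) {a : V} (ha : a ∈ A) :
    ms E z A a ≤ ee E B a ∧ (ms E z A a + ee E B a) % 2 = 0 := by
  refine ⟨h.msle ha, ?_⟩
  have h1 := h.degeq ha
  have h2 := h.div.even a
  have h3 := h.evm
  rw [Nat.even_iff] at h2 h3
  omega

theorem TC.splitE (h : TC E A B z m) : E = KS E z A ∪ KS E z B ∪ Ep E A B := by
  ext e
  induction e using Sym2.ind with
  | _ x y =>
    rw [mem_union, mem_union, mem_KS, mem_KS, mem_Ep]
    simp only [mem_insert]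
    constructor
    · intro he
      rcases h.cov x with h1 | h1 | h1 <;> rcases h.cov y with h2 | h2 | h2 <;> tauto
    · rintro ((h1 | h1) | h1)
      · exact h1.1
      · exact h1.1
      · exact h1.1

theorem TC.dKK (h : TC E A B z m) : Disjoint (KS E z A) (KS E z B) := by
  rw [disjoint_left]
  intro e
  induction e using Sym2.ind with
  | _ x y =>
    rw [mem_KS, mem_KS]
    simp only [mem_insert]
    rintro ⟨he, h1, h2⟩ ⟨_, h3, h4⟩
    have hx : x = z := by
      rcases h1 with h1 | h1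
      · exact h1
      · rcases h3 with h3 | h3
        · exact h3
        · exact absurd h3 (h.dis x h1)
    have hy : y = z := by
      rcases h2 with h1 | h1
      · exact h1
      · rcases h4 with h3 | h3
        · exact h3
        · exact absurd h3 (h.dis y h1)
    exact h.ll.ne he (hx.trans hy.symm)

theorem TC.dKE (h : TC E A B z m) : Disjoint (KS E z A) (Ep E A B) := by
  rw [disjoint_left]
  intro e
  induction e using Sym2.ind with
  | _ x y =>
    rw [mem_KS, mem_Ep]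
    rintro ⟨he, h1, h2⟩ ⟨_, h3 | h3⟩
    · exact h.notX h3.2 h2
    · exact h.notX h3.1 h1

theorem TC.cardE (h : TC E A B z m) :
    E.card = (KS E z A).card + (KS E z B).card + (Ep E A B).card := by
  have h1 : Disjoint (KS E z A ∪ KS E z B) (Ep E A B) := by
    rw [disjoint_union_left]
    refine ⟨h.dKE, ?_⟩
    rw [Ep_comm]
    exact h.swap.dKE
  conv_lhs => rw [h.splitE]
  rw [card_union_of_disjoint h1, card_union_of_disjoint h.dKK]

theorem TC.alpha (h : TC E A B z m) : A \ nb E z ⊆ NC E A B := by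
  intro a ha
  rw [mem_sdiff] at ha
  unfold NC
  rw [mem_filter]
  refine ⟨ha.1, fun hc => ha.2 ?_⟩
  rw [mem_nb, Sym2.eq_swap]
  refine h.cladj ⟨ha.1, hc⟩ (mem_insert_self _ _) ?_
  rintro rfl
  exact h.zA ha.1

theorem TC.eele (h : TC E A B z m) {a : V} (ha : a ∈ A) : ee E B a ≤ (Ep E A B).card := by
  rw [← h.sumE]
  exact single_le_sum (f := fun a => ee E B a) (fun _ _ => Nat.zero_le _) ha

theorem TC.msle4 (h : TC E A B z m) {v : V} (hv : v ∈ insert z A) : ms E z A v ≤ 4 := by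
  rcases mem_insert.1 hv with rfl | hv
  · rw [h.msz]
    exact (card_le_card h.alpha).trans (h.ncard.trans h.few)
  · exact (h.msle hv).trans ((h.eele hv).trans h.few)

/-! ### one side after removing the hexagons through the crossing edges -/

theorem side (n0 : ℕ) (hn0 : ∀ (V : Type) [Fintype V] [DecidableEq V] (E : Finset (Sym2 V))
    (X : Finset V), n0 ≤ X.card → E ⊆ X.sym2 → (∀ v ∈ X, 1 / 10 * (X.card : ℝ) ≤ (dg E v : ℝ)) →
    ((X.filter fun v => (dg E v : ℝ) < (1 - 1 / 1000) * (X.card : ℝ)).card : ℝ) ≤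
      1 / 1000 * (X.card : ℝ) → Div6 E → Dec E) (h : TC E A B z m) (hm : n0 ≤ m)
    (H : Finset (Sym2 V)) (hHE : H ⊆ E) (hH : Dec H) (hEp : Ep E A B ⊆ H)
    (hdg : ∀ v, dg H v ≤ 24) (h6 : 6 ∣ (KS E z A \ H).card) : Dec (KS E z A \ H) := by
  have hsub : KS E z A \ H ⊆ (insert z A).sym2 := sdiff_subset.trans KS_sub_sym2
  have hlow : ∀ v ∈ insert z A, m ≤ dg (KS E z A \ H) v + 28 := by
    intro v hv
    have h1 : dg (KS E z A) v ≤ dg (KS E z A \ H) v + dg H v := by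
      refine le_trans (dg_mono ?_ v) (dg_union_le _ _ v)
      intro e he
      rw [mem_union, mem_sdiff]
      by_cases h' : e ∈ H
      · exact Or.inr h'
      · exact Or.inl ⟨he, h'⟩
    have h2 : dg (KS E z A) v + ms E z A v = m := by
      unfold dg
      rw [h.nbKS hv]
      exact h.inX hv
    have h3 := h.msle4 hv
    have h4 := hdg v
    omega
  have hlowR : ∀ v ∈ insert z A, (m : ℝ) ≤ (dg (KS E z A \ H) v : ℝ) + 28 := by
    intro v hv
    exact_mod_cast hlow v hv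
  have hcX : ((insert z A).card : ℝ) = (m : ℝ) + 1 := by
    rw [h.cX]; push_cast; ring
  have hbig : (30000 : ℝ) ≤ (m : ℝ) := by exact_mod_cast h.big
  have hloop : Loopless (KS E z A \ H) := h.ll.mono (sdiff_subset.trans (KS_subset E z A))
  have hevA : ∀ a ∈ A, Even (dg (KS E z A \ H) a) := by
    intro a ha
    have h1 : nb (KS E z A \ H) a = nb (E \ H) a := by
      ext x
      rw [mem_nb, mem_nb, mem_sdiff, mem_sdiff, mem_KS]
      constructor
      · rintro ⟨⟨e1, _⟩, e2⟩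
        exact ⟨e1, e2⟩
      · rintro ⟨e1, e2⟩
        refine ⟨⟨e1, mem_insert_of_mem ha, ?_⟩, e2⟩
        rcases h.cov x with h1 | h1 | h1
        · rw [h1]; exact mem_insert_self _ _
        · exact mem_insert_of_mem h1
        · exact absurd (hEp (mem_Ep.2 ⟨e1, Or.inl ⟨ha, h1⟩⟩)) e2
    have h2 : dg (KS E z A \ H) a = dg (E \ H) a := by unfold dg; rw [h1]
    rw [h2]
    exact (h.div.sdiff hH.div6 hHE).even a
  refine hn0 V (KS E z A \ H) (insert z A) (by rw [h.cX]; omega) hsub ?_ ?_ ⟨hloop, ?_, h6⟩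
  · intro v hv
    have := hlowR v hv
    rw [hcX]
    linarith
  · have : ((insert z A).filter fun v => (dg (KS E z A \ H) v : ℝ) <
        (1 - 1 / 1000) * ((insert z A).card : ℝ)) = ∅ := by
      rw [filter_eq_empty_iff]
      intro v hv
      have := hlowR v hv
      rw [hcX]
      push Not
      linarith
    rw [this, card_empty, hcX]
    push_cast
    linarith
  · intro v
    rcases h.cov v with rfl | hv | hv
    · have h1 := sum_dg_of_subset hloop hsub
      rw [sum_insert h.zA] at h1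
      have h2 : Even (∑ a ∈ A, dg (KS E v A \ H) a) := by
        rw [Nat.even_iff]
        rw [sum_nat_mod]
        rw [sum_congr rfl fun a ha => Nat.even_iff.1 (hevA a ha)]
        simp
      rw [Nat.even_iff] at h2 ⊢
      omega
    · exact hevA v hv
    · rw [dg_eq_zero_of_notMem hsub (h.notX hv)]
      exact Even.zero

theorem reduce (n0 : ℕ) (hn0 : ∀ (V : Type) [Fintype V] [DecidableEq V] (E : Finset (Sym2 V))
    (X : Finset V), n0 ≤ X.card → E ⊆ X.sym2 → (∀ v ∈ X, 1 / 10 * (X.card : ℝ) ≤ (dg E v : ℝ)) →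
    ((X.filter fun v => (dg E v : ℝ) < (1 - 1 / 1000) * (X.card : ℝ)).card : ℝ) ≤
      1 / 1000 * (X.card : ℝ) → Div6 E → Dec E) (h : TC E A B z m) (hm : n0 ≤ m)
    (H : Finset (Sym2 V)) (hHE : H ⊆ E) (hH : Dec H) (hEp : Ep E A B ⊆ H)
    (hdg : ∀ v, dg H v ≤ 24) (h6 : 6 ∣ (KS E z A \ H).card) : Dec E := by
  have h1 := side n0 hn0 h hm H hHE hH hEp hdg h6
  have hE : E = H ∪ ((KS E z A \ H) ∪ (KS E z B \ H)) := by
    ext e
    have h2 : e ∈ E ↔ e ∈ KS E z A ∪ KS E z B ∪ Ep E A B := by rw [← h.splitE]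
    rw [mem_union, mem_union, mem_sdiff, mem_sdiff]
    constructor
    · intro he
      rw [h2, mem_union, mem_union] at he
      by_cases hH' : e ∈ H
      · exact Or.inl hH'
      · right
        rcases he with (he | he) | he
        · exact Or.inl ⟨he, hH'⟩
        · exact Or.inr ⟨he, hH'⟩
        · exact absurd (hEp he) hH'
    · rintro (he | he | he)
      · exact hHE he
      · exact KS_subset _ _ _ he.1
      · exact KS_subset _ _ _ he.1
  have hd1 : Disjoint (KS E z A \ H) (KS E z B \ H) :=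
    h.dKK.mono sdiff_subset sdiff_subset
  have hd2 : Disjoint H ((KS E z A \ H) ∪ (KS E z B \ H)) :=
    disjoint_union_right.2 ⟨disjoint_sdiff, disjoint_sdiff⟩
  have h6' : 6 ∣ (KS E z B \ H).card := by
    have e1 : E.card = H.card + ((KS E z A \ H).card + (KS E z B \ H).card) := by
      conv_lhs => rw [hE]
      rw [card_union_of_disjoint hd2, card_union_of_disjoint hd1]
    have e2 := h.div.six
    have e3 := hH.six
    omega
  have h2 := side n0 hn0 h.swap hm H hHE hH (by rw [Ep_comm]; exact hEp) hdg h6'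
  rw [hE]
  exact hH.union (h1.union h2 hd1) hd2


/-! ### adding hexagons -/

theorem card_filter_hex {a b c d e f : V} (h : [a, b, c, d, e, f].Nodup) (P : Sym2 V → Prop)
    [DecidablePred P] : ((hex a b c d e f).filter P).card =
      (if P s(a, b) then 1 else 0) + ((if P s(b, c) then 1 else 0) + ((if P s(c, d) then 1 else 0) +
      ((if P s(d, e) then 1 else 0) + ((if P s(e, f) then 1 else 0) +
      (if P s(f, a) then 1 else 0))))) := by
  simp only [List.nodup_cons, List.mem_cons, List.not_mem_nil, or_false, not_or, not_false_iff,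
    List.nodup_nil, and_true] at h
  obtain ⟨⟨h1, h2, h3, h4, h5⟩, ⟨h6, h7, h8, h9⟩, ⟨h10, h11, h12⟩, ⟨h13, h14⟩, h15⟩ := h
  rw [card_filter]
  unfold hex
  rw [sum_insert, sum_insert, sum_insert, sum_insert, sum_insert, sum_singleton]
  all_goals simp only [mem_insert, mem_singleton, Sym2.eq_iff]; tauto

/-- a state: `H` is a union of at most `s` hexagons, `F` the crossing edges covered by it, `t` the
number of its edges inside `insert z A` -/
structure St (E : Finset (Sym2 V)) (A B : Finset V) (z : V) (H : Finset (Sym2 V)) (O : Finset V)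
    (F : Finset (Sym2 V)) (t s : ℕ) : Prop where
  sub : H ⊆ E
  dec : Dec H
  inO : H ⊆ O.sym2
  cO : O.card ≤ 6 * s
  cnt : (H ∩ KS E z A).card = t
  cov : H ∩ Ep E A B = F
  Oc : ∀ v ∈ O, v = z ∨ Cl E A B v ∨ Cl E B A v ∨ ∃ e ∈ F, v ∈ e

theorem St.init : St E A B z ∅ ∅ ∅ 0 0 :=
  { sub := empty_subset _, dec := Dec.empty, inO := empty_subset _, cO := by simp, cnt := by simp,
    cov := by simp, Oc := by simp }

/-- the kind of an edge: `0` inside `insert z A`, `2` crossing, `1` the rest -/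
structure Kd (E : Finset (Sym2 V)) (A B : Finset V) (z : V) (H : Finset (Sym2 V)) (τ : Fin 3)
    (e : Sym2 V) : Prop where
  inE : e ∈ E
  nH : e ∉ H
  ks : e ∈ KS E z A ↔ τ = 0
  ep : e ∈ Ep E A B ↔ τ = 2

variable {H : Finset (Sym2 V)} {O : Finset V} {F : Finset (Sym2 V)} {t s : ℕ}

theorem Kd.symm {τ : Fin 3} {x y : V} (h : Kd E A B z H τ s(x, y)) : Kd E A B z H τ s(y, x) := by
  rw [Sym2.eq_swap]; exact h

theorem kd0 (h : TC E A B z m) {x y : V} (he : s(x, y) ∈ E) (hH : s(x, y) ∉ H)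
    (hx : x ∈ insert z A) (hy : y ∈ insert z A) : Kd E A B z H 0 s(x, y) :=
  { inE := he, nH := hH, ks := by simp only [mem_KS, he, hx, hy, and_self],
    ep := by
      rw [mem_Ep]
      constructor
      · rintro ⟨_, h1 | h1⟩
        · exact absurd hy (h.notX h1.2)
        · exact absurd hx (h.notX h1.1)
      · intro h1
        exact absurd h1 (by decide) }

theorem kd1 (h : TC E A B z m) {x y : V} (he : s(x, y) ∈ E) (hH : s(x, y) ∉ H)
    (hx : x ∈ B) (hy : y ∈ insert z B) : Kd E A B z H 1 s(x, y) :=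
  { inE := he, nH := hH,
    ks := by
      rw [mem_KS]
      constructor
      · rintro ⟨_, h1, _⟩
        exact absurd h1 (h.notX hx)
      · intro h1
        exact absurd h1 (by decide)
    ep := by
      rw [mem_Ep]
      constructor
      · rintro ⟨_, h1 | h1⟩
        · exact absurd hx (h.dis _ h1.1)
        · exact absurd hy (h.swap.notX h1.2)
      · intro h1
        exact absurd h1 (by decide) }

theorem kd2 (h : TC E A B z m) {x y : V} (he : s(x, y) ∈ E) (hH : s(x, y) ∉ H)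
    (hx : x ∈ A) (hy : y ∈ B) : Kd E A B z H 2 s(x, y) :=
  { inE := he, nH := hH,
    ks := by
      rw [mem_KS]
      constructor
      · rintro ⟨_, _, h1⟩
        exact absurd h1 (h.notX hy)
      · intro h1
        exact absurd h1 (by decide)
    ep := by
      rw [mem_Ep]
      constructor
      · intro _; rfl
      · intro _
        exact ⟨he, Or.inl ⟨hx, hy⟩⟩ }

theorem St.add (hs : St E A B z H O F t s) {a b c d e f : V} {τ1 τ2 τ3 τ4 τ5 τ6 : Fin 3}
    (hn : [a, b, c, d, e, f].Nodup)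
    (k1 : Kd E A B z H τ1 s(a, b)) (k2 : Kd E A B z H τ2 s(b, c)) (k3 : Kd E A B z H τ3 s(c, d))
    (k4 : Kd E A B z H τ4 s(d, e)) (k5 : Kd E A B z H τ5 s(e, f)) (k6 : Kd E A B z H τ6 s(f, a))
    (G : Finset (Sym2 V)) (hG : hex a b c d e f ∩ Ep E A B = G)
    (hv : ∀ v ∈ ({a, b, c, d, e, f} : Finset V), v = z ∨ Cl E A B v ∨ Cl E B A v ∨ ∃ e ∈ G, v ∈ e) :
    St E A B z (H ∪ hex a b c d e f) (O ∪ {a, b, c, d, e, f}) (F ∪ G)
      (t + ((if τ1 = 0 then 1 else 0) + ((if τ2 = 0 then 1 else 0) + ((if τ3 = 0 then 1 else 0) +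
      ((if τ4 = 0 then 1 else 0) + ((if τ5 = 0 then 1 else 0) +
      (if τ6 = 0 then 1 else 0))))))) (s + 1) := by
  have hd : Disjoint H (hex a b c d e f) := by
    rw [disjoint_right]
    intro x hx
    rw [mem_hex] at hx
    rcases hx with rfl | rfl | rfl | rfl | rfl | rfl
    · exact k1.nH
    · exact k2.nH
    · exact k3.nH
    · exact k4.nH
    · exact k5.nH
    · exact k6.nH
  refine ⟨?_, hs.dec.union (dec_hex hn) hd, ?_, ?_, ?_, ?_, ?_⟩
  · refine union_subset hs.sub ?_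
    intro x hx
    rw [mem_hex] at hx
    rcases hx with rfl | rfl | rfl | rfl | rfl | rfl
    · exact k1.inE
    · exact k2.inE
    · exact k3.inE
    · exact k4.inE
    · exact k5.inE
    · exact k6.inE
  · refine union_subset (hs.inO.trans (sym2_mono subset_union_left)) ?_
    intro x hx
    rw [mem_hex] at hx
    rcases hx with rfl | rfl | rfl | rfl | rfl | rfl <;> rw [mk_mem_sym2_iff] <;> simp
  · have h1 := hs.cO
    have h2 := card_union_le O {a, b, c, d, e, f}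
    have h3 : ({a, b, c, d, e, f} : Finset V).card ≤ 6 := card_le_six
    omega
  · rw [union_inter_distrib_right, card_union_of_disjoint (hd.mono inter_subset_left
      inter_subset_left), hs.cnt, ← filter_mem_eq_inter, card_filter_hex hn]
    simp only [k1.ks, k2.ks, k3.ks, k4.ks, k5.ks, k6.ks]
  · rw [union_inter_distrib_right, hs.cov, hG]
  · intro v hv'
    rcases mem_union.1 hv' with h1 | h1
    · rcases hs.Oc v h1 with h2 | h2 | h2 | ⟨e, h2, h3⟩
      · exact Or.inl h2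
      · exact Or.inr (Or.inl h2)
      · exact Or.inr (Or.inr (Or.inl h2))
      · exact Or.inr (Or.inr (Or.inr ⟨e, mem_union_left _ h2, h3⟩))
    · rcases hv v h1 with h2 | h2 | h2 | ⟨e, h2, h3⟩
      · exact Or.inl h2
      · exact Or.inr (Or.inl h2)
      · exact Or.inr (Or.inr (Or.inl h2))
      · exact Or.inr (Or.inr (Or.inr ⟨e, mem_union_right _ h2, h3⟩))

theorem St.nH (hs : St E A B z H O F t s) {x y : V} (h : x ∉ O ∨ y ∉ O) : s(x, y) ∉ H := by
  intro hx
  have := mk_mem_sym2_iff.1 (hs.inO hx)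
  tauto

theorem TC.fresh3 (h : TC E A B z m) (O : Finset V) (hO : O.card ≤ 50) :
    ∃ c1 c2 c3, Cl E A B c1 ∧ Cl E A B c2 ∧ Cl E A B c3 ∧ c1 ∉ O ∧ c2 ∉ O ∧ c3 ∉ O ∧
      c1 ≠ c2 ∧ c1 ≠ c3 ∧ c2 ≠ c3 := by
  obtain ⟨c1, h1, h2⟩ := h.fresh O (by omega)
  obtain ⟨c2, h3, h4⟩ := h.fresh (insert c1 O) (by
    have := card_insert_le c1 O; omega)
  obtain ⟨c3, h5, h6⟩ := h.fresh (insert c2 (insert c1 O)) (by
    have := card_insert_le c1 O
    have := card_insert_le c2 (insert c1 O)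
    omega)
  rw [mem_insert, not_or] at h4
  rw [mem_insert, mem_insert, not_or, not_or] at h6
  exact ⟨c1, c2, c3, h1, h3, h5, h2, h4.2, h6.2.2, Ne.symm h4.1, Ne.symm h6.2.1, Ne.symm h6.1⟩

theorem TC.neAB (h : TC E A B z m) {x y : V} (hx : x ∈ A) (hy : y ∈ B) : x ≠ y := by
  rintro rfl
  exact h.dis _ hx hy

theorem TC.nezA (h : TC E A B z m) {x : V} (hx : x ∈ A) : x ≠ z := by
  rintro rfl
  exact h.zA hx

theorem union_pair (F : Finset (Sym2 V)) (x y : Sym2 V) : F ∪ {x, y} = insert x (insert y F) := by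
  ext e
  simp only [mem_union, mem_insert, mem_singleton]
  tauto

theorem or4 {p q r u : Prop} (h : p ∨ q ∨ r) : p ∨ q ∨ r ∨ u := by
  rcases h with h | h | h
  · exact Or.inl h
  · exact Or.inr (Or.inl h)
  · exact Or.inr (Or.inr (Or.inl h))

/-- adding a hexagon through one crossing edge -/
theorem St.addS (hs : St E A B z H O F t s) (h : TC E A B z m) {a b v1 v2 v3 v4 : V} (ha : a ∈ A)
    (hb : b ∈ B) (hab : s(a, b) ∈ E) (hH : s(a, b) ∉ H) {τ1 τ2 τ3 τ4 τ5 : Fin 3}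
    (hn : [a, v1, v2, v3, v4, b].Nodup)
    (k1 : Kd E A B z H τ1 s(a, v1)) (k2 : Kd E A B z H τ2 s(v1, v2))
    (k3 : Kd E A B z H τ3 s(v2, v3)) (k4 : Kd E A B z H τ4 s(v3, v4))
    (k5 : Kd E A B z H τ5 s(v4, b)) (t1 : τ1 ≠ 2) (t2 : τ2 ≠ 2) (t3 : τ3 ≠ 2) (t4 : τ4 ≠ 2)
    (t5 : τ5 ≠ 2)
    (hv1 : v1 = z ∨ Cl E A B v1 ∨ Cl E B A v1) (hv2 : v2 = z ∨ Cl E A B v2 ∨ Cl E B A v2)
    (hv3 : v3 = z ∨ Cl E A B v3 ∨ Cl E B A v3) (hv4 : v4 = z ∨ Cl E A B v4 ∨ Cl E B A v4) :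
    ∃ H' O', St E A B z H' O' (insert s(a, b) F)
      (t + ((if τ1 = 0 then 1 else 0) + ((if τ2 = 0 then 1 else 0) + ((if τ3 = 0 then 1 else 0) +
      ((if τ4 = 0 then 1 else 0) + (if τ5 = 0 then 1 else 0)))))) (s + 1) := by
  have k6 : Kd E A B z H 2 s(b, a) := (kd2 h hab hH ha hb).symm
  have hG : hex a v1 v2 v3 v4 b ∩ Ep E A B = {s(a, b)} := by
    ext x
    rw [mem_inter, mem_hex, mem_singleton]
    constructor
    · rintro ⟨rfl | rfl | rfl | rfl | rfl | rfl, hx⟩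
      · exact absurd (k1.ep.1 hx) t1
      · exact absurd (k2.ep.1 hx) t2
      · exact absurd (k3.ep.1 hx) t3
      · exact absurd (k4.ep.1 hx) t4
      · exact absurd (k5.ep.1 hx) t5
      · exact Sym2.eq_swap
    · rintro rfl
      refine ⟨?_, mem_Ep.2 ⟨hab, Or.inl ⟨ha, hb⟩⟩⟩
      right; right; right; right; right
      exact Sym2.eq_swap
  have := hs.add hn k1 k2 k3 k4 k5 k6 {s(a, b)} hG (by
    intro v hv
    simp only [mem_insert, mem_singleton] at hv
    rcases hv with rfl | rfl | rfl | rfl | rfl | rfl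
    · exact Or.inr (Or.inr (Or.inr ⟨s(v, b), mem_singleton_self _, Sym2.mem_mk_left _ _⟩))
    · exact or4 hv1
    · exact or4 hv2
    · exact or4 hv3
    · exact or4 hv4
    · exact Or.inr (Or.inr (Or.inr ⟨s(a, v), mem_singleton_self _, Sym2.mem_mk_right _ _⟩)))
  rw [union_comm F] at this
  simp only [show ((2 : Fin 3) = 0) ↔ False by decide, if_false, add_zero] at this
  exact ⟨_, _, this⟩

/-- adding a hexagon through two crossing edges -/
theorem St.addP (hs : St E A B z H O F t s) (h : TC E A B z m) {a b a' b' v0 v1 v2 v3 v4 v5 : V}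
    (ha : a ∈ A) (hb : b ∈ B) (hab : s(a, b) ∈ E) (hH : s(a, b) ∉ H)
    (ha' : a' ∈ A) (hb' : b' ∈ B) (hab' : s(a', b') ∈ E) (hH' : s(a', b') ∉ H)
    {τ1 τ2 τ3 τ4 τ5 τ6 : Fin 3}
    (hn : [v0, v1, v2, v3, v4, v5].Nodup)
    (k1 : Kd E A B z H τ1 s(v0, v1)) (k2 : Kd E A B z H τ2 s(v1, v2))
    (k3 : Kd E A B z H τ3 s(v2, v3)) (k4 : Kd E A B z H τ4 s(v3, v4))
    (k5 : Kd E A B z H τ5 s(v4, v5)) (k6 : Kd E A B z H τ6 s(v5, v0))
    (t1 : τ1 = 2 → s(v0, v1) = s(a, b) ∨ s(v0, v1) = s(a', b'))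
    (t2 : τ2 = 2 → s(v1, v2) = s(a, b) ∨ s(v1, v2) = s(a', b'))
    (t3 : τ3 = 2 → s(v2, v3) = s(a, b) ∨ s(v2, v3) = s(a', b'))
    (t4 : τ4 = 2 → s(v3, v4) = s(a, b) ∨ s(v3, v4) = s(a', b'))
    (t5 : τ5 = 2 → s(v4, v5) = s(a, b) ∨ s(v4, v5) = s(a', b'))
    (t6 : τ6 = 2 → s(v5, v0) = s(a, b) ∨ s(v5, v0) = s(a', b'))
    (m1 : s(a, b) ∈ hex v0 v1 v2 v3 v4 v5) (m2 : s(a', b') ∈ hex v0 v1 v2 v3 v4 v5)
    (hv : ∀ v ∈ ({v0, v1, v2, v3, v4, v5} : Finset V), Cl E A B v ∨ Cl E B A v ∨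
      v = a ∨ v = b ∨ v = a' ∨ v = b') :
    ∃ H' O', St E A B z H' O' (insert s(a, b) (insert s(a', b') F))
      (t + ((if τ1 = 0 then 1 else 0) + ((if τ2 = 0 then 1 else 0) + ((if τ3 = 0 then 1 else 0) +
      ((if τ4 = 0 then 1 else 0) + ((if τ5 = 0 then 1 else 0) + (if τ6 = 0 then 1 else 0)))))))
      (s + 1) := by
  have hG : hex v0 v1 v2 v3 v4 v5 ∩ Ep E A B = {s(a, b), s(a', b')} := by
    ext x
    rw [mem_inter, mem_insert, mem_singleton]
    constructor
    · rintro ⟨hx0, hx⟩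
      rw [mem_hex] at hx0
      rcases hx0 with rfl | rfl | rfl | rfl | rfl | rfl
      · exact t1 (k1.ep.1 hx)
      · exact t2 (k2.ep.1 hx)
      · exact t3 (k3.ep.1 hx)
      · exact t4 (k4.ep.1 hx)
      · exact t5 (k5.ep.1 hx)
      · exact t6 (k6.ep.1 hx)
    · rintro (rfl | rfl)
      · exact ⟨m1, mem_Ep.2 ⟨hab, Or.inl ⟨ha, hb⟩⟩⟩
      · exact ⟨m2, mem_Ep.2 ⟨hab', Or.inl ⟨ha', hb'⟩⟩⟩
  have hv2 : ∀ v ∈ ({v0, v1, v2, v3, v4, v5} : Finset V), v = z ∨ Cl E A B v ∨ Cl E B A v ∨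
      ∃ e ∈ ({s(a, b), s(a', b')} : Finset (Sym2 V)), v ∈ e := by
    intro v hv'
    rcases hv v hv' with h1 | h1 | h1 | h1 | h1 | h1
    · exact Or.inr (Or.inl h1)
    · exact Or.inr (Or.inr (Or.inl h1))
    · exact Or.inr (Or.inr (Or.inr ⟨s(a, b), mem_insert_self _ _, by
        rw [h1]; exact Sym2.mem_mk_left _ _⟩))
    · exact Or.inr (Or.inr (Or.inr ⟨s(a, b), mem_insert_self _ _, by
        rw [h1]; exact Sym2.mem_mk_right _ _⟩))
    · exact Or.inr (Or.inr (Or.inr ⟨s(a', b'), mem_insert_of_mem (mem_singleton_self _), by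
        rw [h1]; exact Sym2.mem_mk_left _ _⟩))
    · exact Or.inr (Or.inr (Or.inr ⟨s(a', b'), mem_insert_of_mem (mem_singleton_self _), by
        rw [h1]; exact Sym2.mem_mk_right _ _⟩))
  have := hs.add hn k1 k2 k3 k4 k5 k6 {s(a, b), s(a', b')} hG hv2
  rw [union_pair] at this
  exact ⟨_, _, this⟩

/-- fresh clean vertices and their properties -/
structure Fr (E : Finset (Sym2 V)) (A B : Finset V) (z : V) (O : Finset V) (c1 c2 c3 : V) :
    Prop where
  k1 : Cl E A B c1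
  k2 : Cl E A B c2
  k3 : Cl E A B c3
  o1 : c1 ∉ O
  o2 : c2 ∉ O
  o3 : c3 ∉ O
  c12 : c1 ≠ c2
  c13 : c1 ≠ c3
  c23 : c2 ≠ c3

theorem St.frs (hs : St E A B z H O F t s) (h : TC E A B z m) (hs4 : s ≤ 4) (O' : Finset V)
    (hO' : O'.card ≤ 4) : ∃ c1 c2 c3 d1 d2 d3, Fr E A B z (O ∪ O') c1 c2 c3 ∧
      Fr E B A z (O ∪ O') d1 d2 d3 := by
  have hO : (O ∪ O').card ≤ 50 := by
    have := card_union_le O O'
    have := hs.cO
    omega
  obtain ⟨c1, c2, c3, ca1, ca2, ca3, cn1, cn2, cn3, c12, c13, c23⟩ := h.fresh3 _ hO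
  obtain ⟨d1, d2, d3, da1, da2, da3, dn1, dn2, dn3, d12, d13, d23⟩ := h.swap.fresh3 _ hO
  exact ⟨c1, c2, c3, d1, d2, d3, ⟨ca1, ca2, ca3, cn1, cn2, cn3, c12, c13, c23⟩,
    ⟨da1, da2, da3, dn1, dn2, dn3, d12, d13, d23⟩⟩

theorem card2_le (a b : V) : ({a, b} : Finset V).card ≤ 4 := (card_le_two).trans (by norm_num)

theorem card4_le (a b c d : V) : ({a, b, c, d} : Finset V).card ≤ 4 := card_le_four

theorem neO {O O' : Finset V} {x y : V} (hx : x ∉ O ∪ O') (hy : y ∈ O') : x ≠ y := by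
  rintro rfl
  exact hx (mem_union_right _ hy)

theorem nO {O O' : Finset V} {x : V} (hx : x ∉ O ∪ O') : x ∉ O := fun h => hx (mem_union_left _ h)

theorem St.S1 (hs : St E A B z H O F t s) (h : TC E A B z m) (hs4 : s ≤ 4) {a b : V} (ha : a ∈ A)
    (hb : b ∈ B) (hab : s(a, b) ∈ E) (hH : s(a, b) ∉ H) (haz : s(a, z) ∈ E)
    (hzH : s(a, z) ∉ H) :
    ∃ H' O', St E A B z H' O' (insert s(a, b) F) (t + 1) (s + 1) := by
  obtain ⟨c1, c2, c3, d1, d2, d3, hc, hd⟩ := hs.frs h hs4 {a, b} (card2_le a b)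
  have zX : z ∈ insert z A := mem_insert_self _ _
  have zY : z ∈ insert z B := mem_insert_self _ _
  have naz : a ≠ z := h.nezA ha
  have nza : z ≠ a := Ne.symm naz
  have nad1 : a ≠ d1 := h.neAB ha hd.k1.1
  have nd1a : d1 ≠ a := Ne.symm nad1
  have nad2 : a ≠ d2 := h.neAB ha hd.k2.1
  have nd2a : d2 ≠ a := Ne.symm nad2
  have nad3 : a ≠ d3 := h.neAB ha hd.k3.1
  have nd3a : d3 ≠ a := Ne.symm nad3
  have nab : a ≠ b := h.neAB ha hb
  have nba : b ≠ a := Ne.symm nab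
  have nd1z : d1 ≠ z := h.swap.nezA hd.k1.1
  have nzd1 : z ≠ d1 := Ne.symm nd1z
  have nd2z : d2 ≠ z := h.swap.nezA hd.k2.1
  have nzd2 : z ≠ d2 := Ne.symm nd2z
  have nd3z : d3 ≠ z := h.swap.nezA hd.k3.1
  have nzd3 : z ≠ d3 := Ne.symm nd3z
  have nbz : b ≠ z := h.swap.nezA hb
  have nzb : z ≠ b := Ne.symm nbz
  have nd1d2 : d1 ≠ d2 := hd.c12
  have nd2d1 : d2 ≠ d1 := Ne.symm nd1d2
  have nd1d3 : d1 ≠ d3 := hd.c13
  have nd3d1 : d3 ≠ d1 := Ne.symm nd1d3
  have nd1b : d1 ≠ b := neO hd.o1 (by simp)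
  have nbd1 : b ≠ d1 := Ne.symm nd1b
  have nd2d3 : d2 ≠ d3 := hd.c23
  have nd3d2 : d3 ≠ d2 := Ne.symm nd2d3
  have nd2b : d2 ≠ b := neO hd.o2 (by simp)
  have nbd2 : b ≠ d2 := Ne.symm nd2b
  have nd3b : d3 ≠ b := neO hd.o3 (by simp)
  have nbd3 : b ≠ d3 := Ne.symm nd3b
  have hn : [a, z, d1, d2, d3, b].Nodup := by
    simp only [List.nodup_cons, List.mem_cons, List.not_mem_nil, or_false, not_or, not_false_iff,
      List.nodup_nil, and_true]
    exact ⟨⟨naz, nad1, nad2, nad3, nab⟩, ⟨nzd1, nzd2, nzd3, nzb⟩, ⟨nd1d2, nd1d3, nd1b⟩, ⟨nd2d3, nd2b⟩, nd3b⟩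
  have k1 : Kd E A B z H 0 s(a, z) := kd0 h haz hzH (mem_insert_of_mem ha) zX
  have k2 : Kd E A B z H 1 s(z, d1) := (kd1 h (h.swap.cladj hd.k1 zY nzd1) (hs.nH (Or.inl (nO hd.o1))) hd.k1.1 zY).symm
  have k3 : Kd E A B z H 1 s(d1, d2) := kd1 h (h.swap.cladj hd.k1 (mem_insert_of_mem hd.k2.1) nd2d1) (hs.nH (Or.inl (nO hd.o1))) hd.k1.1 (mem_insert_of_mem hd.k2.1)
  have k4 : Kd E A B z H 1 s(d2, d3) := kd1 h (h.swap.cladj hd.k2 (mem_insert_of_mem hd.k3.1) nd3d2) (hs.nH (Or.inl (nO hd.o2))) hd.k2.1 (mem_insert_of_mem hd.k3.1)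
  have k5 : Kd E A B z H 1 s(d3, b) := kd1 h (h.swap.cladj hd.k3 (mem_insert_of_mem hb) nbd3) (hs.nH (Or.inl (nO hd.o3))) hd.k3.1 (mem_insert_of_mem hb)
  exact hs.addS h ha hb hab hH hn k1 k2 k3 k4 k5 (by decide) (by decide) (by decide) (by decide)
    (by decide) (Or.inl rfl) (Or.inr (Or.inr hd.k1))
    (Or.inr (Or.inr hd.k2)) (Or.inr (Or.inr hd.k3))

theorem St.S2 (hs : St E A B z H O F t s) (h : TC E A B z m) (hs4 : s ≤ 4) {a b : V} (ha : a ∈ A)
    (hb : b ∈ B) (hab : s(a, b) ∈ E) (hH : s(a, b) ∉ H) :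
    ∃ H' O', St E A B z H' O' (insert s(a, b) F) (t + 2) (s + 1) := by
  obtain ⟨c1, c2, c3, d1, d2, d3, hc, hd⟩ := hs.frs h hs4 {a, b} (card2_le a b)
  have zX : z ∈ insert z A := mem_insert_self _ _
  have zY : z ∈ insert z B := mem_insert_self _ _
  have nc1a : c1 ≠ a := neO hc.o1 (by simp)
  have nac1 : a ≠ c1 := Ne.symm nc1a
  have naz : a ≠ z := h.nezA ha
  have nza : z ≠ a := Ne.symm naz
  have nad1 : a ≠ d1 := h.neAB ha hd.k1.1
  have nd1a : d1 ≠ a := Ne.symm nad1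
  have nad2 : a ≠ d2 := h.neAB ha hd.k2.1
  have nd2a : d2 ≠ a := Ne.symm nad2
  have nab : a ≠ b := h.neAB ha hb
  have nba : b ≠ a := Ne.symm nab
  have nc1z : c1 ≠ z := h.nezA hc.k1.1
  have nzc1 : z ≠ c1 := Ne.symm nc1z
  have nc1d1 : c1 ≠ d1 := h.neAB hc.k1.1 hd.k1.1
  have nd1c1 : d1 ≠ c1 := Ne.symm nc1d1
  have nc1d2 : c1 ≠ d2 := h.neAB hc.k1.1 hd.k2.1
  have nd2c1 : d2 ≠ c1 := Ne.symm nc1d2
  have nc1b : c1 ≠ b := h.neAB hc.k1.1 hb
  have nbc1 : b ≠ c1 := Ne.symm nc1b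
  have nd1z : d1 ≠ z := h.swap.nezA hd.k1.1
  have nzd1 : z ≠ d1 := Ne.symm nd1z
  have nd2z : d2 ≠ z := h.swap.nezA hd.k2.1
  have nzd2 : z ≠ d2 := Ne.symm nd2z
  have nbz : b ≠ z := h.swap.nezA hb
  have nzb : z ≠ b := Ne.symm nbz
  have nd1d2 : d1 ≠ d2 := hd.c12
  have nd2d1 : d2 ≠ d1 := Ne.symm nd1d2
  have nd1b : d1 ≠ b := neO hd.o1 (by simp)
  have nbd1 : b ≠ d1 := Ne.symm nd1b
  have nd2b : d2 ≠ b := neO hd.o2 (by simp)
  have nbd2 : b ≠ d2 := Ne.symm nd2b
  have hn : [a, c1, z, d1, d2, b].Nodup := by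
    simp only [List.nodup_cons, List.mem_cons, List.not_mem_nil, or_false, not_or, not_false_iff,
      List.nodup_nil, and_true]
    exact ⟨⟨nac1, naz, nad1, nad2, nab⟩, ⟨nc1z, nc1d1, nc1d2, nc1b⟩, ⟨nzd1, nzd2, nzb⟩, ⟨nd1d2, nd1b⟩, nd2b⟩
  have k1 : Kd E A B z H 0 s(a, c1) := (kd0 h (h.cladj hc.k1 (mem_insert_of_mem ha) nac1) (hs.nH (Or.inl (nO hc.o1))) (mem_insert_of_mem hc.k1.1) (mem_insert_of_mem ha)).symm
  have k2 : Kd E A B z H 0 s(c1, z) := kd0 h (h.cladj hc.k1 zX nzc1) (hs.nH (Or.inl (nO hc.o1))) (mem_insert_of_mem hc.k1.1) zX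
  have k3 : Kd E A B z H 1 s(z, d1) := (kd1 h (h.swap.cladj hd.k1 zY nzd1) (hs.nH (Or.inl (nO hd.o1))) hd.k1.1 zY).symm
  have k4 : Kd E A B z H 1 s(d1, d2) := kd1 h (h.swap.cladj hd.k1 (mem_insert_of_mem hd.k2.1) nd2d1) (hs.nH (Or.inl (nO hd.o1))) hd.k1.1 (mem_insert_of_mem hd.k2.1)
  have k5 : Kd E A B z H 1 s(d2, b) := kd1 h (h.swap.cladj hd.k2 (mem_insert_of_mem hb) nbd2) (hs.nH (Or.inl (nO hd.o2))) hd.k2.1 (mem_insert_of_mem hb)
  exact hs.addS h ha hb hab hH hn k1 k2 k3 k4 k5 (by decide) (by decide) (by decide) (by decide)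
    (by decide) (Or.inr (Or.inl hc.k1)) (Or.inl rfl)
    (Or.inr (Or.inr hd.k1)) (Or.inr (Or.inr hd.k2))

theorem St.S3 (hs : St E A B z H O F t s) (h : TC E A B z m) (hs4 : s ≤ 4) {a b : V} (ha : a ∈ A)
    (hb : b ∈ B) (hab : s(a, b) ∈ E) (hH : s(a, b) ∉ H) :
    ∃ H' O', St E A B z H' O' (insert s(a, b) F) (t + 3) (s + 1) := by
  obtain ⟨c1, c2, c3, d1, d2, d3, hc, hd⟩ := hs.frs h hs4 {a, b} (card2_le a b)
  have zX : z ∈ insert z A := mem_insert_self _ _
  have zY : z ∈ insert z B := mem_insert_self _ _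
  have nc1a : c1 ≠ a := neO hc.o1 (by simp)
  have nac1 : a ≠ c1 := Ne.symm nc1a
  have nc2a : c2 ≠ a := neO hc.o2 (by simp)
  have nac2 : a ≠ c2 := Ne.symm nc2a
  have naz : a ≠ z := h.nezA ha
  have nza : z ≠ a := Ne.symm naz
  have nad1 : a ≠ d1 := h.neAB ha hd.k1.1
  have nd1a : d1 ≠ a := Ne.symm nad1
  have nab : a ≠ b := h.neAB ha hb
  have nba : b ≠ a := Ne.symm nab
  have nc1c2 : c1 ≠ c2 := hc.c12
  have nc2c1 : c2 ≠ c1 := Ne.symm nc1c2
  have nc1z : c1 ≠ z := h.nezA hc.k1.1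
  have nzc1 : z ≠ c1 := Ne.symm nc1z
  have nc1d1 : c1 ≠ d1 := h.neAB hc.k1.1 hd.k1.1
  have nd1c1 : d1 ≠ c1 := Ne.symm nc1d1
  have nc1b : c1 ≠ b := h.neAB hc.k1.1 hb
  have nbc1 : b ≠ c1 := Ne.symm nc1b
  have nc2z : c2 ≠ z := h.nezA hc.k2.1
  have nzc2 : z ≠ c2 := Ne.symm nc2z
  have nc2d1 : c2 ≠ d1 := h.neAB hc.k2.1 hd.k1.1
  have nd1c2 : d1 ≠ c2 := Ne.symm nc2d1
  have nc2b : c2 ≠ b := h.neAB hc.k2.1 hb
  have nbc2 : b ≠ c2 := Ne.symm nc2b
  have nd1z : d1 ≠ z := h.swap.nezA hd.k1.1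
  have nzd1 : z ≠ d1 := Ne.symm nd1z
  have nbz : b ≠ z := h.swap.nezA hb
  have nzb : z ≠ b := Ne.symm nbz
  have nd1b : d1 ≠ b := neO hd.o1 (by simp)
  have nbd1 : b ≠ d1 := Ne.symm nd1b
  have hn : [a, c1, c2, z, d1, b].Nodup := by
    simp only [List.nodup_cons, List.mem_cons, List.not_mem_nil, or_false, not_or, not_false_iff,
      List.nodup_nil, and_true]
    exact ⟨⟨nac1, nac2, naz, nad1, nab⟩, ⟨nc1c2, nc1z, nc1d1, nc1b⟩, ⟨nc2z, nc2d1, nc2b⟩, ⟨nzd1, nzb⟩, nd1b⟩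
  have k1 : Kd E A B z H 0 s(a, c1) := (kd0 h (h.cladj hc.k1 (mem_insert_of_mem ha) nac1) (hs.nH (Or.inl (nO hc.o1))) (mem_insert_of_mem hc.k1.1) (mem_insert_of_mem ha)).symm
  have k2 : Kd E A B z H 0 s(c1, c2) := kd0 h (h.cladj hc.k1 (mem_insert_of_mem hc.k2.1) nc2c1) (hs.nH (Or.inl (nO hc.o1))) (mem_insert_of_mem hc.k1.1) (mem_insert_of_mem hc.k2.1)
  have k3 : Kd E A B z H 0 s(c2, z) := kd0 h (h.cladj hc.k2 zX nzc2) (hs.nH (Or.inl (nO hc.o2))) (mem_insert_of_mem hc.k2.1) zX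
  have k4 : Kd E A B z H 1 s(z, d1) := (kd1 h (h.swap.cladj hd.k1 zY nzd1) (hs.nH (Or.inl (nO hd.o1))) hd.k1.1 zY).symm
  have k5 : Kd E A B z H 1 s(d1, b) := kd1 h (h.swap.cladj hd.k1 (mem_insert_of_mem hb) nbd1) (hs.nH (Or.inl (nO hd.o1))) hd.k1.1 (mem_insert_of_mem hb)
  exact hs.addS h ha hb hab hH hn k1 k2 k3 k4 k5 (by decide) (by decide) (by decide) (by decide)
    (by decide) (Or.inr (Or.inl hc.k1)) (Or.inr (Or.inl hc.k2))
    (Or.inl rfl) (Or.inr (Or.inr hd.k1))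

theorem St.S4 (hs : St E A B z H O F t s) (h : TC E A B z m) (hs4 : s ≤ 4) {a b : V} (ha : a ∈ A)
    (hb : b ∈ B) (hab : s(a, b) ∈ E) (hH : s(a, b) ∉ H) (hbz : s(b, z) ∈ E)
    (hzH : s(b, z) ∉ H) :
    ∃ H' O', St E A B z H' O' (insert s(a, b) F) (t + 4) (s + 1) := by
  obtain ⟨c1, c2, c3, d1, d2, d3, hc, hd⟩ := hs.frs h hs4 {a, b} (card2_le a b)
  have zX : z ∈ insert z A := mem_insert_self _ _
  have zY : z ∈ insert z B := mem_insert_self _ _
  have nc1a : c1 ≠ a := neO hc.o1 (by simp)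
  have nac1 : a ≠ c1 := Ne.symm nc1a
  have nc2a : c2 ≠ a := neO hc.o2 (by simp)
  have nac2 : a ≠ c2 := Ne.symm nc2a
  have nc3a : c3 ≠ a := neO hc.o3 (by simp)
  have nac3 : a ≠ c3 := Ne.symm nc3a
  have naz : a ≠ z := h.nezA ha
  have nza : z ≠ a := Ne.symm naz
  have nab : a ≠ b := h.neAB ha hb
  have nba : b ≠ a := Ne.symm nab
  have nc1c2 : c1 ≠ c2 := hc.c12
  have nc2c1 : c2 ≠ c1 := Ne.symm nc1c2
  have nc1c3 : c1 ≠ c3 := hc.c13
  have nc3c1 : c3 ≠ c1 := Ne.symm nc1c3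
  have nc1z : c1 ≠ z := h.nezA hc.k1.1
  have nzc1 : z ≠ c1 := Ne.symm nc1z
  have nc1b : c1 ≠ b := h.neAB hc.k1.1 hb
  have nbc1 : b ≠ c1 := Ne.symm nc1b
  have nc2c3 : c2 ≠ c3 := hc.c23
  have nc3c2 : c3 ≠ c2 := Ne.symm nc2c3
  have nc2z : c2 ≠ z := h.nezA hc.k2.1
  have nzc2 : z ≠ c2 := Ne.symm nc2z
  have nc2b : c2 ≠ b := h.neAB hc.k2.1 hb
  have nbc2 : b ≠ c2 := Ne.symm nc2b
  have nc3z : c3 ≠ z := h.nezA hc.k3.1
  have nzc3 : z ≠ c3 := Ne.symm nc3z
  have nc3b : c3 ≠ b := h.neAB hc.k3.1 hb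
  have nbc3 : b ≠ c3 := Ne.symm nc3b
  have nbz : b ≠ z := h.swap.nezA hb
  have nzb : z ≠ b := Ne.symm nbz
  have hn : [a, c1, c2, c3, z, b].Nodup := by
    simp only [List.nodup_cons, List.mem_cons, List.not_mem_nil, or_false, not_or, not_false_iff,
      List.nodup_nil, and_true]
    exact ⟨⟨nac1, nac2, nac3, naz, nab⟩, ⟨nc1c2, nc1c3, nc1z, nc1b⟩, ⟨nc2c3, nc2z, nc2b⟩, ⟨nc3z, nc3b⟩, nzb⟩
  have k1 : Kd E A B z H 0 s(a, c1) := (kd0 h (h.cladj hc.k1 (mem_insert_of_mem ha) nac1) (hs.nH (Or.inl (nO hc.o1))) (mem_insert_of_mem hc.k1.1) (mem_insert_of_mem ha)).symm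
  have k2 : Kd E A B z H 0 s(c1, c2) := kd0 h (h.cladj hc.k1 (mem_insert_of_mem hc.k2.1) nc2c1) (hs.nH (Or.inl (nO hc.o1))) (mem_insert_of_mem hc.k1.1) (mem_insert_of_mem hc.k2.1)
  have k3 : Kd E A B z H 0 s(c2, c3) := kd0 h (h.cladj hc.k2 (mem_insert_of_mem hc.k3.1) nc3c2) (hs.nH (Or.inl (nO hc.o2))) (mem_insert_of_mem hc.k2.1) (mem_insert_of_mem hc.k3.1)
  have k4 : Kd E A B z H 0 s(c3, z) := kd0 h (h.cladj hc.k3 zX nzc3) (hs.nH (Or.inl (nO hc.o3))) (mem_insert_of_mem hc.k3.1) zX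
  have k5 : Kd E A B z H 1 s(z, b) := (kd1 h hbz hzH hb zY).symm
  exact hs.addS h ha hb hab hH hn k1 k2 k3 k4 k5 (by decide) (by decide) (by decide) (by decide)
    (by decide) (Or.inr (Or.inl hc.k1)) (Or.inr (Or.inl hc.k2))
    (Or.inr (Or.inl hc.k3)) (Or.inl rfl)

theorem St.P1 (hs : St E A B z H O F t s) (h : TC E A B z m) (hs4 : s ≤ 4) {a b a' b' : V}
    (ha : a ∈ A) (hb : b ∈ B) (hab : s(a, b) ∈ E) (hH : s(a, b) ∉ H) (ha' : a' ∈ A) (hb' : b' ∈ B)
    (hab' : s(a', b') ∈ E) (hH' : s(a', b') ∉ H) (haa : a ≠ a') (hbb : b ≠ b')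
    (haE : s(a, a') ∈ E) (haH : s(a, a') ∉ H) :
    ∃ H' O', St E A B z H' O' (insert s(a, b) (insert s(a', b') F)) (t + 1) (s + 1) := by
  obtain ⟨c1, c2, c3, d1, d2, d3, hc, hd⟩ := hs.frs h hs4 {a, b, a', b'} (card4_le a b a' b')
  have zX : z ∈ insert z A := mem_insert_self _ _
  have zY : z ∈ insert z B := mem_insert_self _ _
  have naap : a ≠ a' := haa
  have napa : a' ≠ a := Ne.symm naap
  have nabp : a ≠ b' := h.neAB ha hb'
  have nbpa : b' ≠ a := Ne.symm nabp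
  have nad1 : a ≠ d1 := h.neAB ha hd.k1.1
  have nd1a : d1 ≠ a := Ne.symm nad1
  have nad2 : a ≠ d2 := h.neAB ha hd.k2.1
  have nd2a : d2 ≠ a := Ne.symm nad2
  have nab : a ≠ b := h.neAB ha hb
  have nba : b ≠ a := Ne.symm nab
  have napbp : a' ≠ b' := h.neAB ha' hb'
  have nbpap : b' ≠ a' := Ne.symm napbp
  have napd1 : a' ≠ d1 := h.neAB ha' hd.k1.1
  have nd1ap : d1 ≠ a' := Ne.symm napd1
  have napd2 : a' ≠ d2 := h.neAB ha' hd.k2.1
  have nd2ap : d2 ≠ a' := Ne.symm napd2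
  have napb : a' ≠ b := h.neAB ha' hb
  have nbap : b ≠ a' := Ne.symm napb
  have nd1bp : d1 ≠ b' := neO hd.o1 (by simp)
  have nbpd1 : b' ≠ d1 := Ne.symm nd1bp
  have nd2bp : d2 ≠ b' := neO hd.o2 (by simp)
  have nbpd2 : b' ≠ d2 := Ne.symm nd2bp
  have nbbp : b ≠ b' := hbb
  have nbpb : b' ≠ b := Ne.symm nbbp
  have nd1d2 : d1 ≠ d2 := hd.c12
  have nd2d1 : d2 ≠ d1 := Ne.symm nd1d2
  have nd1b : d1 ≠ b := neO hd.o1 (by simp)
  have nbd1 : b ≠ d1 := Ne.symm nd1b
  have nd2b : d2 ≠ b := neO hd.o2 (by simp)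
  have nbd2 : b ≠ d2 := Ne.symm nd2b
  have hn : [a, a', b', d1, d2, b].Nodup := by
    simp only [List.nodup_cons, List.mem_cons, List.not_mem_nil, or_false, not_or, not_false_iff,
      List.nodup_nil, and_true]
    exact ⟨⟨naap, nabp, nad1, nad2, nab⟩, ⟨napbp, napd1, napd2, napb⟩, ⟨nbpd1, nbpd2, nbpb⟩, ⟨nd1d2, nd1b⟩, nd2b⟩
  have k1 : Kd E A B z H 0 s(a, a') := kd0 h haE haH (mem_insert_of_mem ha) (mem_insert_of_mem ha')
  have k2 : Kd E A B z H 2 s(a', b') := kd2 h hab' hH' ha' hb'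
  have k3 : Kd E A B z H 1 s(b', d1) := (kd1 h (h.swap.cladj hd.k1 (mem_insert_of_mem hb') nbpd1) (hs.nH (Or.inl (nO hd.o1))) hd.k1.1 (mem_insert_of_mem hb')).symm
  have k4 : Kd E A B z H 1 s(d1, d2) := kd1 h (h.swap.cladj hd.k1 (mem_insert_of_mem hd.k2.1) nd2d1) (hs.nH (Or.inl (nO hd.o1))) hd.k1.1 (mem_insert_of_mem hd.k2.1)
  have k5 : Kd E A B z H 1 s(d2, b) := kd1 h (h.swap.cladj hd.k2 (mem_insert_of_mem hb) nbd2) (hs.nH (Or.inl (nO hd.o2))) hd.k2.1 (mem_insert_of_mem hb)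
  have k6 : Kd E A B z H 2 s(b, a) := (kd2 h hab hH ha hb).symm
  have m1 : s(a, b) ∈ hex a a' b' d1 d2 b := by
    rw [mem_hex]
    right; right; right; right; right
    exact Sym2.eq_swap
  have m2 : s(a', b') ∈ hex a a' b' d1 d2 b := by
    rw [mem_hex]
    simp
  have hv : ∀ v ∈ ({a, a', b', d1, d2, b} : Finset V), Cl E A B v ∨ Cl E B A v ∨
      v = a ∨ v = b ∨ v = a' ∨ v = b' := by
    intro v hv
    simp only [mem_insert, mem_singleton] at hv
    rcases hv with rfl | rfl | rfl | rfl | rfl | rfl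
    · exact Or.inr (Or.inr (Or.inl rfl))
    · exact Or.inr (Or.inr (Or.inr (Or.inr (Or.inl rfl))))
    · exact Or.inr (Or.inr (Or.inr (Or.inr (Or.inr rfl))))
    · exact Or.inr (Or.inl hd.k1)
    · exact Or.inr (Or.inl hd.k2)
    · exact Or.inr (Or.inr (Or.inr (Or.inl rfl)))
  exact hs.addP h ha hb hab hH ha' hb' hab' hH' hn k1 k2 k3 k4 k5 k6
    (fun e => absurd e (by decide)) (fun _ => Or.inr rfl)
    (fun e => absurd e (by decide)) (fun e => absurd e (by decide))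
    (fun e => absurd e (by decide)) (fun _ => Or.inl Sym2.eq_swap) m1 m2 hv

theorem St.P2 (hs : St E A B z H O F t s) (h : TC E A B z m) (hs4 : s ≤ 4) {a b a' b' : V}
    (ha : a ∈ A) (hb : b ∈ B) (hab : s(a, b) ∈ E) (hH : s(a, b) ∉ H) (ha' : a' ∈ A) (hb' : b' ∈ B)
    (hab' : s(a', b') ∈ E) (hH' : s(a', b') ∉ H) (haa : a ≠ a') (hbb : b ≠ b') :
    ∃ H' O', St E A B z H' O' (insert s(a, b) (insert s(a', b') F)) (t + 2) (s + 1) := by
  obtain ⟨c1, c2, c3, d1, d2, d3, hc, hd⟩ := hs.frs h hs4 {a, b, a', b'} (card4_le a b a' b')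
  have zX : z ∈ insert z A := mem_insert_self _ _
  have zY : z ∈ insert z B := mem_insert_self _ _
  have nc1a : c1 ≠ a := neO hc.o1 (by simp)
  have nac1 : a ≠ c1 := Ne.symm nc1a
  have naap : a ≠ a' := haa
  have napa : a' ≠ a := Ne.symm naap
  have nabp : a ≠ b' := h.neAB ha hb'
  have nbpa : b' ≠ a := Ne.symm nabp
  have nad1 : a ≠ d1 := h.neAB ha hd.k1.1
  have nd1a : d1 ≠ a := Ne.symm nad1
  have nab : a ≠ b := h.neAB ha hb
  have nba : b ≠ a := Ne.symm nab
  have nc1ap : c1 ≠ a' := neO hc.o1 (by simp)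
  have napc1 : a' ≠ c1 := Ne.symm nc1ap
  have nc1bp : c1 ≠ b' := h.neAB hc.k1.1 hb'
  have nbpc1 : b' ≠ c1 := Ne.symm nc1bp
  have nc1d1 : c1 ≠ d1 := h.neAB hc.k1.1 hd.k1.1
  have nd1c1 : d1 ≠ c1 := Ne.symm nc1d1
  have nc1b : c1 ≠ b := h.neAB hc.k1.1 hb
  have nbc1 : b ≠ c1 := Ne.symm nc1b
  have napbp : a' ≠ b' := h.neAB ha' hb'
  have nbpap : b' ≠ a' := Ne.symm napbp
  have napd1 : a' ≠ d1 := h.neAB ha' hd.k1.1
  have nd1ap : d1 ≠ a' := Ne.symm napd1
  have napb : a' ≠ b := h.neAB ha' hb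
  have nbap : b ≠ a' := Ne.symm napb
  have nd1bp : d1 ≠ b' := neO hd.o1 (by simp)
  have nbpd1 : b' ≠ d1 := Ne.symm nd1bp
  have nbbp : b ≠ b' := hbb
  have nbpb : b' ≠ b := Ne.symm nbbp
  have nd1b : d1 ≠ b := neO hd.o1 (by simp)
  have nbd1 : b ≠ d1 := Ne.symm nd1b
  have hn : [a, c1, a', b', d1, b].Nodup := by
    simp only [List.nodup_cons, List.mem_cons, List.not_mem_nil, or_false, not_or, not_false_iff,
      List.nodup_nil, and_true]
    exact ⟨⟨nac1, naap, nabp, nad1, nab⟩, ⟨nc1ap, nc1bp, nc1d1, nc1b⟩, ⟨napbp, napd1, napb⟩, ⟨nbpd1, nbpb⟩, nd1b⟩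
  have k1 : Kd E A B z H 0 s(a, c1) := (kd0 h (h.cladj hc.k1 (mem_insert_of_mem ha) nac1) (hs.nH (Or.inl (nO hc.o1))) (mem_insert_of_mem hc.k1.1) (mem_insert_of_mem ha)).symm
  have k2 : Kd E A B z H 0 s(c1, a') := kd0 h (h.cladj hc.k1 (mem_insert_of_mem ha') napc1) (hs.nH (Or.inl (nO hc.o1))) (mem_insert_of_mem hc.k1.1) (mem_insert_of_mem ha')
  have k3 : Kd E A B z H 2 s(a', b') := kd2 h hab' hH' ha' hb'
  have k4 : Kd E A B z H 1 s(b', d1) := (kd1 h (h.swap.cladj hd.k1 (mem_insert_of_mem hb') nbpd1) (hs.nH (Or.inl (nO hd.o1))) hd.k1.1 (mem_insert_of_mem hb')).symm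
  have k5 : Kd E A B z H 1 s(d1, b) := kd1 h (h.swap.cladj hd.k1 (mem_insert_of_mem hb) nbd1) (hs.nH (Or.inl (nO hd.o1))) hd.k1.1 (mem_insert_of_mem hb)
  have k6 : Kd E A B z H 2 s(b, a) := (kd2 h hab hH ha hb).symm
  have m1 : s(a, b) ∈ hex a c1 a' b' d1 b := by
    rw [mem_hex]
    right; right; right; right; right
    exact Sym2.eq_swap
  have m2 : s(a', b') ∈ hex a c1 a' b' d1 b := by
    rw [mem_hex]
    simp
  have hv : ∀ v ∈ ({a, c1, a', b', d1, b} : Finset V), Cl E A B v ∨ Cl E B A v ∨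
      v = a ∨ v = b ∨ v = a' ∨ v = b' := by
    intro v hv
    simp only [mem_insert, mem_singleton] at hv
    rcases hv with rfl | rfl | rfl | rfl | rfl | rfl
    · exact Or.inr (Or.inr (Or.inl rfl))
    · exact Or.inl hc.k1
    · exact Or.inr (Or.inr (Or.inr (Or.inr (Or.inl rfl))))
    · exact Or.inr (Or.inr (Or.inr (Or.inr (Or.inr rfl))))
    · exact Or.inr (Or.inl hd.k1)
    · exact Or.inr (Or.inr (Or.inr (Or.inl rfl)))
  exact hs.addP h ha hb hab hH ha' hb' hab' hH' hn k1 k2 k3 k4 k5 k6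
    (fun e => absurd e (by decide)) (fun e => absurd e (by decide))
    (fun _ => Or.inr rfl) (fun e => absurd e (by decide))
    (fun e => absurd e (by decide)) (fun _ => Or.inl Sym2.eq_swap) m1 m2 hv

theorem St.P3 (hs : St E A B z H O F t s) (h : TC E A B z m) (hs4 : s ≤ 4) {a b a' b' : V}
    (ha : a ∈ A) (hb : b ∈ B) (hab : s(a, b) ∈ E) (hH : s(a, b) ∉ H) (ha' : a' ∈ A) (hb' : b' ∈ B)
    (hab' : s(a', b') ∈ E) (hH' : s(a', b') ∉ H) (haa : a ≠ a') (hbb : b ≠ b')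
    (hbE : s(b, b') ∈ E) (hbH : s(b, b') ∉ H) :
    ∃ H' O', St E A B z H' O' (insert s(a, b) (insert s(a', b') F)) (t + 3) (s + 1) := by
  obtain ⟨c1, c2, c3, d1, d2, d3, hc, hd⟩ := hs.frs h hs4 {a, b, a', b'} (card4_le a b a' b')
  have zX : z ∈ insert z A := mem_insert_self _ _
  have zY : z ∈ insert z B := mem_insert_self _ _
  have nc1a : c1 ≠ a := neO hc.o1 (by simp)
  have nac1 : a ≠ c1 := Ne.symm nc1a
  have nc2a : c2 ≠ a := neO hc.o2 (by simp)
  have nac2 : a ≠ c2 := Ne.symm nc2a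
  have naap : a ≠ a' := haa
  have napa : a' ≠ a := Ne.symm naap
  have nabp : a ≠ b' := h.neAB ha hb'
  have nbpa : b' ≠ a := Ne.symm nabp
  have nab : a ≠ b := h.neAB ha hb
  have nba : b ≠ a := Ne.symm nab
  have nc1c2 : c1 ≠ c2 := hc.c12
  have nc2c1 : c2 ≠ c1 := Ne.symm nc1c2
  have nc1ap : c1 ≠ a' := neO hc.o1 (by simp)
  have napc1 : a' ≠ c1 := Ne.symm nc1ap
  have nc1bp : c1 ≠ b' := h.neAB hc.k1.1 hb'
  have nbpc1 : b' ≠ c1 := Ne.symm nc1bp
  have nc1b : c1 ≠ b := h.neAB hc.k1.1 hb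
  have nbc1 : b ≠ c1 := Ne.symm nc1b
  have nc2ap : c2 ≠ a' := neO hc.o2 (by simp)
  have napc2 : a' ≠ c2 := Ne.symm nc2ap
  have nc2bp : c2 ≠ b' := h.neAB hc.k2.1 hb'
  have nbpc2 : b' ≠ c2 := Ne.symm nc2bp
  have nc2b : c2 ≠ b := h.neAB hc.k2.1 hb
  have nbc2 : b ≠ c2 := Ne.symm nc2b
  have napbp : a' ≠ b' := h.neAB ha' hb'
  have nbpap : b' ≠ a' := Ne.symm napbp
  have napb : a' ≠ b := h.neAB ha' hb
  have nbap : b ≠ a' := Ne.symm napb
  have nbbp : b ≠ b' := hbb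
  have nbpb : b' ≠ b := Ne.symm nbbp
  have hn : [a, c1, c2, a', b', b].Nodup := by
    simp only [List.nodup_cons, List.mem_cons, List.not_mem_nil, or_false, not_or, not_false_iff,
      List.nodup_nil, and_true]
    exact ⟨⟨nac1, nac2, naap, nabp, nab⟩, ⟨nc1c2, nc1ap, nc1bp, nc1b⟩, ⟨nc2ap, nc2bp, nc2b⟩, ⟨napbp, napb⟩, nbpb⟩
  have k1 : Kd E A B z H 0 s(a, c1) := (kd0 h (h.cladj hc.k1 (mem_insert_of_mem ha) nac1) (hs.nH (Or.inl (nO hc.o1))) (mem_insert_of_mem hc.k1.1) (mem_insert_of_mem ha)).symm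
  have k2 : Kd E A B z H 0 s(c1, c2) := kd0 h (h.cladj hc.k1 (mem_insert_of_mem hc.k2.1) nc2c1) (hs.nH (Or.inl (nO hc.o1))) (mem_insert_of_mem hc.k1.1) (mem_insert_of_mem hc.k2.1)
  have k3 : Kd E A B z H 0 s(c2, a') := kd0 h (h.cladj hc.k2 (mem_insert_of_mem ha') napc2) (hs.nH (Or.inl (nO hc.o2))) (mem_insert_of_mem hc.k2.1) (mem_insert_of_mem ha')
  have k4 : Kd E A B z H 2 s(a', b') := kd2 h hab' hH' ha' hb'
  have k5 : Kd E A B z H 1 s(b', b) := (kd1 h hbE hbH hb (mem_insert_of_mem hb')).symm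
  have k6 : Kd E A B z H 2 s(b, a) := (kd2 h hab hH ha hb).symm
  have m1 : s(a, b) ∈ hex a c1 c2 a' b' b := by
    rw [mem_hex]
    right; right; right; right; right
    exact Sym2.eq_swap
  have m2 : s(a', b') ∈ hex a c1 c2 a' b' b := by
    rw [mem_hex]
    simp
  have hv : ∀ v ∈ ({a, c1, c2, a', b', b} : Finset V), Cl E A B v ∨ Cl E B A v ∨
      v = a ∨ v = b ∨ v = a' ∨ v = b' := by
    intro v hv
    simp only [mem_insert, mem_singleton] at hv
    rcases hv with rfl | rfl | rfl | rfl | rfl | rfl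
    · exact Or.inr (Or.inr (Or.inl rfl))
    · exact Or.inl hc.k1
    · exact Or.inl hc.k2
    · exact Or.inr (Or.inr (Or.inr (Or.inr (Or.inl rfl))))
    · exact Or.inr (Or.inr (Or.inr (Or.inr (Or.inr rfl))))
    · exact Or.inr (Or.inr (Or.inr (Or.inl rfl)))
  exact hs.addP h ha hb hab hH ha' hb' hab' hH' hn k1 k2 k3 k4 k5 k6
    (fun e => absurd e (by decide)) (fun e => absurd e (by decide))
    (fun e => absurd e (by decide)) (fun _ => Or.inr rfl)
    (fun e => absurd e (by decide)) (fun _ => Or.inl Sym2.eq_swap) m1 m2 hv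


/-! ### completing a state -/

theorem St.FE (hs : St E A B z H O F t s) : F ⊆ Ep E A B := by
  rw [← hs.cov]
  exact inter_subset_right

theorem St.nHF (hs : St E A B z H O F t s) {e : Sym2 V} (he : e ∈ Ep E A B) (hF : e ∉ F) :
    e ∉ H := by
  intro hH
  apply hF
  rw [← hs.cov, mem_inter]
  exact ⟨hH, he⟩

theorem St.all (h : TC E A B z m) : ∀ (j : ℕ) {H : Finset (Sym2 V)} {O : Finset V}
    {F : Finset (Sym2 V)} {t s : ℕ}, St E A B z H O F t s → (Ep E A B \ F).card = j →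
    s + j ≤ 4 → ∀ x, 2 * j ≤ x → x ≤ 3 * j →
    ∃ H' O', St E A B z H' O' (Ep E A B) (t + x) (s + j) := by
  intro j
  induction j with
  | zero =>
    intro H O F t s hs hc _ x _ hx
    rw [card_eq_zero, sdiff_eq_empty_iff_subset] at hc
    have hF : F = Ep E A B := Subset.antisymm hs.FE hc
    have hx0 : x = 0 := by omega
    subst hx0
    rw [hF] at hs
    exact ⟨H, O, hs⟩
  | succ j ih =>
    intro H O F t s hs hc hsj x hx1 hx2
    have hne : (Ep E A B \ F).Nonempty := by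
      rw [← card_pos]; omega
    obtain ⟨e, he⟩ := hne
    rw [mem_sdiff] at he
    obtain ⟨a, ha, b, hb, rfl, hab⟩ := Ep_cases he.1
    have hH := hs.nHF he.1 he.2
    have hc' : (Ep E A B \ insert s(a, b) F).card = j := by
      have h1 : Ep E A B \ insert s(a, b) F = (Ep E A B \ F).erase s(a, b) := by
        ext y
        simp only [mem_sdiff, mem_insert, mem_erase]
        tauto
      rw [h1, card_erase_of_mem (mem_sdiff.2 he), hc]
      rfl
    by_cases hx : 2 * j + 3 ≤ x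
    · obtain ⟨H', O', hs'⟩ := hs.S3 h (by omega) ha hb hab hH
      obtain ⟨H2, O2, hs2⟩ := ih hs' hc' (by omega) (x - 3) (by omega) (by omega)
      refine ⟨H2, O2, ?_⟩
      have e1 : t + 3 + (x - 3) = t + x := by omega
      have e2 : s + 1 + j = s + (j + 1) := by omega
      rwa [e1, e2] at hs2
    · obtain ⟨H', O', hs'⟩ := hs.S2 h (by omega) ha hb hab hH
      obtain ⟨H2, O2, hs2⟩ := ih hs' hc' (by omega) (x - 2) (by omega) (by omega)
      refine ⟨H2, O2, ?_⟩
      have e1 : t + 2 + (x - 2) = t + x := by omega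
      have e2 : s + 1 + j = s + (j + 1) := by omega
      rwa [e1, e2] at hs2

/-- the property given by `S_nearKsub` -/
def NK (n0 : ℕ) : Prop := ∀ (V : Type) [Fintype V] [DecidableEq V] (E : Finset (Sym2 V))
    (X : Finset V), n0 ≤ X.card → E ⊆ X.sym2 → (∀ v ∈ X, 1 / 10 * (X.card : ℝ) ≤ (dg E v : ℝ)) →
    ((X.filter fun v => (dg E v : ℝ) < (1 - 1 / 1000) * (X.card : ℝ)).card : ℝ) ≤
      1 / 1000 * (X.card : ℝ) → Div6 E → Dec E

theorem St.fin {n0 : ℕ} (hn0 : NK n0) (h : TC E A B z m) (hm : n0 ≤ m)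
    (hs : St E A B z H O (Ep E A B) t s) (hs4 : s ≤ 4)
    (hmod : t % 6 = (KS E z A).card % 6) : Dec E := by
  refine reduce n0 hn0 h hm H hs.sub hs.dec ?_ ?_ ?_
  · intro e he
    rw [← hs.cov, mem_inter] at he
    exact he.1
  · intro v
    have h1 : dg H v ≤ O.card := card_le_card (nb_subset_of_subset hs.inO v)
    have h2 := hs.cO
    omega
  · have h1 := card_sdiff_add_card_inter (KS E z A) H
    rw [inter_comm, hs.cnt] at h1
    omega

/-- all the crossing edges by `S2` and `S3` -/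
theorem finAll {n0 : ℕ} (hn0 : NK n0) (h : TC E A B z m) (hm : n0 ≤ m)
    (hs : St E A B z H O F t s) (j : ℕ) (hj : (Ep E A B \ F).card = j) (hsj : s + j ≤ 4) (x : ℕ)
    (hx1 : 2 * j ≤ x) (hx2 : x ≤ 3 * j) (hmod : (t + x) % 6 = (KS E z A).card % 6) : Dec E := by
  obtain ⟨H', O', hs'⟩ := St.all h j hs hj hsj x hx1 hx2
  exact hs'.fin hn0 h hm hsj hmod

theorem sdiff1 {e : Sym2 V} (he : e ∈ Ep E A B) :
    (Ep E A B \ insert e ∅).card + 1 = (Ep E A B).card := by
  have h1 : Ep E A B \ insert e ∅ = (Ep E A B).erase e := by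
    ext y
    simp only [mem_sdiff, mem_insert, mem_erase, notMem_empty, or_false]
    tauto
  rw [h1, card_erase_add_one he]

theorem sdiff2 {e e' : Sym2 V} (he : e ∈ Ep E A B) (he' : e' ∈ Ep E A B) (hne : e ≠ e') :
    (Ep E A B \ insert e (insert e' ∅)).card + 2 = (Ep E A B).card := by
  have h1 : Ep E A B \ insert e (insert e' ∅) = ((Ep E A B).erase e').erase e := by
    ext y
    simp only [mem_sdiff, mem_insert, mem_erase, notMem_empty, or_false]
    tauto
  have h2 := card_erase_add_one he'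
  have h3 := card_erase_add_one (mem_erase.2 ⟨hne, he⟩)
  rw [h1]
  omega

/-! ### the numerical facts -/

/-- the basic identities -/
theorem TC.ident (h : TC E A B z m) : ∃ T w, m * (m + 1) = 2 * T ∧ (E.card = 6 * w) ∧
    2 * (KS E z A).card + ∑ a ∈ A, ms E z A a + (A \ nb E z).card = 2 * T ∧
    2 * (KS E z B).card + ∑ b ∈ B, ms E z B b + (B \ nb E z).card = 2 * T ∧
    (KS E z A).card + (KS E z B).card + (Ep E A B).card = 6 * w := by
  obtain ⟨w, hw⟩ := h.div.six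
  obtain ⟨T, hT⟩ := (Nat.even_mul_succ_self m).two_dvd
  refine ⟨T, w, hT, hw, ?_, ?_, ?_⟩
  · rw [h.sumK, hT]
  · rw [h.swap.sumK, hT]
  · rw [← h.cardE, hw]

theorem TC.ms1 (h : TC E A B z m) (h1 : ∀ a ∈ A, ee E B a ≤ 1) : ∀ a ∈ A, ms E z A a = ee E B a := by
  intro a ha
  have h2 := h.par ha
  have h3 := h1 a ha
  omega

theorem TC.sum1 (h : TC E A B z m) (h1 : ∀ a ∈ A, ee E B a ≤ 1) :
    ∑ a ∈ A, ms E z A a = (Ep E A B).card := by
  rw [← h.sumE]
  exact sum_congr rfl (h.ms1 h1)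

theorem TC.alphale (h : TC E A B z m) : (A \ nb E z).card ≤ (Ep E A B).card :=
  (card_le_card h.alpha).trans h.ncard

/-- if all crossing edges go to the vertex `a0` of `A`, then the vertices of `B` have at most one -/
theorem star_ee (h : TC E A B z m) {a0 : V} (ha0 : a0 ∈ A) (hst : ∀ e ∈ Ep E A B, a0 ∈ e) :
    ∀ b ∈ B, ee E A b ≤ 1 := by
  intro b hb
  unfold ee
  have : nb E b ∩ A ⊆ {a0} := by
    intro x hx
    rw [mem_inter, mem_nb] at hx
    have h1 := hst s(x, b) (mem_Ep.2 ⟨by rw [Sym2.eq_swap]; exact hx.1, Or.inl ⟨hx.2, hb⟩⟩)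
    rw [Sym2.mem_iff] at h1
    rcases h1 with h1 | h1
    · rw [mem_singleton, h1]
    · rw [h1] at ha0
      exact absurd hb (h.dis _ ha0)
  exact (card_le_card this).trans (card_singleton _).le

theorem star_ee0 (h : TC E A B z m) {a0 : V} (ha0 : a0 ∈ A) (hst : ∀ e ∈ Ep E A B, a0 ∈ e) :
    ∀ a ∈ A, a ≠ a0 → Cl E A B a := by
  intro a ha hne
  refine ⟨ha, ?_⟩
  rw [eq_empty_iff_forall_notMem]
  intro x hx
  rw [mem_inter, mem_nb] at hx
  have h1 := hst s(a, x) (mem_Ep.2 ⟨hx.1, Or.inl ⟨ha, hx.2⟩⟩)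
  rw [Sym2.mem_iff] at h1
  rcases h1 with h1 | h1
  · exact hne h1.symm
  · rw [h1] at ha0
    exact h.dis _ ha0 hx.2

/-- star: the sum of `ms` over `A` and the number of non-neighbours of `z` in `A` -/
theorem star_ms (h : TC E A B z m) {a0 : V} (ha0 : a0 ∈ A) (hst : ∀ e ∈ Ep E A B, a0 ∈ e) :
    ∑ a ∈ A, ms E z A a = (if s(a0, z) ∈ E then 0 else 1) ∧
      (A \ nb E z).card = (if s(a0, z) ∈ E then 0 else 1) ∧
      ((if s(a0, z) ∈ E then 0 else 1) + (Ep E A B).card) % 2 = 0 := by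
  have hcl := star_ee0 h ha0 hst
  have h0 : ∀ a ∈ A, a ≠ a0 → ms E z A a = 0 := by
    intro a ha hne
    have h1 := h.msle ha
    have h2 : ee E B a = 0 := by
      unfold ee
      rw [(hcl a ha hne).2, card_empty]
    omega
  have h1 : ∑ a ∈ A, ms E z A a = ms E z A a0 :=
    sum_eq_single_of_mem a0 ha0 fun a ha hne => h0 a ha hne
  have h2 : ms E z A a0 = (if s(a0, z) ∈ E then 0 else 1) := by
    unfold ms
    split_ifs with hz
    · rw [card_eq_zero, sdiff_eq_empty_iff_subset]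
      intro x hx
      rw [mem_erase, mem_insert] at hx
      rw [mem_nb]
      rcases hx with ⟨hx1, rfl | hx2⟩
      · exact hz
      · rw [Sym2.eq_swap]
        exact h.cladj (hcl x hx2 hx1) (mem_insert_of_mem ha0) (Ne.symm hx1)
    · have : (insert z A).erase a0 \ nb E a0 = {z} := by
        ext x
        rw [mem_sdiff, mem_erase, mem_insert, mem_nb, mem_singleton]
        constructor
        · rintro ⟨⟨hx1, rfl | hx2⟩, hx3⟩
          · rfl
          · refine absurd ?_ hx3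
            rw [Sym2.eq_swap]
            exact h.cladj (hcl x hx2 hx1) (mem_insert_of_mem ha0) (Ne.symm hx1)
        · rintro rfl
          exact ⟨⟨Ne.symm (h.nezA ha0), Or.inl rfl⟩, hz⟩
      rw [this, card_singleton]
  have h3 : A \ nb E z = if s(a0, z) ∈ E then ∅ else {a0} := by
    split_ifs with hz
    · rw [sdiff_eq_empty_iff_subset]
      intro x hx
      rw [mem_nb, Sym2.eq_swap]
      by_cases hx1 : x = a0
      · rw [hx1]; exact hz
      · exact h.cladj (hcl x hx hx1) (mem_insert_self _ _) (Ne.symm (h.nezA hx))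
    · ext x
      rw [mem_sdiff, mem_nb, mem_singleton]
      constructor
      · rintro ⟨hx1, hx2⟩
        by_contra hx3
        refine hx2 ?_
        rw [Sym2.eq_swap]
        exact h.cladj (hcl x hx1 hx3) (mem_insert_self _ _) (Ne.symm (h.nezA hx1))
      · rintro rfl
        refine ⟨ha0, ?_⟩
        rw [Sym2.eq_swap]
        exact hz
  refine ⟨h1.trans h2, ?_, ?_⟩
  · rw [h3]
    split_ifs
    · exact card_empty
    · exact card_singleton _
  · have h4 := h.par ha0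
    have h5 : ee E B a0 = (Ep E A B).card := by
      rw [← h.sumE]
      symm
      refine sum_eq_single_of_mem a0 ha0 fun a ha hne => ?_
      unfold ee
      rw [(hcl a ha hne).2, card_empty]
    rw [← h2]
    omega

theorem St.bnO (hs : St E A B z H O F t s) (h : TC E A B z m) {a b : V} (ha : a ∈ A) (hb : b ∈ B)
    (hab : s(a, b) ∈ E) (hF : ∀ e ∈ F, b ∉ e) : b ∉ O := by
  intro hO
  rcases hs.Oc b hO with h1 | h1 | h1 | ⟨e, h1, h2⟩
  · exact h.swap.nezA hb h1
  · exact h.dis _ h1.1 hb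
  · have h2 : a ∈ nb E b ∩ A := by
      rw [mem_inter, mem_nb, Sym2.eq_swap]
      exact ⟨hab, ha⟩
    rw [h1.2] at h2
    simp at h2
  · exact hF e h1 h2

theorem St.anO (hs : St E A B z H O F t s) (h : TC E A B z m) {a b : V} (ha : a ∈ A) (hb : b ∈ B)
    (hab : s(a, b) ∈ E) (hF : ∀ e ∈ F, a ∉ e) : a ∉ O := by
  intro hO
  rcases hs.Oc a hO with h1 | h1 | h1 | ⟨e, h1, h2⟩
  · exact h.nezA ha h1
  · have h2 : b ∈ nb E a ∩ B := by
      rw [mem_inter, mem_nb]
      exact ⟨hab, hb⟩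
    rw [h1.2] at h2
    simp at h2
  · exact h.dis _ ha h1.1
  · exact hF e h1 h2

theorem star_nbr (h : TC E A B z m) {a0 : V} (ha0 : a0 ∈ A) (hst : ∀ e ∈ Ep E A B, a0 ∈ e) :
    (nb E a0 ∩ B).card = (Ep E A B).card := by
  have hcl := star_ee0 h ha0 hst
  rw [← h.sumE]
  symm
  refine sum_eq_single_of_mem a0 ha0 fun a ha hne => ?_
  unfold ee
  rw [(hcl a ha hne).2, card_empty]

theorem star {n0 : ℕ} (hn0 : NK n0) (h : TC E A B z m) (hm : n0 ≤ m) {a0 : V} (ha0 : a0 ∈ A)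
    (hst : ∀ e ∈ Ep E A B, a0 ∈ e) (h2 : 2 ≤ (Ep E A B).card) : Dec E := by
  obtain ⟨T, w, hT, hw, i1, i2, i3⟩ := h.ident
  obtain ⟨s1, s2, s3⟩ := star_ms h ha0 hst
  have s4 := h.swap.sum1 (star_ee h ha0 hst)
  have s5 := h.swap.alphale
  rw [Ep_comm E B A] at s4 s5
  rw [s1, s2] at i1
  rw [s4] at i2
  have hfew := h.few
  have hq : (Ep E A B).card = 2 ∨ (Ep E A B).card = 3 ∨ (Ep E A B).card = 4 := by omega
  have hinit : (Ep E A B \ ∅).card = (Ep E A B).card := by rw [sdiff_empty]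
  have hne : (Ep E A B).Nonempty := by rw [← card_pos]; omega
  have hnbr := star_nbr h ha0 hst
  -- an edge
  have hS1 : s(a0, z) ∈ E → ∃ (H' : Finset (Sym2 V)) (O' : Finset V) (F' : Finset (Sym2 V)),
      St E A B z H' O' F' 1 1 ∧ (Ep E A B \ F').card + 1 = (Ep E A B).card := by
    intro hz
    obtain ⟨e, he⟩ := hne
    have he' := he
    obtain ⟨a, ha, b, hb, rfl, hab⟩ := Ep_cases he
    have haa : a = a0 := by
      have := hst _ he
      rw [Sym2.mem_iff] at this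
      rcases this with h1 | h1
      · exact h1.symm
      · rw [← h1] at hb
        exact absurd hb (h.dis _ ha0)
    subst haa
    obtain ⟨H', O', hs'⟩ := (St.init (E := E) (A := A) (B := B) (z := z)).S1 h (by norm_num) ha hb
      hab (by simp) hz (by simp)
    exact ⟨H', O', _, by simpa using hs', sdiff1 he'⟩
  rcases hq with hq | hq | hq
  · rw [hq] at s3 i3 i2 s5 hinit
    have hz : s(a0, z) ∈ E := by
      by_contra hz
      rw [if_neg hz] at s3
      omega
    rw [if_pos hz] at i1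
    have h3 : (KS E z A).card % 6 = 0 ∨ (KS E z A).card % 6 = 3 := by omega
    rcases h3 with h3 | h3
    · exact finAll hn0 h hm St.init 2 hinit (by norm_num) 6 (by norm_num) (by norm_num)
        (by rw [h3])
    · obtain ⟨H', O', F', hs', hc'⟩ := hS1 hz
      rw [hq] at hc'
      exact finAll hn0 h hm hs' 1 (by omega) (by norm_num) 2 (by norm_num) (by norm_num)
        (by rw [h3])
  · rw [hq] at s3 i3 i2 s5 hinit
    have hz : s(a0, z) ∉ E := by
      intro hz
      rw [if_pos hz] at s3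
      omega
    rw [if_neg hz] at i1
    have hα : (B \ nb E z).card = 1 := by omega
    by_cases h3 : (KS E z A).card % 6 ≤ 3
    · exact finAll hn0 h hm St.init 3 hinit (by norm_num) (6 + (KS E z A).card % 6) (by omega)
        (by omega) (by omega)
    · have hbb : 1 < ((nb E a0 ∩ B) ∩ nb E z).card := by
        have e1 := card_sdiff_add_card_inter (nb E a0 ∩ B) (nb E z)
        have e2 : ((nb E a0 ∩ B) \ nb E z).card ≤ (B \ nb E z).card :=
          card_le_card (sdiff_subset_sdiff inter_subset_right (Subset.refl _))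
        omega
      obtain ⟨b1, hb1, b2, hb2, hb12⟩ := one_lt_card.1 hbb
      rw [mem_inter, mem_inter, mem_nb, mem_nb] at hb1 hb2
      obtain ⟨⟨f1, f2⟩, f3⟩ := hb1
      obtain ⟨⟨g1, g2⟩, g3⟩ := hb2
      rw [Sym2.eq_swap] at f3 g3
      obtain ⟨H1, O1, hs1⟩ := (St.init (E := E) (A := A) (B := B) (z := z)).S4 h (by norm_num) ha0 f2
        f1 (by simp) f3 (by simp)
      have hb2O : b2 ∉ O1 := by
        refine hs1.bnO h ha0 g2 g1 ?_
        intro e he
        rw [mem_insert] at he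
        rcases he with rfl | he
        · rw [Sym2.mem_iff]
          rintro (h1 | h1)
          · exact h.neAB ha0 g2 h1.symm
          · exact hb12 h1.symm
        · simp at he
      obtain ⟨H2, O2, hs2⟩ := hs1.S4 h (by norm_num) ha0 g2 g1 (hs1.nH (Or.inr hb2O)) g3
        (hs1.nH (Or.inl hb2O))
      have hne12 : s(a0, b2) ≠ s(a0, b1) := by
        intro h1
        rw [Sym2.eq_iff] at h1
        rcases h1 with h1 | h1
        · exact hb12 h1.2.symm
        · exact hb12 (h1.2.trans h1.1).symm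
      have hc := sdiff2 (mem_Ep.2 ⟨g1, Or.inl ⟨ha0, g2⟩⟩) (mem_Ep.2 ⟨f1, Or.inl ⟨ha0, f2⟩⟩) hne12
      rw [hq] at hc
      have h4 : (KS E z A).card % 6 = 4 ∨ (KS E z A).card % 6 = 5 := by omega
      rcases h4 with h4 | h4
      · exact finAll hn0 h hm hs2 1 (by omega) (by norm_num) 2 (by norm_num) (by norm_num)
          (by rw [h4])
      · exact finAll hn0 h hm hs2 1 (by omega) (by norm_num) 3 (by norm_num) (by norm_num)
          (by rw [h4])
  · rw [hq] at s3 hinit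
    have hz : s(a0, z) ∈ E := by
      by_contra hz
      rw [if_neg hz] at s3
      omega
    by_cases h3 : (KS E z A).card % 6 = 1
    · obtain ⟨H', O', F', hs', hc'⟩ := hS1 hz
      rw [hq] at hc'
      exact finAll hn0 h hm hs' 3 (by omega) (by norm_num) 6 (by norm_num) (by norm_num)
        (by rw [h3])
    · exact finAll hn0 h hm St.init 4 hinit (by norm_num) (8 + ((KS E z A).card % 6 + 4) % 6)
        (by omega) (by omega) (by omega)

theorem disj {n0 : ℕ} (hn0 : NK n0) (h : TC E A B z m) (hm : n0 ≤ m) {a1 a2 b1 b2 : V}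
    (ha1 : a1 ∈ A) (ha2 : a2 ∈ A) (hb1 : b1 ∈ B) (hb2 : b2 ∈ B) (e1 : s(a1, b1) ∈ E)
    (e2 : s(a2, b2) ∈ E) (ha : a1 ≠ a2) (hb : b1 ≠ b2) : Dec E := by
  obtain ⟨T, w, hT, hw, i1, i2, i3⟩ := h.ident
  have m1 : s(a1, b1) ∈ Ep E A B := mem_Ep.2 ⟨e1, Or.inl ⟨ha1, hb1⟩⟩
  have m2 : s(a2, b2) ∈ Ep E A B := mem_Ep.2 ⟨e2, Or.inl ⟨ha2, hb2⟩⟩
  have hne : s(a1, b1) ≠ s(a2, b2) := by
    intro h1
    rw [Sym2.eq_iff] at h1
    rcases h1 with h1 | h1
    · exact ha h1.1
    · exact h.neAB ha1 hb2 h1.1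
  have hfew := h.few
  have hcF := sdiff2 m1 m2 hne
  have hq : (Ep E A B).card = 2 ∨ (Ep E A B).card = 3 ∨ (Ep E A B).card = 4 := by omega
  have hinit : (Ep E A B \ ∅).card = (Ep E A B).card := by rw [sdiff_empty]
  obtain ⟨H2, O2, hs2⟩ := (St.init (E := E) (A := A) (B := B) (z := z)).P2 h (by norm_num) ha1 hb1
    e1 (by simp) ha2 hb2 e2 (by simp) ha hb
  rcases hq with hq | hq | hq
  · -- two crossing edges
    rw [hq] at hcF hinit i3
    have hEp : ∀ e ∈ Ep E A B, e = s(a1, b1) ∨ e = s(a2, b2) := by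
      intro e he
      by_contra hc
      push Not at hc
      have : e ∈ Ep E A B \ insert s(a1, b1) (insert s(a2, b2) ∅) := by
        simp only [mem_sdiff, mem_insert, notMem_empty, or_false, not_or]
        exact ⟨he, hc⟩
      have h3 : 0 < (Ep E A B \ insert s(a1, b1) (insert s(a2, b2) ∅)).card :=
        card_pos.2 ⟨e, this⟩
      omega
    have hEp' : ∀ a ∈ A, ∀ b ∈ B, s(a, b) ∈ E → (a = a1 ∧ b = b1) ∨ (a = a2 ∧ b = b2) := by
      intro a haA b hbB hab
      rcases hEp _ (mem_Ep.2 ⟨hab, Or.inl ⟨haA, hbB⟩⟩) with h1 | h1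
      · rw [Sym2.eq_iff] at h1
        rcases h1 with h1 | h1
        · exact Or.inl h1
        · exact absurd h1.1 (h.neAB haA hb1)
      · rw [Sym2.eq_iff] at h1
        rcases h1 with h1 | h1
        · exact Or.inr h1
        · exact absurd h1.1 (h.neAB haA hb2)
    have heA : ∀ a ∈ A, ee E B a ≤ 1 := by
      intro a haA
      unfold ee
      rw [card_le_one]
      intro x hx y hy
      rw [mem_inter, mem_nb] at hx hy
      rcases hEp' a haA x hx.2 hx.1 with h3 | h3 <;> rcases hEp' a haA y hy.2 hy.1 with h4 | h4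
      · exact h3.2.trans h4.2.symm
      · exact absurd (h3.1.symm.trans h4.1) ha
      · exact absurd (h4.1.symm.trans h3.1) ha
      · exact h3.2.trans h4.2.symm
    have heB : ∀ b ∈ B, ee E A b ≤ 1 := by
      intro b hbB
      unfold ee
      rw [card_le_one]
      intro x hx y hy
      rw [mem_inter, mem_nb, Sym2.eq_swap] at hx hy
      rcases hEp' x hx.2 b hbB hx.1 with h3 | h3 <;> rcases hEp' y hy.2 b hbB hy.1 with h4 | h4
      · exact h3.1.trans h4.1.symm
      · exact absurd (h3.2.symm.trans h4.2) hb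
      · exact absurd (h4.2.symm.trans h3.2) hb
      · exact h3.1.trans h4.1.symm
    have s1 := h.sum1 heA
    have s2 := h.swap.sum1 heB
    have s3 := h.alphale
    have s4 := h.swap.alphale
    rw [Ep_comm E B A] at s2 s4
    rw [hq] at s1 s2 s3 s4
    rw [s1] at i1
    rw [s2] at i2
    have h3 : (KS E z A).card % 6 = 0 ∨ (KS E z A).card % 6 = 4 ∨ (KS E z A).card % 6 = 5 ∨
      (KS E z A).card % 6 = 1 ∨ (KS E z A).card % 6 = 2 ∨ (KS E z A).card % 6 = 3 := by omega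
    have hα : ((A \ nb E z).card = 0 ∧ (B \ nb E z).card = 0) ∨
        ((A \ nb E z).card = 2 ∧ (B \ nb E z).card = 2) := by omega
    rcases h3 with h3 | h3 | h3 | h3'
    · exact finAll hn0 h hm St.init 2 hinit (by norm_num) 6 (by norm_num) (by norm_num)
        (by rw [h3])
    · exact finAll hn0 h hm St.init 2 hinit (by norm_num) 4 (by norm_num) (by norm_num)
        (by rw [h3])
    · exact finAll hn0 h hm St.init 2 hinit (by norm_num) 5 (by norm_num) (by norm_num)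
        (by rw [h3])
    rcases hα with ⟨hα, hβ⟩ | ⟨hα, hβ⟩
    · -- everything adjacent to `z`
      rw [card_eq_zero, sdiff_eq_empty_iff_subset] at hα hβ
      have a1z : s(a1, z) ∈ E := by
        have := hα ha1
        rw [mem_nb, Sym2.eq_swap] at this
        exact this
      have a2z : s(a2, z) ∈ E := by
        have := hα ha2
        rw [mem_nb, Sym2.eq_swap] at this
        exact this
      have b1z : s(b1, z) ∈ E := by
        have := hβ hb1
        rw [mem_nb, Sym2.eq_swap] at this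
        exact this
      have hc1 := sdiff1 m1
      rw [hq] at hc1
      obtain ⟨H1, O1, hs1⟩ := (St.init (E := E) (A := A) (B := B) (z := z)).S1 h (by norm_num) ha1
        hb1 e1 (by simp) a1z (by simp)
      rcases h3' with h3 | h3 | h3
      · obtain ⟨H4, O4, hs4⟩ := (St.init (E := E) (A := A) (B := B) (z := z)).S4 h (by norm_num) ha1
          hb1 e1 (by simp) b1z (by simp)
        exact finAll hn0 h hm hs4 1 (by omega) (by norm_num) 3 (by norm_num) (by norm_num)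
          (by rw [h3])
      · have ha2O : a2 ∉ O1 := by
          refine hs1.anO h ha2 hb2 e2 ?_
          intro e he
          rw [mem_insert] at he
          rcases he with rfl | he
          · rw [Sym2.mem_iff]
            rintro (h1 | h1)
            · exact ha h1.symm
            · exact h.neAB ha2 hb1 h1
          · simp at he
        obtain ⟨H5, O5, hs5⟩ := hs1.S1 h (by norm_num) ha2 hb2 e2 (hs1.nH (Or.inl ha2O)) a2z
          (hs1.nH (Or.inl ha2O))
        have hc5 := sdiff2 m2 m1 (Ne.symm hne)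
        exact finAll hn0 h hm hs5 0 (by omega) (by norm_num) 0 (by norm_num) (by norm_num)
          (by rw [h3])
      · exact finAll hn0 h hm hs1 1 (by omega) (by norm_num) 2 (by norm_num) (by norm_num)
          (by rw [h3])
    · -- `z` is not adjacent to the ends of the crossing edges
      have key : ∀ {E : Finset (Sym2 V)} {A B : Finset V} {a1 a2 b1 : V}, TC E A B z m →
          a1 ∈ A → a2 ∈ A → b1 ∈ B → s(a1, b1) ∈ E → a1 ≠ a2 → (∀ a ∈ A, ee E B a ≤ 1) →
          (Ep E A B).card = 2 → (A \ nb E z).card = 2 → s(a1, a2) ∈ E := by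
        intro E A B a1 a2 b1 h ha1 ha2 hb1 e1 ha heA hq hα
        have hNC : A \ nb E z = NC E A B :=
          eq_of_subset_of_card_le h.alpha (by rw [hα]; exact h.ncard.trans hq.le)
        have ha1N : a1 ∈ NC E A B := by
          unfold NC
          rw [mem_filter]
          refine ⟨ha1, ?_⟩
          rw [← nonempty_iff_ne_empty]
          exact ⟨b1, mem_inter.2 ⟨mem_nb.2 e1, hb1⟩⟩
        rw [← hNC, mem_sdiff, mem_nb] at ha1N
        by_contra hc
        have hm2 : ms E z A a1 ≤ 1 := (h.msle ha1).trans (heA a1 ha1)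
        unfold ms at hm2
        rw [card_le_one] at hm2
        have := hm2 z (by
          rw [mem_sdiff, mem_erase, mem_nb, Sym2.eq_swap]
          exact ⟨⟨Ne.symm (h.nezA ha1), mem_insert_self _ _⟩, ha1N.2⟩) a2 (by
          rw [mem_sdiff, mem_erase, mem_nb]
          exact ⟨⟨Ne.symm ha, mem_insert_of_mem ha2⟩, hc⟩)
        exact h.nezA ha2 this.symm
      have a12 : s(a1, a2) ∈ E := key h ha1 ha2 hb1 e1 ha heA hq hα
      have b12 : s(b1, b2) ∈ E := key h.swap hb1 hb2 ha1 (by rw [Sym2.eq_swap]; exact e1) hb heB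
        (by rw [Ep_comm]; exact hq) hβ
      rcases h3' with h3 | h3 | h3
      · obtain ⟨H4, O4, hs4⟩ := (St.init (E := E) (A := A) (B := B) (z := z)).P1 h (by norm_num) ha1
          hb1 e1 (by simp) ha2 hb2 e2 (by simp) ha hb a12 (by simp)
        exact finAll hn0 h hm hs4 0 (by omega) (by norm_num) 0 (by norm_num) (by norm_num)
          (by rw [h3])
      · exact finAll hn0 h hm hs2 0 (by omega) (by norm_num) 0 (by norm_num) (by norm_num)
          (by rw [h3])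
      · obtain ⟨H4, O4, hs4⟩ := (St.init (E := E) (A := A) (B := B) (z := z)).P3 h (by norm_num) ha1
          hb1 e1 (by simp) ha2 hb2 e2 (by simp) ha hb b12 (by simp)
        exact finAll hn0 h hm hs4 0 (by omega) (by norm_num) 0 (by norm_num) (by norm_num)
          (by rw [h3])
  · rw [hq] at hcF hinit
    by_cases h3 : (KS E z A).card % 6 ≤ 3
    · exact finAll hn0 h hm St.init 3 hinit (by norm_num) (6 + (KS E z A).card % 6) (by omega)
        (by omega) (by omega)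
    · exact finAll hn0 h hm hs2 1 (by omega) (by norm_num) ((KS E z A).card % 6 - 2) (by omega)
        (by omega) (by omega)
  · rw [hq] at hcF hinit
    by_cases h3 : (KS E z A).card % 6 = 1
    · exact finAll hn0 h hm hs2 2 (by omega) (by norm_num) 5 (by norm_num) (by norm_num)
        (by rw [h3])
    · exact finAll hn0 h hm St.init 4 hinit (by norm_num) (8 + ((KS E z A).card % 6 + 4) % 6)
        (by omega) (by omega) (by omega)

theorem one_false (h : TC E A B z m) (hq : (Ep E A B).card = 1) : False := by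
  obtain ⟨T, w, hT, hw, i1, i2, i3⟩ := h.ident
  have s1 := h.sum1 fun a ha => (h.eele ha).trans hq.le
  have s2 := h.swap.sum1 fun b hb => (h.swap.eele hb).trans (by rw [Ep_comm]; exact hq.le)
  have s3 := h.alphale
  have s4 := h.swap.alphale
  rw [Ep_comm E B A] at s2 s4
  rw [hq] at s1 s2 s3 s4
  rw [s1] at i1
  rw [s2] at i2
  omega

theorem two_cliques (h : TC E A B z m) (hq : (Ep E A B).card = 0) : TwoCliques E := by
  rw [card_eq_zero] at hq
  have hcl : ∀ {A B : Finset V}, TC E A B z m → Ep E A B = ∅ → ∀ a ∈ A, Cl E A B a := by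
    intro A B h hq a ha
    refine ⟨ha, ?_⟩
    rw [eq_empty_iff_forall_notMem]
    intro x hx
    rw [mem_inter, mem_nb] at hx
    have : s(a, x) ∈ Ep E A B := mem_Ep.2 ⟨hx.1, Or.inl ⟨ha, hx.2⟩⟩
    rw [hq] at this
    simp at this
  have hadj : ∀ {A B : Finset V}, TC E A B z m → Ep E A B = ∅ → ∀ u ∈ insert z A,
      ∀ v ∈ insert z A, u ≠ v → s(u, v) ∈ E := by
    intro A B h hq u hu v hv huv
    rcases mem_insert.1 hu with rfl | hu'
    · rcases mem_insert.1 hv with rfl | hv'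
      · exact absurd rfl huv
      · rw [Sym2.eq_swap]
        exact h.cladj (hcl h hq v hv') hu huv
    · exact h.cladj (hcl h hq u hu') hv huv.symm
  refine ⟨z, A, B, h.zA, h.zB, ?_, ?_, ?_, ?_⟩
  · rw [disjoint_left]
    exact fun x hx hx' => h.dis x hx hx'
  · ext x
    rw [mem_insert, mem_union]
    have := h.cov x
    simp only [mem_univ, iff_true]
    exact this
  · rw [h.cA, h.cB]
  · intro u v
    constructor
    · intro he
      refine ⟨h.ll.ne he, ?_⟩
      have h1 : s(u, v) ∈ KS E z A ∪ KS E z B ∪ Ep E A B := by rw [← h.splitE]; exact he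
      rw [hq, union_empty, mem_union, mem_KS, mem_KS] at h1
      rcases h1 with h1 | h1
      · exact Or.inl h1.2
      · exact Or.inr h1.2
    · rintro ⟨hne, h1 | h1⟩
      · exact hadj h hq u h1.1 v h1.2 hne
      · exact hadj h.swap (by rw [Ep_comm]; exact hq) u h1.1 v h1.2 hne

theorem all {n0 : ℕ} (hn0 : NK n0) (h : TC E A B z m) (hm : n0 ≤ m) : Dec E ∨ TwoCliques E := by
  have hfew := h.few
  rcases Nat.eq_zero_or_pos (Ep E A B).card with h0 | h0
  · exact Or.inr (two_cliques h h0)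
  left
  rcases Nat.lt_or_ge (Ep E A B).card 2 with h1 | h1
  · exact (one_false h (by omega)).elim
  by_cases hd : ∃ a1 ∈ A, ∃ a2 ∈ A, ∃ b1 ∈ B, ∃ b2 ∈ B, s(a1, b1) ∈ E ∧ s(a2, b2) ∈ E ∧ a1 ≠ a2 ∧
      b1 ≠ b2
  · obtain ⟨a1, ha1, a2, ha2, b1, hb1, b2, hb2, e1, e2, hne, hne'⟩ := hd
    exact disj hn0 h hm ha1 ha2 hb1 hb2 e1 e2 hne hne'
  · push Not at hd
    obtain ⟨x, hx, y, hy, hxy⟩ := one_lt_card.1 (show 1 < (Ep E A B).card by omega)
    obtain ⟨a1, ha1, b1, hb1, rfl, e1⟩ := Ep_cases hx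
    obtain ⟨a2, ha2, b2, hb2, rfl, e2⟩ := Ep_cases hy
    by_cases hab : a1 = a2
    · subst hab
      have hbb : b1 ≠ b2 := fun h => hxy (by rw [h])
      refine star hn0 h hm ha1 ?_ h1
      intro e he
      obtain ⟨a, ha, b, hb, rfl, hab⟩ := Ep_cases he
      by_contra hc
      rw [Sym2.mem_iff, not_or] at hc
      have f1 := hd a1 ha1 a ha b1 hb1 b hb e1 hab hc.1
      have f2 := hd a1 ha1 a ha b2 hb2 b hb e2 hab hc.1
      exact hbb (f1.trans f2.symm)
    · have hbb : b1 = b2 := hd a1 ha1 a2 ha2 b1 hb1 b2 hb2 e1 e2 hab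
      subst hbb
      refine star hn0 h.swap hm hb1 ?_ (by rw [Ep_comm]; exact h1)
      intro e he
      obtain ⟨b, hb, a, ha, rfl, hba⟩ := Ep_cases he
      by_contra hc
      rw [Sym2.mem_iff, not_or] at hc
      rw [Sym2.eq_swap] at hba
      have f1 : a1 = a := by
        by_contra hne
        exact hc.1 (hd a1 ha1 a ha b1 hb1 b hb e1 hba hne)
      have f2 : a2 = a := by
        by_contra hne
        exact hc.1 (hd a2 ha2 a ha b1 hb1 b hb e2 hba hne)
      exact hab (f1.trans f2.symm)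

end Tight

open Finset Tight in
/-- Section 15.4 -/
theorem tight_of : S_nearKsub → S_tight := by
  rintro ⟨n0, hn0⟩
  refine ⟨2 * (n0 + 30000) + 1, ?_⟩
  intro V _ _ E A hn hdiv hdeg hT
  obtain ⟨z, hz, hcard, hfew⟩ := hT
  have hbig : n0 + 30000 ≤ A.card := by
    generalize (30000 : ℕ) = q at hn ⊢
    omega
  have hb1 : 30000 ≤ A.card := (Nat.le_add_left _ _).trans hbig
  have hb2 : n0 ≤ A.card := (Nat.le_add_right _ _).trans hbig
  have h : TC E A (univ \ insert z A) z A.card :=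
    { div := hdiv
      deg := fun v => by
        have := hdeg v
        omega
      zA := hz
      zB := by simp
      dis := fun v hv => by simp [hv]
      cov := fun v => by
        simp only [mem_sdiff, mem_univ, mem_insert, true_and, not_or]
        tauto
      cA := rfl
      cB := by
        rw [card_sdiff_of_subset (subset_univ _), card_univ, card_insert_of_notMem hz]
        omega
      few := by
        refine le_trans (card_le_card ?_) hfew
        intro e he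
        obtain ⟨a, ha, b, hb, rfl, hab⟩ := Ep_cases he
        simp only [mem_sdiff, mem_univ, mem_insert, true_and, not_or] at hb
        unfold cross
        simp only [mem_filter, mk_mem_sym2_iff, mem_compl, Sym2.mem_iff]
        refine ⟨⟨hab, ?_, ?_⟩, ?_⟩
        · exact fun h => hb.2 h.2
        · exact fun h => h.1 ha
        · rintro (h1 | h1)
          · rw [h1] at hz
            exact hz ha
          · exact hb.1 h1.symm
      big := hb1 }
  exact Tight.all (n0 := n0) hn0 h hb2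

end Pool.Agent.H483C6
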