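import Pool.Agent.H483C6.Basic
import Pool.Agent.H483C6.Stmts3

/-!
# Transfer to vertex subsets (MP_1bffa4_co, helper483)
-/

set_option autoImplicit false
set_option linter.unusedSectionVars false

namespace Pool.Agent.H483C6

open Finset

section M

variable {V W : Type} [DecidableEq V] [DecidableEq W]

theorem IsHex.map {S : Finset (Sym2 V)} (h : IsHex S) (f : V → W) (hf : Function.Injective f) :
    IsHex (S.image (Sym2.map f)) := by
  obtain ⟨a, b, c, d, e, g, hn, rfl⟩ := h
  refine ⟨f a, f b, f c, f d, f e, f g, ?_, ?_⟩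
  · have := hn.map hf
    simpa using this
  · simp [hex, image_insert]

theorem Dec.map {E : Finset (Sym2 V)} (h : Dec E) (f : V → W) (hf : Function.Injective f) :
    Dec (E.image (Sym2.map f)) := by
  induction h with
  | empty => simpa using Dec.empty
  | cons hS _ hd ih =>
    rw [image_union]
    refine Dec.cons (hS.map f hf) ih ?_
    rw [disjoint_image (Sym2.map.injective hf)]
    exact hd

end M

section S

variable {V : Type} [Fintype V] [DecidableEq V]

/-- the induced edge set on the subtype -/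
def sub (E : Finset (Sym2 V)) (X : Finset V) : Finset (Sym2 {x // x ∈ X}) :=
  univ.filter fun e => Sym2.map Subtype.val e ∈ E

theorem mem_sub {E : Finset (Sym2 V)} {X : Finset V} {u v : {x // x ∈ X}} :
    s(u, v) ∈ sub E X ↔ s(u.1, v.1) ∈ E := by
  simp [sub]

theorem image_sub {E : Finset (Sym2 V)} {X : Finset V} (h : E ⊆ X.sym2) :
    (sub E X).image (Sym2.map Subtype.val) = E := by
  ext e
  rw [mem_image]
  constructor
  · rintro ⟨e', h1, rfl⟩
    simpa [sub] using h1
  · intro he
    induction e using Sym2.ind with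
    | _ x y =>
      have hxy := mk_mem_sym2_iff.1 (h he)
      refine ⟨s(⟨x, hxy.1⟩, ⟨y, hxy.2⟩), ?_, ?_⟩
      · rw [mem_sub]; exact he
      · simp

theorem card_sub {E : Finset (Sym2 V)} {X : Finset V} (h : E ⊆ X.sym2) :
    (sub E X).card = E.card := by
  conv_rhs => rw [← image_sub h]
  rw [card_image_of_injective _ (Sym2.map.injective Subtype.val_injective)]

theorem dg_sub {E : Finset (Sym2 V)} {X : Finset V} (h : E ⊆ X.sym2) (v : {x // x ∈ X}) :
    dg (sub E X) v = dg E v.1 := by
  unfold dg
  rw [← card_image_of_injective (nb (sub E X) v) Subtype.val_injective]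
  congr 1
  ext u
  rw [mem_image]
  constructor
  · rintro ⟨u', h1, rfl⟩
    rw [mem_nb, mem_sub] at h1
    rw [mem_nb]; exact h1
  · intro hu
    rw [mem_nb] at hu
    refine ⟨⟨u, (mk_mem_sym2_iff.1 (h hu)).2⟩, ?_, rfl⟩
    rw [mem_nb, mem_sub]; exact hu

theorem div6_sub {E : Finset (Sym2 V)} {X : Finset V} (h : E ⊆ X.sym2) (hd : Div6 E) :
    Div6 (sub E X) := by
  refine ⟨?_, fun v => ?_, ?_⟩
  · intro e he
    induction e using Sym2.ind with
    | _ x y =>
      rw [mem_sub] at he
      have := hd.loopless.ne he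
      rw [Sym2.mk_isDiag_iff]
      intro hxy
      exact this (congrArg Subtype.val hxy)
  · rw [dg_sub h]; exact hd.even v.1
  · rw [card_sub h]; exact hd.six

theorem dec_of_sub {E : Finset (Sym2 V)} {X : Finset V} (h : E ⊆ X.sym2) (hd : Dec (sub E X)) :
    Dec E := by
  rw [← image_sub h]
  exact hd.map _ Subtype.val_injective

end S

theorem nearKsub_of (h : S_nearK) : S_nearKsub := by
  obtain ⟨n0, H⟩ := h
  refine ⟨n0, ?_⟩
  intro V _ _ E X hn hX h1 h2 hd
  apply dec_of_sub hX
  have hc : Fintype.card {x // x ∈ X} = X.card := Fintype.card_coe X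
  refine H {x // x ∈ X} (sub E X) (by rw [hc]; exact hn) ⟨?_, ?_⟩ (div6_sub hX hd)
  · intro v
    rw [hc, dg_sub hX]
    exact h1 v.1 v.2
  · rw [hc]
    refine le_trans ?_ h2
    refine Nat.cast_le.2 ?_
    rw [← card_image_of_injective _ (Subtype.val_injective (p := fun x => x ∈ X))]
    refine card_le_card fun u hu => ?_
    rw [mem_image] at hu
    obtain ⟨u', h3, rfl⟩ := hu
    rw [mem_filter] at h3 ⊢
    rw [dg_sub hX] at h3
    exact ⟨u'.2, h3.2⟩

end Pool.Agent.H483C6
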