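import Pool.Agent.H483C6.Stmts3
import Pool.Agent.H483C6.Basic

/-!
# Assembly of the upper bound (MP_1bffa4_co, helper483)
-/

set_option autoImplicit false

namespace Pool.Agent.H483C6

open Finset

theorem SetII.mono {V : Type} [Fintype V] [DecidableEq V] {E : Finset (Sym2 V)} {A : Finset V}
    {ε ε' : ℝ} (h : SetII E A ε) (hε : ε ≤ ε') : SetII E A ε' := by
  have hn : (0 : ℝ) ≤ Fintype.card V := Nat.cast_nonneg _
  refine ⟨h.div, h.deg, h.le, ?_, ?_, h.own, fun v => ?_⟩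
  · have := h.low
    nlinarith
  · have := h.few
    nlinarith [sq_nonneg (Fintype.card V : ℝ)]
  · have := h.own' v
    nlinarith

theorem caseII_of (h0 : S_II0) (h2 : S_II2) (h3 : S_II3) (ht : S_tight) : S_caseII := by
  obtain ⟨ε2, hε2, n2, H2⟩ := h2
  obtain ⟨ε3, hε3, n3, H3⟩ := h3
  obtain ⟨n4, H4⟩ := ht
  obtain ⟨ε, hε, n0, H0⟩ := h0 (min ε2 ε3) (lt_min hε2 hε3)
  refine ⟨ε, hε, max n0 (max n2 (max n3 n4)), ?_⟩
  intro V _ _ E A hn hdeg hdiv hA hA' hc
  have k0 : n0 ≤ Fintype.card V := (le_max_left _ _).trans hn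
  have k1 : max n2 (max n3 n4) ≤ Fintype.card V := (le_max_right _ _).trans hn
  have k2 : n2 ≤ Fintype.card V := (le_max_left _ _).trans k1
  have k3 : max n3 n4 ≤ Fintype.card V := (le_max_right _ _).trans k1
  have k4 : n3 ≤ Fintype.card V := (le_max_left _ _).trans k3
  have k5 : n4 ≤ Fintype.card V := (le_max_right _ _).trans k3
  obtain ⟨A', hS⟩ := H0 V E A k0 hdeg hdiv hA hA' hc
  rcases H2 V E A' k2 (hS.mono (min_le_left _ _)) with hF | hT
  · exact Or.inl (H3 V E A' k4 (hS.mono (min_le_right _ _)) hF)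
  · exact H4 V E A' k5 hdiv hdeg hT

theorem upper_of (hI : S_caseI) (hs : S_stab) (hII : S_caseII) (hIII : S_caseIII) :
    S_upper := by
  obtain ⟨ε2, hε2, n2, H2⟩ := hII
  obtain ⟨ε3, hε3, n3, H3⟩ := hIII
  obtain ⟨γ, hγ, n4, H4⟩ := hs (min ε2 ε3) (lt_min hε2 hε3)
  obtain ⟨n1, H1⟩ := hI γ hγ
  refine ⟨max n1 (max n2 (max n3 n4)), ?_⟩
  intro V _ _ E hn hdeg hdiv
  have k0 : n1 ≤ Fintype.card V := (le_max_left _ _).trans hn
  have k1 : max n2 (max n3 n4) ≤ Fintype.card V := (le_max_right _ _).trans hn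
  have k2 : n2 ≤ Fintype.card V := (le_max_left _ _).trans k1
  have k3 : max n3 n4 ≤ Fintype.card V := (le_max_right _ _).trans k1
  have k4 : n3 ≤ Fintype.card V := (le_max_left _ _).trans k3
  have k5 : n4 ≤ Fintype.card V := (le_max_right _ _).trans k3
  by_cases hQ : Q3 E γ
  · exact Or.inl (H1 V E k0 hQ hdeg hdiv)
  · obtain ⟨A, a1, a2, a3⟩ := H4 V E hdiv.loopless k5 hdeg hQ
    have hnn : (0 : ℝ) ≤ Fintype.card V := Nat.cast_nonneg _
    have m2 : min ε2 ε3 ≤ ε2 := min_le_left _ _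
    have m3 : min ε2 ε3 ≤ ε3 := min_le_right _ _
    have hsq := sq_nonneg (Fintype.card V : ℝ)
    rcases a3 with a3 | a3
    · exact H2 V E A k2 hdeg hdiv (by nlinarith) (by nlinarith) (by nlinarith)
    · exact Or.inl (H3 V E A k4 hdeg hdiv (by nlinarith) (by nlinarith) (by nlinarith))

end Pool.Agent.H483C6
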