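import Pool.Agent.H483C6.FinalAsm
import Pool.Agent.H483C6.Upper
import Pool.Agent.H483C6.MainT
import Pool.Agent.H483C6.Abs7
import Pool.Agent.H483C6.SevenN
import Pool.Agent.H483C6.NearKDec
import Pool.Agent.H483C6.NearKKDec
import Pool.Agent.H483C6.Transfer
import Pool.Agent.H483C6.AbsB
import Pool.Agent.H483C6.Stab
import Pool.Agent.H483C6.Split
import Pool.Agent.H483C6.SevenQ
import Pool.Agent.H483C6.CaseII0
import Pool.Agent.H483C6.CaseII2
import Pool.Agent.H483C6.II3
import Pool.Agent.H483C6.Tight
import Pool.Agent.H483C6.CaseIII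
import Pool.Agent.H483C6.Lower

/-!
# The exact threshold (MP_1bffa4_co, helper483)
-/

set_option autoImplicit false

namespace Pool.Agent.H483C6

theorem nearK : S_nearK := nearK_of main abs7 sevenN

theorem nearKsub : S_nearKsub := nearKsub_of nearK

theorem nearKK : S_nearKK := nearKK_of main absB

theorem caseI : S_caseI := caseI_of main abs7 (sevenQ_of_split split)

theorem caseII : S_caseII := caseII_of caseII0 caseII2 (II3_of nearKsub) (tight_of nearKsub)

theorem caseIII' : S_caseIII := caseIII nearKK hexagon

theorem upper : S_upper := upper_of caseI stab caseII caseIII'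

theorem final : ∃ n0 : ℕ, ∀ n : ℕ, n0 ≤ n →
    IsLeast {d : ℕ | d ≤ n ∧ Forces n d} (threshold n) :=
  final_of upper Low.lower nearKsub

end Pool.Agent.H483C6
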