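import Pool.Agent.H483C6.Basic
import Pool.Agent.H483C6.Stmts3

set_option autoImplicit false

namespace Pool.Agent.H483C6

open Finset

namespace TwoCAux

variable {V : Type} [Fintype V] [DecidableEq V]

/-- the edges inside `X` -/
def ins (E : Finset (Sym2 V)) (X : Finset V) : Finset (Sym2 V) := E.filter (· ∈ X.sym2)

omit [Fintype V] in
lemma mem_ins {E : Finset (Sym2 V)} {X : Finset V} {e : Sym2 V} :
    e ∈ ins E X ↔ e ∈ E ∧ e ∈ X.sym2 := by
  unfold ins
  rw [mem_filter]

omit [Fintype V] in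
lemma ins_subset (E : Finset (Sym2 V)) (X : Finset V) : ins E X ⊆ X.sym2 :=
  fun _ he => (mem_ins.1 he).2

lemma nb_ins {E : Finset (Sym2 V)} {X : Finset V}
    (h : ∀ u ∈ X, ∀ v ∈ X, (s(u, v) ∈ E ↔ u ≠ v)) {v : V} (hv : v ∈ X) :
    nb (ins E X) v = X.erase v := by
  ext u
  rw [mem_nb, mem_ins, mk_mem_sym2_iff, mem_erase]
  constructor
  · rintro ⟨h1, _, h3⟩
    exact ⟨((h v hv u h3).1 h1).symm, h3⟩
  · rintro ⟨h1, h2⟩
    exact ⟨(h v hv u h2).2 h1.symm, hv, h2⟩

lemma dg_ins {E : Finset (Sym2 V)} {X : Finset V}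
    (h : ∀ u ∈ X, ∀ v ∈ X, (s(u, v) ∈ E ↔ u ≠ v)) {v : V} (hv : v ∈ X) :
    dg (ins E X) v = X.card - 1 := by
  unfold dg
  rw [nb_ins h hv, card_erase_of_mem hv]

lemma card_ins {E : Finset (Sym2 V)} (hL : Loopless E) {X : Finset V}
    (h : ∀ u ∈ X, ∀ v ∈ X, (s(u, v) ∈ E ↔ u ≠ v)) :
    2 * (ins E X).card = X.card * (X.card - 1) := by
  have hL' : Loopless (ins E X) := hL.mono (filter_subset _ _)
  rw [← sum_dg_of_subset hL' (ins_subset E X),
    sum_congr rfl fun v hv => dg_ins h hv, sum_const, smul_eq_mul]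

/-- one of the two cliques -/
lemma dec_ins {n0 : ℕ} (hN : ∀ (V : Type) [Fintype V] [DecidableEq V] (E : Finset (Sym2 V))
      (X : Finset V),
      n0 ≤ X.card → E ⊆ X.sym2 → (∀ v ∈ X, 1 / 10 * (X.card : ℝ) ≤ (dg E v : ℝ)) →
      ((X.filter fun v => (dg E v : ℝ) < (1 - 1 / 1000) * (X.card : ℝ)).card : ℝ) ≤
        1 / 1000 * (X.card : ℝ) → Div6 E → Dec E)
    {E : Finset (Sym2 V)} (hL : Loopless E) {X : Finset V}
    (h : ∀ u ∈ X, ∀ v ∈ X, (s(u, v) ∈ E ↔ u ≠ v)) {m k : ℕ} (hX : X.card = m + 1)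
    (hm : n0 + 1000 ≤ m) (hmk : m = 2 * k) (hk : k % 6 = 0 ∨ k % 6 = 4) : Dec (ins E X) := by
  have hdg : ∀ v ∈ X, dg (ins E X) v = m := fun v hv => by rw [dg_ins h hv, hX]; omega
  apply hN V (ins E X) X (by omega) (ins_subset E X)
  · intro v hv
    rw [hdg v hv, hX]
    have : (1000 : ℝ) ≤ m := by exact_mod_cast (by omega : 1000 ≤ m)
    push_cast
    linarith
  · have : X.filter (fun v => (dg (ins E X) v : ℝ) < (1 - 1 / 1000) * (X.card : ℝ)) = ∅ := by
      rw [filter_eq_empty_iff]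
      intro v hv hlt
      rw [hdg v hv, hX] at hlt
      have : (1000 : ℝ) ≤ m := by exact_mod_cast (by omega : 1000 ≤ m)
      push_cast at hlt
      linarith
    rw [this, card_empty, Nat.cast_zero]
    positivity
  · refine ⟨hL.mono (filter_subset _ _), ?_, ?_⟩
    · intro v
      by_cases hv : v ∈ X
      · rw [hdg v hv, hmk]
        exact even_two_mul k
      · rw [dg_eq_zero_of_notMem (ins_subset E X) hv]
        exact Even.zero
    · have h1 := card_ins hL h
      rw [hX, Nat.add_sub_cancel, hmk] at h1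
      have h2 : (ins E X).card = k * (2 * k + 1) := by
        have : 2 * (ins E X).card = 2 * (k * (2 * k + 1)) := by rw [h1]; ring
        omega
      rw [h2]
      rcases hk with hk | hk
      · exact Dvd.dvd.mul_right (Nat.dvd_of_mod_eq_zero hk) _
      · obtain ⟨j, hj⟩ : ∃ j, k = 6 * j + 4 := ⟨k / 6, by omega⟩
        refine ⟨(3 * j + 2) * (4 * j + 3), ?_⟩
        rw [hj]; ring

end TwoCAux

/-- TARGET -/
theorem twoCliques_dec (hN : S_nearKsub) :
    ∃ n0 : ℕ, ∀ (V : Type) [Fintype V] [DecidableEq V] (E : Finset (Sym2 V)),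
      n0 ≤ Fintype.card V → Div6 E → TwoCliques E → Fintype.card V % 24 ≠ 5 →
      Fintype.card V % 24 ≠ 13 → Dec E := by
  obtain ⟨n0, hN⟩ := hN
  refine ⟨2 * (n0 + 1000) + 1, ?_⟩
  intro V _ _ E hn hdiv hT h5 h13
  obtain ⟨z, A, B, hzA, hzB, hAB, huniv, hcard, hE⟩ := hT
  have hV : Fintype.card V = 2 * A.card + 1 := by
    rw [← card_univ, ← huniv, card_insert_of_notMem (by
      rw [mem_union, not_or]; exact ⟨hzA, hzB⟩), card_union_of_disjoint hAB, ← hcard]
    ring
  have hL := hdiv.loopless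
  have hXc : (insert z A).card = A.card + 1 := card_insert_of_notMem hzA
  have hYc : (insert z B).card = A.card + 1 := by rw [card_insert_of_notMem hzB, hcard]
  have hX : ∀ u ∈ insert z A, ∀ v ∈ insert z A, (s(u, v) ∈ E ↔ u ≠ v) := by
    intro u hu v hv
    rw [hE]
    exact ⟨fun h => h.1, fun h => ⟨h, Or.inl ⟨hu, hv⟩⟩⟩
  have hY : ∀ u ∈ insert z B, ∀ v ∈ insert z B, (s(u, v) ∈ E ↔ u ≠ v) := by
    intro u hu v hv
    rw [hE]
    exact ⟨fun h => h.1, fun h => ⟨h, Or.inr ⟨hu, hv⟩⟩⟩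
  have hXY : ∀ u, u ∈ insert z A → u ∈ insert z B → u = z := by
    intro u h1 h2
    rw [mem_insert] at h1 h2
    rcases h1 with h1 | h1
    · exact h1
    · rcases h2 with h2 | h2
      · exact h2
      · exact absurd h2 (disjoint_left.1 hAB h1)
  have hun : E = TwoCAux.ins E (insert z A) ∪ TwoCAux.ins E (insert z B) := by
    ext e
    induction e using Sym2.ind with
    | _ u v =>
      rw [mem_union, TwoCAux.mem_ins, TwoCAux.mem_ins, mk_mem_sym2_iff, mk_mem_sym2_iff]
      constructor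
      · intro h
        rcases ((hE u v).1 h).2 with h1 | h1
        · exact Or.inl ⟨h, h1⟩
        · exact Or.inr ⟨h, h1⟩
      · rintro (h | h)
        · exact h.1
        · exact h.1
  have hdisj : Disjoint (TwoCAux.ins E (insert z A)) (TwoCAux.ins E (insert z B)) := by
    rw [disjoint_left]
    intro e
    induction e using Sym2.ind with
    | _ u v =>
      intro h1 h2
      rw [TwoCAux.mem_ins, mk_mem_sym2_iff] at h1 h2
      have hu := hXY u h1.2.1 h2.2.1
      have hv := hXY v h1.2.2 h2.2.2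
      exact hL.ne h1.1 (hu.trans hv.symm)
  -- parity
  have hApos : 0 < A.card := by omega
  obtain ⟨a, ha⟩ := card_pos.1 hApos
  have haX : a ∈ insert z A := mem_insert_of_mem ha
  have haY : a ∉ insert z B := by
    intro h
    have := hXY a haX h
    exact hzA (this ▸ ha)
  have hdga : dg E a = A.card := by
    have h1 : nb E a = (insert z A).erase a := by
      ext u
      rw [mem_nb, hE, mem_erase]
      constructor
      · rintro ⟨h1, h2 | h2⟩
        · exact ⟨h1.symm, h2.2⟩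
        · exact absurd h2.1 haY
      · rintro ⟨h1, h2⟩
        exact ⟨h1.symm, Or.inl ⟨haX, h2⟩⟩
    unfold dg
    rw [h1, card_erase_of_mem haX, hXc]
    omega
  have heven := hdiv.even a
  rw [hdga] at heven
  obtain ⟨k, hk⟩ := heven
  have hk2 : A.card = 2 * k := by omega
  have hc1 := TwoCAux.card_ins hL hX
  have hc2 := TwoCAux.card_ins hL hY
  have hcE : E.card = A.card * (A.card + 1) := by
    have h1 : E.card = (TwoCAux.ins E (insert z A)).card + (TwoCAux.ins E (insert z B)).card := by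
      conv_lhs => rw [hun]
      exact card_union_of_disjoint hdisj
    rw [hXc, Nat.add_sub_cancel] at hc1
    rw [hYc, Nat.add_sub_cancel] at hc2
    have h2 : (A.card + 1) * A.card = A.card * (A.card + 1) := mul_comm _ _
    omega
  have hk6 : k % 6 = 0 ∨ k % 6 = 4 := by
    have h6 := hdiv.six
    rw [hcE, hk2] at h6
    have hmod : (2 * k * (2 * k + 1)) % 6 = 0 := Nat.mod_eq_zero_of_dvd h6
    have hlt : k % 6 < 6 := Nat.mod_lt _ (by norm_num)
    have hkk : (2 * k * (2 * k + 1)) % 6 = (2 * (k % 6) * (2 * (k % 6) + 1)) % 6 := by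
      have : Nat.ModEq 6 (2 * k * (2 * k + 1)) (2 * (k % 6) * (2 * (k % 6) + 1)) := by
        have h1 : Nat.ModEq 6 k (k % 6) := (Nat.mod_modEq k 6).symm
        exact (h1.mul_left 2).mul ((h1.mul_left 2).add_right 1)
      exact this
    rw [hkk] at hmod
    have h5' : k % 6 ≠ 1 := by omega
    have h13' : k % 6 ≠ 3 := by omega
    have hall : k % 6 = 0 ∨ k % 6 = 1 ∨ k % 6 = 2 ∨ k % 6 = 3 ∨ k % 6 = 4 ∨ k % 6 = 5 := by
      omega
    rcases hall with h | h | h | h | h | h
    · exact Or.inl h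
    · exact absurd h h5'
    · rw [h] at hmod; norm_num at hmod
    · exact absurd h h13'
    · exact Or.inr h
    · rw [h] at hmod; norm_num at hmod
  have hm : n0 + 1000 ≤ A.card := by
    rw [hV] at hn
    linarith
  rw [hun]
  exact (TwoCAux.dec_ins hN hL hX hXc hm hk2 hk6).union
    (TwoCAux.dec_ins hN hL hY hYc hm hk2 hk6) hdisj

end Pool.Agent.H483C6
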