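import Pool.Agent.H483C6.FinalDefs
import Pool.Agent.H483C6.Basic
import Pool.Agent.H483C6.Stmts3
import Pool.Agent.H483C6.Conv1
import Pool.Agent.H483C6.Conv2
import Pool.Agent.H483C6.TwoC

/-!
# Final assembly (MP_1bffa4_co, helper483)
-/

set_option autoImplicit false

namespace Pool.Agent.H483C6

open Finset

theorem threshold_eq_fval {n : ℕ} (hn : 4 ≤ n) : threshold n = fval n := by
  unfold threshold fval
  split_ifs <;> omega

section C

variable {V : Type} [Fintype V] [DecidableEq V]

theorem dg_eq_ncard (G : SimpleGraph V) (E : Finset (Sym2 V))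
    (hE : ∀ u v, s(u, v) ∈ E ↔ G.Adj u v) (v : V) : dg E v = (G.neighborSet v).ncard := by
  unfold dg
  rw [← Set.ncard_coe_finset]
  congr 1
  ext u
  simp [hE]

theorem card_eq_ncard (G : SimpleGraph V) (E : Finset (Sym2 V))
    (hE : ∀ u v, s(u, v) ∈ E ↔ G.Adj u v) : E.card = G.edgeSet.ncard := by
  rw [← Set.ncard_coe_finset]
  congr 1
  ext e
  induction e using Sym2.ind with
  | _ x y => simp [hE]

theorem div6_iff (G : SimpleGraph V) (E : Finset (Sym2 V))
    (hE : ∀ u v, s(u, v) ∈ E ↔ G.Adj u v) : Div6 E ↔ C6Divisible G := by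
  constructor
  · intro h
    refine ⟨fun v => ?_, ?_⟩
    · rw [← dg_eq_ncard G E hE v]; exact h.even v
    · rw [← card_eq_ncard G E hE]; exact h.six
  · intro h
    refine ⟨?_, fun v => ?_, ?_⟩
    · intro e he
      induction e using Sym2.ind with
      | _ x y =>
        rw [hE] at he
        simp only [Sym2.mk_isDiag_iff]
        exact he.ne
    · rw [dg_eq_ncard G E hE v]; exact h.1 v
    · rw [card_eq_ncard G E hE]; exact h.2

end C

theorem final_of (hU : S_upper) (hL : S_lower) (hN : S_nearKsub) :
    ∃ n0 : ℕ, ∀ n : ℕ, n0 ≤ n → IsLeast {d : ℕ | d ≤ n ∧ Forces n d} (threshold n) := by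
  classical
  obtain ⟨n1, H1⟩ := hU
  obtain ⟨n2, H2⟩ := hL
  obtain ⟨n3, H3⟩ := twoCliques_dec hN
  refine ⟨max n1 (max n2 (max n3 8)), fun n hn => ?_⟩
  have k1 : n1 ≤ n := (le_max_left _ _).trans hn
  have k2 : n2 ≤ n := (le_max_left _ _).trans ((le_max_right _ _).trans hn)
  have k3 : max n3 8 ≤ n := (le_max_right _ _).trans ((le_max_right _ _).trans hn)
  have k4 : n3 ≤ n := (le_max_left _ _).trans k3
  have k5 : 8 ≤ n := (le_max_right _ _).trans k3
  have hf : threshold n = fval n := threshold_eq_fval (by omega)
  refine ⟨⟨?_, ?_⟩, ?_⟩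
  · rw [hf]; unfold fval; split_ifs <;> omega
  · intro G hG hdeg
    set E : Finset (Sym2 (Fin n)) := G.edgeSet.toFinset with hEdef
    have hE : ∀ u v, s(u, v) ∈ E ↔ G.Adj u v := by intro u v; simp [hEdef]
    have hdiv : Div6 E := (div6_iff G E hE).2 hG
    have hd : ∀ v, fval n + 1 ≤ dg E v := by
      intro v
      have h1 : fval n ≤ dg E v := by rw [dg_eq_ncard G E hE v, ← hf]; exact hdeg v
      have h2 : fval n % 2 = 1 := by unfold fval; split_ifs <;> omega
      have h3 : dg E v % 2 = 0 := Nat.even_iff.1 (hdiv.even v)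
      omega
    have hcard : Fintype.card (Fin n) = n := Fintype.card_fin n
    have hd2 : ∀ v, Fintype.card (Fin n) ≤ 2 * dg E v + 1 := by
      intro v
      have h1 := hd v
      rw [hcard]
      unfold fval at h1
      split_ifs at h1 <;> omega
    apply decomp_of_dec G E hE
    rcases H1 (Fin n) E (by rw [hcard]; exact k1) hd2 hdiv with h | h
    · exact h
    · refine H3 (Fin n) E (by rw [hcard]; exact k4) hdiv h ?_ ?_ <;> rw [hcard]
      all_goals
        obtain ⟨z, A, B, hz, hz', hAB, huniv, hcAB, hadj⟩ := h
        have hcA : 2 * A.card + 1 = n := by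
          have : (insert z (A ∪ B)).card = n := by rw [huniv, card_univ, hcard]
          rw [card_insert_of_notMem (by simp [hz, hz']), card_union_of_disjoint hAB, ← hcAB] at this
          omega
        have hA : A.Nonempty := by
          rw [← card_pos]; omega
        obtain ⟨a, ha⟩ := hA
        have hda : dg E a = A.card := by
          unfold dg
          have : nb E a = (insert z A).erase a := by
            ext u
            rw [mem_nb, hadj]
            have haB : a ∉ B := disjoint_left.1 hAB ha
            have haz : a ≠ z := fun e => hz (e ▸ ha)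
            simp only [mem_insert, mem_erase, ha, haB, haz, or_true, or_false, true_and,
              false_and]
            constructor
            · rintro ⟨h1, h2⟩; exact ⟨h1.symm, h2⟩
            · rintro ⟨h1, h2⟩; exact ⟨h1.symm, h2⟩
          rw [this, card_erase_of_mem (mem_insert_of_mem ha), card_insert_of_notMem hz]
          rfl
        have h1 := hd a
        rw [hda] at h1
        intro hmod
        unfold fval at h1
        split_ifs at h1 <;> omega
  · rintro d ⟨_, hd⟩
    by_contra hlt
    push Not at hlt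
    obtain ⟨E, hdiv, hnd, hdeg⟩ := H2 n k2
    let G : SimpleGraph (Fin n) := SimpleGraph.fromEdgeSet (E : Set (Sym2 (Fin n)))
    have hE : ∀ u v, s(u, v) ∈ E ↔ G.Adj u v := by
      intro u v
      simp only [G, SimpleGraph.fromEdgeSet_adj, mem_coe]
      constructor
      · intro h; exact ⟨h, hdiv.loopless.ne h⟩
      · intro h; exact h.1
    apply hnd
    apply dec_of_decomp G E hE
    apply hd G ((div6_iff G E hE).1 hdiv)
    intro v
    have := hdeg v
    rw [← dg_eq_ncard G E hE v]
    omega

end Pool.Agent.H483C6
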