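import Pool.Agent.H483C6.Paths
import Pool.Agent.H483C6.Stmts3

/-!
# Section 15.3, part a: counting and path lemmas (MP_1bffa4_co, helper388)
-/

set_option autoImplicit false
set_option linter.unusedSectionVars false

namespace Pool.Agent.H483C6

open Finset

namespace II3

section A

variable {V : Type} [Fintype V] [DecidableEq V]

/-- number of ordered pairs of vertices of `X` which are not edges -/
def miss (E : Finset (Sym2 V)) (X : Finset V) : ℕ :=
  ((X ×ˢ X).filter fun p => s(p.1, p.2) ∉ E).card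

theorem miss_mono (E : Finset (Sym2 V)) {X Y : Finset V} (h : X ⊆ Y) : miss E X ≤ miss E Y :=
  card_le_card (filter_subset_filter _ (product_subset_product h h))

theorem cnt3_ge (E : Finset (Sym2 V)) (S : Finset V) (u v : V) :
    (nb E u ∩ S).card * (nb E v ∩ S).card ≤ cnt3 E S u v + miss E S := by
  unfold cnt3 miss
  rw [← card_product]
  refine le_trans (card_le_card ?_) (card_union_le _ _)
  rintro ⟨a, b⟩ h
  simp only [mem_product, mem_inter, mem_nb] at h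
  obtain ⟨⟨h1, h2⟩, h3, h4⟩ := h
  simp only [mem_union, mem_filter, mem_product]
  rw [Sym2.eq_swap] at h3
  by_cases h5 : s(a, b) ∈ E
  · exact Or.inl ⟨⟨h2, h4⟩, h1, h5, h3⟩
  · exact Or.inr ⟨⟨h2, h4⟩, h5⟩

theorem cnt4_ge (E : Finset (Sym2 V)) (S : Finset V) (u v : V) :
    (nb E u ∩ S).card * (S.card * (nb E v ∩ S).card) ≤
      cnt4 E S u v + 2 * (miss E S * S.card) := by
  unfold cnt4 miss
  set P := (S ×ˢ S).filter fun p => s(p.1, p.2) ∉ E with hP
  rw [← card_product, ← card_product]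
  have h1 : (nb E u ∩ S) ×ˢ (S ×ˢ (nb E v ∩ S)) ⊆
      ((S ×ˢ S ×ˢ S).filter fun t => s(u, t.1) ∈ E ∧ s(t.1, t.2.1) ∈ E ∧
        s(t.2.1, t.2.2) ∈ E ∧ s(t.2.2, v) ∈ E) ∪
      (((P ×ˢ S).image fun t => (t.1.1, t.1.2, t.2)) ∪ (S ×ˢ P)) := by
    rintro ⟨a, b, c⟩ h
    simp only [mem_product, mem_inter, mem_nb] at h
    obtain ⟨⟨h1, h2⟩, h3, h4, h5⟩ := h
    simp only [mem_union, mem_filter, mem_product, mem_image, hP]
    rw [Sym2.eq_swap] at h4
    by_cases h6 : s(a, b) ∈ E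
    · by_cases h7 : s(b, c) ∈ E
      · exact Or.inl ⟨⟨h2, h3, h5⟩, h1, h6, h7, h4⟩
      · exact Or.inr (Or.inr ⟨h2, ⟨h3, h5⟩, h7⟩)
    · exact Or.inr (Or.inl ⟨((a, b), c), ⟨⟨⟨h2, h3⟩, h6⟩, h5⟩, rfl⟩)
  have h2 := card_le_card h1
  have h3 := card_union_le ((S ×ˢ S ×ˢ S).filter fun t => s(u, t.1) ∈ E ∧ s(t.1, t.2.1) ∈ E ∧
        s(t.2.1, t.2.2) ∈ E ∧ s(t.2.2, v) ∈ E)
      (((P ×ˢ S).image fun t => (t.1.1, t.1.2, t.2)) ∪ (S ×ˢ P))
  have h4 := card_union_le ((P ×ˢ S).image fun t => (t.1.1, t.1.2, t.2)) (S ×ˢ P)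
  have h5 : ((P ×ˢ S).image fun t => (t.1.1, t.1.2, t.2)).card ≤ P.card * S.card := by
    rw [← card_product]; exact card_image_le
  rw [card_product S P] at h4
  have h6 : S.card * P.card = P.card * S.card := mul_comm _ _
  omega

/-- the side of a vertex -/
def sd (A : Finset V) (v : V) : Finset V := if v ∈ A then A else Aᶜ

theorem mem_sd {A : Finset V} {u v : V} : u ∈ sd A v ↔ (u ∈ A ↔ v ∈ A) := by
  unfold sd
  split_ifs with h
  · simp [h]
  · simp [h]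

theorem mem_sd_self {A : Finset V} {v : V} : v ∈ sd A v := by
  rw [mem_sd]

theorem sd_eq {A : Finset V} {u v : V} (h : u ∈ sd A v) : sd A u = sd A v := by
  ext x
  rw [mem_sd] at h
  rw [mem_sd, mem_sd, h]

theorem mem_cross {E : Finset (Sym2 V)} {A : Finset V} {u v : V} :
    s(u, v) ∈ cross E A ↔ s(u, v) ∈ E ∧ v ∉ sd A u := by
  unfold cross
  rw [mem_filter, mk_mem_sym2_iff, mk_mem_sym2_iff, mem_sd, mem_compl, mem_compl]
  tauto

theorem mem_own {E : Finset (Sym2 V)} {A : Finset V} {u v : V} :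
    s(u, v) ∈ E \ cross E A ↔ s(u, v) ∈ E ∧ v ∈ sd A u := by
  rw [mem_sdiff, mem_cross]
  tauto

theorem nb_own {E : Finset (Sym2 V)} {A : Finset V} (v : V) :
    nb (E \ cross E A) v = nb E v ∩ sd A v := by
  ext u
  rw [mem_nb, mem_own, mem_inter, mem_nb]

theorem nb_cross {E : Finset (Sym2 V)} {A : Finset V} (v : V) :
    nb (cross E A) v = nb E v \ sd A v := by
  ext u
  rw [mem_nb, mem_cross, mem_sdiff, mem_nb]

theorem cross_subset (E : Finset (Sym2 V)) (A : Finset V) : cross E A ⊆ E := filter_subset _ _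

theorem dg_own_add {E : Finset (Sym2 V)} {A : Finset V} (v : V) :
    dg (E \ cross E A) v + dg (cross E A) v = dg E v :=
  dg_sdiff_add (cross_subset E A) v

theorem dg_le_card_edges (F : Finset (Sym2 V)) (v : V) : dg F v ≤ F.card := by
  unfold dg
  refine card_le_card_of_injOn (fun u => s(v, u)) ?_ ?_
  · intro u hu
    exact mem_nb.1 hu
  · intro u _ u' _ h
    rcases Sym2.eq_iff.1 h with ⟨_, h⟩ | ⟨h1, h2⟩
    · exact h
    · exact h2.trans h1

/-- all but `|X| - deg` pairs at `x` -/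
theorem miss_le (E : Finset (Sym2 V)) (X : Finset V) :
    miss E X + ∑ x ∈ X, (nb E x ∩ X).card = X.card * X.card := by
  unfold miss
  have h1 := card_filter_add_card_filter_not (s := X ×ˢ X) (fun p : V × V => s(p.1, p.2) ∈ E)
  rw [card_product] at h1
  have h2 : ((X ×ˢ X).filter fun p => s(p.1, p.2) ∈ E).card = ∑ x ∈ X, (nb E x ∩ X).card := by
    rw [card_filter, sum_product]
    refine sum_congr rfl fun x _ => ?_
    rw [← card_filter]
    congr 1
    ext y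
    simp only [mem_filter, mem_inter, mem_nb]
    tauto
  rw [h2] at h1
  omega

theorem miss_bound {E : Finset (Sym2 V)} {A : Finset V} {ε : ℝ} (hε : 0 < ε) (hε1 : ε ≤ 1)
    (hL : Loopless E) (hdeg : ∀ v, Fintype.card V ≤ 2 * dg E v + 1)
    (hcr : ((cross E A).card : ℝ) ≤ ε * (Fintype.card V : ℝ) ^ 2)
    (hn : 1 ≤ ε * (Fintype.card V : ℝ)) (X : Finset V) (hX : ∀ x ∈ X, sd A x = X)
    (hXc : (X.card : ℝ) ≤ (1 / 2 + ε) * (Fintype.card V : ℝ)) :
    (miss E X : ℝ) ≤ 5 * ε * (Fintype.card V : ℝ) ^ 2 := by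
  set n : ℝ := (Fintype.card V : ℝ) with hnn
  have hn0 : 0 ≤ n := Nat.cast_nonneg _
  have h1 := miss_le E X
  have h2 : ∀ x ∈ X, (X.card : ℝ) - (dg (cross E A) x : ℝ) - 2 * ε * n ≤
      ((nb E x ∩ X).card : ℝ) := by
    intro x hx
    have a1 : (nb E x ∩ X).card = dg (E \ cross E A) x := by
      unfold dg
      rw [nb_own, hX x hx]
    have a2 := dg_own_add (E := E) (A := A) x
    have a3 := hdeg x
    have a4 : n ≤ 2 * ((dg (E \ cross E A) x : ℝ) + (dg (cross E A) x : ℝ)) + 1 := by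
      rw [hnn]; exact_mod_cast (by omega)
    rw [a1]
    linarith
  have h3 : ∑ x ∈ X, (dg (cross E A) x : ℝ) ≤ 2 * (ε * n ^ 2) := by
    have b1 := sum_dg_le (hL.mono (cross_subset E A)) X
    have b2 : (∑ x ∈ X, (dg (cross E A) x : ℝ)) ≤ 2 * ((cross E A).card : ℝ) := by
      exact_mod_cast b1
    linarith
  have h4 := sum_le_sum h2
  rw [sum_sub_distrib, sum_sub_distrib, sum_const, sum_const, nsmul_eq_mul, nsmul_eq_mul] at h4
  have h5 : (miss E X : ℝ) + ∑ x ∈ X, ((nb E x ∩ X).card : ℝ) = (X.card : ℝ) * (X.card : ℝ) := by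
    exact_mod_cast h1
  have h6 : (X.card : ℝ) ≤ 3 / 2 * n := by
    refine hXc.trans ?_
    have := mul_le_mul_of_nonneg_right hε1 hn0
    linarith
  have h7 : (X.card : ℝ) * (2 * ε * n) ≤ 3 / 2 * n * (2 * ε * n) :=
    mul_le_mul_of_nonneg_right h6 (by positivity)
  nlinarith

/-- few vertices have many crossing edges -/
theorem bad_bound {E : Finset (Sym2 V)} {A : Finset V} {ε η : ℝ}
    (hL : Loopless E) (hn : 0 < (Fintype.card V : ℝ))
    (hcr : ((cross E A).card : ℝ) ≤ ε * (Fintype.card V : ℝ) ^ 2) :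
    η * ((univ.filter fun v => η * (Fintype.card V : ℝ) < (dg (cross E A) v : ℝ)).card : ℝ) ≤
      2 * ε * (Fintype.card V : ℝ) := by
  set n : ℝ := (Fintype.card V : ℝ) with hnn
  set S := univ.filter fun v => η * n < (dg (cross E A) v : ℝ) with hS
  have h1 := sum_dg_le (hL.mono (cross_subset E A)) S
  have h2 : (∑ x ∈ S, (dg (cross E A) x : ℝ)) ≤ 2 * ((cross E A).card : ℝ) := by
    exact_mod_cast h1
  have h3 : ∑ x ∈ S, η * n ≤ ∑ x ∈ S, (dg (cross E A) x : ℝ) :=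
    sum_le_sum fun x hx => by
      rw [hS, mem_filter] at hx
      exact hx.2.le
  rw [sum_const, nsmul_eq_mul] at h3
  have h4 : (η * (S.card : ℝ)) * n ≤ (2 * ε * n) * n := by nlinarith
  exact le_of_mul_le_mul_right h4 hn

/-- vertices with many crossing edges -/
noncomputable def Bad (E : Finset (Sym2 V)) (A : Finset V) : Finset V :=
  univ.filter fun v => 1 / 10 ^ 5 * (Fintype.card V : ℝ) < (dg (cross E A) v : ℝ)

/-- the numerical facts that are used -/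
structure Ctx (E : Finset (Sym2 V)) (A : Finset V) : Prop where
  loop : Loopless E
  even : ∀ v, Even (dg E v)
  big : (10 : ℝ) ^ 30 ≤ (Fintype.card V : ℝ)
  deg : ∀ v, Fintype.card V ≤ 2 * dg E v + 1
  own : ∀ v, 1 / 5 * (Fintype.card V : ℝ) ≤ (dg (E \ cross E A) v : ℝ)
  missb : ∀ v, (miss E (sd A v) : ℝ) ≤ 1 / 10 ^ 18 * (Fintype.card V : ℝ) ^ 2
  bad : ((Bad E A).card : ℝ) ≤ 1 / 10 ^ 14 * (Fintype.card V : ℝ)
  lo : ∀ v, 49 / 100 * (Fintype.card V : ℝ) ≤ ((sd A v).card : ℝ)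
  hi : ∀ v, ((sd A v).card : ℝ) ≤ 51 / 100 * (Fintype.card V : ℝ)
  gen : ∀ v, v ∉ Bad E A →
    ((sd A v).card : ℝ) - 2 / 10 ^ 5 * (Fintype.card V : ℝ) ≤ (dg (E \ cross E A) v : ℝ)
  crs : ((cross E A).card : ℝ) ≤ 1 / 10 ^ 20 * (Fintype.card V : ℝ) ^ 2

theorem ctx_of_setII {E : Finset (Sym2 V)} {A : Finset V} (h : SetII E A (1 / 10 ^ 20))
    (hn : 10 ^ 30 ≤ Fintype.card V) : Ctx E A := by
  have hn' : (10 : ℝ) ^ 30 ≤ (Fintype.card V : ℝ) := by exact_mod_cast hn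
  obtain ⟨hdiv, hdeg, hle, hlow, hfew, hown, hown'⟩ := h
  set n : ℝ := (Fintype.card V : ℝ) with hnn
  have hn0 : 0 < n := by linarith
  have hc1 : (A.card : ℝ) + (Aᶜ.card : ℝ) = n := by
    have := card_add_card_compl A
    rw [hnn]; exact_mod_cast this
  have hle' : (A.card : ℝ) ≤ (Aᶜ.card : ℝ) := by exact_mod_cast hle
  have hlo : ∀ v, 49 / 100 * n ≤ ((sd A v).card : ℝ) := by
    intro v
    unfold sd
    split_ifs <;> linarith
  have hhi' : ∀ v, ((sd A v).card : ℝ) ≤ (1 / 2 + 1 / 10 ^ 20) * n := by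
    intro v
    unfold sd
    split_ifs <;> linarith
  have hm : ∀ v, (miss E (sd A v) : ℝ) ≤ 5 * (1 / 10 ^ 20) * n ^ 2 := by
    intro v
    refine miss_bound (by positivity) (by norm_num) hdiv.loopless hdeg hfew ?_ _ ?_ (hhi' v)
    · rw [← hnn]
      linarith
    · intro x hx
      exact sd_eq hx
  have hb := bad_bound (η := 1 / 10 ^ 5) hdiv.loopless hn0 hfew
  refine ⟨hdiv.loopless, hdiv.even, hn', hdeg, hown, ?_, ?_, hlo, ?_, ?_, hfew⟩
  · intro v
    refine (hm v).trans ?_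
    have : 0 ≤ n ^ 2 := by positivity
    linarith
  · unfold Bad
    rw [← hnn] at hb ⊢
    linarith
  · intro v
    refine (hhi' v).trans ?_
    linarith
  · intro v hv
    have h1 : (dg (cross E A) v : ℝ) ≤ 1 / 10 ^ 5 * n := by
      unfold Bad at hv
      rw [mem_filter] at hv
      push Not at hv
      exact hv (mem_univ _)
    have h2 := dg_own_add (E := E) (A := A) v
    have h3 := hdeg v
    have h4 : n ≤ 2 * ((dg (E \ cross E A) v : ℝ) + (dg (cross E A) v : ℝ)) + 1 := by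
      rw [hnn]; exact_mod_cast (by omega)
    have h5 := hhi' v
    linarith

variable {E : Finset (Sym2 V)} {A : Finset V}

theorem Ctx.nbc (h : Ctx E A) {u v : V} (huv : v ∈ sd A u) :
    1 / 5 * (Fintype.card V : ℝ) ≤ ((nb E v ∩ sd A u).card : ℝ) := by
  have := h.own v
  unfold dg at this
  rwa [nb_own, sd_eq huv] at this

/-- 3-paths inside a side -/
theorem Ctx.path3 (h : Ctx E A) {u v : V} (huv : v ∈ sd A u) {F : Finset (Sym2 V)}
    {O : Finset V} {d : ℕ} (hF : ∀ x, dg F x ≤ d) (hO : O.card + 2 ≤ d)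
    (hd : 1000 * d ≤ Fintype.card V) (hne : u ≠ v) :
    ∃ x y, [u, x, y, v].Nodup ∧ x ∉ O ∧ y ∉ O ∧ x ∈ sd A u ∧ y ∈ sd A u ∧ s(u, x) ∈ E \ F ∧
      s(x, y) ∈ E \ F ∧ s(y, v) ∈ E \ F := by
  have h1 := cnt3_ge E (sd A u) u v
  have h2 := h.nbc (mem_sd_self (A := A) (v := u))
  have h3 := h.nbc huv
  have h4 := h.missb u
  have h5 := h.hi u
  have h6 := h.big
  have hd' : 1000 * (d : ℝ) ≤ (Fintype.card V : ℝ) := by exact_mod_cast hd
  have h1' : ((nb E u ∩ sd A u).card : ℝ) * ((nb E v ∩ sd A u).card : ℝ) ≤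
      (cnt3 E (sd A u) u v : ℝ) + (miss E (sd A u) : ℝ) := by exact_mod_cast h1
  set n : ℝ := (Fintype.card V : ℝ) with hnn
  have hn0 : 0 < n := by linarith
  have h7 : (1 / 5 * n) * (1 / 5 * n) ≤
      ((nb E u ∩ sd A u).card : ℝ) * ((nb E v ∩ sd A u).card : ℝ) :=
    mul_le_mul h2 h3 (by positivity) (by positivity)
  have h8 : (d : ℝ) * ((sd A u).card : ℝ) ≤ (1 / 1000 * n) * (51 / 100 * n) :=
    mul_le_mul (by linarith) h5 (by positivity) (by positivity)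
  have h9 : (5 * d * (sd A u).card : ℝ) < (cnt3 E (sd A u) u v : ℝ) := by nlinarith
  have h9' : 5 * d * (sd A u).card < cnt3 E (sd A u) u v := by exact_mod_cast h9
  have hO' : (O ∪ {u, v}).card ≤ d := by
    refine (card_union_le _ _).trans (le_trans ?_ hO)
    exact Nat.add_le_add_left (card_le_two) _
  obtain ⟨a, b, c1, c2, c3, c4, c5, c6, c7, c8, c9, c10⟩ :=
    Pool.Agent.H483C6.path3 E F (sd A u) (O ∪ {u, v}) u v d hF hO' h9'
  simp only [mem_union, mem_insert, mem_singleton, not_or] at c2 c4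
  have e1 := h.loop.ne c5
  have e2 := h.loop.ne c7
  have e3 := h.loop.ne c9
  refine ⟨a, b, ?_, c2.1, c4.1, c1, c3, mem_sdiff.2 ⟨c5, c6⟩, mem_sdiff.2 ⟨c7, c8⟩,
    mem_sdiff.2 ⟨c9, c10⟩⟩
  simp only [List.nodup_cons, List.mem_cons, List.not_mem_nil, or_false, not_or, not_false_iff,
    List.nodup_nil, and_true]
  exact ⟨⟨e1, Ne.symm c4.2.1, hne⟩, ⟨e2, c2.2.2⟩, e3⟩

/-- 4-paths inside a side -/
theorem Ctx.path4 (h : Ctx E A) {u v : V} (huv : v ∈ sd A u) {F : Finset (Sym2 V)}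
    {O : Finset V} {d : ℕ} (hF : ∀ x, dg F x ≤ d) (hO : O.card + 2 ≤ d)
    (hd : 1000 * d ≤ Fintype.card V) (hne : u ≠ v) :
    ∃ x y z, [u, x, y, z, v].Nodup ∧ x ∉ O ∧ y ∉ O ∧ z ∉ O ∧ x ∈ sd A u ∧ y ∈ sd A u ∧
      z ∈ sd A u ∧ s(u, x) ∈ E \ F ∧ s(x, y) ∈ E \ F ∧ s(y, z) ∈ E \ F ∧ s(z, v) ∈ E \ F := by
  have h1 := cnt4_ge E (sd A u) u v
  have h2 := h.nbc (mem_sd_self (A := A) (v := u))
  have h3 := h.nbc huv
  have h4 := h.missb u
  have h5 := h.hi u
  have h5' := h.lo u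
  have h6 := h.big
  have hd' : 1000 * (d : ℝ) ≤ (Fintype.card V : ℝ) := by exact_mod_cast hd
  have h1' : ((nb E u ∩ sd A u).card : ℝ) * (((sd A u).card : ℝ) * ((nb E v ∩ sd A u).card : ℝ)) ≤
      (cnt4 E (sd A u) u v : ℝ) + 2 * ((miss E (sd A u) : ℝ) * ((sd A u).card : ℝ)) := by
    exact_mod_cast h1
  set n : ℝ := (Fintype.card V : ℝ) with hnn
  set S : ℝ := ((sd A u).card : ℝ) with hS
  have hn0 : 0 < n := by linarith
  have hS0 : 0 < S := by linarith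
  have h7 : (1 / 5 * n) * (S * (1 / 5 * n)) ≤
      ((nb E u ∩ sd A u).card : ℝ) * (S * ((nb E v ∩ sd A u).card : ℝ)) :=
    mul_le_mul h2 (mul_le_mul_of_nonneg_left h3 hS0.le) (by positivity) (by positivity)
  have h8 : (d : ℝ) * S ≤ (1 / 1000 * n) * (51 / 100 * n) :=
    mul_le_mul (by linarith) h5 (by positivity) (by positivity)
  have h10 : (miss E (sd A u) : ℝ) * S ≤ 1 / 10 ^ 18 * n ^ 2 * S :=
    mul_le_mul_of_nonneg_right h4 hS0.le
  have h9 : (7 * d * S ^ 2 + S ^ 2 : ℝ) < (cnt4 E (sd A u) u v : ℝ) := by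
    have i1 : (7 * d * S ^ 2 + S ^ 2 : ℝ) = (7 * (d * S) + S) * S := by ring
    have i2 : (1 / 5 * n) * (S * (1 / 5 * n)) - 2 * (1 / 10 ^ 18 * n ^ 2 * S) =
      (1 / 25 - 2 / 10 ^ 18) * n ^ 2 * S := by ring
    have i3 : (7 * (d * S) + S) * S < ((1 / 25 - 2 / 10 ^ 18) * n ^ 2) * S := by
      apply mul_lt_mul_of_pos_right _ hS0
      nlinarith
    linarith
  have h9' : 7 * d * (sd A u).card ^ 2 + (sd A u).card ^ 2 < cnt4 E (sd A u) u v := by
    rw [hS] at h9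
    exact_mod_cast h9
  have hO' : (O ∪ {u, v}).card ≤ d := by
    refine (card_union_le _ _).trans (le_trans ?_ hO)
    exact Nat.add_le_add_left (card_le_two) _
  obtain ⟨a, b, c, c0, c1, c2, c3, c4, c1', c2', c5, c6, c7, c8, c9, c10, c11, c12⟩ :=
    Pool.Agent.H483C6.path4' E F (sd A u) (O ∪ {u, v}) u v d hF hO' h9'
  simp only [mem_union, mem_insert, mem_singleton, not_or] at c2 c4 c2'
  have e1 := h.loop.ne c5
  have e2 := h.loop.ne c7
  have e3 := h.loop.ne c9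
  have e4 := h.loop.ne c11
  refine ⟨a, b, c, ?_, c2.1, c4.1, c2'.1, c1, c3, c1', mem_sdiff.2 ⟨c5, c6⟩,
    mem_sdiff.2 ⟨c7, c8⟩, mem_sdiff.2 ⟨c9, c10⟩, mem_sdiff.2 ⟨c11, c12⟩⟩
  simp only [List.nodup_cons, List.mem_cons, List.not_mem_nil, or_false, not_or, not_false_iff,
    List.nodup_nil, and_true]
  exact ⟨⟨e1, Ne.symm c4.2.1, Ne.symm c2'.2.1, hne⟩, ⟨e2, c0, c2.2.2⟩, ⟨e3, c4.2.2⟩, e4⟩

/-- 2-paths inside a side, if there are enough common neighbours -/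
theorem Ctx.path2 (h : Ctx E A) {u v : V} (hcod : 1 / 50 * (Fintype.card V : ℝ) ≤
      ((nb E u ∩ nb E v ∩ sd A u).card : ℝ)) {F : Finset (Sym2 V)}
    {O : Finset V} {d : ℕ} (hF : ∀ x, dg F x ≤ d) (hO : O.card + 2 ≤ d)
    (hd : 1000 * d ≤ Fintype.card V) :
    ∃ x, x ≠ u ∧ x ≠ v ∧ x ∉ O ∧ x ∈ sd A u ∧ s(u, x) ∈ E \ F ∧ s(x, v) ∈ E \ F := by
  have hd' : 1000 * (d : ℝ) ≤ (Fintype.card V : ℝ) := by exact_mod_cast hd
  have h6 := h.big
  have hlt : (O ∪ nb F u ∪ nb F v).card < (nb E u ∩ nb E v ∩ sd A u).card := by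
    have h1 : (O ∪ nb F u ∪ nb F v).card ≤ O.card + dg F u + dg F v :=
      (card_union_le _ _).trans (Nat.add_le_add_right (card_union_le _ _) _)
    have h2 := hF u
    have h3 := hF v
    have h4 : (O ∪ nb F u ∪ nb F v).card ≤ 3 * d := by omega
    have h5 : ((O ∪ nb F u ∪ nb F v).card : ℝ) ≤ 3 * d := by exact_mod_cast h4
    have h7 : ((O ∪ nb F u ∪ nb F v).card : ℝ) < ((nb E u ∩ nb E v ∩ sd A u).card : ℝ) := by
      linarith
    exact_mod_cast h7
  obtain ⟨x, hx, hx'⟩ := exists_mem_notMem_of_card_lt_card hlt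
  simp only [mem_inter, mem_nb] at hx
  simp only [mem_union, mem_nb, not_or] at hx'
  obtain ⟨⟨a1, a2⟩, a3⟩ := hx
  obtain ⟨⟨b1, b2⟩, b3⟩ := hx'
  rw [Sym2.eq_swap (a := v)] at a2 b3
  exact ⟨x, (h.loop.ne a1).symm, h.loop.ne a2, b1, a3, mem_sdiff.2 ⟨a1, b2⟩,
    mem_sdiff.2 ⟨a2, b3⟩⟩

/-- codegrees at generic vertices -/
theorem Ctx.cod (h : Ctx E A) {u v : V} (huv : v ∈ sd A u) (hg : u ∉ Bad E A ∨ v ∉ Bad E A) :
    1 / 50 * (Fintype.card V : ℝ) ≤ ((nb E u ∩ nb E v ∩ sd A u).card : ℝ) := by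
  have h6 := h.big
  have key : ∀ {u v : V}, v ∈ sd A u → u ∉ Bad E A → 1 / 50 * (Fintype.card V : ℝ) ≤
      ((nb E u ∩ nb E v ∩ sd A u).card : ℝ) := by
    intro u v huv hu
    have h1 := h.gen u hu
    unfold dg at h1
    rw [nb_own] at h1
    have h2 := h.nbc huv
    have h3 := card_union_add_card_inter (nb E u ∩ sd A u) (nb E v ∩ sd A u)
    have h4 : (nb E u ∩ sd A u ∪ nb E v ∩ sd A u).card ≤ (sd A u).card :=
      card_le_card (union_subset inter_subset_right inter_subset_right)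
    have h5 : (nb E u ∩ sd A u) ∩ (nb E v ∩ sd A u) = nb E u ∩ nb E v ∩ sd A u := by
      ext x; simp only [mem_inter]; tauto
    rw [h5] at h3
    have h7 : ((nb E u ∩ sd A u).card : ℝ) + ((nb E v ∩ sd A u).card : ℝ) ≤
        ((sd A u).card : ℝ) + ((nb E u ∩ nb E v ∩ sd A u).card : ℝ) := by
      exact_mod_cast (by omega)
    linarith
  rcases hg with hg | hg
  · exact key huv hg
  · have hvu : u ∈ sd A v := by rw [mem_sd] at huv ⊢; exact huv.symm
    have := key hvu hg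
    rwa [sd_eq huv, inter_comm (nb E v)] at this

end A

end II3

end Pool.Agent.H483C6
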