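import Pool.Agent.H483C6.II3a

/-!
# Section 15.3, part b: pairs of bad vertices (MP_1bffa4_co, helper388)
-/

set_option autoImplicit false
set_option linter.unusedSectionVars false

namespace Pool.Agent.H483C6

open Finset

namespace II3

section B

variable {V : Type} [Fintype V] [DecidableEq V] {E : Finset (Sym2 V)} {A : Finset V}

theorem sd_compl {A : Finset V} {u v : V} (h : u ∉ sd A v) : sd A u = (sd A v)ᶜ := by
  ext x
  rw [mem_sd] at h
  rw [mem_compl, mem_sd, mem_sd]
  tauto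

theorem sd_symm {A : Finset V} {u v : V} (h : u ∈ sd A v) : v ∈ sd A u := by
  rw [mem_sd] at *
  exact h.symm

theorem Ctx.badnb (h : Ctx E A) {v v' : V} (hv' : v' ∈ Bad E A) (hs : v' ∈ sd A v) :
    9 / 10 ^ 6 * (Fintype.card V : ℝ) ≤
      ((nb E v' ∩ ((sd A v)ᶜ \ Bad E A)).card : ℝ) := by
  have h1 : 1 / 10 ^ 5 * (Fintype.card V : ℝ) < (dg (cross E A) v' : ℝ) := by
    unfold Bad at hv'
    rw [mem_filter] at hv'
    exact hv'.2
  have h2 : nb (cross E A) v' ⊆ (nb E v' ∩ ((sd A v)ᶜ \ Bad E A)) ∪ Bad E A := by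
    rw [nb_cross, sd_eq hs]
    intro x hx
    rw [mem_sdiff] at hx
    simp only [mem_union, mem_inter, mem_sdiff, mem_compl]
    tauto
  have h3 := (card_le_card h2).trans (card_union_le _ _)
  have h4 : (dg (cross E A) v' : ℝ) ≤
      ((nb E v' ∩ ((sd A v)ᶜ \ Bad E A)).card : ℝ) + ((Bad E A).card : ℝ) := by
    unfold dg
    exact_mod_cast h3
  have h5 := h.bad
  have h6 := h.big
  linarith

/-- hexagons through two bad vertices of the same side -/
theorem Ctx.hexbad (h : Ctx E A) {v v' : V} (hv : v ∈ Bad E A) (hv' : v' ∈ Bad E A)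
    (hs : v' ∈ sd A v) (hne : v ≠ v') {F : Finset (Sym2 V)} {O : Finset V} {d : ℕ}
    (hF : ∀ x, dg F x ≤ d) (hO : O.card + 2 ≤ d) (hd : 10 ^ 12 * d ≤ Fintype.card V) :
    ∃ b b' x y, [v, b, b', v', y, x].Nodup ∧ b ∉ Bad E A ∧ b' ∉ Bad E A ∧ b ∉ sd A v ∧
      b' ∉ sd A v ∧ x ∈ sd A v ∧ y ∈ sd A v ∧ b ∉ O ∧ b' ∉ O ∧ x ∉ O ∧ y ∉ O ∧
      hex v b b' v' y x ⊆ E \ F := by
  have hnb := h.badnb hv (mem_sd_self (A := A) (v := v))
  have hnb' := h.badnb hv' hs
  set S := (sd A v)ᶜ \ Bad E A with hSdef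
  have h6 := h.big
  have h1 := cnt3_ge E S v v'
  have hex : ∃ b0, b0 ∉ sd A v := by
    have : 0 < (nb E v ∩ S).card := by
      have : (0 : ℝ) < ((nb E v ∩ S).card : ℝ) := by
        refine lt_of_lt_of_le ?_ hnb
        linarith
      exact_mod_cast this
    obtain ⟨b0, hb0⟩ := card_pos.1 this
    refine ⟨b0, ?_⟩
    rw [mem_inter, hSdef, mem_sdiff, mem_compl] at hb0
    exact hb0.2.1
  obtain ⟨b0, hb0⟩ := hex
  have h4 := h.missb b0
  have h5 := h.hi b0
  rw [sd_compl hb0] at h4 h5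
  have h4' : (miss E S : ℝ) ≤ (miss E (sd A v)ᶜ : ℝ) := by
    exact_mod_cast miss_mono E sdiff_subset
  have h5' : (S.card : ℝ) ≤ (((sd A v)ᶜ).card : ℝ) := by
    exact_mod_cast card_le_card sdiff_subset
  have hd' : 10 ^ 12 * (d : ℝ) ≤ (Fintype.card V : ℝ) := by exact_mod_cast hd
  have h1' : ((nb E v ∩ S).card : ℝ) * ((nb E v' ∩ S).card : ℝ) ≤
      (cnt3 E S v v' : ℝ) + (miss E S : ℝ) := by exact_mod_cast h1
  set n : ℝ := (Fintype.card V : ℝ) with hnn
  have hn0 : 0 < n := by linarith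
  have h7 : (9 / 10 ^ 6 * n) * (9 / 10 ^ 6 * n) ≤
      ((nb E v ∩ S).card : ℝ) * ((nb E v' ∩ S).card : ℝ) :=
    mul_le_mul hnb hnb' (by positivity) (by positivity)
  have h8 : (d : ℝ) * (S.card : ℝ) ≤ (1 / 10 ^ 12 * n) * (51 / 100 * n) :=
    mul_le_mul (by linarith) (h5'.trans h5) (by positivity) (by positivity)
  have h9 : (5 * d * S.card : ℝ) < (cnt3 E S v v' : ℝ) := by nlinarith
  have h9' : 5 * d * S.card < cnt3 E S v v' := by exact_mod_cast h9
  obtain ⟨b, b', c1, c2, c3, c4, c5, c6, c7, c8, c9, c10⟩ :=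
    Pool.Agent.H483C6.path3 E F S O v v' d hF (by omega) h9'
  obtain ⟨x, y, e1, e2, e3, e4, e5, e6, e7, e8⟩ :=
    h.path3 hs hF hO (by omega) hne
  rw [hSdef, mem_sdiff, mem_compl] at c1 c3
  have g1 := h.loop.ne c7
  simp only [List.nodup_cons, List.mem_cons, List.not_mem_nil, or_false, not_or, not_false_iff,
    List.nodup_nil, and_true] at e1
  obtain ⟨⟨i1, i2, i3⟩, ⟨i4, i5⟩, i6⟩ := e1
  have nes : ∀ {p q : V}, p ∉ sd A v → q ∈ sd A v → p ≠ q := by
    intro p q hp hq hpq
    exact hp (hpq ▸ hq)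
  refine ⟨b, b', x, y, ?_, c1.2, c3.2, c1.1, c3.1, e4, e5, c2, c4, e2, e3, ?_⟩
  · simp only [List.nodup_cons, List.mem_cons, List.not_mem_nil, or_false, not_or, not_false_iff,
      List.nodup_nil, and_true]
    exact ⟨⟨(nes c1.1 mem_sd_self).symm, (nes c3.1 mem_sd_self).symm, hne, i2, i1⟩,
      ⟨g1, nes c1.1 hs, nes c1.1 e5, nes c1.1 e4⟩, ⟨nes c3.1 hs, nes c3.1 e5, nes c3.1 e4⟩,
      ⟨Ne.symm i6, Ne.symm i5⟩, Ne.symm i4⟩
  · intro e he
    rw [mem_hex] at he
    rcases he with rfl | rfl | rfl | rfl | rfl | rfl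
    · exact mem_sdiff.2 ⟨c5, c6⟩
    · exact mem_sdiff.2 ⟨c7, c8⟩
    · exact mem_sdiff.2 ⟨c9, c10⟩
    · rw [Sym2.eq_swap]; exact e8
    · rw [Sym2.eq_swap]; exact e7
    · rw [Sym2.eq_swap]; exact e6

/-- pairing up a finite set -/
theorem pairing {α : Type} [DecidableEq α] (S : Finset α) :
    ∃ (J : Finset (α × α)) (R : Finset α), R ⊆ S ∧ R.card ≤ 1 ∧
      (∀ j ∈ J, j.1 ≠ j.2) ∧
      (∀ i ∈ J, ∀ j ∈ J, i ≠ j → Disjoint ({i.1, i.2} : Finset α) {j.1, j.2}) ∧
      J.biUnion (fun j => {j.1, j.2}) = S \ R ∧ (Even S.card → R = ∅) := by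
  induction S using Finset.strongInduction with
  | H S ih =>
    by_cases hS : S.card ≤ 1
    · refine ⟨∅, S, Subset.rfl, hS, by simp, by simp, by simp, ?_⟩
      intro he
      rw [← card_eq_zero]
      rcases he with ⟨k, hk⟩
      omega
    · push Not at hS
      obtain ⟨a, ha, b, hb, hab⟩ := one_lt_card.1 hS
      have hss : S \ {a, b} ⊂ S := by
        refine Finset.ssubset_iff_subset_ne.2 ⟨sdiff_subset, fun h => ?_⟩
        have : a ∈ S \ {a, b} := by rw [h]; exact ha
        simp at this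
      obtain ⟨J, R, h1, h2, h3, h4, h5, h6⟩ := ih _ hss
      have hsub : ({a, b} : Finset α) ⊆ S := by
        intro x hx
        simp only [mem_insert, mem_singleton] at hx
        rcases hx with rfl | rfl <;> assumption
      have hJ : ∀ j ∈ J, ({j.1, j.2} : Finset α) ⊆ S \ {a, b} := by
        intro j hj
        have : ({j.1, j.2} : Finset α) ⊆ J.biUnion (fun j => {j.1, j.2}) :=
          subset_biUnion_of_mem (fun j : α × α => ({j.1, j.2} : Finset α)) hj
        rw [h5] at this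
        exact this.trans sdiff_subset
      refine ⟨insert (a, b) J, R, h1.trans sdiff_subset, h2, ?_, ?_, ?_, ?_⟩
      · intro j hj
        rcases mem_insert.1 hj with rfl | hj
        · exact hab
        · exact h3 j hj
      · intro i hi j hj hij
        rcases mem_insert.1 hi with hi | hi <;> rcases mem_insert.1 hj with hj | hj
        · exact absurd (hi.trans hj.symm) hij
        · rw [hi]
          exact (disjoint_sdiff (s := ({a, b} : Finset α)) (t := S)).mono_right (hJ j hj)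
        · rw [hj]
          exact ((disjoint_sdiff (s := ({a, b} : Finset α)) (t := S)).mono_right (hJ i hi)).symm
        · exact h4 i hi j hj hij
      · rw [biUnion_insert, h5]
        ext x
        simp only [mem_union, mem_sdiff, mem_insert, mem_singleton]
        constructor
        · rintro (h | ⟨⟨h7, h8⟩, h9⟩)
          · refine ⟨hsub (by simpa using h), fun hR => ?_⟩
            have := h1 hR
            simp only [mem_sdiff, mem_insert, mem_singleton] at this
            exact this.2 h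
          · exact ⟨h7, h9⟩
        · rintro ⟨h7, h8⟩
          by_cases h9 : x = a ∨ x = b
          · exact Or.inl h9
          · exact Or.inr ⟨⟨h7, h9⟩, h8⟩
      · intro he
        apply h6
        rw [card_sdiff_of_subset hsub, card_pair hab]
        exact (Nat.even_sub (by omega)).2 (by simp [he])

end B

end II3

end Pool.Agent.H483C6
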