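import Pool.Agent.H483C6.II3b

/-!
# Section 15.3, part c: first phase (MP_1bffa4_co, helper388)
-/

set_option autoImplicit false
set_option linter.unusedSectionVars false

namespace Pool.Agent.H483C6

open Finset

namespace II3

section C

variable {V : Type} [Fintype V] [DecidableEq V] {E : Finset (Sym2 V)} {A : Finset V}

/-- crossing edges of `D` as pairs -/
def crp (A : Finset V) (D : Finset (Sym2 V)) : Finset (V × V) :=
  (A ×ˢ Aᶜ).filter fun p => s(p.1, p.2) ∈ D

theorem mem_crp {A : Finset V} {D : Finset (Sym2 V)} {p : V × V} :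
    p ∈ crp A D ↔ p.1 ∈ A ∧ p.2 ∉ A ∧ s(p.1, p.2) ∈ D := by
  unfold crp
  rw [mem_filter, mem_product, mem_compl]
  tauto

/-- the owner of a crossing edge -/
noncomputable def ow (E : Finset (Sym2 V)) (A : Finset V) (p : V × V) : V :=
  if p.1 ∈ Bad E A then p.1 else if p.2 ∈ Bad E A then p.2 else p.1

/-- the pair of a crossing edge -/
def mkp (A : Finset V) (u w : V) : V × V := if u ∈ A then (u, w) else (w, u)

theorem mkp_eq {A : Finset V} {u w : V} (h : w ∉ sd A u) {p : V × V} :
    (p.1 ∈ A ∧ p.2 ∉ A ∧ s(p.1, p.2) = s(u, w)) ↔ p = mkp A u w := by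
  rw [mem_sd] at h
  obtain ⟨p, q⟩ := p
  simp only [Sym2.eq_iff]
  unfold mkp
  by_cases hu : u ∈ A
  · rw [if_pos hu]
    have hw : w ∉ A := by tauto
    rw [Prod.mk.injEq]
    constructor
    · rintro ⟨h1, h2, (h3 | ⟨h3, h4⟩)⟩
      · exact h3
      · exact absurd (h3 ▸ h1) hw
    · rintro ⟨rfl, rfl⟩
      exact ⟨hu, hw, Or.inl ⟨rfl, rfl⟩⟩
  · rw [if_neg hu]
    have hw : w ∈ A := by tauto
    rw [Prod.mk.injEq]
    constructor
    · rintro ⟨h1, h2, (⟨h3, h4⟩ | h3)⟩
      · exact absurd (h3 ▸ h1) hu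
      · exact h3
    · rintro ⟨rfl, rfl⟩
      exact ⟨hw, hu, Or.inr ⟨rfl, rfl⟩⟩

theorem not_own_pair {A : Finset V} {u w : V} (h : w ∈ sd A u) {p : V × V} (h1 : p.1 ∈ A)
    (h2 : p.2 ∉ A) : s(p.1, p.2) ≠ s(u, w) := by
  rw [mem_sd] at h
  intro he
  rcases Sym2.eq_iff.1 he with ⟨h3, h4⟩ | ⟨h3, h4⟩
  · rw [h3] at h1; rw [h4] at h2; tauto
  · rw [h3] at h1; rw [h4] at h2; tauto

theorem ow_mkp {u w : V} (hu : u ∈ Bad E A) (hw : w ∉ Bad E A) : ow E A (mkp A u w) = u := by
  unfold ow mkp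
  by_cases h : u ∈ A
  · rw [if_pos h]; simp [hu]
  · rw [if_neg h]; simp [hu, hw]

theorem crp_hexbad {v b b' v' y x : V} (hs : v' ∈ sd A v) (hb : b ∉ sd A v) (hb' : b' ∉ sd A v)
    (hx : x ∈ sd A v) (hy : y ∈ sd A v) :
    crp A (hex v b b' v' y x) = {mkp A v b, mkp A v' b'} := by
  ext p
  rw [mem_crp, mem_hex, mem_insert, mem_singleton]
  have hb'v : b' ∉ sd A v' := by rw [sd_eq hs]; exact hb'
  rw [← mkp_eq hb, ← mkp_eq hb'v]
  have h1 : b' ∈ sd A b := by rw [sd_compl hb, mem_compl]; exact hb'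
  have h2 : y ∈ sd A v' := by rw [sd_eq hs]; exact hy
  have h3 : x ∈ sd A y := by rw [sd_eq hy]; exact hx
  have h4 : v ∈ sd A x := sd_symm hx
  rw [Sym2.eq_swap (a := b') (b := v')]
  constructor
  · rintro ⟨g1, g2, (g | g | g | g | g | g)⟩
    · exact Or.inl ⟨g1, g2, g⟩
    · exact absurd g (not_own_pair h1 g1 g2)
    · exact Or.inr ⟨g1, g2, g⟩
    · exact absurd g (not_own_pair h2 g1 g2)
    · exact absurd g (not_own_pair h3 g1 g2)
    · exact absurd g (not_own_pair h4 g1 g2)
  · rintro (⟨g1, g2, g⟩ | ⟨g1, g2, g⟩)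
    · exact ⟨g1, g2, Or.inl g⟩
    · exact ⟨g1, g2, Or.inr (Or.inr (Or.inl g))⟩

theorem crp_biUnion {ι : Type} [DecidableEq ι] (J : Finset ι) (T : ι → Finset (Sym2 V)) :
    crp A (J.biUnion T) = J.biUnion fun j => crp A (T j) := by
  ext p
  simp only [mem_crp, mem_biUnion]
  constructor
  · rintro ⟨h1, h2, j, hj, h3⟩
    exact ⟨j, hj, h1, h2, h3⟩
  · rintro ⟨j, hj, h1, h2, h3⟩
    exact ⟨h1, h2, j, hj, h3⟩

theorem disjoint_crp {D D' : Finset (Sym2 V)} (h : Disjoint D D') :
    Disjoint (crp A D) (crp A D') := by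
  rw [disjoint_left] at *
  intro p hp hp'
  rw [mem_crp] at *
  exact h hp.2.2 hp'.2.2

/-- First phase: hexagons through given pairs of bad vertices. -/
theorem phase1 (h : Ctx E A) (F0 : Finset (Sym2 V)) (hF0 : ∀ x, dg F0 x ≤ 20)
    (J : Finset (V × V)) (hJne : ∀ j ∈ J, j.1 ≠ j.2)
    (hJd : ∀ i ∈ J, ∀ j ∈ J, i ≠ j → Disjoint ({i.1, i.2} : Finset V) {j.1, j.2})
    (hJb : ∀ j ∈ J, j.1 ∈ Bad E A ∧ j.2 ∈ Bad E A ∧ j.2 ∈ sd A j.1) :
    ∃ D1 ⊆ E \ F0, Dec D1 ∧ (∀ v, 10 ^ 12 * dg D1 v ≤ Fintype.card V) ∧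
      Even (crp A D1).card ∧
      ∀ v, ((crp A D1).filter fun p => ow E A p = v).card =
        if v ∈ J.biUnion (fun j => {j.1, j.2}) then 1 else 0 := by
  set n := Fintype.card V with hn
  set Λ := n / 10 ^ 13 + 1 with hΛ
  have hbig : 10 ^ 30 ≤ n := by
    have := h.big
    rw [hn]; exact_mod_cast this
  set ep : V × V → V → ℕ := fun j v => if v ∈ ({j.1, j.2} : Finset V) then 2 else 0 with hep
  set cand : V × V → Finset (Sym2 V) → Finset V → Prop := fun j T I =>
    I.card ≤ 4 ∧ (∀ v, dg T v ≤ ep j v + (if v ∈ I then 2 else 0)) ∧ T ⊆ E \ F0 ∧ IsHex T ∧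
      ∃ p p', p ≠ p' ∧ ow E A p = j.1 ∧ ow E A p' = j.2 ∧ crp A T = {p, p'} with hcand
  have hep2 : ∀ v, ∑ i ∈ J, ep i v ≤ 2 := by
    intro v
    rw [hep]
    simp only
    rw [← sum_filter, sum_const, smul_eq_mul]
    have : (J.filter fun j => v ∈ ({j.1, j.2} : Finset V)).card ≤ 1 := by
      rw [card_le_one]
      intro i hi j hj
      rw [mem_filter] at hi hj
      by_contra hij
      exact disjoint_left.1 (hJd i hi.1 j hj.1 hij) hi.2 hj.2
    omega
  have hJc : 2 * J.card ≤ (Bad E A).card := by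
    have h1 : J.biUnion (fun j => ({j.1, j.2} : Finset V)) ⊆ Bad E A := by
      intro x hx
      rw [mem_biUnion] at hx
      obtain ⟨j, hj, hx⟩ := hx
      simp only [mem_insert, mem_singleton] at hx
      rcases hx with rfl | rfl
      · exact (hJb j hj).1
      · exact (hJb j hj).2.1
    have h2 : (J.biUnion (fun j => ({j.1, j.2} : Finset V))).card = ∑ j ∈ J, 2 := by
      rw [card_biUnion fun i hi j hj hij => hJd i hi j hj hij]
      exact sum_congr rfl fun j hj => card_pair (hJne j hj)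
    rw [sum_const, smul_eq_mul] at h2
    have := card_le_card h1
    omega
  have hbad : 10 ^ 14 * (Bad E A).card ≤ n := by
    have := h.bad
    have h1 : (10 : ℝ) ^ 14 * ((Bad E A).card : ℝ) ≤ (n : ℝ) := by
      rw [hn]; linarith
    exact_mod_cast h1
  obtain ⟨T, hT1, hT2, hT3⟩ := greedy V (V × V) J cand ep Λ
    (fun j _ T I hc => ⟨hc.1, hc.2.1⟩) (by
      intro j hj F O hF hO
      have hOc : O.card ≤ 1 := by
        by_contra hcon
        push Not at hcon
        have : Λ * 2 ≤ Λ * O.card := Nat.mul_le_mul_left _ hcon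
        omega
      have hF' : ∀ x, dg (F ∪ F0) x ≤ 22 + 2 * Λ := by
        intro x
        have h1 := dg_union_le F F0 x
        have h2 := hF x
        have h3 := hF0 x
        have h4 := hep2 x
        omega
      obtain ⟨hb1, hb2, hb3⟩ := hJb j hj
      obtain ⟨b, b', x, y, c1, c2, c3, c4, c5, c6, c7, c8, c9, c10, c11, c12⟩ :=
        h.hexbad hb1 hb2 hb3 (hJne j hj) hF' (O := O) (by omega) (by omega)
      refine ⟨hex j.1 b b' j.2 y x, {b, b', x, y}, ⟨?_, ?_, ?_, isHex_hex c1, ?_⟩, ?_, ?_⟩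
      · exact card_le_four
      · intro v
        by_cases hv : v ∈ ({j.1, b, b', j.2, y, x} : Finset V)
        · rw [dg_hex_of_mem c1 hv]
          rw [hep]
          simp only [mem_insert, mem_singleton] at hv ⊢
          split_ifs <;> first | omega | (exfalso; tauto)
        · rw [dg_hex_of_notMem hv]
          exact Nat.zero_le _
      · intro e he
        have := c12 he
        simp only [mem_sdiff, mem_union, not_or] at this ⊢
        exact ⟨this.1, this.2.2⟩
      · refine ⟨mkp A j.1 b, mkp A j.2 b', ?_, ow_mkp hb1 c2, ow_mkp hb2 c3,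
          crp_hexbad hb3 c4 c5 c6 c7⟩
        intro he
        have := congrArg (ow E A) he
        rw [ow_mkp hb1 c2, ow_mkp hb2 c3] at this
        exact hJne j hj this
      · rw [disjoint_left]
        intro e he heF
        have := c12 he
        simp only [mem_sdiff, mem_union, not_or] at this
        exact this.2.1 heF
      · rw [disjoint_left]
        intro z hz hzO
        simp only [mem_insert, mem_singleton] at hz
        rcases hz with rfl | rfl | rfl | rfl
        · exact c8 hzO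
        · exact c9 hzO
        · exact c10 hzO
        · exact c11 hzO)
  have hcr : ∀ j ∈ J, ∃ p p', p ≠ p' ∧ ow E A p = j.1 ∧ ow E A p' = j.2 ∧
      crp A (T j) = {p, p'} := by
    intro j hj
    obtain ⟨I, hI⟩ := hT1 j hj
    exact hI.2.2.2.2
  have hcd : ∀ i ∈ J, ∀ j ∈ J, i ≠ j → Disjoint (crp A (T i)) (crp A (T j)) :=
    fun i hi j hj hij => disjoint_crp (hT2 i hi j hj hij)
  refine ⟨J.biUnion T, ?_, ?_, ?_, ?_, ?_⟩
  · intro e he
    rw [mem_biUnion] at he
    obtain ⟨j, hj, he⟩ := he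
    obtain ⟨I, hI⟩ := hT1 j hj
    exact hI.2.2.1 he
  · refine Dec.biUnion J T (fun j hj => ?_) hT2
    obtain ⟨I, hI⟩ := hT1 j hj
    exact hI.2.2.2.1.dec
  · intro v
    have h1 := hT3 v
    have h2 := hep2 v
    omega
  · rw [crp_biUnion, card_biUnion hcd]
    have : ∑ j ∈ J, (crp A (T j)).card = ∑ j ∈ J, 2 := by
      refine sum_congr rfl fun j hj => ?_
      obtain ⟨p, p', h1, _, _, h4⟩ := hcr j hj
      rw [h4, card_pair h1]
    rw [this, sum_const, smul_eq_mul]
    exact even_two.mul_left _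
  · intro v
    rw [crp_biUnion, filter_biUnion, card_biUnion]
    · have h1 : ∀ j ∈ J, ((crp A (T j)).filter fun p => ow E A p = v).card =
          if v ∈ ({j.1, j.2} : Finset V) then 1 else 0 := by
        intro j hj
        obtain ⟨p, p', g1, g2, g3, g4⟩ := hcr j hj
        have g5 := hJne j hj
        rw [g4, filter_insert, filter_singleton, g2, g3]
        by_cases hv1 : j.1 = v
        · have hv2 : ¬ j.2 = v := fun h => g5 (hv1.trans h.symm)
          rw [if_pos hv1, if_neg hv2, if_pos (by simp [hv1])]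
          simp
        · by_cases hv2 : j.2 = v
          · rw [if_neg hv1, if_pos hv2, if_pos (by simp [hv2])]
            simp
          · rw [if_neg hv1, if_neg hv2, if_neg (by
              simp only [mem_insert, mem_singleton, not_or]
              exact ⟨Ne.symm hv1, Ne.symm hv2⟩)]
            simp
      rw [sum_congr rfl h1, ← card_filter]
      split_ifs with hv
      · rw [mem_biUnion] at hv
        obtain ⟨j, hj, hv⟩ := hv
        rw [card_eq_one]
        refine ⟨j, ?_⟩
        ext i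
        rw [mem_filter, mem_singleton]
        constructor
        · rintro ⟨hi, hvi⟩
          by_contra hij
          exact disjoint_left.1 (hJd i hi j hj hij) hvi hv
        · rintro rfl
          exact ⟨hj, hv⟩
      · rw [card_eq_zero, filter_eq_empty_iff]
        intro j hj hvj
        exact hv (mem_biUnion.2 ⟨j, hj, hvj⟩)
    · intro i hi j hj hij
      exact (hcd i hi j hj hij).mono (filter_subset _ _) (filter_subset _ _)

end C

end II3

end Pool.Agent.H483C6
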