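import Pool.Agent.H483C6.II3c

/-!
# Section 15.3, part d: pairing the crossing edges (MP_1bffa4_co, helper388)
-/

set_option autoImplicit false
set_option linter.unusedSectionVars false

namespace Pool.Agent.H483C6

open Finset

namespace II3

/-- pairing up a set with owners -/
theorem pairL {α β : Type} [DecidableEq α] [DecidableEq β] (own : α → β) (Bd : Finset β)
    (P : Finset α) (hPi : ∀ p ∈ P, ∀ q ∈ P, own p = own q → p = q) (hPb : ∀ p ∈ P, own p ∈ Bd) :
    ∀ Q : Finset α, P ⊆ Q → Even Q.card →
      (∀ v ∈ Bd, Even ((Q \ P).filter fun q => own q = v).card) →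
      ∃ (J : Finset (α × α)) (L : Finset α), L ⊆ Q ∧ (∀ j ∈ J, j.1 ≠ j.2) ∧
        (∀ i ∈ J, ∀ j ∈ J, i ≠ j → Disjoint ({i.1, i.2} : Finset α) {j.1, j.2}) ∧
        J.biUnion (fun j => {j.1, j.2}) = Q ∧
        (∀ j ∈ J, own j.1 = own j.2 ∨ (j.1 ∈ L ∧ j.2 ∈ L)) ∧
        (∀ p ∈ L, ∀ q ∈ L, own p = own q → p = q) ∧ ∀ p ∈ L, own p ∈ Bd → p ∈ P := by
  intro Q
  induction Q using Finset.strongInduction with
  | H Q ih =>
    intro hPQ hev hBd
    by_cases hex : ∃ a ∈ Q \ P, ∃ b ∈ Q \ P, a ≠ b ∧ own a = own b
    · obtain ⟨a, ha, b, hb, hab, hown⟩ := hex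
      rw [mem_sdiff] at ha hb
      have hsub : ({a, b} : Finset α) ⊆ Q := by
        intro x hx
        simp only [mem_insert, mem_singleton] at hx
        rcases hx with rfl | rfl
        · exact ha.1
        · exact hb.1
      have hss : Q \ {a, b} ⊂ Q := by
        refine Finset.ssubset_iff_subset_ne.2 ⟨sdiff_subset, fun h => ?_⟩
        have : a ∈ Q \ {a, b} := by rw [h]; exact ha.1
        simp at this
      have hP' : P ⊆ Q \ {a, b} := by
        intro x hx
        rw [mem_sdiff, mem_insert, mem_singleton]
        refine ⟨hPQ hx, ?_⟩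
        rintro (rfl | rfl)
        · exact ha.2 hx
        · exact hb.2 hx
      have hev' : Even (Q \ {a, b}).card := by
        rw [card_sdiff_of_subset hsub, card_pair hab]
        have : 2 ≤ Q.card := by rw [← card_pair hab]; exact card_le_card hsub
        exact (Nat.even_sub this).2 (by simp [hev])
      have hBd' : ∀ v ∈ Bd, Even (((Q \ {a, b}) \ P).filter fun q => own q = v).card := by
        intro v hv
        have h0 := hBd v hv
        by_cases hav : own a = v
        · have h1 : ((Q \ {a, b}) \ P).filter (fun q => own q = v) =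
              ((Q \ P).filter fun q => own q = v) \ {a, b} := by
            ext x
            simp only [mem_filter, mem_sdiff, mem_insert, mem_singleton]
            tauto
          have h2 : ({a, b} : Finset α) ⊆ (Q \ P).filter fun q => own q = v := by
            intro x hx
            simp only [mem_insert, mem_singleton] at hx
            rw [mem_filter, mem_sdiff]
            rcases hx with rfl | rfl
            · exact ⟨ha, hav⟩
            · exact ⟨hb, hown ▸ hav⟩
          rw [h1, card_sdiff_of_subset h2, card_pair hab]
          have : 2 ≤ ((Q \ P).filter fun q => own q = v).card := by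
            rw [← card_pair hab]; exact card_le_card h2
          exact (Nat.even_sub this).2 (by simp [h0])
        · have hbv : own b ≠ v := hown ▸ hav
          have h1 : ((Q \ {a, b}) \ P).filter (fun q => own q = v) =
              (Q \ P).filter fun q => own q = v := by
            ext x
            simp only [mem_filter, mem_sdiff, mem_insert, mem_singleton]
            constructor
            · rintro ⟨⟨⟨h2, _⟩, h3⟩, h4⟩
              exact ⟨⟨h2, h3⟩, h4⟩
            · rintro ⟨⟨h2, h3⟩, h4⟩
              refine ⟨⟨⟨h2, ?_⟩, h3⟩, h4⟩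
              rintro (rfl | rfl)
              · exact hav h4
              · exact hbv h4
          rw [h1]; exact h0
      obtain ⟨J, L, h1, h2, h3, h4, h5, h6, h7⟩ := ih _ hss hP' hev' hBd'
      have hJ : ∀ j ∈ J, ({j.1, j.2} : Finset α) ⊆ Q \ {a, b} := by
        intro j hj
        have : ({j.1, j.2} : Finset α) ⊆ J.biUnion (fun j => {j.1, j.2}) :=
          subset_biUnion_of_mem (fun j : α × α => ({j.1, j.2} : Finset α)) hj
        rwa [h4] at this
      refine ⟨insert (a, b) J, L, h1.trans sdiff_subset, ?_, ?_, ?_, ?_, h6, h7⟩
      · intro j hj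
        rcases mem_insert.1 hj with rfl | hj
        · exact hab
        · exact h2 j hj
      · intro i hi j hj hij
        rcases mem_insert.1 hi with hi | hi <;> rcases mem_insert.1 hj with hj | hj
        · exact absurd (hi.trans hj.symm) hij
        · rw [hi]
          exact (disjoint_sdiff (s := ({a, b} : Finset α)) (t := Q)).mono_right (hJ j hj)
        · rw [hj]
          exact ((disjoint_sdiff (s := ({a, b} : Finset α)) (t := Q)).mono_right (hJ i hi)).symm
        · exact h3 i hi j hj hij
      · rw [biUnion_insert, h4]
        exact union_sdiff_of_subset hsub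
      · intro j hj
        rcases mem_insert.1 hj with rfl | hj
        · exact Or.inl hown
        · exact h5 j hj
    · push Not at hex
      obtain ⟨J, R, h1, h2, h3, h4, h5, h6⟩ := pairing Q
      have hR := h6 hev
      rw [hR, sdiff_empty] at h5
      have key : ∀ q ∈ Q, own q ∈ Bd → q ∈ P := by
        intro q hq hqb
        by_contra hqP
        have h0 := hBd _ hqb
        have h7 : ((Q \ P).filter fun x => own x = own q).card = 1 := by
          rw [card_eq_one]
          refine ⟨q, ?_⟩
          ext x
          rw [mem_filter, mem_singleton]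
          constructor
          · rintro ⟨hx, hxo⟩
            by_contra hne
            exact hex x hx q (mem_sdiff.2 ⟨hq, hqP⟩) hne hxo
          · rintro rfl
            exact ⟨mem_sdiff.2 ⟨hq, hqP⟩, rfl⟩
        rw [h7] at h0
        exact absurd h0 (by decide)
      refine ⟨J, Q, Subset.rfl, h3, h4, h5, ?_, ?_, key⟩
      · intro j hj
        right
        have : ({j.1, j.2} : Finset α) ⊆ J.biUnion (fun j => {j.1, j.2}) :=
          subset_biUnion_of_mem (fun j : α × α => ({j.1, j.2} : Finset α)) hj
        rw [h5] at this
        exact ⟨this (by simp), this (by simp)⟩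
      · intro p hp q hq hpq
        by_cases hpP : p ∈ P
        · by_cases hqP : q ∈ P
          · exact hPi p hpP q hqP hpq
          · exact absurd (key q hq (hpq ▸ hPb p hpP)) hqP
        · by_cases hqP : q ∈ P
          · exact absurd (key p hp (hpq.symm ▸ hPb q hqP)) hpP
          · by_contra hne
            exact hex p (mem_sdiff.2 ⟨hp, hpP⟩) q (mem_sdiff.2 ⟨hq, hqP⟩) hne hpq

end II3

end Pool.Agent.H483C6
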