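import Pool.Agent.H483C6.II3d

/-!
# Section 15.3, part e: one hexagon through a pair of crossing edges (MP_1bffa4_co, helper388)
-/

set_option autoImplicit false
set_option linter.unusedSectionVars false

namespace Pool.Agent.H483C6

open Finset

namespace II3

section C

variable {V : Type} [Fintype V] [DecidableEq V] {E : Finset (Sym2 V)} {A : Finset V}

/-- the two edges of a pair of pairs -/
def ed (j : (V × V) × (V × V)) : Finset (Sym2 V) := {s(j.1.1, j.1.2), s(j.2.1, j.2.2)}

theorem one_le_dg {D : Finset (Sym2 V)} {v w : V} (h : s(v, w) ∈ D) : 1 ≤ dg D v := by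
  unfold dg
  rw [Nat.one_le_iff_ne_zero, ← Nat.pos_iff_ne_zero, card_pos]
  exact ⟨w, mem_nb.2 h⟩

theorem dg_single {a b : V} (h : a ≠ b) (v : V) :
    dg ({s(a, b)} : Finset (Sym2 V)) v = if v = a ∨ v = b then 1 else 0 := by
  unfold dg
  by_cases hv : v = a ∨ v = b
  · rw [if_pos hv, card_eq_one]
    rcases hv with rfl | rfl
    · refine ⟨b, ?_⟩
      ext u
      simp only [mem_nb, mem_singleton, Sym2.eq_iff, true_and]
      constructor
      · rintro (h1 | ⟨h1, h2⟩)
        · exact h1
        · exact absurd h1 h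
      · exact Or.inl
    · refine ⟨a, ?_⟩
      ext u
      simp only [mem_nb, mem_singleton, Sym2.eq_iff, true_and]
      constructor
      · rintro (⟨h1, h2⟩ | h1)
        · exact absurd h1.symm h
        · exact h1
      · exact Or.inr
  · rw [if_neg hv, card_eq_zero]
    ext u
    simp only [mem_nb, mem_singleton, Sym2.eq_iff, notMem_empty, iff_false]
    tauto

theorem pair_inj {p q : V × V} (hp1 : p.1 ∈ A) (_hp2 : p.2 ∉ A) (_hq1 : q.1 ∈ A) (hq2 : q.2 ∉ A)
    (h : s(p.1, p.2) = s(q.1, q.2)) : p = q := by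
  rcases Sym2.eq_iff.1 h with ⟨h1, h2⟩ | ⟨h1, h2⟩
  · exact Prod.ext h1 h2
  · rw [h1] at hp1; exact absurd hp1 hq2

theorem dg_ed {p q : V × V} (hp1 : p.1 ∈ A) (hp2 : p.2 ∉ A) (hq1 : q.1 ∈ A) (hq2 : q.2 ∉ A)
    (h : p ≠ q) (v : V) : dg (ed (p, q)) v =
      (if v = p.1 ∨ v = p.2 then 1 else 0) + (if v = q.1 ∨ v = q.2 then 1 else 0) := by
  have h1 : ed (p, q) = {s(p.1, p.2)} ∪ {s(q.1, q.2)} := by
    unfold ed; rfl
  have h2 : Disjoint ({s(p.1, p.2)} : Finset (Sym2 V)) {s(q.1, q.2)} := by
    rw [disjoint_singleton]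
    exact fun e => h (pair_inj hp1 hp2 hq1 hq2 e)
  rw [h1, dg_union h2, dg_single, dg_single]
  · exact fun e => hq2 (e ▸ hq1)
  · exact fun e => hp2 (e ▸ hp1)

theorem dgT {D T : Finset (Sym2 V)} {I : Finset V} {a b c d e f : V}
    (hn : [a, b, c, d, e, f].Nodup) (hu : D ∪ T = hex a b c d e f) (hd : Disjoint D T)
    (hI : ∀ v ∈ ({a, b, c, d, e, f} : Finset V), v ∉ I → 1 ≤ dg D v) (v : V) :
    dg T v ≤ (if dg D v = 1 then 1 else 0) + (if v ∈ I then 2 else 0) := by
  have h1 := dg_union hd v
  rw [hu] at h1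
  by_cases hv : v ∈ ({a, b, c, d, e, f} : Finset V)
  · rw [dg_hex_of_mem hn hv] at h1
    by_cases hvI : v ∈ I
    · rw [if_pos hvI]; omega
    · have := hI v hv hvI
      split_ifs <;> omega
  · rw [dg_hex_of_notMem hv] at h1
    omega

/-- one hexagon through two crossing edges -/
theorem piece (h : Ctx E A) {p q : V × V} (hp : p ∈ crp A E) (hq : q ∈ crp A E) (hpq : p ≠ q)
    (hA : p.1 ≠ q.1 → p.2 ≠ q.2 → 1 / 50 * (Fintype.card V : ℝ) ≤
      ((nb E p.1 ∩ nb E q.1 ∩ sd A p.1).card : ℝ))
    (hB : p.1 ≠ q.1 → p.2 ≠ q.2 → 1 / 50 * (Fintype.card V : ℝ) ≤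
      ((nb E p.2 ∩ nb E q.2 ∩ sd A p.2).card : ℝ))
    {F : Finset (Sym2 V)} {O : Finset V} {d : ℕ} (hF : ∀ x, dg F x ≤ d) (hO : O.card + 2 ≤ d)
    (hd : 1000 * d ≤ Fintype.card V) :
    ∃ T I, I.card ≤ 4 ∧ Disjoint I O ∧ T ⊆ (E \ cross E A) \ F ∧ IsHex (ed (p, q) ∪ T) ∧
      ∀ v, dg T v ≤ (if dg (ed (p, q)) v = 1 then 1 else 0) + (if v ∈ I then 2 else 0) := by
  obtain ⟨a, b⟩ := p
  obtain ⟨a', b'⟩ := q
  rw [mem_crp] at hp hq
  simp only at hp hq hA hB
  obtain ⟨ha, hb, hab⟩ := hp
  obtain ⟨ha', hb', hab'⟩ := hq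
  have hed : ed ((a, b), (a', b')) = {s(a, b), s(a', b')} := rfl
  have hsA : ∀ {x : V}, x ∈ A → sd A x = A := fun hx => if_pos hx
  have hsB : ∀ {x : V}, x ∉ A → sd A x = Aᶜ := fun hx => if_neg hx
  have hcr : ∀ {u w : V}, u ∈ A → w ∉ A → s(u, w) ∈ E → s(u, w) ∈ cross E A := by
    intro u w hu hw he
    rw [mem_cross, hsA hu]
    exact ⟨he, hw⟩
  have hedc : ed ((a, b), (a', b')) ⊆ cross E A := by
    rw [hed]
    intro e he
    simp only [mem_insert, mem_singleton] at he
    rcases he with rfl | rfl
    · exact hcr ha hb hab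
    · exact hcr ha' hb' hab'
  have hnot : ∀ {T : Finset (Sym2 V)}, T ⊆ (E \ cross E A) \ F →
      Disjoint (ed ((a, b), (a', b'))) T := by
    intro T hT
    rw [disjoint_left]
    intro e he he'
    have := hT he'
    simp only [mem_sdiff] at this
    exact this.1.2 (hedc he)
  have nes : ∀ {x y : V}, x ∈ A → y ∉ A → x ≠ y := fun hx hy e => hy (e ▸ hx)
  have key : ∀ {u w : V}, s(u, w) ∈ E \ F → w ∈ sd A u → s(u, w) ∈ (E \ cross E A) \ F := by
    intro u w h1 h2
    rw [mem_sdiff] at h1 ⊢
    exact ⟨mem_own.2 ⟨h1.1, h2⟩, h1.2⟩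
  by_cases h1 : a = a'
  · subst h1
    have hbb : b ≠ b' := fun e => hpq (by rw [e])
    have hside : b' ∈ sd A b := by rw [hsB hb, mem_compl]; exact hb'
    obtain ⟨x, y, z, c1, c2, c3, c4, c5, c6, c7, c8, c9, c10, c11⟩ :=
      h.path4 hside hF hO hd hbb
    rw [hsB hb, mem_compl] at c5 c6 c7
    have hn : [a, b, x, y, z, b'].Nodup := by
      rw [List.nodup_cons]
      refine ⟨?_, c1⟩
      simp only [List.mem_cons, List.not_mem_nil, or_false, not_or]
      exact ⟨nes ha hb, nes ha c5, nes ha c6, nes ha c7, nes ha hb'⟩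
    have hT : ({s(b, x), s(x, y), s(y, z), s(z, b')} : Finset (Sym2 V)) ⊆
        (E \ cross E A) \ F := by
      intro e he
      simp only [mem_insert, mem_singleton] at he
      rcases he with rfl | rfl | rfl | rfl
      · exact key c8 (by rw [hsB hb, mem_compl]; exact c5)
      · exact key c9 (by rw [hsB c5, mem_compl]; exact c6)
      · exact key c10 (by rw [hsB c6, mem_compl]; exact c7)
      · exact key c11 (by rw [hsB c7, mem_compl]; exact hb')
    have hu : ed ((a, b), (a, b')) ∪ {s(b, x), s(x, y), s(y, z), s(z, b')} =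
        hex a b x y z b' := by
      rw [hed]
      ext e
      rw [mem_hex, mem_union, Sym2.eq_swap (a := b') (b := a)]
      simp only [mem_insert, mem_singleton]
      constructor
      · rintro ((g | g) | (g | g | g | g)) <;> simp only [g, true_or, or_true]
      · rintro (g | g | g | g | g | g) <;> simp only [g, true_or, or_true]
    refine ⟨_, {x, y, z}, ?_, ?_, hT, ?_, ?_⟩
    · exact card_le_three.trans (by norm_num)
    · rw [disjoint_left]
      intro w hw
      simp only [mem_insert, mem_singleton] at hw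
      rcases hw with rfl | rfl | rfl <;> assumption
    · rw [hu]; exact isHex_hex hn
    · refine dgT hn hu (hnot hT) ?_
      intro v hv hvI
      simp only [mem_insert, mem_singleton, not_or] at hv hvI
      obtain ⟨i1, i2, i3⟩ := hvI
      rcases hv with rfl | rfl | rfl | rfl | rfl | rfl
      · exact one_le_dg (w := b) (by rw [hed]; simp)
      · exact one_le_dg (w := a) (by rw [hed, Sym2.eq_swap]; simp)
      · exact absurd rfl i1
      · exact absurd rfl i2
      · exact absurd rfl i3
      · exact one_le_dg (w := a) (by rw [hed, Sym2.eq_swap]; simp)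
  · by_cases h2 : b = b'
    · subst h2
      have hside : a' ∈ sd A a := by rw [hsA ha]; exact ha'
      obtain ⟨x, y, z, c1, c2, c3, c4, c5, c6, c7, c8, c9, c10, c11⟩ :=
        h.path4 hside hF hO hd h1
      rw [hsA ha] at c5 c6 c7
      have hn : [b, a, x, y, z, a'].Nodup := by
        rw [List.nodup_cons]
        refine ⟨?_, c1⟩
        simp only [List.mem_cons, List.not_mem_nil, or_false, not_or]
        exact ⟨(nes ha hb).symm, (nes c5 hb).symm, (nes c6 hb).symm, (nes c7 hb).symm,
          (nes ha' hb).symm⟩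
      have hT : ({s(a, x), s(x, y), s(y, z), s(z, a')} : Finset (Sym2 V)) ⊆
          (E \ cross E A) \ F := by
        intro e he
        simp only [mem_insert, mem_singleton] at he
        rcases he with rfl | rfl | rfl | rfl
        · exact key c8 (by rw [hsA ha]; exact c5)
        · exact key c9 (by rw [hsA c5]; exact c6)
        · exact key c10 (by rw [hsA c6]; exact c7)
        · exact key c11 (by rw [hsA c7]; exact ha')
      have hu : ed ((a, b), (a', b)) ∪ {s(a, x), s(x, y), s(y, z), s(z, a')} =
          hex b a x y z a' := by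
        rw [hed]
        ext e
        rw [mem_hex, mem_union, Sym2.eq_swap (a := b) (b := a)]
        simp only [mem_insert, mem_singleton]
        constructor
        · rintro ((g | g) | (g | g | g | g)) <;> simp only [g, true_or, or_true]
        · rintro (g | g | g | g | g | g) <;> simp only [g, true_or, or_true]
      refine ⟨_, {x, y, z}, ?_, ?_, hT, ?_, ?_⟩
      · exact card_le_three.trans (by norm_num)
      · rw [disjoint_left]
        intro w hw
        simp only [mem_insert, mem_singleton] at hw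
        rcases hw with rfl | rfl | rfl <;> assumption
      · rw [hu]; exact isHex_hex hn
      · refine dgT hn hu (hnot hT) ?_
        intro v hv hvI
        simp only [mem_insert, mem_singleton, not_or] at hv hvI
        obtain ⟨i1, i2, i3⟩ := hvI
        rcases hv with rfl | rfl | rfl | rfl | rfl | rfl
        · exact one_le_dg (w := a) (by rw [hed, Sym2.eq_swap]; simp)
        · exact one_le_dg (w := b) (by rw [hed]; simp)
        · exact absurd rfl i1
        · exact absurd rfl i2
        · exact absurd rfl i3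
        · exact one_le_dg (w := b) (by rw [hed]; simp)
    · obtain ⟨x, c1, c2, c3, c4, c5, c6⟩ := h.path2 (hA h1 h2) hF hO hd
      obtain ⟨y, e1, e2, e3, e4, e5, e6⟩ := h.path2 (hB h1 h2) hF hO hd
      rw [hsA ha] at c4
      rw [hsB hb, mem_compl] at e4
      have hn : [a, x, a', b', y, b].Nodup := by
        simp only [List.nodup_cons, List.mem_cons, List.not_mem_nil, or_false, not_or,
          not_false_iff, List.nodup_nil, and_true]
        exact ⟨⟨Ne.symm c1, h1, nes ha hb', nes ha e4, nes ha hb⟩,
          ⟨c2, nes c4 hb', nes c4 e4, nes c4 hb⟩, ⟨nes ha' hb', nes ha' e4, nes ha' hb⟩,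
          ⟨Ne.symm e2, Ne.symm h2⟩, e1⟩
      have hT : ({s(a, x), s(x, a'), s(b', y), s(y, b)} : Finset (Sym2 V)) ⊆
          (E \ cross E A) \ F := by
        intro e he
        simp only [mem_insert, mem_singleton] at he
        rcases he with rfl | rfl | rfl | rfl
        · exact key c5 (by rw [hsA ha]; exact c4)
        · exact key c6 (by rw [hsA c4]; exact ha')
        · rw [Sym2.eq_swap]; exact key e6 (by rw [hsB e4, mem_compl]; exact hb')
        · rw [Sym2.eq_swap]; exact key e5 (by rw [hsB hb, mem_compl]; exact e4)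
      have hu : ed ((a, b), (a', b')) ∪ {s(a, x), s(x, a'), s(b', y), s(y, b)} =
          hex a x a' b' y b := by
        rw [hed]
        ext e
        rw [mem_hex, mem_union, Sym2.eq_swap (a := b) (b := a)]
        simp only [mem_insert, mem_singleton]
        constructor
        · rintro ((g | g) | (g | g | g | g)) <;> simp only [g, true_or, or_true]
        · rintro (g | g | g | g | g | g) <;> simp only [g, true_or, or_true]
      refine ⟨_, {x, y}, ?_, ?_, hT, ?_, ?_⟩
      · exact card_le_two.trans (by norm_num)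
      · rw [disjoint_left]
        intro w hw
        simp only [mem_insert, mem_singleton] at hw
        rcases hw with rfl | rfl <;> assumption
      · rw [hu]; exact isHex_hex hn
      · refine dgT hn hu (hnot hT) ?_
        intro v hv hvI
        simp only [mem_insert, mem_singleton, not_or] at hv hvI
        obtain ⟨i1, i2⟩ := hvI
        rcases hv with rfl | rfl | rfl | rfl | rfl | rfl
        · exact one_le_dg (w := b) (by rw [hed]; simp)
        · exact absurd rfl i1
        · exact one_le_dg (w := b') (by rw [hed]; simp)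
        · exact one_le_dg (w := a') (by rw [hed, Sym2.eq_swap]; simp)
        · exact absurd rfl i2
        · exact one_le_dg (w := a) (by rw [hed, Sym2.eq_swap]; simp)

end C

end II3

end Pool.Agent.H483C6
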