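import Pool.Agent.H483C6.II3e

/-!
# Section 15.3, part f: second phase (MP_1bffa4_co, helper388)
-/

set_option autoImplicit false
set_option linter.unusedSectionVars false

namespace Pool.Agent.H483C6

open Finset

namespace II3

section C

variable {V : Type} [Fintype V] [DecidableEq V] {E : Finset (Sym2 V)} {A : Finset V}

theorem not_inc {p : V × V} {v : V} (h : ow E A p = v) : v = p.1 ∨ v = p.2 := by
  unfold ow at h
  split_ifs at h
  · exact Or.inl h.symm
  · exact Or.inr h.symm
  · exact Or.inl h.symm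

/-- number of foreign crossing edges at a vertex -/
theorem foreign (h : Ctx E A) {Q : Finset (V × V)} (hQ : Q ⊆ crp A E) (v : V) :
    10 ^ 5 * (Q.filter fun q => (v = q.1 ∨ v = q.2) ∧ ow E A q ≠ v).card ≤ Fintype.card V := by
  have hbad := h.bad
  have hinj : Set.InjOn (fun q : V × V => if v = q.1 then q.2 else q.1)
      (Q.filter fun q => (v = q.1 ∨ v = q.2) ∧ ow E A q ≠ v : Finset (V × V)) := by
    intro p hp q hq hpq
    simp only [coe_filter, Set.mem_ofPred_eq] at hp hq hpq
    have hp' := mem_crp.1 (hQ hp.1)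
    have hq' := mem_crp.1 (hQ hq.1)
    by_cases h1 : v = p.1
    · have h2 : v = q.1 := by
        rcases hq.2.1 with h2 | h2
        · exact h2
        · exact absurd (h1 ▸ hp'.1 : v ∈ A) (h2 ▸ hq'.2.1)
      rw [if_pos h1, if_pos h2] at hpq
      exact Prod.ext (h1.symm.trans h2) hpq
    · have h1' : v = p.2 := hp.2.1.resolve_left h1
      have h2 : ¬ v = q.1 := by
        intro h2
        exact absurd (h2 ▸ hq'.1 : v ∈ A) (h1' ▸ hp'.2.1)
      have h2' : v = q.2 := hq.2.1.resolve_left h2
      rw [if_neg h1, if_neg h2] at hpq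
      exact Prod.ext hpq (h1'.symm.trans h2')
  by_cases hv : v ∈ Bad E A
  · have h1 : (Q.filter fun q => (v = q.1 ∨ v = q.2) ∧ ow E A q ≠ v).card ≤ (Bad E A).card := by
      refine card_le_card_of_injOn _ ?_ hinj
      intro q hq
      simp only [coe_filter, Set.mem_ofPred_eq] at hq
      have h2 : v ≠ q.1 := by
        intro h2
        apply hq.2.2
        unfold ow
        rw [← h2, if_pos hv]
      simp only
      rw [if_neg h2]
      by_contra h3
      apply hq.2.2
      have h4 : v = q.2 := hq.2.1.resolve_left h2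
      unfold ow
      rw [if_neg (fun h => h3 (mem_coe.2 h)), ← h4, if_pos hv]
    have h2 : ((Q.filter fun q => (v = q.1 ∨ v = q.2) ∧ ow E A q ≠ v).card : ℝ) ≤
        ((Bad E A).card : ℝ) := by exact_mod_cast h1
    have h3 : (10 : ℝ) ^ 5 * ((Q.filter fun q => (v = q.1 ∨ v = q.2) ∧ ow E A q ≠ v).card : ℝ) ≤
        (Fintype.card V : ℝ) := by
      have := h.big
      linarith
    exact_mod_cast h3
  · have h1 : (Q.filter fun q => (v = q.1 ∨ v = q.2) ∧ ow E A q ≠ v).card ≤
        dg (cross E A) v := by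
      refine card_le_card_of_injOn _ ?_ hinj
      intro q hq
      simp only [coe_filter, Set.mem_ofPred_eq] at hq
      have hq' := mem_crp.1 (hQ hq.1)
      simp only [mem_coe]
      rw [mem_nb]
      have hc : s(q.1, q.2) ∈ cross E A := by
        rw [mem_cross]
        refine ⟨hq'.2.2, ?_⟩
        rw [mem_sd]
        tauto
      by_cases h2 : v = q.1
      · rw [if_pos h2, h2]; exact hc
      · rw [if_neg h2]
        have h3 : v = q.2 := hq.2.1.resolve_left h2
        rw [h3, Sym2.eq_swap]; exact hc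
    have h2 : (dg (cross E A) v : ℝ) ≤ 1 / 10 ^ 5 * (Fintype.card V : ℝ) := by
      unfold Bad at hv
      rw [mem_filter] at hv
      push Not at hv
      exact hv (mem_univ _)
    have h3 : ((Q.filter fun q => (v = q.1 ∨ v = q.2) ∧ ow E A q ≠ v).card : ℝ) ≤
        (dg (cross E A) v : ℝ) := by exact_mod_cast h1
    have h4 : (10 : ℝ) ^ 5 * ((Q.filter fun q => (v = q.1 ∨ v = q.2) ∧ ow E A q ≠ v).card : ℝ) ≤
        (Fintype.card V : ℝ) := by
      linarith
    exact_mod_cast h4

theorem crp_card_le {Q : Finset (V × V)} (hQ : Q ⊆ crp A E) :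
    Q.card ≤ (cross E A).card := by
  refine card_le_card_of_injOn (fun q => s(q.1, q.2)) ?_ ?_
  · intro q hq
    have hq' := mem_crp.1 (hQ hq)
    simp only [mem_coe]
    rw [mem_cross]
    refine ⟨hq'.2.2, ?_⟩
    rw [mem_sd]
    tauto
  · intro p hp q hq hpq
    have hp' := mem_crp.1 (hQ hp)
    have hq' := mem_crp.1 (hQ hq)
    exact pair_inj hp'.1 hp'.2.1 hq'.1 hq'.2.1 hpq

/-- Second phase: cover all remaining crossing edges. -/
theorem phase2 (h : Ctx E A) (F1 : Finset (Sym2 V)) (hF1 : ∀ x, 10 ^ 6 * dg F1 x ≤ Fintype.card V)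
    (Q : Finset (V × V)) (hQ : Q ⊆ crp A E) (P L : Finset (V × V))
    (J : Finset ((V × V) × (V × V))) (hJne : ∀ j ∈ J, j.1 ≠ j.2)
    (hJd : ∀ i ∈ J, ∀ j ∈ J, i ≠ j → Disjoint ({i.1, i.2} : Finset (V × V)) {j.1, j.2})
    (hJQ : J.biUnion (fun j => {j.1, j.2}) = Q)
    (hJo : ∀ j ∈ J, ow E A j.1 = ow E A j.2 ∨ (j.1 ∈ L ∧ j.2 ∈ L))
    (hLi : ∀ p ∈ L, ∀ q ∈ L, ow E A p = ow E A q → p = q)
    (hLb : ∀ p ∈ L, ow E A p ∈ Bad E A → p ∈ P)
    (hP2 : ∀ p ∈ P, ∀ q ∈ P, p.1 ∈ Bad E A → q.1 ∈ Bad E A → p = q)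
    (hP3 : ∀ p ∈ P, ∀ q ∈ P, p.2 ∈ Bad E A → q.2 ∈ Bad E A → p = q) :
    ∃ D2 ⊆ E, Dec D2 ∧ crp A D2 = Q ∧ Disjoint (D2 \ cross E A) F1 ∧
      ∀ v, 10 ^ 4 * dg (D2 \ cross E A) v ≤ Fintype.card V := by
  set n := Fintype.card V with hn
  set Λ := n / 10 ^ 5 + 1 with hΛ
  have hbig : 10 ^ 30 ≤ n := by
    have := h.big
    rw [hn]; exact_mod_cast this
  have hJmem : ∀ j ∈ J, j.1 ∈ Q ∧ j.2 ∈ Q := by
    intro j hj
    have : ({j.1, j.2} : Finset (V × V)) ⊆ J.biUnion (fun j => {j.1, j.2}) :=
      subset_biUnion_of_mem (fun j : (V × V) × (V × V) => ({j.1, j.2} : Finset (V × V))) hj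
    rw [hJQ] at this
    exact ⟨this (by simp), this (by simp)⟩
  have hdged : ∀ j ∈ J, ∀ v, dg (ed j) v =
      (if v = j.1.1 ∨ v = j.1.2 then 1 else 0) + (if v = j.2.1 ∨ v = j.2.2 then 1 else 0) := by
    intro j hj v
    have h1 := mem_crp.1 (hQ (hJmem j hj).1)
    have h2 := mem_crp.1 (hQ (hJmem j hj).2)
    exact dg_ed h1.1 h1.2.1 h2.1 h2.2.1 (hJne j hj) v
  set ep : (V × V) × (V × V) → V → ℕ := fun j v => if dg (ed j) v = 1 then 1 else 0 with hep
  set cand : (V × V) × (V × V) → Finset (Sym2 V) → Finset V → Prop := fun j T I =>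
    I.card ≤ 4 ∧ (∀ v, dg T v ≤ ep j v + (if v ∈ I then 2 else 0)) ∧
      T ⊆ (E \ cross E A) \ F1 ∧ IsHex (ed j ∪ T) with hcand
  have hep2 : ∀ v, ∑ i ∈ J, ep i v ≤ n / 10 ^ 5 + 1 := by
    intro v
    rw [hep]
    simp only
    rw [← card_filter]
    have h1 : (J.filter fun j => dg (ed j) v = 1).card ≤
        ((Q.filter fun q => (v = q.1 ∨ v = q.2) ∧ ow E A q ≠ v) ∪
          (L.filter fun q => ow E A q = v)).card := by
      refine card_le_card_of_injOn
        (fun j => if v = j.1.1 ∨ v = j.1.2 then j.1 else j.2) ?_ ?_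
      · intro j hj
        simp only [coe_filter, Set.mem_ofPred_eq] at hj
        obtain ⟨hj, hd⟩ := hj
        rw [hdged j hj] at hd
        simp only [coe_union, coe_filter, Set.mem_union, Set.mem_ofPred_eq]
        by_cases hv : v = j.1.1 ∨ v = j.1.2
        · rw [if_pos hv] at hd ⊢
          by_cases ho : ow E A j.1 = v
          · right
            refine ⟨?_, ho⟩
            rcases hJo j hj with h2 | h2
            · have h3 := not_inc (h2.symm.trans ho)
              rw [if_pos h3] at hd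
              omega
            · exact h2.1
          · left
            exact ⟨(hJmem j hj).1, hv, ho⟩
        · rw [if_neg hv] at hd ⊢
          have hv2 : v = j.2.1 ∨ v = j.2.2 := by
            by_contra h3
            rw [if_neg h3] at hd
            omega
          by_cases ho : ow E A j.2 = v
          · right
            refine ⟨?_, ho⟩
            rcases hJo j hj with h2 | h2
            · exact absurd (not_inc (h2.trans ho)) hv
            · exact h2.2
          · left
            exact ⟨(hJmem j hj).2, hv2, ho⟩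
      · intro i hi j hj hij
        simp only [coe_filter, Set.mem_ofPred_eq] at hi hj hij
        by_contra hne
        have h2 := hJd i hi.1 j hj.1 hne
        rw [disjoint_left] at h2
        have h3 : (if v = i.1.1 ∨ v = i.1.2 then i.1 else i.2) ∈ ({i.1, i.2} : Finset (V × V)) := by
          split_ifs <;> simp
        have h4 : (if v = j.1.1 ∨ v = j.1.2 then j.1 else j.2) ∈ ({j.1, j.2} : Finset (V × V)) := by
          split_ifs <;> simp
        rw [← hij] at h4
        exact h2 h3 h4
    have h2 : (L.filter fun q => ow E A q = v).card ≤ 1 := by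
      rw [card_le_one]
      intro p hp q hq
      rw [mem_filter] at hp hq
      exact hLi p hp.1 q hq.1 (hp.2.trans hq.2.symm)
    have h3 := foreign h hQ v
    have h4 := card_union_le (Q.filter fun q => (v = q.1 ∨ v = q.2) ∧ ow E A q ≠ v)
      (L.filter fun q => ow E A q = v)
    omega
  have hJc : 2 * J.card = Q.card := by
    rw [← hJQ, card_biUnion fun i hi j hj hij => hJd i hi j hj hij]
    have : ∑ j ∈ J, ({j.1, j.2} : Finset (V × V)).card = ∑ j ∈ J, 2 :=
      sum_congr rfl fun j hj => card_pair (hJne j hj)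
    rw [this, sum_const, smul_eq_mul]
    ring
  have hQc := crp_card_le hQ
  obtain ⟨T, hT1, hT2, hT3⟩ := greedy V ((V × V) × (V × V)) J cand ep Λ
    (fun j _ T I hc => ⟨hc.1, hc.2.1⟩) (by
      intro j hj F O hF hO
      have hOc : O.card + 2 ≤ n / 10 ^ 4 := by
        have h1 : (Λ : ℝ) * (O.card : ℝ) ≤ 4 * (J.card : ℝ) := by exact_mod_cast hO
        have h2 : 2 * (J.card : ℝ) ≤ ((cross E A).card : ℝ) := by
          exact_mod_cast (by omega : 2 * J.card ≤ (cross E A).card)
        have h3 := h.crs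
        have h4 : (n : ℝ) / 10 ^ 5 ≤ (Λ : ℝ) := by
          have : n ≤ 10 ^ 5 * Λ := by omega
          have h5 : (n : ℝ) ≤ 10 ^ 5 * (Λ : ℝ) := by exact_mod_cast this
          linarith
        have h5 : ((n : ℝ) / 10 ^ 5) * (O.card : ℝ) ≤ ((n : ℝ) / 10 ^ 5) * (2 / 10 ^ 15 * n) := by
          have h6 : ((n : ℝ) / 10 ^ 5) * (O.card : ℝ) ≤ (Λ : ℝ) * (O.card : ℝ) :=
            mul_le_mul_of_nonneg_right h4 (Nat.cast_nonneg _)
          have h7 : ((n : ℝ) / 10 ^ 5) * (2 / 10 ^ 15 * n) = 2 * (1 / 10 ^ 20 * (n : ℝ) ^ 2) := by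
            ring
          rw [h7]
          linarith
        have hn0 : (0 : ℝ) < (n : ℝ) / 10 ^ 5 := by
          have := h.big
          rw [← hn] at this
          have h8 : (0 : ℝ) < n := by linarith
          positivity
        have h6 : (O.card : ℝ) ≤ 2 / 10 ^ 15 * n := le_of_mul_le_mul_left h5 hn0
        have h7 : (10 : ℝ) ^ 5 * (O.card : ℝ) ≤ n := by linarith
        have h8 : 10 ^ 5 * O.card ≤ n := by exact_mod_cast h7
        omega
      have hF' : ∀ x, dg (F ∪ F1) x ≤ n / 10 ^ 4 := by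
        intro x
        have h1 := dg_union_le F F1 x
        have h2 := hF x
        have h3 := hF1 x
        have h4 := hep2 x
        omega
      obtain ⟨hj1, hj2⟩ := hJmem j hj
      have hc1 := mem_crp.1 (hQ hj1)
      have hc2 := mem_crp.1 (hQ hj2)
      have hL : j.1.1 ≠ j.2.1 → j.1.2 ≠ j.2.2 → j.1 ∈ L ∧ j.2 ∈ L := by
        intro g1 g2
        rcases hJo j hj with g3 | g3
        · exfalso
          rcases not_inc (E := E) (A := A) (p := j.1) rfl with g4 | g4 <;>
            rcases not_inc (E := E) (A := A) (p := j.2) rfl with g5 | g5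
          · exact g1 (g4.symm.trans (g3.trans g5))
          · exact hc2.2.1 (g5 ▸ g3 ▸ g4.symm ▸ hc1.1)
          · exact hc1.2.1 (g4 ▸ g3.symm ▸ g5.symm ▸ hc2.1)
          · exact g2 (g4.symm.trans (g3.trans g5))
        · exact g3
      have howA : ∀ p : V × V, p.1 ∈ Bad E A → ow E A p = p.1 := fun p hp => if_pos hp
      have howB : ∀ p : V × V, p.1 ∉ Bad E A → p.2 ∈ Bad E A → ow E A p = p.2 := by
        intro p hp hp'
        unfold ow
        rw [if_neg hp, if_pos hp']
      have hcA : j.1.1 ≠ j.2.1 → j.1.2 ≠ j.2.2 → 1 / 50 * (Fintype.card V : ℝ) ≤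
          ((nb E j.1.1 ∩ nb E j.2.1 ∩ sd A j.1.1).card : ℝ) := by
        intro g1 g2
        obtain ⟨g3, g4⟩ := hL g1 g2
        refine h.cod (by rw [mem_sd]; tauto) ?_
        by_contra hcon
        push Not at hcon
        have g5 := hLb _ g3 (by rw [howA _ hcon.1]; exact hcon.1)
        have g6 := hLb _ g4 (by rw [howA _ hcon.2]; exact hcon.2)
        exact hJne j hj (hP2 _ g5 _ g6 hcon.1 hcon.2)
      have hcB : j.1.1 ≠ j.2.1 → j.1.2 ≠ j.2.2 → 1 / 50 * (Fintype.card V : ℝ) ≤
          ((nb E j.1.2 ∩ nb E j.2.2 ∩ sd A j.1.2).card : ℝ) := by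
        intro g1 g2
        obtain ⟨g3, g4⟩ := hL g1 g2
        refine h.cod (by rw [mem_sd]; tauto) ?_
        by_contra hcon
        push Not at hcon
        have key : ∀ p ∈ L, p.2 ∈ Bad E A → p ∈ P := by
          intro p hp hpb
          by_cases hp1 : p.1 ∈ Bad E A
          · exact hLb p hp (by rw [howA _ hp1]; exact hp1)
          · exact hLb p hp (by rw [howB _ hp1 hpb]; exact hpb)
        exact hJne j hj (hP3 _ (key _ g3 hcon.1) _ (key _ g4 hcon.2) hcon.1 hcon.2)
      obtain ⟨T, I, t1, t2, t3, t4, t5⟩ := piece h (hQ hj1) (hQ hj2) (hJne j hj) hcA hcB hF'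
        (O := O) hOc (by omega)
      refine ⟨T, I, ⟨t1, t5, ?_, t4⟩, ?_, t2⟩
      · intro e he
        have := t3 he
        simp only [mem_sdiff, mem_union, not_or] at this ⊢
        exact ⟨this.1, this.2.2⟩
      · rw [disjoint_left]
        intro e he heF
        have := t3 he
        simp only [mem_sdiff, mem_union, not_or] at this
        exact this.2.1 heF)
  have hTs : ∀ j ∈ J, T j ⊆ (E \ cross E A) \ F1 := by
    intro j hj
    obtain ⟨I, hI⟩ := hT1 j hj
    exact hI.2.2.1
  have hedE : ∀ j ∈ J, ed j ⊆ cross E A := by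
    intro j hj e he
    have h1 := mem_crp.1 (hQ (hJmem j hj).1)
    have h2 := mem_crp.1 (hQ (hJmem j hj).2)
    unfold ed at he
    simp only [mem_insert, mem_singleton] at he
    rcases he with rfl | rfl
    · rw [mem_cross, mem_sd]; tauto
    · rw [mem_cross, mem_sd]; tauto
  have hdisj : ∀ i ∈ J, ∀ j ∈ J, i ≠ j → Disjoint (ed i ∪ T i) (ed j ∪ T j) := by
    intro i hi j hj hij
    have g1 : Disjoint (ed i) (ed j) := by
      rw [disjoint_left]
      intro e he he'
      have a1 := mem_crp.1 (hQ (hJmem i hi).1)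
      have a2 := mem_crp.1 (hQ (hJmem i hi).2)
      have a3 := mem_crp.1 (hQ (hJmem j hj).1)
      have a4 := mem_crp.1 (hQ (hJmem j hj).2)
      have a5 := hJd i hi j hj hij
      rw [disjoint_left] at a5
      unfold ed at he he'
      simp only [mem_insert, mem_singleton] at he he' a5
      rcases he with he | he <;> rcases he' with he' | he'
      · exact a5 (Or.inl rfl) (Or.inl (pair_inj a1.1 a1.2.1 a3.1 a3.2.1 (he.symm.trans he')))
      · exact a5 (Or.inl rfl) (Or.inr (pair_inj a1.1 a1.2.1 a4.1 a4.2.1 (he.symm.trans he')))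
      · exact a5 (Or.inr rfl) (Or.inl (pair_inj a2.1 a2.2.1 a3.1 a3.2.1 (he.symm.trans he')))
      · exact a5 (Or.inr rfl) (Or.inr (pair_inj a2.1 a2.2.1 a4.1 a4.2.1 (he.symm.trans he')))
    have g2 : ∀ i ∈ J, ∀ j ∈ J, Disjoint (ed i) (T j) := by
      intro i hi j hj
      rw [disjoint_left]
      intro e he he'
      have := hTs j hj he'
      simp only [mem_sdiff] at this
      exact this.1.2 (hedE i hi he)
    rw [disjoint_union_left, disjoint_union_right, disjoint_union_right]
    exact ⟨⟨g1, g2 i hi j hj⟩, (g2 j hj i hi).symm, hT2 i hi j hj hij⟩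
  have hD2c : (J.biUnion fun j => ed j ∪ T j) \ cross E A ⊆ J.biUnion T := by
    intro e he
    rw [mem_sdiff, mem_biUnion] at he
    obtain ⟨⟨j, hj, he⟩, hc⟩ := he
    rcases mem_union.1 he with he | he
    · exact absurd (hedE j hj he) hc
    · exact mem_biUnion.2 ⟨j, hj, he⟩
  refine ⟨J.biUnion fun j => ed j ∪ T j, ?_, ?_, ?_, ?_, ?_⟩
  · intro e he
    rw [mem_biUnion] at he
    obtain ⟨j, hj, he⟩ := he
    rcases mem_union.1 he with he | he
    · exact cross_subset E A (hedE j hj he)
    · have := hTs j hj he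
      simp only [mem_sdiff] at this
      exact this.1.1
  · refine Dec.biUnion J _ (fun j hj => ?_) hdisj
    obtain ⟨I, hI⟩ := hT1 j hj
    exact hI.2.2.2.dec
  · ext p
    rw [mem_crp]
    constructor
    · rintro ⟨b1, b2, b3⟩
      rw [mem_biUnion] at b3
      obtain ⟨j, hj, b3⟩ := b3
      rcases mem_union.1 b3 with b3 | b3
      · have a1 := mem_crp.1 (hQ (hJmem j hj).1)
        have a2 := mem_crp.1 (hQ (hJmem j hj).2)
        unfold ed at b3
        simp only [mem_insert, mem_singleton] at b3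
        rcases b3 with b3 | b3
        · rw [pair_inj b1 b2 a1.1 a1.2.1 b3]; exact (hJmem j hj).1
        · rw [pair_inj b1 b2 a2.1 a2.2.1 b3]; exact (hJmem j hj).2
      · exfalso
        have := hTs j hj b3
        simp only [mem_sdiff] at this
        apply this.1.2
        rw [mem_cross, mem_sd]
        tauto
    · intro hp
      have b1 := mem_crp.1 (hQ hp)
      refine ⟨b1.1, b1.2.1, ?_⟩
      rw [← hJQ, mem_biUnion] at hp
      obtain ⟨j, hj, hp⟩ := hp
      rw [mem_biUnion]
      refine ⟨j, hj, mem_union_left _ ?_⟩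
      unfold ed
      simp only [mem_insert, mem_singleton] at hp ⊢
      rcases hp with rfl | rfl
      · exact Or.inl rfl
      · exact Or.inr rfl
  · refine Disjoint.mono_left hD2c ?_
    rw [disjoint_biUnion_left]
    intro j hj
    rw [disjoint_left]
    intro e he he'
    have := hTs j hj he
    simp only [mem_sdiff] at this
    exact this.2 he'
  · intro v
    have h1 := (dg_mono hD2c v).trans (hT3 v)
    have h2 := hep2 v
    omega

end C

end II3

end Pool.Agent.H483C6
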