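import Pool.Agent.H483C6.II3f

/-!
# Section 15.3, part g: clearing the crossing edges (MP_1bffa4_co, helper388)
-/

set_option autoImplicit false
set_option linter.unusedSectionVars false

namespace Pool.Agent.H483C6

open Finset

namespace II3

section C

variable {V : Type} [Fintype V] [DecidableEq V] {E : Finset (Sym2 V)} {A : Finset V}

theorem crp_union (D D' : Finset (Sym2 V)) : crp A (D ∪ D') = crp A D ∪ crp A D' := by
  ext p
  simp only [mem_crp, mem_union]
  tauto

theorem crp_sdiff (D D' : Finset (Sym2 V)) : crp A (D \ D') = crp A D \ crp A D' := by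
  ext p
  simp only [mem_crp, mem_sdiff]
  tauto

theorem crp_mono {D D' : Finset (Sym2 V)} (h : D ⊆ D') : crp A D ⊆ crp A D' := by
  intro p
  simp only [mem_crp]
  exact fun hp => ⟨hp.1, hp.2.1, h hp.2.2⟩

/-- every crossing edge comes from a pair -/
theorem exists_crp {D : Finset (Sym2 V)} {e : Sym2 V} (he : e ∈ D) (hc : e ∈ cross E A) :
    ∃ p ∈ crp A D, s(p.1, p.2) = e := by
  induction e using Sym2.ind with
  | _ u w =>
    rw [mem_cross] at hc
    obtain ⟨h1, h2⟩ := hc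
    have h3 := (mkp_eq h2).2 (rfl : mkp A u w = mkp A u w)
    refine ⟨mkp A u w, ?_, h3.2.2⟩
    rw [mem_crp, h3.2.2]
    exact ⟨h3.1, h3.2.1, he⟩

/-- a protected crossing edge at a bad vertex -/
theorem protect (h : Ctx E A) (F1 : Finset (Sym2 V)) (hF1 : ∀ x, 10 ^ 6 * dg F1 x ≤ Fintype.card V)
    {v : V} (hv : v ∈ Bad E A) :
    ∃ p ∈ crp A (E \ F1), ow E A p = v ∧ ¬ (p.1 ∈ Bad E A ∧ p.2 ∈ Bad E A) := by
  have h1 : 1 / 10 ^ 5 * (Fintype.card V : ℝ) < (dg (cross E A) v : ℝ) := by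
    have := hv
    unfold Bad at this
    rw [mem_filter] at this
    exact this.2
  have hlt : (Bad E A ∪ nb F1 v).card < (nb (cross E A) v).card := by
    have h2 : (Bad E A ∪ nb F1 v).card ≤ (Bad E A).card + dg F1 v := card_union_le _ _
    have h3 : ((Bad E A ∪ nb F1 v).card : ℝ) ≤ ((Bad E A).card : ℝ) + (dg F1 v : ℝ) := by
      exact_mod_cast h2
    have h4 : (10 : ℝ) ^ 6 * (dg F1 v : ℝ) ≤ (Fintype.card V : ℝ) := by exact_mod_cast hF1 v
    have h5 := h.bad
    have h6 := h.big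
    have h7 : ((Bad E A ∪ nb F1 v).card : ℝ) < (dg (cross E A) v : ℝ) := by linarith
    exact_mod_cast h7
  obtain ⟨w, hw, hw'⟩ := exists_mem_notMem_of_card_lt_card hlt
  rw [mem_nb, mem_cross] at hw
  rw [mem_union, mem_nb, not_or] at hw'
  have h3 := (mkp_eq hw.2).2 (rfl : mkp A v w = mkp A v w)
  refine ⟨mkp A v w, ?_, ow_mkp hv hw'.1, ?_⟩
  · rw [mem_crp, h3.2.2]
    exact ⟨h3.1, h3.2.1, mem_sdiff.2 ⟨hw.1, hw'.2⟩⟩
  · rintro ⟨g1, g2⟩
    unfold mkp at g1 g2
    split_ifs at g1 g2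
    · exact hw'.1 g2
    · exact hw'.1 g1

/-- Clearing all crossing edges outside `F0`. -/
theorem clear (h : Ctx E A) (F0 : Finset (Sym2 V)) (hF0 : ∀ x, dg F0 x ≤ 20)
    (hev : Even (crp A (E \ F0)).card) :
    ∃ D0 ⊆ E \ F0, Dec D0 ∧ crp A D0 = crp A (E \ F0) ∧
      ∀ v, 5000 * dg (D0 \ cross E A) v ≤ Fintype.card V := by
  have hbig : 10 ^ 30 ≤ Fintype.card V := by
    have := h.big
    exact_mod_cast this
  set Q0 := crp A (E \ F0) with hQ0
  set SA := A.filter fun v => v ∈ Bad E A ∧ ¬ Even (Q0.filter fun q => ow E A q = v).card with hSA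
  set SB := Aᶜ.filter fun v => v ∈ Bad E A ∧ ¬ Even (Q0.filter fun q => ow E A q = v).card
    with hSB
  obtain ⟨JA, RA, a1, a2, a3, a4, a5, _⟩ := pairing SA
  obtain ⟨JB, RB, b1, b2, b3, b4, b5, _⟩ := pairing SB
  have hJAm : ∀ j ∈ JA, j.1 ∈ SA ∧ j.2 ∈ SA := by
    intro j hj
    have : ({j.1, j.2} : Finset V) ⊆ JA.biUnion (fun j => {j.1, j.2}) :=
      subset_biUnion_of_mem (fun j : V × V => ({j.1, j.2} : Finset V)) hj
    rw [a5] at this
    exact ⟨(mem_sdiff.1 (this (by simp))).1, (mem_sdiff.1 (this (by simp))).1⟩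
  have hJBm : ∀ j ∈ JB, j.1 ∈ SB ∧ j.2 ∈ SB := by
    intro j hj
    have : ({j.1, j.2} : Finset V) ⊆ JB.biUnion (fun j => {j.1, j.2}) :=
      subset_biUnion_of_mem (fun j : V × V => ({j.1, j.2} : Finset V)) hj
    rw [b5] at this
    exact ⟨(mem_sdiff.1 (this (by simp))).1, (mem_sdiff.1 (this (by simp))).1⟩
  have hSAA : ∀ x ∈ SA, x ∈ A ∧ x ∈ Bad E A := fun x hx => by
    rw [hSA, mem_filter] at hx; exact ⟨hx.1, hx.2.1⟩
  have hSBB : ∀ x ∈ SB, x ∉ A ∧ x ∈ Bad E A := fun x hx => by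
    rw [hSB, mem_filter, mem_compl] at hx; exact ⟨hx.1, hx.2.1⟩
  have hcross : ∀ i ∈ JA, ∀ j ∈ JB, Disjoint ({i.1, i.2} : Finset V) {j.1, j.2} := by
    intro i hi j hj
    rw [disjoint_left]
    intro x hx hx'
    have h1 := hJAm i hi
    have h2 := hJBm j hj
    have h3 : x ∈ SA := by
      simp only [mem_insert, mem_singleton] at hx
      rcases hx with rfl | rfl
      · exact h1.1
      · exact h1.2
    have h4 : x ∈ SB := by
      simp only [mem_insert, mem_singleton] at hx'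
      rcases hx' with rfl | rfl
      · exact h2.1
      · exact h2.2
    exact (hSBB x h4).1 (hSAA x h3).1
  obtain ⟨D1, c1, c2, c3, c4, c5⟩ := phase1 h F0 hF0 (JA ∪ JB)
    (by
      intro j hj
      rcases mem_union.1 hj with hj | hj
      · exact a3 j hj
      · exact b3 j hj)
    (by
      intro i hi j hj hij
      rcases mem_union.1 hi with hi | hi <;> rcases mem_union.1 hj with hj | hj
      · exact a4 i hi j hj hij
      · exact hcross i hi j hj
      · exact (hcross j hj i hi).symm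
      · exact b4 i hi j hj hij)
    (by
      intro j hj
      rcases mem_union.1 hj with hj | hj
      · have h1 := hJAm j hj
        have h2 := hSAA _ h1.1
        have h3 := hSAA _ h1.2
        refine ⟨h2.2, h3.2, ?_⟩
        rw [mem_sd]; tauto
      · have h1 := hJBm j hj
        have h2 := hSBB _ h1.1
        have h3 := hSBB _ h1.2
        refine ⟨h2.2, h3.2, ?_⟩
        rw [mem_sd]; tauto)
  have hcov : ∀ v, v ∈ (JA ∪ JB).biUnion (fun j => ({j.1, j.2} : Finset V)) ↔
      v ∈ SA \ RA ∨ v ∈ SB \ RB := by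
    intro v
    rw [union_biUnion, mem_union, a5, b5]
  set F1 := F0 ∪ D1 with hF1
  have hF1d : ∀ x, 10 ^ 6 * dg F1 x ≤ Fintype.card V := by
    intro x
    have h1 : dg F1 x ≤ dg F0 x + dg D1 x := dg_union_le F0 D1 x
    have h2 := hF0 x
    have h3 := c3 x
    omega
  set Q1 := crp A (E \ F1) with hQ1
  have hQ1' : Q1 = Q0 \ crp A D1 := by
    rw [hQ1, hQ0, hF1, ← crp_sdiff, sdiff_sdiff_left]
    rfl
  have hD1Q : crp A D1 ⊆ Q0 := crp_mono c1
  have hQ1even : Even Q1.card := by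
    rw [hQ1', card_sdiff_of_subset hD1Q]
    exact (Nat.even_sub (card_le_card hD1Q)).2 (by simp [hev, c4])
  have hcount : ∀ v, (Q1.filter fun q => ow E A q = v).card +
      (if v ∈ SA \ RA ∨ v ∈ SB \ RB then 1 else 0) =
      (Q0.filter fun q => ow E A q = v).card := by
    intro v
    have h1 := c5 v
    simp only [hcov v] at h1
    rw [← h1, hQ1']
    rw [← card_union_of_disjoint]
    · congr 1
      ext q
      simp only [mem_union, mem_filter, mem_sdiff]
      constructor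
      · rintro (⟨⟨g1, g2⟩, g3⟩ | ⟨g1, g2⟩)
        · exact ⟨g1, g3⟩
        · exact ⟨hD1Q g1, g2⟩
      · rintro ⟨g1, g2⟩
        by_cases g3 : q ∈ crp A D1
        · exact Or.inr ⟨g3, g2⟩
        · exact Or.inl ⟨⟨g1, g3⟩, g2⟩
    · rw [disjoint_left]
      intro q hq hq'
      rw [mem_filter, mem_sdiff] at hq
      rw [mem_filter] at hq'
      exact hq.1.2 hq'.1
  have hRbad : ∀ v ∈ RA ∪ RB, v ∈ Bad E A := by
    intro v hv
    rcases mem_union.1 hv with hv | hv
    · exact (hSAA v (a1 hv)).2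
    · exact (hSBB v (b1 hv)).2
  have hpr : ∀ v : V, ∃ p : V × V, v ∈ RA ∪ RB → p ∈ Q1 ∧ ow E A p = v ∧
      ¬ (p.1 ∈ Bad E A ∧ p.2 ∈ Bad E A) := by
    intro v
    by_cases hv : v ∈ RA ∪ RB
    · obtain ⟨p, hp1, hp2, hp3⟩ := protect h F1 hF1d (hRbad v hv)
      exact ⟨p, fun _ => ⟨hp1, hp2, hp3⟩⟩
    · exact ⟨(v, v), fun h => absurd h hv⟩
  choose f hf using hpr
  set P := (RA ∪ RB).image f with hP
  have hPm : ∀ p ∈ P, p ∈ Q1 ∧ ow E A p ∈ RA ∪ RB ∧ f (ow E A p) = p ∧
      ¬ (p.1 ∈ Bad E A ∧ p.2 ∈ Bad E A) := by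
    intro p hp
    rw [hP, mem_image] at hp
    obtain ⟨v, hv, rfl⟩ := hp
    obtain ⟨g1, g2, g3⟩ := hf v hv
    refine ⟨g1, ?_, ?_, g3⟩
    · rw [g2]; exact hv
    · rw [g2]
  have hPi : ∀ p ∈ P, ∀ q ∈ P, ow E A p = ow E A q → p = q := by
    intro p hp q hq hpq
    rw [← (hPm p hp).2.2.1, ← (hPm q hq).2.2.1, hpq]
  have hPb : ∀ p ∈ P, ow E A p ∈ Bad E A := fun p hp => hRbad _ (hPm p hp).2.1
  have hPQ : P ⊆ Q1 := fun p hp => (hPm p hp).1
  have hBd : ∀ v ∈ Bad E A, Even ((Q1 \ P).filter fun q => ow E A q = v).card := by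
    intro v hv
    have h1 := hcount v
    have hAB : v ∈ A → v ∉ SB := fun g1 g2 => (hSBB v g2).1 g1
    by_cases hvR : v ∈ RA ∪ RB
    · obtain ⟨g1, g2, g3⟩ := hf v hvR
      have hno : ¬ (v ∈ SA \ RA ∨ v ∈ SB \ RB) := by
        rw [mem_sdiff, mem_sdiff]
        rcases mem_union.1 hvR with h2 | h2
        · have h5 := hAB (hSAA v (a1 h2)).1
          rintro (g | g)
          · exact g.2 h2
          · exact h5 g.1
        · have h4 := (hSBB v (b1 h2)).1
          rintro (g | g)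
          · exact h4 (hSAA v g.1).1
          · exact g.2 h2
      rw [if_neg hno] at h1
      have hodd : ¬ Even (Q0.filter fun q => ow E A q = v).card := by
        rcases mem_union.1 hvR with h2 | h2
        · have h3 := a1 h2
          rw [hSA, mem_filter] at h3
          exact h3.2.2
        · have h3 := b1 h2
          rw [hSB, mem_filter] at h3
          exact h3.2.2
      have h2 : (Q1 \ P).filter (fun q => ow E A q = v) =
          (Q1.filter fun q => ow E A q = v).erase (f v) := by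
        ext q
        simp only [mem_filter, mem_sdiff, mem_erase]
        constructor
        · rintro ⟨⟨g4, g5⟩, g6⟩
          refine ⟨fun e => g5 ?_, g4, g6⟩
          rw [e, hP]
          exact mem_image_of_mem f hvR
        · rintro ⟨g4, g5, g6⟩
          refine ⟨⟨g5, fun g7 => g4 ?_⟩, g6⟩
          rw [← (hPm q g7).2.2.1, g6]
      rw [h2, card_erase_of_mem (mem_filter.2 ⟨g1, g2⟩)]
      have h3 : ¬ Even (Q1.filter fun q => ow E A q = v).card := by
        rw [add_zero] at h1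
        rw [h1]; exact hodd
      rw [Nat.not_even_iff_odd] at h3
      exact Nat.Odd.sub_odd h3 odd_one
    · have h2 : (Q1 \ P).filter (fun q => ow E A q = v) = Q1.filter fun q => ow E A q = v := by
        ext q
        simp only [mem_filter, mem_sdiff]
        constructor
        · rintro ⟨⟨g4, g5⟩, g6⟩
          exact ⟨g4, g6⟩
        · rintro ⟨g4, g6⟩
          refine ⟨⟨g4, fun g7 => hvR ?_⟩, g6⟩
          rw [← g6]
          exact (hPm q g7).2.1
      rw [h2]
      rw [mem_union, not_or] at hvR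
      by_cases hodd : Even (Q0.filter fun q => ow E A q = v).card
      · have hno : ¬ (v ∈ SA \ RA ∨ v ∈ SB \ RB) := by
          rintro (g | g)
          · have g1 := (mem_sdiff.1 g).1
            rw [hSA, mem_filter] at g1
            exact g1.2.2 hodd
          · have g1 := (mem_sdiff.1 g).1
            rw [hSB, mem_filter] at g1
            exact g1.2.2 hodd
        rw [if_neg hno, add_zero] at h1
        rw [h1]; exact hodd
      · have hyes : v ∈ SA \ RA ∨ v ∈ SB \ RB := by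
          by_cases hvA : v ∈ A
          · exact Or.inl (mem_sdiff.2 ⟨mem_filter.2 ⟨hvA, hv, hodd⟩, hvR.1⟩)
          · exact Or.inr (mem_sdiff.2 ⟨mem_filter.2 ⟨mem_compl.2 hvA, hv, hodd⟩, hvR.2⟩)
        rw [if_pos hyes] at h1
        rw [← h1] at hodd
        by_contra hc
        apply hodd
        rw [Nat.not_even_iff_odd] at hc
        exact hc.add_odd odd_one
  obtain ⟨J, L, d1, d2, d3, d4, d5, d6, d7⟩ :=
    pairL (ow E A) (Bad E A) P hPi hPb Q1 hPQ hQ1even hBd
  have howA : ∀ p : V × V, p.1 ∈ Bad E A → ow E A p = p.1 := fun p hp => if_pos hp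
  have howB : ∀ p : V × V, p.1 ∉ Bad E A → p.2 ∈ Bad E A → ow E A p = p.2 := by
    intro p hp hp'
    unfold ow
    rw [if_neg hp, if_pos hp']
  obtain ⟨D2, e1, e2, e3, e4, e5⟩ := phase2 h F1 hF1d Q1 (crp_mono sdiff_subset) P L J d2 d3 d4 d5
    d6 d7
    (by
      intro p hp q hq hpb hqb
      obtain ⟨p1, p2, p3, p4⟩ := hPm p hp
      obtain ⟨q1, q2, q3, q4⟩ := hPm q hq
      rw [howA p hpb] at p2 p3
      rw [howA q hqb] at q2 q3
      have hpA := (mem_crp.1 p1).1
      have hqA := (mem_crp.1 q1).1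
      have p5 : p.1 ∈ RA := (mem_union.1 p2).resolve_right fun g => (hSBB _ (b1 g)).1 hpA
      have q5 : q.1 ∈ RA := (mem_union.1 q2).resolve_right fun g => (hSBB _ (b1 g)).1 hqA
      rw [← p3, ← q3, card_le_one.1 a2 _ p5 _ q5])
    (by
      intro p hp q hq hpb hqb
      obtain ⟨p1, p2, p3, p4⟩ := hPm p hp
      obtain ⟨q1, q2, q3, q4⟩ := hPm q hq
      rw [howB p (fun g => p4 ⟨g, hpb⟩) hpb] at p2 p3
      rw [howB q (fun g => q4 ⟨g, hqb⟩) hqb] at q2 q3
      have hpA := (mem_crp.1 p1).2.1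
      have hqA := (mem_crp.1 q1).2.1
      have p5 : p.2 ∈ RB := (mem_union.1 p2).resolve_left fun g => hpA (hSAA _ (a1 g)).1
      have q5 : q.2 ∈ RB := (mem_union.1 q2).resolve_left fun g => hqA (hSAA _ (a1 g)).1
      rw [← p3, ← q3, card_le_one.1 b2 _ p5 _ q5])
  have hD2F : Disjoint D2 F1 := by
    rw [disjoint_left]
    intro e he heF
    by_cases hc : e ∈ cross E A
    · obtain ⟨p, hp, hpe⟩ := exists_crp he hc
      rw [e3, hQ1, mem_crp, hpe, mem_sdiff] at hp
      exact hp.2.2.2 heF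
    · exact disjoint_left.1 e4 (mem_sdiff.2 ⟨he, hc⟩) heF
  rw [hF1, disjoint_union_right] at hD2F
  refine ⟨D1 ∪ D2, ?_, c2.union e2 hD2F.2.symm, ?_, ?_⟩
  · refine union_subset c1 ?_
    intro e he
    exact mem_sdiff.2 ⟨e1 he, disjoint_left.1 hD2F.1 he⟩
  · rw [crp_union, e3, hQ1']
    exact union_sdiff_of_subset hD1Q
  · intro v
    have h1 : (D1 ∪ D2) \ cross E A ⊆ D1 ∪ (D2 \ cross E A) := by
      intro e
      simp only [mem_sdiff, mem_union]
      tauto
    have h2 := (dg_mono h1 v).trans (dg_union_le _ _ v)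
    have h3 := c3 v
    have h4 := e5 v
    omega

end C

end II3

end Pool.Agent.H483C6
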