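import Pool.Agent.H483C6.II3g

/-!
# Section 15.3, part h: the two sides and the flexible pairs (MP_1bffa4_co, helper388)
-/

set_option autoImplicit false
set_option linter.unusedSectionVars false

namespace Pool.Agent.H483C6

open Finset

namespace II3

section C

variable {V : Type} [Fintype V] [DecidableEq V] {E : Finset (Sym2 V)} {A : Finset V}

theorem not_cross_of_mem_sym2 {X : Finset V} (hX : ∀ x ∈ X, sd A x = X) {e : Sym2 V}
    (he : e ∈ X.sym2) : e ∉ cross E A := by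
  induction e using Sym2.ind with
  | _ u w =>
    rw [mk_mem_sym2_iff] at he
    rw [mem_cross, hX u he.1]
    exact fun h => h.2 he.2

/-- the rest inside one side is decomposable -/
theorem side (h : Ctx E A) {m : ℕ}
    (hN : ∀ (E' : Finset (Sym2 V)) (X : Finset V),
      m ≤ X.card → E' ⊆ X.sym2 → (∀ v ∈ X, 1 / 10 * (X.card : ℝ) ≤ (dg E' v : ℝ)) →
      ((X.filter fun v => (dg E' v : ℝ) < (1 - 1 / 1000) * (X.card : ℝ)).card : ℝ) ≤
        1 / 1000 * (X.card : ℝ) → Div6 E' → Dec E')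
    (hm : 4 * m ≤ Fintype.card V) {D : Finset (Sym2 V)} (hDE : D ⊆ E) (hD : Dec D)
    (hcD : cross E A ⊆ D) (hdD : ∀ v, 4000 * dg (D \ cross E A) v ≤ Fintype.card V)
    {X : Finset V} (hX : ∀ x ∈ X, sd A x = X) (v0 : V) (hX0 : sd A v0 = X)
    (hsix : 6 ∣ ((E ∩ X.sym2) \ D).card) : Dec ((E ∩ X.sym2) \ D) := by
  have hlo := h.lo v0
  have hhi := h.hi v0
  rw [hX0] at hlo hhi
  have hbig := h.big
  have h1 : ∀ v ∈ X, dg ((E ∩ X.sym2) \ D) v = dg (E \ D) v := by
    intro v hv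
    unfold dg
    congr 1
    ext u
    simp only [mem_nb, mem_sdiff, mem_inter, mk_mem_sym2_iff]
    constructor
    · rintro ⟨⟨g1, g2⟩, g3⟩
      exact ⟨g1, g3⟩
    · rintro ⟨g1, g3⟩
      refine ⟨⟨g1, hv, ?_⟩, g3⟩
      by_contra hu
      apply g3
      apply hcD
      rw [mem_cross, hX v hv]
      exact ⟨g1, hu⟩
  have h2 : ∀ v, dg (E \ D) v + dg (D \ cross E A) v = dg (E \ cross E A) v := by
    intro v
    have hs : D \ cross E A ⊆ E \ cross E A := sdiff_subset_sdiff hDE Subset.rfl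
    have he : E \ D = (E \ cross E A) \ (D \ cross E A) := by
      ext e
      simp only [mem_sdiff]
      constructor
      · rintro ⟨g1, g2⟩
        exact ⟨⟨g1, fun g => g2 (hcD g)⟩, fun g => g2 g.1⟩
      · rintro ⟨⟨g1, g2⟩, g3⟩
        exact ⟨g1, fun g => g3 ⟨g, g2⟩⟩
    rw [he]
    exact dg_sdiff_add hs v
  have h3 : ∀ v, (dg (E \ cross E A) v : ℝ) - 1 / 4000 * (Fintype.card V : ℝ) ≤
      (dg (E \ D) v : ℝ) := by
    intro v
    have g1 : (dg (E \ D) v : ℝ) + (dg (D \ cross E A) v : ℝ) = (dg (E \ cross E A) v : ℝ) := by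
      exact_mod_cast h2 v
    have g2 : 4000 * (dg (D \ cross E A) v : ℝ) ≤ (Fintype.card V : ℝ) := by
      exact_mod_cast hdD v
    linarith
  apply hN _ X
  · have : (4 : ℝ) * m ≤ (Fintype.card V : ℝ) := by exact_mod_cast hm
    have g : (m : ℝ) ≤ (X.card : ℝ) := by linarith
    exact_mod_cast g
  · intro e he
    rw [mem_sdiff, mem_inter] at he
    exact he.1.2
  · intro v hv
    rw [h1 v hv]
    have g1 := h3 v
    have g2 := h.own v
    linarith
  · have hsub : (X.filter fun v => (dg ((E ∩ X.sym2) \ D) v : ℝ) <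
        (1 - 1 / 1000) * (X.card : ℝ)) ⊆ Bad E A := by
      intro v hv
      rw [mem_filter] at hv
      obtain ⟨hv1, hv2⟩ := hv
      rw [h1 v hv1] at hv2
      by_contra hb
      have g1 := h3 v
      have g2 := h.gen v hb
      rw [hX v hv1] at g2
      linarith
    have g1 : ((X.filter fun v => (dg ((E ∩ X.sym2) \ D) v : ℝ) <
        (1 - 1 / 1000) * (X.card : ℝ)).card : ℝ) ≤ ((Bad E A).card : ℝ) := by
      exact_mod_cast card_le_card hsub
    have g2 := h.bad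
    linarith
  · refine ⟨h.loop.mono fun e he => ?_, ?_, hsix⟩
    · rw [mem_sdiff, mem_inter] at he
      exact he.1.1
    · intro v
      by_cases hv : v ∈ X
      · rw [h1 v hv]
        have g1 := dg_sdiff_add hDE v
        have g2 := h.even v
        rw [← g1] at g2
        exact (Nat.even_add.1 g2).2 (hD.even v)
      · rw [dg_eq_zero_of_notMem (S := X) ?_ hv]
        · exact Even.zero
        · intro e he
          rw [mem_sdiff, mem_inter] at he
          exact he.1.2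

/-- the number of crossing edges is even -/
theorem even_crp (h : Ctx E A) : Even (crp A E).card := by
  have h1 : ∑ v ∈ A, dg E v = 2 * (E ∩ A.sym2).card + (crp A E).card := by
    have g1 : ∑ v ∈ A, dg (E ∩ A.sym2) v = 2 * (E ∩ A.sym2).card :=
      sum_dg_of_subset (h.loop.mono inter_subset_left) inter_subset_right
    have g2 : (crp A E).card = ∑ v ∈ A, (nb E v ∩ Aᶜ).card := by
      unfold crp
      rw [card_filter, sum_product]
      refine sum_congr rfl fun v _ => ?_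
      rw [← card_filter]
      congr 1
      ext u
      simp only [mem_filter, mem_inter, mem_nb]
      tauto
    rw [← g1, g2, ← sum_add_distrib]
    refine sum_congr rfl fun v hv => ?_
    unfold dg
    rw [← card_union_of_disjoint]
    · congr 1
      ext u
      simp only [mem_union, mem_inter, mem_nb, mk_mem_sym2_iff, mem_compl]
      tauto
    · rw [disjoint_left]
      intro u hu hu'
      simp only [mem_inter, mem_nb, mk_mem_sym2_iff, mem_compl] at hu hu'
      exact hu'.2 hu.2.2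
  have h2 : Even (∑ v ∈ A, dg E v) := Finset.even_sum _ fun v _ => h.even v
  rw [h1] at h2
  exact (Nat.even_add.1 h2).1 (even_two_mul _)

/-- covering a flexible pair, one edge inside `A` -/
theorem flex1 (h : Ctx E A) {a b a' b' : V} (hf : Flex E A a b a' b') {F : Finset (Sym2 V)}
    {d : ℕ} (hF : ∀ x, dg F x ≤ d) (hd2 : 2 ≤ d) (hd : 1000 * d ≤ Fintype.card V) :
    ∃ H ⊆ E, IsHex H ∧ s(a, b) ∈ H ∧ s(a', b') ∈ H ∧
      (∀ e ∈ H, e = s(a, b) ∨ e = s(a', b') ∨ e = s(a, a') ∨ (e ∈ Aᶜ.sym2 ∧ e ∉ F)) ∧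
      H ∩ A.sym2 = {s(a, a')} := by
  obtain ⟨ha, ha', hb, hb', hab, hab', haa, hbb, hca, hcb⟩ := hf
  have hside : b ∈ sd A b' := by rw [mem_sd]; tauto
  obtain ⟨q, r, c1, c2, c3, c4, c5, c6, c7, c8⟩ :=
    h.path3 hside hF (O := ∅) (by simpa using hd2) hd hbb.symm
  rw [mem_sd] at c4 c5
  have hq : q ∉ A := fun g => hb' (c4.1 g)
  have hr : r ∉ A := fun g => hb' (c5.1 g)
  have nes : ∀ {x y : V}, x ∈ A → y ∉ A → x ≠ y := fun hx hy e => hy (e ▸ hx)
  have haa' : a ≠ a' := h.loop.ne haa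
  have hn : [a, a', b', q, r, b].Nodup := by
    rw [List.nodup_cons, List.nodup_cons]
    refine ⟨?_, ?_, c1⟩
    · simp only [List.mem_cons, List.not_mem_nil, or_false, not_or]
      exact ⟨haa', nes ha hb', nes ha hq, nes ha hr, nes ha hb⟩
    · simp only [List.mem_cons, List.not_mem_nil, or_false, not_or]
      exact ⟨nes ha' hb', nes ha' hq, nes ha' hr, nes ha' hb⟩
  refine ⟨hex a a' b' q r b, ?_, isHex_hex hn, ?_, ?_, ?_, ?_⟩
  · intro e he
    rw [mem_hex] at he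
    rcases he with rfl | rfl | rfl | rfl | rfl | rfl
    · exact haa
    · exact hab'
    · exact (mem_sdiff.1 c6).1
    · exact (mem_sdiff.1 c7).1
    · exact (mem_sdiff.1 c8).1
    · rw [Sym2.eq_swap]; exact hab
  · rw [mem_hex, Sym2.eq_swap (a := a) (b := b)]; simp
  · rw [mem_hex]; simp
  · intro e he
    rw [mem_hex] at he
    rcases he with rfl | rfl | rfl | rfl | rfl | rfl
    · exact Or.inr (Or.inr (Or.inl rfl))
    · exact Or.inr (Or.inl rfl)
    · refine Or.inr (Or.inr (Or.inr ⟨?_, (mem_sdiff.1 c6).2⟩))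
      rw [mk_mem_sym2_iff, mem_compl, mem_compl]; exact ⟨hb', hq⟩
    · refine Or.inr (Or.inr (Or.inr ⟨?_, (mem_sdiff.1 c7).2⟩))
      rw [mk_mem_sym2_iff, mem_compl, mem_compl]; exact ⟨hq, hr⟩
    · refine Or.inr (Or.inr (Or.inr ⟨?_, (mem_sdiff.1 c8).2⟩))
      rw [mk_mem_sym2_iff, mem_compl, mem_compl]; exact ⟨hr, hb⟩
    · exact Or.inl Sym2.eq_swap
  · ext e
    rw [mem_inter, mem_hex, mem_singleton]
    constructor
    · rintro ⟨rfl | rfl | rfl | rfl | rfl | rfl, g⟩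
      · rfl
      · exact absurd (mk_mem_sym2_iff.1 g).2 hb'
      · exact absurd (mk_mem_sym2_iff.1 g).2 hq
      · exact absurd (mk_mem_sym2_iff.1 g).2 hr
      · exact absurd (mk_mem_sym2_iff.1 g).2 hb
      · exact absurd (mk_mem_sym2_iff.1 g).1 hb
    · rintro rfl
      exact ⟨Or.inl rfl, mk_mem_sym2_iff.2 ⟨ha, ha'⟩⟩

/-- covering a flexible pair, two edges inside `A` -/
theorem flex2 (h : Ctx E A) {a b a' b' : V} (hf : Flex E A a b a' b') {F : Finset (Sym2 V)}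
    {d : ℕ} (hF : ∀ x, dg F x ≤ d) (hd2 : 2 ≤ d) (hd : 1000 * d ≤ Fintype.card V) :
    ∃ H ⊆ E, IsHex H ∧ s(a, b) ∈ H ∧ s(a', b') ∈ H ∧
      (∀ e ∈ H, e = s(a, b) ∨ e = s(a', b') ∨ ((e ∈ A.sym2 ∨ e ∈ Aᶜ.sym2) ∧ e ∉ F)) ∧
      (H ∩ A.sym2).card = 2 := by
  obtain ⟨ha, ha', hb, hb', hab, hab', haa, hbb, hca, hcb⟩ := hf
  have hsA : sd A a = A := if_pos ha
  have hsB : sd A b = Aᶜ := if_neg hb
  rw [← hsA] at hca
  rw [← hsB] at hcb
  obtain ⟨p, c1, c2, _, c4, c5, c6⟩ := h.path2 hca hF (O := ∅) (by simpa using hd2) hd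
  obtain ⟨q, e1, e2, _, e4, e5, e6⟩ := h.path2 hcb hF (O := ∅) (by simpa using hd2) hd
  rw [hsA] at c4
  rw [hsB, mem_compl] at e4
  have nes : ∀ {x y : V}, x ∈ A → y ∉ A → x ≠ y := fun hx hy e => hy (e ▸ hx)
  have haa' : a ≠ a' := h.loop.ne haa
  have hn : [a, p, a', b', q, b].Nodup := by
    simp only [List.nodup_cons, List.mem_cons, List.not_mem_nil, or_false, not_or,
      not_false_iff, List.nodup_nil, and_true]
    exact ⟨⟨Ne.symm c1, haa', nes ha hb', nes ha e4, nes ha hb⟩,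
      ⟨c2, nes c4 hb', nes c4 e4, nes c4 hb⟩, ⟨nes ha' hb', nes ha' e4, nes ha' hb⟩,
      ⟨Ne.symm e2, Ne.symm hbb⟩, e1⟩
  refine ⟨hex a p a' b' q b, ?_, isHex_hex hn, ?_, ?_, ?_, ?_⟩
  · intro e he
    rw [mem_hex] at he
    rcases he with rfl | rfl | rfl | rfl | rfl | rfl
    · exact (mem_sdiff.1 c5).1
    · exact (mem_sdiff.1 c6).1
    · exact hab'
    · rw [Sym2.eq_swap]; exact (mem_sdiff.1 e6).1
    · rw [Sym2.eq_swap]; exact (mem_sdiff.1 e5).1
    · rw [Sym2.eq_swap]; exact hab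
  · rw [mem_hex, Sym2.eq_swap (a := a) (b := b)]; simp
  · rw [mem_hex]; simp
  · intro e he
    rw [mem_hex] at he
    rcases he with rfl | rfl | rfl | rfl | rfl | rfl
    · exact Or.inr (Or.inr ⟨Or.inl (mk_mem_sym2_iff.2 ⟨ha, c4⟩), (mem_sdiff.1 c5).2⟩)
    · exact Or.inr (Or.inr ⟨Or.inl (mk_mem_sym2_iff.2 ⟨c4, ha'⟩), (mem_sdiff.1 c6).2⟩)
    · exact Or.inr (Or.inl rfl)
    · refine Or.inr (Or.inr ⟨Or.inr ?_, ?_⟩)
      · rw [mk_mem_sym2_iff, mem_compl, mem_compl]; exact ⟨hb', e4⟩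
      · rw [Sym2.eq_swap]; exact (mem_sdiff.1 e6).2
    · refine Or.inr (Or.inr ⟨Or.inr ?_, ?_⟩)
      · rw [mk_mem_sym2_iff, mem_compl, mem_compl]; exact ⟨e4, hb⟩
      · rw [Sym2.eq_swap]; exact (mem_sdiff.1 e5).2
    · exact Or.inl Sym2.eq_swap
  · have : hex a p a' b' q b ∩ A.sym2 = {s(a, p), s(p, a')} := by
      ext e
      rw [mem_inter, mem_hex, mem_insert, mem_singleton]
      constructor
      · rintro ⟨rfl | rfl | rfl | rfl | rfl | rfl, g⟩
        · exact Or.inl rfl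
        · exact Or.inr rfl
        · exact absurd (mk_mem_sym2_iff.1 g).2 hb'
        · exact absurd (mk_mem_sym2_iff.1 g).2 e4
        · exact absurd (mk_mem_sym2_iff.1 g).2 hb
        · exact absurd (mk_mem_sym2_iff.1 g).1 hb
      · rintro (rfl | rfl)
        · exact ⟨Or.inl rfl, mk_mem_sym2_iff.2 ⟨ha, c4⟩⟩
        · exact ⟨Or.inr (Or.inl rfl), mk_mem_sym2_iff.2 ⟨c4, ha'⟩⟩
    rw [this, card_pair]
    intro he
    rcases Sym2.eq_iff.1 he with ⟨g1, g2⟩ | ⟨g1, g2⟩
    · exact c1 g1.symm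
    · exact haa' g1

end C

end II3

end Pool.Agent.H483C6
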