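import Pool.Agent.H483C6.AbsB
import Pool.Agent.H483C6.Stmts3

/-!
# Decomposition of nearly complete and nearly complete bipartite graphs, and case I
(MP_1bffa4_co, seat 1, helper760)
-/

set_option autoImplicit false
set_option linter.unusedSectionVars false

namespace Pool.Agent.H483C6

open Finset

namespace NearD

section N

variable {V : Type} [Fintype V] [DecidableEq V]

theorem count_aux {α : Type} [DecidableEq α] {X Y Z : Finset α} (h : X \ Y ⊆ Z) :
    (X.card : ℝ) - (Y.card : ℝ) ≤ (Z.card : ℝ) := by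
  have h1 := card_le_card h
  have h2 := le_card_sdiff Y X
  have h3 : X.card ≤ Z.card + Y.card := by omega
  have h4 : (X.card : ℝ) ≤ (Z.card : ℝ) + (Y.card : ℝ) := by exact_mod_cast h3
  linarith

theorem kk_half {E : Finset (Sym2 V)} {A : Finset V} (h : NearKK E A (1 / 1000)) {u v : V}
    (hu : u ∈ A) (hv : v ∉ A) :
    9 / 100 * ((univ : Finset V).card : ℝ) ≤ ((univ.filter fun a => s(u, a) ∈ E ∧
      9 / 100 * ((univ : Finset V).card : ℝ) ≤
        ((univ.filter fun b => s(a, b) ∈ E ∧ s(b, v) ∈ E).card : ℝ)).card : ℝ) := by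
  classical
  obtain ⟨h1, h2, h3, h4, h5, h6⟩ := id h
  rw [card_univ]
  set n := Fintype.card V with hn
  have hn0 : (0 : ℝ) ≤ (n : ℝ) := Nat.cast_nonneg _
  have key := count_aux (X := nb E u)
    (Y := Aᶜ.filter fun v => (dg E v : ℝ) < (A.card : ℝ) - 1 / 1000 * (n : ℝ))
    (Z := univ.filter fun a => s(u, a) ∈ E ∧
      9 / 100 * (n : ℝ) ≤ ((univ.filter fun b => s(a, b) ∈ E ∧ s(b, v) ∈ E).card : ℝ)) (by
      intro a ha
      rw [mem_sdiff, mem_nb, mem_filter, mem_compl, not_and, not_lt] at ha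
      obtain ⟨ha1, ha2⟩ := ha
      have haA : a ∉ A := TenC.NearKK.bip h ha1 hu
      have ha3 := TenC.NearKK.miss h haA (ha2 haA)
      rw [mem_filter]
      refine ⟨mem_univ _, ha1, ?_⟩
      have k2 := count_aux (X := nb E v) (Y := A \ nb E a)
        (Z := univ.filter fun b => s(a, b) ∈ E ∧ s(b, v) ∈ E) (by
          intro b hb
          rw [mem_sdiff, mem_nb, mem_sdiff, mem_nb, not_and, not_not] at hb
          rw [mem_filter]
          refine ⟨mem_univ _, hb.2 (TenC.NearKK.bip' h hb.1 hv), ?_⟩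
          rw [Sym2.eq_swap]
          exact hb.1)
      have k3 := h4 v
      unfold dg at k3
      linarith)
  have k3 := h4 u
  unfold dg at k3
  linarith

theorem kk_p3 {E : Finset (Sym2 V)} {A : Finset V} (h : NearKK E A (1 / 1000)) :
    P3 E (9 / 100) univ univ := by
  rintro u - v - ⟨x, y, h1, h2, h3⟩
  by_cases hu : u ∈ A
  · have hx := TenC.NearKK.bip h h1 hu
    have hy := TenC.NearKK.bip' h h2 hx
    exact kk_half h hu (TenC.NearKK.bip h h3 hy)
  · have hx := TenC.NearKK.bip' h h1 hu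
    have hy := TenC.NearKK.bip h h2 hx
    have hv := TenC.NearKK.bip' h h3 hy
    exact kk_half (TenC.NearKK.symm h) (mem_compl.2 hu) (by simpa using hv)

theorem k_cod {E : Finset (Sym2 V)} (h : NearK E (1 / 1000)) {a : V}
    (ha : (1 - 1 / 1000) * (Fintype.card V : ℝ) ≤ (dg E a : ℝ)) (v : V) :
    9 / 100 * (Fintype.card V : ℝ) ≤ (cod E a v : ℝ) := by
  classical
  have k2 := count_aux (X := nb E v) (Y := (nb E a)ᶜ) (Z := nb E a ∩ nb E v) (by
    intro b hb
    rw [mem_sdiff, mem_compl, not_not] at hb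
    exact mem_inter.2 ⟨hb.2, hb.1⟩)
  have k3 := h.1 v
  have k4 : ((nb E a)ᶜ.card : ℝ) = (Fintype.card V : ℝ) - (dg E a : ℝ) := by
    rw [card_compl, Nat.cast_sub (card_le_univ _)]
    rfl
  have hn0 : (0 : ℝ) ≤ (Fintype.card V : ℝ) := Nat.cast_nonneg _
  unfold cod
  unfold dg at k3 ha k4
  linarith

/-- many 3-walks between all pairs -/
theorem k_q3 {E : Finset (Sym2 V)} (h : NearK E (1 / 1000)) : Q3 E (9 / 100) := by
  classical
  intro u v
  have key := count_aux (X := nb E u)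
    (Y := univ.filter fun v => (dg E v : ℝ) < (1 - 1 / 1000) * (Fintype.card V : ℝ))
    (Z := (nb E u).filter fun a => 9 / 100 * (Fintype.card V : ℝ) ≤ (cod E a v : ℝ)) (by
      intro a ha
      rw [mem_sdiff, mem_filter, not_and, not_lt] at ha
      rw [mem_filter]
      exact ⟨ha.1, k_cod h (ha.2 (mem_univ _)) v⟩)
  have k3 := h.1 u
  have k4 := h.2
  have hn0 : (0 : ℝ) ≤ (Fintype.card V : ℝ) := Nat.cast_nonneg _
  unfold dg at k3
  unfold dg at k4 key
  linarith

theorem q3_p3 {E : Finset (Sym2 V)} {γ : ℝ} (h : Q3 E γ) : P3 E γ univ univ := by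
  rintro u - v - -
  have h1 := h u v
  rw [card_univ]
  refine h1.trans ?_
  norm_cast
  refine card_le_card ?_
  intro a ha
  rw [mem_filter, mem_nb] at ha
  rw [mem_filter]
  refine ⟨mem_univ _, ha.1, ha.2.trans ?_⟩
  norm_cast
  unfold cod
  refine card_le_card ?_
  intro b hb
  rw [mem_inter, mem_nb, mem_nb] at hb
  rw [mem_filter]
  refine ⟨mem_univ _, hb.1, ?_⟩
  rw [Sym2.eq_swap]
  exact hb.2

theorem q3_threeP {E : Finset (Sym2 V)} {γ : ℝ} (h : Q3 E γ) {r : ℕ}
    (hr : (r : ℝ) < γ * (Fintype.card V : ℝ)) : ThreeP E r := by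
  classical
  intro R hR u v
  have hRr : (R.card : ℝ) ≤ (r : ℝ) := by exact_mod_cast hR
  obtain ⟨a, ha, haR⟩ : ∃ a ∈ (nb E u).filter fun a =>
      γ * (Fintype.card V : ℝ) ≤ (cod E a v : ℝ), a ∉ R := by
    by_contra hcon
    push Not at hcon
    have h1 : ((nb E u).filter fun a => γ * (Fintype.card V : ℝ) ≤ (cod E a v : ℝ)).card ≤
      R.card := card_le_card fun a ha => hcon a ha
    have h2 : (((nb E u).filter fun a =>
      γ * (Fintype.card V : ℝ) ≤ (cod E a v : ℝ)).card : ℝ) ≤ (R.card : ℝ) := by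
      exact_mod_cast h1
    have h3 := h u v
    linarith
  rw [mem_filter, mem_nb] at ha
  obtain ⟨b, hb, hbR⟩ : ∃ b ∈ nb E a ∩ nb E v, b ∉ R := by
    by_contra hcon
    push Not at hcon
    have h1 : (nb E a ∩ nb E v).card ≤ R.card := card_le_card fun a ha => hcon a ha
    have h2 : ((nb E a ∩ nb E v).card : ℝ) ≤ (R.card : ℝ) := by
      exact_mod_cast h1
    have h3 := ha.2
    unfold cod at h3
    linarith
  rw [mem_inter, mem_nb, mem_nb] at hb
  refine ⟨a, b, haR, hbR, ha.1, hb.1, ?_⟩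
  rw [Sym2.eq_swap]
  exact hb.2

end N

theorem sevenC_mono {V : Type} [Fintype V] [DecidableEq V] {E : Finset (Sym2 V)} {r r' c : ℕ}
    (h : SevenC E r' c) (hr : r ≤ r') : SevenC E r c := fun R hR => h R (hR.trans hr)

/-- from robust 3-walks and transformations of seven-cycles to decompositions -/
theorem of_seven (main : S_main) (abs7 : S_abs7) {γ ρ : ℝ} (hγ : 0 < γ) (hρ : 0 < ρ)
    (c n0 : ℕ) : ∃ n1 : ℕ, ∀ (V : Type) [Fintype V] [DecidableEq V] (E : Finset (Sym2 V)),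
      n1 ≤ Fintype.card V → Q3 E γ →
      (n0 ≤ Fintype.card V → SevenC E ⌊ρ * (Fintype.card V : ℝ)⌋₊ c) → Div6 E → Dec E := by
  set ρ' : ℝ := min (ρ / 2) (γ / 2) with hρ'
  have hρ'0 : 0 < ρ' := lt_min (by linarith) (by linarith)
  obtain ⟨h, hm⟩ := main γ ρ' hγ hρ'0
  obtain ⟨c', ha⟩ := abs7 h c
  obtain ⟨n2, hn2⟩ := hm c'
  obtain ⟨n3, hn3⟩ := exists_nat_gt (2 * (c' + 1) / min ρ γ)
  refine ⟨max n0 (max n2 n3), ?_⟩
  intro V _ _ E hn hQ h7 hdiv
  have m0 : n0 ≤ Fintype.card V := le_trans (le_max_left _ _) hn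
  have m2 : n2 ≤ Fintype.card V := le_trans (le_trans (le_max_left _ _) (le_max_right _ _)) hn
  have m3 : n3 ≤ Fintype.card V := le_trans (le_trans (le_max_right _ _) (le_max_right _ _)) hn
  have m3' : (n3 : ℝ) ≤ (Fintype.card V : ℝ) := by exact_mod_cast m3
  have hmin : 0 < min ρ γ := lt_min hρ hγ
  have hbig : 2 * ((c' : ℝ) + 1) < min ρ γ * (Fintype.card V : ℝ) := by
    rw [div_lt_iff₀ hmin] at hn3
    nlinarith
  have hn0' : (0 : ℝ) ≤ (Fintype.card V : ℝ) := Nat.cast_nonneg _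
  have hb1 : min ρ γ * (Fintype.card V : ℝ) ≤ ρ * (Fintype.card V : ℝ) :=
    mul_le_mul_of_nonneg_right (min_le_left _ _) hn0'
  have hb2 : min ρ γ * (Fintype.card V : ℝ) ≤ γ * (Fintype.card V : ℝ) :=
    mul_le_mul_of_nonneg_right (min_le_right _ _) hn0'
  have hb3 : ρ' * (Fintype.card V : ℝ) ≤ ρ / 2 * (Fintype.card V : ℝ) :=
    mul_le_mul_of_nonneg_right (min_le_left _ _) hn0'
  have hb4 : ρ' * (Fintype.card V : ℝ) ≤ γ / 2 * (Fintype.card V : ℝ) :=
    mul_le_mul_of_nonneg_right (min_le_right _ _) hn0'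
  have hfl : ((⌊ρ' * (Fintype.card V : ℝ)⌋₊ : ℕ) : ℝ) ≤ ρ' * (Fintype.card V : ℝ) :=
    Nat.floor_le (by positivity)
  refine hn2 V E hdiv.loopless m2 (q3_p3 hQ) ?_ hdiv
  refine ha _ V E hdiv.loopless (q3_threeP hQ ?_) (sevenC_mono (h7 m0) ?_)
  · push_cast
    linarith
  · apply Nat.le_floor
    push_cast
    linarith

end NearD

open NearD

theorem nearKK_of (main : S_main) : S_nearKK := by
  obtain ⟨ρ, hρ, habs⟩ := absB
  obtain ⟨h, hm⟩ := main (9 / 100) ρ (by norm_num) hρ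
  obtain ⟨c, n1, ha⟩ := habs h
  obtain ⟨n2, hn2⟩ := hm c
  refine ⟨max n1 n2, ?_⟩
  intro V _ _ E A hn hNK hdiv
  exact hn2 V E hdiv.loopless (le_trans (le_max_right _ _) hn) (kk_p3 hNK)
    (ha V E A hdiv.loopless (le_trans (le_max_left _ _) hn) hNK) hdiv

theorem nearK_of (main : S_main) (abs7 : S_abs7) (sevenN : S_sevenN) : S_nearK := by
  obtain ⟨ρ, hρ, c, n0, h7⟩ := sevenN
  obtain ⟨n1, hn1⟩ := of_seven main abs7 (γ := 9 / 100) (by norm_num) hρ c n0
  refine ⟨n1, ?_⟩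
  intro V _ _ E hn hNK hdiv
  exact hn1 V E hn (k_q3 hNK) (fun hn0 => h7 V E hdiv.loopless hn0 hNK) hdiv

theorem caseI_of (main : S_main) (abs7 : S_abs7) (sevenQ : S_sevenQ) : S_caseI := by
  intro γ hγ
  obtain ⟨ρ, hρ, c, n0, h7⟩ := sevenQ γ hγ
  obtain ⟨n1, hn1⟩ := of_seven main abs7 hγ hρ c n0
  refine ⟨n1, ?_⟩
  intro V _ _ E hn hQ hdeg hdiv
  exact hn1 V E hn hQ (fun hn0 => h7 V E hdiv.loopless hn0 hQ hdeg) hdiv

namespace NearD

section Sub

variable {V : Type} [Fintype V] [DecidableEq V] (E : Finset (Sym2 V)) (X : Finset V)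

/-- the graph on the subtype -/
def sub : Finset (Sym2 {x // x ∈ X}) := univ.filter fun e => e.map Subtype.val ∈ E

variable {E X}

theorem mem_sub {x y : {x // x ∈ X}} : s(x, y) ∈ sub E X ↔ s(x.1, y.1) ∈ E := by
  simp [sub]

theorem sub_image (hE : E ⊆ X.sym2) : (sub E X).image (Sym2.map Subtype.val) = E := by
  ext e
  induction e using Sym2.ind with
  | _ x y =>
    rw [mem_image]
    constructor
    · rintro ⟨e', he', h⟩
      rw [← h]
      simp only [sub, mem_filter] at he'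
      exact he'.2
    · intro h
      have h1 := mk_mem_sym2_iff.1 (hE h)
      exact ⟨s(⟨x, h1.1⟩, ⟨y, h1.2⟩), mem_sub.2 h, rfl⟩

theorem sub_dg (hE : E ⊆ X.sym2) (x : {x // x ∈ X}) : dg (sub E X) x = dg E x.1 := by
  unfold dg
  have h1 : (nb (sub E X) x).image Subtype.val = nb E x.1 := by
    ext y
    rw [mem_image, mem_nb]
    constructor
    · rintro ⟨z, hz, rfl⟩
      rw [mem_nb, mem_sub] at hz
      exact hz
    · intro h
      have h1 := mk_mem_sym2_iff.1 (hE h)
      exact ⟨⟨y, h1.2⟩, by rw [mem_nb, mem_sub]; exact h, rfl⟩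
  rw [← h1, card_image_of_injective _ Subtype.val_injective]

end Sub

end NearD

theorem nearKsub_of (nearK : S_nearK) : S_nearKsub := by
  obtain ⟨n0, hn0⟩ := nearK
  refine ⟨n0, ?_⟩
  intro V _ _ E X hn hE hdeg hfew hdiv
  have hc : Fintype.card {x // x ∈ X} = X.card := Fintype.card_coe X
  rw [← sub_image hE]
  refine TenC.dec_image Subtype.val_injective ?_
  refine hn0 {x // x ∈ X} (sub E X) (by rw [hc]; exact hn) ⟨?_, ?_⟩ ⟨?_, ?_, ?_⟩
  · intro v
    rw [hc, sub_dg hE]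
    exact hdeg v.1 v.2
  · rw [hc]
    refine le_trans ?_ hfew
    norm_cast
    rw [← card_image_of_injective _ Subtype.val_injective]
    refine card_le_card ?_
    intro y hy
    rw [mem_image] at hy
    obtain ⟨x, hx, rfl⟩ := hy
    rw [mem_filter, sub_dg hE] at hx
    rw [mem_filter]
    exact ⟨x.2, by simpa using hx.2⟩
  · intro e he hd
    induction e using Sym2.ind with
    | _ x y =>
      rw [NearD.mem_sub] at he
      refine hdiv.loopless _ he ?_
      rw [Sym2.mk_isDiag_iff] at hd ⊢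
      rw [hd]
  · intro v
    rw [sub_dg hE]
    exact hdiv.even _
  · have h1 : (sub E X).card = E.card := by
      conv_rhs => rw [← sub_image hE]
      rw [card_image_of_injective _ (Sym2.map.injective Subtype.val_injective)]
    rw [h1]
    exact hdiv.six

end Pool.Agent.H483C6
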