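import Pool.Agent.H483C6.Basic
import Pool.Agent.H483C6.Stmts3

/-!
# Transformations of seven-cycles, non-extremal case (section 9), MP_1bffa4_co, helper168
-/

set_option autoImplicit false
set_option linter.unusedSectionVars false
set_option linter.unusedVariables false
set_option linter.unusedSimpArgs false

namespace Pool.Agent.H483C6

open Finset

namespace SQ

section A

variable {V : Type} [DecidableEq V]

/-- transformation of `D` into `D'` with edges of `E` outside `F` -/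
def Tr (E F : Finset (Sym2 V)) (c : ℕ) (D D' : Finset (Sym2 V)) : Prop :=
  ∃ T ⊆ E, Disjoint T F ∧ T.card ≤ c ∧ Dec (T ∪ D) ∧ Dec (T ∪ D')

theorem Tr.symm {E F D D' : Finset (Sym2 V)} {c : ℕ} (h : Tr E F c D D') : Tr E F c D' D := by
  obtain ⟨T, h1, h2, h3, h4, h5⟩ := h
  exact ⟨T, h1, h2, h3, h5, h4⟩

theorem Tr.mono {E F F' D D' : Finset (Sym2 V)} {c c' : ℕ} (hF : F ⊆ F') (hc : c' ≤ c)
    (h : Tr E F' c' D D') : Tr E F c D D' := by
  obtain ⟨T, h1, h2, h3, h4, h5⟩ := h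
  exact ⟨T, h1, h2.mono_right hF, h3.trans hc, h4, h5⟩

theorem Tr.trans {E F M D D' T1 : Finset (Sym2 V)} {c : ℕ} (hD : D ⊆ F) (hD' : D' ⊆ F)
    (hM : M ⊆ E) (hMF : Disjoint M F) (hT : T1 ⊆ E) (hTF : Disjoint T1 F) (hTM : Disjoint T1 M)
    (h1 : Dec (T1 ∪ D)) (h2 : Dec (T1 ∪ M)) (h3 : Tr E (F ∪ M ∪ T1) c M D') :
    Tr E F (T1.card + M.card + c) D D' := by
  obtain ⟨T2, e1, e2, e3, e4, e5⟩ := h3
  rw [disjoint_union_right, disjoint_union_right] at e2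
  obtain ⟨⟨e2F, e2M⟩, e2T⟩ := e2
  refine ⟨T1 ∪ M ∪ T2, union_subset (union_subset hT hM) e1, ?_, ?_, ?_, ?_⟩
  · rw [disjoint_union_left, disjoint_union_left]
    exact ⟨⟨hTF, hMF⟩, e2F⟩
  · refine (card_union_le _ _).trans ?_
    have := card_union_le T1 M
    omega
  · have : T1 ∪ M ∪ T2 ∪ D = (T1 ∪ D) ∪ (T2 ∪ M) := by
      ext x; simp only [mem_union]; tauto
    rw [this]
    refine h1.union e4 ?_
    rw [disjoint_union_left, disjoint_union_right, disjoint_union_right]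
    exact ⟨⟨e2T.symm, hTM⟩, ⟨(e2F.mono_right hD).symm, (hMF.mono_right hD).symm⟩⟩
  · have : T1 ∪ M ∪ T2 ∪ D' = (T1 ∪ M) ∪ (T2 ∪ D') := by
      ext x; simp only [mem_union]; tauto
    rw [this]
    refine h2.union e5 ?_
    rw [disjoint_union_left, disjoint_union_right, disjoint_union_right]
    exact ⟨⟨e2T.symm, (hTF.mono_right hD')⟩, ⟨e2M.symm, (hMF.mono_right hD')⟩⟩

/-- the vertices of a set of edges -/
def vt (F : Finset (Sym2 V)) : Finset V := F.biUnion Sym2.toFinset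

theorem subset_vt (F : Finset (Sym2 V)) : F ⊆ (vt F).sym2 := by
  intro e he
  rw [mem_sym2_iff]
  intro a ha
  unfold vt
  rw [mem_biUnion]
  exact ⟨e, he, Sym2.mem_toFinset.2 ha⟩

theorem card_vt (F : Finset (Sym2 V)) : (vt F).card ≤ 2 * F.card := by
  unfold vt
  refine (card_biUnion_le).trans ?_
  rw [mul_comm, ← smul_eq_mul, ← sum_const]
  refine sum_le_sum fun e _ => ?_
  induction e using Sym2.ind with
  | _ x y =>
    rw [Sym2.toFinset_mk_eq]
    exact card_le_two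

theorem mem_hept {a b c d e f g : V} {x : Sym2 V} : x ∈ hept a b c d e f g ↔
    x = s(a, b) ∨ x = s(b, c) ∨ x = s(c, d) ∨ x = s(d, e) ∨ x = s(e, f) ∨ x = s(f, g) ∨
      x = s(g, a) := by
  simp [hept]

theorem card_hept_le (a b c d e f g : V) : (hept a b c d e f g).card ≤ 7 := by
  unfold hept
  refine (card_insert_le _ _).trans ?_
  refine Nat.succ_le_succ ((card_insert_le _ _).trans ?_)
  refine Nat.succ_le_succ ((card_insert_le _ _).trans ?_)
  refine Nat.succ_le_succ ((card_insert_le _ _).trans ?_)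
  refine Nat.succ_le_succ ((card_insert_le _ _).trans ?_)
  refine Nat.succ_le_succ ((card_insert_le _ _).trans ?_)
  simp

/-- the five edges of a closed walk -/
def pent (z w y t s : V) : Finset (Sym2 V) :=
  {s(z, w), s(w, y), s(y, t), s(t, s), s(s, z)}

theorem mem_pent {z w y t s : V} {x : Sym2 V} : x ∈ pent z w y t s ↔
    x = s(z, w) ∨ x = s(w, y) ∨ x = s(y, t) ∨ x = s(t, s) ∨ x = s(s, z) := by
  simp [pent]

theorem card_pent_le (z w y t s : V) : (pent z w y t s).card ≤ 5 := by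
  unfold pent
  refine (card_insert_le _ _).trans ?_
  refine Nat.succ_le_succ ((card_insert_le _ _).trans ?_)
  refine Nat.succ_le_succ ((card_insert_le _ _).trans ?_)
  refine Nat.succ_le_succ ((card_insert_le _ _).trans ?_)
  simp

theorem disj_m1 {z a b y c d e w s t : V} (h : [z, a, b, y, c, d, e, w, s, t].Nodup) :
    Disjoint (hex z a b y t s) (hex z w y c d e) := by
  simp only [List.nodup_cons, List.mem_cons, List.not_mem_nil, or_false, not_or, not_false_iff,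
    List.nodup_nil, and_true] at h
  rw [disjoint_left]
  intro x hx hx'
  rw [mem_hex] at hx hx'
  obtain ⟨⟨h1, h2, h3, h4, h5, h6, h7, h8, h9⟩, ⟨i1, i2, i3, i4, i5, i6, i7, i8⟩,
    ⟨j1, j2, j3, j4, j5, j6, j7⟩, ⟨k1, k2, k3, k4, k5, k6⟩, ⟨l1, l2, l3, l4, l5⟩,
    ⟨m1, m2, m3, m4⟩, ⟨n1, n2, n3⟩, ⟨o1, o2⟩, p1⟩ := h
  rcases hx with rfl | rfl | rfl | rfl | rfl | rfl <;>
  rcases hx' with hx' | hx' | hx' | hx' | hx' | hx' <;>
  (rw [Sym2.eq_iff] at hx'; grind)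

theorem key12 (A B C D E F G H I J K L : Prop) :
    ((A ∨ B ∨ C ∨ D ∨ E) ∨ (F ∨ G ∨ H ∨ I ∨ J ∨ K ∨ L)) ↔
      ((F ∨ G ∨ H ∨ C ∨ D ∨ E) ∨ (A ∨ B ∨ I ∨ J ∨ K ∨ L)) := by tauto

theorem dec_m1 {z a b y c d e w s t : V} (h : [z, a, b, y, c, d, e, w, s, t].Nodup) :
    Dec (pent z w y t s ∪ hept z a b y c d e) := by
  have h0 : pent z w y t s ∪ hept z a b y c d e = hex z a b y t s ∪ hex z w y c d e := by
    ext x
    rw [mem_union, mem_union, mem_pent, mem_hept, mem_hex, mem_hex]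
    exact key12 _ _ _ _ _ _ _ _ _ _ _ _
  rw [h0]
  have hd := disj_m1 h
  refine (dec_hex ?_).union (dec_hex ?_) hd
  · simp only [List.nodup_cons, List.mem_cons, List.not_mem_nil, or_false, not_or, not_false_iff,
      List.nodup_nil, and_true] at h ⊢
    grind
  · simp only [List.nodup_cons, List.mem_cons, List.not_mem_nil, or_false, not_or, not_false_iff,
      List.nodup_nil, and_true] at h ⊢
    grind

end A


section B

variable {V : Type} [Fintype V] [DecidableEq V]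

/-- standing hypotheses -/
structure Hyp (E : Finset (Sym2 V)) (γ : ℝ) : Prop where
  pos : 0 < γ
  le1 : γ ≤ 1
  big : 10000 ≤ γ ^ 4 / 10 ^ 5 * (Fintype.card V : ℝ)
  ll : Loopless E
  q : Q3 E γ
  deg : ∀ v, Fintype.card V ≤ 2 * dg E v + 1

section consts

variable {E : Finset (Sym2 V)} {γ : ℝ} (h : Hyp E γ)

include h in
theorem Hyp.c1 : γ ^ 4 / 10 ^ 4 * (Fintype.card V : ℝ) =
    10 * (γ ^ 4 / 10 ^ 5 * (Fintype.card V : ℝ)) := by ring

include h in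
theorem Hyp.c2 : 1000 * (γ ^ 4 / 10 ^ 5 * (Fintype.card V : ℝ)) ≤
    γ ^ 2 / 100 * (Fintype.card V : ℝ) := by
  have h1 : (0 : ℝ) ≤ (Fintype.card V : ℝ) := Nat.cast_nonneg _
  have h2 : γ ^ 4 ≤ γ ^ 2 := pow_le_pow_of_le_one h.pos.le h.le1 (by norm_num)
  have h3 := mul_le_mul_of_nonneg_right h2 h1
  nlinarith

include h in
theorem Hyp.c3 : 100 * (γ ^ 2 / 100 * (Fintype.card V : ℝ)) ≤ γ * (Fintype.card V : ℝ) := by
  have h1 : (0 : ℝ) ≤ (Fintype.card V : ℝ) := Nat.cast_nonneg _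
  have h2 : γ ^ 2 ≤ γ ^ 1 := pow_le_pow_of_le_one h.pos.le h.le1 (by norm_num)
  have h3 := mul_le_mul_of_nonneg_right h2 h1
  nlinarith

include h in
theorem Hyp.c4 : γ * (Fintype.card V : ℝ) ≤ (Fintype.card V : ℝ) := by
  have h1 : (0 : ℝ) ≤ (Fintype.card V : ℝ) := Nat.cast_nonneg _
  nlinarith [h.le1]

end consts

theorem fresh {S R : Finset V} (h : (R.card : ℝ) < (S.card : ℝ)) : ∃ x ∈ S, x ∉ R :=
  exists_mem_notMem_of_card_lt_card (by exact_mod_cast h)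

theorem cod_comm (E : Finset (Sym2 V)) (u v : V) : cod E u v = cod E v u := by
  unfold cod
  rw [inter_comm]

theorem mem_Bn {E : Finset (Sym2 V)} {κ : ℝ} {z y : V} : y ∈ Bn E κ z ↔
    y ≠ z ∧ κ * (Fintype.card V : ℝ) ≤ (cod E y z : ℝ) := by
  simp [Bn]

theorem mem_On {E : Finset (Sym2 V)} {κ : ℝ} {z y : V} : y ∈ On E κ z ↔
    y ≠ z ∧ (cod E y z : ℝ) < κ * (Fintype.card V : ℝ) := by
  simp [On]

theorem mem_Bn_symm {E : Finset (Sym2 V)} {κ : ℝ} {z y : V} (h : y ∈ Bn E κ z) :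
    z ∈ Bn E κ y := by
  rw [mem_Bn] at *
  exact ⟨h.1.symm, by rw [cod_comm]; exact h.2⟩

theorem mem_On_symm {E : Finset (Sym2 V)} {κ : ℝ} {z y : V} (h : y ∈ On E κ z) :
    z ∈ On E κ y := by
  rw [mem_On] at *
  exact ⟨h.1.symm, by rw [cod_comm]; exact h.2⟩

theorem Bn_or_On (E : Finset (Sym2 V)) (κ : ℝ) {z y : V} (h : y ≠ z) :
    y ∈ Bn E κ z ∨ y ∈ On E κ z := by
  rw [mem_Bn, mem_On]
  rcases le_or_gt (κ * (Fintype.card V : ℝ)) (cod E y z : ℝ) with h1 | h1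
  · exact Or.inl ⟨h, h1⟩
  · exact Or.inr ⟨h, h1⟩

/-- fresh common neighbour -/
theorem cn {E : Finset (Sym2 V)} {κ : ℝ} {z y : V} (hy : y ∈ Bn E κ z) {R : Finset V}
    (hR : (R.card : ℝ) < κ * (Fintype.card V : ℝ)) :
    ∃ w, w ∉ R ∧ s(z, w) ∈ E ∧ s(w, y) ∈ E := by
  rw [mem_Bn] at hy
  obtain ⟨w, hw, hwR⟩ := fresh (S := nb E y ∩ nb E z) (R := R) (hR.trans_le hy.2)
  rw [mem_inter, mem_nb, mem_nb] at hw
  exact ⟨w, hwR, hw.2, by rw [Sym2.eq_swap]; exact hw.1⟩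

/-- fresh 3-path -/
theorem tp {E : Finset (Sym2 V)} {γ : ℝ} (h : Hyp E γ) (u v : V) (R : Finset V)
    (hR : (R.card : ℝ) < γ * (Fintype.card V : ℝ)) :
    ∃ a b, a ∉ R ∧ b ∉ R ∧ a ≠ b ∧ s(u, a) ∈ E ∧ s(a, b) ∈ E ∧ s(b, v) ∈ E := by
  obtain ⟨a, ha, haR⟩ := fresh (hR.trans_le (h.q u v))
  rw [mem_filter, mem_nb] at ha
  obtain ⟨b, hb, hbR⟩ := fresh (S := nb E a ∩ nb E v) (R := R) (hR.trans_le ha.2)
  rw [mem_inter, mem_nb, mem_nb] at hb
  exact ⟨a, b, haR, hbR, h.ll.ne hb.1, ha.1, hb.1, by rw [Sym2.eq_swap]; exact hb.2⟩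

theorem nbB {E : Finset (Sym2 V)} {γ : ℝ} (h : Hyp E γ) (u z : V) :
    γ * (Fintype.card V : ℝ) - 1 ≤ ((nb E u ∩ Bn E (γ ^ 4 / 10 ^ 4) z).card : ℝ) := by
  have h1 := h.q u z
  have h2 : ((nb E u).filter fun a => γ * (Fintype.card V : ℝ) ≤ (cod E a z : ℝ)) ⊆
      insert z (nb E u ∩ Bn E (γ ^ 4 / 10 ^ 4) z) := by
    intro a ha
    rw [mem_filter] at ha
    rw [mem_insert, mem_inter, mem_Bn]
    by_cases haz : a = z
    · exact Or.inl haz
    · refine Or.inr ⟨ha.1, haz, ?_⟩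
      have e1 := h.c1
      have e2 := h.c2
      have e3 := h.c3
      have e4 := h.big
      linarith [ha.2]
  have h3 := card_le_card h2
  have h4 := card_insert_le z (nb E u ∩ Bn E (γ ^ 4 / 10 ^ 4) z)
  have h5 : (((nb E u).filter fun a => γ * (Fintype.card V : ℝ) ≤ (cod E a z : ℝ)).card : ℝ) ≤
      ((nb E u ∩ Bn E (γ ^ 4 / 10 ^ 4) z).card : ℝ) + 1 := by exact_mod_cast h3.trans h4
  linarith

theorem nbBf {E : Finset (Sym2 V)} {γ : ℝ} (h : Hyp E γ) (u z : V) (R : Finset V)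
    (hR : (R.card : ℝ) < γ * (Fintype.card V : ℝ) - 1) :
    ∃ a, a ∉ R ∧ s(u, a) ∈ E ∧ a ∈ Bn E (γ ^ 4 / 10 ^ 4) z := by
  obtain ⟨a, ha, haR⟩ := fresh (hR.trans_le (nbB h u z))
  rw [mem_inter, mem_nb] at ha
  exact ⟨a, haR, ha.1, ha.2⟩

/-- a seven-cycle through an edge, opposite to `z` -/
theorem cyc {E : Finset (Sym2 V)} {γ : ℝ} (h : Hyp E γ) {z y y' : V} {R : Finset V}
    (hz : z ∈ R) (hy : y ∈ R) (hy' : y' ∈ R) (hzy : z ≠ y) (hzy' : z ≠ y') (he : s(y, y') ∈ E)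
    (hR : (R.card : ℝ) + 2 < γ * (Fintype.card V : ℝ)) :
    ∃ p q q' p', p ∉ R ∧ q ∉ R ∧ q' ∉ R ∧ p' ∉ R ∧ [z, p, q, y, y', q', p'].Nodup ∧
      hept z p q y y' q' p' ⊆ E := by
  obtain ⟨p, q, hp, hq, hpq, e1, e2, e3⟩ := tp h z y R (by linarith)
  obtain ⟨p', q', hp', hq', hpq', e1', e2', e3'⟩ := tp h z y' (insert p (insert q R)) (by
    have h1 := card_insert_le p (insert q R)
    have h2 := card_insert_le q R
    have h3 : ((insert p (insert q R)).card : ℝ) ≤ (R.card : ℝ) + 2 := by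
      exact_mod_cast (by omega)
    linarith)
  simp only [mem_insert, not_or] at hp' hq'
  have hyy := h.ll.ne he
  refine ⟨p, q, q', p', hp, hq, hq'.2.2, hp'.2.2, ?_, ?_⟩
  · simp only [List.nodup_cons, List.mem_cons, List.not_mem_nil, or_false, not_or, not_false_iff,
      List.nodup_nil, and_true]
    obtain ⟨i1, i2, i3⟩ := hp'
    obtain ⟨j1, j2, j3⟩ := hq'
    clear e1 e2 e3 e1' e2' e3' he hR h
    repeat' apply And.intro
    all_goals grind
  · intro x hx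
    rw [mem_hept] at hx
    rcases hx with rfl | rfl | rfl | rfl | rfl | rfl | rfl
    · exact e1
    · exact e2
    · exact e3
    · exact he
    · rw [Sym2.eq_swap]; exact e3'
    · rw [Sym2.eq_swap]; exact e2'
    · rw [Sym2.eq_swap]; exact e1'

theorem key7 (A B C D E F G : Prop) : (A ∨ B ∨ C ∨ D ∨ E ∨ F ∨ G) ↔
    (C ∨ B ∨ A ∨ G ∨ F ∨ E ∨ D) := by tauto

theorem key7' (A B C D E F G : Prop) : (A ∨ B ∨ C ∨ D ∨ E ∨ F ∨ G) ↔
    (G ∨ F ∨ E ∨ D ∨ C ∨ B ∨ A) := by tauto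

theorem Wd.symm {z y : V} {D : Finset (Sym2 V)} (h : Wd z y D) : Wd y z D := by
  obtain ⟨a, b, c, d, e, hn, rfl⟩ := h
  refine ⟨b, a, e, d, c, ?_, ?_⟩
  · simp only [List.nodup_cons, List.mem_cons, List.not_mem_nil, or_false, not_or, not_false_iff,
      List.nodup_nil, and_true] at hn ⊢
    grind
  · ext x
    simp only [mem_hept]
    rw [Sym2.eq_swap (a := z) (b := a), Sym2.eq_swap (a := a) (b := b),
      Sym2.eq_swap (a := b) (b := y), Sym2.eq_swap (a := y) (b := c), Sym2.eq_swap (a := c) (b := d),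
      Sym2.eq_swap (a := d) (b := e), Sym2.eq_swap (a := e) (b := z)]
    exact key7 _ _ _ _ _ _ _

theorem Wd_cyc {z p q y y' q' p' : V} (h : [z, p, q, y, y', q', p'].Nodup) :
    Wd z y (hept z p q y y' q' p') := ⟨p, q, y', q', p', h, rfl⟩

theorem Wd_cyc' {z p q y y' q' p' : V} (h : [z, p, q, y, y', q', p'].Nodup) :
    Wd z y' (hept z p q y y' q' p') := by
  refine ⟨p', q', y, q, p, ?_, ?_⟩
  · simp only [List.nodup_cons, List.mem_cons, List.not_mem_nil, or_false, not_or, not_false_iff,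
      List.nodup_nil, and_true] at h ⊢
    grind
  · ext x
    simp only [mem_hept]
    rw [Sym2.eq_swap (a := z) (b := p), Sym2.eq_swap (a := p) (b := q),
      Sym2.eq_swap (a := q) (b := y), Sym2.eq_swap (a := y) (b := y'),
      Sym2.eq_swap (a := y') (b := q'), Sym2.eq_swap (a := q') (b := p'),
      Sym2.eq_swap (a := p') (b := z)]
    exact key7' _ _ _ _ _ _ _

theorem Wd.ne {z y : V} {D : Finset (Sym2 V)} (h : Wd z y D) : z ≠ y := by
  obtain ⟨a, b, c, d, e, hn, rfl⟩ := h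
  simp only [List.nodup_cons, List.mem_cons, List.not_mem_nil, or_false, not_or, not_false_iff,
    List.nodup_nil, and_true] at hn
  tauto

theorem Wd.mem {z y : V} {D : Finset (Sym2 V)} {R : Finset V} (h : Wd z y D) (hD : D ⊆ R.sym2) :
    z ∈ R ∧ y ∈ R := by
  obtain ⟨a, b, c, d, e, hn, rfl⟩ := h
  have h1 : s(z, a) ∈ hept z a b y c d e := by simp only [mem_hept, true_or, or_true]
  have h2 : s(b, y) ∈ hept z a b y c d e := by simp only [mem_hept, true_or, or_true]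
  exact ⟨(mk_mem_sym2_iff.1 (hD h1)).1, (mk_mem_sym2_iff.1 (hD h2)).2⟩

theorem Wd.card_le {z y : V} {D : Finset (Sym2 V)} (h : Wd z y D) : D.card ≤ 7 := by
  obtain ⟨a, b, c, d, e, hn, rfl⟩ := h
  exact card_hept_le _ _ _ _ _ _ _

theorem Wd.dec {z y w t s : V} {D : Finset (Sym2 V)} {R : Finset V} (h : Wd z y D)
    (hD : D ⊆ R.sym2) (hw : w ∉ R) (ht : t ∉ R) (hs : s ∉ R) (hn : [w, t, s].Nodup) :
    Dec (pent z w y t s ∪ D) := by
  obtain ⟨a, b, c, d, e, hn', rfl⟩ := h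
  apply dec_m1
  have h1 : s(z, a) ∈ hept z a b y c d e := by simp only [mem_hept, true_or, or_true]
  have h2 : s(b, y) ∈ hept z a b y c d e := by simp only [mem_hept, true_or, or_true]
  have h3 : s(c, d) ∈ hept z a b y c d e := by simp only [mem_hept, true_or, or_true]
  have h4 : s(e, z) ∈ hept z a b y c d e := by simp only [mem_hept, true_or, or_true]
  have g1 := mk_mem_sym2_iff.1 (hD h1)
  have g2 := mk_mem_sym2_iff.1 (hD h2)
  have g3 := mk_mem_sym2_iff.1 (hD h3)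
  have g4 := mk_mem_sym2_iff.1 (hD h4)
  clear hD h1 h2 h3 h4
  simp only [List.nodup_cons, List.mem_cons, List.not_mem_nil, or_false, not_or, not_false_iff,
    List.nodup_nil, and_true] at hn hn' ⊢
  obtain ⟨⟨h1, h2, h3, h4, h5, h6⟩, ⟨i1, i2, i3, i4, i5⟩, ⟨j1, j2, j3, j4⟩, ⟨k1, k2, k3⟩,
    ⟨l1, l2⟩, m1⟩ := hn'
  obtain ⟨⟨n1, n2⟩, n3⟩ := hn
  obtain ⟨o1, o2⟩ := g1
  obtain ⟨o3, o4⟩ := g2
  obtain ⟨o5, o6⟩ := g3
  obtain ⟨o7, -⟩ := g4
  repeat' apply And.intro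
  all_goals grind

theorem pent_disj {z w y t s : V} {R : Finset V} (hw : w ∉ R) (ht : t ∉ R) (hs : s ∉ R) :
    Disjoint (pent z w y t s) R.sym2 := by
  rw [disjoint_left]
  intro x hx hx'
  rw [mem_pent] at hx
  rcases hx with rfl | rfl | rfl | rfl | rfl <;> rw [mk_mem_sym2_iff] at hx' <;> tauto

end B

end SQ

end Pool.Agent.H483C6
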