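import Pool.Agent.H483C6.SQ1

/-!
# Moving along a path (section 9), MP_1bffa4_co, helper168
-/

set_option autoImplicit false
set_option linter.unusedSectionVars false
set_option linter.unusedVariables false
set_option linter.unusedSimpArgs false

namespace Pool.Agent.H483C6

open Finset

namespace SQ

section D

variable {V : Type} [Fintype V] [DecidableEq V]

theorem notMem_cyc {R : Finset V} {z p q y y' q' p' u v : V} (hp : p ∉ R) (hq : q ∉ R)
    (hq' : q' ∉ R) (hp' : p' ∉ R) (hu : u ∈ R) (hv : v ∈ R) (h0 : s(u, v) ≠ s(y, y')) :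
    s(u, v) ∉ hept z p q y y' q' p' := by
  rw [mem_hept]
  rintro (h | h | h | h | h | h | h)
  · rw [Sym2.eq_iff] at h; rcases h with ⟨rfl, rfl⟩ | ⟨rfl, rfl⟩
    · exact hp hv
    · exact hp hu
  · rw [Sym2.eq_iff] at h; rcases h with ⟨rfl, rfl⟩ | ⟨rfl, rfl⟩
    · exact hp hu
    · exact hp hv
  · rw [Sym2.eq_iff] at h; rcases h with ⟨rfl, rfl⟩ | ⟨rfl, rfl⟩
    · exact hq hu
    · exact hq hv
  · exact h0 h
  · rw [Sym2.eq_iff] at h; rcases h with ⟨rfl, rfl⟩ | ⟨rfl, rfl⟩
    · exact hq' hv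
    · exact hq' hu
  · rw [Sym2.eq_iff] at h; rcases h with ⟨rfl, rfl⟩ | ⟨rfl, rfl⟩
    · exact hp' hv
    · exact hp' hu
  · rw [Sym2.eq_iff] at h; rcases h with ⟨rfl, rfl⟩ | ⟨rfl, rfl⟩
    · exact hp' hu
    · exact hp' hv

theorem cyc_disj {R : Finset V} {F : Finset (Sym2 V)} {z p q y y' q' p' : V} (hp : p ∉ R)
    (hq : q ∉ R) (hq' : q' ∉ R) (hp' : p' ∉ R) (hF : F ⊆ R.sym2) (h0 : s(y, y') ∉ F) :
    Disjoint (hept z p q y y' q' p') F := by
  rw [disjoint_right]
  intro x hx
  induction x using Sym2.ind with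
  | _ u v =>
    have h1 := mk_mem_sym2_iff.1 (hF hx)
    refine notMem_cyc hp hq hq' hp' h1.1 h1.2 ?_
    intro h2
    rw [h2] at hx
    exact h0 hx

theorem hept_subset {R : Finset V} {a b c d e f g : V} (ha : a ∈ R) (hb : b ∈ R) (hc : c ∈ R)
    (hd : d ∈ R) (he : e ∈ R) (hf : f ∈ R) (hg : g ∈ R) : hept a b c d e f g ⊆ R.sym2 := by
  intro x hx
  rw [mem_hept] at hx
  rcases hx with rfl | rfl | rfl | rfl | rfl | rfl | rfl <;> rw [mk_mem_sym2_iff] <;>
    constructor <;> assumption

theorem pent_subset {R : Finset V} {a b c d e : V} (ha : a ∈ R) (hb : b ∈ R) (hc : c ∈ R)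
    (hd : d ∈ R) (he : e ∈ R) : pent a b c d e ⊆ R.sym2 := by
  intro x hx
  rw [mem_pent] at hx
  rcases hx with rfl | rfl | rfl | rfl | rfl <;> rw [mk_mem_sym2_iff] <;>
    constructor <;> assumption

theorem card_union4 (R : Finset V) (a b c d : V) :
    (R ∪ {a, b, c, d}).card ≤ R.card + 4 :=
  (card_union_le _ _).trans (Nat.add_le_add_left card_le_four _)

theorem card_union3 (R : Finset V) (a b c : V) :
    (R ∪ {a, b, c}).card ≤ R.card + 3 :=
  (card_union_le _ _).trans (Nat.add_le_add_left card_le_three _)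

theorem path_move {E : Finset (Sym2 V)} {γ : ℝ} (h : Hyp E γ) (z : V) (D' : Finset (Sym2 V))
    (c : ℕ) :
    ∀ (l : List V) (y : V) (R : Finset V) (F D : Finset (Sym2 V)),
      List.IsChain (fun a b => s(a, b) ∈ E ∧ s(a, b) ∉ F) (y :: l) → (y :: l).Nodup →
      (∀ a ∈ y :: l, a ∈ Bn E (γ ^ 4 / 10 ^ 4) z ∧ a ∈ R) →
      F ⊆ R.sym2 → D ⊆ F → D' ⊆ F → Wd z y D → D ⊆ E →
      (R.card : ℝ) + 7 * l.length + 10 ≤ γ ^ 4 / 10 ^ 4 * (Fintype.card V : ℝ) →
      (∀ (R2 : Finset V) (F2 M : Finset (Sym2 V)), R ⊆ R2 → R2.card ≤ R.card + 7 * l.length →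
        F ⊆ F2 → F2 ⊆ R2.sym2 → M ⊆ F2 → M ⊆ E →
        Wd z ((y :: l).getLast (List.cons_ne_nil _ _)) M → Tr E F2 c M D') →
      Tr E F (c + 12 * l.length) D D' := by
  intro l
  induction l with
  | nil =>
    intro y R F D hch hnd hB hF hD hD' hW hDE hR hcont
    simpa using hcont R F D Subset.rfl (by simp) Subset.rfl hF hD hDE (by simpa using hW)
  | cons y' l ih =>
    intro y R F D hch hnd hB hF hD hD' hW hDE hR hcont
    rw [List.isChain_cons_cons] at hch
    obtain ⟨⟨he, heF⟩, hch⟩ := hch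
    have hz : z ∈ R := (Wd.mem hW (hD.trans hF)).1
    have hyy := hB y (by simp)
    have hyy' := hB y' (by simp)
    have hzy : z ≠ y := ((mem_Bn.1 hyy.1).1).symm
    have hzy' : z ≠ y' := ((mem_Bn.1 hyy'.1).1).symm
    have k1 := h.c1
    have k2 := h.c2
    have k3 := h.c3
    have k4 := h.big
    simp only [List.length_cons, Nat.cast_add, Nat.cast_one] at hR
    have hl0 : (0 : ℝ) ≤ (l.length : ℝ) := Nat.cast_nonneg _
    obtain ⟨p, q, q', p', hp, hq, hq', hp', hn, hsub⟩ := cyc h hz hyy.2 hyy'.2 hzy hzy' he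
      (by linarith)
    set R1 : Finset V := R ∪ {p, q, q', p'} with hR1
    have hR1c : (R1.card : ℝ) ≤ R.card + 4 := by
      exact_mod_cast card_union4 R p q q' p'
    have hRR1 : R ⊆ R1 := subset_union_left
    obtain ⟨w, hw, ew1, ew2⟩ := cn hyy.1 (R := R1) (by linarith)
    obtain ⟨a, b, ha, hb, hab, e1, e2, e3⟩ := tp h z y (insert w R1) (by
      have : ((insert w R1).card : ℝ) ≤ R1.card + 1 := by exact_mod_cast card_insert_le w R1
      linarith)
    simp only [mem_insert, not_or] at ha hb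
    obtain ⟨haw, ha⟩ := ha
    obtain ⟨hbw, hb⟩ := hb
    set M := hept z p q y y' q' p' with hMdef
    set T1 := pent z w y b a with hT1def
    have hwn : [w, b, a].Nodup := by
      simp only [List.nodup_cons, List.mem_cons, List.not_mem_nil, or_false, not_or,
        not_false_iff, List.nodup_nil, and_true]
      exact ⟨⟨fun e => hbw e.symm, fun e => haw e.symm⟩, fun e => hab e.symm⟩
    have hwR : w ∉ R := fun h => hw (hRR1 h)
    have haR : a ∉ R := fun h => ha (hRR1 h)
    have hbR : b ∉ R := fun h => hb (hRR1 h)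
    have hMR1 : M ⊆ R1.sym2 := by
      apply hept_subset
      · exact hRR1 hz
      · simp [hR1]
      · simp [hR1]
      · exact hRR1 hyy.2
      · exact hRR1 hyy'.2
      · simp [hR1]
      · simp [hR1]
    have hMF : Disjoint M F := cyc_disj hp hq hq' hp' hF heF
    have hT1E : T1 ⊆ E := by
      intro x hx
      rw [hT1def, mem_pent] at hx
      rcases hx with rfl | rfl | rfl | rfl | rfl
      · exact ew1
      · exact ew2
      · rw [Sym2.eq_swap]; exact e3
      · rw [Sym2.eq_swap]; exact e2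
      · rw [Sym2.eq_swap]; exact e1
    have hT1R : Disjoint T1 R.sym2 := pent_disj hwR hbR haR
    have hT1R1 : Disjoint T1 R1.sym2 := pent_disj hw hb ha
    set R2 : Finset V := R1 ∪ {w, b, a} with hR2
    have hR2c : R2.card ≤ R.card + 7 := by
      have i1 := card_union3 R1 w b a
      have i2 := card_union4 R p q q' p'
      rw [← hR2] at i1
      rw [← hR1] at i2
      omega
    have hR1R2 : R1 ⊆ R2 := subset_union_left
    have hT1R2 : T1 ⊆ R2.sym2 := by
      apply pent_subset
      · exact hR1R2 (hRR1 hz)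
      · simp [hR2]
      · exact hR1R2 (hRR1 hyy.2)
      · simp [hR2]
      · simp [hR2]
    have hF2 : F ∪ M ∪ T1 ⊆ R2.sym2 := by
      refine union_subset (union_subset ?_ ?_) hT1R2
      · exact hF.trans (sym2_mono (hRR1.trans hR1R2))
      · exact hMR1.trans (sym2_mono hR1R2)
    have h3 : Tr E (F ∪ M ∪ T1) (c + 12 * l.length) M D' := by
      refine ih y' R2 (F ∪ M ∪ T1) M ?_ ?_ ?_ hF2 ?_ ?_ (Wd_cyc' hn) hsub ?_ ?_
      · refine List.IsChain.imp_of_mem_imp ?_ hch
        rintro u v hu hv ⟨huv, huvF⟩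
        refine ⟨huv, ?_⟩
        have huR := (hB u (List.mem_cons_of_mem _ hu)).2
        have hvR := (hB v (List.mem_cons_of_mem _ hv)).2
        have hynot : y ∉ y' :: l := (List.nodup_cons.1 hnd).1
        have huvM : s(u, v) ∉ M := by
          refine notMem_cyc hp hq hq' hp' huR hvR ?_
          intro h0
          rw [Sym2.eq_iff] at h0
          rcases h0 with ⟨h0, -⟩ | ⟨-, h0⟩
          · exact hynot (h0 ▸ hu)
          · exact hynot (h0 ▸ hv)
        have huvT : s(u, v) ∉ T1 := fun h0 => by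
          exact (disjoint_left.1 hT1R h0) (mk_mem_sym2_iff.2 ⟨huR, hvR⟩)
        simp only [mem_union, not_or]
        exact ⟨⟨huvF, huvM⟩, huvT⟩
      · exact (List.nodup_cons.1 hnd).2
      · intro u hu
        have := hB u (List.mem_cons_of_mem _ hu)
        exact ⟨this.1, hR1R2 (hRR1 this.2)⟩
      · intro x hx
        simp only [mem_union]
        tauto
      · intro x hx
        simp only [mem_union]
        exact Or.inl (Or.inl (hD' hx))
      · have : (R2.card : ℝ) ≤ R.card + 7 := by exact_mod_cast hR2c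
        linarith
      · intro R3 F3 M3 i1 i2 i3 i4 i5 i6 i7
        refine hcont R3 F3 M3 ((hRR1.trans hR1R2).trans i1) ?_ ?_ i4 i5 i6 ?_
        · simp only [List.length_cons]
          omega
        · intro x hx
          exact i3 (by simp only [mem_union]; exact Or.inl (Or.inl hx))
        · rw [List.getLast_cons (List.cons_ne_nil _ _)]
          exact i7
    have h4 := Tr.trans hD hD' hsub hMF hT1E (hT1R.mono_right hF) (hT1R1.mono_right hMR1)
      (Wd.dec hW (hD.trans hF) hwR hbR haR hwn) (Wd.dec (Wd_cyc hn) hMR1 hw hb ha hwn) h3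
    obtain ⟨T, t1, t2, t3, t4, t5⟩ := h4
    refine ⟨T, t1, t2, t3.trans ?_, t4, t5⟩
    have g1 := card_pent_le z w y b a
    have g2 := card_hept_le z p q y y' q' p'
    rw [← hT1def] at g1
    rw [← hMdef] at g2
    simp only [List.length_cons]
    omega

end D

end SQ

end Pool.Agent.H483C6
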