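import Pool.Agent.H483C6.SQ1

/-!
# Short paths (section 9), MP_1bffa4_co, helper168
-/

set_option autoImplicit false
set_option linter.unusedSectionVars false
set_option linter.unusedVariables false
set_option linter.unusedSimpArgs false

namespace Pool.Agent.H483C6

open Finset

namespace SQ

section E

variable {V : Type} [Fintype V] [DecidableEq V]

/-- the graph induced on `X` -/
def gr (E : Finset (Sym2 V)) (hE : Loopless E) (X : Finset V) : SimpleGraph V where
  Adj a b := s(a, b) ∈ E ∧ a ∈ X ∧ b ∈ X
  symm := ⟨fun a b h => ⟨by rw [Sym2.eq_swap]; exact h.1, h.2.2, h.2.1⟩⟩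
  loopless := ⟨fun a h => hE.ne h.1 rfl⟩

theorem gr_adj {E : Finset (Sym2 V)} {hE : Loopless E} {X : Finset V} {a b : V} :
    (gr E hE X).Adj a b ↔ s(a, b) ∈ E ∧ a ∈ X ∧ b ∈ X := Iff.rfl

theorem gr_support {E : Finset (Sym2 V)} {hE : Loopless E} {X : Finset V} {u v : V}
    (p : (gr E hE X).Walk u v) (hu : u ∈ X) : ∀ a ∈ p.support, a ∈ X := by
  induction p with
  | nil => intro a ha; simp at ha; exact ha ▸ hu
  | cons hadj q ih =>
    intro a ha
    simp only [SimpleGraph.Walk.support_cons, List.mem_cons] at ha
    rcases ha with rfl | ha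
    · exact hu
    · exact ih (gr_adj.1 hadj).2.2 a ha

theorem short_path {E : Finset (Sym2 V)} (hE : Loopless E) {X : Finset V} {δ : ℝ}
    (hX : ∀ w ∈ X, δ ≤ ((nb E w ∩ X).card : ℝ)) {y y' : V} (hy : y ∈ X)
    (hc : Conn E X y y') : ∃ l : List V, List.IsChain (fun a b => s(a, b) ∈ E) (y :: l) ∧
      (y :: l).Nodup ∧ (∀ a ∈ y :: l, a ∈ X) ∧ (y :: l).getLast (List.cons_ne_nil _ _) = y' ∧
      ((l.length : ℝ) + 1) * δ ≤ 3 * (Fintype.card V : ℝ) := by
  classical
  have hreach : (gr E hE X).Reachable y y' ∧ y' ∈ X := by
    unfold Conn at hc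
    induction hc with
    | refl => exact ⟨SimpleGraph.Reachable.refl _, hy⟩
    | tail _ hbc ih =>
      refine ⟨ih.1.trans (SimpleGraph.Adj.reachable ?_), hbc.2⟩
      exact ⟨hbc.1, ih.2, hbc.2⟩
  obtain ⟨hr, hy'⟩ := hreach
  obtain ⟨p, hp, hpl⟩ := hr.exists_path_of_dist
  have hmem : ∀ a ∈ p.support, a ∈ X := gr_support p hy
  refine ⟨p.support.tail, ?_, ?_, ?_, ?_, ?_⟩
  · rw [p.cons_tail_support]
    exact p.isChain_adj_support.imp fun a b h => (gr_adj.1 h).1
  · rw [p.cons_tail_support]
    exact hp.support_nodup
  · rw [p.cons_tail_support]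
    exact hmem
  · refine Eq.trans ?_ p.getLast_support
    congr 1
    exact p.cons_tail_support
  · have hdist : ∀ i ≤ p.length, (gr E hE X).dist y (p.getVert i) = i := by
      intro i hi
      have h1 := SimpleGraph.length_eq_dist_of_subwalk hpl (p.isSubwalk_take i)
      rw [← h1, SimpleGraph.Walk.take_length]
      omega
    have hvert : ∀ i, p.getVert i ∈ X := fun i => hmem _ (p.getVert_mem_support i)
    have hcount : ∑ i ∈ range (p.length + 1), (nb E (p.getVert i) ∩ X).card ≤
        3 * Fintype.card V := by
      have e1 : ∀ i ∈ range (p.length + 1), (nb E (p.getVert i) ∩ X).card =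
          ∑ w : V, if (gr E hE X).Adj (p.getVert i) w then 1 else 0 := by
        intro i hi
        rw [← card_filter]
        congr 1
        ext w
        simp only [mem_inter, mem_nb, mem_filter, mem_univ, true_and, gr_adj]
        exact ⟨fun h => ⟨h.1, hvert i, h.2⟩, fun h => ⟨h.1, h.2.2⟩⟩
      rw [sum_congr rfl e1, sum_comm]
      have e2 : ∀ w : V, (∑ i ∈ range (p.length + 1),
          if (gr E hE X).Adj (p.getVert i) w then 1 else 0) ≤ 3 := by
        intro w
        rw [← card_filter]
        set d := (gr E hE X).dist y w with hd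
        have : ((range (p.length + 1)).filter fun i => (gr E hE X).Adj (p.getVert i) w) ⊆
            {d - 1, d, d + 1} := by
          intro i hi
          rw [mem_filter, mem_range] at hi
          have h1 := hdist i (by omega)
          have h2 := hi.2.diff_dist_adj (u := y)
          rw [h1, ← hd] at h2
          simp only [mem_insert, mem_singleton]
          omega
        exact (card_le_card this).trans card_le_three
      calc _ ≤ ∑ w : V, 3 := sum_le_sum fun w _ => e2 w
        _ = 3 * Fintype.card V := by rw [sum_const, card_univ, smul_eq_mul, mul_comm]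
    have hlen : p.support.tail.length = p.length := by
      rw [List.length_tail, p.length_support]
      rfl
    rw [hlen]
    have h5 : ((p.length : ℝ) + 1) * δ ≤
        ∑ i ∈ range (p.length + 1), ((nb E (p.getVert i) ∩ X).card : ℝ) := by
      have := sum_le_sum (s := range (p.length + 1)) (f := fun _ => δ)
        (g := fun i => ((nb E (p.getVert i) ∩ X).card : ℝ)) fun i _ => hX _ (hvert i)
      rw [sum_const, card_range, nsmul_eq_mul] at this
      push_cast at this
      exact this
    refine h5.trans ?_
    exact_mod_cast hcount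

end E

end SQ

end Pool.Agent.H483C6
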