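import Pool.Agent.H483C6.SQ2
import Pool.Agent.H483C6.SQ3

/-!
# Good vertices (section 9), MP_1bffa4_co, helper168
-/

set_option autoImplicit false
set_option linter.unusedSectionVars false
set_option linter.unusedVariables false
set_option linter.unusedSimpArgs false

namespace Pool.Agent.H483C6

open Finset

namespace SQ

section F

variable {V : Type} [Fintype V] [DecidableEq V]

/-- every member of the class `Q` inside a set `R` with slack `m` can be transformed into `D'` -/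
def Goal (E : Finset (Sym2 V)) (s : ℝ) (c m : ℕ) (D' : Finset (Sym2 V))
    (Q : Finset (Sym2 V) → Prop) : Prop :=
  ∀ R : Finset V, (R.card : ℝ) + m ≤ s → D' ⊆ R.sym2 → ∀ D, Q D → D ⊆ E → D ⊆ R.sym2 →
    Tr E R.sym2 c D D'

theorem Goal.mono {E : Finset (Sym2 V)} {s : ℝ} {c m c' m' : ℕ} {D' : Finset (Sym2 V)}
    {Q : Finset (Sym2 V) → Prop} (h : Goal E s c m D' Q) (hc : c ≤ c') (hm : m ≤ m') :
    Goal E s c' m' D' Q := by
  intro R hR hD' D hQ hDE hDR
  have : (m : ℝ) ≤ m' := by exact_mod_cast hm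
  exact (h R (by linarith) hD' D hQ hDE hDR).mono Subset.rfl hc

/-- (M1) -/
theorem goal_base {E : Finset (Sym2 V)} {γ : ℝ} (h : Hyp E γ) {z y : V}
    (hy : y ∈ Bn E (γ ^ 4 / 10 ^ 4) z) {D' : Finset (Sym2 V)} (hD' : Wd z y D') :
    Goal E (γ ^ 4 / 10 ^ 5 * (Fintype.card V : ℝ)) 5 0 D' (Wd z y) := by
  intro R hR hD'R D hW hDE hDR
  have k1 := h.c1
  have k2 := h.c2
  have k3 := h.c3
  have k4 := h.big
  have hm0 : ((0 : ℕ) : ℝ) = 0 := Nat.cast_zero
  rw [hm0] at hR
  obtain ⟨w, hw, ew1, ew2⟩ := cn hy (R := R) (by linarith)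
  obtain ⟨a, b, ha, hb, hab, e1, e2, e3⟩ := tp h z y (insert w R) (by
    have : ((insert w R).card : ℝ) ≤ R.card + 1 := by exact_mod_cast card_insert_le w R
    linarith)
  simp only [mem_insert, not_or] at ha hb
  obtain ⟨haw, ha⟩ := ha
  obtain ⟨hbw, hb⟩ := hb
  have hwn : [w, b, a].Nodup := by
    simp only [List.nodup_cons, List.mem_cons, List.not_mem_nil, or_false, not_or,
      not_false_iff, List.nodup_nil, and_true]
    exact ⟨⟨fun e => hbw e.symm, fun e => haw e.symm⟩, fun e => hab e.symm⟩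
  refine ⟨pent z w y b a, ?_, pent_disj hw hb ha, card_pent_le _ _ _ _ _,
    Wd.dec hW hDR hw hb ha hwn, Wd.dec hD' hD'R hw hb ha hwn⟩
  intro x hx
  rw [mem_pent] at hx
  rcases hx with rfl | rfl | rfl | rfl | rfl
  · exact ew1
  · exact ew2
  · rw [Sym2.eq_swap]; exact e3
  · rw [Sym2.eq_swap]; exact e2
  · rw [Sym2.eq_swap]; exact e1

/-- moving along a path whose edges are not inside `R` -/
theorem pmv {E : Finset (Sym2 V)} {γ : ℝ} (h : Hyp E γ) {z : V} {D' : Finset (Sym2 V)}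
    {c : ℕ} (l : List V) (y : V) (R : Finset V) (D : Finset (Sym2 V))
    (hch : List.IsChain (fun a b => s(a, b) ∈ E ∧ s(a, b) ∉ R.sym2) (y :: l))
    (hnd : (y :: l).Nodup) (hB : ∀ a ∈ y :: l, a ∈ Bn E (γ ^ 4 / 10 ^ 4) z)
    (hD : D ⊆ R.sym2) (hD' : D' ⊆ R.sym2) (hW : Wd z y D) (hDE : D ⊆ E)
    (hR : (R.card : ℝ) + 8 * l.length + 10 ≤ γ ^ 4 / 10 ^ 4 * (Fintype.card V : ℝ))
    (hcont : ∀ (R2 : Finset V) (M : Finset (Sym2 V)), R ⊆ R2 → R2.card ≤ R.card + 8 * l.length →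
      M ⊆ R2.sym2 → M ⊆ E → Wd z ((y :: l).getLast (List.cons_ne_nil _ _)) M →
      Tr E R2.sym2 c M D') :
    Tr E R.sym2 (c + 12 * l.length) D D' := by
  have hcard : (R ∪ l.toFinset).card ≤ R.card + l.length :=
    (card_union_le _ _).trans (Nat.add_le_add_left (List.toFinset_card_le l) _)
  have hcard' : ((R ∪ l.toFinset).card : ℝ) ≤ R.card + l.length := by exact_mod_cast hcard
  have hyR := (Wd.mem hW hD).2
  refine path_move h z D' c l y (R ∪ l.toFinset) R.sym2 D hch hnd ?_ ?_ hD hD' hW hDE ?_ ?_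
  · intro a ha
    refine ⟨hB a ha, ?_⟩
    rw [List.mem_cons] at ha
    rw [mem_union, List.mem_toFinset]
    rcases ha with rfl | ha
    · exact Or.inl hyR
    · exact Or.inr ha
  · exact sym2_mono subset_union_left
  · linarith
  · intro R2 F2 M i1 i2 i3 i4 i5 i6 i7
    refine (hcont R2 M (subset_union_left.trans i1) (by omega) (i5.trans i4) i6 i7).mono i4 le_rfl

/-- one step with a fresh vertex -/
theorem mv1 {E : Finset (Sym2 V)} {γ : ℝ} (h : Hyp E γ) {z : V} {D' : Finset (Sym2 V)}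
    {c : ℕ} (y' y : V) (R : Finset V) (D : Finset (Sym2 V)) (he : s(y, y') ∈ E) (hy' : y' ∉ R)
    (hB : y ∈ Bn E (γ ^ 4 / 10 ^ 4) z) (hB' : y' ∈ Bn E (γ ^ 4 / 10 ^ 4) z)
    (hD : D ⊆ R.sym2) (hD' : D' ⊆ R.sym2) (hW : Wd z y D) (hDE : D ⊆ E)
    (hR : (R.card : ℝ) ≤ γ ^ 4 / 10 ^ 5 * (Fintype.card V : ℝ))
    (hcont : ∀ (R2 : Finset V) (M : Finset (Sym2 V)), R ⊆ R2 → R2.card ≤ R.card + 8 →
      M ⊆ R2.sym2 → M ⊆ E → Wd z y' M → Tr E R2.sym2 c M D') :
    Tr E R.sym2 (c + 12) D D' := by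
  have k1 := h.c1
  have k4 := h.big
  refine pmv h (c := c) [y'] y R D ?_ ?_ ?_ hD hD' hW hDE ?_ ?_
  · simp only [List.isChain_cons_cons, List.isChain_singleton, and_true]
    refine ⟨he, ?_⟩
    rw [mk_mem_sym2_iff]
    exact fun hh => hy' hh.2
  · simp only [List.nodup_cons, List.mem_cons, List.not_mem_nil, or_false, not_false_iff,
      List.nodup_nil, and_true]
    exact h.ll.ne he
  · intro a ha
    simp only [List.mem_cons, List.not_mem_nil, or_false] at ha
    rcases ha with rfl | rfl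
    · exact hB
    · exact hB'
  · simp only [List.length_cons, List.length_nil]
    push_cast
    linarith
  · intro R2 M i1 i2 i3 i4 i5
    exact hcont R2 M i1 (by simpa using i2) i3 i4 (by simpa using i5)

/-- (M4) -/
theorem good_move {E : Finset (Sym2 V)} {γ : ℝ} (h : Hyp E γ) {z : V}
    (hz : GoodV E (γ ^ 4 / 10 ^ 4) (γ ^ 4 / 10 ^ 5) z) {y y' : V}
    (hy : y ∈ Bn E (γ ^ 4 / 10 ^ 4) z) (hy' : y' ∈ Bn E (γ ^ 4 / 10 ^ 4) z) {K : ℕ}
    (hK : 6 / γ + 1 ≤ K) {c m : ℕ} {D' : Finset (Sym2 V)}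
    (hG : Goal E (γ ^ 4 / 10 ^ 5 * (Fintype.card V : ℝ)) c m D' (Wd z y')) :
    Goal E (γ ^ 4 / 10 ^ 5 * (Fintype.card V : ℝ)) (c + 12 * K) (m + 8 * K + 2) D' (Wd z y) := by
  intro R hR hD' D hW hDE hDR
  by_cases hyy : y = y'
  · subst hyy
    refine (hG R ?_ hD' D hW hDE hDR).mono Subset.rfl (by omega)
    push_cast at hR
    have : (0 : ℝ) ≤ K := Nat.cast_nonneg _
    linarith
  have k1 := h.c1
  have k2 := h.c2
  have k3 := h.c3
  have k4 := h.big
  have hK0 : (0 : ℝ) ≤ K := Nat.cast_nonneg _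
  have hm0 : (0 : ℝ) ≤ m := Nat.cast_nonneg _
  push_cast at hR
  have hyR := (Wd.mem hW hDR).2
  set R1 : Finset V := insert y' R with hR1
  have hR1c : (R1.card : ℝ) ≤ R.card + 1 := by exact_mod_cast card_insert_le y' R
  have hRR1 : R ⊆ R1 := subset_insert _ _
  obtain ⟨y1, hy1R, e1, hy1B⟩ := nbBf h y z R1 (by linarith)
  obtain ⟨y2, hy2R, e2, hy2B⟩ := nbBf h y' z R1 (by linarith)
  set X : Finset V := Bn E (γ ^ 4 / 10 ^ 4) z \ R1 with hX
  have hy1X : y1 ∈ X := mem_sdiff.2 ⟨hy1B, hy1R⟩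
  have hy2X : y2 ∈ X := mem_sdiff.2 ⟨hy2B, hy2R⟩
  have hc : Conn E X y1 y2 := hz R1 (by linarith) y1 hy1X y2 hy2X
  have hdeg : ∀ w ∈ X, γ / 2 * (Fintype.card V : ℝ) ≤ ((nb E w ∩ X).card : ℝ) := by
    intro w hw
    have j1 := nbB h w z
    have j2 : nb E w ∩ Bn E (γ ^ 4 / 10 ^ 4) z ⊆ (nb E w ∩ X) ∪ R1 := by
      intro x hx
      rw [mem_inter] at hx
      rw [mem_union, mem_inter, hX, mem_sdiff]
      by_cases hxR : x ∈ R1
      · exact Or.inr hxR
      · exact Or.inl ⟨hx.1, hx.2, hxR⟩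
    have j3 : ((nb E w ∩ Bn E (γ ^ 4 / 10 ^ 4) z).card : ℝ) ≤ (nb E w ∩ X).card + R1.card := by
      exact_mod_cast (card_le_card j2).trans (card_union_le _ _)
    linarith
  obtain ⟨l, hch, hnd, hmem, hlast, hlen⟩ := short_path h.ll hdeg hy1X hc
  have hmemR : ∀ a ∈ y1 :: l, a ∉ R1 := fun a ha => (mem_sdiff.1 (hmem a ha)).2
  have hmemR' : ∀ a ∈ y1 :: l, a ∉ R := fun a ha h' => hmemR a ha (hRR1 h')
  have hn : (0 : ℝ) < (Fintype.card V : ℝ) := by
    have : 0 ≤ γ ^ 4 / 10 ^ 5 := by have := h.pos; positivity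
    by_contra hc0
    have hc1 : (Fintype.card V : ℝ) = 0 := le_antisymm (not_lt.1 hc0) (Nat.cast_nonneg _)
    rw [hc1] at k4
    linarith
  have hlenK : l.length + 2 ≤ K := by
    have i1 : ((l.length : ℝ) + 1) * (γ / 2) ≤ 3 := by
      have : ((l.length : ℝ) + 1) * (γ / 2) * (Fintype.card V : ℝ) ≤
          3 * (Fintype.card V : ℝ) := by linarith
      exact le_of_mul_le_mul_right this hn
    have i2 : ((l.length : ℝ) + 1) ≤ 6 / γ := by
      rw [le_div_iff₀ h.pos]
      linarith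
    have i3 : ((l.length + 2 : ℕ) : ℝ) ≤ K := by push_cast; linarith
    exact_mod_cast i3
  have hlenL : ((y1 :: l) ++ [y']).length = l.length + 2 := by simp
  have hlastE : (y :: ((y1 :: l) ++ [y'])).getLast (List.cons_ne_nil _ _) = y' := by
    simp
  have hlenKr : ((l.length : ℝ) + 2) ≤ K := by exact_mod_cast hlenK
  have main : Tr E R.sym2 (c + 12 * ((y1 :: l) ++ [y']).length) D D' := by
    refine pmv h (z := z) (c := c) ((y1 :: l) ++ [y']) y R D ?_ ?_ ?_ hDR hD' hW hDE ?_ ?_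
    · rw [List.cons_append, List.isChain_cons_cons, ← List.cons_append, List.isChain_append]
      refine ⟨⟨e1, ?_⟩, ?_, ?_, ?_⟩
      · rw [mk_mem_sym2_iff]; exact fun hh => hmemR' y1 (by simp) hh.2
      · refine hch.imp_of_mem_imp ?_
        intro a b ha hb hab
        refine ⟨hab, ?_⟩
        rw [mk_mem_sym2_iff]; exact fun hh => hmemR' a ha hh.1
      · simp
      · intro x hx x' hx'
        rw [List.getLast?_eq_some_getLast (List.cons_ne_nil _ _), hlast] at hx
        simp only [Option.mem_def, Option.some.injEq, List.head?_cons] at hx hx'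
        subst hx hx'
        refine ⟨by rw [Sym2.eq_swap]; exact e2, ?_⟩
        rw [mk_mem_sym2_iff]; exact fun hh => hy2R (hRR1 hh.1)
    · rw [List.nodup_cons]
      constructor
      · rw [List.mem_append]
        rintro (hh | hh)
        · exact hmemR' y hh hyR
        · simp only [List.mem_cons, List.not_mem_nil, or_false] at hh
          exact hyy hh
      · rw [List.nodup_append]
        refine ⟨hnd, by simp, ?_⟩
        intro a ha b hb hab
        simp only [List.mem_cons, List.not_mem_nil, or_false] at hb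
        subst hb
        subst hab
        exact hmemR _ ha (mem_insert_self _ _)
    · intro a ha
      rw [List.mem_cons, List.mem_append] at ha
      rcases ha with rfl | ha | ha
      · exact hy
      · exact (mem_sdiff.1 (hmem a ha)).1
      · simp only [List.mem_cons, List.not_mem_nil, or_false] at ha
        exact ha ▸ hy'
    · rw [hlenL]
      push_cast
      linarith
    · intro R2 M i1 i2 i3 i4 i5
      rw [hlastE] at i5
      rw [hlenL] at i2
      refine hG R2 ?_ (hD'.trans (sym2_mono i1)) M i5 i4 i3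
      have : (R2.card : ℝ) ≤ R.card + 8 * (l.length + 2) := by exact_mod_cast i2
      linarith
  rw [hlenL] at main
  exact main.mono Subset.rfl (by omega)

end F

end SQ

end Pool.Agent.H483C6
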