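import Pool.Agent.H483C6.SQ4

/-!
# Counting lemmas (section 9), MP_1bffa4_co, helper168
-/

set_option autoImplicit false
set_option linter.unusedSectionVars false
set_option linter.unusedVariables false
set_option linter.unusedSimpArgs false

namespace Pool.Agent.H483C6

open Finset

namespace SQ

section G

variable {V : Type} [Fintype V] [DecidableEq V]

/-- (F1) -/
theorem F1 {E : Finset (Sym2 V)} {γ : ℝ} (h : Hyp E γ) {u v : V}
    (huv : u ∈ On E (γ ^ 4 / 10 ^ 4) v) :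
    ((univ \ (nb E u ∪ nb E v)).card : ℝ) ≤
      10 * (γ ^ 4 / 10 ^ 5 * (Fintype.card V : ℝ)) + 1 := by
  have k1 := h.c1
  rw [mem_On, k1] at huv
  have h1 : (nb E u ∪ nb E v).card + cod E u v = dg E u + dg E v := card_union_add_card_inter _ _
  have h2 : (univ \ (nb E u ∪ nb E v)).card + (nb E u ∪ nb E v).card = Fintype.card V := by
    rw [← card_univ, ← card_sdiff_add_card_eq_card (subset_univ (nb E u ∪ nb E v))]
  have h3 := h.deg u
  have h4 := h.deg v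
  have h5 : (univ \ (nb E u ∪ nb E v)).card ≤ cod E u v + 1 := by omega
  have h6 : ((univ \ (nb E u ∪ nb E v)).card : ℝ) ≤ (cod E u v : ℝ) + 1 := by exact_mod_cast h5
  linarith [huv.2]

/-- (F2) -/
theorem F2 {E : Finset (Sym2 V)} {γ : ℝ} (h : Hyp E γ) {u v w : V}
    (huv : v ∈ On E (γ ^ 4 / 10 ^ 4) u) (hvw : w ∈ On E (γ ^ 4 / 10 ^ 4) v) :
    ((nb E u \ nb E w).card : ℝ) ≤
      20 * (γ ^ 4 / 10 ^ 5 * (Fintype.card V : ℝ)) + 1 := by
  have k1 := h.c1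
  have h1 := F1 h hvw
  rw [mem_On, k1] at huv
  have h2 : nb E u \ nb E w ⊆ (nb E v ∩ nb E u) ∪ (univ \ (nb E w ∪ nb E v)) := by
    intro x hx
    simp only [mem_sdiff, mem_union, mem_inter, mem_univ, true_and] at hx ⊢
    tauto
  have h3 : ((nb E u \ nb E w).card : ℝ) ≤ (cod E v u : ℝ) +
      ((univ \ (nb E w ∪ nb E v)).card : ℝ) := by
    exact_mod_cast (card_le_card h2).trans (card_union_le _ _)
  linarith [huv.2]

theorem card_big {E : Finset (Sym2 V)} {γ : ℝ} (h : Hyp E γ) :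
    100000 * (γ ^ 4 / 10 ^ 5 * (Fintype.card V : ℝ)) ≤ (Fintype.card V : ℝ) := by
  have k2 := h.c2
  have k3 := h.c3
  have k4 := h.c4
  linarith

theorem rdeg {E : Finset (Sym2 V)} {γ : ℝ} (h : Hyp E γ) (v : V) :
    (Fintype.card V : ℝ) ≤ 2 * ((nb E v).card : ℝ) + 1 := by
  exact_mod_cast h.deg v

theorem hept_rot (a b c d e f g : V) : hept a b c d e f g = hept b c d e f g a := by
  ext x
  simp only [mem_hept]
  tauto

theorem nodup_rot7 {a b c d e f g : V} (h : [a, b, c, d, e, f, g].Nodup) :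
    [b, c, d, e, f, g, a].Nodup := by
  have := (List.nodup_rotate (l := [a, b, c, d, e, f, g]) (n := 1)).2 h
  simpa using this

/-- one of the pairs at distance three in a seven-cycle has many common neighbours -/
theorem cl1 {E : Finset (Sym2 V)} {γ : ℝ} (h : Hyp E γ) {D : Finset (Sym2 V)} (hD : IsHept D) :
    ∃ z y, y ∈ Bn E (γ ^ 4 / 10 ^ 4) z ∧ Wd z y D := by
  obtain ⟨a, b, c, d, e, f, g, hn, rfl⟩ := hD
  by_contra hcon
  push Not at hcon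
  have W1 : Wd a d (hept a b c d e f g) := ⟨b, c, e, f, g, hn, rfl⟩
  have hn1 := nodup_rot7 hn
  have hn2 := nodup_rot7 hn1
  have hn3 := nodup_rot7 hn2
  have hn4 := nodup_rot7 hn3
  have hn5 := nodup_rot7 hn4
  have hn6 := nodup_rot7 hn5
  have r1 := hept_rot a b c d e f g
  have r2 := r1.trans (hept_rot b c d e f g a)
  have r3 := r2.trans (hept_rot c d e f g a b)
  have r4 := r3.trans (hept_rot d e f g a b c)
  have r5 := r4.trans (hept_rot e f g a b c d)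
  have r6 := r5.trans (hept_rot f g a b c d e)
  have W2 : Wd b e (hept a b c d e f g) := ⟨c, d, f, g, a, hn1, r1⟩
  have W3 : Wd c f (hept a b c d e f g) := ⟨d, e, g, a, b, hn2, r2⟩
  have W4 : Wd d g (hept a b c d e f g) := ⟨e, f, a, b, c, hn3, r3⟩
  have W5 : Wd e a (hept a b c d e f g) := ⟨f, g, b, c, d, hn4, r4⟩
  have W6 : Wd f b (hept a b c d e f g) := ⟨g, a, c, d, e, hn5, r5⟩
  have W7 : Wd g c (hept a b c d e f g) := ⟨a, b, d, e, f, hn6, r6⟩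
  have key : ∀ z y, Wd z y (hept a b c d e f g) → y ∈ On E (γ ^ 4 / 10 ^ 4) z := by
    intro z y hW
    rcases Bn_or_On E (γ ^ 4 / 10 ^ 4) (Wd.ne hW).symm with h1 | h1
    · exact absurd hW (hcon z y h1)
    · exact h1
  -- a d g c f b e a
  have o1 := key _ _ W1
  have o2 := key _ _ W4
  have o3 := key _ _ W7
  have o4 := key _ _ W3
  have o5 := key _ _ W6
  have o6 := key _ _ W2
  have o7 := key _ _ W5
  have f1 := F2 h o1 o2
  have f2 := F2 h o3 o4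
  have f3 := F2 h o5 o6
  have k1 := h.c1
  have k4 := h.big
  have hsub : nb E a ⊆ (nb E a ∩ nb E e) ∪ (nb E a \ nb E g) ∪ (nb E g \ nb E f) ∪
      (nb E f \ nb E e) := by
    intro x hx
    simp only [mem_sdiff, mem_union, mem_inter] at hx ⊢
    tauto
  have hc := card_le_card hsub
  have e1 := card_union_le ((nb E a ∩ nb E e) ∪ (nb E a \ nb E g) ∪ (nb E g \ nb E f))
      (nb E f \ nb E e)
  have e2 := card_union_le ((nb E a ∩ nb E e) ∪ (nb E a \ nb E g)) (nb E g \ nb E f)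
  have e3 := card_union_le (nb E a ∩ nb E e) (nb E a \ nb E g)
  have hc' : ((nb E a).card : ℝ) ≤ ((nb E a ∩ nb E e).card : ℝ) + ((nb E a \ nb E g).card : ℝ) +
      ((nb E g \ nb E f).card : ℝ) + ((nb E f \ nb E e).card : ℝ) := by
    exact_mod_cast (by omega)
  have o8 := (mem_On.1 o7).2
  rw [k1] at o8
  have o9 : ((nb E a ∩ nb E e).card : ℝ) < 10 * (γ ^ 4 / 10 ^ 5 * (Fintype.card V : ℝ)) := o8
  have d1 := rdeg h a
  have d2 := card_big h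
  linarith

theorem cod_ge (E : Finset (Sym2 V)) (S : Finset V) (u x : V) :
    ((nb E x ∩ S).card : ℝ) - ((S \ nb E u).card : ℝ) ≤ (cod E u x : ℝ) := by
  have h1 : nb E x ∩ S ⊆ (nb E u ∩ nb E x) ∪ (S \ nb E u) := by
    intro y hy
    simp only [mem_sdiff, mem_union, mem_inter] at hy ⊢
    tauto
  have h2 : ((nb E x ∩ S).card : ℝ) ≤ (cod E u x : ℝ) + ((S \ nb E u).card : ℝ) := by
    exact_mod_cast (card_le_card h1).trans (card_union_le _ _)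
  linarith

/-- the conclusion of `S_split` -/
def SplitH (E : Finset (Sym2 V)) (γ : ℝ) : Prop :=
  ∀ z : V, ¬ GoodV E (γ ^ 4 / 10 ^ 4) (γ ^ 4 / 10 ^ 5) z →
    ∃ R' C0 C1 T0 : Finset V,
      (R'.card : ℝ) ≤ γ ^ 4 / 10 ^ 5 * (Fintype.card V : ℝ) ∧
      C0 ∪ C1 = Bn E (γ ^ 4 / 10 ^ 4) z \ R' ∧ Disjoint C0 C1 ∧ C1.Nonempty ∧
      (∀ u ∈ C0, ∀ v ∈ C1, s(u, v) ∉ E) ∧
      (∀ w ∈ C0, γ / 2 * (Fintype.card V : ℝ) ≤ ((nb E w ∩ C0).card : ℝ)) ∧
      (∀ w ∈ C1, γ / 2 * (Fintype.card V : ℝ) ≤ ((nb E w ∩ C1).card : ℝ)) ∧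
      (∀ u ∈ C1, (((C1 ∪ On E (γ ^ 4 / 10 ^ 4) z) \ nb E u).card : ℝ) ≤
        3 * (γ ^ 2 / 100) * (Fintype.card V : ℝ)) ∧
      (1 / 2 - γ ^ 2 / 100) * (Fintype.card V : ℝ) ≤
        ((C1 ∪ On E (γ ^ 4 / 10 ^ 4) z).card : ℝ) ∧
      ((C1 ∪ On E (γ ^ 4 / 10 ^ 4) z).card : ℝ) ≤
        (1 / 2 + 2 * (γ ^ 2 / 100)) * (Fintype.card V : ℝ) ∧
      T0 ⊆ nb E z ∩ C0 ∧ γ / 2 * (Fintype.card V : ℝ) ≤ (T0.card : ℝ) ∧
      (∀ a ∈ T0, ((C0 \ nb E a).card : ℝ) ≤ 3 * (γ ^ 2 / 100) * (Fintype.card V : ℝ)) ∧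
      (∀ u ∈ C1, GoodV E (γ ^ 4 / 10 ^ 4) (γ ^ 4 / 10 ^ 5) u) ∧
      ∀ a ∈ T0, GoodV E (γ ^ 4 / 10 ^ 4) (γ ^ 4 / 10 ^ 5) a

/-- Lemma G -/
theorem lemG {E : Finset (Sym2 V)} {γ : ℝ} (h : Hyp E γ) (hS : SplitH E γ) (x : V)
    (R : Finset V) (hR : (R.card : ℝ) ≤ γ ^ 4 / 10 ^ 5 * (Fintype.card V : ℝ)) :
    ∃ x2, x2 ∉ R ∧ x2 ∈ Bn E (γ ^ 4 / 10 ^ 4) x ∧ GoodV E (γ ^ 4 / 10 ^ 4) (γ ^ 4 / 10 ^ 5) x2 := by
  have k1 := h.c1
  have k2 := h.c2
  have k3 := h.c3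
  have k4 := h.big
  obtain ⟨v, hvR, -, hvB⟩ := nbBf h x x R (by linarith)
  by_cases hv : GoodV E (γ ^ 4 / 10 ^ 4) (γ ^ 4 / 10 ^ 5) v
  · exact ⟨v, hvR, hvB, hv⟩
  obtain ⟨R', C0, C1, T0, s1, s2, s3, s4, s5, s6, s7, s8, s9, s10, s11, s12, s13, s14, s15⟩ :=
    hS v hv
  have j1 := nbB h x v
  have j2 : nb E x ∩ Bn E (γ ^ 4 / 10 ^ 4) v ⊆ R' ∪ (nb E x ∩ C0) ∪ (nb E x ∩ C1) := by
    intro y hy
    rw [mem_inter] at hy
    by_cases hyR : y ∈ R'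
    · simp only [mem_union]; exact Or.inl (Or.inl hyR)
    · have : y ∈ C0 ∪ C1 := by rw [s2, mem_sdiff]; exact ⟨hy.2, hyR⟩
      simp only [mem_union, mem_inter] at this ⊢
      rcases this with h1 | h1
      · exact Or.inl (Or.inr ⟨hy.1, h1⟩)
      · exact Or.inr ⟨hy.1, h1⟩
  have j3 : ((nb E x ∩ Bn E (γ ^ 4 / 10 ^ 4) v).card : ℝ) ≤ (R'.card : ℝ) +
      ((nb E x ∩ C0).card : ℝ) + ((nb E x ∩ C1).card : ℝ) := by
    have e1 := card_le_card j2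
    have e2 := card_union_le (R' ∪ (nb E x ∩ C0)) (nb E x ∩ C1)
    have e3 := card_union_le R' (nb E x ∩ C0)
    have e4 : (nb E x ∩ Bn E (γ ^ 4 / 10 ^ 4) v).card ≤ R'.card + (nb E x ∩ C0).card +
        (nb E x ∩ C1).card := by omega
    have e5 := (Nat.cast_le (α := ℝ)).2 e4
    push_cast at e5
    exact e5
  have hins : ((insert x R).card : ℝ) ≤ R.card + 1 := by exact_mod_cast card_insert_le x R
  have hn0 : (0 : ℝ) ≤ (Fintype.card V : ℝ) := Nat.cast_nonneg _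
  rcases le_or_gt (γ / 3 * (Fintype.card V : ℝ)) ((nb E x ∩ C1).card : ℝ) with hc | hc
  · obtain ⟨w, hw⟩ := s4
    have h1 := s7 w hw
    have h2 : ((nb E w ∩ C1).card : ℝ) ≤ (C1.card : ℝ) := by
      exact_mod_cast card_le_card inter_subset_right
    obtain ⟨u, hu, huR⟩ := fresh (S := C1) (R := insert x R) (by linarith)
    rw [mem_insert, not_or] at huR
    refine ⟨u, huR.2, ?_, s14 u hu⟩
    rw [mem_Bn, k1]
    refine ⟨huR.1, ?_⟩
    have h3 := cod_ge E C1 u x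
    have h4 : ((C1 \ nb E u).card : ℝ) ≤
        (((C1 ∪ On E (γ ^ 4 / 10 ^ 4) v) \ nb E u).card : ℝ) := by
      exact_mod_cast card_le_card (sdiff_subset_sdiff subset_union_left Subset.rfl)
    have h5 := s8 u hu
    linarith
  · obtain ⟨a, ha, haR⟩ := fresh (S := T0) (R := insert x R) (by linarith)
    rw [mem_insert, not_or] at haR
    refine ⟨a, haR.2, ?_, s15 a ha⟩
    rw [mem_Bn, k1]
    refine ⟨haR.1, ?_⟩
    have h3 := cod_ge E C0 a x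
    have h5 := s13 a ha
    linarith

/-- double counting of edges between two vertex sets -/
theorem dc (E : Finset (Sym2 V)) (P Q : Finset V) :
    ∑ b ∈ P, (nb E b ∩ Q).card = ∑ a ∈ Q, (nb E a ∩ P).card := by
  have h1 : ∀ b, (nb E b ∩ Q).card = ∑ a ∈ Q, if s(a, b) ∈ E then 1 else 0 := by
    intro b
    rw [← card_filter]
    congr 1
    ext a
    simp only [mem_inter, mem_nb, mem_filter]
    rw [Sym2.eq_swap]
    tauto
  have h2 : ∀ a, (nb E a ∩ P).card = ∑ b ∈ P, if s(a, b) ∈ E then 1 else 0 := by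
    intro b
    rw [← card_filter]
    congr 1
    ext a
    simp only [mem_inter, mem_nb, mem_filter]
    tauto
  rw [sum_congr rfl fun b _ => h1 b, sum_congr rfl fun a _ => h2 a, sum_comm]

/-- (Fin) (ii) -/
theorem exW {E : Finset (Sym2 V)} {γ : ℝ} (h : Hyp E γ) {x x' : V}
    (hx : x' ∈ On E (γ ^ 4 / 10 ^ 4) x) :
    ∃ w, w ∈ Bn E (γ ^ 4 / 10 ^ 4) x ∧ w ∈ Bn E (γ ^ 4 / 10 ^ 4) x' := by
  by_contra hcon
  push Not at hcon
  have k1 := h.c1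
  have k2 := h.c2
  have k3 := h.c3
  have k4 := h.big
  set s : ℝ := γ ^ 4 / 10 ^ 5 * (Fintype.card V : ℝ) with hs
  set P1 : Finset V := (nb E x ∩ Bn E (γ ^ 4 / 10 ^ 4) x).erase x' with hP1
  set P2 : Finset V := nb E x ∩ Bn E (γ ^ 4 / 10 ^ 4) x' with hP2
  have p1 : γ * (Fintype.card V : ℝ) - 2 ≤ (P1.card : ℝ) := by
    have e1 := nbB h x x
    have e2 := pred_card_le_card_erase (s := nb E x ∩ Bn E (γ ^ 4 / 10 ^ 4) x) (a := x')
    rw [← hP1] at e2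
    have e4 : (nb E x ∩ Bn E (γ ^ 4 / 10 ^ 4) x).card ≤ P1.card + 1 := by omega
    have e3 := (Nat.cast_le (α := ℝ)).2 e4
    push_cast at e3
    linarith
  have p2 : γ * (Fintype.card V : ℝ) - 1 ≤ (P2.card : ℝ) := nbB h x x'
  have q1 : ∀ b ∈ P1, (P2.card : ℝ) - (20 * s + 1) ≤ ((nb E b ∩ P2).card : ℝ) := by
    intro b hb
    rw [hP1, mem_erase, mem_inter] at hb
    have hbO : b ∈ On E (γ ^ 4 / 10 ^ 4) x' := by
      rcases Bn_or_On E (γ ^ 4 / 10 ^ 4) hb.1 with h1 | h1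
      · exact absurd h1 (hcon b hb.2.2)
      · exact h1
    have f := F2 h hx hbO
    have hsub : P2 ⊆ (nb E b ∩ P2) ∪ (nb E x \ nb E b) := by
      intro y hy
      rw [hP2, mem_inter] at hy
      simp only [mem_union, mem_inter, mem_sdiff, hP2]
      tauto
    have : (P2.card : ℝ) ≤ ((nb E b ∩ P2).card : ℝ) + ((nb E x \ nb E b).card : ℝ) := by
      exact_mod_cast (card_le_card hsub).trans (card_union_le _ _)
    linarith
  have q2 : ∀ a ∈ P2, ((nb E a ∩ P1).card : ℝ) ≤ 10 * s := by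
    intro a ha
    rw [hP2, mem_inter, mem_nb] at ha
    have hax : a ≠ x := (h.ll.ne ha.1).symm
    have haO : a ∈ On E (γ ^ 4 / 10 ^ 4) x := by
      rcases Bn_or_On E (γ ^ 4 / 10 ^ 4) hax with h1 | h1
      · exact absurd ha.2 (hcon a h1)
      · exact h1
    rw [mem_On, k1] at haO
    have hsub : nb E a ∩ P1 ⊆ nb E a ∩ nb E x := by
      intro y hy
      rw [mem_inter, hP1, mem_erase, mem_inter] at hy
      rw [mem_inter]
      exact ⟨hy.1, hy.2.2.1⟩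
    have : ((nb E a ∩ P1).card : ℝ) ≤ (cod E a x : ℝ) := by exact_mod_cast card_le_card hsub
    linarith [haO.2]
  have r1 : (P1.card : ℝ) * ((P2.card : ℝ) - (20 * s + 1)) ≤
      ∑ b ∈ P1, ((nb E b ∩ P2).card : ℝ) := by
    rw [← nsmul_eq_mul, ← sum_const]
    exact sum_le_sum q1
  have r2 : ∑ a ∈ P2, ((nb E a ∩ P1).card : ℝ) ≤ (P2.card : ℝ) * (10 * s) := by
    rw [← nsmul_eq_mul, ← sum_const]
    exact sum_le_sum q2
  have r3 : ∑ b ∈ P1, ((nb E b ∩ P2).card : ℝ) = ∑ a ∈ P2, ((nb E a ∩ P1).card : ℝ) := by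
    exact_mod_cast dc E P1 P2
  have r4 : (P1.card : ℝ) * ((P2.card : ℝ) - (20 * s + 1)) ≤ (P2.card : ℝ) * (10 * s) := by
    linarith
  have g1 : 20 * s ≤ (P1.card : ℝ) := by linarith
  have g2 : 42 * s + 2 ≤ (P2.card : ℝ) := by linarith
  nlinarith

/-- the vertex `u` of (Fin) (iii) -/
theorem lemC {E : Finset (Sym2 V)} {γ : ℝ} (h : Hyp E γ) {x x' : V}
    (hx : x' ∈ On E (γ ^ 4 / 10 ^ 4) x) {w u0 : V} {C1 : Finset V}
    (s7 : ∀ w ∈ C1, γ / 2 * (Fintype.card V : ℝ) ≤ ((nb E w ∩ C1).card : ℝ))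
    (s8 : ∀ u ∈ C1, (((C1 ∪ On E (γ ^ 4 / 10 ^ 4) w) \ nb E u).card : ℝ) ≤
        3 * (γ ^ 2 / 100) * (Fintype.card V : ℝ))
    (s9 : (1 / 2 - γ ^ 2 / 100) * (Fintype.card V : ℝ) ≤
        ((C1 ∪ On E (γ ^ 4 / 10 ^ 4) w).card : ℝ))
    (hu0 : u0 ∈ C1) (hu0x : u0 ∈ On E (γ ^ 4 / 10 ^ 4) x) (R : Finset V)
    (hR : (R.card : ℝ) ≤ γ ^ 4 / 10 ^ 5 * (Fintype.card V : ℝ)) :
    ∃ u ∈ C1, u ∉ R ∧ u ≠ x ∧ s(x, u) ∉ E ∧ u ∈ Bn E (γ ^ 4 / 10 ^ 4) x' := by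
  have k1 := h.c1
  have k2 := h.c2
  have k3 := h.c3
  have k4 := h.c4
  have k5 := h.big
  set Z : Finset V := C1 ∪ On E (γ ^ 4 / 10 ^ 4) w with hZ
  have z1 : ((nb E x ∩ Z).card : ℝ) ≤ 10 * (γ ^ 4 / 10 ^ 5 * (Fintype.card V : ℝ)) +
      3 * (γ ^ 2 / 100) * (Fintype.card V : ℝ) := by
    have e1 := cod_ge E Z u0 x
    have e2 := s8 u0 hu0
    rw [mem_On, k1] at hu0x
    linarith [hu0x.2]
  have z2 : γ / 2 * (Fintype.card V : ℝ) ≤ (C1.card : ℝ) := by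
    have e1 := s7 u0 hu0
    have e2 : ((nb E u0 ∩ C1).card : ℝ) ≤ (C1.card : ℝ) := by
      exact_mod_cast card_le_card inter_subset_right
    linarith
  set R2 : Finset V := (nb E x ∩ Z) ∪ (R ∪ {x, x'}) with hR2
  have z3 : (R2.card : ℝ) ≤ ((nb E x ∩ Z).card : ℝ) + R.card + 2 := by
    have e1 := card_union_le (nb E x ∩ Z) (R ∪ {x, x'})
    have e2 := card_union_le R {x, x'}
    have e3 : ({x, x'} : Finset V).card ≤ 2 := card_le_two
    rw [← hR2] at e1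
    exact_mod_cast (by omega)
  obtain ⟨u, hu, huR⟩ := fresh (S := C1) (R := R2) (by linarith)
  simp only [hR2, mem_union, mem_inter, mem_insert, mem_singleton, not_or, not_and] at huR
  obtain ⟨t1, t2, t3, t4⟩ := huR
  have huZ : u ∈ Z := mem_union_left _ hu
  have hxu : s(x, u) ∉ E := fun h1 => t1 (mem_nb.2 h1) huZ
  refine ⟨u, hu, t2, t3, hxu, ?_⟩
  rw [mem_Bn, k1]
  refine ⟨t4, ?_⟩
  have e1 := cod_ge E Z u x'
  have e2 := s8 u hu
  have e3 := F1 h hx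
  have e4 : Z ⊆ (nb E x' ∩ Z) ∪ (nb E x ∩ Z) ∪ (univ \ (nb E x' ∪ nb E x)) := by
    intro y hy
    simp only [mem_union, mem_inter, mem_sdiff, mem_univ, true_and]
    tauto
  have e5 : (Z.card : ℝ) ≤ ((nb E x' ∩ Z).card : ℝ) + ((nb E x ∩ Z).card : ℝ) +
      ((univ \ (nb E x' ∪ nb E x)).card : ℝ) := by
    have i1 := card_le_card e4
    have i2 := card_union_le ((nb E x' ∩ Z) ∪ (nb E x ∩ Z)) (univ \ (nb E x' ∪ nb E x))
    have i3 := card_union_le (nb E x' ∩ Z) (nb E x ∩ Z)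
    exact_mod_cast (by omega)
  linarith

end G

end SQ

end Pool.Agent.H483C6
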