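import Pool.Agent.H483C6.SQ5

/-!
# From seven-cycles to good vertices and the link (section 9), MP_1bffa4_co, helper168
-/

set_option autoImplicit false
set_option linter.unusedSectionVars false
set_option linter.unusedVariables false
set_option linter.unusedSimpArgs false

namespace Pool.Agent.H483C6

open Finset

namespace SQ

section H

variable {V : Type} [Fintype V] [DecidableEq V]

/-- (Cl) -/
theorem cl {E : Finset (Sym2 V)} {γ : ℝ} (h : Hyp E γ) (hS : SplitH E γ) {c m : ℕ}
    {D' : Finset (Sym2 V)}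
    (hG : ∀ x, GoodV E (γ ^ 4 / 10 ^ 4) (γ ^ 4 / 10 ^ 5) x → ∀ y ∈ Bn E (γ ^ 4 / 10 ^ 4) x,
      Goal E (γ ^ 4 / 10 ^ 5 * (Fintype.card V : ℝ)) c m D' (Wd x y)) :
    Goal E (γ ^ 4 / 10 ^ 5 * (Fintype.card V : ℝ)) (c + 60) (m + 50) D' IsHept := by
  intro R hR hD' D hDh hDE hDR
  have k1 := h.c1
  have k2 := h.c2
  have k3 := h.c3
  have k4 := h.big
  have hm0 : (0 : ℝ) ≤ m := Nat.cast_nonneg _
  push_cast at hR
  have fin : ∀ (R2 : Finset V), R ⊆ R2 → R2.card ≤ R.card + 50 → ∀ M x y,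
      GoodV E (γ ^ 4 / 10 ^ 4) (γ ^ 4 / 10 ^ 5) x → y ∈ Bn E (γ ^ 4 / 10 ^ 4) x → Wd x y M →
      M ⊆ E → M ⊆ R2.sym2 → Tr E R2.sym2 c M D' := by
    intro R2 i1 i2 M x y hx hy hW hME hMR
    refine hG x hx y hy R2 ?_ (hD'.trans (sym2_mono i1)) M hW hME hMR
    have : (R2.card : ℝ) ≤ R.card + 50 := by exact_mod_cast i2
    linarith
  obtain ⟨z, y, hzy, hW⟩ := cl1 h hDh
  obtain ⟨y1, hy1R, he1, hy1B⟩ := nbBf h y z R (by linarith)
  have main : Tr E R.sym2 (c + 48 + 12) D D' := by
    refine mv1 h y1 y R D he1 hy1R hzy hy1B hDR hD' hW hDE (by linarith) ?_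
    intro R2 M i1 i2 i3 i4 i5
    have i2' : (R2.card : ℝ) ≤ R.card + 8 := by exact_mod_cast i2
    have i5' := Wd.symm i5
    obtain ⟨z1, hz1R, he2, hz1B⟩ := nbBf h z y1 R2 (by linarith)
    have main2 : Tr E R2.sym2 (c + 36 + 12) M D' := by
      refine mv1 h z1 z R2 M he2 hz1R (mem_Bn_symm hy1B) hz1B i3 (hD'.trans (sym2_mono i1)) i5'
        i4 (by linarith) ?_
      intro R3 M3 j1 j2 j3 j4 j5
      have j2' : (R3.card : ℝ) ≤ R2.card + 8 := by exact_mod_cast j2
      by_cases hy1g : GoodV E (γ ^ 4 / 10 ^ 4) (γ ^ 4 / 10 ^ 5) y1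
      · exact (fin R3 (i1.trans j1) (by omega) M3 y1 z1 hy1g hz1B j5 j4 j3).mono Subset.rfl
          (by omega)
      by_cases hz1g : GoodV E (γ ^ 4 / 10 ^ 4) (γ ^ 4 / 10 ^ 5) z1
      · exact (fin R3 (i1.trans j1) (by omega) M3 z1 y1 hz1g (mem_Bn_symm hz1B) (Wd.symm j5) j4
          j3).mono Subset.rfl (by omega)
      obtain ⟨R', C0, C1, T0, s1, s2, s3, s4, s5, s6, s7, s8, s9, s10, s11, s12, s13, s14, s15⟩ :=
        hS z1 hz1g
      have hRR' : ((R3 ∪ R').card : ℝ) ≤ R3.card + R'.card := by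
        exact_mod_cast card_union_le R3 R'
      obtain ⟨y2, hy2R, he3, hy2B⟩ := nbBf h y1 z1 (R3 ∪ R') (by linarith)
      rw [mem_union, not_or] at hy2R
      have main3 : Tr E R3.sym2 (c + 24 + 12) M3 D' := by
        refine mv1 h y2 y1 R3 M3 he3 hy2R.1 (mem_Bn_symm hz1B) hy2B j3
          (hD'.trans (sym2_mono (i1.trans j1))) (Wd.symm j5) j4 (by linarith) ?_
        intro R4 M4 l1 l2 l3 l4 l5
        have l2' : (R4.card : ℝ) ≤ R3.card + 8 := by exact_mod_cast l2
        have hy2C : y2 ∈ C0 ∪ C1 := by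
          rw [s2, mem_sdiff]
          exact ⟨hy2B, hy2R.2⟩
        rw [mem_union] at hy2C
        rcases hy2C with hy2C | hy2C
        · -- y2 in C0
          obtain ⟨a, ha, haR⟩ := fresh (S := T0) (R := R4) (by linarith)
          have haC := (mem_inter.1 (s11 ha)).2
          have hC0B : C0 ⊆ Bn E (γ ^ 4 / 10 ^ 4) z1 := by
            intro x hx
            have : x ∈ C0 ∪ C1 := mem_union_left _ hx
            rw [s2] at this
            exact (mem_sdiff.1 this).1
          have e1 : ((nb E y2 ∩ C0).card : ℝ) ≤ (((nb E y2 ∩ C0) ∩ nb E a).card : ℝ) +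
              ((C0 \ nb E a).card : ℝ) := by
            have hsub : nb E y2 ∩ C0 ⊆ ((nb E y2 ∩ C0) ∩ nb E a) ∪ (C0 \ nb E a) := by
              intro x hx
              simp only [mem_union, mem_inter, mem_sdiff] at hx ⊢
              tauto
            exact_mod_cast (card_le_card hsub).trans (card_union_le _ _)
          have e2 := s6 y2 hy2C
          have e3 := s13 a ha
          obtain ⟨y3, hy3, hy3R⟩ := fresh (S := (nb E y2 ∩ C0) ∩ nb E a) (R := R4) (by linarith)
          simp only [mem_inter, mem_nb] at hy3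
          obtain ⟨⟨g1, g2⟩, g3⟩ := hy3
          have g3' : s(y3, a) ∈ E := by rw [Sym2.eq_swap]; exact g3
          have hy2R4 : y2 ∈ R4 := (Wd.mem l5 l3).2
          have main4 : Tr E R4.sym2 (c + 12 * [y3, a].length) M4 D' := by
            refine pmv h (c := c) [y3, a] y2 R4 M4 ?_ ?_ ?_ l3
              (hD'.trans (sym2_mono ((i1.trans j1).trans l1))) l5 l4 ?_ ?_
            · simp only [List.isChain_cons_cons, List.isChain_singleton, and_true]
              refine ⟨⟨g1, ?_⟩, g3', ?_⟩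
              · rw [mk_mem_sym2_iff]; exact fun hh => hy3R hh.2
              · rw [mk_mem_sym2_iff]; exact fun hh => hy3R hh.1
            · simp only [List.nodup_cons, List.mem_cons, List.not_mem_nil, or_false,
                not_false_iff, List.nodup_nil, and_true, not_or]
              refine ⟨⟨h.ll.ne g1, ?_⟩, h.ll.ne g3'⟩
              rintro rfl
              exact haR hy2R4
            · intro x hx
              simp only [List.mem_cons, List.not_mem_nil, or_false] at hx
              rcases hx with rfl | rfl | rfl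
              · exact hy2B
              · exact hC0B g2
              · exact hC0B haC
            · simp only [List.length_cons, List.length_nil]
              push_cast
              linarith
            · intro R5 M5 q1 q2 q3 q4 q5
              simp only [List.length_cons, List.length_nil] at q2
              have q5' : Wd z1 a M5 := by simpa using q5
              exact fin R5 (((i1.trans j1).trans l1).trans q1) (by omega) M5 a z1 (s15 a ha)
                (mem_Bn_symm (hC0B haC)) (Wd.symm q5') q4 q3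
          exact main4.mono Subset.rfl (by simp)
        · exact (fin R4 ((i1.trans j1).trans l1) (by omega) M4 y2 z1 (s14 y2 hy2C)
            (mem_Bn_symm hy2B) (Wd.symm l5) l4 l3).mono Subset.rfl (by omega)
      exact main3.mono Subset.rfl (by omega)
    exact main2.mono Subset.rfl (by omega)
  exact main.mono Subset.rfl (by omega)

/-- the LINK -/
theorem link {E : Finset (Sym2 V)} {γ : ℝ} (h : Hyp E γ) {x u : V} (hxu : s(x, u) ∉ E)
    (hne : x ≠ u) {R : Finset V} (hxR : x ∉ R) (huR : u ∉ R)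
    (hR : (R.card : ℝ) ≤ γ ^ 4 / 10 ^ 5 * (Fintype.card V : ℝ)) :
    ∃ (D1 D2 T : Finset (Sym2 V)) (w1 w2 : V) (R3 : Finset V), D1 ⊆ E ∧ D2 ⊆ E ∧ T ⊆ E ∧
      Wd x w1 D1 ∧ w1 ∈ Bn E (γ ^ 4 / 10 ^ 4) x ∧ Wd u w2 D2 ∧ w2 ∈ Bn E (γ ^ 4 / 10 ^ 4) u ∧
      Disjoint D1 R.sym2 ∧ Disjoint D2 R.sym2 ∧ Disjoint T R.sym2 ∧ Disjoint D1 D2 ∧
      Disjoint T D1 ∧ Disjoint T D2 ∧ T.card ≤ 5 ∧ Dec (T ∪ D1) ∧ Dec (T ∪ D2) ∧ R ⊆ R3 ∧
      R3.card ≤ R.card + 15 ∧ D1 ⊆ R3.sym2 ∧ D2 ⊆ R3.sym2 ∧ T ⊆ R3.sym2 := by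
  have k1 := h.c1
  have k2 := h.c2
  have k3 := h.c3
  have k4 := h.big
  -- common neighbour
  have hc : ∃ c, s(x, c) ∈ E ∧ s(c, u) ∈ E := by
    by_contra hcon
    push Not at hcon
    have e1 : Disjoint (nb E x) (nb E u) := by
      rw [disjoint_left]
      intro c h1 h2
      rw [mem_nb] at h1 h2
      exact hcon c h1 (by rw [Sym2.eq_swap]; exact h2)
    have e2 : nb E x ∪ nb E u ⊆ univ \ {x, u} := by
      intro c hc
      simp only [mem_union, mem_nb, mem_sdiff, mem_univ, true_and, mem_insert, mem_singleton,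
        not_or] at hc ⊢
      rcases hc with hc | hc
      · refine ⟨(h.ll.ne hc).symm, ?_⟩
        rintro rfl
        exact hxu hc
      · refine ⟨?_, (h.ll.ne hc).symm⟩
        rintro rfl
        exact hxu (by rw [Sym2.eq_swap]; exact hc)
    have e3 := card_le_card e2
    rw [card_union_of_disjoint e1] at e3
    have e4 : (univ \ {x, u} : Finset V).card + 2 = Fintype.card V := by
      rw [← card_univ, ← card_sdiff_add_card_eq_card (subset_univ ({x, u} : Finset V)),
        card_pair hne]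
    have e5 := h.deg x
    have e6 := h.deg u
    unfold dg at e5 e6
    omega
  obtain ⟨c, hxc, hcu⟩ := hc
  have hcx : c ≠ x := (h.ll.ne hxc).symm
  have hcu' : c ≠ u := h.ll.ne hcu
  obtain ⟨w1, hw1R, hw1e, hw1B⟩ := nbBf h u x (R ∪ {x, u, c}) (by
    have : ((R ∪ {x, u, c}).card : ℝ) ≤ R.card + 3 := by exact_mod_cast card_union3 R x u c
    linarith)
  obtain ⟨w2, hw2R, hw2e, hw2B⟩ := nbBf h x u (R ∪ {x, u, c, w1}) (by
    have : ((R ∪ {x, u, c, w1}).card : ℝ) ≤ R.card + 4 := by
      exact_mod_cast card_union4 R x u c w1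
    linarith)
  simp only [mem_union, mem_insert, mem_singleton, not_or] at hw1R hw2R
  obtain ⟨hw1R, hw1x, hw1u, hw1c⟩ := hw1R
  obtain ⟨hw2R, hw2x, hw2u, hw2c, hw21⟩ := hw2R
  set R1 : Finset V := (R ∪ {x, u, c, w1}) ∪ {w2} with hR1
  have hR1c : R1.card ≤ R.card + 5 := by
    have e1 := card_union_le (R ∪ {x, u, c, w1}) {w2}
    have e2 := card_union4 R x u c w1
    rw [card_singleton, ← hR1] at e1
    omega
  have hRR1 : R ⊆ R1 := subset_union_left.trans subset_union_left
  have hx1 : x ∈ R1 := by simp [hR1]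
  have hu1 : u ∈ R1 := by simp [hR1]
  have hc1 : c ∈ R1 := by simp [hR1]
  have hw11 : w1 ∈ R1 := by simp [hR1]
  have hw21' : w2 ∈ R1 := by simp [hR1]
  have hR1c' : (R1.card : ℝ) ≤ R.card + 5 := by exact_mod_cast hR1c
  obtain ⟨p, q, q', p', hp, hq, hq', hp', hn, hsub⟩ := cyc h hx1 hu1 hw11 hne
    (fun e => hw1x e.symm) hw1e (by linarith)
  set R2 : Finset V := R1 ∪ {p, q, q', p'} with hR2
  have hR12 : R1 ⊆ R2 := subset_union_left
  have hR2c : R2.card ≤ R1.card + 4 := card_union4 R1 p q q' p'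
  have hR2c' : (R2.card : ℝ) ≤ R1.card + 4 := by exact_mod_cast hR2c
  obtain ⟨r, t, t', r', hr, ht, ht', hr', hn2, hsub2⟩ := cyc h (hR12 hu1) (hR12 hx1)
    (hR12 hw21') hne.symm (fun e => hw2u e.symm) hw2e (by linarith)
  set R3 : Finset V := R2 ∪ {r, t, t', r'} with hR3
  have hR23 : R2 ⊆ R3 := subset_union_left
  have hR3c : R3.card ≤ R2.card + 4 := card_union4 R2 r t t' r'
  have hR3c' : (R3.card : ℝ) ≤ R2.card + 4 := by exact_mod_cast hR3c
  obtain ⟨a, b, ha, hb, hab, e1, e2, e3⟩ := tp h x u R3 (by linarith)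
  set R4 : Finset V := R3 ∪ {a, b} with hR4
  have hR34 : R3 ⊆ R4 := subset_union_left
  have hR4c : R4.card ≤ R3.card + 2 :=
    (card_union_le _ _).trans (Nat.add_le_add_left card_le_two _)
  have haR : a ∉ R := fun hh => ha (hR23 (hR12 (hRR1 hh)))
  have hbR : b ∉ R := fun hh => hb (hR23 (hR12 (hRR1 hh)))
  have hD1R : hept x p q u w1 q' p' ⊆ R2.sym2 := by
    apply hept_subset
    · exact hR12 hx1
    · simp [hR2]
    · simp [hR2]
    · exact hR12 hu1
    · exact hR12 hw11
    · simp [hR2]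
    · simp [hR2]
  have hD2R : hept u r t x w2 t' r' ⊆ R3.sym2 := by
    apply hept_subset
    · exact hR23 (hR12 hu1)
    · simp [hR3]
    · simp [hR3]
    · exact hR23 (hR12 hx1)
    · exact hR23 (hR12 hw21')
    · simp [hR3]
    · simp [hR3]
  have hTR : pent x c u b a ⊆ R4.sym2 := by
    apply pent_subset
    · exact hR34 (hR23 (hR12 hx1))
    · exact hR34 (hR23 (hR12 hc1))
    · exact hR34 (hR23 (hR12 hu1))
    · simp [hR4]
    · simp [hR4]
  have hTdis : ∀ D : Finset (Sym2 V), D ⊆ R3.sym2 → s(x, c) ∉ D → s(c, u) ∉ D →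
      Disjoint (pent x c u b a) D := by
    intro D hDR n1 n2
    rw [disjoint_left]
    intro e he heD
    rw [mem_pent] at he
    rcases he with rfl | rfl | rfl | rfl | rfl
    · exact n1 heD
    · exact n2 heD
    · exact hb (mk_mem_sym2_iff.1 (hDR heD)).2
    · exact hb (mk_mem_sym2_iff.1 (hDR heD)).1
    · exact ha (mk_mem_sym2_iff.1 (hDR heD)).1
  refine ⟨hept x p q u w1 q' p', hept u r t x w2 t' r', pent x c u b a, w1, w2, R4, hsub, hsub2,
    ?_, Wd_cyc' hn, hw1B, Wd_cyc' hn2, hw2B, ?_, ?_, ?_, ?_, ?_, ?_, card_pent_le _ _ _ _ _,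
    ?_, ?_, hRR1.trans (hR12.trans (hR23.trans hR34)), by omega,
    hD1R.trans (sym2_mono (hR23.trans hR34)), hD2R.trans (sym2_mono hR34), hTR⟩
  · intro e he
    rw [mem_pent] at he
    rcases he with rfl | rfl | rfl | rfl | rfl
    · exact hxc
    · exact hcu
    · rw [Sym2.eq_swap]; exact e3
    · rw [Sym2.eq_swap]; exact e2
    · rw [Sym2.eq_swap]; exact e1
  · refine cyc_disj (R := R) (fun hh => hp (hRR1 hh)) (fun hh => hq (hRR1 hh))
      (fun hh => hq' (hRR1 hh)) (fun hh => hp' (hRR1 hh)) Subset.rfl ?_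
    rw [mk_mem_sym2_iff]; exact fun hh => huR hh.1
  · refine cyc_disj (R := R) (fun hh => hr (hR12 (hRR1 hh))) (fun hh => ht (hR12 (hRR1 hh)))
      (fun hh => ht' (hR12 (hRR1 hh))) (fun hh => hr' (hR12 (hRR1 hh))) Subset.rfl ?_
    rw [mk_mem_sym2_iff]; exact fun hh => hxR hh.1
  · refine disjoint_left.2 ?_
    intro e he heD
    rw [mem_pent] at he
    rcases he with rfl | rfl | rfl | rfl | rfl
    · exact hxR (mk_mem_sym2_iff.1 heD).1
    · exact huR (mk_mem_sym2_iff.1 heD).2
    · exact hbR (mk_mem_sym2_iff.1 heD).2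
    · exact hbR (mk_mem_sym2_iff.1 heD).1
    · exact haR (mk_mem_sym2_iff.1 heD).1
  · refine (cyc_disj (R := R2) hr ht ht' hr' hD1R ?_).symm
    refine notMem_cyc (R := R1) hp hq hq' hp' hx1 hw21' ?_
    intro h0
    rw [Sym2.eq_iff] at h0
    rcases h0 with ⟨h0, -⟩ | ⟨h0, -⟩
    · exact hne h0
    · exact hw1x h0.symm
  · refine hTdis _ (hD1R.trans (sym2_mono hR23)) ?_ ?_
    · refine notMem_cyc (R := R1) hp hq hq' hp' hx1 hc1 ?_
      intro h0
      rw [Sym2.eq_iff] at h0
      rcases h0 with ⟨h0, -⟩ | ⟨h0, -⟩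
      · exact hne h0
      · exact hw1x h0.symm
    · refine notMem_cyc (R := R1) hp hq hq' hp' hc1 hu1 ?_
      intro h0
      rw [Sym2.eq_iff] at h0
      rcases h0 with ⟨h0, -⟩ | ⟨h0, -⟩
      · exact hcu' h0
      · exact hw1c h0.symm
  · refine hTdis _ hD2R ?_ ?_
    · refine notMem_cyc (R := R2) hr ht ht' hr' (hR12 hx1) (hR12 hc1) ?_
      intro h0
      rw [Sym2.eq_iff] at h0
      rcases h0 with ⟨-, h0⟩ | ⟨h0, -⟩
      · exact hw2c h0.symm
      · exact hw2x h0.symm
    · refine notMem_cyc (R := R2) hr ht ht' hr' (hR12 hc1) (hR12 hu1) ?_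
      intro h0
      rw [Sym2.eq_iff] at h0
      rcases h0 with ⟨h0, -⟩ | ⟨h0, -⟩
      · exact hcx h0
      · exact hw2c h0.symm
  · -- Dec (T ∪ D1)
    have hself : hept x p q u w1 q' p' ⊆ ({x, p, q, u, w1, q', p'} : Finset V).sym2 := by
      apply hept_subset <;> simp
    refine Wd.dec (Wd_cyc hn) hself ?_ ?_ ?_ ?_
    · simp only [mem_insert, mem_singleton, not_or]
      exact ⟨hcx, fun e => hp (e ▸ hc1), fun e => hq (e ▸ hc1), hcu', fun e => hw1c e.symm,
        fun e => hq' (e ▸ hc1), fun e => hp' (e ▸ hc1)⟩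
    · intro hh
      apply hb
      simp only [mem_insert, mem_singleton] at hh
      rcases hh with rfl | rfl | rfl | rfl | rfl | rfl | rfl
      · exact hR23 (hR12 hx1)
      · exact hR23 (by simp [hR2])
      · exact hR23 (by simp [hR2])
      · exact hR23 (hR12 hu1)
      · exact hR23 (hR12 hw11)
      · exact hR23 (by simp [hR2])
      · exact hR23 (by simp [hR2])
    · intro hh
      apply ha
      simp only [mem_insert, mem_singleton] at hh
      rcases hh with rfl | rfl | rfl | rfl | rfl | rfl | rfl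
      · exact hR23 (hR12 hx1)
      · exact hR23 (by simp [hR2])
      · exact hR23 (by simp [hR2])
      · exact hR23 (hR12 hu1)
      · exact hR23 (hR12 hw11)
      · exact hR23 (by simp [hR2])
      · exact hR23 (by simp [hR2])
    · simp only [List.nodup_cons, List.mem_cons, List.not_mem_nil, or_false, not_or,
        not_false_iff, List.nodup_nil, and_true]
      exact ⟨⟨fun e => hb (e ▸ hR23 (hR12 hc1)), fun e => ha (e ▸ hR23 (hR12 hc1))⟩,
        fun e => hab e.symm⟩
  · have hself : hept u r t x w2 t' r' ⊆ ({u, r, t, x, w2, t', r'} : Finset V).sym2 := by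
      apply hept_subset <;> simp
    refine Wd.dec (Wd.symm (Wd_cyc hn2)) hself ?_ ?_ ?_ ?_
    · simp only [mem_insert, mem_singleton, not_or]
      exact ⟨hcu', fun e => hr (e ▸ hR12 hc1), fun e => ht (e ▸ hR12 hc1), hcx,
        fun e => hw2c e.symm, fun e => ht' (e ▸ hR12 hc1), fun e => hr' (e ▸ hR12 hc1)⟩
    · intro hh
      apply hb
      simp only [mem_insert, mem_singleton] at hh
      rcases hh with rfl | rfl | rfl | rfl | rfl | rfl | rfl
      · exact hR23 (hR12 hu1)
      · simp [hR3]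
      · simp [hR3]
      · exact hR23 (hR12 hx1)
      · exact hR23 (hR12 hw21')
      · simp [hR3]
      · simp [hR3]
    · intro hh
      apply ha
      simp only [mem_insert, mem_singleton] at hh
      rcases hh with rfl | rfl | rfl | rfl | rfl | rfl | rfl
      · exact hR23 (hR12 hu1)
      · simp [hR3]
      · simp [hR3]
      · exact hR23 (hR12 hx1)
      · exact hR23 (hR12 hw21')
      · simp [hR3]
      · simp [hR3]
    · simp only [List.nodup_cons, List.mem_cons, List.not_mem_nil, or_false, not_or,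
        not_false_iff, List.nodup_nil, and_true]
      exact ⟨⟨fun e => hb (e ▸ hR23 (hR12 hc1)), fun e => ha (e ▸ hR23 (hR12 hc1))⟩,
        fun e => hab e.symm⟩

end H

end SQ

end Pool.Agent.H483C6
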